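import Mathlib
import Pool.Agent.Lib.H55C.Defs

/-!
# H55N: definitions

The 2-part of the Birch and Swinnerton-Dyer conjecture for y^2 + y = x^3 over all Galois
2-extensions of the field of cube roots of unity unramified outside the good primes. See PROOF.md.
-/

open NumberField IsDedekindDomain

namespace H55N

open H55B H55C

variable {K : Type} [Field K] [NumberField K] [Algebra F K] {m : ℕ}

/-- The prime element above 3. -/
noncomputable def lam : O := om - 1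

/-- The constant R0 of H55B (a period of the curve). -/
noncomputable def R0 : ℂ := R (e om - 1)

/-- The embeddings of K over the fixed embedding of F. -/
structure Emb (σ : Fin (m + 1) → K →+* ℂ) : Prop where
  ovr : ∀ i (x : F), σ i (algebraMap F K x) = emb x
  inj : Function.Injective σ
  fin : Module.finrank F K = m + 1

/-- Smoothing data: 2(m+1) primes of degree one with different residue characteristics. -/
structure Smooth (c : Fin (m + 1) × Fin 2 → Ideal (𝓞 K)) (p : Fin (m + 1) × Fin 2 → ℕ) : Prop where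
  norm : ∀ i, Ideal.absNorm (c i) = p i
  prime : ∀ i, (p i).Prime
  inj : Function.Injective p

/-- A residue class. -/
def XS (I : Ideal (𝓞 K)) (c₀ : 𝓞 K) : Set (𝓞 K) := {x | x - c₀ ∈ I}

open Classical in
/-- The smoothing weight. -/
noncomputable def gw (c : Fin (m + 1) × Fin 2 → Ideal (𝓞 K)) (p : Fin (m + 1) × Fin 2 → ℕ)
    (x : 𝓞 K) : ℂ := ∏ i, if x ∈ c i then 1 - (p i : ℂ) else 1

/-- The summand conj N(x) |N(x)|^(-2s). -/
noncomputable def nf (s : ℂ) (x : 𝓞 K) : ℂ := g s (emb (Algebra.norm F (x : K)))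

/-- T is a set of representatives of X modulo the units u = 1 mod J. -/
structure Transv (J : Ideal (𝓞 K)) (X T : Set (𝓞 K)) : Prop where
  sub : T ⊆ X
  cover : ∀ x ∈ X, ∃ r ∈ T, ∃ u : (𝓞 K)ˣ, (u : 𝓞 K) - 1 ∈ J ∧ x = u * r
  uniq : ∀ r ∈ T, ∀ r' ∈ T, ∀ u : (𝓞 K)ˣ, (u : 𝓞 K) - 1 ∈ J → r' = u * r → r' = r

/-! ### Iterated differences -/

/-- Iterated differences. -/
def Dif {M ι : Type} [AddCommGroup M] (w : ι → M) (S : Finset ι) (h : M → ℂ) (x : M) : ℂ :=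
  ∑ T ∈ S.powerset, (-1) ^ T.card * h (x - ∑ i ∈ T, w i)

/-- Slowly varying families of positive functions. -/
def SV {P M ι : Type} [AddCommGroup M] (X : Set M) (w : ι → M) (β : P → M → ℝ) : Prop :=
  (∀ q, ∀ x ∈ X, 0 < β q x) ∧
  ∃ C : ℝ, ∀ q, ∀ x ∈ X, ∀ i, β q (x - w i) ≤ C * β q x ∧ β q x ≤ C * β q (x - w i)

/-- Families of functions of size β whose differences in the direction i gain the factor γ i. -/
def Good {P M ι : Type} [AddCommGroup M] (X : Set M) (w : ι → M) (γ : ι → M → ℝ) (β : P → M → ℝ)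
    (h : P → M → ℂ) : Prop :=
  ∃ C : ℝ, ∀ q, ∀ S : Finset ι, ∀ x ∈ X, ‖Dif w S (h q) x‖ ≤ C * β q x * ∏ i ∈ S, γ i x

/-! ### Labels and the Kuhn triangulation -/

/-- Labels. -/
inductive Lab (K : Type) (m : ℕ)
  | T (t : Fin (m + 1) → ℝ) : Lab K m
  | A (a : K) : Lab K m

/-- The vertices of the Kuhn simplices. -/
def kv {m : ℕ} (a : Fin m → ℤ) (π : Equiv.Perm (Fin m)) (j : ℕ) : Fin m → ℤ :=
  fun k => a k + if ((π.symm k : Fin m) : ℕ) < j then 1 else 0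

/-- The alternating sum over the Kuhn triangulation of a cube of side N. -/
noncomputable def CN {Λ : Type} {m : ℕ} (N : ℕ) (J : (Fin (m + 1) → Λ) → ℂ)
    (L : (Fin m → ℤ) → Λ) : ℂ :=
  ∑ a : Fin m → Fin N, ∑ π : Equiv.Perm (Fin m),
    ((Equiv.Perm.sign π : ℤ) : ℂ) * J fun j => L (kv (fun k => ((a k : ℕ) : ℤ)) π j)

/-- The vertices of the prism over a simplex. -/
def prism {Λ V : Type} (L L' : V → Λ) (v : ℕ → V) (i k : ℕ) : Λ :=
  if k ≤ i then L (v k) else L' (v (k - 1))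

/-- The point with logarithms lam z. -/
noncomputable def tt {m : ℕ} (lm : Fin (m + 1) → Fin m → ℝ) (z : Fin m → ℝ) (i : Fin (m + 1)) : ℝ :=
  Real.exp (∑ j, z j * lm i j)

/-- The determinant of the matrix (1 | lm). -/
noncomputable def Delta {m : ℕ} (lm : Fin (m + 1) → Fin m → ℝ) : ℝ :=
  Matrix.det (Matrix.of fun i j : Fin (m + 1) => (Fin.cons 1 (lm i) : Fin (m + 1) → ℝ) j)

/-! ### The context -/

/-- The data of the analytic core. -/
structure Ctx (K : Type) [Field K] [NumberField K] [Algebra F K] (m : ℕ) where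
  σ : Fin (m + 1) → K →+* ℂ
  I : Ideal (𝓞 K)
  c₀ : 𝓞 K
  c : Fin (m + 1) × Fin 2 → Ideal (𝓞 K)
  p : Fin (m + 1) × Fin 2 → ℕ

namespace Ctx

variable (D : Ctx K m)

/-- The residue class. -/
def X : Set (𝓞 K) := XS D.I D.c₀

/-- The weight. -/
noncomputable def g (x : 𝓞 K) : ℂ := gw D.c D.p x

/-- The assumptions. -/
structure Ok : Prop where
  emb : Emb D.σ
  ne : D.c₀ ∉ D.I
  smooth : Smooth D.c D.p

/-- The quadratic forms. -/
noncomputable def Q (t : Fin (m + 1) → ℝ) (x : 𝓞 K) : ℝ := ∑ i, t i * ‖D.σ i x‖ ^ 2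

/-- The size. -/
noncomputable def sz (x : 𝓞 K) : ℝ := 1 + ∑ i, ‖D.σ i x‖

/-- The norm. -/
noncomputable def N (x : 𝓞 K) : ℂ := ∏ i, D.σ i x

/-- The trace of a x. -/
noncomputable def Tr (a : K) (x : 𝓞 K) : ℂ := ∑ i, D.σ i ((x : K) * a)

/-- The cutoff functions. -/
noncomputable def cut (B : Matrix (Fin (m + 1)) (Fin (m + 1)) ℂ) (R : ℝ) (x : 𝓞 K) : ℝ :=
  (R ^ 2 / (R ^ 2 + ∑ i, ‖∑ j, B i j * D.σ j x‖ ^ 2)) ^ (m + 2)

/-- The product cutoff functions. -/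
noncomputable def pcut (A : Fin (m + 1) → K) (R : ℝ) (x : 𝓞 K) : ℝ :=
  ∏ k, R ^ 2 / (R ^ 2 + ‖D.Tr (A k) x‖ ^ 2)

/-- S is the regularised sum of g h over X. -/
def HasReg (h : 𝓞 K → ℂ) (S : ℂ) : Prop :=
  (∃ C : ℝ, ∀ x ∈ D.X, ‖h x‖ ≤ C) ∧
  ∀ B : Matrix (Fin (m + 1)) (Fin (m + 1)) ℂ, B.det ≠ 0 →
    Filter.Tendsto (fun R : ℝ => ∑' x : D.X, D.g x * h x * (D.cut B R x : ℂ)) Filter.atTop (nhds S)

/-- The row of a label. -/
noncomputable def row (l : Lab K m) (x : 𝓞 K) (i : Fin (m + 1)) : ℂ :=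
  match l with
  | .T t => (starRingEnd ℂ) (D.σ i x) * t i / D.Q t x
  | .A a => D.σ i a / D.Tr a x

/-- The determinant of the rows of m + 1 labels. -/
noncomputable def Idet (L : Fin (m + 1) → Lab K m) (x : 𝓞 K) : ℂ :=
  Matrix.det (Matrix.of fun j i => D.row (L j) x i)

open Classical in
/-- The regularised sum of the determinant. -/
noncomputable def Jv (L : Fin (m + 1) → Lab K m) : ℂ :=
  if h : ∃ S, D.HasReg (D.Idet L) S then h.choose else 0

/-- A dual pair of a basis of K/F and directions adapted to the smoothing primes. -/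
structure Dirs (A : Fin (m + 1) → K) (w : Fin (m + 1) × Fin 2 → 𝓞 K) : Prop where
  mem : ∀ i, w i ∈ D.I
  self : ∀ i, w i ∉ D.c i
  oth : ∀ i k, k ≠ i → w i ∈ D.c k
  orth : ∀ i k, k ≠ i.1 → D.Tr (A k) (w i) = 0
  int : ∀ x ∈ D.X, ∀ k, ∃ y : O, D.Tr (A k) x = e y
  low : ∀ x ∈ D.X, ∀ k, 1 ≤ ‖D.Tr (A k) x‖
  ind : LinearIndependent F A

/-- The gains in the directions w. -/
noncomputable def gl (A : Fin (m + 1) → K) (i : Fin (m + 1) × Fin 2) (x : 𝓞 K) : ℝ :=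
  (1 + ‖D.Tr (A i.1) x‖)⁻¹

/-- The weight of the regularisable functions. -/
noncomputable def bl (A : Fin (m + 1) → K) (x : 𝓞 K) : ℝ := ∏ k, (1 + ‖D.Tr (A k) x‖)⁻¹

/-- G is a bounded function with g = D G (summation by parts). -/
def GSpec (w : Fin (m + 1) × Fin 2 → 𝓞 K) (G : 𝓞 K → ℂ) : Prop :=
  (∃ C : ℝ, ∀ x, ‖G x‖ ≤ C) ∧ ∀ h : 𝓞 K → ℂ, Summable (fun x : D.X => ‖h x‖) →
    ∑' x : D.X, D.g x * h x = ∑' x : D.X, G x * Dif w Finset.univ h x

/-- The logarithms of the units. -/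
noncomputable def lm (u : Fin m → (𝓞 K)ˣ) (i : Fin (m + 1)) (j : Fin m) : ℝ :=
  2 * Real.log ‖D.σ i ((u j : 𝓞 K) : K)‖

/-- Units of norm one acting on X, with nonzero regulator. -/
structure UOk (u : Fin m → (𝓞 K)ˣ) : Prop where
  act : ∀ j, ((u j : 𝓞 K) - 1) * D.c₀ ∈ D.I
  norm : ∀ j, ∏ i, D.σ i ((u j : 𝓞 K) : K) = 1
  reg : Delta (D.lm u) ≠ 0

/-- The action of the units on the labels. -/
noncomputable def act (v : (𝓞 K)ˣ) (l : Lab K m) : Lab K m :=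
  match l with
  | .T t => .T fun i => ‖D.σ i ((v : 𝓞 K) : K)‖ ^ 2 * t i
  | .A a => .A (((v : 𝓞 K) : K) * a)

/-- The family conj N(x) Q_t(x)^(-(m+1)s). -/
noncomputable def fs (t : Fin (m + 1) → ℝ) (s : ℂ) (x : 𝓞 K) : ℂ :=
  (starRingEnd ℂ) (D.N x) * (D.Q t x : ℂ) ^ (-((m + 1 : ℕ) * s))

/-- The regularised sum of conj N / prod Q. -/
noncomputable def Bv (w : Fin (m + 1) × Fin 2 → 𝓞 K) (G : 𝓞 K → ℂ)
    (t : Fin (m + 1) → Fin (m + 1) → ℝ) : ℂ :=
  ∑' x : D.X, G x * Dif w Finset.univ (fun x => (starRingEnd ℂ) (D.N x) / ∏ j, (D.Q (t j) x : ℂ)) x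

end Ctx

/-- The unit u^z. -/
noncomputable def uu (u : Fin m → (𝓞 K)ˣ) (z : Fin m → ℤ) : (𝓞 K)ˣ := ∏ j, u j ^ z j

/-- The normalising integral. -/
noncomputable def cst {m : ℕ} (lm : Fin (m + 1) → Fin m → ℝ) (s : ℂ) : ℂ :=
  ∫ z : Fin m → ℝ, ((∑ i, tt lm z i : ℝ) : ℂ) ^ (-((m + 1 : ℕ) * s))

/-- The first Eisenstein sum with a rational cutoff. -/
noncomputable def sR (R : ℝ) (z : ℂ) : ℂ :=
  ∑' x : O, (z + 3 * e x)⁻¹ * ((R ^ 2 / (R ^ 2 + ‖z + 3 * e x‖ ^ 2) : ℝ) : ℂ)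

/-- Integrality above 2. -/
def Int2 (z : ℂ) : Prop := ∀ V : ValuationSubring ℂ, V.valuation 2 < 1 → V.valuation z ≤ 1

end H55N
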