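import Mathlib
import Pool.Agent.Lib.H55B.Z3
import Pool.Agent.Lib.H55C.Defs
import Pool.Agent.Lib.H55N.Defs

/-!
# H55N, part H: definitions for the Hecke L-functions. See PROOF_H.md.
-/

open NumberField IsDedekindDomain

namespace H55N

open H55B H55C

open Classical in
/-- The primary generator of an ideal of O prime to 3, and 0 for the other ideals. -/
noncomputable def pg (J : Ideal O) : O :=
  if h : ∃ x : O, J = Ideal.span {x} ∧ Prim x then h.choose else 0

theorem pg_span {x : O} (hx : Prim x) : pg (Ideal.span {x}) = x := by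
  have h : ∃ y : O, Ideal.span {x} = Ideal.span {y} ∧ Prim y := ⟨x, rfl, hx⟩
  unfold pg
  rw [dif_pos h]
  exact h.choose_spec.2.eq_of_associated hx
    (Ideal.span_singleton_eq_span_singleton.1 h.choose_spec.1.symm)

theorem pg_of_not {J : Ideal O} (h : ¬ ∃ x : O, J = Ideal.span {x} ∧ Prim x) : pg J = 0 :=
  dif_neg h

theorem exists_prim_iff {J : Ideal O} (hJ : J ≠ ⊥) :
    (∃ x : O, J = Ideal.span {x} ∧ Prim x) ↔ IsCoprime J (Ideal.span {3}) := by
  constructor
  · rintro ⟨x, rfl, hx⟩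
    rw [Ideal.isCoprime_span_singleton_iff]
    exact hx.coprime
  · intro h
    obtain ⟨y, hy⟩ := (IsPrincipalIdealRing.principal J).principal
    have hy' : J = Ideal.span {y} := hy
    rw [hy', Ideal.isCoprime_span_singleton_iff] at h
    obtain ⟨u, hu⟩ := exists_unit_prim h
    refine ⟨u * y, ?_, hu⟩
    rw [hy', mul_comm, Ideal.span_singleton_mul_right_unit u.isUnit]

theorem not_prim_mul {J J' : Ideal O} (h : ¬ ∃ x : O, J = Ideal.span {x} ∧ Prim x) :
    ¬ ∃ x : O, J * J' = Ideal.span {x} ∧ Prim x := by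
  rintro ⟨x, hx, hp⟩
  have h0 : J * J' ≠ ⊥ := by
    rw [hx]
    intro h0
    exact hp.ne_zero (Ideal.span_singleton_eq_bot.1 h0)
  have hJ : J ≠ ⊥ := by
    rintro rfl
    exact h0 (by simp)
  apply h
  rw [exists_prim_iff hJ]
  have h1 := (exists_prim_iff h0).1 ⟨x, hx, hp⟩
  exact h1.of_mul_left_left

theorem pg_mul (J J' : Ideal O) : pg (J * J') = pg J * pg J' := by
  by_cases h : ∃ x : O, J = Ideal.span {x} ∧ Prim x
  · by_cases h' : ∃ x : O, J' = Ideal.span {x} ∧ Prim x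
    · obtain ⟨x, rfl, hx⟩ := h
      obtain ⟨y, rfl, hy⟩ := h'
      rw [Ideal.span_singleton_mul_span_singleton, pg_span hx, pg_span hy, pg_span (hx.mul hy)]
    · rw [pg_of_not h', mul_zero, mul_comm]
      exact pg_of_not (not_prim_mul h')
  · rw [pg_of_not h, zero_mul]
    exact pg_of_not (not_prim_mul h)

/-- The conjugate of the Hecke character of E27 over F, as a function on ideals. -/
noncomputable def psiF : Ideal O →*₀ ℂ where
  toFun J := (starRingEnd ℂ) (e (pg J))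
  map_zero' := by
    have : ¬ ∃ x : O, (0 : Ideal O) = Ideal.span {x} ∧ Prim x := by
      rintro ⟨x, hx, hp⟩
      exact hp.ne_zero (Ideal.span_singleton_eq_bot.1 hx.symm)
    rw [pg_of_not this, map_zero, map_zero]
  map_one' := by
    have : (1 : Ideal O) = Ideal.span {1} := by simp
    rw [this, pg_span prim_one, map_one, map_one]
  map_mul' J J' := by rw [pg_mul, map_mul, map_mul]

theorem psiF_apply (J : Ideal O) : psiF J = (starRingEnd ℂ) (e (pg J)) := rfl

variable (K : Type) [Field K] [NumberField K] [Algebra F K]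

/-- The conjugate of the Hecke character of E27 over K, as a function on ideals: the primary
generator of the relative norm. -/
noncomputable def Psi : Ideal (𝓞 K) →*₀ ℂ := psiF.comp (Ideal.relNorm O : Ideal (𝓞 K) →*₀ Ideal O)

variable {K}

/-- The general term of a Dirichlet series over the ideals. -/
noncomputable def tm (h : Ideal (𝓞 K) → ℂ) (s : ℂ) (a : Ideal (𝓞 K)) : ℂ :=
  h a * (Ideal.absNorm a : ℂ) ^ (-s)

/-- The general term of a Dirichlet series with completely multiplicative coefficients. -/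
noncomputable def tmH (h : Ideal (𝓞 K) →*₀ ℂ) (s : ℂ) : Ideal (𝓞 K) →*₀ ℂ where
  toFun := tm h s
  map_zero' := by
    unfold tm
    rw [map_zero, zero_mul]
  map_one' := by
    unfold tm
    rw [map_one, map_one, Nat.cast_one, Complex.one_cpow, one_mul]
  map_mul' a b := by
    unfold tm
    rw [map_mul, map_mul, Nat.cast_mul, Complex.natCast_mul_natCast_cpow]
    ring

open Classical in
/-- The trivial character modulo f. -/
noncomputable def oneI (f : Ideal (𝓞 K)) : Ideal (𝓞 K) →*₀ ℂ where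
  toFun a := if a ≠ ⊥ ∧ IsCoprime a f then 1 else 0
  map_zero' := by simp
  map_one' := by
    rw [if_pos]
    exact ⟨one_ne_zero, isCoprime_one_left⟩
  map_mul' a b := by
    have h : (a * b ≠ ⊥ ∧ IsCoprime (a * b) f) ↔
        (a ≠ ⊥ ∧ IsCoprime a f) ∧ (b ≠ ⊥ ∧ IsCoprime b f) := by
      rw [IsCoprime.mul_left_iff]
      have : a * b ≠ ⊥ ↔ a ≠ ⊥ ∧ b ≠ ⊥ := mul_ne_zero_iff
      rw [this]
      tauto
    by_cases h1 : a ≠ ⊥ ∧ IsCoprime a f
    · by_cases h2 : b ≠ ⊥ ∧ IsCoprime b f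
      · rw [if_pos h1, if_pos h2, if_pos (h.2 ⟨h1, h2⟩), one_mul]
      · rw [if_neg h2, if_neg fun h3 => h2 (h.1 h3).2, mul_zero]
    · rw [if_neg h1, if_neg fun h3 => h1 (h.1 h3).1, zero_mul]

/-- The L-series of h converges for Re s > 3/2, continues to Re s > 1/2 and its value at 1, divided by
the power of the period, is a 2-adic unit. -/
def LV (h : Ideal (𝓞 K) →*₀ ℂ) : Prop :=
  ∃ Λ : ℂ → ℂ, AnalyticOnNhd ℂ Λ {s | 1 / 2 < s.re} ∧
    (∀ s : ℂ, 3 / 2 < s.re → HasSum (tm h s) (Λ s)) ∧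
    Unit2 (Λ 1 / R0 ^ Module.finrank F K)

/-- Quadratic characters with conductor dividing f, on ideals, trivial on principal ideals of
elements congruent to 1 modulo f; f is a product of primes above good primes. -/
structure QChr (f : Ideal (𝓞 K)) (χ : Ideal (𝓞 K) →*₀ ℂ) : Prop where
  ne : f ≠ ⊥
  good : ∀ (w : HeightOneSpectrum (𝓞 K)) (v : HeightOneSpectrum O), f ≤ w.asIdeal →
    v.asIdeal = w.asIdeal.under O → H55C.Good v
  val : ∀ a : Ideal (𝓞 K), a ≠ ⊥ → IsCoprime a f → χ a = 1 ∨ χ a = -1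
  zero : ∀ a : Ideal (𝓞 K), ¬ IsCoprime a f → χ a = 0
  per : ∀ x y : 𝓞 K, x ≠ 0 → y ≠ 0 → IsCoprime (Ideal.span {x}) f → x - y ∈ f →
    χ (Ideal.span {x}) = χ (Ideal.span {y})

/-- Arithmetic functions from functions on ideals. -/
noncomputable def AI (h : Ideal (𝓞 K) → ℂ) : ArithmeticFunction ℂ where
  toFun n := if n = 0 then 0 else ∑ᶠ (a : Ideal (𝓞 K)) (_ : Ideal.absNorm a = n), h a
  map_zero' := if_pos rfl

/-- The decomposition law in a quadratic extension K'/K with character chi. -/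
def SplitChr (K K' : Type) [Field K] [NumberField K] [Field K'] [NumberField K'] [Algebra K K']
    (χ : Ideal (𝓞 K) →*₀ ℂ) : Prop :=
  ∀ w : HeightOneSpectrum (𝓞 K),
    (χ w.asIdeal = 1 ∧ ∃ W₁ W₂ : HeightOneSpectrum (𝓞 K'), W₁ ≠ W₂ ∧
      {W : HeightOneSpectrum (𝓞 K') | W.asIdeal.under (𝓞 K) = w.asIdeal} = {W₁, W₂} ∧
      Ideal.relNorm (𝓞 K) W₁.asIdeal = w.asIdeal ∧ Ideal.relNorm (𝓞 K) W₂.asIdeal = w.asIdeal) ∨
    (χ w.asIdeal = -1 ∧ ∃ W : HeightOneSpectrum (𝓞 K'),
      {W : HeightOneSpectrum (𝓞 K') | W.asIdeal.under (𝓞 K) = w.asIdeal} = {W} ∧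
      Ideal.relNorm (𝓞 K) W.asIdeal = w.asIdeal ^ 2) ∨
    (χ w.asIdeal = 0 ∧ ∃ W : HeightOneSpectrum (𝓞 K'),
      {W : HeightOneSpectrum (𝓞 K') | W.asIdeal.under (𝓞 K) = w.asIdeal} = {W} ∧
      Ideal.relNorm (𝓞 K) W.asIdeal = w.asIdeal)

/-- Data of the class decomposition modulo 3f: representatives b of the ideal classes, of the classes
modulo 3fb, and transversals. -/
structure CD (f : Ideal (𝓞 K)) (ι : Type) (b : ι → Ideal (𝓞 K)) (c₀ : ι → 𝓞 K)
    (T : ι → Set (𝓞 K)) : Prop where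
  ne : ∀ i, b i ≠ ⊥
  cop : ∀ i, IsCoprime (b i) (Ideal.span {6} * f)
  mem : ∀ i, c₀ i ∈ b i
  prim : ∀ i, ∀ w : HeightOneSpectrum (𝓞 K), Ideal.span {3} * f ≤ w.asIdeal →
    c₀ i ∉ w.asIdeal * b i
  trans : ∀ i, Transv (Ideal.span {3} * f) (XS (Ideal.span {3} * f * b i) (c₀ i)) (T i)
  bij : ∀ a : Ideal (𝓞 K), a ≠ ⊥ → IsCoprime a (Ideal.span {3} * f) →
    ∃! q : Σ i, T i, a * b q.1 = Ideal.span {(q.2 : 𝓞 K)}

end H55N
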