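import Mathlib
import Pool.Agent.Lib.H55B.H2
import Pool.Agent.Lib.H55C.W8

open NumberField IsDedekindDomain

namespace H55N

open H55B H55C

/-! Chunk H11 (M): representatives of ideal classes. exists_mem_cop: IsDedekindDomain.exists_sup_span_eq for J * g <= J
gives x with J g + (x) = J (if x = 0 this forces g = 1, then take any nonzero x in J and b = (x)/J, coprime to 1); (x) = J b by
divisibility, and J g + J b = J gives g + b = 1 (cancel J). exists_rep: choose an integral ideal J in the class kappa⁻¹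
(ClassGroup.mk0_surjective), x and b from exists_mem_cop: J b = (x), so the class of b is kappa. -/

variable {K : Type} [Field K] [NumberField K]

theorem exists_mem_cop (J g : Ideal (𝓞 K)) (hJ : J ≠ ⊥) (hg : g ≠ ⊥) :
    ∃ x ∈ J, ∃ b : Ideal (𝓞 K), x ≠ 0 ∧ Ideal.span {x} = J * b ∧ IsCoprime b g := by
  obtain ⟨x, hx⟩ := IsDedekindDomain.exists_sup_span_eq (I := J * g) (J := J) Ideal.mul_le_left
    (mul_ne_zero hJ hg)
  by_cases hx0 : x = 0
  · subst hx0
    have h1 : J * g = J := by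
      rw [Ideal.span_singleton_eq_bot.2 rfl, sup_bot_eq] at hx
      exact hx
    have h2 : g = ⊤ := by
      have h3 : J * g = J * 1 := by rw [h1, mul_one]
      have h4 := mul_left_cancel₀ (show J ≠ 0 from hJ) h3
      rw [h4]
      exact Ideal.one_eq_top
    obtain ⟨y, hy, hy0⟩ := Submodule.exists_mem_ne_zero_of_ne_bot hJ
    have h3 : J ∣ Ideal.span {y} := by
      rw [Ideal.dvd_iff_le, Ideal.span_singleton_le_iff_mem]
      exact hy
    obtain ⟨b, hb⟩ := h3
    refine ⟨y, hy, b, hy0, hb, ?_⟩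
    rw [h2, ← Ideal.one_eq_top]
    exact isCoprime_one_right
  · have hxJ : x ∈ J := by
      rw [← hx]
      exact Ideal.mem_sup_right (Ideal.mem_span_singleton_self x)
    have h3 : J ∣ Ideal.span {x} := by
      rw [Ideal.dvd_iff_le, Ideal.span_singleton_le_iff_mem]
      exact hxJ
    obtain ⟨b, hb⟩ := h3
    refine ⟨x, hxJ, b, hx0, hb, ?_⟩
    rw [hb] at hx
    have h4 : J * (g ⊔ b) = J * 1 := by
      rw [Ideal.mul_sup, hx, mul_one]
    have h5 := mul_left_cancel₀ (show J ≠ 0 from hJ) h4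
    rw [Ideal.isCoprime_iff_sup_eq, sup_comm, h5]
    exact Ideal.one_eq_top

theorem exists_rep (g : Ideal (𝓞 K)) (hg : g ≠ ⊥) (κ : ClassGroup (𝓞 K)) :
    ∃ (b : Ideal (𝓞 K)) (hb : b ≠ ⊥), IsCoprime b g ∧
      ClassGroup.mk0 ⟨b, mem_nonZeroDivisors_iff_ne_zero.2 hb⟩ = κ := by
  obtain ⟨J, hJ⟩ := ClassGroup.mk0_surjective κ⁻¹
  have hJ0 : (J : Ideal (𝓞 K)) ≠ ⊥ := mem_nonZeroDivisors_iff_ne_zero.1 J.2
  obtain ⟨x, hx, b, hx0, hb, hcop⟩ := exists_mem_cop (J : Ideal (𝓞 K)) g hJ0 hg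
  have hb0 : b ≠ ⊥ := by
    rintro rfl
    apply hx0
    rw [← Ideal.span_singleton_eq_bot, hb]
    exact mul_zero _
  refine ⟨b, hb0, hcop, ?_⟩
  have h1 : ClassGroup.mk0 (J * ⟨b, mem_nonZeroDivisors_iff_ne_zero.2 hb0⟩) = 1 := by
    rw [ClassGroup.mk0_eq_one_iff]
    refine ⟨⟨x, ?_⟩⟩
    show (J : Ideal (𝓞 K)) * b = _
    rw [← hb]
  rw [map_mul, hJ] at h1
  exact (inv_mul_eq_one.1 h1).symm

end H55N
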