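import Mathlib
import Pool.Agent.Lib.H55N.H11
import Pool.Agent.Lib.H55N.HD

open NumberField IsDedekindDomain

namespace H55N

open H55B H55C

/-! Chunk H12 (M/L): the class decomposition. unit_cong: (c0) = b d with d prime to 3f (if a prime w containing 3f contains d then
c0 is in w b); (u - 1)(c0) <= 3f b gives (u - 1) d <= 3f (cancel b), hence (u - 1) <= 3f.
exists_CD: for every class kappa in the class group (finite) take b = b_kappa with class kappa, prime to 6f (exists_rep). On the set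
P of primitive x in b (x not in w b for all w containing 3f) consider x ~ y iff some unit u has u x - y in 3fb (an equivalence
relation; primitivity only depends on the class modulo 3fb, since 3fb <= wb). As b/3fb is finite, there is a finite set of
representatives R. iota = the pairs (kappa, r), r in R_kappa. T(kappa, r) = a transversal of XS (3fb) r modulo the units = 1 mod 3f
(choice of one element in every class of the equivalence relation x' = u x; note that 3f x <= 3fb so that u x stays in XS).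
bij, existence: a prime to 3f; let kappa be the inverse of the class of a, so a b = (x) (ClassGroup.mk0_eq_one_iff), x in b, x is
primitive (x in w b gives a <= w); u x - r in 3fb for some r in R and unit u, and u x = u1 t with t in T, u1 = 1 mod 3f; (t) = (x).
Uniqueness: a b = (x) = (x') with x in T(kappa, r), x' in T(kappa, r') (the class kappa is determined by a): x' = u x, so
r' = u r mod 3fb (u x - u r and x' - r' in 3fb), r = r'; (u - 1) r in 3fb, so u = 1 mod 3f by unit_cong, and x' = x by uniqueness in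
the transversal. -/

variable {K : Type} [Field K] [NumberField K]

theorem h12_cong (J b : Ideal (𝓞 K)) (hJ : J ≠ ⊥) (hb : b ≠ ⊥) (c₀ : 𝓞 K) (hc : c₀ ∈ b)
    (hp : ∀ w : HeightOneSpectrum (𝓞 K), J ≤ w.asIdeal → c₀ ∉ w.asIdeal * b)
    (t : 𝓞 K) (ht : t * c₀ ∈ J * b) : t ∈ J := by
  obtain ⟨d, hd⟩ : b ∣ Ideal.span {c₀} := Ideal.dvd_span_singleton.2 hc
  have hcop : IsCoprime d J := by
    rw [Ideal.isCoprime_iff_sup_eq]
    by_contra hne
    obtain ⟨P, hP, hle⟩ := Ideal.exists_le_maximal _ hne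
    have hdP : d ≤ P := le_sup_left.trans hle
    have hJP : J ≤ P := le_sup_right.trans hle
    have hP0 : P ≠ ⊥ := fun h => hJ (le_bot_iff.1 (h ▸ hJP))
    refine hp ⟨P, hP.isPrime, hP0⟩ hJP ?_
    show c₀ ∈ P * b
    rw [← Ideal.span_singleton_le_iff_mem, hd, mul_comm P b]
    exact Ideal.mul_mono_right hdP
  have h1 : J * b ∣ Ideal.span {t} * Ideal.span {c₀} := by
    rw [Ideal.span_singleton_mul_span_singleton]
    exact Ideal.dvd_span_singleton.2 ht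
  rw [hd, mul_comm b d, ← mul_assoc] at h1
  have h2 : J ∣ Ideal.span {t} * d := (mul_dvd_mul_iff_right hb).1 h1
  exact Ideal.dvd_span_singleton.1 (hcop.symm.dvd_of_dvd_mul_right h2)

/-- Existence of transversals. -/
theorem h12_transv (J : Ideal (𝓞 K)) (X : Set (𝓞 K)) : ∃ T, Transv J X T := by
  let S : Setoid X :=
    { r := fun x y => ∃ u : (𝓞 K)ˣ, (u : 𝓞 K) - 1 ∈ J ∧ (y : 𝓞 K) = u * x
      iseqv := by
        refine ⟨fun x => ⟨1, ?_, ?_⟩, ?_, ?_⟩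
        · simp
        · simp
        · rintro x y ⟨u, hu, h⟩
          refine ⟨u⁻¹, ?_, ?_⟩
          · have : ((u⁻¹ : (𝓞 K)ˣ) : 𝓞 K) - 1 = -((u⁻¹ : (𝓞 K)ˣ) : 𝓞 K) * ((u : 𝓞 K) - 1) := by
              have h1 : ((u⁻¹ : (𝓞 K)ˣ) : 𝓞 K) * (u : 𝓞 K) = 1 := u.inv_mul
              linear_combination h1
            rw [this]
            exact J.mul_mem_left _ hu
          · rw [h, ← mul_assoc, u.inv_mul, one_mul]
        · rintro x y z ⟨u, hu, h⟩ ⟨v, hv, h'⟩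
          refine ⟨v * u, ?_, ?_⟩
          · have : ((v * u : (𝓞 K)ˣ) : 𝓞 K) - 1 = (v : 𝓞 K) * ((u : 𝓞 K) - 1) +
                ((v : 𝓞 K) - 1) := by
              push_cast
              ring
            rw [this]
            exact J.add_mem (J.mul_mem_left _ hu) hv
          · rw [h', h]
            push_cast
            ring }
  refine ⟨Set.range fun q : Quotient S => (q.out : 𝓞 K), ?_, ?_, ?_⟩
  · rintro _ ⟨q, rfl⟩
    exact q.out.2
  · intro x hx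
    refine ⟨_, ⟨Quotient.mk S ⟨x, hx⟩, rfl⟩, ?_⟩
    have h : S ((Quotient.mk S ⟨x, hx⟩).out) ⟨x, hx⟩ := Quotient.mk_out (s := S) ⟨x, hx⟩
    exact h
  · rintro _ ⟨q, rfl⟩ _ ⟨q', rfl⟩ u hu h
    have h1 : S q.out q'.out := ⟨u, hu, h⟩
    have h2 := Quotient.sound (s := S) h1
    rw [Quotient.out_eq, Quotient.out_eq] at h2
    simp only [h2]

/-- Congruence up to units. -/
def H12P (J b : Ideal (𝓞 K)) : Set (𝓞 K) :=
  {x | x ∈ b ∧ ∀ w : HeightOneSpectrum (𝓞 K), J ≤ w.asIdeal → x ∉ w.asIdeal * b}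

/-- The setoid. -/
def h12S (J b : Ideal (𝓞 K)) : Setoid (H12P J b) where
  r := fun x y => ∃ u : (𝓞 K)ˣ, (u : 𝓞 K) * x - y ∈ J * b
  iseqv := by
    refine ⟨fun x => ⟨1, ?_⟩, ?_, ?_⟩
    · simp
    · rintro x y ⟨u, hu⟩
      refine ⟨u⁻¹, ?_⟩
      have : ((u⁻¹ : (𝓞 K)ˣ) : 𝓞 K) * y - x = -((u⁻¹ : (𝓞 K)ˣ) : 𝓞 K) * ((u : 𝓞 K) * x - y) := by
        have h1 : ((u⁻¹ : (𝓞 K)ˣ) : 𝓞 K) * (u : 𝓞 K) = 1 := u.inv_mul
        linear_combination (x : 𝓞 K) * h1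
      rw [this]
      exact (J * b).mul_mem_left _ hu
    · rintro x y z ⟨u, hu⟩ ⟨v, hv⟩
      refine ⟨v * u, ?_⟩
      have : ((v * u : (𝓞 K)ˣ) : 𝓞 K) * x - z = (v : 𝓞 K) * ((u : 𝓞 K) * x - y) +
          ((v : 𝓞 K) * y - z) := by
        push_cast
        ring
      rw [this]
      exact (J * b).add_mem ((J * b).mul_mem_left _ hu) hv

theorem h12_finite (J b : Ideal (𝓞 K)) (hJ : J ≠ ⊥) (hb : b ≠ ⊥) :
    Finite (Quotient (h12S J b)) := by
  have hJb : J * b ≠ ⊥ := mul_ne_zero hJ hb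
  have hfin : Finite (𝓞 K ⧸ (J * b)) := Ideal.finiteQuotientOfFreeOfNeBot (J * b) hJb
  have h1 : Function.Surjective fun y : {y : 𝓞 K ⧸ (J * b) // ∃ x : H12P J b,
      Ideal.Quotient.mk (J * b) x = y} => Quotient.mk (h12S J b) y.2.choose := by
    intro q
    induction q using Quotient.inductionOn with
    | h x =>
      refine ⟨⟨Ideal.Quotient.mk (J * b) x, x, rfl⟩, ?_⟩
      refine Quotient.sound ?_
      refine ⟨1, ?_⟩
      have h2 := (⟨x, rfl⟩ : ∃ x' : H12P J b, Ideal.Quotient.mk (J * b) (x' : 𝓞 K) =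
        Ideal.Quotient.mk (J * b) x).choose_spec
      rw [Units.val_one, one_mul]
      exact Ideal.Quotient.eq.1 h2
  exact Finite.of_surjective _ h1

theorem h12_prim (J b a : Ideal (𝓞 K)) (hb : b ≠ ⊥) (ha : IsCoprime a J) (x : 𝓞 K)
    (hx : a * b = Ideal.span {x}) : x ∈ H12P J b := by
  constructor
  · rw [← Ideal.span_singleton_le_iff_mem, ← hx]
    exact (Ideal.mul_le_right : a * b ≤ b)
  · intro w hw hxw
    have h1 : a * b ≤ w.asIdeal * b := by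
      rw [hx, Ideal.span_singleton_le_iff_mem]
      exact hxw
    have h2 : w.asIdeal ∣ a := (mul_dvd_mul_iff_right hb).1 (Ideal.dvd_iff_le.2 h1)
    have h3 : a ≤ w.asIdeal := Ideal.dvd_iff_le.1 h2
    have h4 : a ⊔ J ≤ w.asIdeal := sup_le h3 hw
    rw [Ideal.isCoprime_iff_sup_eq.1 ha] at h4
    exact w.isPrime.ne_top (top_le_iff.1 h4)

variable [Algebra F K]

theorem unit_cong (f b : Ideal (𝓞 K)) (hf : f ≠ ⊥) (hb : b ≠ ⊥) (c₀ : 𝓞 K) (hc : c₀ ∈ b)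
    (hp : ∀ w : HeightOneSpectrum (𝓞 K), Ideal.span {3} * f ≤ w.asIdeal → c₀ ∉ w.asIdeal * b)
    (t : 𝓞 K) (ht : t * c₀ ∈ Ideal.span {3} * f * b) : t ∈ Ideal.span {3} * f := by
  have h3 : (Ideal.span {(3 : 𝓞 K)}) ≠ ⊥ := by
    rw [Ne, Ideal.span_singleton_eq_bot]
    exact OfNat.ofNat_ne_zero 3
  exact h12_cong _ b (mul_ne_zero h3 hf) hb c₀ hc hp t ht

theorem exists_CD (f : Ideal (𝓞 K)) (hf : f ≠ ⊥) :
    ∃ (ι : Type) (_ : Fintype ι) (b : ι → Ideal (𝓞 K)) (c₀ : ι → 𝓞 K) (T : ι → Set (𝓞 K)),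
      CD f ι b c₀ T := by
  have h3 : (Ideal.span {(3 : 𝓞 K)}) ≠ ⊥ := by
    rw [Ne, Ideal.span_singleton_eq_bot]
    exact OfNat.ofNat_ne_zero 3
  have h6 : (Ideal.span {(6 : 𝓞 K)}) ≠ ⊥ := by
    rw [Ne, Ideal.span_singleton_eq_bot]
    exact OfNat.ofNat_ne_zero 6
  have hJ : Ideal.span {(3 : 𝓞 K)} * f ≠ ⊥ := mul_ne_zero h3 hf
  choose b hb hcop hcl using fun κ : ClassGroup (𝓞 K) =>
    exists_rep (Ideal.span {(6 : 𝓞 K)} * f) (mul_ne_zero h6 hf) κ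
  have hfin : ∀ κ, Finite (Quotient (h12S (Ideal.span {(3 : 𝓞 K)} * f) (b κ))) := fun κ =>
    h12_finite _ _ hJ (hb κ)
  have hfin2 : Finite (Σ κ : ClassGroup (𝓞 K),
    Quotient (h12S (Ideal.span {(3 : 𝓞 K)} * f) (b κ))) := inferInstance
  choose T hT using fun i : (Σ κ : ClassGroup (𝓞 K),
    Quotient (h12S (Ideal.span {(3 : 𝓞 K)} * f) (b κ))) =>
      h12_transv (Ideal.span {(3 : 𝓞 K)} * f) (XS (Ideal.span {3} * f * b i.1) (i.2.out : 𝓞 K))
  refine ⟨Σ κ : ClassGroup (𝓞 K), Quotient (h12S (Ideal.span {(3 : 𝓞 K)} * f) (b κ)),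
    Fintype.ofFinite _, fun i => b i.1, fun i => (i.2.out : 𝓞 K), T, ?_⟩
  refine ⟨fun i => hb i.1, fun i => hcop i.1, fun i => i.2.out.2.1, fun i => i.2.out.2.2, hT, ?_⟩
  intro a ha hac
  have hκ : ∀ κ, (∃ x : 𝓞 K, a * b κ = Ideal.span {x}) →
      κ = (ClassGroup.mk0 ⟨a, mem_nonZeroDivisors_iff_ne_zero.2 ha⟩)⁻¹ := by
    rintro κ ⟨x, hx⟩
    have h1 : ClassGroup.mk0 (⟨a, mem_nonZeroDivisors_iff_ne_zero.2 ha⟩ *
        ⟨b κ, mem_nonZeroDivisors_iff_ne_zero.2 (hb κ)⟩) = 1 := by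
      rw [ClassGroup.mk0_eq_one_iff]
      exact ⟨⟨x, hx⟩⟩
    rw [map_mul, hcl κ] at h1
    exact eq_inv_of_mul_eq_one_right h1
  obtain ⟨x, hx⟩ : ∃ x : 𝓞 K, a *
      b ((ClassGroup.mk0 ⟨a, mem_nonZeroDivisors_iff_ne_zero.2 ha⟩)⁻¹) = Ideal.span {x} := by
    set κ := (ClassGroup.mk0 ⟨a, mem_nonZeroDivisors_iff_ne_zero.2 ha⟩)⁻¹ with hκd
    have h1 : ClassGroup.mk0 (⟨a, mem_nonZeroDivisors_iff_ne_zero.2 ha⟩ *
        ⟨b κ, mem_nonZeroDivisors_iff_ne_zero.2 (hb κ)⟩) = 1 := by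
      rw [map_mul, hcl κ, hκd, mul_inv_cancel]
    rw [ClassGroup.mk0_eq_one_iff] at h1
    obtain ⟨x, hx⟩ := h1.principal
    exact ⟨x, hx⟩
  generalize (ClassGroup.mk0 ⟨a, mem_nonZeroDivisors_iff_ne_zero.2 ha⟩)⁻¹ = κ at hκ hx
  have hxP := h12_prim (Ideal.span {(3 : 𝓞 K)} * f) (b κ) a (hb κ) hac x hx
  set q := Quotient.mk (h12S (Ideal.span {(3 : 𝓞 K)} * f) (b κ)) ⟨x, hxP⟩ with hq
  obtain ⟨u, hu⟩ : (h12S (Ideal.span {(3 : 𝓞 K)} * f) (b κ)) ⟨x, hxP⟩ q.out :=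
    (h12S (Ideal.span {(3 : 𝓞 K)} * f) (b κ)).iseqv.symm
      (Quotient.mk_out (s := h12S (Ideal.span {(3 : 𝓞 K)} * f) (b κ)) ⟨x, hxP⟩)
  obtain ⟨t, htT, u1, hu1, hut⟩ := (hT ⟨κ, q⟩).cover ((u : 𝓞 K) * x) hu
  have hspan : Ideal.span {t} = Ideal.span {x} := by
    have h1 : Ideal.span {(u : 𝓞 K) * x} = Ideal.span {x} := by
      rw [mul_comm, Ideal.span_singleton_mul_right_unit u.isUnit]
    have h2 : Ideal.span {(u1 : 𝓞 K) * t} = Ideal.span {t} := by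
      rw [mul_comm, Ideal.span_singleton_mul_right_unit u1.isUnit]
    rw [← h1, hut, h2]
  refine ⟨⟨⟨κ, q⟩, ⟨t, htT⟩⟩, ?_, ?_⟩
  · show a * b κ = Ideal.span {t}
    rw [hspan, hx]
  · rintro ⟨⟨κ', q'⟩, ⟨t', ht'T⟩⟩ h'
    have h' : a * b κ' = Ideal.span {t'} := h'
    obtain rfl : κ' = κ := hκ κ' ⟨t', h'⟩
    have h2 : Ideal.span {t} = Ideal.span {t'} := by rw [hspan, ← hx, h']
    obtain ⟨v, hv⟩ := Ideal.span_singleton_eq_span_singleton.1 h2
    have hv' : t' = (v : 𝓞 K) * t := by rw [← hv, mul_comm]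
    have m1 : t - (q.out : 𝓞 K) ∈ Ideal.span {3} * f * b κ' := (hT ⟨κ', q⟩).sub htT
    have m2 : t' - (q'.out : 𝓞 K) ∈ Ideal.span {3} * f * b κ' := (hT ⟨κ', q'⟩).sub ht'T
    have m3 : (v : 𝓞 K) * (q.out : 𝓞 K) - (q'.out : 𝓞 K) ∈ Ideal.span {3} * f * b κ' := by
      have e1 : (v : 𝓞 K) * (q.out : 𝓞 K) - (q'.out : 𝓞 K) =
          -(v : 𝓞 K) * (t - (q.out : 𝓞 K)) + (t' - (q'.out : 𝓞 K)) := by
        rw [hv']
        ring
      rw [e1]
      exact Ideal.add_mem _ (Ideal.mul_mem_left _ _ m1) m2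
    obtain rfl : q = q' := by
      have e2 : (h12S (Ideal.span {(3 : 𝓞 K)} * f) (b κ')) q.out q'.out := ⟨v, m3⟩
      have e3 := Quotient.sound (s := h12S (Ideal.span {(3 : 𝓞 K)} * f) (b κ')) e2
      rwa [Quotient.out_eq, Quotient.out_eq] at e3
    have m4 : ((v : 𝓞 K) - 1) * (q.out : 𝓞 K) ∈ Ideal.span {3} * f * b κ' := by
      have e4 : ((v : 𝓞 K) - 1) * (q.out : 𝓞 K) = (v : 𝓞 K) * (q.out : 𝓞 K) - (q.out : 𝓞 K) := by
        ring
      rw [e4]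
      exact m3
    have m5 := unit_cong f (b κ') hf (hb κ') q.out q.out.2.1 q.out.2.2 _ m4
    have m6 := (hT ⟨κ', q⟩).uniq t htT t' ht'T v m5 hv'
    subst m6
    rfl

end H55N
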