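import Mathlib
import Pool.Agent.Lib.H55N.HD

open NumberField IsDedekindDomain

namespace H55N

open H55B H55C

/-- 3 generates a proper ideal. -/
theorem H13_three {K : Type} [Field K] [NumberField K] :
    (Ideal.span {3} : Ideal (𝓞 K)) ≠ ⊤ := by
  intro h
  have h1 : Ideal.absNorm (Ideal.span {3} : Ideal (𝓞 K)) = 1 := by
    rw [h]
    exact Ideal.absNorm_top
  rw [Ideal.absNorm_span_singleton] at h1
  have h2 : Algebra.norm ℤ (3 : 𝓞 K) = 3 ^ Module.finrank ℤ (𝓞 K) := by
    have h3 := Algebra.norm_algebraMap (R := ℤ) (S := 𝓞 K) (3 : ℤ)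
    simpa using h3
  rw [h2, Int.natAbs_pow] at h1
  have h3 : 0 < Module.finrank ℤ (𝓞 K) := Module.finrank_pos
  have h4 : 1 < Int.natAbs 3 ^ Module.finrank ℤ (𝓞 K) :=
    Nat.one_lt_pow h3.ne' (by decide)
  omega

/-- A prime containing 3. -/
theorem H13_prime {K : Type} [Field K] [NumberField K] :
    ∃ w : HeightOneSpectrum (𝓞 K), (Ideal.span {3} : Ideal (𝓞 K)) ≤ w.asIdeal := by
  obtain ⟨M, hM, hM2⟩ := Ideal.exists_le_maximal _ (H13_three (K := K))
  refine ⟨⟨M, hM.isPrime, ?_⟩, hM2⟩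
  rintro rfl
  rw [le_bot_iff, Ideal.span_singleton_eq_bot] at hM2
  have h3 : ((3 : ℕ) : 𝓞 K) ≠ 0 := Nat.cast_ne_zero.2 (by decide)
  exact h3 (by exact_mod_cast hM2)

/-- The ideal attached to an element. -/
theorem H13_ex {K : Type} [Field K] [NumberField K] [Algebra F K] (f : Ideal (𝓞 K))
    (ι : Type) (b : ι → Ideal (𝓞 K)) (c₀ : ι → 𝓞 K) (T : ι → Set (𝓞 K))
    (h : CD f ι b c₀ T) (q : Σ i, T i) :
    ∃ a : Ideal (𝓞 K), a * b q.1 = Ideal.span {(q.2 : 𝓞 K)} ∧ a ≠ ⊥ ∧
      IsCoprime a (Ideal.span {3} * f) := by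
  obtain ⟨i, x, hx⟩ := q
  have h1 : x ∈ XS (Ideal.span {3} * f * b i) (c₀ i) := (h.trans i).sub hx
  have h1' : x - c₀ i ∈ Ideal.span {3} * f * b i := h1
  have hxb : x ∈ b i := by
    have h2 : x - c₀ i ∈ b i := Ideal.mul_le_right h1'
    have h3 := Ideal.add_mem _ h2 (h.mem i)
    simpa using h3
  have key : ∀ w : HeightOneSpectrum (𝓞 K), Ideal.span {3} * f ≤ w.asIdeal →
      x ∉ w.asIdeal * b i := by
    intro w hw hxw
    apply h.prim i w hw
    have h2 : x - c₀ i ∈ w.asIdeal * b i := Ideal.mul_mono_left hw h1'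
    have h3 := Ideal.sub_mem _ hxw h2
    simpa using h3
  have hx0 : x ≠ 0 := by
    rintro rfl
    obtain ⟨w, hw⟩ := H13_prime (K := K)
    exact key w (Ideal.mul_le_left.trans hw) (Ideal.zero_mem _)
  have h3 : b i ∣ Ideal.span {x} := by
    rw [Ideal.dvd_iff_le, Ideal.span_singleton_le_iff_mem]
    exact hxb
  obtain ⟨a, ha⟩ := h3
  refine ⟨a, by rw [mul_comm]; exact ha.symm, ?_, ?_⟩
  · rintro rfl
    apply hx0
    rw [← Ideal.span_singleton_eq_bot, ha]
    exact mul_zero _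
  · have ha0 : a ≠ ⊥ := by
      rintro rfl
      apply hx0
      rw [← Ideal.span_singleton_eq_bot, ha]
      exact mul_zero _
    by_contra hc
    rw [Ideal.isCoprime_iff_sup_eq] at hc
    obtain ⟨M, hM, hM2⟩ := Ideal.exists_le_maximal _ hc
    have hM0 : M ≠ ⊥ := by
      rintro rfl
      exact ha0 (le_bot_iff.1 (le_sup_left.trans hM2))
    refine key ⟨M, hM.isPrime, hM0⟩ (le_sup_right.trans hM2) ?_
    have h4 : x ∈ b i * a := by
      rw [← ha]
      exact Ideal.mem_span_singleton_self x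
    rw [mul_comm] at h4
    exact Ideal.mul_mono_left (le_sup_left.trans hM2) h4

/-- Chunk H13 (S/M), summation over the class decomposition. The map q -> the ideal a with a * b = (x) (x = q.2; it exists because
x is in b: x - c0 in 3fb, c0 in b; a is nonzero because x <> 0, a is prime to 3f because otherwise x is in w b and then c0 is in w b) is a
bijection from the sigma type onto the set of nonzero ideals prime to 3f (bij), which contains the support of phi. Sum over
a sigma type with finite base of summable fibres (HasSum.sigma is for the converse direction; use a finite sum of HasSum over the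
disjoint pieces, for instance hasSum_sum and Function.Injective.hasSum_iff, or HasSum.sigma_of_hasSum with
summability of a finite union). -/
theorem cd_hasSum {K : Type} [Field K] [NumberField K] [Algebra F K] (f : Ideal (𝓞 K))
    (ι : Type) [Fintype ι] (b : ι → Ideal (𝓞 K)) (c₀ : ι → 𝓞 K) (T : ι → Set (𝓞 K))
    (h : CD f ι b c₀ T) (φ : Ideal (𝓞 K) → ℂ)
    (hφ : ∀ a, φ a ≠ 0 → a ≠ ⊥ ∧ IsCoprime a (Ideal.span {3} * f)) (G : ι → 𝓞 K → ℂ)
    (hG : ∀ i, ∀ x ∈ T i, ∀ a, a * b i = Ideal.span {x} → φ a = G i x) (Z : ι → ℂ)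
    (hZ : ∀ i, HasSum (fun x : T i => G i x) (Z i)) : HasSum φ (∑ i, Z i) := by
  classical
  choose A hA1 hA2 hA3 using H13_ex f ι b c₀ T h
  have hinj : Function.Injective A := by
    intro q q' hq
    obtain ⟨r, _, hr2⟩ := h.bij (A q) (hA2 q) (hA3 q)
    have h1 := hr2 q (hA1 q)
    have h2 := hr2 q' (by
      show A q * b q'.1 = Ideal.span {(q'.2 : 𝓞 K)}
      rw [hq]
      exact hA1 q')
    rw [h1, h2]
  have hran : ∀ a ∉ Set.range A, φ a = 0 := by
    intro a ha
    by_contra hne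
    apply ha
    obtain ⟨h1, h2⟩ := hφ a hne
    obtain ⟨q, hq, _⟩ := h.bij a h1 h2
    refine ⟨q, ?_⟩
    have h3 : A q * b q.1 = a * b q.1 := by
      rw [hA1 q]
      exact hq.symm
    exact mul_right_cancel₀ (show b q.1 ≠ 0 from h.ne q.1) h3
  rw [← hinj.hasSum_iff hran]
  have h1 : (φ ∘ A) = fun q : Σ i, T i => ∑ i, if q.1 = i then G q.1 q.2 else 0 := by
    funext q
    rw [Finset.sum_ite_eq Finset.univ q.1, if_pos (Finset.mem_univ _)]
    exact hG q.1 q.2 q.2.2 (A q) (hA1 q)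
  rw [h1]
  refine hasSum_sum fun i _ => ?_
  have h2 : ∀ q ∉ Set.range (fun x : T i => (⟨i, x⟩ : Σ j, T j)),
      (if q.1 = i then G q.1 q.2 else 0) = 0 := by
    rintro ⟨j, x⟩ hq
    rw [if_neg]
    rintro rfl
    exact hq ⟨x, rfl⟩
  have hinj2 : Function.Injective (fun x : T i => (⟨i, x⟩ : Σ j, T j)) := by
    intro x y hxy
    exact eq_of_heq (Sigma.mk.inj hxy).2
  rw [← hinj2.hasSum_iff h2]
  have h3 : ((fun q : Σ i, T i => if q.1 = i then G q.1 q.2 else 0) ∘
      (fun x : T i => (⟨i, x⟩ : Σ j, T j))) = fun x : T i => G i x := by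
    funext x
    exact if_pos rfl
  rw [h3]
  exact hZ i

end H55N
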