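import Mathlib
import Pool.Agent.Lib.H55N.HD

open NumberField IsDedekindDomain

namespace H55N

open H55B H55C

/-! Chunk H2 (M): the Hecke character on principal ideals.
norm_congr: 𝓞 K is free of finite rank over the principal ideal domain O, so Algebra.intNorm O (𝓞 K) x is
Algebra.norm O x (Algebra.intNorm_eq_norm), the determinant of the matrix of the multiplication by x; if x - y = m t the
entries of the matrices of x and y are congruent modulo m, so are the determinants (apply RingHom.map_det for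
O -> O/(m)). emb_norm: Algebra.algebraMap_intNorm (e = emb o algebraMap).
Psi_span: relNorm (span {x}) = span {intNorm x} (Ideal.relNorm_singleton); intNorm x0 is prime to 3 (relNorm of a coprime pair:
relNorm (span {x0}) is prime to 3, for instance because 1 = x0 r + 3 t gives intNorm x0 * intNorm r = 1 mod 3 by norm_congr);
exists_unit_prim gives eta with eta * intNorm x0 primary, and then eta * intNorm x is primary for all x = x0 mod 3
(norm_congr), so pg (span {intNorm x}) = eta * intNorm x (pg_span, span of a unit multiple). -/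

variable {K : Type} [Field K] [NumberField K] [Algebra F K]

theorem norm_congr (m : O) (x y : 𝓞 K) (h : x - y ∈ Ideal.span {algebraMap O (𝓞 K) m}) :
    m ∣ Algebra.intNorm O (𝓞 K) x - Algebra.intNorm O (𝓞 K) y := by
  classical
  obtain ⟨t, ht⟩ := Ideal.mem_span_singleton.1 h
  rw [Algebra.intNorm_eq_norm]
  let b := Module.Free.chooseBasis O (𝓞 K)
  rw [Algebra.norm_eq_matrix_det b, Algebra.norm_eq_matrix_det b, ← Ideal.mem_span_singleton,
    ← Ideal.Quotient.eq, RingHom.map_det, RingHom.map_det]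
  congr 1
  ext i j
  simp only [RingHom.mapMatrix_apply, Matrix.map_apply]
  rw [Ideal.Quotient.eq, Ideal.mem_span_singleton]
  refine ⟨Algebra.leftMulMatrix b t i j, ?_⟩
  rw [← Matrix.sub_apply, ← map_sub, ht, ← Algebra.smul_def, map_smul, Matrix.smul_apply,
    smul_eq_mul]

theorem emb_norm (x : 𝓞 K) :
    e (Algebra.intNorm O (𝓞 K) x) = emb (Algebra.norm F (x : K)) := by
  show emb (algebraMap O F (Algebra.intNorm O (𝓞 K) x)) = _
  rw [Algebra.algebraMap_intNorm (A := O) (K := F) (L := K) (B := 𝓞 K)]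

theorem Psi_span (x₀ : 𝓞 K) (h3 : IsCoprime (Ideal.span {x₀}) (Ideal.span {(3 : 𝓞 K)})) :
    ∃ η : Oˣ, ∀ x : 𝓞 K, x - x₀ ∈ Ideal.span {(3 : 𝓞 K)} →
      Psi K (Ideal.span {x}) =
        (starRingEnd ℂ) (e (η : O)) * (starRingEnd ℂ) (emb (Algebra.norm F (x : K))) := by
  have h3' : (3 : 𝓞 K) = algebraMap O (𝓞 K) 3 := (map_ofNat _ 3).symm
  have hcop : IsCoprime (Algebra.intNorm O (𝓞 K) x₀) 3 := by
    rw [Ideal.isCoprime_span_singleton_iff] at h3
    obtain ⟨r, t, hrt⟩ := h3
    have h1 : r * x₀ - 1 ∈ Ideal.span {algebraMap O (𝓞 K) 3} := by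
      rw [Ideal.mem_span_singleton, ← h3']
      exact ⟨-t, by linear_combination hrt⟩
    obtain ⟨c, hc⟩ := norm_congr 3 _ _ h1
    rw [map_mul, map_one] at hc
    exact ⟨Algebra.intNorm O (𝓞 K) r, -c, by linear_combination hc⟩
  obtain ⟨η, hη⟩ := exists_unit_prim hcop
  refine ⟨η, fun x hx => ?_⟩
  have h2 : Prim ((η : O) * Algebra.intNorm O (𝓞 K) x) := by
    rw [h3'] at hx
    obtain ⟨c, hc⟩ := norm_congr 3 _ _ hx
    obtain ⟨c', hc'⟩ := hη
    exact ⟨c' + η * c, by linear_combination hc' + (η : O) * hc⟩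
  show psiF (Ideal.relNorm O (Ideal.span {x})) = _
  rw [Ideal.relNorm_singleton, psiF_apply]
  have h4 : Ideal.span {Algebra.intNorm O (𝓞 K) x} =
      Ideal.span {(η : O) * Algebra.intNorm O (𝓞 K) x} := by
    rw [mul_comm, Ideal.span_singleton_mul_right_unit η.isUnit]
  rw [h4, pg_span h2, map_mul, map_mul, emb_norm]

/-- The absolute norm of a principal ideal. -/
theorem absNorm_span (x : 𝓞 K) :
    (Ideal.absNorm (Ideal.span {x}) : ℝ) = ‖emb (Algebra.norm F (x : K))‖ ^ 2 := by
  rw [← Ideal.absNorm_relNorm O, Ideal.relNorm_singleton, ← emb_norm]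
  exact Nm_eq _

end H55N
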