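import Mathlib
import Pool.Agent.Lib.H55N.HD

open NumberField IsDedekindDomain

namespace H55N

open H55B H55C

/-! Chunk H3 (M): absolute convergence. ideal_summable: the number c_n of ideals of norm n has partial sums O(x)
(Mathlib: Mathlib/NumberTheory/NumberField/Ideal/Asymptotics.lean, tendsto_norm_le_div_atTop and friends, as used in
Mathlib/NumberTheory/NumberField/DedekindZeta.lean), so the sum of c_n n^(-sigma) converges for sigma > 1
(LSeriesSummable_of_sum_norm_bigO_and_nonneg or similar); the sum over the ideals is the iterated sum over the fibres of the norm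
(nonnegative terms; the ideal 0 contributes 0 because 0^(-sigma) = 0). tm_summable: |h a| <= N(a)^(1/2), so
|tm h s a| <= N(a)^(1/2 - Re s) (for a = 0 both sides: h 0 = 0). -/

variable {K : Type} [Field K] [NumberField K]


theorem H3_tendsto : Filter.Tendsto (fun n : ℕ => (∑ k ∈ Finset.Icc 1 n,
    (Nat.card {I : Ideal (𝓞 K) // Ideal.absNorm I = k} : ℝ)) / (n : ℝ)) Filter.atTop
    (nhds (NumberField.dedekindZeta_residue K)) := by
  refine ((Ideal.tendsto_norm_le_div_atTop₀ K).comp tendsto_natCast_atTop_atTop).congr fun n ↦ ?_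
  simp only [Function.comp_apply, Nat.cast_le, ← Nat.cast_sum]
  congr
  rw [← add_left_inj 1, ← Ideal.card_norm_le_eq_card_norm_le_add_one,
    show Finset.Icc 1 n = Finset.Ioc 0 n from Finset.Icc_succ_left_eq_Ioc _ _,
    show 1 = Nat.card {I : Ideal (𝓞 K) // Ideal.absNorm I = 0} by simp [Ideal.absNorm_eq_zero_iff],
    Finset.sum_Ioc_add_eq_sum_Icc (n.zero_le),
    ← Finset.card_preimage_eq_sum_card_image_eq (fun k _ ↦ Ideal.finite_setOfPred_absNorm_eq k)]
  simp [Set.coe_eq_subtype]

theorem ideal_summable (σ : ℝ) (hσ : 1 < σ) :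
    Summable (fun a : Ideal (𝓞 K) => (Ideal.absNorm a : ℝ) ^ (-σ)) := by
  have h0 : LSeriesSummable (fun n => (((Nat.card {I : Ideal (𝓞 K) // Ideal.absNorm I = n} : ℕ) : ℝ) : ℂ))
      (σ : ℂ) := by
    have h1 : 1 < (σ : ℂ).re := by simpa using hσ
    refine LSeriesSummable_of_sum_norm_bigO_and_nonneg (r := 1) ?_ (fun _ => Nat.cast_nonneg _)
      zero_le_one h1
    exact Asymptotics.isBigO_atTop_natCast_rpow_of_tendsto_div_rpow (𝕜 := ℝ) (a := NumberField.dedekindZeta_residue K)
      (by simpa using (H3_tendsto (K := K)))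
  have h2 : Summable (fun n : ℕ =>
      ((Nat.card {I : Ideal (𝓞 K) // Ideal.absNorm I = n} : ℕ) : ℝ) * (n : ℝ) ^ (-σ)) := by
    refine (summable_norm_iff.2 h0).congr fun n => ?_
    rcases Nat.eq_zero_or_pos n with rfl | hn
    · rw [LSeries.term_zero, norm_zero, Nat.cast_zero, Real.zero_rpow (by linarith), mul_zero]
    · rw [LSeries.term_of_ne_zero (by omega), norm_div, Complex.norm_natCast_cpow_of_pos hn,
        Complex.norm_real, Real.norm_of_nonneg (Nat.cast_nonneg _), Complex.ofReal_re,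
        Real.rpow_neg (Nat.cast_nonneg _), div_eq_mul_inv]
  rw [← (Equiv.sigmaFiberEquiv (fun a : Ideal (𝓞 K) => Ideal.absNorm a)).summable_iff]
  have h3 : ∀ n : ℕ, Finite {I : Ideal (𝓞 K) // Ideal.absNorm I = n} := fun n =>
    (Ideal.finite_setOfPred_absNorm_eq n).to_subtype
  rw [summable_sigma_of_nonneg]
  · refine ⟨fun n => Summable.of_finite, h2.congr fun n => ?_⟩
    have := Fintype.ofFinite {I : Ideal (𝓞 K) // Ideal.absNorm I = n}
    rw [tsum_fintype]
    rw [Finset.sum_congr rfl (g := fun _ => (n : ℝ) ^ (-σ))]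
    · rw [Finset.sum_const, Finset.card_univ, Nat.card_eq_fintype_card, nsmul_eq_mul]
    · rintro ⟨I, hI⟩ -
      simp only [Function.comp_apply, Equiv.sigmaFiberEquiv_apply]
      rw [hI]
  · rintro ⟨n, I⟩
    simp only [Function.comp_apply]
    positivity

theorem tm_summable (h : Ideal (𝓞 K) → ℂ) (hh : ∀ a, ‖h a‖ ^ 2 ≤ Ideal.absNorm a) (s : ℂ)
    (hs : 3 / 2 < s.re) : Summable (fun a => ‖tm h s a‖) := by
  refine Summable.of_nonneg_of_le (fun _ => norm_nonneg _) (fun a => ?_)
    (ideal_summable (K := K) (s.re - 1 / 2) (by linarith))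
  unfold tm
  rw [norm_mul]
  rcases Nat.eq_zero_or_pos (Ideal.absNorm a) with h0 | h0
  · have h1 := hh a
    rw [h0, Nat.cast_zero] at h1
    have h2 : ‖h a‖ = 0 := by
      have := norm_nonneg (h a)
      nlinarith
    rw [h2, zero_mul]
    positivity
  · have h1 : ‖h a‖ ≤ (Ideal.absNorm a : ℝ) ^ (1 / 2 : ℝ) := by
      rw [← Real.sqrt_eq_rpow]
      exact Real.le_sqrt_of_sq_le (hh a)
    rw [Complex.norm_natCast_cpow_of_pos h0, Complex.neg_re]
    have h2 : (0 : ℝ) < Ideal.absNorm a := by exact_mod_cast h0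
    calc ‖h a‖ * (Ideal.absNorm a : ℝ) ^ (-s.re) ≤
        (Ideal.absNorm a : ℝ) ^ (1 / 2 : ℝ) * (Ideal.absNorm a : ℝ) ^ (-s.re) := by gcongr
      _ = (Ideal.absNorm a : ℝ) ^ (-(s.re - 1 / 2)) := by
        rw [← Real.rpow_add h2]
        congr 1
        ring

end H55N
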