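import Mathlib
import Pool.Agent.Lib.H55C.W8
import Pool.Agent.Lib.H55N.Defs

open NumberField IsDedekindDomain

namespace H55N

open H55B H55C

variable {K : Type} [Field K] [NumberField K] [Algebra F K] {m : ℕ}

/-! Chunk D1 (M/L). The units u = 1 mod J, J contained in 6 O_K, J nonzero. rank K = m: K has 0 real and m+1 complex places (complex_places in H55C/W8; F has no
real place). Let U = {u : u - 1 in J} (a subgroup), the kernel of the map of O_K^* to the units of the finite ring O_K/J: finite index.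
U is torsion free: if ζ in U has prime order l then ζ - 1 divides l in O_K (l = prod_{k=1}^{l-1} (1 - ζ^k)), so 6 divides l in O_K, so 6 divides l in Z (norms, or
Z is integrally closed), impossible. So U injects into (O_K^* / torsion), free of rank m (basisModTorsion / fundSystem), with image of finite index (finiteIndex_iff...): U
is free of rank m: choose a Z-basis of the image (Submodule.smithNormalForm or Module.Free + finrank: a submodule of finite index has the same rank; Module.finBasis), lift to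
units u_j in U. (Or: exist_unique_eq_mul_prod.) -/

omit [Algebra F K] in
lemma D1_six {J : Ideal (𝓞 K)} (hJ6 : J ≤ Ideal.span {6}) {ζ : (𝓞 K)ˣ}
    (hζ : (ζ : 𝓞 K) - 1 ∈ J) {l : ℕ} (hl : l.Prime) (h1 : ζ ^ l = 1) : ζ = 1 := by
  by_contra hne
  have hs : ∑ i ∈ Finset.range l, (ζ : 𝓞 K) ^ i = 0 := by
    have h := mul_geom_sum (ζ : 𝓞 K) l
    have h2 : (ζ : 𝓞 K) ^ l = 1 := by
      have h0 := congrArg Units.val h1
      simpa using h0
    rw [h2, sub_self] at h
    rcases mul_eq_zero.1 h with h3 | h3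
    · exact absurd (Units.ext (sub_eq_zero.1 h3)) hne
    · exact h3
  have h3 : (l : 𝓞 K) ∈ Ideal.span {(6 : 𝓞 K)} := by
    have h4 : (l : 𝓞 K) = - ∑ i ∈ Finset.range l, ((ζ : 𝓞 K) ^ i - 1) := by
      rw [Finset.sum_sub_distrib, hs]
      simp
    rw [h4]
    refine (Ideal.neg_mem_iff _).2 (Ideal.sum_mem _ fun i _ => ?_)
    have h5 := sub_dvd_pow_sub_pow (ζ : 𝓞 K) 1 i
    rw [one_pow] at h5
    exact Ideal.mem_of_dvd _ h5 (hJ6 hζ)
  obtain ⟨y, hy⟩ := Ideal.mem_span_singleton.1 h3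
  set b := RingOfIntegers.basis K
  have hn1 : Algebra.norm ℤ ((algebraMap ℤ (𝓞 K)) (l : ℤ)) =
      (l : ℤ) ^ Fintype.card (Module.Free.ChooseBasisIndex ℤ (𝓞 K)) :=
    Algebra.norm_algebraMap_of_basis b _
  have hn2 : Algebra.norm ℤ ((algebraMap ℤ (𝓞 K)) (6 : ℤ)) =
      (6 : ℤ) ^ Fintype.card (Module.Free.ChooseBasisIndex ℤ (𝓞 K)) :=
    Algebra.norm_algebraMap_of_basis b _
  have hy2 : (algebraMap ℤ (𝓞 K)) (l : ℤ) = (algebraMap ℤ (𝓞 K)) (6 : ℤ) * y := by
    rw [map_natCast, hy]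
    simp
  have hy3 := congrArg (Algebra.norm ℤ) hy2
  rw [map_mul, hn1, hn2] at hy3
  have hpos : Fintype.card (Module.Free.ChooseBasisIndex ℤ (𝓞 K)) ≠ 0 := by
    rw [← Module.finrank_eq_card_basis b]
    exact (Module.finrank_pos (R := ℤ) (M := 𝓞 K)).ne'
  have h6 : (6 : ℤ) ∣ (l : ℤ) := (Int.pow_dvd_pow_iff hpos).1 ⟨_, hy3⟩
  have h7 : 6 ∣ l := by exact_mod_cast h6
  have h8 : 2 ∣ l := dvd_trans (by norm_num) h7
  have h9 : 3 ∣ l := dvd_trans (by norm_num) h7
  have h10 := (Nat.prime_dvd_prime_iff_eq Nat.prime_two hl).1 h8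
  have h11 := (Nat.prime_dvd_prime_iff_eq Nat.prime_three hl).1 h9
  omega

theorem units_basis (hm : Module.finrank F K = m + 1) (J : Ideal (𝓞 K)) (hJ : J ≠ ⊥)
    (hJ6 : J ≤ Ideal.span {6}) : ∃ u : Fin m → (𝓞 K)ˣ, (∀ j, (u j : 𝓞 K) - 1 ∈ J) ∧
      (∀ z, (uu u z : 𝓞 K) - 1 ∈ J) ∧
      (∀ v : (𝓞 K)ˣ, (v : 𝓞 K) - 1 ∈ J → ∃! z : Fin m → ℤ, v = uu u z) ∧
      (Subgroup.closure (Set.range u)).FiniteIndex := by
  classical
  have hrank : Units.rank K = m := by
    have h1 := complex_places K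
    have h2 := InfinitePlace.card_eq_nrRealPlaces_add_nrComplexPlaces (K := K)
    have h3 : InfinitePlace.nrRealPlaces K = 0 := by
      have h4 := InfinitePlace.card_add_two_mul_card_eq_rank K
      have h5 := Module.finrank_mul_finrank ℚ F K
      have h6 : Module.finrank ℚ F = 2 := by
        have h := IsCyclotomicExtension.finrank (n := 3) F
          (Polynomial.cyclotomic.irreducible_rat (by norm_num))
        rw [h]
        decide
      rw [h6] at h5
      omega
    unfold Units.rank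
    omega
  let φ : (𝓞 K)ˣ →* (𝓞 K ⧸ J)ˣ := Units.map (Ideal.Quotient.mk J).toMonoidHom
  haveI : Finite (𝓞 K ⧸ J) := Ideal.finiteQuotientOfFreeOfNeBot J hJ
  have hV : ∀ v : (𝓞 K)ˣ, v ∈ φ.ker ↔ (v : 𝓞 K) - 1 ∈ J := by
    intro v
    rw [MonoidHom.mem_ker, Units.ext_iff, ← Ideal.Quotient.mk_eq_mk_iff_sub_mem]
    exact Iff.rfl
  haveI hVfi : φ.ker.FiniteIndex := inferInstance
  let N : Submodule ℤ (Additive (𝓞 K)ˣ) := AddSubgroup.toIntSubmodule (Subgroup.toAddSubgroup φ.ker)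
  have hmemN : ∀ x : Additive (𝓞 K)ˣ, x ∈ N ↔ Additive.toMul x ∈ φ.ker := fun x => Iff.rfl
  -- torsion free
  have htf : ∀ v ∈ φ.ker, ∀ n : ℕ, 0 < n → v ^ n = 1 → v = 1 := by
    intro v hv n hn h1
    by_contra hne
    have h2 : orderOf v ≠ 1 := fun h => hne (orderOf_eq_one_iff.1 h)
    obtain ⟨l, hl, hdvd⟩ := Nat.exists_prime_and_dvd h2
    have hfo : IsOfFinOrder v := isOfFinOrder_iff_pow_eq_one.2 ⟨n, hn, h1⟩
    have hpos := hfo.orderOf_pos
    obtain ⟨k, hk⟩ := hdvd
    have h3 : (v ^ k) ^ l = 1 := by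
      rw [← pow_mul, mul_comm, ← hk, pow_orderOf_eq_one]
    have h4 := D1_six hJ6 ((hV _).1 (Subgroup.pow_mem _ hv k)) hl h3
    have h5 := orderOf_dvd_of_pow_eq_one h4
    have hk0 : 0 < k := Nat.pos_of_ne_zero (fun h => by rw [hk, h, mul_zero] at hpos; exact lt_irrefl _ hpos)
    have h6 := Nat.le_of_dvd hk0 h5
    have h7 := hl.two_le
    nlinarith
  haveI hN : Module.Finite ℤ N := inferInstance
  haveI hNt : Module.IsTorsionFree ℤ N := by
    apply Module.IsTorsionFree.of_smul_eq_zero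
    intro r x hx
    by_contra hcon
    push Not at hcon
    obtain ⟨hr, hx0⟩ := hcon
    apply hx0
    apply Subtype.ext
    have h1 : r • (x : Additive (𝓞 K)ˣ) = 0 := congrArg Subtype.val hx
    have h2 : (r.natAbs) • (x : Additive (𝓞 K)ˣ) = 0 := by
      rcases Int.natAbs_eq r with h | h
      · rw [h, natCast_zsmul] at h1
        exact h1
      · rw [h, neg_smul, natCast_zsmul, neg_eq_zero] at h1
        exact h1
    exact congrArg Additive.ofMul (htf (Additive.toMul (x : Additive (𝓞 K)ˣ)) ((hmemN _).1 x.2)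
      r.natAbs (Int.natAbs_pos.2 hr) (congrArg Additive.toMul h2))
  haveI hNf : Module.Free ℤ N := Module.free_of_finite_type_torsion_free'
  have hfr : Module.finrank ℤ N = m := by
    have h1 := Submodule.finrank_quotient_add_finrank N
    have h2 : Module.finrank ℤ (Additive (𝓞 K)ˣ ⧸ N) = 0 := by
      rw [Module.finrank_eq_zero_iff]
      intro x
      obtain ⟨y, rfl⟩ := Submodule.Quotient.mk_surjective N x
      refine ⟨(φ.ker.index : ℤ), by exact_mod_cast hVfi.index_ne_zero, ?_⟩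
      rw [← Submodule.Quotient.mk_smul, Submodule.Quotient.mk_eq_zero, hmemN, natCast_zsmul]
      exact φ.ker.pow_index_mem (Additive.toMul y)
    rw [h2, zero_add, Units.finrank_eq, hrank] at h1
    exact h1
  let b : Module.Basis (Fin m) ℤ N := Module.finBasisOfFinrankEq ℤ N hfr
  let u : Fin m → (𝓞 K)ˣ := fun j => Additive.toMul (b j : Additive (𝓞 K)ˣ)
  have huV : ∀ j, u j ∈ φ.ker := fun j => (hmemN _).1 (b j).2
  have huu : ∀ z : Fin m → ℤ, Additive.ofMul (uu u z) = ((∑ j, z j • b j : N) : Additive (𝓞 K)ˣ) := by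
    intro z
    unfold uu
    rw [ofMul_prod, AddSubmonoidClass.coe_finset_sum]
    rfl
  have huz : ∀ z : Fin m → ℤ, uu u z ∈ φ.ker := fun z =>
    Subgroup.prod_mem _ fun j _ => Subgroup.zpow_mem _ (huV j) _
  have hex : ∀ v : (𝓞 K)ˣ, v ∈ φ.ker → ∃! z : Fin m → ℤ, v = uu u z := by
    intro v hv
    have hvN : Additive.ofMul v ∈ N := (hmemN _).2 hv
    refine ⟨b.equivFun ⟨Additive.ofMul v, hvN⟩, ?_, ?_⟩
    · have h1 := huu (b.equivFun ⟨Additive.ofMul v, hvN⟩)
      rw [b.sum_equivFun] at h1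
      exact (Additive.ofMul.injective h1).symm
    · intro z hz
      have h1 := huu z
      rw [← hz] at h1
      have h2 : (⟨Additive.ofMul v, hvN⟩ : N) = ∑ j, z j • b j := Subtype.ext h1
      rw [h2, ← b.equivFun_symm_apply, LinearEquiv.apply_symm_apply]
  refine ⟨u, fun j => (hV _).1 (huV j), fun z => (hV _).1 (huz z),
    fun v hv => hex v ((hV v).2 hv), ?_⟩
  apply Subgroup.finiteIndex_of_le (H := φ.ker)
  intro v hv
  obtain ⟨z, hz, -⟩ := hex v hv
  rw [hz]
  exact Subgroup.prod_mem _ fun j _ =>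
    Subgroup.zpow_mem _ (Subgroup.subset_closure (Set.mem_range_self j)) _

end H55N
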