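import Mathlib
import Pool.Agent.Lib.H55N.A1
import Pool.Agent.Lib.H55C.W8
import Pool.Agent.Lib.H55B.Z3

open NumberField IsDedekindDomain

namespace H55N

open H55B H55C

variable {K : Type} [Field K] [NumberField K] [Algebra F K] {m : ℕ}

/-! Chunk D2 (M). The regulator does not vanish. rank K = m (complex_places in H55C/W8, as in D1; transport u along the equality, Fin.cast). The map
i -> InfinitePlace.mk (σ i) is a bijection of Fin (m+1) with the infinite places: every complex embedding τ of K restricts to emb or to conj emb on F (F has two complex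
embeddings), so τ or conj τ is over emb, hence a σ i (emb_all), exactly one of them. |σ_i x| = place value; mult = 2. By
NumberField.Units.isMaxRank_iff_closure_finiteIndex and regOfFamily_ne_zero the regulator of the family u is nonzero, and by finrank_mul_regOfFamily_eq_det finrank * reg = |det| of the
matrix with rows (2)_w and (2 log |u_j|_w)_w; after reindexing and transposing this is 2 * |Delta lm|. -/

theorem D2_rank (hm : Module.finrank F K = m + 1) : NumberField.Units.rank K = m := by
  have h0 := complex_places K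
  have h1 := InfinitePlace.card_add_two_mul_card_eq_rank K
  have h2 := Module.finrank_mul_finrank ℚ F K
  have h3 : Module.finrank ℚ F = 2 := by
    have h := IsCyclotomicExtension.finrank (n := 3) F
      (Polynomial.cyclotomic.irreducible_rat (by norm_num))
    rw [h]
    decide
  have h4 := InfinitePlace.card_eq_nrRealPlaces_add_nrComplexPlaces K
  unfold NumberField.Units.rank
  rw [h3] at h2
  rw [hm] at h0 h2
  omega

theorem D2_placeF (φ : F →+* ℂ) : φ = emb ∨ ComplexEmbedding.conjugate φ = emb := by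
  have h1 : InfinitePlace.nrRealPlaces F = 0 :=
    IsCyclotomicExtension.Rat.nrRealPlaces_eq_zero (n := 3) F (by norm_num)
  have h2 := InfinitePlace.card_add_two_mul_card_eq_rank F
  have h3 : Module.finrank ℚ F = 2 := by
    have h := IsCyclotomicExtension.finrank (n := 3) F
      (Polynomial.cyclotomic.irreducible_rat (by norm_num))
    rw [h]
    decide
  have h4 := InfinitePlace.card_eq_nrRealPlaces_add_nrComplexPlaces F
  have h5 : Fintype.card (InfinitePlace F) ≤ 1 := by omega
  have h6 := Fintype.card_le_one_iff_subsingleton.1 h5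
  exact InfinitePlace.mk_eq_iff.1 (Subsingleton.elim (InfinitePlace.mk φ) (InfinitePlace.mk emb))

theorem D2_place (D : Ctx K m) (hE : Emb D.σ) (w : InfinitePlace K) :
    ∃ i, ∀ x : K, w x = ‖D.σ i x‖ := by
  rcases D2_placeF (w.embedding.comp (algebraMap F K)) with h | h
  · obtain ⟨i, hi⟩ := emb_all hE w.embedding (fun x => by rw [← h]; rfl)
    refine ⟨i, fun x => ?_⟩
    rw [← hi, InfinitePlace.norm_embedding_eq]
  · obtain ⟨i, hi⟩ := emb_all hE (ComplexEmbedding.conjugate w.embedding) (fun x => by rw [← h]; rfl)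
    refine ⟨i, fun x => ?_⟩
    rw [← hi, ComplexEmbedding.conjugate_coe_eq]
    rw [RCLike.norm_conj, InfinitePlace.norm_embedding_eq]

theorem D2_normU (D : Ctx K m) (hE : Emb D.σ) (v : (𝓞 K)ˣ) :
    ∏ i, D.σ i ((v : 𝓞 K) : K) = e ((Units.map (RingOfIntegers.norm F) v : Oˣ) : O) := by
  rw [norm_eq hE]
  rfl

theorem D2_norm_abs (D : Ctx K m) (hE : Emb D.σ) (v : (𝓞 K)ˣ) :
    ∏ i, ‖D.σ i ((v : 𝓞 K) : K)‖ = 1 := by
  rw [← norm_prod, D2_normU D hE]
  have h1 := Nm_eq ((Units.map (RingOfIntegers.norm F) v : Oˣ) : O)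
  rw [Nm_eq_one.2 (Units.isUnit _)] at h1
  have h2 : ‖e ((Units.map (RingOfIntegers.norm F) v : Oˣ) : O)‖ ^ 2 = 1 := by
    rw [← h1]; norm_num
  exact (pow_eq_one_iff_of_nonneg (norm_nonneg _) two_ne_zero).1 h2

theorem delta_ne (D : Ctx K m) (hE : Emb D.σ) (u : Fin m → (𝓞 K)ˣ)
    (hu : (Subgroup.closure (Set.range u)).FiniteIndex) : Delta (D.lm u) ≠ 0 := by
  have hr : NumberField.Units.rank K = m := D2_rank hE.fin
  subst hr
  have hmax := NumberField.Units.isMaxRank_iff_closure_finiteIndex.2 hu
  intro h0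
  unfold Delta at h0
  rw [← Matrix.exists_mulVec_eq_zero_iff] at h0
  obtain ⟨c, hc0, hc⟩ := h0
  have hrow : ∀ i, c 0 + ∑ j, D.lm u i j * c j.succ = 0 := by
    intro i
    have := congrFun hc i
    simp only [Matrix.mulVec, dotProduct, Fin.sum_univ_succ, Matrix.of_apply, Fin.cons_zero,
      Fin.cons_succ, Pi.zero_apply, one_mul] at this
    exact this
  have hcol : ∀ j, ∑ i, D.lm u i j = 0 := by
    intro j
    unfold Ctx.lm
    rw [← Finset.mul_sum, ← Real.log_prod, D2_norm_abs D hE, Real.log_one, mul_zero]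
    intro i _
    rw [norm_ne_zero_iff]
    exact (map_ne_zero _).2 (NumberField.Units.coe_ne_zero _)
  have hc00 : c 0 = 0 := by
    have h1 : ∑ i : Fin (NumberField.Units.rank K + 1),
        (c 0 + ∑ j, D.lm u i j * c j.succ) = 0 := Finset.sum_eq_zero fun i _ => hrow i
    rw [Finset.sum_add_distrib, Finset.sum_comm] at h1
    simp_rw [← Finset.sum_mul] at h1
    rw [Finset.sum_eq_zero (s := Finset.univ) (f := fun j => (∑ i, D.lm u i j) * c j.succ)
      (fun j _ => by rw [hcol j, zero_mul]), add_zero, Finset.sum_const, Finset.card_univ,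
      Fintype.card_fin, nsmul_eq_mul] at h1
    rcases mul_eq_zero.1 h1 with h2 | h2
    · exact absurd h2 (by positivity)
    · exact h2
  have hind := Fintype.linearIndependent_iff.1 hmax (fun j => c j.succ) (by
    funext w
    rw [Finset.sum_apply]
    simp only [Pi.smul_apply, NumberField.Units.dirichletUnitTheorem.logEmbedding_component,
      smul_eq_mul, Pi.zero_apply]
    obtain ⟨i, hi⟩ := D2_place D hE w.val
    have h1 := hrow i
    rw [hc00, zero_add] at h1
    have h2 : ∀ j, c j.succ * ((w.val.mult : ℝ) * Real.log (w.val ((u j : 𝓞 K) : K))) =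
        ((w.val.mult : ℝ) / 2) * (D.lm u i j * c j.succ) := by
      intro j
      unfold Ctx.lm
      rw [hi]
      ring
    rw [Finset.sum_congr rfl (fun j _ => h2 j), ← Finset.mul_sum, h1, mul_zero])
  apply hc0
  funext j
  refine Fin.cases hc00 (fun j => hind j) j

/-! The norm of a unit v = 1 mod 3 is 1: N = N_{K/F}(v) is a unit of O, so a power of - om (the units of O are the six roots of unity; see H55B), and N = 1 mod 3 O: N - 1 =
3 y with y = ((prod (1 + 3 σ_i x)) - 1)/3 an algebraic integer in F. Among the units only 1 is = 1 mod 3. Then norm_eq. -/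

theorem D2_prod {ι : Type} (s : Finset ι) (a : ι → ℂ) (ha : ∀ i, IsIntegral ℤ (a i)) :
    ∃ y : ℂ, IsIntegral ℤ y ∧ ∏ i ∈ s, (1 + 3 * a i) = 1 + 3 * y := by
  classical
  induction s using Finset.induction_on with
  | empty => exact ⟨0, isIntegral_zero, by simp⟩
  | insert i s his ih =>
    obtain ⟨y, hy, h⟩ := ih
    refine ⟨y + a i + 3 * (a i * y), ?_, ?_⟩
    · have h3 : IsIntegral ℤ (3 : ℂ) := by
        have := isIntegral_algebraMap (R := ℤ) (A := ℂ) (x := 3)
        simpa using this
      exact (hy.add (ha i)).add (h3.mul ((ha i).mul hy))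
    · rw [Finset.prod_insert his, h]; ring

theorem norm_one (D : Ctx K m) (hE : Emb D.σ) (v : (𝓞 K)ˣ) (hv : (v : 𝓞 K) - 1 ∈ Ideal.span {3}) :
    ∏ i, D.σ i ((v : 𝓞 K) : K) = 1 := by
  have h0 := D2_normU D hE v
  set n : Oˣ := Units.map (RingOfIntegers.norm F) v with hn
  obtain ⟨w, hw⟩ := Ideal.mem_span_singleton.1 hv
  have hv' : (v : 𝓞 K) = 1 + 3 * w := by linear_combination hw
  obtain ⟨y, hy, hy1⟩ := D2_prod Finset.univ (fun i => D.σ i (w : K)) (fun i => by
    have h1 : IsIntegral ℤ (w : K) := RingOfIntegers.isIntegral_coe w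
    exact h1.map (D.σ i).toIntAlgHom)
  have h1 : e (n : O) = 1 + 3 * y := by
    rw [← h0, ← hy1]
    refine Finset.prod_congr rfl fun i _ => ?_
    rw [hv']
    have h3' : (algebraMap (𝓞 K) K) 3 = 3 := map_ofNat _ 3
    have h3'' : (D.σ i) 3 = 3 := map_ofNat _ 3
    simp [h3', h3'']
  -- the element (n - 1)/3 of F
  have h2 : emb (((n : O) : F) - 1) = 3 * y := by
    rw [map_sub, map_one]
    have : emb ((n : O) : F) = e (n : O) := rfl
    rw [this, h1]; ring
  have h3 : emb ((((n : O) : F) - 1) / 3) = y := by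
    rw [map_div₀, h2]
    have : emb (3 : F) = 3 := map_ofNat emb 3
    rw [this]
    field_simp
  have h4 : IsIntegral ℤ ((((n : O) : F) - 1) / 3) := by
    rw [← h3] at hy
    exact (isIntegral_algHom_iff emb.toIntAlgHom emb.injective).1 hy
  obtain ⟨y', hy'⟩ : ∃ y' : O, (algebraMap O F) y' = (((n : O) : F) - 1) / 3 :=
    (IsIntegralClosure.isIntegral_iff (A := O)).1 h4
  have h5 : Prim (n : O) := by
    refine ⟨y', ?_⟩
    apply FaithfulSMul.algebraMap_injective O F
    rw [map_sub, map_one, map_mul, hy']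
    have : (algebraMap O F) (3 : O) = 3 := map_ofNat _ 3
    rw [this]
    field_simp
  have h6 : (n : O) = 1 :=
    Prim.eq_of_associated h5 prim_one (associated_one_iff_isUnit.2 n.isUnit)
  rw [h0, h6, map_one]

end H55N
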