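import Mathlib
import Pool.Agent.Lib.H55C.A4
import Pool.Agent.Lib.H55N.Defs

open NumberField IsDedekindDomain

namespace H55N

open H55B H55C

variable {K : Type} [Field K] [NumberField K] [Algebra F K]

/-! Chunk D3 (M). Change of the group of units. U' = {u = 1 mod J'} < U = {u = 1 mod J}, J' = 2 J (J prime to 2). The map U -> (O_K/2)^* has kernel U'
(u - 1 in J and in (2), coprime, so in J (2) = J'), and (O_K/2)^* has odd order: 2 is unramified in K (odd_discr, or: UnrOut K says that the primes w above 2 have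
ramification index 1 over O, and 2 is prime in O), so (2) is a product of distinct primes of O_K and O_K/2 is a product of finite fields of characteristic 2, whose
unit groups have odd order 2^k - 1 (alternatively: an element of order 2 of (O_K/2)^* is 1 + y with y^2 = 0 in O_K/2, a reduced ring). So U/U' is finite of odd order ν.
Let T be a transversal of X/U and R0 a set of ν representatives of U/U'. Then T' = {v r : v in R0, r in T} is a transversal of X/U' and (v, r) -> v r is injective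
(0 is not in X, U acts freely), and X is stable under U (hX). If φ is a function with φ(v x) = φ(x) for v in U, x in X, absolutely summable over T', with sum S', then it is absolutely summable over T with
sum S'/ν. -/

/-- The units which are 1 modulo J. -/
def D3_U (J : Ideal (𝓞 K)) : Subgroup (𝓞 K)ˣ :=
  (Units.map (Ideal.Quotient.mk J).toMonoidHom : (𝓞 K)ˣ →* (𝓞 K ⧸ J)ˣ).ker

omit [NumberField K] [Algebra F K] in
lemma D3_mem (J : Ideal (𝓞 K)) (v : (𝓞 K)ˣ) : v ∈ D3_U J ↔ (v : 𝓞 K) - 1 ∈ J := by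
  unfold D3_U
  rw [MonoidHom.mem_ker, Units.ext_iff, ← Ideal.Quotient.mk_eq_mk_iff_sub_mem]
  exact Iff.rfl

omit [Algebra F K] in
lemma D3_fin (J : Ideal (𝓞 K)) (hJ : J ≠ ⊥) : (D3_U J).FiniteIndex := by
  haveI : Finite (𝓞 K ⧸ J) := Ideal.finiteQuotientOfFreeOfNeBot J hJ
  unfold D3_U
  infer_instance

lemma D3_rad (hK : UnrOut K) (x : 𝓞 K) (h : x ^ 2 ∈ Ideal.span {(2 : 𝓞 K)}) :
    x ∈ Ideal.span {(2 : 𝓞 K)} := by
  obtain ⟨y, hy⟩ := Ideal.mem_span_singleton.1 h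
  have h20 : (2 : K) ≠ 0 := two_ne_zero
  have key : ∀ w : HeightOneSpectrum (𝓞 K), w.valuation K ((x : K) / 2) ≤ 1 := by
    intro w
    by_cases h2 : (2 : 𝓞 K) ∈ w.asIdeal
    · have hv := val_two hK w h2
      have hx : x ∈ w.asIdeal := by
        apply w.isPrime.mem_of_pow_mem 2
        rw [hy]
        exact w.asIdeal.mul_mem_right _ h2
      have hx1 : w.valuation K (algebraMap (𝓞 K) K x) < 1 :=
        (HeightOneSpectrum.valuation_lt_one_iff_mem w x).2 hx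
      rw [map_div₀, hv]
      have hx2 : w.valuation K (x : K) ≤ WithZero.exp (-1 : ℤ) := by
        by_cases h0 : w.valuation K (x : K) = 0
        · rw [h0]
          exact zero_le'
        · rw [← WithZero.exp_log h0] at hx1 ⊢
          rw [← WithZero.exp_zero, WithZero.exp_lt_exp] at hx1
          rw [WithZero.exp_le_exp]
          omega
      exact div_le_one_of_le₀ hx2 zero_le'
    · have hv : w.valuation K (algebraMap (𝓞 K) K 2) = 1 := by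
        rw [HeightOneSpectrum.valuation_of_algebraMap]
        exact (HeightOneSpectrum.intValuation_eq_one_iff).2 h2
      rw [map_ofNat] at hv
      rw [map_div₀, hv, div_one]
      exact w.valuation_le_one x
  obtain ⟨z, hz⟩ := HeightOneSpectrum.mem_integers_of_valuation_le_one K _ key
  refine Ideal.mem_span_singleton.2 ⟨z, ?_⟩
  apply RingOfIntegers.ext
  show algebraMap (𝓞 K) K x = algebraMap (𝓞 K) K (2 * z)
  rw [map_mul, map_ofNat, hz]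
  field_simp

omit [Algebra F K] in
lemma D3_main (J J' : Ideal (𝓞 K)) (hle : J' ≤ J) (X : Set (𝓞 K))
    (hfi : ((D3_U J').subgroupOf (D3_U J)).FiniteIndex)
    (hX0 : (0 : 𝓞 K) ∉ X) (hX : ∀ u : (𝓞 K)ˣ, (u : 𝓞 K) - 1 ∈ J → ∀ x ∈ X, (u : 𝓞 K) * x ∈ X)
    (T : Set (𝓞 K)) (hT : Transv J X T) : ∃ T', Transv J' X T' ∧
      ∀ (φ : 𝓞 K → ℂ) (S : ℂ), (∀ u : (𝓞 K)ˣ, (u : 𝓞 K) - 1 ∈ J → ∀ x ∈ X, φ ((u : 𝓞 K) * x) = φ x) →
        HasSum (fun x : T' => φ x) S →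
          HasSum (fun x : T => φ x) (S / (((D3_U J').subgroupOf (D3_U J)).index : ℕ)) := by
  classical
  set H := (D3_U J').subgroupOf (D3_U J) with hH
  let Q := (D3_U J) ⧸ H
  haveI : Finite Q := Subgroup.finite_quotient_of_finiteIndex
  let o : Q → (𝓞 K)ˣ := fun q => ((Quotient.out q : D3_U J) : (𝓞 K)ˣ)
  have ho : ∀ q, ((o q : 𝓞 K)) - 1 ∈ J := fun q => (D3_mem J _).1 (Quotient.out q : D3_U J).2
  have hoU : ∀ q, o q ∈ D3_U J := fun q => (Quotient.out q : D3_U J).2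
  have hmk : ∀ (a b : D3_U J), (QuotientGroup.mk a : Q) = QuotientGroup.mk b ↔
      (a : (𝓞 K)ˣ)⁻¹ * (b : (𝓞 K)ˣ) ∈ D3_U J' := by
    intro a b
    rw [QuotientGroup.eq]
    exact Subgroup.mem_subgroupOf
  have hmulJ : ∀ a b : (𝓞 K)ˣ, (a : 𝓞 K) - 1 ∈ J → (b : 𝓞 K) - 1 ∈ J →
      ((a * b : (𝓞 K)ˣ) : 𝓞 K) - 1 ∈ J := fun a b ha hb =>
    (D3_mem J _).1 (Subgroup.mul_mem _ ((D3_mem J a).2 ha) ((D3_mem J b).2 hb))
  have hinj : ∀ (q q' : Q) (r r' : 𝓞 K) (u : (𝓞 K)ˣ), r ∈ T → r' ∈ T → (u : 𝓞 K) - 1 ∈ J' →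
      (o q' : 𝓞 K) * r' = u * (o q * r) → q' = q ∧ r' = r := by
    intro q q' r r' u hr hr' hu he
    have hr0 : r ≠ 0 := fun h => hX0 (h ▸ hT.sub hr)
    have hw : (((o q')⁻¹ * u * o q : (𝓞 K)ˣ) : 𝓞 K) - 1 ∈ J := by
      apply (D3_mem J _).1
      exact Subgroup.mul_mem _ (Subgroup.mul_mem _ (Subgroup.inv_mem _ (hoU q'))
        ((D3_mem J u).2 (hle hu))) (hoU q)
    have he2 : r' = (((o q')⁻¹ * u * o q : (𝓞 K)ˣ) : 𝓞 K) * r := by
      have h1 : ((o q' : (𝓞 K)ˣ) : 𝓞 K) * r' =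
          (o q' : 𝓞 K) * ((((o q')⁻¹ * u * o q : (𝓞 K)ˣ) : 𝓞 K) * r) := by
        rw [he, Units.val_mul, Units.val_mul]
        have h2 : (o q' : 𝓞 K) * (((o q')⁻¹ : (𝓞 K)ˣ) : 𝓞 K) = 1 := Units.mul_inv _
        linear_combination (-(u : 𝓞 K) * (o q : 𝓞 K) * r) * h2
      exact (Units.mul_right_inj _).1 h1
    have he3 := hT.uniq r hr r' hr' _ hw he2
    refine ⟨?_, he3⟩
    rw [he3] at he
    have he4 : (o q' : 𝓞 K) = (u * o q : (𝓞 K)ˣ) := by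
      apply mul_right_cancel₀ hr0
      rw [he, Units.val_mul]
      ring
    have he5 : o q' = u * o q := Units.ext he4
    have h6 : (QuotientGroup.mk (Quotient.out q : D3_U J) : Q) =
        QuotientGroup.mk (Quotient.out q' : D3_U J) := by
      rw [hmk]
      show (o q)⁻¹ * o q' ∈ _
      rw [he5, mul_comm u, inv_mul_cancel_left]
      exact (D3_mem J' u).2 hu
    have h7 : ∀ q : Q, (QuotientGroup.mk (Quotient.out q : D3_U J) : Q) = q := fun q =>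
      QuotientGroup.out_eq' q
    rw [h7, h7] at h6
    exact h6.symm
  let T' : Set (𝓞 K) := Set.range fun p : Q × T => (o p.1 : 𝓞 K) * (p.2 : 𝓞 K)
  have hT' : Transv J' X T' := by
    refine ⟨?_, ?_, ?_⟩
    · rintro _ ⟨p, rfl⟩
      exact hX _ (ho _) _ (hT.sub p.2.2)
    · intro x hx
      obtain ⟨r, hr, u, hu, hxu⟩ := hT.cover x hx
      let a : D3_U J := ⟨u, (D3_mem J u).2 hu⟩
      let q : Q := QuotientGroup.mk a
      refine ⟨_, ⟨⟨q, ⟨r, hr⟩⟩, rfl⟩, (o q)⁻¹ * u, ?_, ?_⟩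
      · apply (D3_mem J' _).1
        have h1 : (QuotientGroup.mk (Quotient.out q : D3_U J) : Q) = QuotientGroup.mk a :=
          QuotientGroup.out_eq' q
        exact (hmk _ _).1 h1
      · rw [hxu, Units.val_mul]
        have h2 : (o q : 𝓞 K) * (((o q)⁻¹ : (𝓞 K)ˣ) : 𝓞 K) = 1 := Units.mul_inv _
        show (u : 𝓞 K) * r = _ * ((o q : 𝓞 K) * r)
        linear_combination (-(u : 𝓞 K) * r) * h2
    · rintro _ ⟨⟨q, r⟩, rfl⟩ _ ⟨⟨q', r'⟩, rfl⟩ u hu he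
      obtain ⟨h1, h2⟩ := hinj q q' r r' u r.2 r'.2 hu he
      subst h1
      have h3 : r' = r := Subtype.ext h2
      subst h3
      rfl
  refine ⟨T', hT', ?_⟩
  intro φ S hφ hS
  let e : Q × T ≃ T' := Equiv.ofBijective (fun p => ⟨(o p.1 : 𝓞 K) * (p.2 : 𝓞 K), ⟨p, rfl⟩⟩) (by
    constructor
    · rintro ⟨q, r⟩ ⟨q', r'⟩ h
      have h1 : (o q' : 𝓞 K) * (r' : 𝓞 K) = ((1 : (𝓞 K)ˣ) : 𝓞 K) * ((o q : 𝓞 K) * (r : 𝓞 K)) := by
        rw [Units.val_one, one_mul]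
        exact (congrArg Subtype.val h).symm
      obtain ⟨h2, h3⟩ := hinj q q' r r' 1 r.2 r'.2 (by simp) h1
      rw [h2, Subtype.ext h3]
    · rintro ⟨_, ⟨p, rfl⟩⟩
      exact ⟨p, rfl⟩)
  have hS2 : HasSum (fun p : Q × T => φ (p.2 : 𝓞 K)) S := by
    have h1 := (e.hasSum_iff).2 hS
    have h2 : ((fun x : T' => φ x) ∘ e) = fun p : Q × T => φ (p.2 : 𝓞 K) := by
      funext p
      exact hφ _ (ho _) _ (hT.sub p.2.2)
    rw [← h2]
    exact h1
  have hsm : Summable (fun r : T => φ (r : 𝓞 K)) :=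
    (hS2.summable.comp_injective (i := fun r : T => ((QuotientGroup.mk 1 : Q), r))
      (fun a b h => (Prod.ext_iff.1 h).2))
  have h3 : HasSum (fun _ : Q => ∑' r : T, φ (r : 𝓞 K)) S :=
    hS2.prod_fiberwise fun _ => hsm.hasSum
  haveI : Fintype Q := Fintype.ofFinite Q
  have h4 := h3.unique (hasSum_fintype _)
  rw [Finset.sum_const, Finset.card_univ, nsmul_eq_mul] at h4
  have h5 : (Fintype.card Q : ℕ) = H.index := by
    rw [← Nat.card_eq_fintype_card]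
    rfl
  have h6 : (H.index : ℂ) ≠ 0 := by exact_mod_cast hfi.index_ne_zero
  rw [h5] at h4
  rw [h4, mul_div_cancel_left₀ _ h6]
  exact hsm.hasSum

theorem odd_change (hK : UnrOut K) (J J' : Ideal (𝓞 K)) (hJ : J ≠ ⊥)
    (hJ2 : IsCoprime J (Ideal.span {2})) (hJ' : J' = Ideal.span {2} * J) (X : Set (𝓞 K))
    (hX0 : (0 : 𝓞 K) ∉ X) (hX : ∀ u : (𝓞 K)ˣ, (u : 𝓞 K) - 1 ∈ J → ∀ x ∈ X, (u : 𝓞 K) * x ∈ X) :
    ∃ ν : ℕ, Odd ν ∧ ∀ T, Transv J X T → ∃ T', Transv J' X T' ∧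
      ∀ (φ : 𝓞 K → ℂ) (S : ℂ), (∀ u : (𝓞 K)ˣ, (u : 𝓞 K) - 1 ∈ J → ∀ x ∈ X, φ ((u : 𝓞 K) * x) = φ x) →
        HasSum (fun x : T' => φ x) S → HasSum (fun x : T => φ x) (S / ν) := by
  have hJ'0 : J' ≠ ⊥ := by
    rw [hJ']
    simp [hJ]
  have hle : J' ≤ J := hJ' ▸ Ideal.mul_le_right
  haveI := D3_fin J' hJ'0
  haveI hfi : ((D3_U J').subgroupOf (D3_U J)).FiniteIndex := inferInstance
  refine ⟨((D3_U J').subgroupOf (D3_U J)).index, ?_, D3_main J J' hle X hfi hX0 hX⟩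
  rw [← Nat.not_even_iff_odd]
  intro hev
  haveI : Finite ((D3_U J) ⧸ ((D3_U J').subgroupOf (D3_U J))) :=
    Subgroup.finite_quotient_of_finiteIndex
  haveI : Fact (Nat.Prime 2) := ⟨Nat.prime_two⟩
  obtain ⟨q, hq⟩ := exists_prime_orderOf_dvd_card' (G := (D3_U J) ⧸ ((D3_U J').subgroupOf (D3_U J)))
    2 hev.two_dvd
  obtain ⟨a, rfl⟩ := QuotientGroup.mk_surjective q
  have h1 := pow_orderOf_eq_one (QuotientGroup.mk a : (D3_U J) ⧸ ((D3_U J').subgroupOf (D3_U J)))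
  rw [hq, ← QuotientGroup.mk_pow, QuotientGroup.eq_one_iff, Subgroup.mem_subgroupOf, D3_mem] at h1
  have h2 : (((a : (𝓞 K)ˣ) : 𝓞 K) - 1) ^ 2 ∈ Ideal.span {(2 : 𝓞 K)} := by
    have h3 : (((a : (𝓞 K)ˣ) : 𝓞 K) - 1) ^ 2 =
        ((((a ^ 2 : D3_U J) : (𝓞 K)ˣ) : 𝓞 K) - 1) - 2 * (((a : (𝓞 K)ˣ) : 𝓞 K) - 1) := by
      rw [SubmonoidClass.coe_pow, Units.val_pow_eq_pow_val]
      ring
    rw [h3]
    refine Ideal.sub_mem _ ?_ (Ideal.mul_mem_right _ _ (Ideal.mem_span_singleton_self _))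
    exact (hJ' ▸ Ideal.mul_le_left : J' ≤ Ideal.span {(2 : 𝓞 K)}) h1
  have h4 := D3_rad hK _ h2
  have h5 : ((a : (𝓞 K)ˣ) : 𝓞 K) - 1 ∈ J' := by
    have h6 : ((a : (𝓞 K)ˣ) : 𝓞 K) - 1 ∈ Ideal.span {(2 : 𝓞 K)} ⊓ J := ⟨h4, (D3_mem J _).1 a.2⟩
    rw [hJ', Ideal.mul_eq_inf_of_coprime]
    · exact h6
    · exact (Ideal.isCoprime_iff_sup_eq.1 hJ2.symm)
  have h7 : (QuotientGroup.mk a : (D3_U J) ⧸ ((D3_U J').subgroupOf (D3_U J))) = 1 := by
    rw [QuotientGroup.eq_one_iff, Subgroup.mem_subgroupOf, D3_mem]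
    exact h5
  rw [h7, orderOf_one] at hq
  omega

/-- The same for the unsmoothed series (2 may ramify): for arbitrary nonzero J' <= J the index is finite. -/
theorem finite_change (J J' : Ideal (𝓞 K)) (hJ' : J' ≠ ⊥) (hle : J' ≤ J) (X : Set (𝓞 K))
    (hX0 : (0 : 𝓞 K) ∉ X) (hX : ∀ u : (𝓞 K)ˣ, (u : 𝓞 K) - 1 ∈ J → ∀ x ∈ X, (u : 𝓞 K) * x ∈ X) :
    ∃ ν : ℕ, 0 < ν ∧ ∀ T, Transv J X T → ∃ T', Transv J' X T' ∧
      ∀ (φ : 𝓞 K → ℂ) (S : ℂ), (∀ u : (𝓞 K)ˣ, (u : 𝓞 K) - 1 ∈ J → ∀ x ∈ X, φ ((u : 𝓞 K) * x) = φ x) →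
        HasSum (fun x : T' => φ x) S → HasSum (fun x : T => φ x) (S / ν) := by
  haveI := D3_fin J' hJ'
  haveI hfi : ((D3_U J').subgroupOf (D3_U J)).FiniteIndex := inferInstance
  exact ⟨((D3_U J').subgroupOf (D3_U J)).index, Nat.pos_of_ne_zero hfi.index_ne_zero,
    D3_main J J' hle X hfi hX0 hX⟩

end H55N
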