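import Mathlib
import Pool.Agent.Lib.H55N.Defs

/-! Simple facts used everywhere. -/

open NumberField IsDedekindDomain

namespace H55N

open H55B H55C

variable {K : Type} [Field K] [NumberField K] [Algebra F K] {m : ℕ}

theorem dif_empty {M ι : Type} [AddCommGroup M] (w : ι → M) (h : M → ℂ) (x : M) :
    Dif w ∅ h x = h x := by
  simp [Dif]

theorem dif_add {M ι : Type} [AddCommGroup M] (w : ι → M) (S : Finset ι) (h k : M → ℂ) (x : M) :
    Dif w S (fun y => h y + k y) x = Dif w S h x + Dif w S k x := by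
  simp only [Dif, mul_add, Finset.sum_add_distrib]

theorem dif_const_mul {M ι : Type} [AddCommGroup M] (w : ι → M) (S : Finset ι) (c : ℂ) (h : M → ℂ)
    (x : M) : Dif w S (fun y => c * h y) x = c * Dif w S h x := by
  simp only [Dif, Finset.mul_sum]
  exact Finset.sum_congr rfl fun T _ => by ring

theorem dif_sum {M ι κ : Type} [AddCommGroup M] (w : ι → M) (S : Finset ι) (s : Finset κ)
    (h : κ → M → ℂ) (x : M) :
    Dif w S (fun y => ∑ k ∈ s, h k y) x = ∑ k ∈ s, Dif w S (h k) x := by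
  simp only [Dif, Finset.mul_sum]
  exact Finset.sum_comm

theorem dif_const {M ι : Type} [AddCommGroup M] (w : ι → M) (S : Finset ι) (hS : S.Nonempty)
    (c : ℂ) (x : M) : Dif w S (fun _ => c) x = 0 := by
  have h : (∑ T ∈ S.powerset, (-1 : ℂ) ^ T.card) = 0 := by
    have := Finset.sum_powerset_neg_one_pow_card_of_nonempty hS
    have h2 := congrArg (Int.cast : ℤ → ℂ) this
    push_cast at h2
    exact h2
  simp only [Dif]
  rw [← Finset.sum_mul, h, zero_mul]

theorem dif_insert {M ι : Type} [AddCommGroup M] [DecidableEq ι] (w : ι → M) (S : Finset ι) (a : ι)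
    (ha : a ∉ S) (h : M → ℂ) (x : M) :
    Dif w (insert a S) h x = Dif w S h x - Dif w S h (x - w a) := by
  simp only [Dif]
  rw [Finset.sum_powerset_insert ha]
  have : ∀ T ∈ S.powerset, (-1 : ℂ) ^ (insert a T).card * h (x - ∑ i ∈ insert a T, w i) =
      -((-1) ^ T.card * h (x - w a - ∑ i ∈ T, w i)) := by
    intro T hT
    have haT : a ∉ T := fun h' => ha (Finset.mem_powerset.1 hT h')
    rw [Finset.card_insert_of_notMem haT, Finset.sum_insert haT, sub_sub, pow_succ]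
    ring
  rw [Finset.sum_congr rfl this, Finset.sum_neg_distrib]
  ring

namespace Ctx

variable (D : Ctx K m)

theorem mem_X (x : 𝓞 K) : x ∈ D.X ↔ x - D.c₀ ∈ D.I := Iff.rfl

theorem X_sub {x y : 𝓞 K} (hx : x ∈ D.X) (hy : y ∈ D.I) : x - y ∈ D.X := by
  rw [mem_X] at hx ⊢
  have : x - y - D.c₀ = (x - D.c₀) - y := by ring
  rw [this]
  exact D.I.sub_mem hx hy

theorem X_add {x y : 𝓞 K} (hx : x ∈ D.X) (hy : y ∈ D.I) : x + y ∈ D.X := by
  rw [mem_X] at hx ⊢
  have : x + y - D.c₀ = (x - D.c₀) + y := by ring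
  rw [this]
  exact D.I.add_mem hx hy

theorem X_ne (h : D.c₀ ∉ D.I) {x : 𝓞 K} (hx : x ∈ D.X) : x ≠ 0 := by
  rintro rfl
  rw [mem_X, zero_sub] at hx
  exact h (neg_mem_iff.1 hx)

theorem Tr_add (a : K) (x y : 𝓞 K) : D.Tr a (x + y) = D.Tr a x + D.Tr a y := by
  simp only [Tr, map_add, add_mul, Finset.sum_add_distrib]

theorem Tr_sub (a : K) (x y : 𝓞 K) : D.Tr a (x - y) = D.Tr a x - D.Tr a y := by
  simp only [Tr, map_sub, sub_mul, Finset.sum_sub_distrib]

theorem Tr_zero (a : K) : D.Tr a 0 = 0 := by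
  simp [Tr]

theorem one_le_sz (x : 𝓞 K) : 1 ≤ D.sz x := by
  unfold sz
  have : 0 ≤ ∑ i, ‖D.σ i x‖ := Finset.sum_nonneg fun i _ => norm_nonneg _
  linarith

theorem sz_pos (x : 𝓞 K) : 0 < D.sz x := lt_of_lt_of_le one_pos (D.one_le_sz x)

theorem norm_le_sz (x : 𝓞 K) (i : Fin (m + 1)) : ‖D.σ i x‖ ≤ D.sz x := by
  unfold sz
  have : ‖D.σ i x‖ ≤ ∑ i, ‖D.σ i x‖ :=
    Finset.single_le_sum (f := fun i => ‖D.σ i x‖) (fun i _ => norm_nonneg _) (Finset.mem_univ i)
  linarith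

end Ctx

/-- The gain 1/sz in every direction. -/
noncomputable def Ctx.gs (D : Ctx K m) {ι : Type} (_ : ι) (x : 𝓞 K) : ℝ := (D.sz x)⁻¹

end H55N
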