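import Mathlib
import Pool.Agent.Lib.H55N.A2

open NumberField IsDedekindDomain

namespace H55N

open H55B H55C

variable {K : Type} [Field K] [NumberField K] [Algebra F K] {m : ℕ}

/-! Chunk L4 (M). Direction data from directions d_j and smoothing primes c_i not containing the d_j: P = prod_k p_k, w_i = (P/p_i) d_{i.1}, i.e.
w_i = (prod_{k <> i} p_k) d_{i.1}. mem: d in I. oth: for k <> i the factor p_k is in c_k (absNorm c_k = p_k: Ideal.absNorm_mem). self: c_i is prime (Ideal.isPrime_of_irreducible_absNorm),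
d_{i.1} not in c_i, and p_k not in c_i for k <> i: p_k and p_i are distinct primes, c_i contains p_i, so it would contain 1. orth: Tr_eq, linearity. int, low, ind: hypotheses. -/

theorem dirs_of (D : Ctx K m) (hD : D.Ok) (A : Fin (m + 1) → K) (d : Fin (m + 1) → 𝓞 K)
    (hd : ∀ j, d j ∈ D.I) (hdc : ∀ i j, d j ∉ D.c i)
    (horth : ∀ j k, k ≠ j → Algebra.trace F K ((d j : K) * A k) = 0)
    (hint : ∀ x ∈ D.X, ∀ k, ∃ y : O, D.Tr (A k) x = e y)
    (hlow : ∀ x ∈ D.X, ∀ k, 1 ≤ ‖D.Tr (A k) x‖) (hA : LinearIndependent F A) :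
    ∃ w, D.Dirs A w := by
  classical
  have hprime : ∀ i, (D.c i).IsPrime := fun i =>
    Ideal.isPrime_of_irreducible_absNorm (by
      rw [hD.smooth.norm i]
      exact (hD.smooth.prime i))
  have hpc : ∀ i, (D.p i : 𝓞 K) ∈ D.c i := fun i => by
    have := Ideal.absNorm_mem (D.c i)
    rwa [hD.smooth.norm i] at this
  refine ⟨fun i => ((∏ k ∈ Finset.univ.erase i, D.p k : ℕ) : 𝓞 K) * d i.1, ?_, ?_, ?_, ?_, hint,
    hlow, hA⟩
  · intro i
    exact D.I.mul_mem_left _ (hd _)
  · intro i h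
    rcases (hprime i).mem_or_mem h with h1 | h1
    · have hcop : Nat.Coprime (∏ k ∈ Finset.univ.erase i, D.p k) (D.p i) := by
        refine Nat.Coprime.prod_left fun k hk => ?_
        rw [Nat.coprime_primes (hD.smooth.prime k) (hD.smooth.prime i)]
        intro h2
        exact (Finset.mem_erase.1 hk).1 (hD.smooth.inj h2)
      have h2 := Nat.isCoprime_iff_coprime.2 hcop
      obtain ⟨a, b, hab⟩ := h2
      apply (hprime i).ne_top
      rw [Ideal.eq_top_iff_one]
      have h3 := congrArg (Int.cast : ℤ → 𝓞 K) hab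
      push_cast at h3
      rw [← h3]
      refine (D.c i).add_mem ((D.c i).mul_mem_left _ ?_) ((D.c i).mul_mem_left _ (hpc i))
      push_cast at h1
      exact h1
    · exact hdc i i.1 h1
  · intro i k hk
    refine (D.c k).mul_mem_right _ ?_
    rw [← Finset.mul_prod_erase (Finset.univ.erase i) (fun k => D.p k)
      (Finset.mem_erase.2 ⟨hk, Finset.mem_univ k⟩)]
    push_cast
    exact (D.c k).mul_mem_right _ (hpc k)
  · intro i k hk
    rw [Tr_eq D hD.emb]
    have h1 : (((((∏ k ∈ Finset.univ.erase i, D.p k : ℕ) : 𝓞 K) * d i.1 : 𝓞 K)) : K) * A k =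
        ((∏ k ∈ Finset.univ.erase i, D.p k : ℕ) : F) • ((d i.1 : K) * A k) := by
      rw [Algebra.smul_def, map_natCast, ← mul_assoc]
      congr 1
    rw [h1, map_smul, horth i.1 k hk, smul_zero, map_zero]

/-- Finiteness of the set of ideals containing a nonzero element. -/
theorem finite_ideals (x : 𝓞 K) (hx : x ≠ 0) : {c : Ideal (𝓞 K) | x ∈ c}.Finite := by
  classical
  have h : Ideal.span {x} ≠ (0 : Ideal (𝓞 K)) := by
    rw [Ideal.zero_eq_bot, Ne, Ideal.span_singleton_eq_bot]
    exact hx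
  have h1 : Fintype {c : Ideal (𝓞 K) // c ∣ Ideal.span {x}} :=
    UniqueFactorizationMonoid.fintypeSubtypeDvd _ h
  have h2 : {c : Ideal (𝓞 K) | c ∣ Ideal.span {x}}.Finite := by
    rw [← Set.finite_coe_iff, Set.coe_ofPred]
    exact Finite.of_fintype _
  refine Set.Finite.subset h2 ?_
  intro c hc
  exact Ideal.dvd_iff_le.2 ((Ideal.span_singleton_le_iff_mem _).2 hc)

end H55N
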