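import Mathlib
import Pool.Agent.Lib.H55N.Basic

namespace H55N

/-! Chunk B5 (M). The Leibniz rule. Induction on S with dif_insert: for S' = insert a S split the powerset of S' into the T
and the insert a T (T in the powerset of S) (Finset.sum_powerset_insert); for T: S' \ T = insert a (S \ T), for insert a T: S' \ insert a T = S \ T.
With E h (x) = h(x - w a): D_{S'}(hk)(x) = D_S(hk)(x) - D_S(hk)(x - w a), and
[D_T h](x - w_{S-T} - w_a) [D_{insert a (S-T)} k](x) + [D_{insert a T} h](x - w_{S-T}) [D_{S-T} k](x) =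
[D_T h](x - w_{S-T} - w_a) ([D_{S-T}k](x) - [D_{S-T}k](x-w_a)) + ([D_T h](x-w_{S-T}) - [D_T h](x-w_{S-T}-w_a)) [D_{S-T}k](x)
= [D_T h](x-w_{S-T}) [D_{S-T}k](x) - [D_T h](x-w_a-w_{S-T}) [D_{S-T}k](x-w_a). -/

theorem dif_mul {M ι : Type} [AddCommGroup M] [DecidableEq ι] (w : ι → M) (S : Finset ι)
    (h k : M → ℂ) (x : M) : Dif w S (fun y => h y * k y) x =
      ∑ T ∈ S.powerset, Dif w T h (x - ∑ i ∈ S \ T, w i) * Dif w (S \ T) k x := by
  induction S using Finset.induction_on generalizing x with
  | empty =>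
    rw [dif_empty, Finset.powerset_empty, Finset.sum_singleton, Finset.sdiff_empty, dif_empty,
      dif_empty, Finset.sum_empty, sub_zero]
  | insert a S ha ih =>
    rw [dif_insert w S a ha, ih x, ih (x - w a), Finset.sum_powerset_insert ha,
      ← Finset.sum_sub_distrib, ← Finset.sum_add_distrib]
    refine Finset.sum_congr rfl fun T hT => ?_
    have haT : a ∉ T := fun h' => ha (Finset.mem_powerset.1 hT h')
    have h1 : insert a S \ T = insert a (S \ T) := Finset.insert_sdiff_of_notMem S haT
    have h2 : insert a S \ insert a T = S \ T := by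
      rw [Finset.insert_sdiff_insert, Finset.sdiff_insert_of_notMem ha]
    have ha' : a ∉ S \ T := fun h' => ha (Finset.mem_sdiff.1 h').1
    rw [h1, h2, dif_insert w (S \ T) a ha', dif_insert w T a haT, Finset.sum_insert ha']
    have h3 : x - (w a + ∑ i ∈ S \ T, w i) = x - w a - ∑ i ∈ S \ T, w i := by abel
    have h4 : x - ∑ i ∈ S \ T, w i - w a = x - w a - ∑ i ∈ S \ T, w i := by abel
    rw [h3, h4]
    ring

/-- Additive functions have no differences of order two and more. -/
theorem dif_additive {M ι : Type} [AddCommGroup M] (w : ι → M) (S : Finset ι) (h : M → ℂ)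
    (hadd : ∀ x y, h (x - y) = h x - h y) (x : M) :
    (2 ≤ S.card → Dif w S h x = 0) ∧ ∀ i, Dif w {i} h x = h (w i) := by
  classical
  have key : ∀ (a : ι) (S0 : Finset ι), a ∉ S0 →
      Dif w (insert a S0) h x = Dif w S0 (fun _ => h (w a)) x := by
    intro a S0 ha
    rw [dif_insert w S0 a ha]
    simp only [Dif]
    rw [← Finset.sum_sub_distrib]
    refine Finset.sum_congr rfl fun T _ => ?_
    have h3 : x - w a - ∑ i ∈ T, w i = x - ∑ i ∈ T, w i - w a := by abel
    rw [h3, hadd (x - ∑ i ∈ T, w i) (w a)]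
    ring
  constructor
  · intro hS
    have hne : S.Nonempty := Finset.card_pos.mp (by omega)
    obtain ⟨a, ha⟩ := hne
    rw [← Finset.insert_erase ha, key a (S.erase a) (Finset.notMem_erase a S)]
    apply dif_const
    apply Finset.card_pos.mp
    rw [Finset.card_erase_of_mem ha]
    omega
  · intro i
    have h1 : ({i} : Finset ι) = insert i ∅ := rfl
    rw [h1, key i ∅ (Finset.notMem_empty i), dif_empty]

/-- Differences of the complex conjugate. -/
theorem dif_conj {M ι : Type} [AddCommGroup M] (w : ι → M) (S : Finset ι) (h : M → ℂ) (x : M) :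
    Dif w S (fun y => (starRingEnd ℂ) (h y)) x = (starRingEnd ℂ) (Dif w S h x) := by
  simp only [Dif, map_sum, map_mul, map_pow, map_neg, map_one]

end H55N
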