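import Mathlib
import Pool.Agent.Lib.H55N.B5

namespace H55N

variable {P M ι : Type} [AddCommGroup M] [Fintype ι] [DecidableEq ι] {X : Set M} {w : ι → M}
  {γ : ι → M → ℝ} {β β' : P → M → ℝ} {h k : P → M → ℂ}

/-! Chunk B6 (M). Products of Good families.
First: if SV X w β with constant C then for every finite T: β q (x - w_T) <= C1 β q x, C1 = max(1,C)^(card ι) (induction on T;
X is stable), same for γ. By dif_mul, |D_S(hk)(x)| <= sum_{T in S} |D_T h (x - w_{S-T})| |D_{S-T} k (x)| <= sum_T C β(x - w_{S-T})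
prod_{i in T} γ_i(x-w_{S-T}) C' β'(x) prod_{i in S-T} γ_i(x), and prod_T prod_{S-T} = prod_S (Finset.prod_sdiff); at most 2^(card ι)
terms. (The constants C, C' may be assumed >= 0: replace by |C|, as β, γ > 0 on X.) -/

theorem SV.shift (hX : ∀ x ∈ X, ∀ i, x - w i ∈ X) (hβ : SV X w β) : ∃ C : ℝ, 0 < C ∧
    ∀ (T : Finset ι), ∀ q, ∀ x ∈ X, x - ∑ i ∈ T, w i ∈ X ∧ β q (x - ∑ i ∈ T, w i) ≤ C * β q x ∧
      β q x ≤ C * β q (x - ∑ i ∈ T, w i) := by
  obtain ⟨hpos, C0, hC0⟩ := hβ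
  obtain ⟨C1, hC1⟩ : ∃ C1, C1 = max 1 C0 := ⟨_, rfl⟩
  have h1 : 1 ≤ C1 := by rw [hC1]; exact le_max_left _ _
  have h2 : C0 ≤ C1 := by rw [hC1]; exact le_max_right _ _
  have key : ∀ (T : Finset ι), ∀ q, ∀ x ∈ X, x - ∑ i ∈ T, w i ∈ X ∧
      β q (x - ∑ i ∈ T, w i) ≤ C1 ^ T.card * β q x ∧
      β q x ≤ C1 ^ T.card * β q (x - ∑ i ∈ T, w i) := by
    intro T
    induction T using Finset.induction_on with
    | empty =>
      intro q x hx
      rw [Finset.sum_empty, sub_zero, Finset.card_empty, pow_zero, one_mul]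
      exact ⟨hx, le_rfl, le_rfl⟩
    | insert a T ha ih =>
      intro q x hx
      obtain ⟨g1, g2, g3⟩ := ih q x hx
      have h3 : x - ∑ i ∈ insert a T, w i = x - ∑ i ∈ T, w i - w a := by
        rw [Finset.sum_insert ha]
        abel
      rw [h3, Finset.card_insert_of_notMem ha, pow_succ]
      obtain ⟨y, hy⟩ : ∃ y, y = x - ∑ i ∈ T, w i := ⟨_, rfl⟩
      rw [← hy] at g1 g2 g3 ⊢
      obtain ⟨g4, g5⟩ := hC0 q y g1 a
      have hy0 := hpos q y g1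
      have hz0 := hpos q (y - w a) (hX y g1 a)
      have hk : (0 : ℝ) < C1 ^ T.card := by positivity
      refine ⟨hX y g1 a, ?_, ?_⟩
      · calc β q (y - w a) ≤ C0 * β q y := g4
          _ ≤ C1 * β q y := by gcongr
          _ ≤ C1 * (C1 ^ T.card * β q x) := by gcongr
          _ = C1 ^ T.card * C1 * β q x := by ring
      · calc β q x ≤ C1 ^ T.card * β q y := g3
          _ ≤ C1 ^ T.card * (C0 * β q (y - w a)) := by gcongr
          _ ≤ C1 ^ T.card * (C1 * β q (y - w a)) := by gcongr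
          _ = C1 ^ T.card * C1 * β q (y - w a) := by ring
  refine ⟨C1 ^ Fintype.card ι, by positivity, ?_⟩
  intro T q x hx
  obtain ⟨g1, g2, g3⟩ := key T q x hx
  have h4 : C1 ^ T.card ≤ C1 ^ Fintype.card ι :=
    pow_le_pow_right₀ h1 (Finset.card_le_univ T)
  have hx0 := hpos q x hx
  have hy0 := hpos q _ g1
  refine ⟨g1, ?_, ?_⟩
  · exact g2.trans (mul_le_mul_of_nonneg_right h4 hx0.le)
  · exact g3.trans (mul_le_mul_of_nonneg_right h4 hy0.le)

/-- Products of slowly varying functions. -/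
theorem B6_prod (hX : ∀ x ∈ X, ∀ i, x - w i ∈ X) (hγ : SV X w γ) : ∃ K : ℝ, 0 < K ∧
    ∀ (T U : Finset ι), ∀ x ∈ X, ∏ i ∈ T, γ i (x - ∑ j ∈ U, w j) ≤ K * ∏ i ∈ T, γ i x := by
  obtain ⟨C, hC, h⟩ := SV.shift hX hγ
  have h1 : 1 ≤ max 1 C := le_max_left _ _
  refine ⟨(max 1 C) ^ Fintype.card ι, by positivity, ?_⟩
  intro T U x hx
  have h2 : ∏ i ∈ T, γ i (x - ∑ j ∈ U, w j) ≤ ∏ i ∈ T, (max 1 C * γ i x) := by
    apply Finset.prod_le_prod
    · intro i _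
      exact (hγ.1 i _ (h U i x hx).1).le
    · intro i _
      refine ((h U i x hx).2.1).trans ?_
      exact mul_le_mul_of_nonneg_right (le_max_right _ _) (hγ.1 i x hx).le
  refine h2.trans ?_
  rw [Finset.prod_mul_distrib, Finset.prod_const]
  apply mul_le_mul_of_nonneg_right
  · exact pow_le_pow_right₀ h1 (Finset.card_le_univ T)
  · exact Finset.prod_nonneg fun i _ => (hγ.1 i x hx).le

/-- A product of two differences. -/
theorem B6_term (hX : ∀ x ∈ X, ∀ i, x - w i ∈ X) (hγ : SV X w γ) (hβ : SV X w β) : ∃ K : ℝ, 0 < K ∧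
    ∀ (S T : Finset ι), T ⊆ S → ∀ q, ∀ x ∈ X, ∀ (C C' a b b' : ℝ), 0 ≤ C → 0 ≤ C' → 0 ≤ b → 0 ≤ b' →
      a ≤ C * β q (x - ∑ i ∈ S \ T, w i) * ∏ i ∈ T, γ i (x - ∑ i ∈ S \ T, w i) →
      b ≤ C' * b' * ∏ i ∈ S \ T, γ i x →
      a * b ≤ (K * C * C') * (β q x * b') * ∏ i ∈ S, γ i x := by
  obtain ⟨K1, hK1, h1⟩ := SV.shift hX hβ
  obtain ⟨K2, hK2, h2⟩ := B6_prod hX hγ
  refine ⟨K1 * K2, by positivity, ?_⟩
  intro S T hTS q x hx C C' a b b' hC hC' hb hb' h3 h4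
  have hx0 := hβ.1 q x hx
  have hp1 : 0 ≤ ∏ i ∈ T, γ i x := Finset.prod_nonneg fun i _ => (hγ.1 i x hx).le
  have hp2 : 0 ≤ ∏ i ∈ S \ T, γ i x := Finset.prod_nonneg fun i _ => (hγ.1 i x hx).le
  have hp3 : 0 ≤ ∏ i ∈ T, γ i (x - ∑ i ∈ S \ T, w i) :=
    Finset.prod_nonneg fun i _ => (hγ.1 i _ (h1 (S \ T) q x hx).1).le
  have hprod : (∏ i ∈ S \ T, γ i x) * ∏ i ∈ T, γ i x = ∏ i ∈ S, γ i x :=
    Finset.prod_sdiff hTS
  have h5 : a ≤ C * (K1 * β q x) * (K2 * ∏ i ∈ T, γ i x) := by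
    refine h3.trans ?_
    apply mul_le_mul _ (h2 T (S \ T) x hx) hp3 (by positivity)
    exact mul_le_mul_of_nonneg_left (h1 (S \ T) q x hx).2.1 hC
  calc a * b ≤ (C * (K1 * β q x) * (K2 * ∏ i ∈ T, γ i x)) * (C' * b' * ∏ i ∈ S \ T, γ i x) :=
        mul_le_mul h5 h4 hb (by positivity)
    _ = _ := by rw [← hprod]; ring

omit [DecidableEq ι] in
theorem B6_card (S : Finset ι) (S' : Finset (Finset ι)) (h : S' ⊆ S.powerset) :
    (S'.card : ℝ) ≤ 2 ^ Fintype.card ι := by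
  have h1 : S'.card ≤ 2 ^ S.card := (Finset.card_le_card h).trans (by rw [Finset.card_powerset])
  have h2 : 2 ^ S.card ≤ 2 ^ Fintype.card ι :=
    Nat.pow_le_pow_right (by norm_num) (Finset.card_le_univ S)
  exact_mod_cast h1.trans h2

theorem Good.mul (hX : ∀ x ∈ X, ∀ i, x - w i ∈ X) (hγ : SV X w γ) (hβ : SV X w β)
    (hβ' : SV X w β') (h1 : Good X w γ β h) (h2 : Good X w γ β' k) :
    Good X w γ (fun q x => β q x * β' q x) (fun q x => h q x * k q x) := by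
  obtain ⟨K, hK, hterm⟩ := B6_term hX hγ hβ
  obtain ⟨K1, hK1, hs⟩ := SV.shift hX hβ
  obtain ⟨C, hC⟩ := h1
  obtain ⟨C', hC'⟩ := h2
  refine ⟨2 ^ Fintype.card ι * (K * |C| * |C'|), ?_⟩
  intro q S x hx
  have hx0 := hβ.1 q x hx
  have hx0' := hβ'.1 q x hx
  have hp : 0 ≤ ∏ i ∈ S, γ i x := Finset.prod_nonneg fun i _ => (hγ.1 i x hx).le
  have hB : 0 ≤ (K * |C| * |C'|) * (β q x * β' q x) * ∏ i ∈ S, γ i x := by positivity
  have e1 : Dif w S (fun y => h q y * k q y) x =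
      ∑ T ∈ S.powerset, Dif w T (h q) (x - ∑ i ∈ S \ T, w i) * Dif w (S \ T) (k q) x :=
    dif_mul w S (h q) (k q) x
  show ‖Dif w S (fun y => h q y * k q y) x‖ ≤ _
  rw [e1]
  refine (norm_sum_le _ _).trans ?_
  have h3 : ∀ T ∈ S.powerset,
      ‖Dif w T (h q) (x - ∑ i ∈ S \ T, w i) * Dif w (S \ T) (k q) x‖ ≤
        (K * |C| * |C'|) * (β q x * β' q x) * ∏ i ∈ S, γ i x := by
    intro T hT
    rw [Finset.mem_powerset] at hT
    rw [norm_mul]
    have hy := (hs (S \ T) q x hx).1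
    apply hterm S T hT q x hx |C| |C'| _ _ _ (abs_nonneg _) (abs_nonneg _) (norm_nonneg _) hx0'.le
    · refine (hC q T _ hy).trans ?_
      apply mul_le_mul_of_nonneg_right _ (Finset.prod_nonneg fun i _ => (hγ.1 i _ hy).le)
      exact mul_le_mul_of_nonneg_right (le_abs_self _) (hβ.1 q _ hy).le
    · refine (hC' q (S \ T) x hx).trans ?_
      apply mul_le_mul_of_nonneg_right _ (Finset.prod_nonneg fun i _ => (hγ.1 i _ hx).le)
      exact mul_le_mul_of_nonneg_right (le_abs_self _) hx0'.le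
  refine (Finset.sum_le_sum h3).trans ?_
  rw [Finset.sum_const, nsmul_eq_mul]
  refine (mul_le_mul_of_nonneg_right (B6_card S S.powerset (Finset.Subset.refl _)) hB).trans ?_
  apply le_of_eq
  ring

end H55N
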