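import Mathlib
import Pool.Agent.Lib.H55N.B6

namespace H55N

variable {P M ι : Type} [AddCommGroup M] [Fintype ι] [DecidableEq ι] {X : Set M} {w : ι → M}
  {γ : ι → M → ℝ} {β : P → M → ℝ} {h : P → M → ℂ}

/-! Chunk B7 (M). Inverses of Good families.
Strong induction on S (on the cardinality n of S, constants C_n): there is C_n with |D_S (1/h) (x)| <= C_n β(x)^(-1) prod_{i in S} γ_i(x) for all
q, x in X, |S| <= n. n = 0: |1/h| <= (c β)^(-1). For S nonempty h * (1/h) = 1 on X (h <> 0 there by hlow; all the points x - w_T are in X, so use a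
version of dif_const for functions equal to 1 on X), so 0 = D_S((1/h) h)(x) = sum_{T in S} D_T(1/h)(x - w_{S-T}) D_{S-T}h(x) (dif_mul); the term
T = S is D_S(1/h)(x) h(x). Hence |D_S(1/h)(x)| |h(x)| <= sum_{T < S} C β(x-w_{S-T})^(-1) prod_T γ_i(x-w_{S-T}) C β(x) prod_{S-T} γ_i(x)
<= C' prod_{i in S} γ_i(x) by SV.shift; divide by |h(x)| >= c β(x). -/

/-- The inductive statement. -/
theorem B7_ind (hX : ∀ x ∈ X, ∀ i, x - w i ∈ X) (hγ : SV X w γ) (hβ : SV X w β)
    (h1 : Good X w γ β h) (c : ℝ) (hc : 0 < c) (hlow : ∀ q, ∀ x ∈ X, c * β q x ≤ ‖h q x‖) :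
    ∀ n : ℕ, ∃ C : ℝ, 0 < C ∧ ∀ q, ∀ S : Finset ι, S.card ≤ n → ∀ x ∈ X,
      ‖Dif w S (fun y => (h q y)⁻¹) x‖ ≤ C * (β q x)⁻¹ * ∏ i ∈ S, γ i x := by
  obtain ⟨K1, hK1, hs⟩ := SV.shift hX hβ
  obtain ⟨K2, hK2, hp⟩ := B6_prod hX hγ
  obtain ⟨C0, hC0⟩ := h1
  intro n
  induction n with
  | zero =>
    refine ⟨c⁻¹, by positivity, ?_⟩
    intro q S hS x hx
    have hS0 : S = ∅ := Finset.card_eq_zero.mp (by omega)
    subst hS0
    have hx0 := hβ.1 q x hx
    rw [dif_empty, Finset.prod_empty, mul_one, norm_inv, ← mul_inv]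
    exact inv_anti₀ (by positivity) (hlow q x hx)
  | succ n ih =>
    obtain ⟨C1, hC1, h2⟩ := ih
    refine ⟨C1 + 2 ^ Fintype.card ι * (C1 * K1 * K2 * |C0|) / c, by positivity, ?_⟩
    intro q S hS x hx
    have hx0 := hβ.1 q x hx
    have hP : 0 ≤ ∏ i ∈ S, γ i x := Finset.prod_nonneg fun i _ => (hγ.1 i x hx).le
    by_cases hSn : S.card ≤ n
    · refine (h2 q S hSn x hx).trans ?_
      have h3 : 0 ≤ 2 ^ Fintype.card ι * (C1 * K1 * K2 * |C0|) / c := by positivity
      have h4 : 0 ≤ (2 ^ Fintype.card ι * (C1 * K1 * K2 * |C0|) / c) * (β q x)⁻¹ *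
        ∏ i ∈ S, γ i x := by positivity
      nlinarith [h4]
    · have hSne : S.Nonempty := Finset.card_pos.mp (by omega)
      -- the product is one on X
      have e0 : Dif w S (fun y => (h q y)⁻¹ * h q y) x = 0 := by
        rw [← dif_const w S hSne 1 x]
        unfold Dif
        refine Finset.sum_congr rfl fun T _ => ?_
        have hy := (hs T q x hx).1
        have hy0 := hβ.1 q _ hy
        have h3 : h q (x - ∑ i ∈ T, w i) ≠ 0 := by
          intro h4
          have h5 := hlow q _ hy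
          rw [h4, norm_zero] at h5
          have : 0 < c * β q (x - ∑ i ∈ T, w i) := by positivity
          linarith
        simp only
        rw [inv_mul_cancel₀ h3]
      have e1 : Dif w S (fun y => (h q y)⁻¹ * h q y) x =
          ∑ T ∈ S.powerset, Dif w T (fun y => (h q y)⁻¹) (x - ∑ i ∈ S \ T, w i) *
            Dif w (S \ T) (h q) x := dif_mul w S (fun y => (h q y)⁻¹) (h q) x
      have e2 := Finset.add_sum_erase S.powerset (fun T =>
        Dif w T (fun y => (h q y)⁻¹) (x - ∑ i ∈ S \ T, w i) *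
            Dif w (S \ T) (h q) x) (Finset.mem_powerset_self S)
      rw [← e1, e0] at e2
      simp only [Finset.sdiff_self, Finset.sum_empty, sub_zero, dif_empty] at e2
      have e3 : ‖Dif w S (fun y => (h q y)⁻¹) x‖ * ‖h q x‖ =
          ‖∑ T ∈ S.powerset.erase S, Dif w T (fun y => (h q y)⁻¹) (x - ∑ i ∈ S \ T, w i) *
            Dif w (S \ T) (h q) x‖ := by
        rw [← norm_mul, eq_neg_of_add_eq_zero_left e2, norm_neg]
      have h3 : ∀ T ∈ S.powerset.erase S,
          ‖Dif w T (fun y => (h q y)⁻¹) (x - ∑ i ∈ S \ T, w i) * Dif w (S \ T) (h q) x‖ ≤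
            (C1 * K1 * K2 * |C0|) * ∏ i ∈ S, γ i x := by
        intro T hT
        rw [Finset.mem_erase, Finset.mem_powerset] at hT
        obtain ⟨hne, hTS⟩ := hT
        have hcard : T.card ≤ n := by
          have := Finset.card_lt_card (Finset.ssubset_iff_subset_ne.mpr ⟨hTS, hne⟩)
          omega
        obtain ⟨hy, _, hy2⟩ := hs (S \ T) q x hx
        have hy0 := hβ.1 q _ hy
        have hp1 : 0 ≤ ∏ i ∈ T, γ i x := Finset.prod_nonneg fun i _ => (hγ.1 i x hx).le
        have hp2 : 0 ≤ ∏ i ∈ S \ T, γ i x := Finset.prod_nonneg fun i _ => (hγ.1 i x hx).le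
        have hp3 : 0 ≤ ∏ i ∈ T, γ i (x - ∑ i ∈ S \ T, w i) :=
          Finset.prod_nonneg fun i _ => (hγ.1 i _ hy).le
        have hprod : (∏ i ∈ S \ T, γ i x) * ∏ i ∈ T, γ i x = ∏ i ∈ S, γ i x :=
          Finset.prod_sdiff hTS
        have hinv : (β q (x - ∑ i ∈ S \ T, w i))⁻¹ ≤ K1 * (β q x)⁻¹ := by
          rw [← div_eq_mul_inv, inv_le_comm₀ hy0 (by positivity), inv_div, div_le_iff₀ hK1]
          linarith
        have g1 : ‖Dif w T (fun y => (h q y)⁻¹) (x - ∑ i ∈ S \ T, w i)‖ ≤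
            C1 * (K1 * (β q x)⁻¹) * (K2 * ∏ i ∈ T, γ i x) := by
          refine (h2 q T hcard _ hy).trans ?_
          apply mul_le_mul _ (hp T (S \ T) x hx) hp3 (by positivity)
          exact mul_le_mul_of_nonneg_left hinv hC1.le
        have g2 : ‖Dif w (S \ T) (h q) x‖ ≤ |C0| * β q x * ∏ i ∈ S \ T, γ i x := by
          refine (hC0 q (S \ T) x hx).trans ?_
          apply mul_le_mul_of_nonneg_right _ hp2
          exact mul_le_mul_of_nonneg_right (le_abs_self _) hx0.le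
        rw [norm_mul]
        refine (mul_le_mul g1 g2 (norm_nonneg _) (by positivity)).trans ?_
        apply le_of_eq
        rw [← hprod]
        field_simp
      have h4 := (norm_sum_le (S.powerset.erase S) (fun T =>
        Dif w T (fun y => (h q y)⁻¹) (x - ∑ i ∈ S \ T, w i) *
            Dif w (S \ T) (h q) x)).trans (Finset.sum_le_sum h3)
      rw [← e3, Finset.sum_const, nsmul_eq_mul] at h4
      have hcardE := B6_card S (S.powerset.erase S) (Finset.erase_subset _ _)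
      have h5 : ‖Dif w S (fun y => (h q y)⁻¹) x‖ * ‖h q x‖ ≤
          2 ^ Fintype.card ι * ((C1 * K1 * K2 * |C0|) * ∏ i ∈ S, γ i x) :=
        h4.trans (mul_le_mul_of_nonneg_right hcardE (by positivity))
      have h6 : ‖Dif w S (fun y => (h q y)⁻¹) x‖ * (c * β q x) ≤
          2 ^ Fintype.card ι * ((C1 * K1 * K2 * |C0|) * ∏ i ∈ S, γ i x) :=
        (mul_le_mul_of_nonneg_left (hlow q x hx) (norm_nonneg _)).trans h5
      have h7 : ‖Dif w S (fun y => (h q y)⁻¹) x‖ ≤
          2 ^ Fintype.card ι * ((C1 * K1 * K2 * |C0|) * ∏ i ∈ S, γ i x) / (c * β q x) := by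
        rw [le_div_iff₀ (by positivity)]
        exact h6
      refine h7.trans ?_
      have h8 : 2 ^ Fintype.card ι * ((C1 * K1 * K2 * |C0|) * ∏ i ∈ S, γ i x) / (c * β q x) =
          (2 ^ Fintype.card ι * (C1 * K1 * K2 * |C0|) / c) * (β q x)⁻¹ * ∏ i ∈ S, γ i x := by
        field_simp
      rw [h8]
      have h9 : 0 ≤ C1 * (β q x)⁻¹ * ∏ i ∈ S, γ i x := by positivity
      nlinarith [h9]

theorem Good.inv (hX : ∀ x ∈ X, ∀ i, x - w i ∈ X) (hγ : SV X w γ) (hβ : SV X w β)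
    (h1 : Good X w γ β h) (c : ℝ) (hc : 0 < c) (hlow : ∀ q, ∀ x ∈ X, c * β q x ≤ ‖h q x‖) :
    Good X w γ (fun q x => (β q x)⁻¹) (fun q x => (h q x)⁻¹) := by
  obtain ⟨C, _, h⟩ := B7_ind hX hγ hβ h1 c hc hlow (Fintype.card ι)
  exact ⟨C, fun q S x hx => h q S (Finset.card_le_univ S) x hx⟩

end H55N
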