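import Mathlib
import Pool.Agent.Lib.H55N.B6

namespace H55N

variable {P M ι κ : Type} [AddCommGroup M] [Fintype ι] [DecidableEq ι] {X : Set M} {w : ι → M}
  {γ γ' : ι → M → ℝ} {β β' : P → M → ℝ} {h k : P → M → ℂ}

/-! Chunk B8 (M). Rules for slowly varying functions and Good families. All routine.
SV.mul, SV.inv, SV.pow: multiply the inequalities (the constant may be taken >= 1). Good.mono: multiply (c may be assumed >= 1, then
prod_S γ_i <= c^(card ι) prod_S γ'_i). Good.add, Good.sum: dif_add, dif_sum, triangle inequality. Good.pow, Good.prod: induction with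
Good.mul (start with the constant function 1: Dif of a constant is 0 for S nonempty, dif_const). Good.conj: dif_conj.
Good.const: dif_const. Good.additive: dif_additive; card S = 0, 1 or >= 2 (Finset.card_eq_one). -/

omit [Fintype ι] [DecidableEq ι] in
/-- Constants at least one. -/
theorem B8_one (hX : ∀ x ∈ X, ∀ i, x - w i ∈ X) (hβ : SV X w β) : ∃ C : ℝ, 1 ≤ C ∧
    ∀ q, ∀ x ∈ X, ∀ i, β q (x - w i) ≤ C * β q x ∧ β q x ≤ C * β q (x - w i) := by
  obtain ⟨h0, C, h⟩ := hβ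
  refine ⟨max 1 C, le_max_left _ _, ?_⟩
  intro q x hx i
  obtain ⟨h1, h2⟩ := h q x hx i
  have h3 := h0 q x hx
  have h4 := h0 q (x - w i) (hX x hx i)
  have h5 : C ≤ max 1 C := le_max_right _ _
  exact ⟨h1.trans (mul_le_mul_of_nonneg_right h5 h3.le),
    h2.trans (mul_le_mul_of_nonneg_right h5 h4.le)⟩

theorem SV.mul (hX : ∀ x ∈ X, ∀ i, x - w i ∈ X) (hβ : SV X w β) (hβ' : SV X w β') :
    SV X w fun q x => β q x * β' q x := by
  obtain ⟨C, hC, h⟩ := B8_one hX hβ
  obtain ⟨C', hC', h'⟩ := B8_one hX hβ'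
  refine ⟨fun q x hx => mul_pos (hβ.1 q x hx) (hβ'.1 q x hx), C * C', ?_⟩
  intro q x hx i
  obtain ⟨h1, h2⟩ := h q x hx i
  obtain ⟨h3, h4⟩ := h' q x hx i
  have p1 := hβ.1 q x hx
  have p2 := hβ'.1 q x hx
  have p3 := hβ.1 q _ (hX x hx i)
  have p4 := hβ'.1 q _ (hX x hx i)
  constructor
  · calc β q (x - w i) * β' q (x - w i) ≤ (C * β q x) * (C' * β' q x) :=
          mul_le_mul h1 h3 p4.le (by positivity)
      _ = C * C' * (β q x * β' q x) := by ring
  · calc β q x * β' q x ≤ (C * β q (x - w i)) * (C' * β' q (x - w i)) :=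
          mul_le_mul h2 h4 p2.le (by positivity)
      _ = C * C' * (β q (x - w i) * β' q (x - w i)) := by ring

theorem SV.inv (hX : ∀ x ∈ X, ∀ i, x - w i ∈ X) (hβ : SV X w β) : SV X w fun q x => (β q x)⁻¹ := by
  obtain ⟨C, hC, h⟩ := B8_one hX hβ
  refine ⟨fun q x hx => inv_pos.mpr (hβ.1 q x hx), C, ?_⟩
  intro q x hx i
  obtain ⟨h1, h2⟩ := h q x hx i
  have p1 := hβ.1 q x hx
  have p3 := hβ.1 q _ (hX x hx i)
  constructor
  · rw [← div_eq_mul_inv, le_div_iff₀ p1, inv_mul_le_iff₀ p3]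
    linarith
  · rw [← div_eq_mul_inv, le_div_iff₀ p3, inv_mul_le_iff₀ p1]
    linarith

theorem SV.pow (hX : ∀ x ∈ X, ∀ i, x - w i ∈ X) (hβ : SV X w β) (n : ℕ) :
    SV X w fun q x => β q x ^ n := by
  obtain ⟨C, hC, h⟩ := B8_one hX hβ
  refine ⟨fun q x hx => pow_pos (hβ.1 q x hx) n, C ^ n, ?_⟩
  intro q x hx i
  obtain ⟨h1, h2⟩ := h q x hx i
  have p1 := hβ.1 q x hx
  have p3 := hβ.1 q _ (hX x hx i)
  constructor
  · rw [← mul_pow]
    exact pow_le_pow_left₀ p3.le h1 n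
  · rw [← mul_pow]
    exact pow_le_pow_left₀ p1.le h2 n

theorem B8_rpow {a b C : ℝ} (r : ℝ) (ha : 0 < a) (hb : 0 < b) (hC : 1 ≤ C) (h1 : a ≤ C * b)
    (h2 : b ≤ C * a) : a ^ r ≤ C ^ |r| * b ^ r := by
  have hC0 : 0 < C := by linarith
  rcases le_total 0 r with hr | hr
  · rw [abs_of_nonneg hr, ← Real.mul_rpow hC0.le hb.le]
    exact Real.rpow_le_rpow ha.le h1 hr
  · rw [abs_of_nonpos hr]
    have h3 : b / C ≤ a := by
      rw [div_le_iff₀ hC0]
      linarith
    have h4 := Real.rpow_le_rpow_of_nonpos (by positivity : 0 < b / C) h3 hr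
    refine h4.trans ?_
    rw [Real.div_rpow hb.le hC0.le, Real.rpow_neg hC0.le, div_eq_mul_inv, mul_comm]

theorem SV.rpow (hβ : SV X w β) (hX : ∀ x ∈ X, ∀ i, x - w i ∈ X) (r : ℝ) :
    SV X w fun q x => β q x ^ r := by
  obtain ⟨C, hC, h⟩ := B8_one hX hβ
  refine ⟨fun q x hx => Real.rpow_pos_of_pos (hβ.1 q x hx) r, C ^ |r|, ?_⟩
  intro q x hx i
  obtain ⟨h1, h2⟩ := h q x hx i
  have p1 := hβ.1 q x hx
  have p3 := hβ.1 q _ (hX x hx i)
  exact ⟨B8_rpow r p3 p1 hC h1 h2, B8_rpow r p1 p3 hC h2 h1⟩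

theorem SV.one : SV X w fun (_ : P) (_ : M) => (1 : ℝ) := by
  refine ⟨fun _ _ _ => one_pos, 1, ?_⟩
  intro q x hx i
  norm_num

theorem SV.prod (hX : ∀ x ∈ X, ∀ i, x - w i ∈ X) (s : Finset κ) (b : κ → P → M → ℝ)
    (hb : ∀ i ∈ s, SV X w (b i)) : SV X w fun q x => ∏ i ∈ s, b i q x := by
  classical
  induction s using Finset.induction_on with
  | empty =>
    simp only [Finset.prod_empty]
    exact SV.one
  | insert a s ha ih =>
    have h1 := ih fun i hi => hb i (Finset.mem_insert_of_mem hi)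
    have h2 := SV.mul hX (hb a (Finset.mem_insert_self a s)) h1
    have h3 : (fun (q : P) (x : M) => ∏ i ∈ insert a s, b i q x) =
        fun q x => b a q x * ∏ i ∈ s, b i q x := by
      funext q x
      rw [Finset.prod_insert ha]
    rw [h3]
    exact h2

theorem Good.mono (h1 : Good X w γ β h) (hγ : ∀ i, ∀ x ∈ X, 0 ≤ γ i x) (c : ℝ) (hc : 0 ≤ c)
    (hβ : ∀ q, ∀ x ∈ X, 0 ≤ β q x ∧ β q x ≤ c * β' q x) (hγ' : ∀ i, ∀ x ∈ X, γ i x ≤ c * γ' i x) :
    Good X w γ' β' h := by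
  obtain ⟨C, hC⟩ := h1
  refine ⟨|C| * c * (max 1 c) ^ Fintype.card ι, ?_⟩
  intro q S x hx
  obtain ⟨b1, b2⟩ := hβ q x hx
  have hcb : 0 ≤ c * β' q x := b1.trans b2
  have hcg : ∀ i, 0 ≤ c * γ' i x := fun i => (hγ i x hx).trans (hγ' i x hx)
  have hp : ∏ i ∈ S, γ i x ≤ ∏ i ∈ S, (c * γ' i x) :=
    Finset.prod_le_prod (fun i _ => hγ i x hx) fun i _ => hγ' i x hx
  have hp0 : 0 ≤ ∏ i ∈ S, γ i x := Finset.prod_nonneg fun i _ => hγ i x hx
  have h2 : ‖Dif w S (h q) x‖ ≤ |C| * (c * β' q x) * ∏ i ∈ S, (c * γ' i x) := by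
    refine (hC q S x hx).trans ?_
    apply mul_le_mul _ hp hp0 (by positivity)
    calc C * β q x ≤ |C| * β q x := mul_le_mul_of_nonneg_right (le_abs_self _) b1
      _ ≤ |C| * (c * β' q x) := mul_le_mul_of_nonneg_left b2 (abs_nonneg _)
  refine h2.trans ?_
  rcases hc.eq_or_lt with hc0 | hc0
  · rw [← hc0]
    simp
  · have hb' : 0 ≤ β' q x := by
      by_contra hneg
      push Not at hneg
      have := mul_neg_of_pos_of_neg hc0 hneg
      linarith
    have hg' : ∀ i, 0 ≤ γ' i x := by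
      intro i
      by_contra hneg
      push Not at hneg
      have := mul_neg_of_pos_of_neg hc0 hneg
      have := hcg i
      linarith
    have hpg : 0 ≤ ∏ i ∈ S, γ' i x := Finset.prod_nonneg fun i _ => hg' i
    rw [Finset.prod_mul_distrib, Finset.prod_const]
    have h3 : c ^ S.card ≤ (max 1 c) ^ Fintype.card ι :=
      (pow_le_pow_left₀ hc (le_max_right _ _) _).trans
        (pow_le_pow_right₀ (le_max_left _ _) (Finset.card_le_univ S))
    calc |C| * (c * β' q x) * (c ^ S.card * ∏ i ∈ S, γ' i x) ≤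
          |C| * (c * β' q x) * ((max 1 c) ^ Fintype.card ι * ∏ i ∈ S, γ' i x) := by
          apply mul_le_mul_of_nonneg_left _ (by positivity)
          exact mul_le_mul_of_nonneg_right h3 hpg
      _ = _ := by ring

theorem Good.add (h1 : Good X w γ β h) (h2 : Good X w γ β k) :
    Good X w γ β fun q x => h q x + k q x := by
  obtain ⟨C, hC⟩ := h1
  obtain ⟨C', hC'⟩ := h2
  refine ⟨C + C', ?_⟩
  intro q S x hx
  have e : Dif w S ((fun q x => h q x + k q x) q) x = Dif w S (h q) x + Dif w S (k q) x :=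
    dif_add w S (h q) (k q) x
  rw [e]
  refine (norm_add_le _ _).trans ((add_le_add (hC q S x hx) (hC' q S x hx)).trans ?_)
  apply le_of_eq
  ring

/-- Multiplication by bounded constants. -/
theorem Good.smul (h1 : Good X w γ β h) (hγ : ∀ i, ∀ x ∈ X, 0 ≤ γ i x)
    (hβ : ∀ q, ∀ x ∈ X, 0 ≤ β q x) (c : P → ℂ) (b : ℝ) (hc : ∀ q, ‖c q‖ ≤ b) :
    Good X w γ β fun q x => c q * h q x := by
  obtain ⟨C, hC⟩ := h1
  refine ⟨|b| * |C|, ?_⟩
  intro q S x hx
  have e : Dif w S ((fun q x => c q * h q x) q) x = c q * Dif w S (h q) x :=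
    dif_const_mul w S (c q) (h q) x
  rw [e, norm_mul]
  have hb := hβ q x hx
  have hp0 : 0 ≤ ∏ i ∈ S, γ i x := Finset.prod_nonneg fun i _ => hγ i x hx
  have h2 : ‖Dif w S (h q) x‖ ≤ |C| * β q x * ∏ i ∈ S, γ i x := by
    refine (hC q S x hx).trans ?_
    apply mul_le_mul_of_nonneg_right _ hp0
    exact mul_le_mul_of_nonneg_right (le_abs_self _) hb
  calc ‖c q‖ * ‖Dif w S (h q) x‖ ≤ |b| * (|C| * β q x * ∏ i ∈ S, γ i x) :=
        mul_le_mul ((hc q).trans (le_abs_self _)) h2 (norm_nonneg _) (abs_nonneg _)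
    _ = _ := by ring

theorem B8_zero : Good X w γ β fun _ _ => (0 : ℂ) := by
  refine ⟨0, ?_⟩
  intro q S x hx
  have e : Dif w S ((fun (_ : P) (_ : M) => (0 : ℂ)) q) x = 0 := by
    simp [Dif]
  rw [e, norm_zero, zero_mul, zero_mul]

theorem Good.sum (s : Finset κ) (f : κ → P → M → ℂ) (h1 : ∀ i ∈ s, Good X w γ β (f i))
    (hγ : ∀ i, ∀ x ∈ X, 0 ≤ γ i x) (hβ : ∀ q, ∀ x ∈ X, 0 ≤ β q x) :
    Good X w γ β fun q x => ∑ i ∈ s, f i q x := by
  classical
  induction s using Finset.induction_on with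
  | empty =>
    simp only [Finset.sum_empty]
    exact B8_zero
  | insert a s ha ih =>
    have h2 := ih fun i hi => h1 i (Finset.mem_insert_of_mem hi)
    have h3 := Good.add (h1 a (Finset.mem_insert_self a s)) h2
    have h4 : (fun (q : P) (x : M) => ∑ i ∈ insert a s, f i q x) =
        fun q x => f a q x + ∑ i ∈ s, f i q x := by
      funext q x
      rw [Finset.sum_insert ha]
    rw [h4]
    exact h3

theorem Good.const (hβ : ∀ q, ∀ x ∈ X, 0 ≤ β q x) (hγ : ∀ i, ∀ x ∈ X, 0 ≤ γ i x) (c : P → ℂ)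
    (b : ℝ) (hc : ∀ q, ∀ x ∈ X, ‖c q‖ ≤ b * β q x) : Good X w γ β fun q _ => c q := by
  refine ⟨|b|, ?_⟩
  intro q S x hx
  have hb := hβ q x hx
  have hp0 : 0 ≤ ∏ i ∈ S, γ i x := Finset.prod_nonneg fun i _ => hγ i x hx
  rcases S.eq_empty_or_nonempty with rfl | hS
  · rw [dif_empty, Finset.prod_empty, mul_one]
    exact (hc q x hx).trans (mul_le_mul_of_nonneg_right (le_abs_self _) hb)
  · have e : Dif w S ((fun (q : P) (_ : M) => c q) q) x = 0 := dif_const w S hS (c q) x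
    rw [e, norm_zero]
    positivity

theorem Good.prod (hX : ∀ x ∈ X, ∀ i, x - w i ∈ X) (hγ : SV X w γ) (s : Finset κ)
    (b : κ → P → M → ℝ) (f : κ → P → M → ℂ) (hb : ∀ i ∈ s, SV X w (b i))
    (h1 : ∀ i ∈ s, Good X w γ (b i) (f i)) :
    Good X w γ (fun q x => ∏ i ∈ s, b i q x) (fun q x => ∏ i ∈ s, f i q x) := by
  classical
  induction s using Finset.induction_on with
  | empty =>
    simp only [Finset.prod_empty]
    apply Good.const (β := fun (_ : P) (_ : M) => (1 : ℝ)) (fun _ _ _ => zero_le_one)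
      (fun i x hx => (hγ.1 i x hx).le) (fun _ => 1) 1
    intro q x hx
    rw [norm_one, one_mul]
  | insert a s ha ih =>
    have h2 := ih (fun i hi => hb i (Finset.mem_insert_of_mem hi))
      fun i hi => h1 i (Finset.mem_insert_of_mem hi)
    have h3 := Good.mul hX hγ (hb a (Finset.mem_insert_self a s))
      (SV.prod hX s b fun i hi => hb i (Finset.mem_insert_of_mem hi))
      (h1 a (Finset.mem_insert_self a s)) h2
    have h4 : (fun (q : P) (x : M) => ∏ i ∈ insert a s, f i q x) =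
        fun q x => f a q x * ∏ i ∈ s, f i q x := by
      funext q x
      rw [Finset.prod_insert ha]
    have h5 : (fun (q : P) (x : M) => ∏ i ∈ insert a s, b i q x) =
        fun q x => b a q x * ∏ i ∈ s, b i q x := by
      funext q x
      rw [Finset.prod_insert ha]
    rw [h4, h5]
    exact h3

theorem Good.pow (hX : ∀ x ∈ X, ∀ i, x - w i ∈ X) (hγ : SV X w γ) (hβ : SV X w β)
    (h1 : Good X w γ β h) (n : ℕ) : Good X w γ (fun q x => β q x ^ n) (fun q x => h q x ^ n) := by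
  have h2 := Good.prod hX hγ (Finset.range n) (fun _ => β) (fun _ => h) (fun _ _ => hβ)
    (fun _ _ => h1)
  have h4 : (fun (q : P) (x : M) => h q x ^ n) =
      fun q x => ∏ _i ∈ Finset.range n, h q x := by
    funext q x
    rw [Finset.prod_const, Finset.card_range]
  have h5 : (fun (q : P) (x : M) => β q x ^ n) =
      fun q x => ∏ _i ∈ Finset.range n, β q x := by
    funext q x
    rw [Finset.prod_const, Finset.card_range]
  rw [h4, h5]
  exact h2

theorem Good.conj (h1 : Good X w γ β h) :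
    Good X w γ β fun q x => (starRingEnd ℂ) (h q x) := by
  obtain ⟨C, hC⟩ := h1
  refine ⟨C, ?_⟩
  intro q S x hx
  have e : Dif w S ((fun q x => (starRingEnd ℂ) (h q x)) q) x =
      (starRingEnd ℂ) (Dif w S (h q) x) := dif_conj w S (h q) x
  rw [e, Complex.norm_conj]
  exact hC q S x hx

theorem Good.additive (hβ : ∀ q, ∀ x ∈ X, 0 ≤ β q x) (hγ : ∀ i, ∀ x ∈ X, 0 ≤ γ i x)
    (hadd : ∀ q x y, h q (x - y) = h q x - h q y) (c : ℝ) (h1 : ∀ q, ∀ x ∈ X, ‖h q x‖ ≤ c * β q x)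
    (h2 : ∀ q, ∀ x ∈ X, ∀ i, ‖h q (w i)‖ ≤ c * β q x * γ i x) : Good X w γ β h := by
  refine ⟨|c|, ?_⟩
  intro q S x hx
  have hb := hβ q x hx
  have hp0 : 0 ≤ ∏ i ∈ S, γ i x := Finset.prod_nonneg fun i _ => hγ i x hx
  obtain ⟨h3, h4⟩ := dif_additive w S (h q) (hadd q) x
  rcases Nat.lt_or_ge S.card 2 with hS | hS
  · rcases Nat.lt_or_ge S.card 1 with hS1 | hS1
    · have : S = ∅ := Finset.card_eq_zero.mp (by omega)
      subst this
      rw [dif_empty, Finset.prod_empty, mul_one]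
      exact (h1 q x hx).trans (mul_le_mul_of_nonneg_right (le_abs_self _) hb)
    · obtain ⟨i, hi⟩ := Finset.card_eq_one.mp (by omega : S.card = 1)
      subst hi
      rw [h4 i, Finset.prod_singleton]
      refine (h2 q x hx i).trans ?_
      apply mul_le_mul_of_nonneg_right _ (hγ i x hx)
      exact mul_le_mul_of_nonneg_right (le_abs_self _) hb
  · rw [h3 hS, norm_zero]
    positivity

end H55N
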