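import Mathlib

namespace H55N

/-! Chunk B1 (S). Products of summable families. -/

theorem B1_mul {α γ : Type} (f : α → ℂ) (g : γ → ℂ) (hf : Summable fun a => ‖f a‖)
    (hg : Summable fun a => ‖g a‖) (s t : ℂ) (hs : HasSum f s) (ht : HasSum g t) :
    HasSum (fun p : α × γ => f p.1 * g p.2) (s * t) := by
  have hm : Summable (fun p : α × γ => f p.1 * g p.2) := summable_mul_of_summable_norm hf hg
  exact hs.mul ht hm

theorem B1_nmul {α γ : Type} (f : α → ℂ) (g : γ → ℂ) (hf : Summable fun a => ‖f a‖)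
    (hg : Summable fun a => ‖g a‖) : Summable (fun p : α × γ => ‖f p.1 * g p.2‖) :=
  hf.mul_norm hg

theorem B1_aux {β : Type} (n : ℕ) : ∀ (φ : Fin n → β → ℂ) (_ : ∀ j, Summable fun y => ‖φ j y‖),
    Summable (fun f : Fin n → β => ‖∏ j, φ j (f j)‖) ∧
    HasSum (fun f : Fin n → β => ∏ j, φ j (f j)) (∏ j, ∑' y, φ j y) := by
  induction n with
  | zero =>
    intro φ hs
    constructor
    · exact (hasSum_fintype _).summable
    · have h1 := hasSum_unique (fun f : Fin 0 → β => ∏ j, φ j (f j))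
      have h2 : (∏ j : Fin 0, ∑' y, φ j y) = ∏ j, φ j ((default : Fin 0 → β) j) := by
        rw [Fin.prod_univ_zero, Fin.prod_univ_zero]
      rw [h2]
      exact h1
  | succ n ih =>
    intro φ hs
    obtain ⟨ih1, ih2⟩ := ih (fun j => φ j.succ) (fun j => hs j.succ)
    let G : (Fin n → β) → ℂ := fun f => ∏ j, φ (Fin.succ j) (f j)
    have h0 : HasSum (φ 0) (∑' y, φ 0 y) := (hs 0).of_norm.hasSum
    have hsum := B1_mul (φ 0) G (hs 0) ih1 _ _ h0 ih2
    have hp := B1_nmul (φ 0) G (hs 0) ih1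
    let e : β × (Fin n → β) ≃ (Fin (n + 1) → β) := Fin.consEquiv (fun _ => β)
    have he : ∀ p : β × (Fin n → β), ∏ j, φ j (e p j) = φ 0 p.1 * G p.2 := by
      intro p
      rw [Fin.prod_univ_succ]
      rfl
    have he2 : ((fun f : Fin (n + 1) → β => ∏ j, φ j (f j)) ∘ e) = fun p => φ 0 p.1 * G p.2 :=
      funext he
    have he3 : ((fun f : Fin (n + 1) → β => ‖∏ j, φ j (f j)‖) ∘ e) =
        fun p => ‖φ 0 p.1 * G p.2‖ :=
      funext fun p => congrArg norm (he p)
    constructor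
    · rw [← e.summable_iff, he3]
      exact hp
    · rw [← e.hasSum_iff, he2, Fin.prod_univ_succ]
      exact hsum

theorem pi_summable {β : Type} (n : ℕ) (φ : Fin n → β → ℝ) (h0 : ∀ j y, 0 ≤ φ j y)
    (hs : ∀ j, Summable (φ j)) : Summable fun f : Fin n → β => ∏ j, φ j (f j) := by
  have h1 := (B1_aux n (fun j y => ((φ j y : ℝ) : ℂ)) (fun j => by
    refine (hs j).congr fun y => ?_
    rw [Complex.norm_real, Real.norm_of_nonneg (h0 j y)])).1
  refine h1.congr fun f => ?_
  rw [← Complex.ofReal_prod, Complex.norm_real, Real.norm_of_nonneg]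
  exact Finset.prod_nonneg fun j _ => h0 j _

/-- The value of such a sum. -/
theorem pi_hasSum {β : Type} (n : ℕ) (φ : Fin n → β → ℂ) (hs : ∀ j, Summable fun y => ‖φ j y‖) :
    HasSum (fun f : Fin n → β => ∏ j, φ j (f j)) (∏ j, ∑' y, φ j y) :=
  (B1_aux n φ hs).2

end H55N
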