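import Mathlib
import Pool.Agent.Lib.H55N.B2
import Pool.Agent.Lib.H55N.B11

open NumberField IsDedekindDomain

namespace H55N

open H55B H55C

variable {K : Type} [Field K] [NumberField K] [Algebra F K] {m : ℕ}

/-! Chunk R1 (M). Rules for HasReg. g is bounded (gw is a finite product of 1 or 1 - p_i). summable_cut: for h bounded on X and R >= 1 the
function g h cut is absolutely summable over X: |cut| <= C sz^(-2(m+2)) (cut_le; 0 is not in X), 2(m+2) > 2(m+1), sum_sz (restricted to the subtype X: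
Summable.subtype / comp_injective). Then add, smul, sum: tsum_add etc. for R >= 1 (Filter.Tendsto.congr'). unique: B = 1, tendsto_nhds_unique. congr: only
values on X matter. Jv_eq: definition and unique; Jv_congr. -/

theorem g_bdd (D : Ctx K m) : ∃ C : ℝ, ∀ x, ‖D.g x‖ ≤ C := by
  refine ⟨∏ i, (1 + (D.p i : ℝ)), fun x => ?_⟩
  unfold Ctx.g gw
  rw [norm_prod]
  refine Finset.prod_le_prod (fun i _ => norm_nonneg _) fun i _ => ?_
  split_ifs
  · refine (norm_sub_le _ _).trans ?_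
    simp
  · simp

theorem summable_cut (D : Ctx K m) (hD : D.Ok) (h : 𝓞 K → ℂ) (hb : ∃ C : ℝ, ∀ x ∈ D.X, ‖h x‖ ≤ C)
    (B : Matrix (Fin (m + 1)) (Fin (m + 1)) ℂ) (hB : B.det ≠ 0) (R : ℝ) (hR : 1 ≤ R) :
    Summable fun x : D.X => ‖h x * (D.cut B R x : ℂ)‖ := by
  obtain ⟨C, hC⟩ := hb
  obtain ⟨C', hC'⟩ := cut_le D hD.emb B hB R hR
  have h1 : Summable fun x : 𝓞 K => D.sz x ^ (-(2 * (m + 2) : ℝ)) :=
    sum_sz D hD.emb _ (by linarith)
  have h2 : Summable fun x : D.X => D.sz (x : 𝓞 K) ^ (-(2 * (m + 2) : ℝ)) :=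
    h1.comp_injective Subtype.val_injective
  refine (h2.mul_left (|C| * C')).of_nonneg_of_le (fun x => norm_nonneg _) fun x => ?_
  rw [norm_mul, Complex.norm_real, Real.norm_eq_abs, mul_assoc]
  have h3 := hC' x (D.X_ne hD.ne x.2)
  exact mul_le_mul ((hC x x.2).trans (le_abs_self C)) h3 (abs_nonneg _) (abs_nonneg _)

theorem r1_summable (D : Ctx K m) (hD : D.Ok) (h : 𝓞 K → ℂ) (hb : ∃ C : ℝ, ∀ x ∈ D.X, ‖h x‖ ≤ C)
    (B : Matrix (Fin (m + 1)) (Fin (m + 1)) ℂ) (hB : B.det ≠ 0) (R : ℝ) (hR : 1 ≤ R) :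
    Summable fun x : D.X => D.g x * h x * (D.cut B R x : ℂ) := by
  apply Summable.of_norm
  apply summable_cut D hD (fun x => D.g x * h x) _ B hB R hR
  obtain ⟨C, hC⟩ := hb
  obtain ⟨C', hC'⟩ := g_bdd D
  refine ⟨C' * C, fun x hx => ?_⟩
  rw [norm_mul]
  exact mul_le_mul (hC' x) (hC x hx) (norm_nonneg _) ((norm_nonneg _).trans (hC' x))

theorem HasReg.unique (D : Ctx K m) {h : 𝓞 K → ℂ} {S S' : ℂ} (h1 : D.HasReg h S)
    (h2 : D.HasReg h S') : S = S' := by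
  have hB : (1 : Matrix (Fin (m + 1)) (Fin (m + 1)) ℂ).det ≠ 0 := by
    rw [Matrix.det_one]
    exact one_ne_zero
  exact tendsto_nhds_unique (h1.2 1 hB) (h2.2 1 hB)

theorem HasReg.congr (D : Ctx K m) {h k : 𝓞 K → ℂ} {S : ℂ} (h1 : D.HasReg h S)
    (hk : ∀ x ∈ D.X, h x = k x) : D.HasReg k S := by
  obtain ⟨⟨C, hC⟩, h2⟩ := h1
  refine ⟨⟨C, fun x hx => by rw [← hk x hx]; exact hC x hx⟩, fun B hB => ?_⟩
  refine (h2 B hB).congr fun R => ?_
  exact tsum_congr fun x => by rw [hk x x.2]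

theorem HasReg.smul (D : Ctx K m) {h : 𝓞 K → ℂ} {S : ℂ} (h1 : D.HasReg h S) (c : ℂ) :
    D.HasReg (fun x => c * h x) (c * S) := by
  obtain ⟨⟨C, hC⟩, h2⟩ := h1
  refine ⟨⟨‖c‖ * C, fun x hx => ?_⟩, fun B hB => ?_⟩
  · rw [norm_mul]
    exact mul_le_mul_of_nonneg_left (hC x hx) (norm_nonneg _)
  · refine ((h2 B hB).const_mul c).congr fun R => ?_
    rw [← tsum_mul_left]
    exact tsum_congr fun x => by ring

theorem HasReg.add (D : Ctx K m) (hD : D.Ok) {h k : 𝓞 K → ℂ} {S S' : ℂ} (h1 : D.HasReg h S)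
    (h2 : D.HasReg k S') : D.HasReg (fun x => h x + k x) (S + S') := by
  obtain ⟨⟨C, hC⟩, h3⟩ := h1
  obtain ⟨⟨C', hC'⟩, h4⟩ := h2
  refine ⟨⟨C + C', fun x hx => (norm_add_le _ _).trans (add_le_add (hC x hx) (hC' x hx))⟩,
    fun B hB => ?_⟩
  refine ((h3 B hB).add (h4 B hB)).congr' ?_
  filter_upwards [Filter.eventually_ge_atTop 1] with R hR
  rw [← (r1_summable D hD h ⟨C, hC⟩ B hB R hR).tsum_add (r1_summable D hD k ⟨C', hC'⟩ B hB R hR)]
  exact tsum_congr fun x => by ring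

theorem HasReg.zero (D : Ctx K m) : D.HasReg (fun _ => 0) 0 := by
  refine ⟨⟨0, fun x _ => by simp⟩, fun B _ => ?_⟩
  simp

theorem HasReg.sum (D : Ctx K m) (hD : D.Ok) {κ : Type} (s : Finset κ) (h : κ → 𝓞 K → ℂ)
    (S : κ → ℂ) (h1 : ∀ i ∈ s, D.HasReg (h i) (S i)) :
    D.HasReg (fun x => ∑ i ∈ s, h i x) (∑ i ∈ s, S i) := by
  classical
  induction s using Finset.induction_on with
  | empty =>
    simp only [Finset.sum_empty]
    exact HasReg.zero D
  | insert a s ha ih =>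
    simp only [Finset.sum_insert ha]
    exact HasReg.add D hD (h1 a (Finset.mem_insert_self a s))
      (ih fun i hi => h1 i (Finset.mem_insert_of_mem hi))

theorem Jv_eq (D : Ctx K m) {L : Fin (m + 1) → Lab K m} {S : ℂ} (h : D.HasReg (D.Idet L) S) :
    D.Jv L = S := by
  have h1 : ∃ S, D.HasReg (D.Idet L) S := ⟨S, h⟩
  unfold Ctx.Jv
  rw [dif_pos h1]
  exact HasReg.unique D h1.choose_spec h

/-- Degenerate simplices: two equal rows. -/
theorem Jv_degenerate (D : Ctx K m) (L : Fin (m + 1) → Lab K m)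
    (h : ∃ j : Fin m, L j.castSucc = L j.succ) : D.Jv L = 0 := by
  obtain ⟨j, hj⟩ := h
  apply Jv_eq
  refine HasReg.congr D (HasReg.zero D) fun x _ => ?_
  symm
  unfold Ctx.Idet
  have hne : j.castSucc ≠ j.succ := (Fin.castSucc_lt_succ).ne
  refine Matrix.det_zero_of_row_eq hne ?_
  funext i
  simp only [Matrix.of_apply]
  rw [hj]

end H55N
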