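import Mathlib

namespace H55N

open MeasureTheory

/-! Chunk U0 (M). The translates of the unit cube by integral vectors tile R^m. Icc may be replaced by the half open cube (Ico), a fundamental domain
for the translations by Z^m (ZSpan.isAddFundamentalDomain for Pi.basisFun, or disjoint union of the sets a + Ico 0 1 directly: floor), the boundary has
measure zero (Real.volume_pi... / Measure.univ_pi_Ico_ae_eq_Icc: MeasureTheory.Ico_ae_eq_Icc for pi). Then integral_eq_tsum'' / lintegral_eq_tsum, or
hasSum_integral_iUnion. Translation invariance of the Lebesgue measure. -/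

/-- The unit cube at the integral point a. -/
private def U0c {m : ℕ} (a : Fin m → ℤ) : Set (Fin m → ℝ) := {z | ∀ k, ⌊z k⌋ = a k}

private lemma U0_meas {m : ℕ} (a : Fin m → ℤ) : MeasurableSet (U0c a) := by
  have h : U0c a = ⋂ k, (fun z : Fin m → ℝ => ⌊z k⌋) ⁻¹' {a k} := by
    ext z
    simp [U0c]
  rw [h]
  refine MeasurableSet.iInter fun k => ?_
  exact (Int.measurable_floor.comp (measurable_pi_apply k)) (measurableSet_singleton _)

private lemma U0_disj {m : ℕ} : Pairwise (Function.onFun Disjoint (U0c : (Fin m → ℤ) → _)) := by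
  intro a b hab
  rw [Function.onFun, Set.disjoint_left]
  intro z hz hz'
  exact hab (funext fun k => (hz k).symm.trans (hz' k))

private lemma U0_union {m : ℕ} : ⋃ a : Fin m → ℤ, U0c a = Set.univ := by
  rw [Set.eq_univ_iff_forall]
  intro z
  rw [Set.mem_iUnion]
  exact ⟨fun k => ⌊z k⌋, fun k => rfl⟩

private lemma U0_pre {m : ℕ} (a : Fin m → ℤ) :
    (fun z : Fin m → ℝ => z + fun k => (a k : ℝ)) ⁻¹' (U0c a) =
      Set.univ.pi fun k => Set.Ico ((0 : Fin m → ℝ) k) ((1 : Fin m → ℝ) k) := by
  ext z
  simp only [U0c, Set.mem_preimage, Set.mem_setOf_eq, Pi.add_apply, Set.mem_pi, Set.mem_univ,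
    true_implies, Set.mem_Ico, Pi.zero_apply, Pi.one_apply, Int.floor_add_intCast]
  refine forall_congr' fun k => ?_
  constructor
  · intro h
    have h1 : ⌊z k⌋ = 0 := by omega
    rw [Int.floor_eq_zero_iff] at h1
    exact h1
  · intro h
    have h1 : ⌊z k⌋ = 0 := by
      rw [Int.floor_eq_zero_iff]
      exact h
    omega

private lemma U0_ae {m : ℕ} : (Set.univ.pi fun k => Set.Ico ((0 : Fin m → ℝ) k)
    ((1 : Fin m → ℝ) k)) =ᵐ[volume] Set.Icc (0 : Fin m → ℝ) 1 :=
  Measure.univ_pi_Ico_ae_eq_Icc (μ := fun _ : Fin m => (volume : Measure ℝ))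

theorem tiling {m : ℕ} (F : (Fin m → ℝ) → ℂ) (hF : Integrable F) :
    HasSum (fun a : Fin m → ℤ => ∫ z in Set.Icc (0 : Fin m → ℝ) 1, F (fun k => z k + a k))
      (∫ z, F z) := by
  have h1 := hasSum_integral_iUnion (f := F) (μ := volume) (fun a => U0_meas a)
    (U0_disj (m := m)) (by rw [U0_union]; exact hF.integrableOn)
  rw [U0_union, setIntegral_univ] at h1
  refine h1.congr_fun ?_
  intro a
  have h2 := (measurePreserving_add_right (volume : Measure (Fin m → ℝ))
    (fun k => (a k : ℝ))).setIntegral_preimage_emb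
    (measurableEmbedding_addRight (fun k => (a k : ℝ))) F (U0c a)
  rw [U0_pre, setIntegral_congr_set U0_ae] at h2
  exact h2

theorem tiling_lintegral {m : ℕ} (F : (Fin m → ℝ) → ENNReal) (hF : Measurable F) :
    ∑' a : Fin m → ℤ, ∫⁻ z in Set.Icc (0 : Fin m → ℝ) 1, F (fun k => z k + a k) = ∫⁻ z, F z := by
  have h1 := lintegral_iUnion (μ := volume) (fun a => U0_meas a) (U0_disj (m := m)) F
  rw [U0_union, setLIntegral_univ] at h1
  rw [h1]
  refine tsum_congr fun a => ?_
  have h2 := (measurePreserving_add_right (volume : Measure (Fin m → ℝ))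
    (fun k => (a k : ℝ))).setLIntegral_comp_preimage_emb
    (measurableEmbedding_addRight (fun k => (a k : ℝ))) F (U0c a)
  rw [U0_pre, setLIntegral_congr U0_ae] at h2
  exact h2

end H55N
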