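import Mathlib
import Pool.Agent.Lib.H55N.Defs

namespace H55N

open MeasureTheory

/-! Chunk U1 (L, pure analysis). The Gamma integral, n = m+1. For Re s > 0 the function prod_i exp(s y_i - e^{y_i}) on R^n is integrable with integral
Gamma(s)^n (one variable: Complex.Gamma_eq_integral, substitution x = e^y; integral of a product: integral_fintype_prod_eq_prod). The linear map
(r, z) -> y, y_i = r + sum_j lm i j z_j, has determinant Delta lm (matrix (1 | lm) on R x R^m = R^(m+1) via Fin.cons / MeasurableEquiv.piFinSuccAbove 0).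
Under it sum y_i = n r (h0), sum e^{y_i} = e^r T(z), T(z) = sum_i tt lm z i > 0. So Gamma(s)^n = |Delta| int_z int_r exp(n s r - e^r T(z)) dr dz
(Fubini), and the inner integral is Gamma(n s) T(z)^(-n s) (substitution x = e^r: Complex.integral_cpow_mul_exp_neg_mul_Ioi). Integrability of T^(-n s): from
Fubini (integrable in z for the integral over r; for real s the inner integral is Gamma(ns) T^(-ns) > 0). -/

/-! ### One variable -/

theorem u1_image_exp : Real.exp '' (Set.univ : Set ℝ) = Set.Ioi 0 := by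
  rw [Set.image_univ, Real.range_exp]

/-- `∫ exp(a r - T e^r) dr = (1/T)^a Γ(a)`. -/
theorem u1_one {a : ℂ} (ha : 0 < a.re) {T : ℝ} (hT : 0 < T) :
    ∫ r : ℝ, Complex.exp (a * r - T * Real.exp r) = (1 / (T : ℂ)) ^ a * Complex.Gamma a := by
  rw [← Complex.integral_cpow_mul_exp_neg_mul_Ioi ha hT, ← u1_image_exp,
    integral_image_eq_integral_abs_deriv_smul MeasurableSet.univ
      (fun x _ => (Real.hasDerivAt_exp x).hasDerivWithinAt) (Real.exp_injective.injOn),
    setIntegral_univ]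
  congr 1
  funext r
  have hr := Real.exp_pos r
  rw [abs_of_pos hr, Complex.real_smul]
  have h1 : ((Real.exp r : ℝ) : ℂ) ^ (a - 1) = Complex.exp ((a - 1) * r) := by
    rw [Complex.cpow_def_of_ne_zero (by exact_mod_cast hr.ne'), ← Complex.ofReal_log hr.le,
      Real.log_exp, mul_comm]
  rw [h1, Complex.ofReal_exp, ← Complex.exp_add, ← Complex.exp_add]
  congr 1
  ring

theorem u1_one_integrable {a : ℂ} (ha : 0 < a.re) :
    Integrable fun r : ℝ => Complex.exp (a * r - Real.exp r) := by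
  have h := Complex.GammaIntegral_convergent ha
  rw [← u1_image_exp, integrableOn_image_iff_integrableOn_abs_deriv_smul MeasurableSet.univ
      (fun x _ => (Real.hasDerivAt_exp x).hasDerivWithinAt) (Real.exp_injective.injOn),
      integrableOn_univ] at h
  refine h.congr (Filter.Eventually.of_forall fun r => ?_)
  have hr := Real.exp_pos r
  simp only
  rw [abs_of_pos hr, Complex.real_smul]
  have h1 : ((Real.exp r : ℝ) : ℂ) ^ (a - 1) = Complex.exp ((a - 1) * r) := by
    rw [Complex.cpow_def_of_ne_zero (by exact_mod_cast hr.ne'), ← Complex.ofReal_log hr.le,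
      Real.log_exp, mul_comm]
  rw [h1, Complex.ofReal_exp, Complex.ofReal_exp, ← Complex.exp_add, ← Complex.exp_add]
  congr 1
  push_cast
  ring

/-! ### The product -/

/-- The integrand on `ℝ^n`. -/
noncomputable def u1F {m : ℕ} (s : ℂ) (y : Fin (m + 1) → ℝ) : ℂ :=
  ∏ i, Complex.exp (s * y i - Real.exp (y i))

theorem u1F_integrable {m : ℕ} {s : ℂ} (hs : 0 < s.re) :
    Integrable (u1F (m := m) s) := by
  unfold u1F
  exact Integrable.fintype_prod (fun _ => u1_one_integrable hs)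

theorem u1F_integral {m : ℕ} {s : ℂ} (hs : 0 < s.re) :
    ∫ y, u1F (m := m) s y = Complex.Gamma s ^ (m + 1) := by
  unfold u1F
  rw [integral_fintype_prod_volume_eq_pow (fun r : ℝ => Complex.exp (s * r - Real.exp r))]
  have h := u1_one hs (T := 1) one_pos
  simp only [Complex.ofReal_one, one_mul, div_one, Complex.one_cpow] at h
  rw [h, Fintype.card_fin]

/-! ### The change of variables -/

/-- The matrix `(1 | lm)`. -/
noncomputable def u1M {m : ℕ} (lm : Fin (m + 1) → Fin m → ℝ) :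
    Matrix (Fin (m + 1)) (Fin (m + 1)) ℝ :=
  Matrix.of fun i j : Fin (m + 1) => (Fin.cons 1 (lm i) : Fin (m + 1) → ℝ) j

theorem u1M_mulVec {m : ℕ} (lm : Fin (m + 1) → Fin m → ℝ) (v : Fin (m + 1) → ℝ) (i : Fin (m + 1)) :
    Matrix.toLin' (u1M lm) v i = v 0 + ∑ j : Fin m, v j.succ * lm i j := by
  rw [Matrix.toLin'_apply, Matrix.mulVec, dotProduct, Fin.sum_univ_succ]
  simp [u1M, mul_comm]

/-- The integrand in the new variables. -/
noncomputable def u1G {m : ℕ} (lm : Fin (m + 1) → Fin m → ℝ) (s : ℂ) (p : ℝ × (Fin m → ℝ)) : ℂ :=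
  Complex.exp (((m + 1 : ℕ) * s) * p.1 - ((∑ i, tt lm p.2 i : ℝ) : ℂ) * Real.exp p.1)

theorem u1_comp {m : ℕ} (lm : Fin (m + 1) → Fin m → ℝ) (h0 : ∀ j, ∑ i, lm i j = 0) (s : ℂ)
    (v : Fin (m + 1) → ℝ) :
    u1F s (Matrix.toLin' (u1M lm) v) =
      u1G lm s (MeasurableEquiv.piFinSuccAbove (fun _ : Fin (m + 1) => ℝ) 0 v) := by
  have e1 : (MeasurableEquiv.piFinSuccAbove (fun _ : Fin (m + 1) => ℝ) 0 v) =
      (v 0, fun j => v j.succ) := by
    rfl
  rw [e1]
  unfold u1F u1G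
  rw [← Complex.exp_sum]
  congr 1
  rw [Finset.sum_sub_distrib, ← Finset.mul_sum]
  congr 1
  · have : (∑ i, ((Matrix.toLin' (u1M lm) v i : ℝ) : ℂ)) = ((m + 1 : ℕ) : ℂ) * (v 0 : ℂ) := by
      rw [← Complex.ofReal_sum]
      have h1 : ∑ i, Matrix.toLin' (u1M lm) v i = ((m + 1 : ℕ) : ℝ) * v 0 := by
        simp only [u1M_mulVec]
        rw [Finset.sum_add_distrib, Finset.sum_comm]
        have : ∀ j : Fin m, ∑ i : Fin (m + 1), v j.succ * lm i j = 0 := by
          intro j
          rw [← Finset.mul_sum, h0, mul_zero]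
        rw [Finset.sum_eq_zero fun j _ => this j]
        simp
      rw [h1]
      push_cast
      ring
    rw [this]
    ring
  · rw [← Complex.ofReal_sum, ← Complex.ofReal_mul, Complex.ofReal_inj, Finset.sum_mul]
    refine Finset.sum_congr rfl fun i _ => ?_
    rw [u1M_mulVec, add_comm, Real.exp_add]
    rfl

theorem u1_map {m : ℕ} (lm : Fin (m + 1) → Fin m → ℝ) (hD : Delta lm ≠ 0) :
    Measure.map (Matrix.toLin' (u1M lm)) volume =
      ENNReal.ofReal |(Delta lm)⁻¹| • (volume : Measure (Fin (m + 1) → ℝ)) :=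
  Real.map_matrix_volume_pi_eq_smul_volume_pi (M := u1M lm) hD

theorem u1_meas {m : ℕ} (lm : Fin (m + 1) → Fin m → ℝ) :
    Measurable (Matrix.toLin' (u1M lm)) :=
  (LinearMap.continuous_of_finiteDimensional _).measurable

theorem u1_continuous_tt {m : ℕ} (lm : Fin (m + 1) → Fin m → ℝ) (i : Fin (m + 1)) :
    Continuous fun z : Fin m → ℝ => tt lm z i := by
  unfold tt
  fun_prop

theorem u1F_continuous {m : ℕ} (s : ℂ) : Continuous (u1F (m := m) s) := by
  unfold u1F
  fun_prop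

theorem u1G_integrable {m : ℕ} (lm : Fin (m + 1) → Fin m → ℝ) (h0 : ∀ j, ∑ i, lm i j = 0)
    (hD : Delta lm ≠ 0) {s : ℂ} (hs : 0 < s.re) : Integrable (u1G lm s) := by
  have hp := volume_preserving_piFinSuccAbove (fun _ : Fin (m + 1) => ℝ) 0
  rw [← hp.integrable_comp_emb (MeasurableEquiv.measurableEmbedding _)]
  have h1 : Integrable (u1F (m := m) s) (Measure.map (Matrix.toLin' (u1M lm)) volume) := by
    rw [u1_map lm hD]
    exact (u1F_integrable hs).smul_measure ENNReal.ofReal_ne_top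
  have h2 := h1.comp_measurable (u1_meas lm)
  refine h2.congr (Filter.Eventually.of_forall fun v => ?_)
  exact u1_comp lm h0 s v

theorem u1G_integral {m : ℕ} (lm : Fin (m + 1) → Fin m → ℝ) (h0 : ∀ j, ∑ i, lm i j = 0)
    (hD : Delta lm ≠ 0) {s : ℂ} (hs : 0 < s.re) :
    ∫ p, u1G lm s p = ((|(Delta lm)⁻¹| : ℝ) : ℂ) * Complex.Gamma s ^ (m + 1) := by
  have hp := volume_preserving_piFinSuccAbove (fun _ : Fin (m + 1) => ℝ) 0
  rw [← hp.integral_comp (MeasurableEquiv.measurableEmbedding _), ← u1F_integral (m := m) hs]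
  have h2 : ∫ y, u1F (m := m) s y ∂(Measure.map (Matrix.toLin' (u1M lm)) volume) =
      ∫ v, u1F (m := m) s (Matrix.toLin' (u1M lm) v) :=
    integral_map (u1_meas lm).aemeasurable (u1F_continuous s).aestronglyMeasurable
  rw [u1_map lm hD, integral_smul_measure, ENNReal.toReal_ofReal (abs_nonneg _)] at h2
  rw [← Complex.real_smul, h2]
  exact integral_congr_ae (Filter.Eventually.of_forall fun v => (u1_comp lm h0 s v).symm)

theorem u1_T_pos {m : ℕ} (lm : Fin (m + 1) → Fin m → ℝ) (z : Fin m → ℝ) :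
    0 < ∑ i, tt lm z i :=
  Finset.sum_pos (fun _ _ => Real.exp_pos _) Finset.univ_nonempty

theorem u1_re {m : ℕ} {s : ℂ} (hs : 0 < s.re) : 0 < (((m + 1 : ℕ) : ℂ) * s).re := by
  have : (((m + 1 : ℕ) : ℂ) * s).re = ((m + 1 : ℕ) : ℝ) * s.re := by
    rw [← Complex.ofReal_natCast, Complex.re_ofReal_mul]
  rw [this]
  positivity

theorem u1_inner {m : ℕ} (lm : Fin (m + 1) → Fin m → ℝ) {s : ℂ} (hs : 0 < s.re)
    (z : Fin m → ℝ) : ∫ r : ℝ, u1G lm s (r, z) =
      Complex.Gamma ((m + 1 : ℕ) * s) * ((∑ i, tt lm z i : ℝ) : ℂ) ^ (-((m + 1 : ℕ) * s)) := by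
  have hT := u1_T_pos lm z
  have h := u1_one (u1_re (m := m) hs) hT
  have h2 : (1 / ((∑ i, tt lm z i : ℝ) : ℂ)) ^ (((m + 1 : ℕ) : ℂ) * s) =
      ((∑ i, tt lm z i : ℝ) : ℂ) ^ (-(((m + 1 : ℕ) : ℂ) * s)) := by
    rw [one_div, Complex.inv_cpow, Complex.cpow_neg]
    rw [Complex.arg_ofReal_of_nonneg hT.le]
    exact Real.pi_ne_zero.symm
  rw [h2] at h
  rw [mul_comm, ← h]
  rfl

theorem cst_integrable {m : ℕ} (lm : Fin (m + 1) → Fin m → ℝ) (h0 : ∀ j, ∑ i, lm i j = 0)
    (hD : Delta lm ≠ 0) (s : ℂ) (hs : 0 < s.re) :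
    Integrable fun z : Fin m → ℝ => ((∑ i, tt lm z i : ℝ) : ℂ) ^ (-((m + 1 : ℕ) * s)) := by
  have h1 := (u1G_integrable lm h0 hD hs).integral_prod_right
  have h2 : Integrable fun z : Fin m → ℝ => Complex.Gamma ((m + 1 : ℕ) * s) *
      ((∑ i, tt lm z i : ℝ) : ℂ) ^ (-((m + 1 : ℕ) * s)) := by
    refine h1.congr (Filter.Eventually.of_forall fun z => ?_)
    exact u1_inner lm hs z
  have h3 := h2.const_mul (Complex.Gamma ((m + 1 : ℕ) * s))⁻¹
  refine h3.congr (Filter.Eventually.of_forall fun z => ?_)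
  exact inv_mul_cancel_left₀ (Complex.Gamma_ne_zero_of_re_pos (u1_re (m := m) hs)) _

theorem cst_eq {m : ℕ} (lm : Fin (m + 1) → Fin m → ℝ) (h0 : ∀ j, ∑ i, lm i j = 0)
    (hD : Delta lm ≠ 0) (s : ℂ) (hs : 0 < s.re) :
    Complex.Gamma ((m + 1 : ℕ) * s) * cst lm s * ((|Delta lm| : ℝ) : ℂ) =
      Complex.Gamma s ^ (m + 1) := by
  have h1 := u1G_integral lm h0 hD hs
  have h2 : ∫ p, u1G lm s p = Complex.Gamma ((m + 1 : ℕ) * s) * cst lm s := by
    have h3 : ∫ p, u1G lm s p = ∫ z : Fin m → ℝ, ∫ r : ℝ, u1G lm s (r, z) :=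
      integral_prod_symm _ (u1G_integrable lm h0 hD hs)
    rw [h3]
    unfold cst
    rw [← integral_const_mul]
    exact integral_congr_ae (Filter.Eventually.of_forall fun z => u1_inner lm hs z)
  rw [← h2, h1, abs_inv]
  have : ((|Delta lm| : ℝ) : ℂ) ≠ 0 := by
    exact_mod_cast abs_ne_zero.2 hD
  push_cast
  field_simp

end H55N
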