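import Mathlib
import Pool.Agent.Lib.H55N.U1

namespace H55N

open MeasureTheory

/-! Chunk U2 (M, pure analysis). Translation. The matrix (1 | lm) is invertible, so there are r0, z0 with log y_i = r0 + sum_j lm i j z0_j for all i;
summing, (m+1) r0 = sum log y_i. Then sum_i tt lm z i * y_i = e^{r0} sum_i tt lm (z + z0) i, so the integrand is exp(-(m+1) s r0) times the translated
integrand of cst (cpow of a product of positive reals), and exp(-(m+1) s r0) = (prod y_i)^(-s). -/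

theorem u2_shift {m : ℕ} (lm : Fin (m + 1) → Fin m → ℝ) (h0 : ∀ j, ∑ i, lm i j = 0)
    (hD : Delta lm ≠ 0) (y : Fin (m + 1) → ℝ) :
    ∃ (r0 : ℝ) (z0 : Fin m → ℝ), (∀ i, r0 + ∑ j, z0 j * lm i j = Real.log (y i)) ∧
      ((m + 1 : ℕ) : ℝ) * r0 = ∑ i, Real.log (y i) := by
  have hu : IsUnit (u1M lm).det := (isUnit_iff_ne_zero (a := (u1M lm).det)).2 hD
  set v : Fin (m + 1) → ℝ := Matrix.toLin' (u1M lm)⁻¹ fun i => Real.log (y i) with hv
  have h1 : Matrix.toLin' (u1M lm) v = fun i => Real.log (y i) := by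
    rw [hv, ← LinearMap.comp_apply, ← Matrix.toLin'_mul, Matrix.mul_nonsing_inv _ hu,
      Matrix.toLin'_one]
    rfl
  have h2 : ∀ i, v 0 + ∑ j : Fin m, v j.succ * lm i j = Real.log (y i) := fun i => by
    rw [← u1M_mulVec, h1]
  refine ⟨v 0, fun j => v j.succ, h2, ?_⟩
  have h3 : ∑ i, Real.log (y i) = ∑ i : Fin (m + 1), (v 0 + ∑ j : Fin m, v j.succ * lm i j) :=
    Finset.sum_congr rfl fun i _ => (h2 i).symm
  rw [h3, Finset.sum_add_distrib, Finset.sum_comm]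
  have : ∀ j : Fin m, ∑ i : Fin (m + 1), v j.succ * lm i j = 0 := by
    intro j
    rw [← Finset.mul_sum, h0, mul_zero]
  rw [Finset.sum_eq_zero fun j _ => this j]
  simp

theorem u2_fun {m : ℕ} (lm : Fin (m + 1) → Fin m → ℝ) (h0 : ∀ j, ∑ i, lm i j = 0)
    (hD : Delta lm ≠ 0) (s : ℂ) (y : Fin (m + 1) → ℝ) (hy : ∀ i, 0 < y i) :
    ∃ z0 : Fin m → ℝ, ∀ z : Fin m → ℝ,
      ((∑ i, tt lm z i * y i : ℝ) : ℂ) ^ (-((m + 1 : ℕ) * s)) =
      ((∏ i, y i : ℝ) : ℂ) ^ (-s) * ((∑ i, tt lm (z + z0) i : ℝ) : ℂ) ^ (-((m + 1 : ℕ) * s)) := by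
  obtain ⟨r0, z0, h1, h2⟩ := u2_shift lm h0 hD y
  refine ⟨z0, fun z => ?_⟩
  have e1 : ∑ i, tt lm z i * y i = Real.exp r0 * ∑ i, tt lm (z + z0) i := by
    rw [Finset.mul_sum]
    refine Finset.sum_congr rfl fun i _ => ?_
    rw [← Real.exp_log (hy i), ← h1 i]
    unfold tt
    rw [← Real.exp_add, ← Real.exp_add]
    congr 1
    have : ∑ j, (z + z0) j * lm i j = ∑ j, z j * lm i j + ∑ j, z0 j * lm i j := by
      rw [← Finset.sum_add_distrib]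
      refine Finset.sum_congr rfl fun j _ => ?_
      rw [Pi.add_apply, add_mul]
    rw [this]
    ring
  have hT := (u1_T_pos lm (z + z0)).le
  have hP : 0 < ∏ i, y i := Finset.prod_pos fun i _ => hy i
  rw [e1, Complex.ofReal_mul, Complex.mul_cpow_ofReal_nonneg (Real.exp_pos r0).le hT]
  congr 1
  have e2 : ((Real.exp r0 : ℝ) : ℂ) ^ (-((m + 1 : ℕ) * s)) =
      Complex.exp (r0 * (-((m + 1 : ℕ) * s))) := by
    rw [Complex.cpow_def_of_ne_zero (by exact_mod_cast (Real.exp_pos r0).ne'),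
      ← Complex.ofReal_log (Real.exp_pos r0).le, Real.log_exp]
  have e3 : ((∏ i, y i : ℝ) : ℂ) ^ (-s) = Complex.exp ((((m + 1 : ℕ) : ℝ) * r0 : ℝ) * (-s)) := by
    rw [Complex.cpow_def_of_ne_zero (by exact_mod_cast hP.ne'),
      ← Complex.ofReal_log hP.le, Real.log_prod fun i _ => (hy i).ne', h2]
  rw [e2, e3]
  congr 1
  push_cast
  ring

theorem shift_integrable {m : ℕ} (lm : Fin (m + 1) → Fin m → ℝ) (h0 : ∀ j, ∑ i, lm i j = 0)
    (hD : Delta lm ≠ 0) (s : ℂ) (hs : 0 < s.re) (y : Fin (m + 1) → ℝ) (hy : ∀ i, 0 < y i) :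
    Integrable fun z : Fin m → ℝ => ((∑ i, tt lm z i * y i : ℝ) : ℂ) ^ (-((m + 1 : ℕ) * s)) := by
  obtain ⟨z0, h⟩ := u2_fun lm h0 hD s y hy
  have h1 := ((cst_integrable lm h0 hD s hs).comp_add_right z0).const_mul
    (((∏ i, y i : ℝ) : ℂ) ^ (-s))
  exact h1.congr (Filter.Eventually.of_forall fun z => (h z).symm)

theorem shift_eq {m : ℕ} (lm : Fin (m + 1) → Fin m → ℝ) (h0 : ∀ j, ∑ i, lm i j = 0)
    (hD : Delta lm ≠ 0) (s : ℂ) (hs : 0 < s.re) (y : Fin (m + 1) → ℝ) (hy : ∀ i, 0 < y i) :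
    ∫ z : Fin m → ℝ, ((∑ i, tt lm z i * y i : ℝ) : ℂ) ^ (-((m + 1 : ℕ) * s)) =
      ((∏ i, y i : ℝ) : ℂ) ^ (-s) * cst lm s := by
  obtain ⟨z0, h⟩ := u2_fun lm h0 hD s y hy
  have h1 : ∫ z : Fin m → ℝ, ((∑ i, tt lm z i * y i : ℝ) : ℂ) ^ (-((m + 1 : ℕ) * s)) =
      ∫ z : Fin m → ℝ, ((∏ i, y i : ℝ) : ℂ) ^ (-s) *
        ((∑ i, tt lm (z + z0) i : ℝ) : ℂ) ^ (-((m + 1 : ℕ) * s)) :=
    integral_congr_ae (Filter.Eventually.of_forall fun z => h z)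
  rw [h1, integral_const_mul,
    integral_add_right_eq_self (fun z : Fin m → ℝ =>
      ((∑ i, tt lm z i : ℝ) : ℂ) ^ (-((m + 1 : ℕ) * s))) z0]
  rfl

end H55N
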