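import Mathlib

namespace H55N

open MeasureTheory

/-! Chunk B13 (M, pure Mathlib). The beta integral in the form needed: substitution τ = y/(1-y) in Complex.betaIntegral, or: Gamma(k) (1+τ)^(-k) =
int_0^oo x^(k-1) e^(-x(1+τ)) dx, Fubini, Gamma(z) x^(-z). Then τ -> τ q (q > 0): integral over Ioi of τ^(z-1) (1 + τ q)^(-k) = q^(-z) times the value for
q = 1. Integrability for 0 < Re z < k. -/

/-- The substitution. -/
noncomputable def B13_f (q τ : ℝ) : ℝ := τ * q / (1 + τ * q)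

/-- Its derivative. -/
noncomputable def B13_f' (q τ : ℝ) : ℝ := q / (1 + τ * q) ^ 2

theorem B13_deriv {q : ℝ} (hq : 0 < q) : ∀ τ ∈ Set.Ioi (0 : ℝ),
    HasDerivWithinAt (B13_f q) (B13_f' q τ) (Set.Ioi 0) τ := by
  intro τ hτ
  have hτ0 : 0 < τ := hτ
  have h1 : (1 + τ * q) ≠ 0 := by positivity
  have ha : HasDerivAt (fun τ : ℝ => τ * q) q τ := by
    simpa using (hasDerivAt_id τ).mul_const q
  have hb : HasDerivAt (fun τ : ℝ => 1 + τ * q) q τ := by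
    simpa using ha.const_add 1
  have h2 := ha.div hb h1
  have h3 : (q * (1 + τ * q) - τ * q * q) / (1 + τ * q) ^ 2 = B13_f' q τ := by
    unfold B13_f'; congr 1; ring
  rw [h3] at h2
  exact h2.hasDerivWithinAt

theorem B13_inj {q : ℝ} (hq : 0 < q) : Set.InjOn (B13_f q) (Set.Ioi 0) := by
  intro a ha b hb h
  have ha0 : 0 < a := ha
  have hb0 : 0 < b := hb
  unfold B13_f at h
  have h1 : (1 + a * q) ≠ 0 := by positivity
  have h2 : (1 + b * q) ≠ 0 := by positivity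
  rw [div_eq_div_iff h1 h2] at h
  have h3 : a * q = b * q := by linear_combination h
  exact mul_right_cancel₀ hq.ne' h3

theorem B13_image {q : ℝ} (hq : 0 < q) : B13_f q '' Set.Ioi 0 = Set.Ioo 0 1 := by
  ext y
  constructor
  · rintro ⟨τ, hτ, rfl⟩
    have hτ0 : 0 < τ := hτ
    unfold B13_f
    have h1 : 0 < 1 + τ * q := by positivity
    refine ⟨by positivity, ?_⟩
    rw [div_lt_one h1]
    linarith
  · rintro ⟨h0, h1⟩
    have h2 : 0 < 1 - y := by linarith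
    refine ⟨y / ((1 - y) * q), ?_, ?_⟩
    · exact Set.mem_Ioi.2 (by positivity)
    · unfold B13_f
      have h3 : y / ((1 - y) * q) * q = y / (1 - y) := by field_simp
      rw [h3]
      have h4 : 1 + y / (1 - y) = 1 / (1 - y) := by field_simp; ring
      rw [h4]
      field_simp

theorem B13_cpow {r : ℝ} (hr : 0 < r) (w : ℂ) : (r : ℂ) ^ w = Complex.exp ((Real.log r : ℂ) * w) := by
  rw [Complex.cpow_def_of_ne_zero (by exact_mod_cast hr.ne'), Complex.ofReal_log hr.le]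

theorem B13_pt (z : ℂ) (k : ℕ) {q : ℝ} (hq : 0 < q) {τ : ℝ} (hτ : 0 < τ) :
    |B13_f' q τ| • (((B13_f q τ : ℝ) : ℂ) ^ (z - 1) * (1 - ((B13_f q τ : ℝ) : ℂ)) ^ ((k : ℂ) - z - 1)) =
      (q : ℂ) ^ z * ((τ : ℂ) ^ (z - 1) * (((1 + τ * q) ^ k)⁻¹ : ℝ)) := by
  have ha : 0 < 1 + τ * q := by positivity
  set a := 1 + τ * q with hadef
  have h1 : (1 - ((B13_f q τ : ℝ) : ℂ)) = ((a⁻¹ : ℝ) : ℂ) := by
    have : 1 - B13_f q τ = a⁻¹ := by
      unfold B13_f
      rw [← hadef]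
      field_simp
      rw [hadef]; ring
    rw [← this]; push_cast; ring
  have h2 : B13_f q τ = τ * q / a := rfl
  have h3 : 0 < τ * q / a := by positivity
  have h4 : |B13_f' q τ| = q / a ^ 2 := abs_of_pos (by unfold B13_f'; positivity)
  rw [h1, h2, h4, B13_cpow h3, B13_cpow (inv_pos.2 ha), B13_cpow hq, B13_cpow hτ]
  have h5 : ((q / a ^ 2 : ℝ) : ℂ) = Complex.exp (((Real.log q - 2 * Real.log a : ℝ) : ℂ)) := by
    rw [← Complex.ofReal_exp]
    congr 1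
    rw [Real.exp_sub, Real.exp_log hq, two_mul, Real.exp_add, Real.exp_log ha, sq]
  have h6 : ((((a ^ k)⁻¹ : ℝ)) : ℂ) = Complex.exp (((-(k * Real.log a) : ℝ) : ℂ)) := by
    rw [← Complex.ofReal_exp]
    congr 1
    rw [Real.exp_neg, ← Real.log_pow, Real.exp_log (by positivity)]
  rw [Complex.real_smul, h5, h6, ← Complex.exp_add, ← Complex.exp_add, ← Complex.exp_add,
    ← Complex.exp_add]
  congr 1
  rw [Real.log_div (by positivity) ha.ne', Real.log_mul hτ.ne' hq.ne', Real.log_inv]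
  push_cast
  ring

theorem beta_integrable (z : ℂ) (k : ℕ) (h0 : 0 < z.re) (hk : z.re < k) (q : ℝ) (hq : 0 < q) :
    IntegrableOn (fun τ : ℝ => (τ : ℂ) ^ (z - 1) * (((1 + τ * q) ^ k)⁻¹ : ℝ)) (Set.Ioi 0) := by
  have h1 := integrableOn_image_iff_integrableOn_abs_deriv_smul (measurableSet_Ioi (a := (0 : ℝ)))
    (B13_deriv hq) (B13_inj hq) (fun y : ℝ => (y : ℂ) ^ (z - 1) * (1 - (y : ℂ)) ^ ((k : ℂ) - z - 1))
  rw [B13_image hq] at h1
  have h2 : IntegrableOn (fun y : ℝ => (y : ℂ) ^ (z - 1) * (1 - (y : ℂ)) ^ ((k : ℂ) - z - 1))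
      (Set.Ioo 0 1) := by
    have := Complex.betaIntegral_convergent (u := z) (v := (k : ℂ) - z) h0 (by simp; linarith)
    rw [intervalIntegrable_iff_integrableOn_Ioc_of_le zero_le_one] at this
    exact this.mono_set Set.Ioo_subset_Ioc_self
  have h3 := h1.1 h2
  have h4 : IntegrableOn (fun τ : ℝ => (q : ℂ) ^ z * ((τ : ℂ) ^ (z - 1) *
      (((1 + τ * q) ^ k)⁻¹ : ℝ))) (Set.Ioi 0) :=
    h3.congr_fun (fun τ hτ => B13_pt z k hq hτ) measurableSet_Ioi
  have h5 : (q : ℂ) ^ z ≠ 0 := by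
    rw [B13_cpow hq]; exact Complex.exp_ne_zero _
  have h6 : IntegrableOn (fun τ : ℝ => ((q : ℂ) ^ z)⁻¹ * ((q : ℂ) ^ z * ((τ : ℂ) ^ (z - 1) *
      (((1 + τ * q) ^ k)⁻¹ : ℝ)))) (Set.Ioi 0) := h4.const_mul ((q : ℂ) ^ z)⁻¹
  refine h6.congr_fun (fun τ _ => ?_) measurableSet_Ioi
  simp only
  rw [← mul_assoc, inv_mul_cancel₀ h5, one_mul]

theorem beta_eq (z : ℂ) (k : ℕ) (h0 : 0 < z.re) (hk : z.re < k) (q : ℝ) (hq : 0 < q) :
    ∫ τ in Set.Ioi (0 : ℝ), (τ : ℂ) ^ (z - 1) * (((1 + τ * q) ^ k)⁻¹ : ℝ) =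
      (q : ℂ) ^ (-z) * (Complex.Gamma z * Complex.Gamma (k - z) / Complex.Gamma k) := by
  have h1 := integral_image_eq_integral_abs_deriv_smul (measurableSet_Ioi (a := (0 : ℝ)))
    (B13_deriv hq) (B13_inj hq) (fun y : ℝ => (y : ℂ) ^ (z - 1) * (1 - (y : ℂ)) ^ ((k : ℂ) - z - 1))
  rw [B13_image hq, setIntegral_congr_fun measurableSet_Ioi (fun τ hτ => B13_pt z k hq hτ),
    integral_const_mul] at h1
  have h2 : ∫ y in Set.Ioo (0 : ℝ) 1, (y : ℂ) ^ (z - 1) * (1 - (y : ℂ)) ^ ((k : ℂ) - z - 1) =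
      Complex.betaIntegral z ((k : ℂ) - z) := by
    unfold Complex.betaIntegral
    rw [intervalIntegral.integral_of_le zero_le_one, integral_Ioc_eq_integral_Ioo]
  rw [h2] at h1
  have h3 := Complex.Gamma_mul_Gamma_eq_betaIntegral (s := z) (t := (k : ℂ) - z) h0
    (by simp; linarith)
  rw [show z + ((k : ℂ) - z) = k by ring] at h3
  have hk0 : 0 < k := by
    have : (0 : ℝ) < k := h0.trans hk
    exact_mod_cast this
  have h4 : Complex.Gamma (k : ℂ) ≠ 0 := by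
    apply Complex.Gamma_ne_zero_of_re_pos
    simpa using hk0
  have h5 : (q : ℂ) ^ z ≠ 0 := by
    rw [B13_cpow hq]; exact Complex.exp_ne_zero _
  rw [Complex.cpow_neg, h3, h1]
  generalize (∫ τ in Set.Ioi (0 : ℝ), (τ : ℂ) ^ (z - 1) * (((1 + τ * q) ^ k)⁻¹ : ℝ)) = J
  field_simp

end H55N
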