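import Mathlib
import Pool.Agent.Lib.H55N.B9
import Pool.Agent.Lib.H55N.B13

open NumberField IsDedekindDomain MeasureTheory

namespace H55N

open H55B H55C

variable {K : Type} [Field K] [NumberField K] [Algebra F K] {m : ℕ}
  {P ι : Type} [Fintype ι] [DecidableEq ι]

/-! Chunk B14 (M/L). Complex powers of the quadratic forms.
good_tau: h = 1 + τ Q_t(x), β = h itself on Y: SV uniformly in τ > 0, a <= t <= b (c sz^2 <= Q_t <= C sz^2 on Y by Q_low, Q_up, and sz is SV); h is Good with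
weight β (Q_t is Good with weight sz^2, good_Q; τ sz^2 <= C β; the constant 1); Good.inv, Good.pow.
good_Qpow: choose a natural number k > r1. For every y in Y: Q^(-z) = B(z)^(-1) int_0^oo τ^(z-1) (1+τ Q)^(-k) dτ (beta_eq), B(z) = Gamma(z) Gamma(k-z)/Gamma(k), so
D_S Q^(-z)(x) = B(z)^(-1) int τ^(z-1) D_S (1+τ Q)^(-k)(x) dτ and |..| <= |B(z)|^(-1) C int τ^(Re z - 1) (1+τ Q_t(x))^(-k) dτ prod γ =
C B(Re z)/|B(z)| Q_t(x)^(-Re z) prod γ, with good_tau (P replaced by P x {τ > 0}); |B(z)| is bounded below and B(Re z) above on the compact set r0 <= Re z <= r1, |z| <= M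
(continuous, Gamma has no zeros); Q_t(x)^(-Re z) <= C sz^(-2 Re z) <= C sz^(-2 r0). -/

theorem B14_tau_sv (D : Ctx K m) (hE : Emb D.σ) (w : ι → 𝓞 K) (Y : Set (𝓞 K))
    (hY : ∀ x ∈ Y, ∀ i, x - w i ∈ Y) (h0 : (0 : 𝓞 K) ∉ Y) (t : P → Fin (m + 1) → ℝ) (a b : ℝ)
    (ha : 0 < a) (ht : ∀ q i, a ≤ t q i ∧ t q i ≤ b) (τ : P → ℝ) (hτ : ∀ q, 0 < τ q) :
    SV Y w (fun q x => 1 + τ q * D.Q (t q) x) := by
  obtain ⟨c, hc, hlow⟩ := Q_low D hE a ha
  obtain ⟨C, hC, hup⟩ := Q_up D |b| (abs_nonneg b)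
  obtain ⟨_, C1, hC1⟩ := SV.pow hY (sv_sz (P := Unit) D w Y) 2
  have hne : ∀ x ∈ Y, x ≠ 0 := fun x hx h => h0 (h ▸ hx)
  have habs : ∀ q i, |t q i| ≤ |b| := by
    intro q i
    rw [abs_of_pos (lt_of_lt_of_le ha (ht q i).1)]
    exact (ht q i).2.trans (le_abs_self b)
  have hl : ∀ q, ∀ x ∈ Y, c * D.sz x ^ 2 ≤ D.Q (t q) x := fun q x hx =>
    hlow (t q) (fun i => (ht q i).1) x (hne x hx)
  have hu : ∀ q x, D.Q (t q) x ≤ C * D.sz x ^ 2 := fun q x =>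
    (le_abs_self _).trans (hup (t q) (habs q) x)
  have hQpos : ∀ q, ∀ x ∈ Y, 0 < D.Q (t q) x := fun q x hx =>
    lt_of_lt_of_le (mul_pos hc (pow_pos (D.sz_pos x) 2)) (hl q x hx)
  have key : ∀ q, ∀ x ∈ Y, ∀ y ∈ Y, D.sz x ^ 2 ≤ C1 * D.sz y ^ 2 →
      1 + τ q * D.Q (t q) x ≤ max 1 (C * C1 / c) * (1 + τ q * D.Q (t q) y) := by
    intro q x hx y hy h
    have h1 : D.Q (t q) x ≤ (C * C1 / c) * D.Q (t q) y := by
      have hC1' : 0 ≤ C1 := by
        by_contra hneg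
        push Not at hneg
        have h2 : 0 < D.sz x ^ 2 := pow_pos (D.sz_pos x) 2
        have h3 : 0 < D.sz y ^ 2 := pow_pos (D.sz_pos y) 2
        have h4 := mul_neg_of_neg_of_pos hneg h3
        linarith
      calc D.Q (t q) x ≤ C * D.sz x ^ 2 := hu q x
        _ ≤ C * (C1 * D.sz y ^ 2) := mul_le_mul_of_nonneg_left h hC.le
        _ = (C * C1 / c) * (c * D.sz y ^ 2) := by field_simp
        _ ≤ (C * C1 / c) * D.Q (t q) y :=
          mul_le_mul_of_nonneg_left (hl q y hy) (by positivity)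
    have h2 : D.Q (t q) x ≤ max 1 (C * C1 / c) * D.Q (t q) y :=
      h1.trans (mul_le_mul_of_nonneg_right (le_max_right _ _) (hQpos q y hy).le)
    have h3 := mul_le_mul_of_nonneg_left h2 (hτ q).le
    have h4 : (1 : ℝ) ≤ max 1 (C * C1 / c) := le_max_left _ _
    nlinarith
  refine ⟨fun q x hx => ?_, max 1 (C * C1 / c), fun q x hx i => ⟨?_, ?_⟩⟩
  · have := mul_pos (hτ q) (hQpos q x hx)
    linarith
  · exact key q _ (hY x hx i) x hx (hC1 () x hx i).1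
  · exact key q x hx _ (hY x hx i) (hC1 () x hx i).2

theorem B14_tau_good (D : Ctx K m) (hE : Emb D.σ) (w : ι → 𝓞 K) (Y : Set (𝓞 K))
    (hY : ∀ x ∈ Y, ∀ i, x - w i ∈ Y) (h0 : (0 : 𝓞 K) ∉ Y) (t : P → Fin (m + 1) → ℝ) (a b : ℝ)
    (ha : 0 < a) (ht : ∀ q i, a ≤ t q i ∧ t q i ≤ b) (τ : P → ℝ) (hτ : ∀ q, 0 < τ q) :
    Good Y w D.gs (fun q x => 1 + τ q * D.Q (t q) x)
      (fun q x => 1 + (τ q : ℂ) * (D.Q (t q) x : ℂ)) := by
  obtain ⟨c, hc, hlow⟩ := Q_low D hE a ha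
  have hne : ∀ x ∈ Y, x ≠ 0 := fun x hx h => h0 (h ▸ hx)
  have habs : ∀ q i, |t q i| ≤ |b| := by
    intro q i
    rw [abs_of_pos (lt_of_lt_of_le ha (ht q i).1)]
    exact (ht q i).2.trans (le_abs_self b)
  have hl : ∀ q, ∀ x ∈ Y, c * D.sz x ^ 2 ≤ D.Q (t q) x := fun q x hx =>
    hlow (t q) (fun i => (ht q i).1) x (hne x hx)
  have hQpos : ∀ q, ∀ x ∈ Y, 0 < D.Q (t q) x := fun q x hx =>
    lt_of_lt_of_le (mul_pos hc (pow_pos (D.sz_pos x) 2)) (hl q x hx)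
  have hβ : ∀ q, ∀ x ∈ Y, 0 ≤ 1 + τ q * D.Q (t q) x := by
    intro q x hx
    have := mul_pos (hτ q) (hQpos q x hx)
    linarith
  have hγ : ∀ i : ι, ∀ x ∈ Y, 0 ≤ D.gs i x := fun i x _ => inv_nonneg.2 (D.sz_pos x).le
  refine Good.add ?_ ?_
  · refine Good.const hβ hγ (fun _ => 1) 1 ?_
    intro q x hx
    have := mul_pos (hτ q) (hQpos q x hx)
    rw [norm_one]
    linarith
  · obtain ⟨C, hC⟩ := good_Q D w Y hY t |b| habs
    refine ⟨|C| / c, ?_⟩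
    intro q S x hx
    have e1 : Dif w S ((fun q x => (τ q : ℂ) * (D.Q (t q) x : ℂ)) q) x =
        (τ q : ℂ) * Dif w S (fun x => (D.Q (t q) x : ℂ)) x :=
      dif_const_mul w S (τ q : ℂ) (fun x => (D.Q (t q) x : ℂ)) x
    have hp0 : 0 ≤ ∏ i ∈ S, D.gs i x := Finset.prod_nonneg fun i _ => hγ i x hx
    rw [e1, norm_mul, Complex.norm_real, Real.norm_eq_abs, abs_of_pos (hτ q)]
    have h1 := hC q S x hx
    have h2 : C * D.sz x ^ 2 ≤ |C| / c * D.Q (t q) x := by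
      calc C * D.sz x ^ 2 ≤ |C| * D.sz x ^ 2 :=
            mul_le_mul_of_nonneg_right (le_abs_self C) (by positivity)
        _ = |C| / c * (c * D.sz x ^ 2) := by field_simp
        _ ≤ |C| / c * D.Q (t q) x := mul_le_mul_of_nonneg_left (hl q x hx) (by positivity)
    calc τ q * ‖Dif w S (fun x => (D.Q (t q) x : ℂ)) x‖
        ≤ τ q * ((|C| / c * D.Q (t q) x) * ∏ i ∈ S, D.gs i x) :=
          mul_le_mul_of_nonneg_left (h1.trans (mul_le_mul_of_nonneg_right h2 hp0)) (hτ q).le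
      _ = (|C| / c * (τ q * D.Q (t q) x)) * ∏ i ∈ S, D.gs i x := by ring
      _ ≤ |C| / c * (1 + τ q * D.Q (t q) x) * ∏ i ∈ S, D.gs i x := by
          apply mul_le_mul_of_nonneg_right _ hp0
          apply mul_le_mul_of_nonneg_left _ (by positivity)
          linarith

theorem good_tau (D : Ctx K m) (hE : Emb D.σ) (w : ι → 𝓞 K) (Y : Set (𝓞 K))
    (hY : ∀ x ∈ Y, ∀ i, x - w i ∈ Y) (h0 : (0 : 𝓞 K) ∉ Y) (t : P → Fin (m + 1) → ℝ) (a b : ℝ)
    (ha : 0 < a) (ht : ∀ q i, a ≤ t q i ∧ t q i ≤ b) (τ : P → ℝ) (hτ : ∀ q, 0 < τ q) (k : ℕ) :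
    Good Y w D.gs (fun q x => ((1 + τ q * D.Q (t q) x) ^ k)⁻¹)
      (fun q x => ((((1 + τ q * D.Q (t q) x) ^ k)⁻¹ : ℝ) : ℂ)) := by
  have hsv := B14_tau_sv D hE w Y hY h0 t a b ha ht τ hτ
  have hg := B14_tau_good D hE w Y hY h0 t a b ha ht τ hτ
  have hγ := sv_gs D w Y
  have hinv := Good.inv hY hγ hsv hg 1 one_pos (by
    intro q x hx
    have h1 := hsv.1 q x hx
    have h2 : (1 + (τ q : ℂ) * (D.Q (t q) x : ℂ)) = ((1 + τ q * D.Q (t q) x : ℝ) : ℂ) := by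
      push_cast; ring
    rw [one_mul, h2, Complex.norm_real, Real.norm_eq_abs, abs_of_pos h1])
  have hpow := Good.pow hY hγ (SV.inv hY hsv) hinv k
  have e1 : (fun (q : P) (x : 𝓞 K) => ((1 + τ q * D.Q (t q) x) ^ k)⁻¹) =
      fun q x => ((1 + τ q * D.Q (t q) x)⁻¹) ^ k := by
    funext q x
    rw [inv_pow]
  have e2 : (fun (q : P) (x : 𝓞 K) => ((((1 + τ q * D.Q (t q) x) ^ k)⁻¹ : ℝ) : ℂ)) =
      fun q x => ((1 + (τ q : ℂ) * (D.Q (t q) x : ℂ))⁻¹) ^ k := by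
    funext q x
    rw [inv_pow]
    push_cast
    ring
  rw [e1, e2]
  exact hpow

/-- The normalising factor of the beta integral. -/
noncomputable def B14_B (k : ℕ) (z : ℂ) : ℂ :=
  Complex.Gamma z * Complex.Gamma (k - z) / Complex.Gamma k

theorem B14_B_ne (k : ℕ) (z : ℂ) (h0 : 0 < z.re) (hk : z.re < k) : B14_B k z ≠ 0 := by
  have hk0 : (0 : ℝ) < k := h0.trans hk
  refine div_ne_zero (mul_ne_zero (Complex.Gamma_ne_zero_of_re_pos h0)
    (Complex.Gamma_ne_zero_of_re_pos ?_)) (Complex.Gamma_ne_zero_of_re_pos ?_)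
  · rw [Complex.sub_re, Complex.natCast_re]
    linarith
  · rw [Complex.natCast_re]
    exact hk0

theorem B14_B_cont (k : ℕ) (z : ℂ) (h0 : 0 < z.re) (hk : z.re < k) :
    ContinuousAt (B14_B k) z := by
  have hk0 : (0 : ℝ) < k := h0.trans hk
  have hG : ∀ u : ℂ, 0 < u.re → ContinuousAt Complex.Gamma u := fun u hu =>
    (Complex.differentiableAt_Gamma u fun n hn => by
      rw [hn, Complex.neg_re, Complex.natCast_re] at hu
      have : (0 : ℝ) ≤ n := Nat.cast_nonneg n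
      linarith).continuousAt
  have h1 : ContinuousAt (fun z : ℂ => Complex.Gamma (k - z)) z := by
    have h2 := hG (k - z) (by rw [Complex.sub_re, Complex.natCast_re]; linarith)
    exact ContinuousAt.comp (f := fun z : ℂ => (k : ℂ) - z) h2 (by fun_prop)
  exact ((hG z h0).mul h1).div_const _

theorem B14_ratio (k : ℕ) (r₀ M : ℝ) (hr : 0 < r₀) (hM : M < k) : ∃ C : ℝ, 0 ≤ C ∧
    ∀ z : ℂ, r₀ ≤ z.re → ‖z‖ ≤ M → ‖B14_B k z.re‖ * ‖B14_B k z‖⁻¹ ≤ C := by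
  have hcomp : IsCompact ({z : ℂ | r₀ ≤ z.re} ∩ Metric.closedBall (0 : ℂ) M) := by
    refine IsCompact.inter_left (isCompact_closedBall 0 M) ?_
    exact isClosed_le continuous_const Complex.continuous_re
  have hre : ∀ z ∈ ({z : ℂ | r₀ ≤ z.re} ∩ Metric.closedBall (0 : ℂ) M), 0 < z.re ∧ z.re < k := by
    intro z hz
    have h1 : r₀ ≤ z.re := hz.1
    have h2 : ‖z‖ ≤ M := by
      have := hz.2
      rwa [mem_closedBall_zero_iff] at this
    exact ⟨lt_of_lt_of_le hr h1, lt_of_le_of_lt ((Complex.re_le_norm z).trans h2) hM⟩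
  have hcont : ContinuousOn (fun z : ℂ => ‖B14_B k z.re‖ * ‖B14_B k z‖⁻¹)
      ({z : ℂ | r₀ ≤ z.re} ∩ Metric.closedBall (0 : ℂ) M) := by
    intro z hz
    obtain ⟨h1, h2⟩ := hre z hz
    apply ContinuousAt.continuousWithinAt
    have h3 : ContinuousAt (fun z : ℂ => B14_B k (z.re : ℂ)) z := by
      have h4 := B14_B_cont k (z.re : ℂ) (by simpa using h1) (by simpa using h2)
      exact ContinuousAt.comp (f := fun z : ℂ => (z.re : ℂ)) h4 (by fun_prop)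
    refine h3.norm.mul ((B14_B_cont k z h1 h2).norm.inv₀ ?_)
    rw [norm_ne_zero_iff]
    exact B14_B_ne k z h1 h2
  obtain ⟨C, hC⟩ := hcomp.exists_bound_of_continuousOn hcont
  refine ⟨|C|, abs_nonneg C, ?_⟩
  intro z h1 h2
  have h3 := hC z ⟨h1, by rw [mem_closedBall_zero_iff]; exact h2⟩
  rw [Real.norm_eq_abs] at h3
  exact (le_abs_self _).trans (h3.trans (le_abs_self C))

/-- The real beta integral. -/
theorem B14_real (k : ℕ) (r q : ℝ) (hr : 0 < r) (hk : r < k) (hq : 0 < q) :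
    IntegrableOn (fun τ : ℝ => τ ^ (r - 1) * ((1 + τ * q) ^ k)⁻¹) (Set.Ioi 0) ∧
    ∫ τ in Set.Ioi (0 : ℝ), τ ^ (r - 1) * ((1 + τ * q) ^ k)⁻¹ = q ^ (-r) * ‖B14_B k r‖ := by
  have hi := beta_integrable (r : ℂ) k (by simpa using hr) (by simpa using hk) q hq
  have he := beta_eq (r : ℂ) k (by simpa using hr) (by simpa using hk) q hq
  have hcongr : ∀ τ ∈ Set.Ioi (0 : ℝ), (τ : ℂ) ^ ((r : ℂ) - 1) * (((1 + τ * q) ^ k)⁻¹ : ℝ) =
      ((τ ^ (r - 1) * ((1 + τ * q) ^ k)⁻¹ : ℝ) : ℂ) := by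
    intro τ hτ
    rw [Complex.ofReal_mul, Complex.ofReal_cpow (le_of_lt hτ)]
    push_cast
    ring
  have hi2 : IntegrableOn (fun τ : ℝ => ((τ ^ (r - 1) * ((1 + τ * q) ^ k)⁻¹ : ℝ) : ℂ))
      (Set.Ioi 0) := (integrableOn_congr_fun hcongr measurableSet_Ioi).1 hi
  have hi3 : IntegrableOn (fun τ : ℝ => τ ^ (r - 1) * ((1 + τ * q) ^ k)⁻¹) (Set.Ioi 0) := by
    have := hi2.re
    exact this
  refine ⟨hi3, ?_⟩
  rw [setIntegral_congr_fun measurableSet_Ioi hcongr, integral_complex_ofReal] at he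
  have h0 : 0 ≤ ∫ τ in Set.Ioi (0 : ℝ), τ ^ (r - 1) * ((1 + τ * q) ^ k)⁻¹ := by
    refine setIntegral_nonneg measurableSet_Ioi fun τ hτ => ?_
    have hτ' : (0 : ℝ) < τ := hτ
    positivity
  have h1 := congrArg norm he
  rw [Complex.norm_real, Real.norm_eq_abs, abs_of_nonneg h0, norm_mul] at h1
  rw [h1]
  congr 1
  rw [Complex.norm_cpow_eq_rpow_re_of_pos hq]
  simp

theorem good_Qpow (D : Ctx K m) (hE : Emb D.σ) (w : ι → 𝓞 K) (Y : Set (𝓞 K))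
    (hY : ∀ x ∈ Y, ∀ i, x - w i ∈ Y) (h0 : (0 : 𝓞 K) ∉ Y) (t : P → Fin (m + 1) → ℝ) (a b : ℝ)
    (ha : 0 < a) (ht : ∀ q i, a ≤ t q i ∧ t q i ≤ b) (z : P → ℂ) (r₀ M : ℝ) (hr : 0 < r₀)
    (hz : ∀ q, r₀ ≤ (z q).re ∧ ‖z q‖ ≤ M) :
    Good Y w D.gs (fun (_ : P) x => D.sz x ^ (-2 * r₀))
      (fun q x => (D.Q (t q) x : ℂ) ^ (-(z q))) := by
  obtain ⟨k, hk⟩ := exists_nat_gt M
  obtain ⟨c, hc, hlow⟩ := Q_low D hE a ha
  have hne : ∀ x ∈ Y, x ≠ 0 := fun x hx h => h0 (h ▸ hx)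
  have hl : ∀ q, ∀ x ∈ Y, c * D.sz x ^ 2 ≤ D.Q (t q) x := fun q x hx =>
    hlow (t q) (fun i => (ht q i).1) x (hne x hx)
  have hQpos : ∀ q, ∀ x ∈ Y, 0 < D.Q (t q) x := fun q x hx =>
    lt_of_lt_of_le (mul_pos hc (pow_pos (D.sz_pos x) 2)) (hl q x hx)
  obtain ⟨C, hC⟩ := good_tau (P := P × {τ : ℝ // 0 < τ}) D hE w Y hY h0 (fun q => t q.1) a b ha
    (fun q i => ht q.1 i) (fun q => q.2.1) (fun q => q.2.2) k
  obtain ⟨C2, hC2, hratio⟩ := B14_ratio k r₀ M hr hk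
  have hstab : ∀ T : Finset ι, ∀ x ∈ Y, x - ∑ i ∈ T, w i ∈ Y := by
    intro T
    induction T using Finset.induction_on with
    | empty => intro x hx; simpa using hx
    | insert a T ha ih =>
      intro x hx
      rw [Finset.sum_insert ha, ← sub_sub]
      exact ih _ (hY x hx a)
  refine ⟨|C| * C2 * (max 1 c⁻¹) ^ M, ?_⟩
  intro q S x hx
  obtain ⟨hz1, hz2⟩ := hz q
  have hre0 : 0 < (z q).re := lt_of_lt_of_le hr hz1
  have hreM : (z q).re ≤ M := (Complex.re_le_norm _).trans hz2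
  have hrek : (z q).re < k := lt_of_le_of_lt hreM hk
  have hBne := B14_B_ne k (z q) hre0 hrek
  have hp0 : 0 ≤ ∏ i ∈ S, D.gs i x :=
    Finset.prod_nonneg fun i _ => inv_nonneg.2 (D.sz_pos x).le
  -- the representation of the difference
  have hrep : Dif w S (fun x => (D.Q (t q) x : ℂ) ^ (-(z q))) x =
      (B14_B k (z q))⁻¹ * ∫ τ in Set.Ioi (0 : ℝ), (τ : ℂ) ^ (z q - 1) *
        Dif w S (fun x => ((((1 + τ * D.Q (t q) x) ^ k)⁻¹ : ℝ) : ℂ)) x := by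
    have h1 : ∀ y ∈ Y, (D.Q (t q) y : ℂ) ^ (-(z q)) = (B14_B k (z q))⁻¹ *
        ∫ τ in Set.Ioi (0 : ℝ), (τ : ℂ) ^ (z q - 1) * ((((1 + τ * D.Q (t q) y) ^ k)⁻¹ : ℝ) : ℂ) := by
      intro y hy
      rw [beta_eq (z q) k hre0 hrek _ (hQpos q y hy)]
      change _ = (B14_B k (z q))⁻¹ * (_ * B14_B k (z q))
      field_simp
    have h2 : ∀ T ∈ S.powerset, (-1 : ℂ) ^ T.card * (D.Q (t q) (x - ∑ i ∈ T, w i) : ℂ) ^ (-(z q)) =
        (B14_B k (z q))⁻¹ * ∫ τ in Set.Ioi (0 : ℝ), (-1 : ℂ) ^ T.card * ((τ : ℂ) ^ (z q - 1) *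
          ((((1 + τ * D.Q (t q) (x - ∑ i ∈ T, w i)) ^ k)⁻¹ : ℝ) : ℂ)) := by
      intro T _
      rw [h1 _ (hstab T x hx), integral_const_mul]
      ring
    unfold Dif
    rw [Finset.sum_congr rfl h2, ← Finset.mul_sum, ← integral_finsetSum]
    · congr 1
      refine setIntegral_congr_fun measurableSet_Ioi fun τ _ => ?_
      simp only [Finset.mul_sum]
      exact Finset.sum_congr rfl fun T _ => by ring
    · intro T _
      exact (beta_integrable (z q) k hre0 hrek _ (hQpos q _ (hstab T x hx))).const_mul _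
  obtain ⟨hi, he⟩ := B14_real k (z q).re (D.Q (t q) x) hre0 hrek (hQpos q x hx)
  have hint : ‖∫ τ in Set.Ioi (0 : ℝ), (τ : ℂ) ^ (z q - 1) *
        Dif w S (fun x => ((((1 + τ * D.Q (t q) x) ^ k)⁻¹ : ℝ) : ℂ)) x‖ ≤
      (|C| * ∏ i ∈ S, D.gs i x) * (D.Q (t q) x ^ (-(z q).re) * ‖B14_B k (z q).re‖) := by
    rw [← he, ← integral_const_mul]
    refine norm_integral_le_of_norm_le (hi.const_mul _) ?_
    refine (ae_restrict_iff' measurableSet_Ioi).2 (Filter.Eventually.of_forall fun τ hτ => ?_)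
    have hτ' : (0 : ℝ) < τ := hτ
    rw [norm_mul, Complex.norm_cpow_eq_rpow_re_of_pos hτ']
    have h1 := hC (q, ⟨τ, hτ'⟩) S x hx
    have h2 : C * ((1 + τ * D.Q (t q) x) ^ k)⁻¹ ≤ |C| * ((1 + τ * D.Q (t q) x) ^ k)⁻¹ := by
      apply mul_le_mul_of_nonneg_right (le_abs_self C)
      have := mul_pos hτ' (hQpos q x hx)
      positivity
    have h3 : (z q - 1).re = (z q).re - 1 := by simp
    rw [h3]
    calc τ ^ ((z q).re - 1) * ‖Dif w S (fun x => ((((1 + τ * D.Q (t q) x) ^ k)⁻¹ : ℝ) : ℂ)) x‖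
        ≤ τ ^ ((z q).re - 1) * ((|C| * ((1 + τ * D.Q (t q) x) ^ k)⁻¹) * ∏ i ∈ S, D.gs i x) :=
          mul_le_mul_of_nonneg_left (h1.trans (mul_le_mul_of_nonneg_right h2 hp0))
            (by positivity)
      _ = (|C| * ∏ i ∈ S, D.gs i x) *
            (τ ^ ((z q).re - 1) * ((1 + τ * D.Q (t q) x) ^ k)⁻¹) := by ring
  have hQle : D.Q (t q) x ^ (-(z q).re) ≤ (max 1 c⁻¹) ^ M * D.sz x ^ (-2 * r₀) := by
    have hs := D.sz_pos x
    have hs1 := D.one_le_sz x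
    calc D.Q (t q) x ^ (-(z q).re) ≤ (c * D.sz x ^ 2) ^ (-(z q).re) :=
          Real.rpow_le_rpow_of_nonpos (by positivity) (hl q x hx) (by linarith)
      _ = c⁻¹ ^ (z q).re * D.sz x ^ (-2 * (z q).re) := by
          rw [Real.mul_rpow hc.le (by positivity), Real.rpow_neg hc.le, Real.inv_rpow hc.le,
            ← Real.rpow_natCast, ← Real.rpow_mul hs.le]
          congr 2
          push_cast
          ring
      _ ≤ (max 1 c⁻¹) ^ M * D.sz x ^ (-2 * r₀) := by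
          apply mul_le_mul
          · calc c⁻¹ ^ (z q).re ≤ (max 1 c⁻¹) ^ (z q).re :=
                Real.rpow_le_rpow (by positivity) (le_max_right _ _) hre0.le
              _ ≤ (max 1 c⁻¹) ^ M := Real.rpow_le_rpow_of_exponent_le (le_max_left _ _) hreM
          · exact Real.rpow_le_rpow_of_exponent_le hs1 (by linarith)
          · positivity
          · positivity
  change ‖Dif w S (fun x => (D.Q (t q) x : ℂ) ^ (-(z q))) x‖ ≤ _
  rw [hrep, norm_mul, norm_inv]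
  calc ‖B14_B k (z q)‖⁻¹ * ‖∫ τ in Set.Ioi (0 : ℝ), (τ : ℂ) ^ (z q - 1) *
        Dif w S (fun x => ((((1 + τ * D.Q (t q) x) ^ k)⁻¹ : ℝ) : ℂ)) x‖
      ≤ ‖B14_B k (z q)‖⁻¹ * ((|C| * ∏ i ∈ S, D.gs i x) *
          (D.Q (t q) x ^ (-(z q).re) * ‖B14_B k (z q).re‖)) :=
        mul_le_mul_of_nonneg_left hint (by positivity)
    _ = (|C| * ∏ i ∈ S, D.gs i x) * (D.Q (t q) x ^ (-(z q).re) *
          (‖B14_B k (z q).re‖ * ‖B14_B k (z q)‖⁻¹)) := by ring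
    _ ≤ (|C| * ∏ i ∈ S, D.gs i x) * (((max 1 c⁻¹) ^ M * D.sz x ^ (-2 * r₀)) * C2) := by
        apply mul_le_mul_of_nonneg_left _ (by positivity)
        exact mul_le_mul hQle (hratio (z q) hz1 hz2) (by positivity)
          (by have := D.sz_pos x; positivity)
    _ = |C| * C2 * (max 1 c⁻¹) ^ M * D.sz x ^ (-2 * r₀) * ∏ i ∈ S, D.gs i x := by ring

/-- The family fs: conj N is a product of m+1 functions conj(σ_i x) (Good.prod, good_sig, Good.conj). -/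
theorem good_fs (D : Ctx K m) (hE : Emb D.σ) (w : ι → 𝓞 K) (Y : Set (𝓞 K))
    (hY : ∀ x ∈ Y, ∀ i, x - w i ∈ Y) (h0 : (0 : 𝓞 K) ∉ Y) (t : P → Fin (m + 1) → ℝ) (a b : ℝ)
    (ha : 0 < a) (ht : ∀ q i, a ≤ t q i ∧ t q i ≤ b) (s : P → ℂ) (r M : ℝ) (hr : 0 < r)
    (hs : ∀ q, r ≤ (s q).re ∧ ‖s q‖ ≤ M) :
    Good Y w D.gs (fun (_ : P) x => D.sz x ^ ((m + 1 : ℝ) - 2 * (m + 1) * r))
      (fun q x => D.fs (t q) (s q) x) := by
  have hγ := sv_gs D w Y
  have hsz := sv_sz (P := P) D w Y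
  have h1 := good_Qpow D hE w Y hY h0 t a b ha ht (fun q => ((m + 1 : ℕ) : ℂ) * s q)
    ((m + 1) * r) ((m + 1) * M) (by positivity) (by
      intro q
      obtain ⟨h1, h2⟩ := hs q
      constructor
      · rw [Complex.mul_re, Complex.natCast_re, Complex.natCast_im, zero_mul, sub_zero]
        push_cast
        exact mul_le_mul_of_nonneg_left h1 (by positivity)
      · rw [norm_mul, Complex.norm_natCast]
        push_cast
        exact mul_le_mul_of_nonneg_left h2 (by positivity))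
  have h2 := Good.prod hY hγ (Finset.univ : Finset (Fin (m + 1)))
    (fun _ (_ : P) x => D.sz x) (fun i (_ : P) x => D.σ i x) (fun _ _ => hsz)
    (fun i _ => good_sig D w Y i)
  have h3 := Good.conj h2
  have hsv1 := SV.prod hY (Finset.univ : Finset (Fin (m + 1)))
    (fun _ (_ : P) x => D.sz x) (fun _ _ => hsz)
  have hsv2 := SV.rpow hsz hY (-2 * ((m + 1) * r))
  have h4 := Good.mul hY hγ hsv1 hsv2 h3 h1
  have e1 : (fun (_ : P) x => D.sz x ^ ((m + 1 : ℝ) - 2 * (m + 1) * r)) =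
      fun (_ : P) x => (∏ _i : Fin (m + 1), D.sz x) * D.sz x ^ (-2 * ((m + 1) * r)) := by
    funext q x
    have hs0 := D.sz_pos x
    rw [Finset.prod_const, Finset.card_univ, Fintype.card_fin, ← Real.rpow_natCast,
      ← Real.rpow_add hs0]
    congr 1
    push_cast
    ring
  rw [e1]
  exact h4

end H55N
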