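import Mathlib
import Pool.Agent.Lib.H55N.B2
import Pool.Agent.Lib.H55N.B14

open NumberField IsDedekindDomain MeasureTheory

namespace H55N

open H55B H55C

variable {K : Type} [Field K] [NumberField K] [Algebra F K] {m : ℕ}
  {ι : Type} [Fintype ι] [DecidableEq ι]

/-! Chunk U4 (M/L). Analytic continuation of the differenced series, n = m+1, d = card ι <= 2n. Y = XS I' c₀ contains D.X, is stable under x -> x - w_i, and
0 is not in Y. Let s0 in the region, r < Re s0 with r > 3/2 - d/(2n) (so r > 0 since d <= 2n gives r > 1/2), M = |s0| + 1, U = {r < Re s, |s| < M}. For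
z in the cube the tt lm z i lie in some [a,b], 0 < a. good_fs (P = pairs (z, s)) gives |Dif univ (fs (tt lm z) s) x| <= C sz(x)^(n - 2nr) sz(x)^(-d), n - 2nr - d < -2n, summable
(sum_sz) uniformly in z, s. Each term s -> int_cube G x Dif(..) dz is holomorphic (fs is holomorphic in s, jointly continuous in (z,s) for x <> 0, continuous z-integral over a compact
set: hasDerivAt_integral_of_dominated_loc_of_deriv_le, or differentiability under the integral for compact domains); int_cube sum = sum int_cube (dominated), and a locally uniformly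
convergent series of holomorphic functions is holomorphic (differentiableOn_tsum_of_summable_norm). AnalyticOnNhd from DifferentiableOn on an open set. -/

/-- The exponent of the decay. -/
noncomputable def U4_e (m d : ℕ) (r : ℝ) : ℝ := 2 * (m + 1) * r + d - (m + 1)

/-- The uniform bound. -/
theorem U4_bound (D : Ctx K m) (hE : Emb D.σ) (I' : Ideal (𝓞 K))
    (h0 : D.c₀ ∉ I') (w : ι → 𝓞 K) (hw : ∀ i, w i ∈ I') (a b : ℝ) (ha : 0 < a) (r M : ℝ)
    (hr : 0 < r) : ∃ C : ℝ, 0 ≤ C ∧ ∀ t : Fin (m + 1) → ℝ, (∀ i, a ≤ t i ∧ t i ≤ b) →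
      ∀ s : ℂ, r ≤ s.re → ‖s‖ ≤ M → ∀ x ∈ XS I' D.c₀,
      ‖Dif w Finset.univ (D.fs t s) x‖ ≤ C * D.sz x ^ (-(U4_e m (Fintype.card ι) r)) := by
  have hY : ∀ x ∈ XS I' D.c₀, ∀ i, x - w i ∈ XS I' D.c₀ := by
    intro x hx i
    change x - w i - D.c₀ ∈ I'
    have h1 : x - w i - D.c₀ = (x - D.c₀) - w i := by ring
    rw [h1]
    exact I'.sub_mem hx (hw i)
  have hY0 : (0 : 𝓞 K) ∉ XS I' D.c₀ := by
    intro h
    change 0 - D.c₀ ∈ I' at h
    rw [zero_sub, neg_mem_iff] at h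
    exact h0 h
  obtain ⟨C, hC⟩ := good_fs
    (P := {q : (Fin (m + 1) → ℝ) × ℂ // (∀ i, a ≤ q.1 i ∧ q.1 i ≤ b) ∧ r ≤ q.2.re ∧ ‖q.2‖ ≤ M})
    D hE w (XS I' D.c₀) hY hY0 (fun q => q.1.1) a b ha (fun q => q.2.1) (fun q => q.1.2) r M hr
    (fun q => q.2.2)
  refine ⟨|C|, abs_nonneg C, ?_⟩
  intro t ht s hs1 hs2 x hx
  have h1 : ‖Dif w Finset.univ (D.fs t s) x‖ ≤ C * D.sz x ^ ((m + 1 : ℝ) - 2 * (m + 1) * r) *
      ∏ i : ι, D.gs i x := hC ⟨(t, s), ht, hs1, hs2⟩ Finset.univ x hx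
  have hs0 := D.sz_pos x
  have h2 : ∏ i : ι, D.gs i x = D.sz x ^ (-(Fintype.card ι : ℝ)) := by
    unfold Ctx.gs
    rw [Finset.prod_const, Finset.card_univ, Real.rpow_neg hs0.le, Real.rpow_natCast, inv_pow]
  rw [h2] at h1
  refine h1.trans ?_
  rw [mul_assoc, ← Real.rpow_add hs0]
  have h3 : (m + 1 : ℝ) - 2 * (m + 1) * r + -(Fintype.card ι : ℝ) =
      -(U4_e m (Fintype.card ι) r) := by
    unfold U4_e
    ring
  rw [h3]
  exact mul_le_mul_of_nonneg_right (le_abs_self C) (by positivity)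

theorem U4_sum (D : Ctx K m) (hE : Emb D.σ) (d : ℕ) (r : ℝ)
    (hr : 3 / 2 - (d : ℝ) / (2 * (m + 1)) < r) :
    Summable fun x : D.X => D.sz x ^ (-(U4_e m d r)) := by
  have h1 : 2 * (m + 1 : ℝ) < U4_e m d r := by
    unfold U4_e
    have hm : (0 : ℝ) < 2 * (m + 1) := by positivity
    have h2 := mul_lt_mul_of_pos_left hr hm
    have h3 : (2 * (m + 1) : ℝ) * (3 / 2 - (d : ℝ) / (2 * (m + 1))) = 3 * (m + 1) - d := by
      field_simp
    rw [h3] at h2
    linarith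
  exact (sum_sz D hE _ h1).comp_injective Subtype.val_injective

theorem U4_pos (d : ℕ) (hd : d ≤ 2 * (m + 1)) (r : ℝ)
    (hr : 3 / 2 - (d : ℝ) / (2 * (m + 1)) < r) : 0 < r := by
  have h1 : (d : ℝ) / (2 * (m + 1)) ≤ 1 := by
    rw [div_le_one (by positivity)]
    exact_mod_cast hd
  linarith

theorem U4_sub (D : Ctx K m) (I' : Ideal (𝓞 K)) (hI : D.I ≤ I') (x : 𝓞 K) (hx : x ∈ D.X) :
    x ∈ XS I' D.c₀ := hI hx

theorem cont_summable (D : Ctx K m) (hE : Emb D.σ) (I' : Ideal (𝓞 K)) (hI : D.I ≤ I')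
    (h0 : D.c₀ ∉ I') (w : ι → 𝓞 K) (hw : ∀ i, w i ∈ I') (hι : Fintype.card ι ≤ 2 * (m + 1))
    (G : 𝓞 K → ℂ) (hG : ∃ C : ℝ, ∀ x, ‖G x‖ ≤ C) (t : Fin (m + 1) → ℝ) (ht : ∀ i, 0 < t i) (s : ℂ)
    (hs : 3 / 2 - (Fintype.card ι : ℝ) / (2 * (m + 1)) < s.re) :
    Summable fun x : D.X => ‖G x * Dif w Finset.univ (D.fs t s) x‖ := by
  obtain ⟨CG, hCG⟩ := hG
  obtain ⟨i₀, _, hi₀⟩ := Finset.exists_min_image (Finset.univ : Finset (Fin (m + 1))) t
    ⟨0, Finset.mem_univ 0⟩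
  obtain ⟨i₁, _, hi₁⟩ := Finset.exists_max_image (Finset.univ : Finset (Fin (m + 1))) t
    ⟨0, Finset.mem_univ 0⟩
  have hr0 : 0 < s.re := U4_pos _ hι _ hs
  obtain ⟨C, hC0, hC⟩ := U4_bound D hE I' h0 w hw (t i₀) (t i₁) (ht i₀) s.re ‖s‖ hr0
  have h1 := (U4_sum D hE (Fintype.card ι) s.re hs).mul_left (|CG| * C)
  refine Summable.of_nonneg_of_le (fun x => norm_nonneg _) (fun x => ?_) h1
  rw [norm_mul]
  have h2 := hC t (fun i => ⟨hi₀ i (Finset.mem_univ i), hi₁ i (Finset.mem_univ i)⟩) s le_rfl le_rfl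
    x (U4_sub D I' hI x x.2)
  calc ‖G x‖ * ‖Dif w Finset.univ (D.fs t s) x‖
      ≤ |CG| * (C * D.sz x ^ (-(U4_e m (Fintype.card ι) s.re))) :=
        mul_le_mul ((hCG x).trans (le_abs_self _)) h2 (norm_nonneg _) (abs_nonneg _)
    _ = _ := by ring

theorem U4_Qpos (D : Ctx K m) (t : Fin (m + 1) → ℝ) (ht : ∀ i, 0 < t i) (x : 𝓞 K)
    (hx : x ≠ 0) : 0 < D.Q t x := by
  unfold Ctx.Q
  refine Finset.sum_pos (fun i _ => ?_) ⟨0, Finset.mem_univ 0⟩
  refine mul_pos (ht i) (pow_pos ?_ 2)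
  rw [norm_pos_iff, Ne, map_eq_zero]
  intro h
  exact hx (RingOfIntegers.coe_injective (h.trans (map_zero (algebraMap (𝓞 K) K)).symm))

theorem U4_tt_pos (lm : Fin (m + 1) → Fin m → ℝ) (z : Fin m → ℝ) (i : Fin (m + 1)) :
    0 < tt lm z i := Real.exp_pos _

theorem U4_tt_cont (lm : Fin (m + 1) → Fin m → ℝ) (i : Fin (m + 1)) :
    Continuous fun z => tt lm z i := by
  unfold tt
  fun_prop

theorem U4_Q_cont (D : Ctx K m) (lm : Fin (m + 1) → Fin m → ℝ) (x : 𝓞 K) :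
    Continuous fun z => D.Q (tt lm z) x := by
  unfold Ctx.Q
  exact continuous_finsetSum _ fun i _ => (U4_tt_cont lm i).mul continuous_const

/-- The values of tt on the cube. -/
theorem U4_tt_bd (lm : Fin (m + 1) → Fin m → ℝ) : ∃ a b : ℝ, 0 < a ∧
    ∀ z ∈ Set.Icc (0 : Fin m → ℝ) 1, ∀ i, a ≤ tt lm z i ∧ tt lm z i ≤ b := by
  refine ⟨Real.exp (-(∑ i, ∑ j, |lm i j|)), Real.exp (∑ i, ∑ j, |lm i j|), Real.exp_pos _, ?_⟩
  intro z hz i
  have h1 : |∑ j, z j * lm i j| ≤ ∑ i, ∑ j, |lm i j| := by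
    refine (Finset.abs_sum_le_sum_abs _ _).trans ?_
    refine le_trans (Finset.sum_le_sum (g := fun j => |lm i j|) fun j _ => ?_)
      (Finset.single_le_sum (f := fun i => ∑ j, |lm i j|)
        (fun i _ => Finset.sum_nonneg fun j _ => abs_nonneg _) (Finset.mem_univ i))
    rw [abs_mul]
    have h2 : |z j| ≤ 1 := by
      rw [abs_of_nonneg (hz.1 j)]
      exact hz.2 j
    exact mul_le_of_le_one_left (abs_nonneg _) h2
  obtain ⟨h3, h4⟩ := abs_le.1 h1
  exact ⟨Real.exp_le_exp.2 h3, Real.exp_le_exp.2 h4⟩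

theorem U4_fs_cont (D : Ctx K m) (lm : Fin (m + 1) → Fin m → ℝ) (x : 𝓞 K) (hx : x ≠ 0) (s : ℂ) :
    Continuous fun z => D.fs (tt lm z) s x := by
  unfold Ctx.fs
  refine continuous_const.mul ?_
  refine Continuous.cpow (Complex.continuous_ofReal.comp (U4_Q_cont D lm x)) continuous_const ?_
  intro z
  exact Complex.ofReal_mem_slitPlane.2 (U4_Qpos D _ (U4_tt_pos lm z) x hx)

theorem U4_diff_int (Q : (Fin m → ℝ) → ℝ) (hQ : Continuous Q) (hpos : ∀ z, 0 < Q z) (n : ℂ)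
    (S : Set (Fin m → ℝ)) (hS : IsCompact S) :
    Differentiable ℂ fun s : ℂ => ∫ z in S, (Q z : ℂ) ^ (-(n * s)) := by
  intro s₀
  have hQc : Continuous fun z => (Q z : ℂ) := Complex.continuous_ofReal.comp hQ
  have hslit : ∀ z, (Q z : ℂ) ∈ Complex.slitPlane := fun z =>
    Complex.ofReal_mem_slitPlane.2 (hpos z)
  have hcF : ∀ s : ℂ, Continuous fun z => (Q z : ℂ) ^ (-(n * s)) := fun s =>
    Continuous.cpow hQc continuous_const hslit
  have hcF' : ∀ s : ℂ, Continuous fun z => (Q z : ℂ) ^ (-(n * s)) * Complex.log (Q z) * (-n) :=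
    fun s => ((hcF s).mul (hQc.clog hslit)).mul continuous_const
  have hjoint : Continuous fun p : ℂ × (Fin m → ℝ) =>
      (Q p.2 : ℂ) ^ (-(n * p.1)) * Complex.log (Q p.2) * (-n) := by
    have h1 : Continuous fun p : ℂ × (Fin m → ℝ) => (Q p.2 : ℂ) := hQc.comp continuous_snd
    have h2 : ∀ p : ℂ × (Fin m → ℝ), (Q p.2 : ℂ) ∈ Complex.slitPlane := fun p => hslit p.2
    refine (Continuous.mul (Continuous.cpow h1 (by fun_prop) h2) (h1.clog h2)).mul continuous_const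
  obtain ⟨B, hB⟩ := ((isCompact_closedBall s₀ 1).prod hS).exists_bound_of_continuousOn
    hjoint.continuousOn
  have hfin : IsFiniteMeasure (volume.restrict S) :=
    ⟨by rw [Measure.restrict_apply_univ]; exact hS.measure_lt_top⟩
  have hmS : ∀ᵐ z ∂(volume.restrict S), z ∈ S := ae_restrict_mem hS.measurableSet
  have key := hasDerivAt_integral_of_dominated_loc_of_deriv_le (μ := volume.restrict S)
    (F := fun s z => (Q z : ℂ) ^ (-(n * s)))
    (F' := fun s z => (Q z : ℂ) ^ (-(n * s)) * Complex.log (Q z) * (-n))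
    (bound := fun _ => B) (x₀ := s₀) (Metric.closedBall_mem_nhds s₀ one_pos)
    (Filter.Eventually.of_forall fun s => (hcF s).aestronglyMeasurable)
    ((hcF s₀).continuousOn.integrableOn_compact hS)
    (hcF' s₀).aestronglyMeasurable
    (by
      filter_upwards [hmS] with z hz
      intro s hs
      exact hB (s, z) ⟨hs, hz⟩)
    (integrable_const B)
    (by
      filter_upwards with z
      intro s _
      have h1 : HasDerivAt (fun s : ℂ => -(n * s)) (-n) s := by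
        have h2 := ((hasDerivAt_id s).const_mul n).neg
        rw [mul_one] at h2
        exact h2
      exact h1.const_cpow (Or.inl (by
        rw [Ne, Complex.ofReal_eq_zero]
        exact (hpos z).ne')))
  exact key.2.differentiableAt

theorem U4_cube : IsCompact (Set.Icc (0 : Fin m → ℝ) 1) := isCompact_Icc

omit [DecidableEq ι] in
/-- Each term is holomorphic. -/
theorem U4_term_diff (D : Ctx K m) (w : ι → 𝓞 K) (lm : Fin (m + 1) → Fin m → ℝ) (x : 𝓞 K)
    (hx : ∀ T : Finset ι, x - ∑ i ∈ T, w i ≠ 0) :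
    Differentiable ℂ fun s : ℂ => ∫ z in Set.Icc (0 : Fin m → ℝ) 1,
      Dif w Finset.univ (D.fs (tt lm z) s) x := by
  have h1 : (fun s : ℂ => ∫ z in Set.Icc (0 : Fin m → ℝ) 1,
      Dif w Finset.univ (D.fs (tt lm z) s) x) = fun s : ℂ =>
      ∑ T ∈ (Finset.univ : Finset ι).powerset, (-1) ^ T.card *
        ((starRingEnd ℂ) (D.N (x - ∑ i ∈ T, w i)) * ∫ z in Set.Icc (0 : Fin m → ℝ) 1,
          (D.Q (tt lm z) (x - ∑ i ∈ T, w i) : ℂ) ^ (-(((m + 1 : ℕ) : ℂ) * s))) := by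
    funext s
    unfold Dif
    rw [integral_finsetSum]
    · refine Finset.sum_congr rfl fun T _ => ?_
      rw [integral_const_mul]
      congr 1
      unfold Ctx.fs
      rw [integral_const_mul]
    · intro T _
      exact ((U4_fs_cont D lm _ (hx T) s).continuousOn.integrableOn_compact U4_cube).const_mul _
  rw [h1]
  refine Differentiable.fun_sum fun T _ => ?_
  refine (differentiable_const _).mul ((differentiable_const _).mul ?_)
  exact U4_diff_int _ (U4_Q_cont D lm _) (fun z => U4_Qpos D _ (U4_tt_pos lm z) _ (hx T)) _ _ U4_cube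

omit [DecidableEq ι] in
theorem U4_Dif_cont (D : Ctx K m) (w : ι → 𝓞 K) (lm : Fin (m + 1) → Fin m → ℝ) (x : 𝓞 K)
    (hx : ∀ T : Finset ι, x - ∑ i ∈ T, w i ≠ 0) (s : ℂ) :
    Continuous fun z => Dif w Finset.univ (D.fs (tt lm z) s) x := by
  unfold Dif
  exact continuous_finsetSum _ fun T _ => continuous_const.mul (U4_fs_cont D lm _ (hx T) s)

theorem U4_countable (D : Ctx K m) (hE : Emb D.σ) : Countable (𝓞 K) := by
  have h := (sum_sz D hE (2 * (m + 1) + 1) (by linarith)).countable_support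
  have h2 : Function.support (fun x : 𝓞 K => D.sz x ^ (-(2 * (m + 1) + 1 : ℝ))) = Set.univ := by
    ext x
    simp only [Function.mem_support, Set.mem_univ, iff_true]
    exact (Real.rpow_pos_of_pos (D.sz_pos x) _).ne'
  rw [h2] at h
  exact Set.countable_univ_iff.1 h

theorem cont_analytic (D : Ctx K m) (hE : Emb D.σ) (I' : Ideal (𝓞 K)) (hI : D.I ≤ I')
    (h0 : D.c₀ ∉ I') (w : ι → 𝓞 K) (hw : ∀ i, w i ∈ I') (hι : Fintype.card ι ≤ 2 * (m + 1))
    (G : 𝓞 K → ℂ) (hG : ∃ C : ℝ, ∀ x, ‖G x‖ ≤ C) (lm : Fin (m + 1) → Fin m → ℝ) :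
    AnalyticOnNhd ℂ (fun s => ∫ z in Set.Icc (0 : Fin m → ℝ) 1,
      ∑' x : D.X, G x * Dif w Finset.univ (D.fs (tt lm z) s) x)
      {s | 3 / 2 - (Fintype.card ι : ℝ) / (2 * (m + 1)) < s.re} := by
  obtain ⟨CG, hCG⟩ := hG
  obtain ⟨a, b, ha, hab⟩ := U4_tt_bd lm
  have hcount := U4_countable D hE
  have hstab : ∀ x ∈ XS I' D.c₀, ∀ T : Finset ι, x - ∑ i ∈ T, w i ≠ 0 := by
    intro x hx T h
    have h1 : x - D.c₀ ∈ I' := hx
    have h2 : ∑ i ∈ T, w i ∈ I' := I'.sum_mem fun i _ => hw i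
    have h3 : D.c₀ = ∑ i ∈ T, w i - (x - D.c₀) := by
      rw [sub_eq_zero] at h
      rw [← h]
      ring
    exact h0 (h3 ▸ I'.sub_mem h2 h1)
  have hopen : IsOpen {s : ℂ | 3 / 2 - (Fintype.card ι : ℝ) / (2 * (m + 1)) < s.re} :=
    isOpen_lt continuous_const Complex.continuous_re
  refine DifferentiableOn.analyticOnNhd ?_ hopen
  intro s₀ hs₀
  have hs₀' : 3 / 2 - (Fintype.card ι : ℝ) / (2 * (m + 1)) < s₀.re := hs₀
  obtain ⟨r, hr1, hr2⟩ := exists_between hs₀'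
  have hr0 : 0 < r := U4_pos _ hι _ hr1
  obtain ⟨C, hC0, hC⟩ := U4_bound D hE I' h0 w hw a b ha r (‖s₀‖ + 1) hr0
  have hUopen : IsOpen ({s : ℂ | r < s.re} ∩ Metric.ball (0 : ℂ) (‖s₀‖ + 1)) :=
    (isOpen_lt continuous_const Complex.continuous_re).inter Metric.isOpen_ball
  have hmem : s₀ ∈ ({s : ℂ | r < s.re} ∩ Metric.ball (0 : ℂ) (‖s₀‖ + 1)) :=
    ⟨hr2, by rw [mem_ball_zero_iff]; linarith⟩
  have hUprop : ∀ s ∈ ({s : ℂ | r < s.re} ∩ Metric.ball (0 : ℂ) (‖s₀‖ + 1)),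
      r ≤ s.re ∧ ‖s‖ ≤ ‖s₀‖ + 1 := by
    intro s hs
    refine ⟨le_of_lt hs.1, ?_⟩
    have h1 := hs.2
    rw [mem_ball_zero_iff] at h1
    exact h1.le
  have hsum := (U4_sum D hE (Fintype.card ι) r hr1).mul_left (|CG| * C)
  have hterm : ∀ s ∈ ({s : ℂ | r < s.re} ∩ Metric.ball (0 : ℂ) (‖s₀‖ + 1)),
      ∀ z ∈ Set.Icc (0 : Fin m → ℝ) 1, ∀ x : D.X,
      ‖G x * Dif w Finset.univ (D.fs (tt lm z) s) x‖ ≤
        |CG| * C * D.sz x ^ (-(U4_e m (Fintype.card ι) r)) := by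
    intro s hs z hz x
    obtain ⟨h1, h2⟩ := hUprop s hs
    rw [norm_mul]
    calc ‖G x‖ * ‖Dif w Finset.univ (D.fs (tt lm z) s) x‖
        ≤ |CG| * (C * D.sz x ^ (-(U4_e m (Fintype.card ι) r))) :=
          mul_le_mul ((hCG x).trans (le_abs_self _))
            (hC (tt lm z) (hab z hz) s h1 h2 x (U4_sub D I' hI x x.2)) (norm_nonneg _)
            (abs_nonneg _)
      _ = _ := by ring
  have hvol : (volume (Set.Icc (0 : Fin m → ℝ) 1)) = 1 := by
    rw [Real.volume_Icc_pi]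
    simp
  have hvolr : volume.real (Set.Icc (0 : Fin m → ℝ) 1) = 1 := by
    rw [Measure.real, hvol, ENNReal.toReal_one]
  have hint : ∀ s : ℂ, ∀ x : D.X, IntegrableOn
      (fun z => G x * Dif w Finset.univ (D.fs (tt lm z) s) x) (Set.Icc (0 : Fin m → ℝ) 1) := by
    intro s x
    exact ((U4_Dif_cont D w lm x.1 (hstab x.1 (U4_sub D I' hI x x.2)) s).continuousOn.integrableOn_compact
      U4_cube).const_mul _
  -- the exchange of the sum and the integral
  have hex : ∀ s ∈ ({s : ℂ | r < s.re} ∩ Metric.ball (0 : ℂ) (‖s₀‖ + 1)),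
      (∫ z in Set.Icc (0 : Fin m → ℝ) 1,
        ∑' x : D.X, G x * Dif w Finset.univ (D.fs (tt lm z) s) x) =
      ∑' x : D.X, ∫ z in Set.Icc (0 : Fin m → ℝ) 1,
        G x * Dif w Finset.univ (D.fs (tt lm z) s) x := by
    intro s hs
    refine (hasSum_integral_of_summable_integral_norm (fun x : D.X => hint s x) ?_).tsum_eq.symm
    refine Summable.of_nonneg_of_le (fun x => integral_nonneg fun z => norm_nonneg _)
      (fun x => ?_) hsum
    have h1 : (∫ z in Set.Icc (0 : Fin m → ℝ) 1,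
        ‖G x * Dif w Finset.univ (D.fs (tt lm z) s) x‖) ≤
        ∫ _z in Set.Icc (0 : Fin m → ℝ) 1,
          |CG| * C * D.sz x ^ (-(U4_e m (Fintype.card ι) r)) := by
      refine setIntegral_mono_on (hint s x).norm ?_ measurableSet_Icc
        fun z hz => hterm s hs z hz x
      exact continuousOn_const.integrableOn_compact U4_cube
    rw [setIntegral_const, hvolr, one_smul] at h1
    exact h1
  have hdiff : DifferentiableOn ℂ (fun s => ∑' x : D.X, ∫ z in Set.Icc (0 : Fin m → ℝ) 1,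
        G x * Dif w Finset.univ (D.fs (tt lm z) s) x)
      ({s : ℂ | r < s.re} ∩ Metric.ball (0 : ℂ) (‖s₀‖ + 1)) := by
    refine Complex.differentiableOn_tsum_of_summable_norm hsum ?_ hUopen ?_
    · intro x
      have h1 : (fun s : ℂ => ∫ z in Set.Icc (0 : Fin m → ℝ) 1,
          G x * Dif w Finset.univ (D.fs (tt lm z) s) x) = fun s : ℂ =>
          G x * ∫ z in Set.Icc (0 : Fin m → ℝ) 1, Dif w Finset.univ (D.fs (tt lm z) s) x := by
        funext s
        rw [integral_const_mul]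
      rw [h1]
      exact ((U4_term_diff D w lm x.1 (hstab x.1 (U4_sub D I' hI x x.2))).const_mul _).differentiableOn
    · intro x s hs
      have h1 := norm_setIntegral_le_of_norm_le_const (μ := volume)
        (s := Set.Icc (0 : Fin m → ℝ) 1)
        (f := fun z => G x * Dif w Finset.univ (D.fs (tt lm z) s) x)
        (C := |CG| * C * D.sz x ^ (-(U4_e m (Fintype.card ι) r)))
        (by rw [hvol]; exact ENNReal.one_lt_top) (fun z hz => hterm s hs z hz x)
      rw [hvolr, mul_one] at h1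
      exact h1
  have hdiff2 : DifferentiableOn ℂ (fun s => ∫ z in Set.Icc (0 : Fin m → ℝ) 1,
        ∑' x : D.X, G x * Dif w Finset.univ (D.fs (tt lm z) s) x)
      ({s : ℂ | r < s.re} ∩ Metric.ball (0 : ℂ) (‖s₀‖ + 1)) :=
    hdiff.congr fun s hs => hex s hs
  exact (hdiff2.differentiableAt (hUopen.mem_nhds hmem)).differentiableWithinAt

end H55N
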