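import Mathlib
import Pool.Agent.Lib.H55B.A0
import Pool.Agent.Lib.H55N.U3
import Pool.Agent.Lib.H55N.U4

open NumberField IsDedekindDomain MeasureTheory

namespace H55N

open H55B H55C

variable {K : Type} [Field K] [NumberField K] [Algebra F K] {m : ℕ}

/-! Chunk U5 (M). The smoothed partial zeta function. n = m+1, lm = D.lm u, Delta <> 0, lm_sum.
V(s) = int_cube sum_X G Dif(fs (tt lm z) s), analytic on Re s > 3/2 - 2n/(2n) = 1/2 (cont_analytic with ι = Fin n x Fin 2, I' = D.I). For Re s > 3/2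
GSpec and fs_summable give sum_X g fs = sum_X G Dif fs, so V(s) = cst(s) sum_T g nf (unfold; g(u^z x) = g(x): a unit times x is in c_i iff x is). By cst_eq
cst(s)^(-1) = |Delta| Gamma(ns)/Gamma(s)^n, so Z(s) := V(s) |Delta| Gamma(ns) / Gamma(s)^n, analytic on Re s > 1/2 (Gamma is analytic there, nonzero).
At s = 1: Gamma(n) = m!, Gamma(1) = 1, and fs t 1 x = conj N(x)/Q_t(x)^n for every x (cpow with exponent -(n : natural)), so
sum_X G Dif (fs t 1) = Bv w G (fun _ => t). -/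

/-- The gamma factors. -/
theorem U5_gam (D : Ctx K m) (u : Fin m → (𝓞 K)ˣ) (hu : D.UOk u) (V : ℂ → ℂ) (r : ℝ) (hr : 0 ≤ r)
    (hV : AnalyticOnNhd ℂ V {s | r < s.re}) : AnalyticOnNhd ℂ (fun s => V s *
      ((|Delta (D.lm u)| : ℝ) : ℂ) * Complex.Gamma ((m + 1 : ℕ) * s) / Complex.Gamma s ^ (m + 1))
      {s | r < s.re} ∧
    ∀ s : ℂ, 0 < s.re → ∀ S : ℂ, S * cst (D.lm u) s = V s → V s *
      ((|Delta (D.lm u)| : ℝ) : ℂ) * Complex.Gamma ((m + 1 : ℕ) * s) / Complex.Gamma s ^ (m + 1) =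
        S := by
  have hopen : IsOpen {s : ℂ | r < s.re} := isOpen_lt continuous_const Complex.continuous_re
  have hpos : ∀ s : ℂ, r < s.re → 0 < s.re := fun s hs => lt_of_le_of_lt hr hs
  have hne : ∀ s : ℂ, 0 < s.re → ∀ k : ℕ, s ≠ -(k : ℂ) := by
    intro s hs k hk
    rw [hk] at hs
    simp only [Complex.neg_re, Complex.natCast_re] at hs
    have : (0 : ℝ) ≤ k := Nat.cast_nonneg k
    linarith
  have hG : AnalyticOnNhd ℂ Complex.Gamma {s | r < s.re} := by
    apply DifferentiableOn.analyticOnNhd _ hopen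
    intro s hs
    exact (Complex.differentiableAt_Gamma s (hne s (hpos s hs))).differentiableWithinAt
  have hG2 : AnalyticOnNhd ℂ (fun s => Complex.Gamma ((m + 1 : ℕ) * s)) {s | r < s.re} := by
    apply DifferentiableOn.analyticOnNhd _ hopen
    intro s hs
    have h1 : 0 < (((m + 1 : ℕ) : ℂ) * s).re := by
      rw [← Complex.ofReal_natCast, Complex.re_ofReal_mul]
      have := hpos s hs
      positivity
    have h2 := Complex.differentiableAt_Gamma _ (hne _ h1)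
    exact (h2.comp s ((differentiableAt_const _).mul differentiableAt_id)).differentiableWithinAt
  constructor
  · exact ((hV.mul analyticOnNhd_const).mul hG2).div (hG.pow _) fun s hs =>
      pow_ne_zero _ (Complex.Gamma_ne_zero_of_re_pos (hpos s hs))
  · intro s hs S hS
    have h1 := cst_eq (D.lm u) (lm_sum D u hu) hu.reg s hs
    have h2 : Complex.Gamma s ^ (m + 1) ≠ 0 :=
      pow_ne_zero _ (Complex.Gamma_ne_zero_of_re_pos hs)
    rw [div_eq_iff h2, ← h1, ← hS]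
    ring

theorem U5_fs_one (D : Ctx K m) (t : Fin (m + 1) → ℝ) (x : 𝓞 K) :
    D.fs t 1 x = (starRingEnd ℂ) (D.N x) / ∏ _j : Fin (m + 1), (D.Q t x : ℂ) := by
  unfold Ctx.fs
  rw [mul_one, Complex.cpow_neg, Complex.cpow_natCast, Finset.prod_const, Finset.card_univ,
    Fintype.card_fin, div_eq_mul_inv]

theorem U5_om (D : Ctx K m) (hE : Emb D.σ) (x : 𝓞 K) (i : Fin (m + 1)) :
    D.σ i ((algebraMap O (𝓞 K) om * x : 𝓞 K) : K) = e om * D.σ i x := by
  have h1 : ((algebraMap O (𝓞 K) om * x : 𝓞 K) : K) =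
      (algebraMap (𝓞 K) K (algebraMap O (𝓞 K) om)) * (x : K) := map_mul _ _ _
  rw [h1, map_mul, ← IsScalarTower.algebraMap_apply O (𝓞 K) K,
    IsScalarTower.algebraMap_apply O F K, hE.ovr]
  rfl

theorem U5_fs_om (D : Ctx K m) (hE : Emb D.σ) (t : Fin (m + 1) → ℝ) (s : ℂ) (x : 𝓞 K) :
    D.fs t s (algebraMap O (𝓞 K) om * x) =
      (starRingEnd ℂ) (e om) ^ (m + 1) * D.fs t s x := by
  have hN : D.N (algebraMap O (𝓞 K) om * x) = e om ^ (m + 1) * D.N x := by
    unfold Ctx.N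
    rw [Finset.prod_congr rfl fun i _ => U5_om D hE x i, Finset.prod_mul_distrib,
      Finset.prod_const, Finset.card_univ, Fintype.card_fin]
  have hQ : D.Q t (algebraMap O (𝓞 K) om * x) = D.Q t x := by
    unfold Ctx.Q
    refine Finset.sum_congr rfl fun i _ => ?_
    rw [U5_om D hE x i, norm_mul, norm_e_om, one_mul]
  unfold Ctx.fs
  rw [hN, hQ, map_mul, map_pow, mul_assoc]

theorem zfun (D : Ctx K m) (hD : D.Ok) (u : Fin m → (𝓞 K)ˣ) (hu : D.UOk u)
    (A : Fin (m + 1) → K) (w : Fin (m + 1) × Fin 2 → 𝓞 K) (hdir : D.Dirs A w) (G : 𝓞 K → ℂ)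
    (hG : D.GSpec w G) : ∃ Z : ℂ → ℂ, AnalyticOnNhd ℂ Z {s | 1 / 2 < s.re} ∧
      (∀ T : Set (𝓞 K), T ⊆ D.X →
        (∀ x ∈ D.X, ∃! q : (Fin m → ℤ) × T, x = (uu u q.1 : 𝓞 K) * q.2) →
        ∀ s : ℂ, 3 / 2 < s.re → HasSum (fun x : T => D.g x * nf s (x : 𝓞 K)) (Z s)) ∧
      Z 1 = (m.factorial : ℂ) * ((|Delta (D.lm u)| : ℝ) : ℂ) *
        ∫ z in Set.Icc (0 : Fin m → ℝ) 1, D.Bv w G (fun _ => tt (D.lm u) z) := by
  set V : ℂ → ℂ := fun s => ∫ z in Set.Icc (0 : Fin m → ℝ) 1,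
      ∑' x : D.X, G x * Dif w Finset.univ (D.fs (tt (D.lm u) z) s) x with hVdef
  have hcard : Fintype.card (Fin (m + 1) × Fin 2) = 2 * (m + 1) := by
    rw [Fintype.card_prod, Fintype.card_fin, Fintype.card_fin, mul_comm]
  have hreg : 3 / 2 - (Fintype.card (Fin (m + 1) × Fin 2) : ℝ) / (2 * (m + 1)) = 1 / 2 := by
    rw [hcard]
    push_cast
    field_simp
    norm_num
  have hV : AnalyticOnNhd ℂ V {s | 1 / 2 < s.re} := by
    have h := cont_analytic D hD.emb D.I le_rfl hD.ne w hdir.mem hcard.le G hG.1 (D.lm u)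
    rw [hreg] at h
    exact h
  obtain ⟨hA1, hA2⟩ := U5_gam D u hu V (1 / 2) (by norm_num) hV
  refine ⟨_, hA1, ?_, ?_⟩
  · intro T hT hbij s hs
    obtain ⟨h1, h2⟩ := unfold D hD.emb hD.ne u hu D.g (g_bdd D)
      (fun x _ z => R5_g D (uu u z) x) T hT hbij s hs
    have h3 : (∑' x : T, D.g x * nf s (x : 𝓞 K)) * cst (D.lm u) s = V s := by
      rw [h2]
      refine integral_congr_ae (Filter.Eventually.of_forall fun z => ?_)
      exact hG.2 _ (fs_summable D hD.emb hD.ne _ (fun i => Real.exp_pos _) s hs)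
    have h4 := hA2 s (by linarith) _ h3
    rw [h4]
    exact h1.of_norm.hasSum
  · have h1 : V 1 = ∫ z in Set.Icc (0 : Fin m → ℝ) 1, D.Bv w G (fun _ => tt (D.lm u) z) := by
      refine integral_congr_ae (Filter.Eventually.of_forall fun z => ?_)
      show ∑' x : D.X, _ = ∑' x : D.X, _
      refine tsum_congr fun x => ?_
      congr 2
      funext y
      exact U5_fs_one D _ y
    show V 1 * _ * _ / _ = _
    rw [h1, mul_one, Complex.Gamma_one, one_pow, div_one]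
    have h2 : Complex.Gamma ((m + 1 : ℕ) : ℂ) = (m.factorial : ℂ) := by
      have := Complex.Gamma_nat_eq_factorial m
      rw [← this]
      push_cast
      rfl
    rw [h2]
    ring

/-- The unsmoothed version: I' is an ideal containing I and (1 - om) c₀, not containing c₀, 3 does not divide m+1.
PROOF. η := e om, E(t,s) := sum_{x in X} fs t s x for Re s > 3/2. Let w0 = (1 - om) c₀ (ι = Unit, Dif w univ h x = h x - h (x - w0)). x -> x - w0 is a
bijection of X = c₀ + I onto om c₀ + I = om X (om a unit), so sum_{x in X} fs(x - w0) = sum_{x in X} fs(om x) = conj(η)^n sum_X fs: N(om x) = η^n N(x), Q_t(om x) = Q_t(x).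
Hence sum_X Dif(fs) = (1 - conj(η)^n) sum_X fs, and conj(η)^n <> 1 because η has order 3 and 3 does not divide n. With G = 1: V(s) = int_cube sum_X Dif fs is
analytic on Re s > 3/2 - 1/(2n) (cont_analytic, card ι = 1) and equals (1 - conj(η)^n) cst(s) sum_T nf for Re s > 3/2 (unfold with g = 1). Divide. -/
theorem zfun_one (D : Ctx K m) (hE : Emb D.σ) (h0 : D.c₀ ∉ D.I) (h3 : ¬ 3 ∣ m + 1)
    (u : Fin m → (𝓞 K)ˣ) (hu : D.UOk u) (I' : Ideal (𝓞 K)) (hI : D.I ≤ I') (h1 : D.c₀ ∉ I')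
    (h2 : algebraMap O (𝓞 K) lam * D.c₀ ∈ I') :
    ∃ Z : ℂ → ℂ, AnalyticOnNhd ℂ Z {s | 3 / 2 - 1 / (2 * (m + 1)) < s.re} ∧
      ∀ T : Set (𝓞 K), T ⊆ D.X →
        (∀ x ∈ D.X, ∃! q : (Fin m → ℤ) × T, x = (uu u q.1 : 𝓞 K) * q.2) →
        ∀ s : ℂ, 3 / 2 < s.re → HasSum (fun x : T => nf s (x : 𝓞 K)) (Z s) := by
  set ω : 𝓞 K := algebraMap O (𝓞 K) om with hω
  have hω1 : ω ^ 2 + ω + 1 = 0 := by
    have h := congrArg (algebraMap O (𝓞 K)) om_rel
    rw [map_add, map_add, map_pow, map_one, map_zero] at h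
    exact h
  have hω3 : ω ^ 3 = 1 := by linear_combination (ω - 1) * hω1
  set w : Unit → 𝓞 K := fun _ => (1 - ω) * D.c₀ with hw
  have hlam : algebraMap O (𝓞 K) lam = ω - 1 := by
    unfold lam
    rw [map_sub, map_one]
  have hwI : ∀ i, w i ∈ I' := by
    intro i
    have : w i = -(algebraMap O (𝓞 K) lam * D.c₀) := by
      rw [hlam, hw]
      ring
    rw [this]
    exact I'.neg_mem_iff.2 h2
  set κ : ℂ := 1 - (starRingEnd ℂ) (e om) ^ (m + 1) with hκ
  have hκ0 : κ ≠ 0 := by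
    intro h
    have h4 : (starRingEnd ℂ) (e om) ^ (m + 1) = 1 := (sub_eq_zero.1 h).symm
    have h5 : e om ^ (m + 1) = 1 := by
      rw [← map_pow] at h4
      have h6 := congrArg (starRingEnd ℂ) h4
      rwa [Complex.conj_conj, map_one] at h6
    have h6 : e om ^ 3 = 1 := A0_om_cube
    have h7 : e om ≠ 1 := by
      intro h8
      have h9 := e_om_rel
      rw [h8] at h9
      norm_num at h9
    have h8 := orderOf_eq_prime h6 h7
    have h9 := orderOf_dvd_of_pow_eq_one h5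
    rw [h8] at h9
    exact h3 h9
  set V : ℂ → ℂ := fun s => ∫ z in Set.Icc (0 : Fin m → ℝ) 1,
      ∑' x : D.X, (1 : ℂ) * Dif w Finset.univ (D.fs (tt (D.lm u) z) s) x with hVdef
  have hV : AnalyticOnNhd ℂ V {s | 3 / 2 - 1 / (2 * (m + 1)) < s.re} := by
    have h := cont_analytic D hE I' hI h1 w hwI (by simp; omega) (fun _ => 1)
      ⟨1, fun _ => by simp⟩ (D.lm u)
    rw [Fintype.card_unit, Nat.cast_one] at h
    exact h
  have hr : (0 : ℝ) ≤ 3 / 2 - 1 / (2 * (m + 1)) := by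
    have h4 : (1 : ℝ) / (2 * (m + 1)) ≤ 1 / 2 := by
      rw [div_le_div_iff₀ (by positivity) (by norm_num)]
      have : (0 : ℝ) ≤ m := Nat.cast_nonneg m
      linarith
    linarith
  obtain ⟨hA1, hA2⟩ := U5_gam D u hu (fun s => V s * κ⁻¹) _ hr (hV.mul analyticOnNhd_const)
  refine ⟨_, hA1, ?_⟩
  intro T hT hbij s hs
  obtain ⟨h4, h5⟩ := unfold D hE h0 u hu (fun _ => 1) ⟨1, fun _ => by simp⟩
    (fun x _ z => rfl) T hT hbij s hs
  have hdif : ∀ (h : 𝓞 K → ℂ) (x : 𝓞 K), Dif w Finset.univ h x = h x - h (x - (1 - ω) * D.c₀) := by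
    intro h x
    have h6 : (Finset.univ : Finset Unit) = insert () ∅ := rfl
    rw [h6, dif_insert w ∅ () (Finset.notMem_empty _), dif_empty, dif_empty]
  have hmem : ∀ x : 𝓞 K, x ∈ D.X → ω ^ 2 * (x - (1 - ω) * D.c₀) ∈ D.X := by
    intro x hx
    rw [D.mem_X] at hx ⊢
    have h6 : ω ^ 2 * (x - (1 - ω) * D.c₀) - D.c₀ = ω ^ 2 * (x - D.c₀) := by
      linear_combination (D.c₀) * hω3
    rw [h6]
    exact D.I.mul_mem_left _ hx
  have hmem2 : ∀ x : 𝓞 K, x ∈ D.X → ω * x + (1 - ω) * D.c₀ ∈ D.X := by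
    intro x hx
    rw [D.mem_X] at hx ⊢
    have h6 : ω * x + (1 - ω) * D.c₀ - D.c₀ = ω * (x - D.c₀) := by ring
    rw [h6]
    exact D.I.mul_mem_left _ hx
  let ε : D.X ≃ D.X :=
    { toFun := fun x => ⟨ω ^ 2 * ((x : 𝓞 K) - (1 - ω) * D.c₀), hmem x x.2⟩
      invFun := fun x => ⟨ω * (x : 𝓞 K) + (1 - ω) * D.c₀, hmem2 x x.2⟩
      left_inv := by
        intro x
        apply Subtype.ext
        show ω * (ω ^ 2 * ((x : 𝓞 K) - (1 - ω) * D.c₀)) + (1 - ω) * D.c₀ = x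
        linear_combination ((x : 𝓞 K) - (1 - ω) * D.c₀) * hω3
      right_inv := by
        intro x
        apply Subtype.ext
        show ω ^ 2 * (ω * (x : 𝓞 K) + (1 - ω) * D.c₀ - (1 - ω) * D.c₀) = x
        linear_combination (x : 𝓞 K) * hω3 }
  have hsum : ∀ t : Fin (m + 1) → ℝ, (∀ i, 0 < t i) →
      ∑' x : D.X, (1 : ℂ) * Dif w Finset.univ (D.fs t s) x = κ * ∑' x : D.X, D.fs t s x := by
    intro t ht
    have hsm := (fs_summable D hE h0 t ht s hs).of_norm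
    have h6 : ∀ x : D.X, D.fs t s ((x : 𝓞 K) - (1 - ω) * D.c₀) =
        (starRingEnd ℂ) (e om) ^ (m + 1) * D.fs t s (ε x : 𝓞 K) := by
      intro x
      rw [← U5_fs_om D hE]
      congr 1
      show _ = ω * (ω ^ 2 * ((x : 𝓞 K) - (1 - ω) * D.c₀))
      linear_combination (-((x : 𝓞 K) - (1 - ω) * D.c₀)) * hω3
    have h7 : Summable fun x : D.X => D.fs t s (ε x : 𝓞 K) := (ε.summable_iff).2 hsm
    have h8 : ∑' x : D.X, D.fs t s (ε x : 𝓞 K) = ∑' x : D.X, D.fs t s x :=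
      ε.tsum_eq (fun x : D.X => D.fs t s x)
    simp only [one_mul, hdif, h6]
    rw [hsm.tsum_sub (h7.mul_left _), tsum_mul_left, h8, hκ]
    ring
  have h6 : (∑' x : T, (1 : ℂ) * nf s (x : 𝓞 K)) * cst (D.lm u) s = V s * κ⁻¹ := by
    rw [h5, hVdef]
    simp only
    rw [← integral_mul_const]
    refine integral_congr_ae (Filter.Eventually.of_forall fun z => ?_)
    show ∑' x : D.X, (1 : ℂ) * D.fs (tt (D.lm u) z) s x =
      (∑' x : D.X, (1 : ℂ) * Dif w Finset.univ (D.fs (tt (D.lm u) z) s) x) * κ⁻¹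
    rw [hsum (tt (D.lm u) z) fun i => Real.exp_pos _]
    simp only [one_mul]
    field_simp
  have h7 := hA2 s (by linarith) _ h6
  rw [h7]
  have h8 := h4.of_norm.hasSum
  simp only [one_mul] at h8 ⊢
  exact h8

end H55N
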