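import Mathlib
import Pool.Agent.Lib.H55N.Defs

namespace H55N

/-- Faces of a simplex. -/
def face {V : Type} (v : ℕ → V) (j k : ℕ) : V := if k < j then v k else v (k + 1)

/-- The prism operator. -/
noncomputable def Hp {Λ V : Type} {m : ℕ} (J : (Fin (m + 1) → Λ) → ℂ) (L L' : V → Λ) (f : ℕ → V) :
    ℂ := ∑ i ∈ Finset.range m, (-1) ^ i * J fun k : Fin (m + 1) => prism L L' f i k

end H55N
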