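import Mathlib
import Pool.Agent.Lib.H55N.C0

namespace H55N

/-! Chunk C1 (M). The prism identity. Write P_i(j) = J (prism i with the entry j omitted), i = 0..m, j = 0..m+1; the entries
0..i of the prism i are L v_0, .., L v_i and the entries i+1..m+1 are L' v_i, .., L' v_m. Sum over i of (-1)^i times hcoc:
* j = i: P_i(i) = J Q_i, Q_i = (L v_0..L v_{i-1}, L' v_i..L' v_m), sign +; j = i+1: P_i(i+1) = J Q_{i+1}, sign -. The sum over i telescopes to
  J Q_0 - J Q_{m+1} = J(L' v) - J(L v).
* j < i: P_i(j) = J (prism L L' (face v j) (i-1)), sign (-1)^(i+j) = -(-1)^j (-1)^(i-1);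
* j > i+1: P_i(j) = J (prism L L' (face v (j-1)) i), sign (-1)^(i+j) = -(-1)^(j-1) (-1)^i.
For fixed j the two families give all i in range m of Hp (face v j). (Suggestion: replace the sums over Fin (m+2) by sums over range (m+2) and
j.succAbove k by: if k < j then k else k+1.) -/

/-- The index with `j` skipped. -/
def c1s (j k : ℕ) : ℕ := if k < j then k else k + 1

theorem c1_succAbove {m : ℕ} (j : Fin (m + 2)) (k : Fin (m + 1)) :
    ((j.succAbove k : Fin (m + 2)) : ℕ) = c1s j k := by
  unfold c1s Fin.succAbove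
  by_cases h : (k : ℕ) < j
  · have h' : k.castSucc < j := h
    rw [if_pos h, if_pos h']
    rfl
  · have h' : ¬ k.castSucc < j := h
    rw [if_neg h, if_neg h']
    rfl

theorem c1_lt {Λ V : Type} (L L' : V → Λ) (v : ℕ → V) (i j k : ℕ) (h : j < i) :
    prism L L' v i (c1s j k) = prism L L' (face v j) (i - 1) k := by
  unfold prism c1s face
  rcases lt_or_ge k j with h1 | h1
  · rw [if_pos h1, if_pos (by omega), if_pos (by omega), if_pos h1]
  · rw [if_neg (by omega : ¬ k < j)]
    rcases le_or_gt (k + 1) i with h2 | h2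
    · rw [if_pos h2, if_pos (by omega), if_neg (by omega)]
    · rw [if_neg (by omega), if_neg (by omega), if_neg (by omega)]
      congr 2
      omega

theorem c1_gt {Λ V : Type} (L L' : V → Λ) (v : ℕ → V) (i j k : ℕ) (h : i < j) :
    prism L L' v i (c1s (j + 1) k) = prism L L' (face v j) i k := by
  unfold prism c1s face
  rcases le_or_gt k j with h1 | h1
  · rw [if_pos (by omega : k < j + 1)]
    rcases le_or_gt k i with h2 | h2
    · rw [if_pos h2, if_pos h2, if_pos (by omega)]
    · rw [if_neg (by omega), if_neg (by omega), if_pos (by omega)]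
  · rw [if_neg (by omega : ¬ k < j + 1), if_neg (by omega), if_neg (by omega), if_neg (by omega)]
    congr 2
    omega

theorem c1_eq {Λ V : Type} (L L' : V → Λ) (v : ℕ → V) (i k : ℕ) :
    prism L L' v i (c1s i k) = if k < i then L (v k) else L' (v k) := by
  unfold prism c1s
  rcases lt_or_ge k i with h1 | h1
  · rw [if_pos h1, if_pos (by omega), if_pos h1]
  · rw [if_neg (by omega : ¬ k < i), if_neg (by omega), if_neg (by omega), Nat.add_sub_cancel]

theorem c1_eq' {Λ V : Type} (L L' : V → Λ) (v : ℕ → V) (i k : ℕ) :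
    prism L L' v i (c1s (i + 1) k) = if k < i + 1 then L (v k) else L' (v k) := by
  unfold prism c1s
  rcases lt_or_ge k (i + 1) with h1 | h1
  · rw [if_pos h1, if_pos (by omega), if_pos h1]
  · rw [if_neg (by omega : ¬ k < i + 1), if_neg (by omega), if_neg (by omega), Nat.add_sub_cancel]

theorem c1_split (f : ℕ → ℂ) (i m : ℕ) (hi : i ≤ m) :
    ∑ j ∈ Finset.range (m + 2), f j = ∑ j ∈ Finset.range i, f j + f i + f (i + 1) +
      ∑ j ∈ Finset.Ico (i + 1) (m + 1), f (j + 1) := by
  rw [Finset.sum_Ico_add' f (i + 1) (m + 1) 1, ← Finset.sum_range_succ, ← Finset.sum_range_succ,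
    Finset.sum_range_add_sum_Ico _ (by omega)]

theorem prism_id {Λ V : Type} {m : ℕ} (J : (Fin (m + 1) → Λ) → ℂ) (L L' : V → Λ) (v : ℕ → V)
    (hcoc : ∀ i ≤ m, ∑ j : Fin (m + 2), (-1) ^ (j : ℕ) *
      J (fun k : Fin (m + 1) => prism L L' v i (j.succAbove k : Fin (m + 2))) = 0) :
    J (fun k => L' (v k)) - J (fun k => L (v k)) =
      ∑ j ∈ Finset.range (m + 1), (-1) ^ j * Hp J L L' (face v j) := by
  set PP : ℕ → ℕ → ℂ := fun i j => J fun k : Fin (m + 1) => prism L L' v i (c1s j k) with hPP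
  set Q : ℕ → ℂ := fun i => J fun k : Fin (m + 1) => if (k : ℕ) < i then L (v k) else L' (v k)
    with hQ
  set R : ℕ → ℕ → ℂ := fun j i => J fun k : Fin (m + 1) => prism L L' (face v j) i k with hR
  set a : ℕ → ℕ → ℂ := fun j i => (-1) ^ j * ((-1) ^ i * R j i) with ha
  have h1 : ∀ i ≤ m, ∑ j ∈ Finset.range (m + 2), (-1) ^ j * PP i j = 0 := by
    intro i hi
    rw [← hcoc i hi, ← Fin.sum_univ_eq_sum_range (fun j => (-1 : ℂ) ^ j * PP i j) (m + 2)]
    refine Finset.sum_congr rfl fun j _ => ?_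
    simp only [hPP, c1_succAbove]
  have h2 : ∀ i ≤ m, Q i - Q (i + 1) - ∑ j ∈ Finset.range i, a j (i - 1) -
      ∑ j ∈ Finset.Ico (i + 1) (m + 1), a j i = 0 := by
    intro i hi
    have h3 := h1 i hi
    rw [c1_split _ i m hi] at h3
    have e1 : (-1 : ℂ) ^ i * ((-1) ^ i * PP i i) = Q i := by
      rw [← mul_assoc, ← pow_add, ← two_mul, pow_mul]
      simp only [hPP, hQ, c1_eq]
      norm_num
    have e2 : (-1 : ℂ) ^ i * ((-1) ^ (i + 1) * PP i (i + 1)) = - Q (i + 1) := by
      rw [← mul_assoc, ← pow_add, ← add_assoc, pow_succ, ← two_mul, pow_mul]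
      simp only [hPP, hQ, c1_eq']
      norm_num
    have e3 : (-1 : ℂ) ^ i * ∑ j ∈ Finset.range i, (-1) ^ j * PP i j =
        - ∑ j ∈ Finset.range i, a j (i - 1) := by
      rw [Finset.mul_sum, ← Finset.sum_neg_distrib]
      refine Finset.sum_congr rfl fun j hj => ?_
      rw [Finset.mem_range] at hj
      have : PP i j = R j (i - 1) := by
        simp only [hPP, hR, c1_lt L L' v i j _ hj]
      rw [this]
      simp only [ha]
      obtain ⟨i', rfl⟩ : ∃ i', i = i' + 1 := ⟨i - 1, by omega⟩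
      rw [Nat.add_sub_cancel, pow_succ]
      ring
    have e4 : (-1 : ℂ) ^ i * ∑ j ∈ Finset.Ico (i + 1) (m + 1), (-1) ^ (j + 1) * PP i (j + 1) =
        - ∑ j ∈ Finset.Ico (i + 1) (m + 1), a j i := by
      rw [Finset.mul_sum, ← Finset.sum_neg_distrib]
      refine Finset.sum_congr rfl fun j hj => ?_
      rw [Finset.mem_Ico] at hj
      have : PP i (j + 1) = R j i := by
        simp only [hPP, hR, c1_gt L L' v i j _ (by omega : i < j)]
      rw [this]
      simp only [ha]
      rw [pow_succ]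
      ring
    have h4 := congrArg (fun x : ℂ => (-1) ^ i * x) h3
    simp only [mul_add, mul_zero] at h4
    rw [e1, e2, e3, e4] at h4
    rw [← h4]
    ring
  have h5 : ∑ i ∈ Finset.range (m + 1), (Q i - Q (i + 1) - ∑ j ∈ Finset.range i, a j (i - 1) -
      ∑ j ∈ Finset.Ico (i + 1) (m + 1), a j i) = 0 :=
    Finset.sum_eq_zero fun i hi => h2 i (by rw [Finset.mem_range] at hi; omega)
  rw [Finset.sum_sub_distrib, Finset.sum_sub_distrib, Finset.sum_range_sub',
    Finset.sum_range_succ' (fun i => ∑ j ∈ Finset.range i, a j (i - 1)),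
    Finset.sum_range_succ (fun i => ∑ j ∈ Finset.Ico (i + 1) (m + 1), a j i),
    Finset.range_zero, Finset.sum_empty, Finset.Ico_self, Finset.sum_empty, add_zero, add_zero,
    sub_sub, ← Finset.sum_add_distrib] at h5
  have h6 : ∑ i ∈ Finset.range m, (∑ j ∈ Finset.range (i + 1), a j (i + 1 - 1) +
      ∑ j ∈ Finset.Ico (i + 1) (m + 1), a j i) =
      ∑ j ∈ Finset.range (m + 1), (-1) ^ j * Hp J L L' (face v j) := by
    have : ∀ i ∈ Finset.range m, (∑ j ∈ Finset.range (i + 1), a j (i + 1 - 1) +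
      ∑ j ∈ Finset.Ico (i + 1) (m + 1), a j i) = ∑ j ∈ Finset.range (m + 1), a j i := by
      intro i hi
      rw [Finset.mem_range] at hi
      rw [Nat.add_sub_cancel, Finset.sum_range_add_sum_Ico _ (by omega)]
    rw [Finset.sum_congr rfl this, Finset.sum_comm]
    refine Finset.sum_congr rfl fun j _ => ?_
    unfold Hp
    rw [Finset.mul_sum]
  rw [h6] at h5
  have e5 : Q 0 = J fun k => L' (v k) := by
    simp [hQ]
  have e6 : Q (m + 1) = J fun k => L (v k) := by
    simp only [hQ]
    congr 1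
    funext k
    rw [if_pos k.2]
  rw [e5, e6] at h5
  exact sub_eq_zero.1 h5

end H55N
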