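import Mathlib
import Pool.Agent.Lib.H55N.C0

namespace H55N

/-! Chunk C2 (M/L). Cancellation of the faces of the Kuhn triangulation of the torus Z^m / N Z^m.
v = kv a π: v_i = a + sum_{l<i} e_{π l} (kv a π i k = a k + 1 iff k = π l for some l < i).
* 0 < j < m: π' = π * swap (j-1) j has sign - sign π, and face (kv a π) j = face (kv a π') j (for i <= j-1: {π l : l < i} = {π' l : l < i};
  for i >= j+1 too). So the terms with j cancel for fixed a (Finset.sum_involution, or: the sum over π equals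
  minus itself by Equiv.sum_comp of right multiplication by the swap).
* j = 0 and j = m: let ρ be the rotation l -> l+1 (finRotate m), sign (finRotate m) = (-1)^(m-1); π' = π * ρ (π' l = π (l+1)), a' = a + e_{π 0}. Then
  kv a' π' i = kv a π (i+1) for i <= m-1, so face (kv a π) 0 and face (kv a' π') m agree on 0..m-1. For fixed π the function
  a -> H (face (kv a π) 0) of a in Z^m is N-periodic (hT, hH), so is φ(a) = H(face (kv a π') m), and the sum of φ over the box equals the sum of φ(a + e) over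
  the box (change of variables a -> a + e modulo N on Fin N; Finset.sum_equiv with Equiv.addRight in the group Fin N or ZMod N, coordinate π 0).
  So sum_a sum_π sgn π H(face 0) = sum_a sum_π sgn π H(face (kv a (πρ)) m) = (-1)^(m-1) sum_a sum_π' sgn π' H(face (kv a π') m), and
  the total of the terms j = 0 and j = m is ((-1)^(m-1) + (-1)^m) (...) = 0. -/

/-- inner faces -/
theorem C2_inner (m : ℕ) (H : (ℕ → Fin m → ℤ) → ℂ)
    (hH : ∀ f f' : ℕ → Fin m → ℤ, (∀ k < m, f k = f' k) → H f = H f') (a : Fin m → ℤ) (j : ℕ)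
    (hj0 : 0 < j) (hjm : j < m) :
    ∑ π : Equiv.Perm (Fin m), ((Equiv.Perm.sign π : ℤ) : ℂ) * H (face (kv a π) j) = 0 := by
  obtain ⟨x, hx⟩ : ∃ x : Fin m, (x : ℕ) = j - 1 := ⟨⟨j - 1, by omega⟩, rfl⟩
  obtain ⟨y, hy⟩ : ∃ y : Fin m, (y : ℕ) = j := ⟨⟨j, hjm⟩, rfl⟩
  have hxy : x ≠ y := by
    rintro rfl
    omega
  have h1 : ∀ π : Equiv.Perm (Fin m),
      H (face (kv a (π * Equiv.swap x y)) j) = H (face (kv a π) j) := by
    intro π
    apply hH
    intro k hk
    have h2 : ∀ i : ℕ, i ≠ j → kv a (π * Equiv.swap x y) i = kv a π i := by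
      intro i hi
      funext z
      unfold kv
      have h3 : (π * Equiv.swap x y).symm z = Equiv.swap x y (π.symm z) := by
        rw [Equiv.symm_apply_eq, Equiv.Perm.mul_apply, Equiv.swap_apply_self,
          Equiv.apply_symm_apply]
      rw [h3]
      congr 1
      obtain ⟨l, hl⟩ : ∃ l, l = π.symm z := ⟨_, rfl⟩
      rw [← hl]
      by_cases hlx : l = x
      · rw [hlx, Equiv.swap_apply_left]
        have : ((y : ℕ) < i) ↔ ((x : ℕ) < i) := by omega
        simp only [this]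
      · by_cases hly : l = y
        · rw [hly, Equiv.swap_apply_right]
          have : ((x : ℕ) < i) ↔ ((y : ℕ) < i) := by omega
          simp only [this]
        · rw [Equiv.swap_apply_of_ne_of_ne hlx hly]
    unfold face
    split_ifs with h4
    · exact h2 k (by omega)
    · exact h2 (k + 1) (by omega)
  have h2 : ∑ π : Equiv.Perm (Fin m), ((Equiv.Perm.sign π : ℤ) : ℂ) * H (face (kv a π) j) =
      -∑ π : Equiv.Perm (Fin m), ((Equiv.Perm.sign π : ℤ) : ℂ) * H (face (kv a π) j) := by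
    conv_lhs => rw [← Equiv.sum_comp (Equiv.mulRight (Equiv.swap x y))]
    rw [← Finset.sum_neg_distrib]
    apply Finset.sum_congr rfl
    intro π _
    rw [Equiv.coe_mulRight, h1, map_mul, Equiv.Perm.sign_swap hxy]
    push_cast
    ring
  have h3 : (2 : ℂ) * ∑ π : Equiv.Perm (Fin m), ((Equiv.Perm.sign π : ℤ) : ℂ) *
      H (face (kv a π) j) = 0 := by linear_combination h2
  rcases mul_eq_zero.1 h3 with h | h
  · norm_num at h
  · exact h

/-- translation of a periodic function -/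
theorem C2_shift (m : ℕ) (N : ℕ) (hN : 0 < N) (φ : (Fin m → ℤ) → ℂ)
    (hφ : ∀ b z : Fin m → ℤ, φ (b + (N : ℤ) • z) = φ b) (i : Fin m) :
    ∑ a : Fin m → Fin N, φ (fun k => ((a k : ℕ) : ℤ) + if k = i then 1 else 0) =
      ∑ a : Fin m → Fin N, φ (fun k => ((a k : ℕ) : ℤ)) := by
  have : NeZero N := ⟨hN.ne'⟩
  obtain ⟨s, hs⟩ : ∃ s : Fin m → Fin N, s = fun k => if k = i then Fin.ofNat N 1 else 0 :=
    ⟨_, rfl⟩
  conv_rhs => rw [← Equiv.sum_comp (Equiv.addRight s)]
  apply Finset.sum_congr rfl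
  intro a _
  have h1 : ∀ k, ∃ z : ℤ, ((a k : ℕ) : ℤ) + (if k = i then 1 else 0) =
      (((a + s) k : Fin N) : ℕ) + (N : ℤ) * z := by
    intro k
    have h2 : (((a + s) k : Fin N) : ℕ) = ((a k : ℕ) + (s k : ℕ)) % N := by
      rw [Pi.add_apply, Fin.val_add]
    have h3 : ∃ t : ℕ, (if k = i then 1 else 0) = (s k : ℕ) + N * t := by
      rw [hs]
      by_cases hk : k = i
      · simp only [hk, if_true]
        refine ⟨1 / N, ?_⟩
        rw [Fin.val_ofNat]
        exact (Nat.mod_add_div 1 N).symm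
      · simp only [hk, if_false]
        exact ⟨0, by simp⟩
    obtain ⟨t, ht⟩ := h3
    have h4 := Nat.mod_add_div ((a k : ℕ) + (s k : ℕ)) N
    refine ⟨(((a k : ℕ) + (s k : ℕ)) / N : ℕ) + t, ?_⟩
    rw [h2]
    have h5 : ((if k = i then 1 else 0 : ℕ) : ℤ) = (if k = i then 1 else 0 : ℤ) := by
      split_ifs <;> simp
    rw [← h5, ht]
    have h6 : (((a k : ℕ) : ℤ) + ((s k : ℕ) : ℤ)) =
        ((((a k : ℕ) + (s k : ℕ)) % N : ℕ) : ℤ) +
          (N : ℤ) * ((((a k : ℕ) + (s k : ℕ)) / N : ℕ) : ℤ) := by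
      exact_mod_cast h4.symm
    push_cast at h6 ⊢
    linear_combination h6
  choose z hz using h1
  have h2 : (fun k => ((a k : ℕ) : ℤ) + if k = i then 1 else 0) =
      (fun k => ((((a + s) k : Fin N) : ℕ) : ℤ)) + (N : ℤ) • z := by
    funext k
    rw [Pi.add_apply, Pi.smul_apply, smul_eq_mul]
    exact hz k
  rw [h2, hφ]
  rfl

/-- the two outer faces -/
theorem C2_outer (m' : ℕ) (N : ℕ) (hN : 0 < N) (H : (ℕ → Fin (m' + 1) → ℤ) → ℂ)
    (hH : ∀ f f' : ℕ → Fin (m' + 1) → ℤ, (∀ k < m' + 1, f k = f' k) → H f = H f')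
    (hT : ∀ (f : ℕ → Fin (m' + 1) → ℤ) (z : Fin (m' + 1) → ℤ),
      H (fun k => f k + (N : ℤ) • z) = H f) :
    ∑ a : Fin (m' + 1) → Fin N, ∑ π : Equiv.Perm (Fin (m' + 1)),
      ((Equiv.Perm.sign π : ℤ) : ℂ) * H (face (kv (fun k => ((a k : ℕ) : ℤ)) π) 0) =
    (-1) ^ m' * ∑ a : Fin (m' + 1) → Fin N, ∑ π : Equiv.Perm (Fin (m' + 1)),
      ((Equiv.Perm.sign π : ℤ) : ℂ) * H (face (kv (fun k => ((a k : ℕ) : ℤ)) π) (m' + 1)) := by
  obtain ⟨ρ, hρ⟩ : ∃ ρ : Equiv.Perm (Fin (m' + 1)), ρ = finRotate (m' + 1) := ⟨_, rfl⟩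
  have hsign : ((Equiv.Perm.sign ρ : ℤ) : ℂ) = (-1) ^ m' := by
    rw [hρ, sign_finRotate]
    push_cast
    rfl
  have h1 : ∀ (a : Fin (m' + 1) → ℤ) (π : Equiv.Perm (Fin (m' + 1))),
      H (face (kv a π) 0) =
        H (face (kv (fun k => a k + if k = π 0 then 1 else 0) (π * ρ)) (m' + 1)) := by
    intro a π
    apply hH
    intro k hk
    unfold face
    rw [if_neg (by omega), if_pos hk]
    funext x
    unfold kv
    obtain ⟨t, ht⟩ : ∃ t, t = (π * ρ).symm x := ⟨_, rfl⟩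
    have h2 : π.symm x = ρ t := by
      rw [Equiv.symm_apply_eq, ← Equiv.Perm.mul_apply, ht, Equiv.apply_symm_apply]
    rw [← ht, h2]
    have h3 : (x = π 0) ↔ ρ t = 0 := by
      rw [← h2, Equiv.symm_apply_eq]
    have h4 : ((ρ t : Fin (m' + 1)) : ℕ) = if t = Fin.last m' then 0 else (t : ℕ) + 1 := by
      rw [hρ]
      exact coe_finRotate t
    beta_reduce
    by_cases hlast : t = Fin.last m'
    · rw [if_pos hlast] at h4
      have h5 : ρ t = 0 := Fin.ext h4
      rw [if_pos (by rw [h4]; omega), if_pos (h3.2 h5), if_neg (by rw [hlast, Fin.val_last]; omega)]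
      ring
    · rw [if_neg hlast] at h4
      have h5 : ρ t ≠ 0 := by
        intro h
        rw [h] at h4
        simp at h4
      rw [if_neg (fun h => h5 (h3.1 h)), h4, add_zero]
      congr 1
      have : ((t : ℕ) + 1 < k + 1) ↔ ((t : ℕ) < k) := by omega
      simp only [this]
  have h2 : ∀ π : Equiv.Perm (Fin (m' + 1)),
      ∑ a : Fin (m' + 1) → Fin N, H (face (kv (fun k => ((a k : ℕ) : ℤ)) π) 0) =
      ∑ a : Fin (m' + 1) → Fin N, H (face (kv (fun k => ((a k : ℕ) : ℤ)) (π * ρ)) (m' + 1)) := by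
    intro π
    rw [← C2_shift (m' + 1) N hN (fun b => H (face (kv b (π * ρ)) (m' + 1))) ?_ (π 0)]
    · apply Finset.sum_congr rfl
      intro a _
      exact h1 _ π
    · intro b z
      rw [← hT (face (kv b (π * ρ)) (m' + 1)) z]
      congr 1
      funext k
      unfold face kv
      split_ifs
      · funext x
        simp only [Pi.add_apply]
        ring
      · funext x
        simp only [Pi.add_apply]
        ring
  rw [Finset.sum_comm, Finset.sum_comm (s := (Finset.univ : Finset (Fin (m' + 1) → Fin N)))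
    (t := (Finset.univ : Finset (Equiv.Perm (Fin (m' + 1)))))
    (f := fun a π => ((Equiv.Perm.sign π : ℤ) : ℂ) *
      H (face (kv (fun k => ((a k : ℕ) : ℤ)) π) (m' + 1)))]
  conv_rhs => rw [← Equiv.sum_comp (Equiv.mulRight ρ)]
  rw [Finset.mul_sum]
  apply Finset.sum_congr rfl
  intro π _
  rw [← Finset.mul_sum, ← Finset.mul_sum, h2 π, Equiv.coe_mulRight, map_mul]
  have h3 : ((Equiv.Perm.sign ρ : ℤ) : ℂ) * ((Equiv.Perm.sign ρ : ℤ) : ℂ) = 1 := by
    rw [hsign, ← pow_add, ← two_mul, pow_mul]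
    norm_num
  have h4 : (((Equiv.Perm.sign π * Equiv.Perm.sign ρ : ℤˣ) : ℤ) : ℂ) =
      ((Equiv.Perm.sign π : ℤ) : ℂ) * ((Equiv.Perm.sign ρ : ℤ) : ℂ) := by
    push_cast
    ring
  rw [h4, ← hsign]
  linear_combination (-((Equiv.Perm.sign π : ℤ) : ℂ) *
    ∑ a : Fin (m' + 1) → Fin N, H (face (kv (fun k => ((a k : ℕ) : ℤ)) (π * ρ)) (m' + 1))) * h3

theorem face_cancel (m : ℕ) (hm : 0 < m) (N : ℕ) (hN : 0 < N) (H : (ℕ → Fin m → ℤ) → ℂ)
    (hH : ∀ f f' : ℕ → Fin m → ℤ, (∀ k < m, f k = f' k) → H f = H f')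
    (hT : ∀ (f : ℕ → Fin m → ℤ) (z : Fin m → ℤ), H (fun k => f k + (N : ℤ) • z) = H f) :
    ∑ a : Fin m → Fin N, ∑ π : Equiv.Perm (Fin m), ((Equiv.Perm.sign π : ℤ) : ℂ) *
      ∑ j ∈ Finset.range (m + 1), (-1) ^ j * H (face (kv (fun k => ((a k : ℕ) : ℤ)) π) j) = 0 := by
  obtain ⟨m', rfl⟩ : ∃ m', m = m' + 1 := ⟨m - 1, by omega⟩
  have h1 : ∀ a : Fin (m' + 1) → Fin N, ∑ π : Equiv.Perm (Fin (m' + 1)),
      ((Equiv.Perm.sign π : ℤ) : ℂ) *
      ∑ j ∈ Finset.range (m' + 1 + 1), (-1) ^ j *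
        H (face (kv (fun k => ((a k : ℕ) : ℤ)) π) j) =
      ∑ π : Equiv.Perm (Fin (m' + 1)), ((Equiv.Perm.sign π : ℤ) : ℂ) *
        H (face (kv (fun k => ((a k : ℕ) : ℤ)) π) 0) +
      (-1) ^ (m' + 1) * ∑ π : Equiv.Perm (Fin (m' + 1)), ((Equiv.Perm.sign π : ℤ) : ℂ) *
        H (face (kv (fun k => ((a k : ℕ) : ℤ)) π) (m' + 1)) := by
    intro a
    have h2 : ∑ π : Equiv.Perm (Fin (m' + 1)), ((Equiv.Perm.sign π : ℤ) : ℂ) *
        ∑ j ∈ Finset.range (m' + 1 + 1), (-1) ^ j *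
          H (face (kv (fun k => ((a k : ℕ) : ℤ)) π) j) =
        ∑ j ∈ Finset.range (m' + 1 + 1), (-1) ^ j *
          ∑ π : Equiv.Perm (Fin (m' + 1)), ((Equiv.Perm.sign π : ℤ) : ℂ) *
          H (face (kv (fun k => ((a k : ℕ) : ℤ)) π) j) := by
      simp only [Finset.mul_sum]
      rw [Finset.sum_comm]
      apply Finset.sum_congr rfl
      intro j _
      apply Finset.sum_congr rfl
      intro π _
      ring
    rw [h2, Finset.sum_range_succ, Finset.sum_range_succ']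
    have h3 : ∑ j ∈ Finset.range m', (-1 : ℂ) ^ (j + 1) *
        ∑ π : Equiv.Perm (Fin (m' + 1)), ((Equiv.Perm.sign π : ℤ) : ℂ) *
          H (face (kv (fun k => ((a k : ℕ) : ℤ)) π) (j + 1)) = 0 := by
      apply Finset.sum_eq_zero
      intro j hj
      rw [Finset.mem_range] at hj
      rw [C2_inner (m' + 1) H hH _ (j + 1) (by omega) (by omega), mul_zero]
    rw [h3]
    ring
  rw [Finset.sum_congr rfl fun a _ => h1 a, Finset.sum_add_distrib, ← Finset.mul_sum,
    C2_outer m' N hN H hH hT]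
  ring

end H55N
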