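import Mathlib
import Pool.Agent.Lib.H55N.C1
import Pool.Agent.Lib.H55N.C2

namespace H55N

/-! Chunk C3 (S/M). Invariance of C_N. CN N J L' - CN N J L = sum_a sum_π sgn π (J(L' v) - J(L v)), v = kv a π; prism_id turns this
into the sum in face_cancel with H = Hp J L L' (m > 0). hH: Hp depends only on f 0 .. f (m-1) (prism L L' f i k with k <= m, i <= m-1
uses f k for k <= i and f (k-1)). hT: prism L L' (f + N z) i k = τ z (prism L L' f i k) by hL, hL', then hJ. For m = 0: Hp = 0 (empty sum), so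
prism_id gives J(L' v) = J(L v). -/

theorem c3_congr {Λ V : Type} {m : ℕ} (J : (Fin (m + 1) → Λ) → ℂ) (L L' : V → Λ) (f f' : ℕ → V)
    (h : ∀ k < m, f k = f' k) : Hp J L L' f = Hp J L L' f' := by
  unfold Hp
  refine Finset.sum_congr rfl fun i hi => ?_
  rw [Finset.mem_range] at hi
  congr 2
  funext k
  unfold prism
  split_ifs with h1
  · rw [h k (by omega)]
  · rw [h ((k : ℕ) - 1) (by have := k.2; omega)]

theorem CN_eq {Λ : Type} {m : ℕ} (N : ℕ) (hN : 0 < N) (J : (Fin (m + 1) → Λ) → ℂ)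
    (L L' : (Fin m → ℤ) → Λ) (τ : (Fin m → ℤ) → Λ → Λ)
    (hJ : ∀ z (l : Fin (m + 1) → Λ), J (fun j => τ z (l j)) = J l)
    (hL : ∀ a z, L (a + (N : ℤ) • z) = τ z (L a)) (hL' : ∀ a z, L' (a + (N : ℤ) • z) = τ z (L' a))
    (hcoc : ∀ (a : Fin m → Fin N) (π : Equiv.Perm (Fin m)), ∀ i ≤ m,
      ∑ j : Fin (m + 2), (-1) ^ (j : ℕ) * J (fun k : Fin (m + 1) =>
        prism L L' (kv (fun k => ((a k : ℕ) : ℤ)) π) i (j.succAbove k : Fin (m + 2))) = 0) :
    CN N J L = CN N J L' := by
  have hT : ∀ (f : ℕ → Fin m → ℤ) (z : Fin m → ℤ),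
      Hp J L L' (fun k => f k + (N : ℤ) • z) = Hp J L L' f := by
    intro f z
    unfold Hp
    refine Finset.sum_congr rfl fun i _ => ?_
    congr 1
    rw [← hJ z (fun k : Fin (m + 1) => prism L L' f i k)]
    congr 1
    funext k
    unfold prism
    split_ifs with h1
    · exact hL _ _
    · exact hL' _ _
  have h1 : CN N J L' - CN N J L = ∑ a : Fin m → Fin N, ∑ π : Equiv.Perm (Fin m),
      ((Equiv.Perm.sign π : ℤ) : ℂ) *
      ∑ j ∈ Finset.range (m + 1), (-1) ^ j *
        Hp J L L' (face (kv (fun k => ((a k : ℕ) : ℤ)) π) j) := by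
    unfold CN
    rw [← Finset.sum_sub_distrib]
    refine Finset.sum_congr rfl fun a _ => ?_
    rw [← Finset.sum_sub_distrib]
    refine Finset.sum_congr rfl fun π _ => ?_
    rw [← mul_sub]
    congr 1
    exact prism_id J L L' (kv (fun k => ((a k : ℕ) : ℤ)) π) (hcoc a π)
  have h2 : CN N J L' - CN N J L = 0 := by
    rw [h1]
    rcases Nat.eq_zero_or_pos m with hm | hm
    · refine Finset.sum_eq_zero fun a _ => Finset.sum_eq_zero fun π _ => ?_
      rw [Finset.sum_eq_zero, mul_zero]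
      intro j _
      unfold Hp
      subst hm
      rw [Finset.range_zero, Finset.sum_empty, mul_zero]
    · exact face_cancel m hm N hN (Hp J L L') (c3_congr J L L') hT
  exact (sub_eq_zero.1 h2).symm

end H55N
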