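import Mathlib
import Pool.Agent.Lib.H55N.Defs

namespace H55N

/-! Chunk C4 (M). The floor labelling. For a in the box and π: if a_k < N - 1 for some k = π(j), then the label does not change from the vertex j to the
vertex j+1 of the simplex: kv a π (j+1) = kv a π j + e_k and the coordinate k goes from a_k to a_k + 1 <= N - 1, so its quotient by N
stays 0; the other coordinates are equal. So J = 0 by hJ (with j : Fin m). If a = (N-1, .., N-1): (N - 1 + ε)/N = ε for ε = 0, 1, so L0 (kv a π j / N) =
L0 (kv 0 π j), the term of CN 1 (Fin 1 has one element). -/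

theorem c4_kv {m : ℕ} (a : Fin m → ℤ) (π : Equiv.Perm (Fin m)) (j : Fin m) (k' : Fin m)
    (h : k' ≠ π j) : kv a π ((j : ℕ) + 1) k' = kv a π j k' := by
  unfold kv
  congr 1
  have h1 : ((π.symm k' : Fin m) : ℕ) ≠ j := by
    intro h2
    apply h
    have := Fin.ext h2
    rw [← this, Equiv.apply_symm_apply]
  by_cases h3 : ((π.symm k' : Fin m) : ℕ) < j
  · rw [if_pos h3, if_pos (by omega)]
  · rw [if_neg h3, if_neg (by omega)]

theorem CN_floor {Λ : Type} {m : ℕ} (N : ℕ) (hN : 0 < N) (J : (Fin (m + 1) → Λ) → ℂ)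
    (hJ : ∀ l : Fin (m + 1) → Λ, (∃ j : Fin m, l j.castSucc = l j.succ) → J l = 0)
    (L0 : (Fin m → ℤ) → Λ) : CN N J (fun a => L0 fun k => a k / (N : ℤ)) = CN 1 J L0 := by
  unfold CN
  have hN1 : N - 1 < N := by omega
  rw [Finset.sum_eq_single (fun _ => (⟨N - 1, hN1⟩ : Fin N)),
    Finset.sum_eq_single (fun _ => (0 : Fin 1))]
  · refine Finset.sum_congr rfl fun π _ => ?_
    congr 2
    funext j
    show L0 _ = L0 _
    congr 1
    funext k
    unfold kv
    simp only [Fin.val_zero, Nat.cast_zero, zero_add]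
    have hc : ((N - 1 : ℕ) : ℤ) = (N : ℤ) - 1 := by
      rw [Nat.cast_sub (by omega)]
      simp
    rw [hc]
    have hN' : (0 : ℤ) < N := by exact_mod_cast hN
    split_ifs with h
    · rw [sub_add_cancel, Int.ediv_self hN'.ne']
    · rw [add_zero]
      exact Int.ediv_eq_zero_of_lt (by omega) (by omega)
  · intro b _ hb
    exact absurd (funext fun k => Subsingleton.elim _ _) hb
  · intro h
    exact absurd (Finset.mem_univ _) h
  · intro a _ ha
    refine Finset.sum_eq_zero fun π _ => ?_
    rw [hJ, mul_zero]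
    obtain ⟨k, hk⟩ := Function.ne_iff.1 ha
    have hk' : (a k : ℕ) + 1 < N := by
      have h1 := (a k).2
      have h2 : (a k : ℕ) ≠ N - 1 := fun h => hk (Fin.ext h)
      omega
    refine ⟨π.symm k, ?_⟩
    simp only [Fin.val_castSucc, Fin.val_succ]
    congr 1
    funext k'
    by_cases hkk : k' = k
    · subst hkk
      unfold kv
      have e1 : ∀ ε : ℤ, 0 ≤ ε → ε ≤ 1 → (((a k' : ℕ) : ℤ) + ε) / (N : ℤ) = 0 := by
        intro ε h0 h1
        apply Int.ediv_eq_zero_of_lt
        · positivity
        · have : (((a k' : ℕ) : ℤ)) + 1 < N := by exact_mod_cast hk'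
          omega
      rw [e1 _ (by split_ifs <;> norm_num) (by split_ifs <;> norm_num),
        e1 _ (by split_ifs <;> norm_num) (by split_ifs <;> norm_num)]
    · rw [c4_kv _ π (π.symm k) k' (by rw [Equiv.apply_symm_apply]; exact hkk)]
  · intro h
    exact absurd (Finset.mem_univ _) h

end H55N
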