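import Mathlib
import Pool.Agent.Lib.H55N.Defs

namespace H55N

/-! Chunk C5 (M). The determinant of the points of a small Kuhn simplex. v = kv a π, row j = tt lm (v_j/N).
tt lm (v_j/N) i = tt lm (a/N) i * exp(sum_{l<j} lm i (π l) / N), and prod_i tt lm (a/N) i = exp(sum_k (a_k/N) sum_i lm i k) = 1 (h0).
So det = det E_N, E_N(j,i) = exp(sum_{l<j} lm i (π l)/N) (Matrix.det_mul_row / det_mul_column), which does not depend on a. Subtract from each row the previous one
(Matrix.det_eq_of_forall_row_eq_smul_add_pred): det E_N = det E'_N with E'(0,i) = 1, E'(j+1,i) = E_N(j,i) (exp(lm i (π j)/N) - 1).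
N^m det E'_N = det of the matrix with rows 1 and N E'(j+1,i) (Matrix.det_mul_column..., multiply the m rows by N), whose entries tend to lm i (π j) (N(exp(x/N)-1) -> x);
the limit of the determinant is det(1; lm i (π j)) = sign π * Delta lm (Matrix.det_transpose, permute columns with Equiv extending π to Fin (m+1) fixing 0:
Equiv.Perm.decomposeFin or Matrix.det_succ_column_zero and det_permute; or use Matrix.det_apply). η π N := N^m sign π det E_N. -/

/-- Partial sums of the logarithms. -/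
private noncomputable def C5S {m : ℕ} (lm : Fin (m + 1) → Fin m → ℝ) (π : Equiv.Perm (Fin m))
    (i : Fin (m + 1)) (j : ℕ) : ℝ := ∑ l : Fin m, if (l : ℕ) < j then lm i (π l) else 0

private lemma C5S_zero {m : ℕ} (lm : Fin (m + 1) → Fin m → ℝ) (π : Equiv.Perm (Fin m))
    (i : Fin (m + 1)) : C5S lm π i 0 = 0 := by
  unfold C5S
  simp

private lemma C5S_succ {m : ℕ} (lm : Fin (m + 1) → Fin m → ℝ) (π : Equiv.Perm (Fin m))
    (i : Fin (m + 1)) (j : Fin m) : C5S lm π i (j + 1) = C5S lm π i j + lm i (π j) := by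
  unfold C5S
  have h : lm i (π j) = ∑ l : Fin m, if l = j then lm i (π l) else 0 := by
    rw [Finset.sum_ite_eq' Finset.univ j]
    simp
  rw [h, ← Finset.sum_add_distrib]
  refine Finset.sum_congr rfl fun l _ => ?_
  by_cases h1 : (l : ℕ) < j
  · have h2 : (l : ℕ) < j + 1 := by omega
    have h3 : l ≠ j := by
      intro h
      rw [h] at h1
      omega
    simp [h1, h2, h3]
  · by_cases h4 : l = j
    · subst h4
      simp
    · have h5 : ¬ (l : ℕ) < j + 1 := by
        intro h
        apply h4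
        apply Fin.ext
        omega
      simp [h1, h4, h5]

/-- The matrix E_N. -/
private noncomputable def C5E {m : ℕ} (lm : Fin (m + 1) → Fin m → ℝ) (π : Equiv.Perm (Fin m))
    (N : ℕ) : Matrix (Fin (m + 1)) (Fin (m + 1)) ℝ :=
  Matrix.of fun j i => Real.exp (C5S lm π i j / N)

/-- The matrix with the differences multiplied by N. -/
private noncomputable def C5F {m : ℕ} (lm : Fin (m + 1) → Fin m → ℝ) (π : Equiv.Perm (Fin m))
    (N : ℕ) : Matrix (Fin (m + 1)) (Fin (m + 1)) ℝ :=
  Matrix.of fun j i => (Fin.cons 1 (fun j' : Fin m => (N : ℝ) *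
    (Real.exp (C5S lm π i j' / N) * (Real.exp (lm i (π j') / N) - 1))) : Fin (m + 1) → ℝ) j

private lemma C5_tt {m : ℕ} (lm : Fin (m + 1) → Fin m → ℝ) (N : ℕ) (a : Fin m → ℤ)
    (π : Equiv.Perm (Fin m)) (i : Fin (m + 1)) (j : ℕ) :
    tt lm (fun k => (kv a π j k : ℝ) / N) i =
      Real.exp ((∑ k, a k * lm i k) / N) * Real.exp (C5S lm π i j / N) := by
  unfold tt
  rw [← Real.exp_add]
  congr 1
  have h : C5S lm π i j = ∑ k : Fin m, if ((π.symm k : Fin m) : ℕ) < j then lm i k else 0 := by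
    unfold C5S
    rw [← Equiv.sum_comp π (fun k => if ((π.symm k : Fin m) : ℕ) < j then lm i k else 0)]
    refine Finset.sum_congr rfl fun l _ => ?_
    rw [Equiv.symm_apply_apply]
  rw [h, Finset.sum_div, Finset.sum_div, ← Finset.sum_add_distrib]
  refine Finset.sum_congr rfl fun k _ => ?_
  unfold kv
  by_cases h1 : ((π.symm k : Fin m) : ℕ) < j
  · simp [h1]
    ring
  · simp [h1]
    ring

private lemma C5_det {m : ℕ} (lm : Fin (m + 1) → Fin m → ℝ) (h0 : ∀ j, ∑ i, lm i j = 0) (N : ℕ)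
    (a : Fin m → ℤ) (π : Equiv.Perm (Fin m)) :
    Matrix.det (Matrix.of fun j i : Fin (m + 1) => tt lm (fun k => (kv a π j k : ℝ) / N) i) =
      (C5E lm π N).det := by
  have h1 : (Matrix.of fun j i : Fin (m + 1) => tt lm (fun k => (kv a π j k : ℝ) / N) i) =
      Matrix.of fun j i : Fin (m + 1) =>
        (fun i : Fin (m + 1) => Real.exp ((∑ k, a k * lm i k) / N)) i * C5E lm π N j i := by
    ext j i
    simp only [Matrix.of_apply, C5E]
    exact C5_tt lm N a π i j
  rw [h1, Matrix.det_mul_row]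
  have h2 : ∏ i : Fin (m + 1), Real.exp ((∑ k, a k * lm i k) / N) = 1 := by
    rw [← Real.exp_sum, ← Finset.sum_div, Finset.sum_comm]
    have h3 : ∑ k : Fin m, ∑ i : Fin (m + 1), (a k : ℝ) * lm i k = 0 := by
      refine Finset.sum_eq_zero fun k _ => ?_
      rw [← Finset.mul_sum, h0, mul_zero]
    rw [h3]
    simp
  rw [h2, one_mul]

private lemma C5_det2 {m : ℕ} (lm : Fin (m + 1) → Fin m → ℝ) (N : ℕ)
    (π : Equiv.Perm (Fin m)) :
    (C5F lm π N).det = (N : ℝ) ^ m * (C5E lm π N).det := by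
  have h1 : (C5E lm π N).det = (Matrix.of fun j i : Fin (m + 1) =>
      (Fin.cons 1 (fun j' : Fin m =>
    (Real.exp (C5S lm π i j' / N) * (Real.exp (lm i (π j') / N) - 1))) :
      Fin (m + 1) → ℝ) j).det := by
    apply Matrix.det_eq_of_forall_row_eq_smul_add_pred (fun _ => 1)
    · intro i
      simp [C5E, C5S_zero]
    · intro j i
      simp only [C5E, Matrix.of_apply, Fin.cons_succ, Fin.val_succ, Fin.val_castSucc]
      rw [C5S_succ, add_div, Real.exp_add]
      ring
  rw [h1]
  have h2 : C5F lm π N = Matrix.of fun j i : Fin (m + 1) =>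
      (fun j : Fin (m + 1) => (Fin.cons 1 (fun _ : Fin m => (N : ℝ)) : Fin (m + 1) → ℝ) j) j *
      (Matrix.of fun j i : Fin (m + 1) =>
      (Fin.cons 1 (fun j' : Fin m =>
    (Real.exp (C5S lm π i j' / N) * (Real.exp (lm i (π j') / N) - 1))) :
      Fin (m + 1) → ℝ) j) j i := by
    ext j i
    simp only [C5F, Matrix.of_apply]
    refine Fin.cases ?_ (fun j' => ?_) j
    · simp
    · simp
  rw [h2, Matrix.det_mul_column]
  congr 1
  rw [Fin.prod_univ_succ]
  simp

private lemma C5_lim (x : ℝ) :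
    Filter.Tendsto (fun N : ℕ => (N : ℝ) * (Real.exp (x / N) - 1)) Filter.atTop (nhds x) := by
  have h1 : HasDerivAt (fun t : ℝ => Real.exp (x * t)) x 0 := by
    have h := ((hasDerivAt_id (0 : ℝ)).const_mul x).exp
    simpa using h
  have h2 := h1.tendsto_slope_zero_right
  have h3 : Filter.Tendsto (fun N : ℕ => ((N : ℝ))⁻¹) Filter.atTop (nhdsWithin 0 (Set.Ioi 0)) := by
    rw [tendsto_nhdsWithin_iff]
    refine ⟨tendsto_inv_atTop_nhds_zero_nat, ?_⟩
    filter_upwards [Filter.eventually_gt_atTop 0] with N hN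
    simp only [Set.mem_Ioi]
    positivity
  have h4 := h2.comp h3
  refine h4.congr fun N => ?_
  simp only [Function.comp_apply, inv_inv, zero_add, mul_zero, Real.exp_zero, smul_eq_mul]
  rfl

private lemma C5_lim2 (x : ℝ) :
    Filter.Tendsto (fun N : ℕ => Real.exp (x / N)) Filter.atTop (nhds 1) := by
  have h1 : Filter.Tendsto (fun N : ℕ => x / (N : ℝ)) Filter.atTop (nhds 0) :=
    tendsto_const_div_atTop_nhds_zero_nat x
  have h2 := (Real.continuous_exp.tendsto 0).comp h1
  rw [Real.exp_zero] at h2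
  exact h2

private lemma C5_detlim {m : ℕ} (lm : Fin (m + 1) → Fin m → ℝ) (π : Equiv.Perm (Fin m)) :
    Filter.Tendsto (fun N : ℕ => (C5F lm π N).det) Filter.atTop
      (nhds (Matrix.det (Matrix.of fun j i : Fin (m + 1) =>
        (Fin.cons 1 (fun j' : Fin m => lm i (π j')) : Fin (m + 1) → ℝ) j))) := by
  have h1 : Continuous fun M : Matrix (Fin (m + 1)) (Fin (m + 1)) ℝ => M.det :=
    Continuous.matrix_det continuous_id
  refine (h1.tendsto _).comp ?_
  refine tendsto_pi_nhds.mpr fun j => tendsto_pi_nhds.mpr fun i => ?_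
  simp only [C5F, Matrix.of_apply]
  refine Fin.cases ?_ (fun j' => ?_) j
  · simp
  · simp only [Fin.cons_succ]
    have h2 := (C5_lim2 (C5S lm π i j')).mul (C5_lim (lm i (π j')))
    rw [one_mul] at h2
    refine h2.congr fun N => ?_
    ring

private lemma C5_limdet {m : ℕ} (lm : Fin (m + 1) → Fin m → ℝ) (π : Equiv.Perm (Fin m)) :
    Matrix.det (Matrix.of fun j i : Fin (m + 1) =>
        (Fin.cons 1 (fun j' : Fin m => lm i (π j')) : Fin (m + 1) → ℝ) j) =
      ((Equiv.Perm.sign π : ℤ) : ℝ) * Delta lm := by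
  rw [← Matrix.det_transpose]
  have h1 : (Matrix.of fun j i : Fin (m + 1) =>
        (Fin.cons 1 (fun j' : Fin m => lm i (π j')) : Fin (m + 1) → ℝ) j).transpose =
      (Matrix.of fun i j : Fin (m + 1) => (Fin.cons 1 (lm i) : Fin (m + 1) → ℝ) j).submatrix id
        (Equiv.Perm.decomposeFin.symm (0, π)) := by
    ext i j
    simp only [Matrix.transpose_apply, Matrix.of_apply, Matrix.submatrix_apply, id]
    refine Fin.cases ?_ (fun j' => ?_) j
    · simp
    · simp
  rw [h1, Matrix.det_permute', Equiv.Perm.decomposeFin.symm_sign]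
  simp [Delta]

theorem det_asym (m : ℕ) (lm : Fin (m + 1) → Fin m → ℝ) (h0 : ∀ j, ∑ i, lm i j = 0) :
    ∃ η : Equiv.Perm (Fin m) → ℕ → ℝ,
      (∀ π, Filter.Tendsto (η π) Filter.atTop (nhds (Delta lm))) ∧
      ∀ N : ℕ, 0 < N → ∀ (a : Fin m → ℤ) (π : Equiv.Perm (Fin m)),
        ((Equiv.Perm.sign π : ℤ) : ℝ) * Matrix.det (Matrix.of fun j i : Fin (m + 1) =>
          tt lm (fun k => (kv a π j k : ℝ) / N) i) = η π N / (N : ℝ) ^ m := by
  refine ⟨fun π N => ((Equiv.Perm.sign π : ℤ) : ℝ) * (C5F lm π N).det, fun π => ?_,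
    fun N hN a π => ?_⟩
  · have h1 := (C5_detlim lm π).const_mul ((Equiv.Perm.sign π : ℤ) : ℝ)
    rw [C5_limdet] at h1
    have h2 : ((Equiv.Perm.sign π : ℤ) : ℝ) * (((Equiv.Perm.sign π : ℤ) : ℝ) * Delta lm) =
        Delta lm := by
      rw [← mul_assoc, ← Int.cast_mul, ← Units.val_mul, Int.units_mul_self]
      simp
    rw [h2] at h1
    exact h1
  · have hN' : (N : ℝ) ≠ 0 := by
      have : (0 : ℝ) < N := by exact_mod_cast hN
      exact this.ne'
    rw [C5_det lm h0]
    show _ = ((Equiv.Perm.sign π : ℤ) : ℝ) * (C5F lm π N).det / (N : ℝ) ^ m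
    rw [C5_det2]
    field_simp

end H55N
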