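import Mathlib
import Pool.Agent.Lib.H55N.Defs

namespace H55N

open MeasureTheory

/-! Chunk C6 (M). Riemann sums. The points kv a π j / N differ from a/N by at most 1/N in each coordinate and lie in [0, 2]^m. Φ is uniformly continuous
on the compact set of families of points of [0,2]^m; so for ε > 0 and N large |Φ(kv a π j/N) - Φ(fun _ => z)| <= ε for all z in the cube
a/N + [0,1/N]^m. The cubes a/N + [0,1/N)^m, a in the box, partition [0,1)^m, each of volume N^(-m); hence |N^(-m) sum_a Φ(..) - int_[0,1)^m Φ(z)| <= ε.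
(Or use BoxIntegral.unitPartition.tendsto_tsum_div_pow_atTop_integral.) -/

/-- the half open unit cube -/
def C6_box (m : ℕ) : Set (Fin m → ℝ) := Set.univ.pi fun _ => Set.Ico (0 : ℝ) 1

/-- the small cubes -/
def C6_cube (m N : ℕ) (a : Fin m → Fin N) : Set (Fin m → ℝ) :=
  Set.univ.pi fun k => Set.Ico (((a k : ℕ) : ℝ) / N) ((((a k : ℕ) : ℝ) + 1) / N)

theorem C6_mem_cube {m N : ℕ} (hN : 0 < N) (a : Fin m → Fin N) (z : Fin m → ℝ) :
    z ∈ C6_cube m N a ↔ ∀ k, ⌊(N : ℝ) * z k⌋ = ((a k : ℕ) : ℤ) := by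
  have hN' : (0 : ℝ) < N := by exact_mod_cast hN
  simp only [C6_cube, Set.mem_pi, Set.mem_univ, true_implies, Set.mem_Ico]
  refine forall_congr' (fun k => ?_)
  rw [Int.floor_eq_iff, div_le_iff₀ hN', lt_div_iff₀ hN', mul_comm (z k)]
  push_cast
  rfl

theorem C6_union {m N : ℕ} (hN : 0 < N) : C6_box m = ⋃ a : Fin m → Fin N, C6_cube m N a := by
  have hN' : (0 : ℝ) < N := by exact_mod_cast hN
  ext z
  rw [Set.mem_iUnion]
  constructor
  · intro hz
    have h1 : ∀ k, 0 ≤ z k ∧ z k < 1 := fun k => hz k (Set.mem_univ k)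
    have h2 : ∀ k, 0 ≤ ⌊(N : ℝ) * z k⌋ := fun k =>
      Int.floor_nonneg.2 (mul_nonneg hN'.le (h1 k).1)
    have h3 : ∀ k, ⌊(N : ℝ) * z k⌋ < (N : ℤ) := by
      intro k
      rw [Int.floor_lt]
      have := mul_lt_mul_of_pos_left (h1 k).2 hN'
      simpa using this
    refine ⟨fun k => ⟨⌊(N : ℝ) * z k⌋.toNat, by have := h2 k; have := h3 k; omega⟩, ?_⟩
    rw [C6_mem_cube hN]
    intro k
    simp only
    rw [Int.toNat_of_nonneg (h2 k)]
  · rintro ⟨a, ha⟩
    rw [C6_mem_cube hN] at ha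
    intro k _
    have h1 := ha k
    rw [Int.floor_eq_iff] at h1
    have h2 : (((a k : ℕ) : ℤ) : ℝ) + 1 ≤ N := by
      have : (a k : ℕ) + 1 ≤ N := (a k).isLt
      exact_mod_cast this
    have h3 : (0 : ℝ) ≤ (((a k : ℕ) : ℤ) : ℝ) := by positivity
    constructor
    · by_contra h
      rw [not_le] at h
      nlinarith
    · by_contra h
      rw [not_lt] at h
      nlinarith

theorem C6_disj {m N : ℕ} (hN : 0 < N) :
    Pairwise (Function.onFun Disjoint (C6_cube m N)) := by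
  intro a b hab
  rw [Function.onFun, Set.disjoint_left]
  intro z hz hz'
  rw [C6_mem_cube hN] at hz hz'
  apply hab
  funext k
  have := (hz k).symm.trans (hz' k)
  exact Fin.ext (by exact_mod_cast this)

theorem C6_meas {m N : ℕ} (a : Fin m → Fin N) : MeasurableSet (C6_cube m N a) :=
  MeasurableSet.univ_pi fun _ => measurableSet_Ico

theorem C6_vol {m N : ℕ} (hN : 0 < N) (a : Fin m → Fin N) :
    volume.real (C6_cube m N a) = 1 / (N : ℝ) ^ m := by
  have hN' : (0 : ℝ) < N := by exact_mod_cast hN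
  rw [Measure.real, C6_cube, Real.volume_pi_Ico_toReal]
  · have : ∀ k : Fin m, (((a k : ℕ) : ℝ) + 1) / N - ((a k : ℕ) : ℝ) / N = 1 / N := by
      intro k; field_simp; ring
    rw [Finset.prod_congr rfl (fun k _ => this k), Finset.prod_const, Finset.card_univ,
      Fintype.card_fin, div_pow, one_pow]
  · intro k
    have h1 : ((a k : ℕ) : ℝ) ≤ ((a k : ℕ) : ℝ) + 1 := by linarith
    exact div_le_div_of_nonneg_right h1 hN'.le

/-- the step function -/
noncomputable def C6_pt (m : ℕ) (π : Equiv.Perm (Fin m)) (N : ℕ) (z : Fin m → ℝ) :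
    Fin (m + 1) → Fin m → ℝ :=
  fun j k => ((kv (fun k => ⌊(N : ℝ) * z k⌋) π j k : ℤ) : ℝ) / N

theorem C6_pt_near {m : ℕ} (π : Equiv.Perm (Fin m)) {N : ℕ} (hN : 0 < N) (z : Fin m → ℝ)
    (j : Fin (m + 1)) (k : Fin m) : |C6_pt m π N z j k - z k| ≤ 1 / N := by
  have hN' : (0 : ℝ) < N := by exact_mod_cast hN
  have h1 : ((kv (fun k => ⌊(N : ℝ) * z k⌋) π j k : ℤ) : ℝ) ≤ N * z k + 1 ∧
      N * z k - 1 ≤ ((kv (fun k => ⌊(N : ℝ) * z k⌋) π j k : ℤ) : ℝ) := by
    have h2 := Int.floor_le ((N : ℝ) * z k)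
    have h3 := (Int.sub_one_lt_floor ((N : ℝ) * z k)).le
    simp only [kv]
    split_ifs
    · push_cast
      constructor <;> linarith
    · push_cast
      constructor <;> linarith
  have h4 : C6_pt m π N z j k - z k =
      (((kv (fun k => ⌊(N : ℝ) * z k⌋) π j k : ℤ) : ℝ) - N * z k) / N := by
    rw [C6_pt]
    field_simp
  rw [h4, abs_div, abs_of_pos hN']
  refine div_le_div_of_nonneg_right ?_ hN'.le
  rw [abs_le]
  constructor <;> linarith [h1.1, h1.2]

theorem C6_pt_mem {m : ℕ} (π : Equiv.Perm (Fin m)) (N : ℕ) (z : Fin m → ℝ) (hz : z ∈ C6_box m)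
    (j : Fin (m + 1)) (k : Fin m) : C6_pt m π N z j k ∈ Set.Icc (-2 : ℝ) 2 := by
  rcases Nat.eq_zero_or_pos N with h0 | h0
  · subst h0
    simp [C6_pt]
  · have h1 := C6_pt_near π h0 z j k
    have h2 : 0 ≤ z k ∧ z k < 1 := hz k (Set.mem_univ k)
    have h3 : (1 : ℝ) / N ≤ 1 := by
      rw [div_le_one (by exact_mod_cast h0)]
      exact_mod_cast h0
    rw [abs_le] at h1
    constructor <;> linarith [h1.1, h1.2, h2.1, h2.2]

theorem C6_pt_tendsto {m : ℕ} (π : Equiv.Perm (Fin m)) (z : Fin m → ℝ) :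
    Filter.Tendsto (fun N : ℕ => C6_pt m π N z) Filter.atTop (nhds (fun _ => z)) := by
  rw [tendsto_pi_nhds]
  intro j
  rw [tendsto_pi_nhds]
  intro k
  rw [tendsto_iff_norm_sub_tendsto_zero]
  refine squeeze_zero' (Filter.Eventually.of_forall (fun _ => norm_nonneg _)) ?_
    tendsto_one_div_atTop_nhds_zero_nat
  filter_upwards [Filter.eventually_gt_atTop 0] with N hN
  rw [Real.norm_eq_abs]
  exact C6_pt_near π hN z j k

theorem C6_measurable {m : ℕ} (Φ : (Fin (m + 1) → Fin m → ℝ) → ℂ) (π : Equiv.Perm (Fin m))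
    (N : ℕ) : Measurable (fun z : Fin m → ℝ => Φ (C6_pt m π N z)) := by
  have h1 : Measurable (fun z : Fin m → ℝ => (fun k => ⌊(N : ℝ) * z k⌋ : Fin m → ℤ)) := by
    refine measurable_pi_lambda _ (fun k => ?_)
    exact Int.measurable_floor.comp ((measurable_pi_apply k).const_mul _)
  have h2 : Measurable (fun b : Fin m → ℤ =>
      Φ (fun j k => ((kv b π j k : ℤ) : ℝ) / N)) := Measurable.of_discrete
  exact h2.comp h1

theorem C6_integral {m : ℕ} (Φ : (Fin (m + 1) → Fin m → ℝ) → ℂ) (π : Equiv.Perm (Fin m))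
    {N : ℕ} (hN : 0 < N) : ∫ z in C6_box m, Φ (C6_pt m π N z) =
      (∑ a : Fin m → Fin N,
      Φ (fun j k => (kv (fun k => ((a k : ℕ) : ℤ)) π j k : ℝ) / N)) / (N : ℂ) ^ m := by
  have hc : ∀ a : Fin m → Fin N, ∀ z ∈ C6_cube m N a, Φ (C6_pt m π N z) =
      Φ (fun j k => (kv (fun k => ((a k : ℕ) : ℤ)) π j k : ℝ) / N) := by
    intro a z hz
    rw [C6_mem_cube hN] at hz
    have h9 : (fun k => ⌊(N : ℝ) * z k⌋) = fun k => ((a k : ℕ) : ℤ) := funext hz
    refine congrArg Φ ?_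
    funext j k
    unfold C6_pt
    rw [h9]
  have hvol : ∀ a : Fin m → Fin N, volume (C6_cube m N a) ≠ ⊤ := by
    intro a h
    have h1 := C6_vol hN a
    rw [Measure.real, h] at h1
    have : (0 : ℝ) < 1 / (N : ℝ) ^ m := by
      have : (0 : ℝ) < N := by exact_mod_cast hN
      positivity
    rw [ENNReal.toReal_top] at h1
    linarith
  rw [C6_union hN, integral_iUnion_fintype (fun a => C6_meas a) (C6_disj hN)]
  · rw [Finset.sum_div]
    refine Finset.sum_congr rfl (fun a _ => ?_)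
    rw [setIntegral_congr_fun (C6_meas a) (hc a), setIntegral_const, C6_vol hN a]
    rw [Complex.real_smul]
    push_cast
    ring
  · intro a
    refine (integrableOn_congr_fun (hc a) (C6_meas a)).2 ?_
    exact integrableOn_const (hvol a)

theorem riemann_sum (m : ℕ) (Φ : (Fin (m + 1) → Fin m → ℝ) → ℂ) (hΦ : Continuous Φ)
    (π : Equiv.Perm (Fin m)) : Filter.Tendsto (fun N : ℕ => (∑ a : Fin m → Fin N,
      Φ (fun j k => (kv (fun k => ((a k : ℕ) : ℤ)) π j k : ℝ) / N)) / (N : ℂ) ^ m) Filter.atTop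
      (nhds (∫ z in Set.Icc (0 : Fin m → ℝ) 1, Φ (fun _ => z))) := by
  have h1 : ∫ z in Set.Icc (0 : Fin m → ℝ) 1, Φ (fun _ => z) =
      ∫ z in C6_box m, Φ (fun _ => z) := by
    refine setIntegral_congr_set ?_
    exact (Measure.univ_pi_Ico_ae_eq_Icc (μ := fun _ : Fin m => (volume : Measure ℝ))
      (f := (0 : Fin m → ℝ)) (g := 1)).symm
  rw [h1]
  have hfin : volume (C6_box m) ≠ ⊤ := by
    have h2 : volume (C6_box m) ≤ volume (Set.Icc (0 : Fin m → ℝ) 1) := by
      refine measure_mono ?_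
      intro z hz
      exact ⟨fun k => (hz k (Set.mem_univ k)).1, fun k => (hz k (Set.mem_univ k)).2.le⟩
    exact ne_top_of_le_ne_top (isCompact_Icc.measure_lt_top).ne h2
  have hK : IsCompact {x : Fin (m + 1) → Fin m → ℝ | ∀ j, x j ∈
      {y : Fin m → ℝ | ∀ k, y k ∈ Set.Icc (-2 : ℝ) 2}} := by
    refine isCompact_pi_infinite (fun j => ?_)
    exact isCompact_pi_infinite (fun k => isCompact_Icc)
  obtain ⟨C, hC⟩ := hK.exists_bound_of_continuousOn hΦ.continuousOn
  have hmeas : MeasurableSet (C6_box m) := MeasurableSet.univ_pi fun _ => measurableSet_Ico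
  have h3 : Filter.Tendsto (fun N : ℕ => ∫ z in C6_box m, Φ (C6_pt m π N z)) Filter.atTop
      (nhds (∫ z in C6_box m, Φ (fun _ => z))) := by
    refine tendsto_integral_of_dominated_convergence (fun _ => C) ?_ ?_ ?_ ?_
    · intro N
      exact (C6_measurable Φ π N).aestronglyMeasurable
    · exact integrableOn_const hfin
    · intro N
      rw [ae_restrict_iff' hmeas]
      exact Filter.Eventually.of_forall (fun z hz => hC _ (fun j k => C6_pt_mem π N z hz j k))
    · refine Filter.Eventually.of_forall (fun z => ?_)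
      exact (hΦ.tendsto _).comp (C6_pt_tendsto π z)
  refine h3.congr' ?_
  filter_upwards [Filter.eventually_gt_atTop 0] with N hN
  exact C6_integral Φ π hN

end H55N
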