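import Mathlib
import Pool.Agent.Lib.H55N.C5
import Pool.Agent.Lib.H55N.C6

namespace H55N

open MeasureTheory

/-! Chunk C7 (S/M). The limit of the alternating sums. Exchange the sums over a and π; for fixed π the sum over a is η π N / N^m * sum_a Φ(kv a π j / N) with
Φ(z_0..z_m) = B(fun j => tt lm (z_j)) (det_asym; continuous because tt lm z > 0 and z -> tt lm z is continuous), which tends to Delta * int Φ(z,..,z)
(riemann_sum); there are m! permutations (Fintype.card_perm). -/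

theorem riemann (m : ℕ) (lm : Fin (m + 1) → Fin m → ℝ) (h0 : ∀ j, ∑ i, lm i j = 0)
    (B : (Fin (m + 1) → Fin (m + 1) → ℝ) → ℂ) (hB : ContinuousOn B {t | ∀ j i, 0 < t j i}) :
    Filter.Tendsto (fun N : ℕ => ∑ a : Fin m → Fin N, ∑ π : Equiv.Perm (Fin m),
      ((Equiv.Perm.sign π : ℤ) : ℂ) * (((Matrix.det (Matrix.of fun j i : Fin (m + 1) =>
        tt lm (fun k => (kv (fun k => ((a k : ℕ) : ℤ)) π j k : ℝ) / N) i) : ℝ) : ℂ) *
        B fun j => tt lm (fun k => (kv (fun k => ((a k : ℕ) : ℤ)) π j k : ℝ) / N))) Filter.atTop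
      (nhds ((m.factorial : ℂ) * ((Delta lm : ℝ) : ℂ) *
        ∫ z in Set.Icc (0 : Fin m → ℝ) 1, B (fun _ => tt lm z))) := by
  obtain ⟨η, hη, hη2⟩ := det_asym m lm h0
  have hc : Continuous fun z : Fin (m + 1) → Fin m → ℝ => B (fun j => tt lm (z j)) := by
    refine hB.comp_continuous ?_ ?_
    · refine continuous_pi fun j => continuous_pi fun i => ?_
      unfold tt
      fun_prop
    · intro z j i
      exact Real.exp_pos _
  have h1 : ∀ π : Equiv.Perm (Fin m), Filter.Tendsto (fun N : ℕ => ((η π N : ℝ) : ℂ) *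
      ((∑ a : Fin m → Fin N,
      B (fun j => tt lm (fun k => (kv (fun k => ((a k : ℕ) : ℤ)) π j k : ℝ) / N))) /
        (N : ℂ) ^ m)) Filter.atTop
      (nhds (((Delta lm : ℝ) : ℂ) *
        ∫ z in Set.Icc (0 : Fin m → ℝ) 1, B (fun _ => tt lm z))) := by
    intro π
    have h2 : Filter.Tendsto (fun N : ℕ => ((η π N : ℝ) : ℂ)) Filter.atTop
        (nhds ((Delta lm : ℝ) : ℂ)) := (Complex.continuous_ofReal.tendsto _).comp (hη π)
    exact h2.mul (riemann_sum m _ hc π)
  have h2 := tendsto_finsetSum (Finset.univ : Finset (Equiv.Perm (Fin m))) fun π _ => h1 π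
  have h3 : ∑ π : Equiv.Perm (Fin m), ((Delta lm : ℝ) : ℂ) *
      ∫ z in Set.Icc (0 : Fin m → ℝ) 1, B (fun _ => tt lm z) =
      (m.factorial : ℂ) * ((Delta lm : ℝ) : ℂ) *
        ∫ z in Set.Icc (0 : Fin m → ℝ) 1, B (fun _ => tt lm z) := by
    rw [Finset.sum_const, Finset.card_univ, Fintype.card_perm, Fintype.card_fin, nsmul_eq_mul]
    ring
  rw [h3] at h2
  refine h2.congr' ?_
  filter_upwards [Filter.eventually_gt_atTop 0] with N hN
  rw [Finset.sum_comm]
  refine Finset.sum_congr rfl fun π _ => ?_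
  rw [Finset.sum_div, Finset.mul_sum]
  refine Finset.sum_congr rfl fun a _ => ?_
  have h4 := hη2 N hN (fun k => ((a k : ℕ) : ℤ)) π
  have h5 : ((Equiv.Perm.sign π : ℤ) : ℂ) * ((Matrix.det (Matrix.of fun j i : Fin (m + 1) =>
        tt lm (fun k => (kv (fun k => ((a k : ℕ) : ℤ)) π j k : ℝ) / N) i) : ℝ) : ℂ) =
      ((η π N : ℝ) : ℂ) / (N : ℂ) ^ m := by
    have h6 : ((Equiv.Perm.sign π : ℤ) : ℂ) = (((Equiv.Perm.sign π : ℤ) : ℝ) : ℂ) := by
      push_cast
      rfl
    rw [h6, ← Complex.ofReal_mul, h4]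
    push_cast
    rfl
  rw [← mul_assoc, h5]
  ring

end H55N
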