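import Mathlib
import Pool.Agent.Lib.H55N.B10
import Pool.Agent.Lib.H55N.R1

open NumberField IsDedekindDomain

namespace H55N

open H55B H55C

variable {K : Type} [Field K] [NumberField K] [Algebra F K] {m : ℕ}

/-! Chunk R2 (M/L). Existence of regularised sums, for h Good with weight bl = prod_k (1+|Tr(A_k x)|)^(-1) and gains gl. Index set I = Fin (m+1) x Fin 2.
The family h cut_{B,R}, R >= 1, is Good with weight bl and gains gl: Good.mul of hh (constant in the parameter) and good_cut (gains gs <= C gl: gs_le_gl, Good.mono; weight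
1: SV.one), sv_bl, sv_gl. For S = univ: |D(h cut_R)(x)| <= C bl(x) prod_{i in I} gl_i(x) = C prod_k (1+|Tr(A_k x)|)^(-3) (two i for each k), summable over
X (sum_l with r = 3; Dirs.int, Dirs.ind). By GSpec and summable_cut: sum_X g h cut_R = sum_X G D(h cut_R), and D(h cut_R)(x) -> D h(x) as R -> infinity for fixed x
(finite sum, cut_tendsto). Dominated convergence: tendsto_tsum_of_dominated_convergence. h is bounded on X: S = empty, bl <= 1.
R3: the same with pcut (good_pcut) instead of cut; g h pcut_R is absolutely summable over X: |h| <= C bl, pcut_R <= C_R prod_k (1+|Tr|)^(-2). -/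

theorem R2_prod (D : Ctx K m) (A : Fin (m + 1) → K) (x : 𝓞 K) :
    D.bl A x * ∏ i : Fin (m + 1) × Fin 2, D.gl A i x =
      ∏ k, (1 + ‖D.Tr (A k) x‖) ^ (-(3 : ℝ)) := by
  have h1 : ∏ i : Fin (m + 1) × Fin 2, D.gl A i x =
      ∏ k : Fin (m + 1), ((1 + ‖D.Tr (A k) x‖)⁻¹ * (1 + ‖D.Tr (A k) x‖)⁻¹) := by
    rw [Fintype.prod_prod_type]
    refine Finset.prod_congr rfl fun k _ => ?_
    rw [Fin.prod_univ_two]
    rfl
  rw [h1]
  unfold Ctx.bl
  rw [← Finset.prod_mul_distrib]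
  refine Finset.prod_congr rfl fun k _ => ?_
  have h2 : 0 < 1 + ‖D.Tr (A k) x‖ := by positivity
  rw [Real.rpow_neg h2.le, show (3 : ℝ) = ((3 : ℕ) : ℝ) by norm_num, Real.rpow_natCast]
  field_simp

theorem R2_summable (D : Ctx K m) (hD : D.Ok) (A : Fin (m + 1) → K)
    (w : Fin (m + 1) × Fin 2 → 𝓞 K) (hdir : D.Dirs A w) :
    Summable fun x : D.X => D.bl A x * ∏ i : Fin (m + 1) × Fin 2, D.gl A i x := by
  have h := sum_l D hD.emb D.X A hdir.ind hdir.int 3 (by norm_num)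
  exact h.congr fun x => (R2_prod D A x).symm

theorem R2_bl_nonneg (D : Ctx K m) (A : Fin (m + 1) → K) (x : 𝓞 K) : 0 ≤ D.bl A x := by
  unfold Ctx.bl
  positivity

theorem R2_gl_nonneg (D : Ctx K m) (A : Fin (m + 1) → K) (i : Fin (m + 1) × Fin 2) (x : 𝓞 K) :
    0 ≤ D.gl A i x := by
  unfold Ctx.gl
  positivity

theorem R2_bl_le (D : Ctx K m) (A : Fin (m + 1) → K) (x : 𝓞 K) : D.bl A x ≤ 1 := by
  unfold Ctx.bl
  apply Finset.prod_le_one
  · intro k _
    positivity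
  · intro k _
    apply inv_le_one_of_one_le₀
    have := norm_nonneg (D.Tr (A k) x)
    linarith

theorem R2_stab (D : Ctx K m) (A : Fin (m + 1) → K)
    (w : Fin (m + 1) × Fin 2 → 𝓞 K) (hdir : D.Dirs A w) : ∀ x ∈ D.X, ∀ i, x - w i ∈ D.X :=
  fun _ hx i => D.X_sub hx (hdir.mem i)

/-- Summability of the differences. -/
theorem R2_sumD (D : Ctx K m) (hD : D.Ok) (A : Fin (m + 1) → K)
    (w : Fin (m + 1) × Fin 2 → 𝓞 K) (hdir : D.Dirs A w) (G : 𝓞 K → ℂ) (hG : D.GSpec w G)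
    (h : 𝓞 K → ℂ) (hh : Good D.X w (D.gl A) (fun (_ : Unit) x => D.bl A x) (fun _ => h)) :
    Summable fun x : D.X => ‖G x * Dif w Finset.univ h x‖ := by
  obtain ⟨C, hC⟩ := hh
  obtain ⟨CG, hCG⟩ := hG.1
  have h1 := (R2_summable D hD A w hdir).mul_left (|CG| * |C|)
  refine Summable.of_nonneg_of_le (fun x => norm_nonneg _) (fun x => ?_) h1
  rw [norm_mul]
  have hp : 0 ≤ ∏ i : Fin (m + 1) × Fin 2, D.gl A i x :=
    Finset.prod_nonneg fun i _ => R2_gl_nonneg D A i x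
  have h2 : ‖Dif w Finset.univ h x‖ ≤ |C| * (D.bl A x * ∏ i : Fin (m + 1) × Fin 2, D.gl A i x) := by
    refine (hC () Finset.univ x x.2).trans ?_
    rw [mul_assoc]
    exact mul_le_mul_of_nonneg_right (le_abs_self C) (mul_nonneg (R2_bl_nonneg D A x) hp)
  calc ‖G x‖ * ‖Dif w Finset.univ h x‖
      ≤ |CG| * (|C| * (D.bl A x * ∏ i : Fin (m + 1) × Fin 2, D.gl A i x)) :=
        mul_le_mul ((hCG x).trans (le_abs_self _)) h2 (norm_nonneg _) (abs_nonneg _)
    _ = _ := by ring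

/-- The limit for a family of cutoff functions. -/
theorem R2_lim (D : Ctx K m) (hD : D.Ok) (A : Fin (m + 1) → K)
    (w : Fin (m + 1) × Fin 2 → 𝓞 K) (hdir : D.Dirs A w) (G : 𝓞 K → ℂ) (hG : D.GSpec w G)
    (h : 𝓞 K → ℂ) (hh : Good D.X w (D.gl A) (fun (_ : Unit) x => D.bl A x) (fun _ => h))
    (ψ : ℝ → 𝓞 K → ℝ)
    (h1 : Good D.X w (D.gl A) (fun (_ : {R : ℝ // 1 ≤ R}) _ => (1 : ℝ))
      (fun q x => (ψ q.1 x : ℂ)))
    (h2 : ∀ x, Filter.Tendsto (fun R : ℝ => (ψ R x : ℂ)) Filter.atTop (nhds 1))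
    (h3 : ∀ R : ℝ, 1 ≤ R → Summable fun x : D.X => ‖h x * (ψ R x : ℂ)‖) :
    Filter.Tendsto (fun R : ℝ => ∑' x : D.X, D.g x * h x * (ψ R x : ℂ)) Filter.atTop
      (nhds (∑' x : D.X, G x * Dif w Finset.univ h x)) := by
  obtain ⟨CG, hCG⟩ := hG.1
  have hh' : Good D.X w (D.gl A) (fun (_ : {R : ℝ // 1 ≤ R}) x => D.bl A x) (fun _ => h) := by
    obtain ⟨C, hC⟩ := hh
    exact ⟨C, fun q S x hx => hC () S x hx⟩
  obtain ⟨C, hC⟩ := Good.mul (R2_stab D A w hdir) (sv_gl D A w) (sv_bl D A w) SV.one hh' h1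
  have hev : (fun R : ℝ => ∑' x : D.X, G x * Dif w Finset.univ (fun y => h y * (ψ R y : ℂ)) x)
      =ᶠ[Filter.atTop] fun R : ℝ => ∑' x : D.X, D.g x * h x * (ψ R x : ℂ) := by
    filter_upwards [Filter.eventually_ge_atTop (1 : ℝ)] with R hR
    have := hG.2 (fun y => h y * (ψ R y : ℂ)) (h3 R hR)
    rw [← this]
    exact tsum_congr fun x => (mul_assoc _ _ _).symm
  refine Filter.Tendsto.congr' hev ?_
  refine tendsto_tsum_of_dominated_convergence
    (bound := fun x : D.X => (|CG| * |C|) *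
      (D.bl A x * ∏ i : Fin (m + 1) × Fin 2, D.gl A i x)) ?_ ?_ ?_
  · exact (R2_summable D hD A w hdir).mul_left _
  · intro x
    refine Filter.Tendsto.const_mul _ ?_
    unfold Dif
    refine tendsto_finsetSum _ fun T _ => ?_
    refine Filter.Tendsto.const_mul _ ?_
    have h4 := (h2 (x.1 - ∑ i ∈ T, w i)).const_mul (h (x.1 - ∑ i ∈ T, w i))
    rw [mul_one] at h4
    exact h4
  · filter_upwards [Filter.eventually_ge_atTop (1 : ℝ)] with R hR
    intro x
    rw [norm_mul]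
    have hp : 0 ≤ ∏ i : Fin (m + 1) × Fin 2, D.gl A i x :=
      Finset.prod_nonneg fun i _ => R2_gl_nonneg D A i x
    have h5 : ‖Dif w Finset.univ (fun y => h y * (ψ R y : ℂ)) x‖ ≤
        |C| * (D.bl A x * ∏ i : Fin (m + 1) × Fin 2, D.gl A i x) := by
      refine (hC ⟨R, hR⟩ Finset.univ x x.2).trans ?_
      change C * (D.bl A x * 1) * ∏ i : Fin (m + 1) × Fin 2, D.gl A i x ≤ _
      rw [mul_one, mul_assoc]
      exact mul_le_mul_of_nonneg_right (le_abs_self C) (mul_nonneg (R2_bl_nonneg D A x) hp)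
    calc ‖G x‖ * ‖Dif w Finset.univ (fun y => h y * (ψ R y : ℂ)) x‖
        ≤ |CG| * (|C| * (D.bl A x * ∏ i : Fin (m + 1) × Fin 2, D.gl A i x)) :=
          mul_le_mul ((hCG x).trans (le_abs_self _)) h5 (norm_nonneg _) (abs_nonneg _)
      _ = _ := by ring

theorem R2_bdd (D : Ctx K m) (A : Fin (m + 1) → K)
    (w : Fin (m + 1) × Fin 2 → 𝓞 K)
    (h : 𝓞 K → ℂ) (hh : Good D.X w (D.gl A) (fun (_ : Unit) x => D.bl A x) (fun _ => h)) :
    ∃ C : ℝ, 0 ≤ C ∧ ∀ x ∈ D.X, ‖h x‖ ≤ C * D.bl A x := by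
  obtain ⟨C, hC⟩ := hh
  refine ⟨|C|, abs_nonneg C, fun x hx => ?_⟩
  have h1 := hC () ∅ x hx
  rw [dif_empty, Finset.prod_empty, mul_one] at h1
  exact h1.trans (mul_le_mul_of_nonneg_right (le_abs_self C) (R2_bl_nonneg D A x))

theorem reg_of_good (D : Ctx K m) (hD : D.Ok) (A : Fin (m + 1) → K)
    (w : Fin (m + 1) × Fin 2 → 𝓞 K) (hdir : D.Dirs A w) (G : 𝓞 K → ℂ) (hG : D.GSpec w G)
    (h : 𝓞 K → ℂ) (hh : Good D.X w (D.gl A) (fun (_ : Unit) x => D.bl A x) (fun _ => h)) :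
    (Summable fun x : D.X => ‖G x * Dif w Finset.univ h x‖) ∧
      D.HasReg h (∑' x : D.X, G x * Dif w Finset.univ h x) := by
  refine ⟨R2_sumD D hD A w hdir G hG h hh, ?_, ?_⟩
  · obtain ⟨C, hC0, hC⟩ := R2_bdd D A w h hh
    refine ⟨C, fun x hx => (hC x hx).trans ?_⟩
    have := mul_le_mul_of_nonneg_left (R2_bl_le D A x) hC0
    linarith
  · intro B hB
    have hstab := R2_stab D A w hdir
    have h0 : (0 : 𝓞 K) ∉ D.X := fun h => D.X_ne hD.ne h rfl
    refine R2_lim D hD A w hdir G hG h hh (fun R x => D.cut B R x) ?_ ?_ ?_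
    · have h1 := good_cut (P := {R : ℝ // 1 ≤ R}) D hD.emb w D.X hstab h0 B hB (fun q => q.1)
        (fun q => q.2)
      obtain ⟨C, hC0, _, hC⟩ := gs_le_gl D A
      refine Good.mono h1 (fun i x _ => inv_nonneg.2 (D.sz_pos x).le) (max 1 C) (by positivity) ?_ ?_
      · intro q x _
        refine ⟨zero_le_one, ?_⟩
        rw [mul_one]
        exact le_max_left _ _
      · intro i x _
        exact (hC i x).trans (mul_le_mul_of_nonneg_right (le_max_right _ _)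
          (R2_gl_nonneg D A i x))
    · exact fun x => cut_tendsto D B x
    · intro R hR
      refine summable_cut D hD h ?_ B hB R hR
      obtain ⟨C, hC0, hC⟩ := R2_bdd D A w h hh
      refine ⟨C, fun x hx => (hC x hx).trans ?_⟩
      have := mul_le_mul_of_nonneg_left (R2_bl_le D A x) hC0
      linarith

theorem R2_pcut_tendsto (D : Ctx K m) (A : Fin (m + 1) → K) (x : 𝓞 K) :
    Filter.Tendsto (fun R : ℝ => (D.pcut A R x : ℂ)) Filter.atTop (nhds 1) := by
  have h1 : ∀ c : ℝ, Filter.Tendsto (fun R : ℝ => R ^ 2 / (R ^ 2 + c)) Filter.atTop (nhds 1) := by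
    intro c
    have h2 : Filter.Tendsto (fun R : ℝ => (1 + c / R ^ 2)⁻¹) Filter.atTop (nhds 1) := by
      have h3 : Filter.Tendsto (fun R : ℝ => c / R ^ 2) Filter.atTop (nhds 0) :=
        Filter.Tendsto.const_div_atTop (Filter.tendsto_pow_atTop (by norm_num)) c
      have h4 := (h3.const_add 1).inv₀ (by norm_num)
      simpa using h4
    refine h2.congr' ?_
    filter_upwards [Filter.eventually_gt_atTop (0 : ℝ)] with R hR
    have hR2 : R ^ 2 ≠ 0 := by positivity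
    rw [show 1 + c / R ^ 2 = (R ^ 2 + c) / R ^ 2 by field_simp, inv_div]
  have h5 : Filter.Tendsto (fun R : ℝ => D.pcut A R x) Filter.atTop (nhds 1) := by
    unfold Ctx.pcut
    have h6 := tendsto_finsetProd (Finset.univ : Finset (Fin (m + 1)))
      (fun k _ => h1 (‖D.Tr (A k) x‖ ^ 2))
    simpa using h6
  have h7 := (Complex.continuous_ofReal.tendsto 1).comp h5
  rw [Complex.ofReal_one] at h7
  exact h7

theorem R2_pcut_le (D : Ctx K m) (A : Fin (m + 1) → K) (R : ℝ) (hR : 1 ≤ R) (x : 𝓞 K) :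
    0 ≤ D.pcut A R x ∧
      D.pcut A R x ≤ (2 * R ^ 2) ^ (m + 1) * ∏ i : Fin (m + 1) × Fin 2, D.gl A i x := by
  have hR0 : 0 < R := by linarith
  constructor
  · unfold Ctx.pcut
    positivity
  · have h1 : ∏ i : Fin (m + 1) × Fin 2, D.gl A i x =
        ∏ k : Fin (m + 1), ((1 + ‖D.Tr (A k) x‖)⁻¹ * (1 + ‖D.Tr (A k) x‖)⁻¹) := by
      rw [Fintype.prod_prod_type]
      refine Finset.prod_congr rfl fun k _ => ?_
      rw [Fin.prod_univ_two]
      rfl
    rw [h1]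
    unfold Ctx.pcut
    have h2 : (2 * R ^ 2) ^ (m + 1) = ∏ _k : Fin (m + 1), (2 * R ^ 2) := by
      rw [Finset.prod_const, Finset.card_univ, Fintype.card_fin]
    rw [h2, ← Finset.prod_mul_distrib]
    apply Finset.prod_le_prod
    · intro k _
      positivity
    · intro k _
      have h3 := norm_nonneg (D.Tr (A k) x)
      have h4 : 0 < 1 + ‖D.Tr (A k) x‖ := by positivity
      have hR1 : 1 ≤ R ^ 2 := by nlinarith
      rw [← mul_inv, ← div_eq_mul_inv, div_le_div_iff₀ (by positivity) (by positivity)]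
      have h5 : (1 + ‖D.Tr (A k) x‖) * (1 + ‖D.Tr (A k) x‖) ≤
          2 * (R ^ 2 + ‖D.Tr (A k) x‖ ^ 2) := by
        nlinarith [sq_nonneg (1 - ‖D.Tr (A k) x‖)]
      calc R ^ 2 * ((1 + ‖D.Tr (A k) x‖) * (1 + ‖D.Tr (A k) x‖))
          ≤ R ^ 2 * (2 * (R ^ 2 + ‖D.Tr (A k) x‖ ^ 2)) :=
            mul_le_mul_of_nonneg_left h5 (by positivity)
        _ = _ := by ring

theorem pcut_of_good (D : Ctx K m) (hD : D.Ok) (A : Fin (m + 1) → K)
    (w : Fin (m + 1) × Fin 2 → 𝓞 K) (hdir : D.Dirs A w) (G : 𝓞 K → ℂ) (hG : D.GSpec w G)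
    (h : 𝓞 K → ℂ) (hh : Good D.X w (D.gl A) (fun (_ : Unit) x => D.bl A x) (fun _ => h)) :
    Filter.Tendsto (fun R : ℝ => ∑' x : D.X, D.g x * h x * (D.pcut A R x : ℂ)) Filter.atTop
      (nhds (∑' x : D.X, G x * Dif w Finset.univ h x)) := by
  have g1 : Good D.X w (D.gl A) (fun (_ : {R : ℝ // 1 ≤ R}) _ => (1 : ℝ))
      (fun q x => (D.pcut A q.1 x : ℂ)) :=
    good_pcut D A w hdir (fun q : {R : ℝ // 1 ≤ R} => q.1) (fun q => q.2)
  have g3 : ∀ R : ℝ, 1 ≤ R → Summable fun x : D.X => ‖h x * (D.pcut A R x : ℂ)‖ := by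
    intro R hR
    obtain ⟨C, hC0, hC⟩ := R2_bdd D A w h hh
    have h1 := (R2_summable D hD A w hdir).mul_left (C * (2 * R ^ 2) ^ (m + 1))
    refine Summable.of_nonneg_of_le (fun x => norm_nonneg _) (fun x => ?_) h1
    obtain ⟨h2, h3⟩ := R2_pcut_le D A R hR x
    rw [norm_mul, Complex.norm_real, Real.norm_eq_abs, abs_of_nonneg h2]
    calc ‖h x‖ * D.pcut A R x
        ≤ (C * D.bl A x) * ((2 * R ^ 2) ^ (m + 1) * ∏ i : Fin (m + 1) × Fin 2, D.gl A i x) :=
          mul_le_mul (hC x x.2) h3 h2 (mul_nonneg hC0 (R2_bl_nonneg D A x))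
      _ = _ := by ring
  exact R2_lim D hD A w hdir G hG h hh (fun R x => D.pcut A R x) g1
    (fun x => R2_pcut_tendsto D A x) g3

end H55N
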