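import Mathlib
import Pool.Agent.Lib.H55N.B10
import Pool.Agent.Lib.H55N.B9

open NumberField IsDedekindDomain

namespace H55N

open H55B H55C

variable {K : Type} [Field K] [NumberField K] [Algebra F K] {m : ℕ}

/-! Chunk R4 (M). The determinant of admissible labels is Good. Idet L x = sum over permutations of sign * prod_j row (L j) x (perm j) (Matrix.det_apply). For a
label T t, t > 0: row is Good with weight sz^(-1) and gains gs (good_row with P = Unit, a, b = min, max of t; D.X stable, 0 not in D.X), hence with gains gl. For a label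
A (A_k): row = σ_i(A_k) * (Tr(A_k x))^(-1), Good with weight (1+|Tr(A_k x)|)^(-1) (good_tr, Good.smul). Good.prod over j: weight
prod_{j of type T} sz^(-1) * prod_{j of type A} (1+|Tr(A_(κ j) x)|)^(-1) <= C bl A x: κ is injective on the indices of type A, so the complement of the image of
these indices has as many elements as there are indices of type T, and sz^(-1) <= C (1+|Tr(A_k x)|)^(-1) for every k (gs_le_gl). Good.mono, Good.sum, sv_sz, sv_tr. -/

theorem r4_X (D : Ctx K m) {A : Fin (m + 1) → K} {w : Fin (m + 1) × Fin 2 → 𝓞 K}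
    (hdir : D.Dirs A w) : ∀ x ∈ D.X, ∀ i, x - w i ∈ D.X :=
  fun _ hx i => D.X_sub hx (hdir.mem i)

theorem r4_gl (D : Ctx K m) (A : Fin (m + 1) → K) :
    ∀ (i : Fin (m + 1) × Fin 2), ∀ x ∈ D.X, 0 ≤ D.gl A i x :=
  fun i x _ => by unfold Ctx.gl; positivity

theorem r4_gs (D : Ctx K m) :
    ∀ (i : Fin (m + 1) × Fin 2), ∀ x ∈ D.X, 0 ≤ D.gs i x :=
  fun _ x _ => (inv_pos.mpr (D.sz_pos x)).le

/-- The weight of a label. -/
noncomputable def r4wt (D : Ctx K m) (A : Fin (m + 1) → K) (l : Lab K m) (k : Fin (m + 1))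
    (_ : Unit) (x : 𝓞 K) : ℝ :=
  match l with
  | .T _ => (D.sz x)⁻¹
  | .A _ => (1 + ‖D.Tr (A k) x‖)⁻¹

theorem r4wt_pos (D : Ctx K m) (A : Fin (m + 1) → K) (l : Lab K m) (k : Fin (m + 1))
    (q : Unit) (x : 𝓞 K) : 0 < r4wt D A l k q x := by
  cases l with
  | T t => exact inv_pos.2 (D.sz_pos x)
  | A a =>
    show 0 < (1 + ‖D.Tr (A k) x‖)⁻¹
    positivity

theorem r4_sv (D : Ctx K m) (A : Fin (m + 1) → K) (w : Fin (m + 1) × Fin 2 → 𝓞 K)
    (hdir : D.Dirs A w) (l : Lab K m) (k : Fin (m + 1)) : SV D.X w (r4wt D A l k) := by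
  cases l with
  | T t => exact SV.inv (r4_X D hdir) (sv_sz (P := Unit) D w D.X)
  | A a => exact SV.inv (r4_X D hdir) (sv_tr (P := Unit) D A w k)

theorem r4_row (D : Ctx K m) (hD : D.Ok) (A : Fin (m + 1) → K)
    (w : Fin (m + 1) × Fin 2 → 𝓞 K) (hdir : D.Dirs A w) (l : Lab K m) (k : Fin (m + 1))
    (hT : ∀ t, l = .T t → ∀ i, 0 < t i) (hA : ∀ a, l = .A a → a = A k) (i : Fin (m + 1)) :
    Good D.X w (D.gl A) (r4wt D A l k) (fun _ x => D.row l x i) := by
  have h0 : (0 : 𝓞 K) ∉ D.X := fun h => D.X_ne hD.ne h rfl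
  cases l with
  | T t =>
    obtain ⟨i0, hi0⟩ := Finite.exists_min t
    obtain ⟨i1, hi1⟩ := Finite.exists_max t
    have h1 := good_row (P := Unit) D hD.emb w D.X (r4_X D hdir) h0 (fun _ => t) (t i0) (t i1)
      (hT t rfl i0) (fun _ i => ⟨hi0 i, hi1 i⟩) i
    obtain ⟨C, hC, _, hC2⟩ := gs_le_gl D A
    refine Good.mono h1 (r4_gs D) (max 1 C) (by positivity) (fun q x _ => ⟨?_, ?_⟩)
      (fun j x hx => ?_)
    · exact (inv_pos.2 (D.sz_pos x)).le
    · show (D.sz x)⁻¹ ≤ max 1 C * (D.sz x)⁻¹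
      have : 0 < (D.sz x)⁻¹ := inv_pos.2 (D.sz_pos x)
      have h2 := le_max_left 1 C
      nlinarith
    · exact (hC2 j x).trans (mul_le_mul_of_nonneg_right (le_max_right _ _) (r4_gl D A j x hx))
  | A a =>
    obtain rfl := hA a rfl
    have h1 := Good.smul (good_tr (P := Unit) D A w hdir k) (r4_gl D A) (fun _ x _ => by
      positivity) (fun _ => D.σ i (A k)) ‖D.σ i (A k)‖ (fun _ => le_rfl)
    exact h1

theorem r4_prod (D : Ctx K m) (A : Fin (m + 1) → K) (L : Fin (m + 1) → Lab K m)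
    (κ : Fin (m + 1) → Fin (m + 1)) (hκ : Set.InjOn κ {j | ∃ a, L j = .A a}) :
    ∃ c : ℝ, 0 ≤ c ∧ ∀ x, ∏ j, r4wt D A (L j) (κ j) () x ≤ c * D.bl A x := by
  classical
  obtain ⟨C, hC, hC1, _⟩ := gs_le_gl D A
  set C' := max 1 C with hC'
  refine ⟨C' ^ (m + 1), by positivity, fun x => ?_⟩
  set S : Finset (Fin (m + 1)) := Finset.univ.filter fun j => ∃ a, L j = .A a with hS
  have hcard : Fintype.card (Fin (m + 1)) = (Finset.univ : Finset (Fin (m + 1))).card := by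
    rw [Finset.card_univ]
  obtain ⟨g, hg⟩ := Finset.exists_equiv_extend_of_card_eq (s := S) (f := κ) hcard
    (Finset.subset_univ _) (by
      intro i hi j hj hij
      rw [hS, Finset.coe_filter] at hi hj
      exact hκ hi.2 hj.2 hij)
  have h1 : ∀ j, r4wt D A (L j) (κ j) () x ≤ C' * (1 + ‖D.Tr (A (g j)) x‖)⁻¹ := by
    intro j
    have hp : 0 ≤ (1 + ‖D.Tr (A (g j)) x‖)⁻¹ := by positivity
    by_cases hj : ∃ a, L j = .A a
    · have hj' : j ∈ S := by
        rw [hS, Finset.mem_filter]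
        exact ⟨Finset.mem_univ _, hj⟩
      obtain ⟨a, ha⟩ := hj
      rw [hg j hj'] at hp ⊢
      rw [ha]
      show (1 + ‖D.Tr (A (κ j)) x‖)⁻¹ ≤ _
      have := le_max_left 1 C
      nlinarith
    · have : ∃ t, L j = .T t := by
        cases hl : L j with
        | T t => exact ⟨t, rfl⟩
        | A a => exact absurd ⟨a, hl⟩ hj
      obtain ⟨t, ht⟩ := this
      rw [ht]
      show (D.sz x)⁻¹ ≤ _
      exact (hC1 x (g j)).trans (mul_le_mul_of_nonneg_right (le_max_right _ _) hp)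
  calc ∏ j, r4wt D A (L j) (κ j) () x ≤ ∏ j, (C' * (1 + ‖D.Tr (A (g j)) x‖)⁻¹) :=
        Finset.prod_le_prod (fun j _ => (r4wt_pos D A _ _ _ x).le) fun j _ => h1 j
    _ = C' ^ (m + 1) * ∏ j, (1 + ‖D.Tr (A (g j)) x‖)⁻¹ := by
        rw [Finset.prod_mul_distrib, Finset.prod_const, Finset.card_univ, Fintype.card_fin]
    _ = C' ^ (m + 1) * D.bl A x := by
        congr 1
        unfold Ctx.bl
        have h2 : ∏ j, (1 + ‖D.Tr (A (g j)) x‖)⁻¹ =
            ∏ k : (Finset.univ : Finset (Fin (m + 1))), (1 + ‖D.Tr (A k) x‖)⁻¹ :=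
          g.prod_comp (fun k : (Finset.univ : Finset (Fin (m + 1))) => (1 + ‖D.Tr (A k) x‖)⁻¹)
        rw [h2, Finset.prod_coe_sort Finset.univ (fun k => (1 + ‖D.Tr (A k) x‖)⁻¹)]

theorem good_idet (D : Ctx K m) (hD : D.Ok) (A : Fin (m + 1) → K)
    (w : Fin (m + 1) × Fin 2 → 𝓞 K) (hdir : D.Dirs A w) (L : Fin (m + 1) → Lab K m)
    (κ : Fin (m + 1) → Fin (m + 1)) (hT : ∀ j t, L j = .T t → ∀ i, 0 < t i)
    (hA : ∀ j a, L j = .A a → a = A (κ j)) (hκ : Set.InjOn κ {j | ∃ a, L j = .A a}) :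
    Good D.X w (D.gl A) (fun (_ : Unit) x => D.bl A x) (fun _ => D.Idet L) := by
  obtain ⟨c, hc, hle⟩ := r4_prod D A L κ hκ
  have hX := r4_X D hdir
  have hgl := r4_gl D A
  have h1 : ∀ τ : Equiv.Perm (Fin (m + 1)), Good D.X w (D.gl A)
      (fun q x => ∏ j, r4wt D A (L j) (κ j) q x)
      (fun (_ : Unit) x => ((Equiv.Perm.sign τ : ℤ) : ℂ) * ∏ j, D.row (L (τ j)) x j) := by
    intro τ
    have h2 := Good.prod hX (sv_gl D A w) Finset.univ
      (fun j q x => r4wt D A (L (τ j)) (κ (τ j)) q x)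
      (fun j (_ : Unit) x => D.row (L (τ j)) x j)
      (fun j _ => r4_sv D A w hdir (L (τ j)) (κ (τ j)))
      (fun j _ => r4_row D hD A w hdir (L (τ j)) (κ (τ j)) (hT (τ j)) (hA (τ j)) j)
    have h3 : (fun (q : Unit) (x : 𝓞 K) => ∏ j, r4wt D A (L (τ j)) (κ (τ j)) q x) =
        fun q x => ∏ j, r4wt D A (L j) (κ j) q x := by
      funext q x
      exact Equiv.prod_comp τ (fun j => r4wt D A (L j) (κ j) q x)
    rw [h3] at h2
    exact Good.smul h2 hgl
      (fun q x _ => Finset.prod_nonneg fun j _ => (r4wt_pos D A _ _ _ x).le)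
      (fun _ => ((Equiv.Perm.sign τ : ℤ) : ℂ)) ‖((Equiv.Perm.sign τ : ℤ) : ℂ)‖ (fun _ => le_rfl)
  have h4 := Good.sum (Finset.univ : Finset (Equiv.Perm (Fin (m + 1)))) _ (fun τ _ => h1 τ) hgl
    (fun q x _ => Finset.prod_nonneg fun j _ => (r4wt_pos D A _ _ _ x).le)
  have h5 : (fun (_ : Unit) => D.Idet L) = fun (_ : Unit) x =>
      ∑ τ : Equiv.Perm (Fin (m + 1)), ((Equiv.Perm.sign τ : ℤ) : ℂ) *
        ∏ j, D.row (L (τ j)) x j := by
    funext _ x
    unfold Ctx.Idet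
    rw [Matrix.det_apply']
    rfl
  rw [h5]
  refine Good.mono h4 hgl (max 1 c) (by positivity) (fun q x _ => ⟨?_, ?_⟩) (fun j x hx => ?_)
  · exact Finset.prod_nonneg fun j _ => (r4wt_pos D A _ _ _ x).le
  · refine (hle x).trans (mul_le_mul_of_nonneg_right (le_max_right _ _) ?_)
    unfold Ctx.bl
    exact Finset.prod_nonneg fun k _ => by positivity
  · have := hgl j x hx
    have h6 := le_max_left 1 c
    nlinarith

end H55N
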