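import Mathlib

namespace H55N

/-! Chunk R6 (S, pure Mathlib). The cocycle identity. The (n+1) x (n+1) matrix with rows (1, r_j(0), .., r_j(n-1)) is singular: its first column is the combination
sum_i x_i column_(i+1) (Matrix.exists_mulVec_eq_zero_iff: the nonzero vector (-1, x_0, .., x_(n-1)) is in the kernel). Expand the determinant along the first column: Matrix.det_succ_column_zero. -/

theorem det_cocycle {n : ℕ} (x : Fin n → ℂ) (r : Fin (n + 1) → Fin n → ℂ)
    (h : ∀ j, ∑ i, x i * r j i = 1) : ∑ j : Fin (n + 1), (-1) ^ (j : ℕ) *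
      Matrix.det (Matrix.of fun k i : Fin n => r (j.succAbove k) i) = 0 := by
  let A : Matrix (Fin (n + 1)) (Fin (n + 1)) ℂ := Matrix.of fun j => (Fin.cons 1 (r j) : Fin (n + 1) → ℂ)
  have hA : A.det = 0 := by
    rw [← Matrix.exists_mulVec_eq_zero_iff]
    refine ⟨Fin.cons (-1) x, ?_, ?_⟩
    · intro h0
      have := congrFun h0 0
      simp at this
    · funext j
      simp only [Matrix.mulVec, dotProduct, Fin.sum_univ_succ, A, Matrix.of_apply, Fin.cons_zero,
        Fin.cons_succ, Pi.zero_apply]
      have := h j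
      have h2 : ∑ i, r j i * x i = 1 := by
        rw [← this]; exact Finset.sum_congr rfl fun i _ => mul_comm _ _
      rw [h2]; ring
  rw [Matrix.det_succ_column_zero] at hA
  rw [← hA]
  refine Finset.sum_congr rfl fun j _ => ?_
  have h1 : A j 0 = 1 := by simp [A]
  rw [h1, mul_one]
  congr 1

end H55N
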