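import Mathlib
import Pool.Agent.Lib.H55B.A3

open NumberField IsDedekindDomain

namespace H55N

open H55B

/-! Chunk E2 (M). The derivative of the duplication formula. x = wp z, y = wpd z, g = LL.g₃ = (wp 1)^3 <> 0 (A3_g3, A3_wp_one_ne), y^2 = 4x^3 - g (wp_ode), wpd' = 6 wp^2.
y <> 0: wp(2z) (4x^3-g) = x^4 + 2 g x (wp_double); if 4x^3 = g then 9 x^4 = 0, x = 0, g = 0. Near z: wp(2z) y^2 = x^4 + 2 g x holds identically; differentiate
(HasDerivAt wp (wpd z) z from Mathlib; wpd has derivative 6 wp^2: differentiate wpd^2 = 4wp^3 - g and divide by 2 wpd): 2 wpd(2z) y^2 + wp(2z) 12 x^2 y = (4x^3+2g) y. With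
X2 = wp(2z) = (x^4+2gx)/y^2 and g = 4x^3 - y^2 one gets wpd(2z) = -y + 18x^3/y - 54x^6/y^3 = -y + (6x^2/y)(x - X2) where X2 = -2x + 9x^4/y^2. -/

theorem E2_hasDerivAt {z : ℂ} (hz : z ∉ Lam) : HasDerivAt wp (wpd z) z := by
  have h := (A1_wp_analytic hz).differentiableAt.hasDerivAt
  have h1 : deriv wp z = wpd z := congrFun LL.deriv_weierstrassP z
  rwa [h1] at h

theorem E2_ne {z : ℂ} (h1 : z ∉ Lam) (h2 : 2 * z ∉ Lam) : wpd z ≠ 0 := by
  intro h
  have e1 := wp_ode z h1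
  have e2 := wp_double z h1 h2
  have hg : LL.g₃ ≠ 0 := by
    rw [A3_g3]
    exact pow_ne_zero 3 A3_wp_one_ne
  have e3 : 4 * wp z ^ 3 - LL.g₃ = 0 := by rw [← e1, h]; ring
  rw [e3, mul_zero] at e2
  have e4 : 9 * wp z ^ 4 = 0 := by linear_combination -e2 + 2 * wp z * e3
  have e5 : wp z = 0 := by
    rcases mul_eq_zero.1 e4 with h | h
    · norm_num at h
    · exact pow_eq_zero_iff (by norm_num) |>.1 h
  apply hg
  rw [e5] at e3
  linear_combination -e3

theorem wpd_double (z : ℂ) (h1 : z ∉ Lam) (h2 : 2 * z ∉ Lam) : wpd z ≠ 0 ∧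
    (wpd z + wpd (2 * z)) * wpd z = 6 * wp z ^ 2 * (wp z - wp (2 * z)) := by
  have hy := E2_ne h1 h2
  refine ⟨hy, ?_⟩
  have d1 := E2_hasDerivAt h1
  have d2 : HasDerivAt (fun v => wp (2 * v)) (wpd (2 * z) * 2) z := by
    have := E2_hasDerivAt h2
    have h3 : HasDerivAt (fun v : ℂ => 2 * v) 2 z := by
      simpa using (hasDerivAt_id z).const_mul 2
    exact this.comp z h3
  have f1 := d2.mul (((d1.pow 3).const_mul 4).sub_const LL.g₃)
  have f2 := (d1.pow 4).add (d1.const_mul (2 * LL.g₃))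
  have o1 : ∀ᶠ w in nhds z, w ∉ Lam := A1_open.mem_nhds h1
  have o2 : ∀ᶠ w in nhds z, 2 * w ∉ Lam :=
    (A1_open.preimage (f := fun w : ℂ => 2 * w) (by fun_prop)).mem_nhds h2
  have heq : (fun v => wp v ^ 4 + 2 * LL.g₃ * wp v) =ᶠ[nhds z]
      fun v => wp (2 * v) * (4 * wp v ^ 3 - LL.g₃) := by
    filter_upwards [o1, o2] with v h3 h4
    exact (wp_double v h3 h4).symm
  have f3 := f1.congr_of_eventuallyEq heq
  have f4 := f3.unique f2
  have e1 := wp_ode z h1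
  have e2 := wp_double z h1 h2
  have e3 : wpd z * ((wpd z + wpd (2 * z)) * wpd z -
      6 * wp z ^ 2 * (wp z - wp (2 * z))) = 0 := by
    simp only [Nat.cast_ofNat, Nat.add_one_sub_one, Pi.pow_apply] at f4
    linear_combination (1 / 2) * f4 + (wpd z + wpd (2 * z)) * e1
  rcases mul_eq_zero.1 e3 with h | h
  · exact absurd h hy
  · linear_combination h

end H55N
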