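import Mathlib
import Pool.Agent.Lib.H55B.A1
import Pool.Agent.Lib.H55N.Defs

open NumberField IsDedekindDomain

namespace H55N

open H55B

/-! ### Estimates -/

/-- The correction term. -/
noncomputable def E1_k (R : ℝ) (y : ℂ) : ℂ := (starRingEnd ℂ) y / ((R ^ 2 + ‖y‖ ^ 2 : ℝ) : ℂ)

theorem E1_term (R : ℝ) (hR : 0 < R) (y : ℂ) :
    y⁻¹ * ((R ^ 2 / (R ^ 2 + ‖y‖ ^ 2) : ℝ) : ℂ) = y⁻¹ - E1_k R y := by
  by_cases hy : y = 0
  · simp [hy, E1_k]
  · have h1 : (R ^ 2 + ‖y‖ ^ 2 : ℝ) ≠ 0 := by positivity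
    have h1' : ((R ^ 2 + ‖y‖ ^ 2 : ℝ) : ℂ) ≠ 0 := by exact_mod_cast h1
    have h2 : y * (starRingEnd ℂ) y = ((‖y‖ ^ 2 : ℝ) : ℂ) := by
      rw [Complex.mul_conj, Complex.normSq_eq_norm_sq]
    unfold E1_k
    rw [Complex.ofReal_div]
    have h3 : ((R ^ 2 : ℝ) : ℂ) = ((R ^ 2 + ‖y‖ ^ 2 : ℝ) : ℂ) - y * (starRingEnd ℂ) y := by
      rw [h2]
      push_cast
      ring
    rw [h3, sub_div, div_self h1']
    field_simp

theorem E1_low (R : ℝ) (hR : 1 ≤ R) (y w : ℂ) :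
    (1 + ‖y‖) ^ 2 ≤ 4 * (1 + ‖w‖ ^ 2) * (R ^ 2 + ‖y + w‖ ^ 2) := by
  have hR1 : 1 ≤ R ^ 2 := by nlinarith
  have h1 : ‖y‖ ≤ ‖y + w‖ + ‖w‖ := by
    have := norm_sub_le (y + w) w
    rwa [add_sub_cancel_right] at this
  have h2 : ‖y‖ ^ 2 ≤ 2 * ‖y + w‖ ^ 2 + 2 * ‖w‖ ^ 2 := by
    calc ‖y‖ ^ 2 ≤ (‖y + w‖ + ‖w‖) ^ 2 := pow_le_pow_left₀ (norm_nonneg y) h1 2
      _ ≤ 2 * ‖y + w‖ ^ 2 + 2 * ‖w‖ ^ 2 := by linarith [sq_nonneg (‖y + w‖ - ‖w‖)]
  have h3 : (1 + ‖y‖) ^ 2 ≤ 2 * (1 + ‖y‖ ^ 2) := by linarith [sq_nonneg (1 - ‖y‖)]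
  have h4 : 0 ≤ ‖w‖ ^ 2 * ‖y + w‖ ^ 2 := by positivity
  have h5 : ‖w‖ ^ 2 * 1 ≤ ‖w‖ ^ 2 * R ^ 2 := by gcongr
  have h6 : 4 * (1 + ‖w‖ ^ 2) * (R ^ 2 + ‖y + w‖ ^ 2) = 4 * R ^ 2 + 4 * ‖y + w‖ ^ 2 +
    4 * (‖w‖ ^ 2 * R ^ 2) + 4 * (‖w‖ ^ 2 * ‖y + w‖ ^ 2) := by ring
  rw [h6]
  have h7 : 0 ≤ ‖y + w‖ ^ 2 := by positivity
  linarith

theorem E1_sd (R : ℝ) (hR : 1 ≤ R) (y w : ℂ) :
    ‖E1_k R (y + w) + E1_k R (y - w) - 2 * E1_k R y‖ ≤
      (14 * ‖w‖ ^ 2 + 2 * (‖w‖ ^ 2) ^ 2) * (16 * (1 + ‖w‖ ^ 2) ^ 2) * (1 + ‖y‖) ^ (-3 : ℝ) := by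
  set q : ℝ := R ^ 2 + ‖y‖ ^ 2 with hq
  set qp : ℝ := R ^ 2 + ‖y + w‖ ^ 2 with hqp
  set qm : ℝ := R ^ 2 + ‖y - w‖ ^ 2 with hqm
  set s : ℝ := 2 * (y * (starRingEnd ℂ) w).re with hs
  set d : ℝ := ‖w‖ ^ 2 with hd
  have hd0 : 0 ≤ d := by positivity
  have hR1 : 1 ≤ R ^ 2 := by nlinarith
  have q0 : 0 < q := by positivity
  have qp0 : 0 < qp := by positivity
  have qm0 : 0 < qm := by positivity
  have e1 : qp = q + d + s := by
    rw [hqp, hq, hd, hs, Complex.sq_norm, Complex.sq_norm, Complex.sq_norm,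
      Complex.normSq_add]
    ring
  have e2 : qm = q + d - s := by
    rw [hqm, hq, hd, hs, Complex.sq_norm, Complex.sq_norm, Complex.sq_norm,
      Complex.normSq_sub]
    ring
  have hsb : |s| ≤ 2 * (‖y‖ * ‖w‖) := by
    rw [hs, abs_mul, abs_two]
    have := Complex.abs_re_le_norm (y * (starRingEnd ℂ) w)
    rw [norm_mul, Complex.norm_conj] at this
    linarith
  have cq : (q : ℂ) ≠ 0 := by exact_mod_cast q0.ne'
  have cqp : (qp : ℂ) ≠ 0 := by exact_mod_cast qp0.ne'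
  have cqm : (qm : ℂ) ≠ 0 := by exact_mod_cast qm0.ne'
  have key : E1_k R (y + w) + E1_k R (y - w) - 2 * E1_k R y =
      (starRingEnd ℂ) y * ((-2 * q * d - 2 * d ^ 2 + 2 * s ^ 2) / (q * qp * qm) : ℝ) -
        (starRingEnd ℂ) w * ((2 * s / (qp * qm) : ℝ) : ℂ) := by
    unfold E1_k
    rw [← hq, ← hqp, ← hqm]
    rw [map_add, map_sub]
    push_cast
    have c1 : (qp : ℂ) = q + d + s := by rw [e1]; push_cast; ring
    have c2 : (qm : ℂ) = q + d - s := by rw [e2]; push_cast; ring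
    rw [c1] at cqp
    rw [c2] at cqm
    rw [c1, c2]
    field_simp
    ring
  rw [key]
  have hy2 : ‖y‖ ^ 2 ≤ q := by rw [hq]; nlinarith
  have hs2 : s ^ 2 ≤ 4 * q * d := by
    have h1 : s ^ 2 ≤ (2 * (‖y‖ * ‖w‖)) ^ 2 := by
      rw [← sq_abs s]
      exact pow_le_pow_left₀ (abs_nonneg _) hsb 2
    calc s ^ 2 ≤ 4 * (‖y‖ ^ 2) * d := by rw [hd]; nlinarith
      _ ≤ 4 * q * d := by gcongr
  have hq1 : 1 ≤ q := by rw [hq]; nlinarith [sq_nonneg ‖y‖]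
  have b1 : |(-2 * q * d - 2 * d ^ 2 + 2 * s ^ 2)| ≤ q * (10 * d + 2 * d ^ 2) := by
    rw [abs_le]
    have h5 : d ^ 2 ≤ q * d ^ 2 := by nlinarith [sq_nonneg d]
    have h6 : 0 ≤ q * d := by positivity
    have h7 : 0 ≤ s ^ 2 := sq_nonneg s
    constructor
    · nlinarith
    · nlinarith [sq_nonneg d]
  have n1 : ‖(starRingEnd ℂ) y * ((-2 * q * d - 2 * d ^ 2 + 2 * s ^ 2) / (q * qp * qm) : ℝ)‖ ≤
      ‖y‖ * ((10 * d + 2 * d ^ 2) / (qp * qm)) := by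
    rw [norm_mul, Complex.norm_conj, Complex.norm_real, Real.norm_eq_abs, abs_div]
    have h8 : 0 < q * qp * qm := by positivity
    rw [abs_of_pos h8]
    have h9 : (10 * d + 2 * d ^ 2) / (qp * qm) = q * (10 * d + 2 * d ^ 2) / (q * qp * qm) := by
      field_simp
    rw [h9]
    gcongr
  have n2 : ‖(starRingEnd ℂ) w * ((2 * s / (qp * qm) : ℝ) : ℂ)‖ ≤
      ‖y‖ * (4 * d / (qp * qm)) := by
    rw [norm_mul, Complex.norm_conj, Complex.norm_real, Real.norm_eq_abs, abs_div]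
    have h8 : 0 < qp * qm := by positivity
    rw [abs_of_pos h8, abs_mul, abs_two]
    have h9 : ‖w‖ * (2 * |s|) ≤ ‖y‖ * (4 * d) := by
      rw [hd]
      nlinarith [norm_nonneg w, norm_nonneg y]
    calc ‖w‖ * (2 * |s| / (qp * qm)) = ‖w‖ * (2 * |s|) / (qp * qm) := by ring
      _ ≤ ‖y‖ * (4 * d) / (qp * qm) := by gcongr
      _ = _ := by ring
  have low1 : (1 + ‖y‖) ^ 2 ≤ 4 * (1 + d) * qp := E1_low R hR y w
  have low2 : (1 + ‖y‖) ^ 2 ≤ 4 * (1 + d) * qm := by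
    have := E1_low R hR y (-w)
    rwa [norm_neg, ← sub_eq_add_neg] at this
  have hy0 : 0 < 1 + ‖y‖ := by positivity
  have low : (1 + ‖y‖) ^ 4 ≤ 16 * (1 + d) ^ 2 * (qp * qm) := by
    calc (1 + ‖y‖) ^ 4 = (1 + ‖y‖) ^ 2 * (1 + ‖y‖) ^ 2 := by ring
      _ ≤ (4 * (1 + d) * qp) * (4 * (1 + d) * qm) := by gcongr
      _ = _ := by ring
  have hr : (1 + ‖y‖) ^ (-3 : ℝ) = 1 / (1 + ‖y‖) ^ 3 := by
    rw [Real.rpow_neg hy0.le]
    norm_num
  have hfin : ‖y‖ * ((14 * d + 2 * d ^ 2) / (qp * qm)) ≤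
      (14 * d + 2 * d ^ 2) * (16 * (1 + d) ^ 2) * (1 + ‖y‖) ^ (-3 : ℝ) := by
    rw [hr, mul_one_div, ← mul_div_assoc, div_le_div_iff₀ (by positivity) (by positivity)]
    have h5 : ‖y‖ * (1 + ‖y‖) ^ 3 ≤ (1 + ‖y‖) ^ 4 := by
      have : (1 + ‖y‖) ^ 4 = (1 + ‖y‖) * (1 + ‖y‖) ^ 3 := by ring
      rw [this]
      gcongr
      linarith
    have h6 : 0 ≤ 14 * d + 2 * d ^ 2 := by positivity
    calc ‖y‖ * (14 * d + 2 * d ^ 2) * (1 + ‖y‖) ^ 3
        = (14 * d + 2 * d ^ 2) * (‖y‖ * (1 + ‖y‖) ^ 3) := by ring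
      _ ≤ (14 * d + 2 * d ^ 2) * (16 * (1 + d) ^ 2 * (qp * qm)) :=
          mul_le_mul_of_nonneg_left (h5.trans low) h6
      _ = _ := by ring
  calc _ ≤ ‖y‖ * ((10 * d + 2 * d ^ 2) / (qp * qm)) + ‖y‖ * (4 * d / (qp * qm)) :=
        (norm_sub_le _ _).trans (add_le_add n1 n2)
    _ = ‖y‖ * ((14 * d + 2 * d ^ 2) / (qp * qm)) := by ring
    _ ≤ _ := hfin

/-- Summability along a coset of the lattice. -/
theorem E1_summable (a : ℂ) : Summable fun x : O => (1 + ‖a + 3 * e x‖) ^ (-3 : ℝ) := by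
  have h1 : Summable (fun x : O => (1 + ‖e x‖) ^ (-(3 : ℝ))) := summable_e (by norm_num)
  refine h1.of_norm_bounded_eventually ?_
  rw [Filter.eventually_cofinite]
  refine (finite_norm_le (‖a‖ + 1)).subset ?_
  intro x hx
  simp only [Set.mem_ofPred_eq] at hx ⊢
  by_contra hne
  apply hx
  have h2 := b2_low a x (not_le.mp hne).le
  have h3 : 0 < 1 + ‖e x‖ := by positivity
  rw [Real.norm_eq_abs, abs_of_nonneg (by positivity)]
  exact Real.rpow_le_rpow_of_nonpos h3 (by linarith) (by norm_num)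

/-- Second differences of the correction terms. -/
noncomputable def E1_d (R : ℝ) (a w : ℂ) (x : O) : ℂ :=
  E1_k R (a + w + 3 * e x) + E1_k R (a - w + 3 * e x) - 2 * E1_k R (a + 3 * e x)

theorem E1_d_le (R : ℝ) (hR : 1 ≤ R) (a w : ℂ) (x : O) : ‖E1_d R a w x‖ ≤
    (14 * ‖w‖ ^ 2 + 2 * (‖w‖ ^ 2) ^ 2) * (16 * (1 + ‖w‖ ^ 2) ^ 2) *
      (1 + ‖a + 3 * e x‖) ^ (-3 : ℝ) := by
  have h := E1_sd R hR (a + 3 * e x) w
  have e1 : a + 3 * e x + w = a + w + 3 * e x := by ring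
  have e2 : a + 3 * e x - w = a - w + 3 * e x := by ring
  rw [e1, e2] at h
  exact h

theorem E1_d_summable (R : ℝ) (hR : 1 ≤ R) (a w : ℂ) : Summable (E1_d R a w) :=
  ((E1_summable a).mul_left _).of_norm_bounded (E1_d_le R hR a w)

theorem E1_k_tendsto (y : ℂ) : Filter.Tendsto (fun R : ℝ => E1_k R y) Filter.atTop (nhds 0) := by
  unfold E1_k
  have h1 : Filter.Tendsto (fun R : ℝ => R ^ 2 + ‖y‖ ^ 2) Filter.atTop Filter.atTop :=
    Filter.tendsto_atTop_add_const_right _ _ (Filter.tendsto_pow_atTop two_ne_zero)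
  have h2 : Filter.Tendsto (fun R : ℝ => (((R ^ 2 + ‖y‖ ^ 2)⁻¹ : ℝ) : ℂ)) Filter.atTop
      (nhds ((0 : ℝ) : ℂ)) :=
    (Complex.continuous_ofReal.tendsto _).comp (tendsto_inv_atTop_zero.comp h1)
  have h3 := h2.const_mul ((starRingEnd ℂ) y)
  rw [Complex.ofReal_zero, mul_zero] at h3
  refine h3.congr fun R => ?_
  rw [Complex.ofReal_inv, div_eq_mul_inv]

theorem E1_d_tendsto (a w : ℂ) :
    Filter.Tendsto (fun R : ℝ => ∑' x : O, E1_d R a w x) Filter.atTop (nhds 0) := by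
  have h0 : (∑' _ : O, (0 : ℂ)) = 0 := tsum_zero
  rw [← h0]
  refine tendsto_tsum_of_dominated_convergence
    (((E1_summable a).mul_left _)) (fun x => ?_) ?_ (bound := fun x : O =>
      (14 * ‖w‖ ^ 2 + 2 * (‖w‖ ^ 2) ^ 2) * (16 * (1 + ‖w‖ ^ 2) ^ 2) *
      (1 + ‖a + 3 * e x‖) ^ (-3 : ℝ))
  · have := ((E1_k_tendsto (a + w + 3 * e x)).add (E1_k_tendsto (a - w + 3 * e x))).sub
      ((E1_k_tendsto (a + 3 * e x)).const_mul 2)
    simp only [add_zero, mul_zero, sub_zero] at this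
    exact this
  · filter_upwards [Filter.eventually_ge_atTop 1] with R hR x
    exact E1_d_le R hR a w x

theorem sR_summable_aux (R : ℝ) (hR : 0 < R) (z : ℂ) : Summable fun x : O =>
    ‖(z + 3 * e x)⁻¹ * ((R ^ 2 / (R ^ 2 + ‖z + 3 * e x‖ ^ 2) : ℝ) : ℂ)‖ := by
  have h1 : Summable (fun x : O => R ^ 2 * (1 + ‖e x‖) ^ (-(3 : ℝ))) :=
    (summable_e (by norm_num)).mul_left _
  refine h1.of_norm_bounded_eventually ?_
  rw [Filter.eventually_cofinite]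
  refine (finite_norm_le (‖z‖ + 1)).subset ?_
  intro x hx
  simp only [Set.mem_ofPred_eq] at hx ⊢
  by_contra hne
  apply hx
  have h2 := b2_low z x (not_le.mp hne).le
  have h3 : 0 < 1 + ‖e x‖ := by positivity
  have h4 : 0 < ‖z + 3 * e x‖ := by linarith
  rw [norm_norm, norm_mul, norm_inv, Complex.norm_real, Real.norm_eq_abs,
    abs_of_nonneg (by positivity)]
  have h5 : (1 + ‖e x‖) ^ (-(3 : ℝ)) = 1 / (1 + ‖e x‖) ^ 3 := by
    rw [Real.rpow_neg h3.le]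
    norm_num
  rw [h5]
  calc ‖z + 3 * e x‖⁻¹ * (R ^ 2 / (R ^ 2 + ‖z + 3 * e x‖ ^ 2))
      ≤ (1 + ‖e x‖)⁻¹ * (R ^ 2 / ((1 + ‖e x‖) ^ 2)) := by
        gcongr
        nlinarith [sq_nonneg R]
    _ = R ^ 2 * (1 / (1 + ‖e x‖) ^ 3) := by
        field_simp

theorem E1_sR_summable (R : ℝ) (hR : 0 < R) (z : ℂ) : Summable fun x : O =>
    (z + 3 * e x)⁻¹ * ((R ^ 2 / (R ^ 2 + ‖z + 3 * e x‖ ^ 2) : ℝ) : ℂ) :=
  (sR_summable_aux R hR z).of_norm

/-- The second differences of the reciprocals. -/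
noncomputable def E1_T (a w : ℂ) (x : O) : ℂ :=
  (a + w + 3 * e x)⁻¹ + (a - w + 3 * e x)⁻¹ - 2 * (a + 3 * e x)⁻¹

theorem E1_split (R : ℝ) (hR : 0 < R) (a w : ℂ) (x : O) :
    E1_T a w x = ((a + w + 3 * e x)⁻¹ *
        ((R ^ 2 / (R ^ 2 + ‖a + w + 3 * e x‖ ^ 2) : ℝ) : ℂ) +
      (a - w + 3 * e x)⁻¹ * ((R ^ 2 / (R ^ 2 + ‖a - w + 3 * e x‖ ^ 2) : ℝ) : ℂ) -
      2 * ((a + 3 * e x)⁻¹ * ((R ^ 2 / (R ^ 2 + ‖a + 3 * e x‖ ^ 2) : ℝ) : ℂ))) +
      E1_d R a w x := by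
  rw [E1_term R hR, E1_term R hR, E1_term R hR]
  unfold E1_T E1_d
  ring

theorem E1_T_summable (a w : ℂ) : Summable (E1_T a w) := by
  have h1 := (((E1_sR_summable 1 one_pos (a + w)).add (E1_sR_summable 1 one_pos (a - w))).sub
    ((E1_sR_summable 1 one_pos a).mul_left 2)).add (E1_d_summable 1 le_rfl a w)
  refine h1.congr fun x => ?_
  exact (E1_split 1 one_pos a w x).symm

theorem E1_tsum (R : ℝ) (hR : 1 ≤ R) (a w : ℂ) : ∑' x, E1_T a w x =
    sR R (a + w) + sR R (a - w) - 2 * sR R a + ∑' x, E1_d R a w x := by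
  have hR0 : 0 < R := by linarith
  have s1 := E1_sR_summable R hR0 (a + w)
  have s2 := E1_sR_summable R hR0 (a - w)
  have s3 := (E1_sR_summable R hR0 a).mul_left 2
  unfold sR
  rw [← tsum_mul_left, ← s1.tsum_add s2, ← (s1.add s2).tsum_sub s3,
    ← ((s1.add s2).sub s3).tsum_add (E1_d_summable R hR a w)]
  exact tsum_congr fun x => E1_split R hR0 a w x

theorem E1_lim (a w : ℂ) : Filter.Tendsto (fun R : ℝ => sR R (a + w) + sR R (a - w) - 2 * sR R a)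
    Filter.atTop (nhds (∑' x, E1_T a w x)) := by
  have h1 : Filter.Tendsto (fun R : ℝ => (∑' x, E1_T a w x) - ∑' x, E1_d R a w x) Filter.atTop
      (nhds ((∑' x, E1_T a w x) - 0)) := tendsto_const_nhds.sub (E1_d_tendsto a w)
  rw [sub_zero] at h1
  refine h1.congr' ?_
  filter_upwards [Filter.eventually_ge_atTop 1] with R hR
  rw [E1_tsum R hR a w]
  ring

theorem E1_sR_per (R : ℝ) (z : ℂ) (y : O) : sR R (z + 3 * e y) = sR R z := by
  unfold sR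
  rw [← (Equiv.addLeft y).tsum_eq (fun x : O => (z + 3 * e x)⁻¹ *
    ((R ^ 2 / (R ^ 2 + ‖z + 3 * e x‖ ^ 2) : ℝ) : ℂ))]
  refine tsum_congr fun x => ?_
  rw [Equiv.coe_addLeft, map_add]
  have e1 : z + 3 * e y + 3 * e x = z + 3 * (e y + e x) := by ring
  rw [e1]

/-- The function T. -/
noncomputable def E1_F (a w : ℂ) : ℂ := ∑' x, E1_T a w x

theorem E1_F_per (a w : ℂ) (y : O) : E1_F a (w + 3 * e y) = E1_F a w := by
  refine tendsto_nhds_unique (E1_lim a (w + 3 * e y)) ?_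
  refine (E1_lim a w).congr fun R => ?_
  have e1 : a + (w + 3 * e y) = a + w + 3 * e y := by ring
  have e2 : a - (w + 3 * e y) = a - w + 3 * e (-y) := by rw [map_neg]; ring
  rw [e1, e2, E1_sR_per, E1_sR_per]

theorem E1_F_neg (a w : ℂ) : E1_F a (-w) = E1_F a w := by
  unfold E1_F E1_T
  refine tsum_congr fun x => ?_
  rw [sub_neg_eq_add, ← sub_eq_add_neg]
  ring

/-! ### The elliptic function -/

/-- The terms of the sum. -/
noncomputable def E1_tm (a l w : ℂ) : ℂ := 2 / (((a + l) ^ 2 - w ^ 2) * (a + l))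

/-- The sum without one term. -/
noncomputable def E1_Rex (a l₀ w : ℂ) : ℂ :=
  ∑' l : LL.lattice, if l.1 = l₀ then 0 else E1_tm a l.1 w

theorem E1_bound (a : ℂ) (r : ℝ) (hr : 0 < r) (w : ℂ) (hw : ‖w‖ < r) (l : ℂ)
    (h : 2 * r + 2 * ‖a‖ ≤ ‖l‖) : ‖E1_tm a l w‖ ≤ 16 * ‖l‖ ^ (-3 : ℝ) := by
  have ha := norm_nonneg a
  have hl : 0 < ‖l‖ := by linarith
  have h1 : ‖l‖ / 2 ≤ ‖a + l‖ := by
    have := norm_sub_norm_le l (-a)
    rw [norm_neg] at this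
    have e1 : l - -a = a + l := by ring
    rw [e1] at this
    linarith
  have h2 : ‖l‖ / 2 ≤ ‖a + l - w‖ := by
    have := norm_sub_norm_le l (-a + w)
    have e1 : l - (-a + w) = a + l - w := by ring
    rw [e1] at this
    have h3 : ‖-a + w‖ ≤ ‖a‖ + ‖w‖ := by
      refine (norm_add_le _ _).trans ?_
      rw [norm_neg]
    linarith
  have h2' : ‖l‖ / 2 ≤ ‖a + l + w‖ := by
    have := norm_sub_norm_le l (-a - w)
    have e1 : l - (-a - w) = a + l + w := by ring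
    rw [e1] at this
    have h3 : ‖-a - w‖ ≤ ‖a‖ + ‖w‖ := by
      refine (norm_sub_le _ _).trans ?_
      rw [norm_neg]
    linarith
  unfold E1_tm
  have e2 : ((a + l) ^ 2 - w ^ 2) * (a + l) = (a + l - w) * (a + l + w) * (a + l) := by ring
  rw [e2, norm_div, norm_mul, norm_mul]
  have h4 : (‖l‖ / 2) * (‖l‖ / 2) * (‖l‖ / 2) ≤ ‖a + l - w‖ * ‖a + l + w‖ * ‖a + l‖ := by
    gcongr
  have h5 : (‖l‖ : ℝ) ^ (-3 : ℝ) = 1 / ‖l‖ ^ 3 := by
    rw [Real.rpow_neg hl.le]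
    norm_num
  rw [h5]
  have h6 : 0 < (‖l‖ / 2) * (‖l‖ / 2) * (‖l‖ / 2) := by positivity
  calc ‖(2 : ℂ)‖ / (‖a + l - w‖ * ‖a + l + w‖ * ‖a + l‖)
      ≤ ‖(2 : ℂ)‖ / ((‖l‖ / 2) * (‖l‖ / 2) * (‖l‖ / 2)) := by gcongr
    _ = 16 * (1 / ‖l‖ ^ 3) := by
        rw [Complex.norm_ofNat]
        field_simp
        norm_num

theorem E1_hasSum (a l₀ : ℂ) : HasSumLocallyUniformly
    (fun (l : LL.lattice) (w : ℂ) => if l.1 = l₀ then 0 else E1_tm a l.1 w) (E1_Rex a l₀) := by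
  refine LL.hasSumLocallyUniformly_aux (u := fun _ => (16 * ‖·‖ ^ (-3 : ℝ))) _
    (fun _ _ => (ZLattice.summable_norm_rpow _ _ (by simp; norm_num)).mul_left _) fun r hr =>
    Filter.eventually_atTop.mpr ⟨2 * r + 2 * ‖a‖, ?_⟩
  rintro _ h s hs l rfl
  split_ifs
  · rw [norm_zero]
    positivity
  · exact E1_bound a r hr s hs l h

/-- The domain. -/
def E1_U (a l₀ : ℂ) : Set ℂ :=
  {w | w - a ∈ ((LL.lattice : Set ℂ) \ {l₀})ᶜ ∧ -w - a ∈ ((LL.lattice : Set ℂ) \ {l₀})ᶜ}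

theorem E1_U_open (a l₀ : ℂ) : IsOpen (E1_U a l₀) := by
  have h1 : IsOpen {w : ℂ | w - a ∈ ((LL.lattice : Set ℂ) \ {l₀})ᶜ} :=
    LL.isOpen_compl_lattice_sdiff.preimage (by fun_prop)
  have h2 : IsOpen {w : ℂ | -w - a ∈ ((LL.lattice : Set ℂ) \ {l₀})ᶜ} :=
    LL.isOpen_compl_lattice_sdiff.preimage (by fun_prop)
  exact h1.inter h2

theorem E1_ne {a : ℂ} (ha : a ∉ Lam) {l : ℂ} (hl : l ∈ LL.lattice) : a + l ≠ 0 := by
  intro h
  apply ha
  have : a = -l := by linear_combination h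
  rw [this, ← mem_LL]
  exact neg_mem hl

theorem E1_analytic {a : ℂ} (ha : a ∉ Lam) (l₀ : ℂ) :
    AnalyticOnNhd ℂ (E1_Rex a l₀) (E1_U a l₀) := by
  refine DifferentiableOn.analyticOnNhd ?_ (E1_U_open a l₀)
  refine (E1_hasSum a l₀).hasSumLocallyUniformlyOn.differentiableOn
    (.of_forall fun s => .fun_sum fun i hi => ?_) (E1_U_open a l₀)
  split_ifs with hl
  · exact differentiableOn_const 0
  · unfold E1_tm
    refine .div (by fun_prop) (by fun_prop) ?_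
    intro w hw
    refine mul_ne_zero ?_ (E1_ne ha i.2)
    have e1 : (a + (i : ℂ)) ^ 2 - w ^ 2 = (a + i - w) * (a + i + w) := by ring
    rw [e1]
    refine mul_ne_zero ?_ ?_
    · intro h
      apply hw.1
      have e2 : w - a = i := by linear_combination -h
      rw [e2]
      exact ⟨i.2, hl⟩
    · intro h
      apply hw.2
      have e2 : -w - a = i := by linear_combination -h
      rw [e2]
      exact ⟨i.2, hl⟩

theorem E1_F_eq {a : ℂ} (ha : a ∉ Lam) {w : ℂ} (h1 : a + w ∉ Lam) (h2 : a - w ∉ Lam) :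
    E1_F a w = w ^ 2 * ∑' l : LL.lattice, E1_tm a l.1 w := by
  unfold E1_F
  rw [← A1_equiv.tsum_eq, ← tsum_mul_left]
  congr 1
  funext x
  show (a + w + 3 * e x)⁻¹ + (a - w + 3 * e x)⁻¹ - 2 * (a + 3 * e x)⁻¹ =
    w ^ 2 * (2 / (((a + 3 * e x) ^ 2 - w ^ 2) * (a + 3 * e x)))
  have n1 : a + w + 3 * e x ≠ 0 := by
    intro h
    apply h1
    exact ⟨-x, by rw [map_neg]; linear_combination h⟩
  have n2 : a - w + 3 * e x ≠ 0 := by
    intro h
    apply h2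
    exact ⟨-x, by rw [map_neg]; linear_combination h⟩
  have n3 : a + 3 * e x ≠ 0 := E1_ne ha ((mem_LL _).2 ⟨x, rfl⟩)
  have e1 : (a + 3 * e x) ^ 2 - w ^ 2 = (a + w + 3 * e x) * (a - w + 3 * e x) := by ring
  rw [e1]
  field_simp
  ring

theorem E1_F_one {a : ℂ} (ha : a ∉ Lam) {w : ℂ} (h1 : a + w ∉ Lam) (h2 : a - w ∉ Lam) :
    E1_F a w = w ^ 2 * E1_Rex a a w := by
  rw [E1_F_eq ha h1 h2]
  congr 1
  unfold E1_Rex
  congr 1
  funext l
  rw [if_neg]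
  intro h
  apply ha
  rw [← h, ← mem_LL]
  exact l.2

theorem E1_Rex_add (a w : ℂ) :
    ∑' l : LL.lattice, E1_tm a l.1 w = E1_Rex a 0 w + E1_tm a 0 w := by
  classical
  have h0 : (∑' l : LL.lattice, if l = 0 then E1_tm a 0 w else 0) = E1_tm a 0 w := by
    rw [tsum_ite_eq]
  conv_rhs => rw [← h0]
  unfold E1_Rex
  rw [← Summable.tsum_add]
  · congr 1
    funext l
    by_cases hl : l.1 = 0
    · have hl' : l = 0 := Subtype.ext hl
      rw [if_pos hl, if_pos hl', zero_add, hl]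
    · have hl' : l ≠ 0 := fun h => hl (by rw [h]; rfl)
      rw [if_neg hl, if_neg hl', add_zero]
  · exact ⟨_, (E1_hasSum a 0).hasSum⟩
  · exact summable_of_hasFiniteSupport ((Set.finite_singleton (0 : LL.lattice)).subset (by simp))

theorem E1_F_zero {a : ℂ} (ha : a ∉ Lam) {w : ℂ} (h1 : a + w ∉ Lam) (h2 : a - w ∉ Lam) :
    E1_F a w = w ^ 2 * (E1_Rex a 0 w + 2 / ((a ^ 2 - w ^ 2) * a)) := by
  rw [E1_F_eq ha h1 h2, E1_Rex_add]
  congr 2
  unfold E1_tm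
  rw [add_zero]

theorem E1_Rex_zero {a : ℂ} (ha : a ∉ Lam) : E1_Rex a a 0 = -wpd a := by
  unfold E1_Rex wpd PeriodPair.derivWeierstrassP
  rw [neg_neg, ← (Equiv.neg LL.lattice).tsum_eq]
  congr 1
  funext l
  have hl : l.1 ∈ LL.lattice := l.2
  rw [if_neg]
  · show E1_tm a (-l.1) 0 = 2 / (a - l.1) ^ 3
    unfold E1_tm
    congr 1
    ring
  · intro h
    apply ha
    have h' : -l.1 = a := h
    rw [← h', ← mem_LL]
    exact neg_mem hl

theorem E1_ev (a z₀ : ℂ) : ∀ᶠ z in nhdsWithin z₀ {z₀}ᶜ, a + z ∉ Lam ∧ a - z ∉ Lam := by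
  have h1 := (A1_tendsto (fun z => a + z) z₀ (by fun_prop) (fun b c h => by
    have : a + b = a + c := h
    linear_combination this)).eventually (A1_discrete _)
  have h2 := (A1_tendsto (fun z => a - z) z₀ (by fun_prop) (fun b c h => by
    have : a - b = a - c := h
    linear_combination -this)).eventually (A1_discrete _)
  filter_upwards [h1, h2] with z h3 h4 using ⟨h3, h4⟩

/-- The elliptic function. -/
noncomputable def E1_D (a w : ℂ) : ℂ := E1_F a w * (wp a - wp w)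

/-- Removable singularity. -/
def E1_Rem (a z₀ : ℂ) : Prop := ∃ b : ℂ → ℂ, AnalyticAt ℂ b z₀ ∧
  ∀ᶠ z in nhdsWithin z₀ {z₀}ᶜ, E1_D a z = b z

theorem E1_D_per (a z : ℂ) (y : O) : E1_D a (z + 3 * e y) = E1_D a z := by
  unfold E1_D
  rw [E1_F_per, wp_per]

theorem E1_D_neg (a z : ℂ) : E1_D a (-z) = E1_D a z := by
  unfold E1_D
  rw [E1_F_neg, wp_neg]

theorem E1_Rem_per {a z₀ : ℂ} (h : E1_Rem a z₀) (y : O) : E1_Rem a (z₀ + 3 * e y) := by
  obtain ⟨b, ha, h⟩ := h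
  refine ⟨fun z => b (z - 3 * e y), ?_, ?_⟩
  · have : AnalyticAt ℂ b ((z₀ + 3 * e y) - 3 * e y) := by rw [add_sub_cancel_right]; exact ha
    exact this.comp (f := fun w : ℂ => w - 3 * e y) (by fun_prop)
  · have ht := A1_tendsto (fun z => z - 3 * e y) (z₀ + 3 * e y) (by fun_prop) (fun a b h => by
      have : a - 3 * e y = b - 3 * e y := h
      linear_combination this)
    simp only [add_sub_cancel_right] at ht
    filter_upwards [ht.eventually h] with z h3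
    rw [← h3, ← E1_D_per a (z - 3 * e y) y, sub_add_cancel]

theorem E1_Rem_neg {a z₀ : ℂ} (h : E1_Rem a z₀) : E1_Rem a (-z₀) := by
  obtain ⟨b, ha, h⟩ := h
  refine ⟨fun z => b (-z), ?_, ?_⟩
  · have : AnalyticAt ℂ b (-(-z₀)) := by rw [neg_neg]; exact ha
    exact this.comp (f := fun w : ℂ => -w) (by fun_prop)
  · have ht := A1_tendsto (fun z => -z) (-z₀) (by fun_prop) neg_injective
    simp only [neg_neg] at ht
    filter_upwards [ht.eventually h] with z h3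
    rw [← h3, E1_D_neg]

theorem E1_U_one {a z : ℂ} (h1 : a + z ∉ Lam) (h2 : a - z ∉ Lam) (l₀ : ℂ) : z ∈ E1_U a l₀ := by
  constructor
  · intro h
    apply h2
    have := A1_neg_mem ((mem_LL _).1 h.1)
    have e1 : -(z - a) = a - z := by ring
    rwa [e1] at this
  · intro h
    apply h1
    have := A1_neg_mem ((mem_LL _).1 h.1)
    have e1 : -(-z - a) = a + z := by ring
    rwa [e1] at this

theorem E1_D_analytic {a z : ℂ} (ha : a ∉ Lam) (h0 : z ∉ Lam) (h1 : a + z ∉ Lam)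
    (h2 : a - z ∉ Lam) : AnalyticAt ℂ (E1_D a) z := by
  have a1 := E1_analytic ha a z (E1_U_one h1 h2 a)
  have a2 := A1_wp_analytic h0
  have a3 : AnalyticAt ℂ (fun w => w ^ 2 * E1_Rex a a w * (wp a - wp w)) z := by fun_prop
  refine a3.congr ?_
  have o1 : ∀ᶠ w in nhds z, a + w ∉ Lam :=
    (A1_open.preimage (f := fun w : ℂ => a + w) (by fun_prop)).mem_nhds h1
  have o2 : ∀ᶠ w in nhds z, a - w ∉ Lam :=
    (A1_open.preimage (f := fun w : ℂ => a - w) (by fun_prop)).mem_nhds h2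
  filter_upwards [o1, o2] with w h3 h4
  unfold E1_D
  rw [E1_F_one ha h3 h4]

theorem E1_at_zero {a : ℂ} (ha : a ∉ Lam) : ∃ b : ℂ → ℂ, AnalyticAt ℂ b 0 ∧ b 0 = wpd a ∧
    ∀ᶠ z in nhdsWithin (0 : ℂ) {0}ᶜ, E1_D a z = b z := by
  obtain ⟨u, hu, hu0, hexp⟩ := wp_expansion
  have hU : (0 : ℂ) ∈ E1_U a a := by
    apply E1_U_one
    · rw [add_zero]; exact ha
    · rw [sub_zero]; exact ha
  have a1 := E1_analytic ha a 0 hU
  refine ⟨fun w => E1_Rex a a w * (w ^ 2 * wp a - 1 - w ^ 6 * u w), by fun_prop, ?_, ?_⟩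
  · simp only
    rw [E1_Rex_zero ha]
    ring
  · filter_upwards [hexp, E1_ev a 0, self_mem_nhdsWithin] with w h1 h2 hw
    have hw' : w ≠ 0 := hw
    unfold E1_D
    rw [E1_F_one ha h2.1 h2.2, h1]
    field_simp
    ring

theorem E1_at_a {a : ℂ} (ha : a ∉ Lam) (h2a : 2 * a ∉ Lam) : E1_Rem a a := by
  have ha0 : a ≠ 0 := by
    rintro rfl
    exact ha A1_zero_mem
  have hU : a ∈ E1_U a 0 := by
    constructor
    · intro h
      apply h.2
      rw [sub_self]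
      rfl
    · intro h
      apply h2a
      have := A1_neg_mem ((mem_LL _).1 h.1)
      have e1 : -(-a - a) = 2 * a := by ring
      rwa [e1] at this
  have a1 := E1_analytic ha 0 a hU
  have a2 := A1_wp_analytic ha
  have a3 : AnalyticAt ℂ (dslope wp a) a := by
    obtain ⟨p, hp⟩ := a2
    exact ⟨_, hp.has_fpower_series_dslope_fslope⟩
  have a4 : AnalyticAt ℂ (fun w : ℂ => 2 * w ^ 2 / ((a + w) * a)) a := by
    refine AnalyticAt.div (by fun_prop) (by fun_prop) ?_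
    refine mul_ne_zero ?_ ha0
    rw [← two_mul]
    exact mul_ne_zero two_ne_zero ha0
  obtain ⟨q, hq⟩ : ∃ q : ℂ → ℂ, q = fun w : ℂ => 2 * w ^ 2 / ((a + w) * a) := ⟨_, rfl⟩
  rw [← hq] at a4
  refine ⟨fun w => w ^ 2 * E1_Rex a 0 w * (wp a - wp w) + q w * dslope wp a w, by fun_prop, ?_⟩
  filter_upwards [E1_ev a a, self_mem_nhdsWithin] with w h2 hw
  have hw' : w ≠ a := hw
  have hw1 : a - w ≠ 0 := sub_ne_zero.2 hw'.symm
  have hw1' : w - a ≠ 0 := sub_ne_zero.2 hw'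
  have hw2 : a + w ≠ 0 := by
    intro h
    apply h2.1
    rw [h]
    exact A1_zero_mem
  unfold E1_D
  rw [E1_F_zero ha h2.1 h2.2, hq, dslope_of_ne _ hw', slope_def_field]
  have e1 : a ^ 2 - w ^ 2 = (a - w) * (a + w) := by ring
  rw [e1]
  field_simp
  ring

theorem E1_all {a : ℂ} (ha : a ∉ Lam) (h2a : 2 * a ∉ Lam) (z₀ : ℂ) : E1_Rem a z₀ := by
  by_cases c0 : z₀ ∈ Lam
  · obtain ⟨y, hy⟩ := c0
    obtain ⟨b, hb, -, h⟩ := E1_at_zero ha
    have h0 : E1_Rem a 0 := ⟨b, hb, h⟩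
    have := E1_Rem_per h0 y
    rwa [zero_add, ← hy] at this
  · by_cases c1 : a + z₀ ∈ Lam
    · obtain ⟨y, hy⟩ := c1
      have h1 := E1_Rem_per (E1_Rem_neg (E1_at_a ha h2a)) y
      have e1 : -a + 3 * e y = z₀ := by linear_combination -hy
      rwa [e1] at h1
    · by_cases c2 : a - z₀ ∈ Lam
      · obtain ⟨y, hy⟩ := c2
        have h1 := E1_Rem_per (E1_at_a ha h2a) (-y)
        have e1 : a + 3 * e (-y) = z₀ := by rw [map_neg]; linear_combination hy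
        rwa [e1] at h1
      · exact ⟨E1_D a, E1_D_analytic ha c0 c1 c2, Filter.Eventually.of_forall fun z => rfl⟩

/-- The half period case. -/
theorem E1_half {a : ℂ} (h2a : 2 * a ∈ Lam) (w : ℂ) : E1_F a w = 0 := by
  obtain ⟨y, hy⟩ := h2a
  have h1 : E1_F a w = -E1_F a w := by
    conv_lhs => unfold E1_F
    rw [← (Equiv.subLeft (-y)).tsum_eq (E1_T a w)]
    unfold E1_F
    rw [← tsum_neg]
    refine tsum_congr fun x => ?_
    show E1_T a w (-y - x) = -E1_T a w x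
    unfold E1_T
    have e1 : a + w + 3 * e (-y - x) = -(a - w + 3 * e x) := by
      rw [map_sub, map_neg]
      linear_combination hy
    have e2 : a - w + 3 * e (-y - x) = -(a + w + 3 * e x) := by
      rw [map_sub, map_neg]
      linear_combination hy
    have e3 : a + 3 * e (-y - x) = -(a + 3 * e x) := by
      rw [map_sub, map_neg]
      linear_combination hy
    rw [e1, e2, e3, inv_neg, inv_neg, inv_neg]
    ring
  have h2 : 2 * E1_F a w = 0 := by linear_combination h1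
  rcases mul_eq_zero.1 h2 with h | h
  · norm_num at h
  · exact h

theorem E1_wpd_half {a : ℂ} (h2a : 2 * a ∈ Lam) : wpd a = 0 := by
  obtain ⟨y, hy⟩ := h2a
  have h3 := A0_wpd_per (-a) y
  rw [← hy, A0_wpd_neg] at h3
  have h4 : -a + 2 * a = a := by ring
  rw [h4] at h3
  have h7 : 2 * wpd a = 0 := by linear_combination h3
  rcases mul_eq_zero.1 h7 with h | h
  · norm_num at h
  · exact h

/-! Chunk E1 (M/L). The second difference sum at a general base point: copy of H55B/A1 (R_identity, base point 1). For a not in Lam put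
T(w) = sum_x 1/(a+w+3x) + 1/(a-w+3x) - 2/(a+3x) = sum 2 w^2 / (((a+l)^2 - w^2)(a+l)), absolutely convergent. D(w) = T(w)(wp a - wp w) is even and Lam-periodic in w (T: shift of
the summation, telescoping of absolutely convergent sums as in R_per in H55B), and has removable singularities at all points: at 0 (wp w = w^(-2) + .., T(w) = w^2 * (-wpd(a)) + .. because sum 2/(a+l)^3 =
-wpd(a)), at ±a mod Lam (simple pole of T, simple zero of wp a - wp w; if a is a half period wp - wp a has a double zero). So D is constant (A0_liouville) and D(0) = wpd a.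
Reuse A1_tm, A1_bound etc. by replacing 1 with a; everything needed from A1 is a general lemma or its copy. -/

theorem T_formula (a w : ℂ) (ha : a ∉ Lam) (hw : w ∉ Lam) (h1 : a + w ∉ Lam) (h2 : a - w ∉ Lam) :
    ∃ T : ℂ, HasSum (fun x : O => (a + w + 3 * e x)⁻¹ + (a - w + 3 * e x)⁻¹ -
      2 * (a + 3 * e x)⁻¹) T ∧ T * (wp a - wp w) = wpd a := by
  refine ⟨E1_F a w, (E1_T_summable a w).hasSum, ?_⟩
  by_cases h2a : 2 * a ∈ Lam
  · rw [E1_half h2a, E1_wpd_half h2a, zero_mul]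
  · obtain ⟨c, hc⟩ := A0_liouville (E1_D a) (E1_D_per a) (E1_all ha h2a)
    obtain ⟨b, hb, hb0, h⟩ := E1_at_zero ha
    have e1 := hc 0 b hb.continuousAt h
    have e2 : E1_D a w = c := hc w (E1_D a) (E1_D_analytic ha hw h1 h2).continuousAt
      (Filter.Eventually.of_forall fun z => rfl)
    show E1_D a w = wpd a
    rw [e2, ← e1, hb0]

end H55N
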