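import Mathlib
import Pool.Agent.Lib.H55N.E1

open NumberField IsDedekindDomain

namespace H55N

open H55B

/-! Chunk E3 (M). y^(-1) R^2/(R^2+|y|^2) = y^(-1) - k_R(y), k_R(y) = conj(y)/(R^2+|y|^2), for y <> 0. Each sR R z converges absolutely (terms O(R^2 |y|^(-3))). So
sR(a+w) + sR(a-w) - 2 sR(a) = sum of the second differences of 1/y (absolutely convergent: T_formula gives HasSum, hence Summable in C) minus the sum of the second differences of k_R.
The latter tends to 0: termwise k_R(y) -> 0, and |k_R(y+w) + k_R(y-w) - 2k_R(y)| <= C(w) (1+|y|)^(-3) for all R >= 1, y in C: this is Dif w' univ k_R y up to the sign, with M = C,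
X = univ, ι = Fin 2, w' = ![w, -w], and conj(y) is Good with weight 1+|y|, gains (1+|y|)^(-1), R^2+|y|^2 is Good with weight R^2+|y|^2 (>= (1+|y|)^2/2), so k_R is Good with weight
(1+|y|)/(R^2+|y|^2) <= 2/(1+|y|) (Good.inv, Good.mul, SV: easy). Or a direct estimate. Dominated convergence tendsto_tsum_of_dominated_convergence, H55B.summable_e. -/

theorem sR_summable (R : ℝ) (hR : 0 < R) (z : ℂ) : Summable fun x : O =>
    ‖(z + 3 * e x)⁻¹ * ((R ^ 2 / (R ^ 2 + ‖z + 3 * e x‖ ^ 2) : ℝ) : ℂ)‖ :=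
  sR_summable_aux R hR z

theorem sR_diff (a w T : ℂ) (ha : a ∉ Lam) (hw : w ∉ Lam) (h1 : a + w ∉ Lam) (h2 : a - w ∉ Lam)
    (hT : HasSum (fun x : O => (a + w + 3 * e x)⁻¹ + (a - w + 3 * e x)⁻¹ -
      2 * (a + 3 * e x)⁻¹) T) :
    Filter.Tendsto (fun R : ℝ => sR R (a + w) + sR R (a - w) - 2 * sR R a) Filter.atTop (nhds T) := by
  have h := E1_lim a w
  have h3 : ∑' x, E1_T a w x = T := hT.tsum_eq
  rwa [h3] at h

end H55N
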