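import Mathlib
import Pool.Agent.Lib.H55N.E2
import Pool.Agent.Lib.H55N.E3

open NumberField IsDedekindDomain

namespace H55N

open H55B

/-! Chunk E4 (M). Symmetries (reindex the sum: x -> -x, x -> x + y, x -> om x; |e om| = 1, (e om)^3 = 1) and the duplication formula.
sR_double: T(z,2z) - T(2z,z) where T(a,w) = lim sR(a+w) + sR(a-w) - 2 sR(a) (T_formula, sR_diff): sR(3z) + sR(-z) - 2 sR(z) - (sR(3z) + sR(z) - 2 sR(2z)) = 2 sR(2z) - 4 sR(z);
T(z,2z)(wp z - wp 2z) = wpd z, T(2z,z)(wp 2z - wp z) = wpd 2z; wpd z <> 0 (wpd_double) so wp z <> wp 2z and the difference is (wpd z + wpd 2z)/(wp z - wp 2z) = 6 wp z^2/wpd z.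
sR_one: T with a = 1, w = om - 1: 1 + w = om, 1 - w = 2 - om = om^2 + 3 (mod 3O: 2 - om - om^2 = 3): sR(om) + sR(om^2) - 2 sR(1) = (om^(-1) + om^(-2) - 2) sR(1) = -3 sR(1), and the limit
is R (e om - 1) = R0 (definition of R; the HasSum is T_formula, tsum). -/

theorem sR_neg (R : ℝ) (z : ℂ) : sR R (-z) = -sR R z := by
  unfold sR
  rw [← (Equiv.neg O).tsum_eq (fun x : O => (-z + 3 * e x)⁻¹ *
    ((R ^ 2 / (R ^ 2 + ‖-z + 3 * e x‖ ^ 2) : ℝ) : ℂ)), ← tsum_neg]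
  refine tsum_congr fun x => ?_
  rw [Equiv.neg_apply, map_neg]
  have e1 : -z + 3 * -e x = -(z + 3 * e x) := by ring
  rw [e1, norm_neg, inv_neg, neg_mul]

theorem sR_per (R : ℝ) (z : ℂ) (y : O) : sR R (z + 3 * e y) = sR R z :=
  E1_sR_per R z y

theorem sR_om (R : ℝ) (z : ℂ) : sR R (e om * z) = e om ^ 2 * sR R z := by
  unfold sR
  rw [← b2_eq.tsum_eq (fun x : O => (e om * z + 3 * e x)⁻¹ *
    ((R ^ 2 / (R ^ 2 + ‖e om * z + 3 * e x‖ ^ 2) : ℝ) : ℂ)), ← tsum_mul_left]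
  refine tsum_congr fun x => ?_
  have e1 : e om * z + 3 * e (b2_eq x) = e om * (z + 3 * e x) := by
    show e om * z + 3 * e (om * x) = _
    rw [map_mul]
    ring
  have e2 : (e om)⁻¹ = e om ^ 2 := by
    apply inv_eq_of_mul_eq_one_right
    rw [← pow_succ']
    exact A0_om_cube
  rw [e1, norm_mul, norm_e_om, one_mul, mul_inv, e2]
  ring

theorem sR_double (z : ℂ) (h1 : z ∉ Lam) (h2 : 2 * z ∉ Lam) (h3 : 3 * z ∉ Lam) :
    Filter.Tendsto (fun R : ℝ => sR R (2 * z) - 2 * sR R z) Filter.atTop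
      (nhds (3 * wp z ^ 2 / wpd z)) := by
  have e1 : z + 2 * z = 3 * z := by ring
  have e2 : z - 2 * z = -z := by ring
  have e3 : 2 * z + z = 3 * z := by ring
  have e4 : 2 * z - z = z := by ring
  have n1 : -z ∉ Lam := fun h => h1 (by simpa using A1_neg_mem h)
  obtain ⟨T1, hT1, f1⟩ := T_formula z (2 * z) h1 h2 (by rw [e1]; exact h3) (by rw [e2]; exact n1)
  obtain ⟨T2, hT2, f2⟩ := T_formula (2 * z) z h2 h1 (by rw [e3]; exact h3) (by rw [e4]; exact h1)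
  have t1 := sR_diff z (2 * z) T1 h1 h2 (by rw [e1]; exact h3) (by rw [e2]; exact n1) hT1
  have t2 := sR_diff (2 * z) z T2 h2 h1 (by rw [e3]; exact h3) (by rw [e4]; exact h1) hT2
  have t3 := (t1.sub t2).const_mul (1 / 2)
  obtain ⟨hy, hd⟩ := wpd_double z h1 h2
  have hne : wp z - wp (2 * z) ≠ 0 := by
    intro h
    rw [h, mul_zero] at f1
    exact hy f1.symm
  have hlim : (1 / 2 : ℂ) * (T1 - T2) = 3 * wp z ^ 2 / wpd z := by
    rw [eq_div_iff hy]
    have h5 : (wp z - wp (2 * z)) * ((1 / 2 : ℂ) * (T1 - T2) * wpd z - 3 * wp z ^ 2) = 0 := by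
      linear_combination (1 / 2) * wpd z * f1 + (1 / 2) * wpd z * f2 + (1 / 2) * hd
    rcases mul_eq_zero.1 h5 with h | h
    · exact absurd h hne
    · linear_combination h
  rw [hlim] at t3
  refine t3.congr fun R => ?_
  rw [e1, e2, e3, e4, sR_neg]
  ring

theorem sR_one : Filter.Tendsto (fun R : ℝ => sR R 1) Filter.atTop (nhds (-R0 / 3)) := by
  have t1 := E1_lim 1 (e om - 1)
  have h1 : ∑' x, E1_T 1 (e om - 1) x = R0 := rfl
  rw [h1] at t1
  have t2 := t1.const_mul (-1 / 3 : ℂ)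
  have h2 : (-1 / 3 : ℂ) * R0 = -R0 / 3 := by ring
  rw [h2] at t2
  refine t2.congr fun R => ?_
  have e1 : (1 : ℂ) + (e om - 1) = e om * 1 := by ring
  have e2 : (1 : ℂ) - (e om - 1) = e om * (e om * 1) + 3 * e 1 := by
    rw [map_one]
    linear_combination -e_om_rel
  rw [e1, e2, sR_per, sR_om R (e om * 1), sR_om R 1]
  linear_combination (-1 / 3 : ℂ) * sR R 1 * (e_om_rel + e om * A0_om_cube)

end H55N
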