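import Mathlib
import Pool.Agent.Lib.H55B.D0
import Pool.Agent.Lib.H55N.Defs
import Pool.Agent.Lib.H55N.E2

open NumberField IsDedekindDomain

namespace H55N

open H55B

/-! Chunk E5 (M). Integrality above 2 at points of odd order. Let X(w) = 9 wp(w)/R0^2, Y(w) = 27 wpd(w)/R0^3; R0^2 = 3 wp(1) (R0 wp(1) = wpd(1), wpd(1)^2 = 3 wp(1)^3: see
exists_X and A3_g3), R0 <> 0; so X(2w)(4X(w)^3 - 27) = X(w)^4 + 54 X(w) (wp_double) and Y^2 = 4X^3 - 27 (wp_ode, g₃ = wp(1)^3).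
V = valuation with v(2) < 1. For w of odd order not in Lam all 2^i w are not in Lam, and 2^r w = w mod Lam for some r > 0 (2 is invertible modulo k). If v(X(w)) > 1 then
v(4X^3 - 27) <= max(v(4) v(X)^3, 1) and v(X^4+54X) = v(X)^4, so v(X(2w)) >= v(X)^4/max(v(4)v(X)^3, 1) > v(X), > 1; by induction v(X(2^i w)) is strictly increasing, contradicting periodicity
(X(w + 3y) = X(w)). So v(X) <= 1, v(4X^3) < 1 = v(27), v(Y) = 1, and 3 wp^2/wpd/R0 = X^2/Y is integral. -/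

theorem E5_int_mul {z : ℂ} (h : z ∈ Lam) (a : ℤ) : (a : ℂ) * z ∈ Lam := by
  obtain ⟨y, hy⟩ := h
  refine ⟨a * y, ?_⟩
  rw [hy, map_mul, map_intCast]
  ring

theorem E5_mem {z : ℂ} {n k : ℕ} (hc : Nat.Coprime n k) (h1 : (n : ℂ) * z ∈ Lam)
    (h2 : (k : ℂ) * z ∈ Lam) : z ∈ Lam := by
  obtain ⟨a, b, hab⟩ := Nat.isCoprime_iff_coprime.2 hc
  have h3 := A1_add_mem (E5_int_mul h1 a) (E5_int_mul h2 b)
  have h4 : (a : ℂ) * ((n : ℂ) * z) + (b : ℂ) * ((k : ℂ) * z) = z := by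
    have h5 : ((a * n + b * k : ℤ) : ℂ) = 1 := by rw [hab, Int.cast_one]
    push_cast at h5
    linear_combination z * h5
  rwa [h4] at h3

theorem E5_pow {k : ℕ} (hk : Odd k) : ∃ r : ℕ, 0 < r ∧ ∃ q : ℕ, 2 ^ r = 1 + k * q := by
  have hc : Nat.Coprime 2 k := (Nat.coprime_two_left).2 hk
  have hk0 : 0 < k := hk.pos
  refine ⟨k.totient, Nat.totient_pos.2 hk0, ?_⟩
  have h := (Nat.ModEq.pow_totient hc).symm
  have h1 : k ∣ 2 ^ k.totient - 1 := (Nat.modEq_iff_dvd' Nat.one_le_two_pow).1 h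
  obtain ⟨q, hq⟩ := h1
  refine ⟨q, ?_⟩
  rw [← hq]
  have : 1 ≤ 2 ^ k.totient := Nat.one_le_two_pow
  omega

theorem E5_pow_mem {z : ℂ} {k : ℕ} (hk : Odd k) (hz : z ∉ Lam) (hkz : (k : ℂ) * z ∈ Lam)
    (i : ℕ) : (2 : ℂ) ^ i * z ∉ Lam := by
  intro h
  apply hz
  have hc : Nat.Coprime (2 ^ i) k := Nat.Coprime.pow_left i ((Nat.coprime_two_left).2 hk)
  refine E5_mem hc ?_ hkz
  push_cast
  exact h

theorem E5_R0 : R0 ^ 2 = 3 * wp 1 ∧ R0 ≠ 0 := by
  have hx := A3_wp_one_ne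
  have hR0 : R0 * wp 1 = wpd 1 := by
    have h1 := R_identity (e om - 1) A3_n1 A3_n2 A3_n3
    rwa [wp_zero_at, sub_zero] at h1
  have h2 := wp_ode 1 A1_one_notMem
  rw [A3_g3, ← hR0] at h2
  have h3 : wp 1 ^ 2 * (R0 ^ 2 - 3 * wp 1) = 0 := by linear_combination h2
  have h4 : R0 ^ 2 = 3 * wp 1 := by
    rcases mul_eq_zero.1 h3 with h | h
    · exact absurd h (pow_ne_zero 2 hx)
    · linear_combination h
  refine ⟨h4, ?_⟩
  intro h
  rw [h] at h4
  apply hx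
  linear_combination -(1 / 3) * h4

/-- The normalised coordinates. -/
noncomputable def E5_X (w : ℂ) : ℂ := 9 * wp w / R0 ^ 2

noncomputable def E5_Y (w : ℂ) : ℂ := 27 * wpd w / R0 ^ 3

theorem E5_dup {w : ℂ} (h1 : w ∉ Lam) (h2 : 2 * w ∉ Lam) :
    E5_X (2 * w) * (4 * E5_X w ^ 3 - 27) = E5_X w ^ 4 + 54 * E5_X w := by
  obtain ⟨hR, hR0⟩ := E5_R0
  have hx := A3_wp_one_ne
  have h3 := wp_double w h1 h2
  rw [A3_g3] at h3
  unfold E5_X
  rw [hR]
  have h4 : wp (2 * w) * (4 * wp w ^ 3 - wp 1 ^ 3) * 81 / wp 1 ^ 4 =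
    (wp w ^ 4 + 2 * wp 1 ^ 3 * wp w) * 81 / wp 1 ^ 4 := by rw [h3]
  have e1 : 9 * wp (2 * w) / (3 * wp 1) * (4 * (9 * wp w / (3 * wp 1)) ^ 3 - 27) =
    wp (2 * w) * (4 * wp w ^ 3 - wp 1 ^ 3) * 81 / wp 1 ^ 4 := by
    field_simp
    ring
  have e2 : (9 * wp w / (3 * wp 1)) ^ 4 + 54 * (9 * wp w / (3 * wp 1)) =
    (wp w ^ 4 + 2 * wp 1 ^ 3 * wp w) * 81 / wp 1 ^ 4 := by
    field_simp
    ring
  rw [e1, e2, h4]

theorem E5_ode {w : ℂ} (h1 : w ∉ Lam) : E5_Y w ^ 2 = 4 * E5_X w ^ 3 - 27 := by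
  obtain ⟨hR, hR0⟩ := E5_R0
  have hx := A3_wp_one_ne
  have h3 := wp_ode w h1
  rw [A3_g3] at h3
  have e1 : E5_Y w ^ 2 = 27 * wpd w ^ 2 / wp 1 ^ 3 := by
    unfold E5_Y
    have : (27 * wpd w / R0 ^ 3) ^ 2 = 729 * wpd w ^ 2 / (R0 ^ 2) ^ 3 := by
      field_simp
      ring
    rw [this, hR]
    field_simp
    ring
  rw [e1, h3]
  unfold E5_X
  rw [hR]
  field_simp
  ring

theorem E5_target {w : ℂ} (hy : wpd w ≠ 0) :
    3 * wp w ^ 2 / wpd w / R0 = E5_X w ^ 2 / E5_Y w := by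
  obtain ⟨hR, hR0⟩ := E5_R0
  unfold E5_X E5_Y
  field_simp
  ring

theorem E5_step (V : ValuationSubring ℂ) (hV : V.valuation 2 < 1) {w : ℂ} (h1 : w ∉ Lam)
    (h2 : 2 * w ∉ Lam) (hX : 1 < V.valuation (E5_X w)) :
    V.valuation (E5_X w) < V.valuation (E5_X (2 * w)) := by
  set ξ := V.valuation (E5_X w) with hξ
  have hd := congrArg V.valuation (E5_dup h1 h2)
  rw [map_mul] at hd
  have v4 : V.valuation 4 < 1 := by
    have := val_even V hV 4 (by decide)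
    exact_mod_cast this
  have v54 : V.valuation 54 < 1 := by
    have := val_even V hV 54 (by decide)
    exact_mod_cast this
  have v27 : V.valuation 27 = 1 := by
    have := val_odd V hV 27 (by decide)
    exact_mod_cast this
  have hξ0 : 0 < ξ := zero_lt_one.trans hX
  have hx3 : 1 < ξ ^ 3 := one_lt_pow₀ hX (by norm_num)
  have a1 : V.valuation (4 * E5_X w ^ 3 - 27) < ξ ^ 3 := by
    refine (Valuation.map_sub _ _ _).trans_lt (max_lt ?_ ?_)
    · rw [map_mul, map_pow, ← hξ]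
      exact mul_lt_of_lt_one_left (zero_lt_one.trans hx3) v4
    · rw [v27]
      exact hx3
  have a2 : V.valuation (E5_X w ^ 4 + 54 * E5_X w) = ξ ^ 4 := by
    have h3 : V.valuation (54 * E5_X w) < V.valuation (E5_X w ^ 4) := by
      rw [map_mul, map_pow, ← hξ]
      calc V.valuation 54 * ξ < ξ := mul_lt_of_lt_one_left hξ0 v54
        _ = 1 * ξ := (one_mul _).symm
        _ ≤ ξ ^ 3 * ξ := by gcongr
        _ = ξ ^ 4 := (pow_succ _ _).symm
    rw [Valuation.map_add_eq_of_lt_left _ h3, map_pow]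
  rw [a2] at hd
  by_contra hcon
  push Not at hcon
  have h5 : V.valuation (E5_X (2 * w)) * V.valuation (4 * E5_X w ^ 3 - 27) < ξ ^ 4 := by
    calc V.valuation (E5_X (2 * w)) * V.valuation (4 * E5_X w ^ 3 - 27)
        ≤ ξ * V.valuation (4 * E5_X w ^ 3 - 27) := by gcongr
      _ < ξ * ξ ^ 3 := by
          rw [mul_comm, mul_comm ξ]
          exact (mul_lt_mul_iff_left₀ hξ0).2 a1
      _ = ξ ^ 4 := (pow_succ' _ _).symm
  rw [hd] at h5
  exact lt_irrefl _ h5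

theorem E5_per (w : ℂ) (y : O) : E5_X (w + 3 * e y) = E5_X w := by
  unfold E5_X
  rw [wp_per]

theorem E5_le (V : ValuationSubring ℂ) (hV : V.valuation 2 < 1) (z : ℂ) (hz : z ∉ Lam) (k : ℕ)
    (hk : Odd k) (hkz : (k : ℂ) * z ∈ Lam) : V.valuation (E5_X z) ≤ 1 := by
  by_contra hcon
  push Not at hcon
  have hmem := E5_pow_mem hk hz hkz
  have hstep : ∀ i : ℕ, 1 < V.valuation (E5_X ((2 : ℂ) ^ i * z)) →
      V.valuation (E5_X ((2 : ℂ) ^ i * z)) < V.valuation (E5_X ((2 : ℂ) ^ (i + 1) * z)) := by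
    intro i hi
    have e1 : (2 : ℂ) ^ (i + 1) * z = 2 * ((2 : ℂ) ^ i * z) := by ring
    rw [e1]
    refine E5_step V hV (hmem i) ?_ hi
    rw [← e1]
    exact hmem (i + 1)
  have hall : ∀ i : ℕ, V.valuation (E5_X z) < V.valuation (E5_X ((2 : ℂ) ^ (i + 1) * z)) := by
    intro i
    induction i with
    | zero =>
      have := hstep 0 (by simpa using hcon)
      simpa using this
    | succ i ih => exact ih.trans (hstep (i + 1) (hcon.trans ih))
  obtain ⟨r, hr, q, hq⟩ := E5_pow hk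
  obtain ⟨y, hy⟩ := hkz
  obtain ⟨s, rfl⟩ : ∃ s, r = s + 1 := ⟨r - 1, by omega⟩
  have h1 := hall s
  have h2 : (2 : ℂ) ^ (s + 1) * z = z + 3 * e (q * y) := by
    have h3 : ((2 ^ (s + 1) : ℕ) : ℂ) = ((1 + k * q : ℕ) : ℂ) := by rw [hq]
    push_cast at h3
    rw [h3, map_mul, map_natCast]
    linear_combination (q : ℂ) * hy
  rw [h2, E5_per] at h1
  exact lt_irrefl _ h1

theorem int_point (z : ℂ) (hz : z ∉ Lam) (k : ℕ) (hk : Odd k) (hkz : (k : ℂ) * z ∈ Lam) :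
    Int2 (3 * wp z ^ 2 / wpd z / R0) := by
  intro V hV
  have hmem := E5_pow_mem hk hz hkz
  have h2 : 2 * z ∉ Lam := by
    have := hmem 1
    rwa [pow_one] at this
  rw [E5_target (wpd_double z hz h2).1, map_div₀, map_pow]
  have hX := E5_le V hV z hz k hk hkz
  have v4 : V.valuation 4 < 1 := by
    have := val_even V hV 4 (by decide)
    exact_mod_cast this
  have v27 : V.valuation 27 = 1 := by
    have := val_odd V hV 27 (by decide)
    exact_mod_cast this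
  have h3 : V.valuation (4 * E5_X z ^ 3) < V.valuation 27 := by
    rw [v27, map_mul, map_pow]
    exact mul_lt_one_of_lt_of_le v4 (pow_le_one' hX 3)
  have h4 : V.valuation (E5_Y z) ^ 2 = 1 := by
    rw [← map_pow, E5_ode hz, Valuation.map_sub_eq_of_lt_right _ h3, v27]
  have h5 : V.valuation (E5_Y z) = 1 := by
    rcases lt_trichotomy (V.valuation (E5_Y z)) 1 with h | h | h
    · have := pow_lt_one₀ zero_le h two_ne_zero
      rw [h4] at this
      exact absurd this (lt_irrefl _)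
    · exact h
    · have := one_lt_pow₀ h two_ne_zero
      rw [h4] at this
      exact absurd this (lt_irrefl _)
  rw [h5, div_one]
  exact pow_le_one' hX 2

end H55N
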