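import Mathlib
import Pool.Agent.Lib.H55N.E4
import Pool.Agent.Lib.H55N.E5
import Pool.Agent.Lib.H55B.Z3

open NumberField IsDedekindDomain

namespace H55N

open H55B

/-! Chunk E6 (M). The values of the first Eisenstein function at points of odd order. r > 0 with 2^r = 1 mod k (Nat.exists.. orderOf, Euler's theorem), so 2^r z = z mod Lam.
Case 3z not in Lam: the points 2^i z, 2 * 2^i z, 3 * 2^i z are not in Lam (2 is invertible mod k: if 2 w in Lam and k w in Lam with k odd then w in Lam). By sR_double at 2^i z: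
sR(2^(i+1) z) - 2 sR(2^i z) -> c_i, c_i = 3 wp^2/wpd at 2^i z. So sR(2^r z) - 2^r sR(z) -> sum_{i<r} 2^(r-1-i) c_i, and sR(2^r z) = sR(z) (sR_per): (1 - 2^r) sR(z) converges to C,
C/R0 integral (int_point at the points 2^i z), and 2^r - 1 is odd, so S = C/(1 - 2^r), S/R0 integral (val_odd in H55B/D0).
Case 3z in Lam: z = e y, y in O not divisible by 3. The residues mod 3 are a + b om, a, b in {0,1,2}, not both 0 (exists_repr, A1_not_dvd in H55B): either z = ±om^j mod 3O (6 classes) and S = ∓.. R0 om^(2j)/3 by sR_one, sR_neg,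
sR_om, sR_per, integral as 3 is odd and e om is a root of unity; or z = ±(om - 1) mod 3O (2 classes): om (om - 1) = (om - 1) - 3 om, so sR(z) = sR(om z) = om^2 sR(z), sR(z) = 0, S = 0. -/

theorem E6_int_add {x y : ℂ} (hx : Int2 x) (hy : Int2 y) : Int2 (x + y) := fun V hV =>
  (Valuation.map_add _ _ _).trans (max_le (hx V hV) (hy V hV))

theorem E6_int_two {x : ℂ} (hx : Int2 x) : Int2 (2 * x) := by
  rw [two_mul]
  exact E6_int_add hx hx

theorem E6_zero : Int2 0 := fun V _ => by
  rw [map_zero]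
  exact zero_le

theorem E6_coprime {y : O} (h : ¬ lam ∣ y) : IsCoprime y 3 := by
  have h1 : IsCoprime lam y := (lam_prime.irreducible.coprime_iff_not_dvd).2 h
  have h2 : IsCoprime y (lam ^ 2) := (h1.symm).pow_right
  have h3 : (3 : O) = lam ^ 2 * (-om ^ 2) := by
    rw [three_eq]
    unfold lam
    ring
  rw [h3]
  refine h2.mul_right ?_
  have h4 : IsUnit (-om ^ 2 : O) := by
    rw [IsUnit.neg_iff]
    refine IsUnit.pow 2 ?_
    exact IsUnit.of_mul_eq_one (om ^ 2) (by rw [← pow_succ']; exact b2_om3)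
  obtain ⟨c, hc⟩ := h4
  exact ⟨0, ((c⁻¹ : Oˣ) : O), by rw [← hc]; simp⟩

/-- The case of order three. -/
theorem E6_three (y : O) (hz : e y ∉ Lam) : ∃ S : ℂ,
    Filter.Tendsto (fun R : ℝ => sR R (e y)) Filter.atTop (nhds S) ∧ Int2 (S / R0) := by
  have hR0 := E5_R0.2
  by_cases hl : lam ∣ y
  · obtain ⟨t, ht⟩ := hl
    refine ⟨0, ?_, ?_⟩
    · have h0 : ∀ R : ℝ, sR R (e y) = 0 := by
        intro R
        have h1 : e om * e y = e y + 3 * e (-om * t) := by
          rw [ht]
          unfold lam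
          simp only [map_mul, map_sub, map_one, map_neg]
          linear_combination (e t) * e_om_rel
        have h2 := sR_om R (e y)
        rw [h1, sR_per] at h2
        have h3 : (1 - e om ^ 2) * sR R (e y) = 0 := by linear_combination h2
        rcases mul_eq_zero.1 h3 with h | h
        · exfalso
          apply A0_om_ne_one
          have h7 : e om ^ 2 = 1 := by linear_combination -h
          have : e om ^ 3 = e om := by rw [pow_succ, h7, one_mul]
          rw [← this, A0_om_cube]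
        · exact h
      simp only [h0]
      exact tendsto_const_nhds
    · rw [zero_div]
      exact E6_zero
  · obtain ⟨u, s, hs⟩ := exists_unit_prim (E6_coprime hl)
    -- u y = 1 + 3 s
    have h1 : y = (u⁻¹ : Oˣ) + 3 * ((u⁻¹ : Oˣ) * s) := by
      have h2 : (u⁻¹ : Oˣ) * ((u : O) * y) = y := by
        rw [← mul_assoc, Units.inv_mul, one_mul]
      rw [← h2]
      have h3 : (u : O) * y = 1 + 3 * s := by linear_combination hs
      rw [h3]
      ring
    have h2 : e y = e ((u⁻¹ : Oˣ) : O) + 3 * e ((u⁻¹ : Oˣ) * s) := by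
      conv_lhs => rw [h1]
      simp only [map_add, map_mul, map_ofNat]
    obtain ⟨c, hc, hcv⟩ : ∃ c : ℂ, (∀ R : ℝ, sR R (e ((u⁻¹ : Oˣ) : O)) = c * sR R 1) ∧ Int2 c := by
      have hom : Int2 (e om) := fun V _ => val_e_le V om
      have hom2 : Int2 (e om ^ 2) := fun V _ => by
        rw [← map_pow]
        exact val_e_le V _
      have hone : Int2 1 := fun V _ => by rw [map_one]
      have hneg : ∀ x : ℂ, Int2 x → Int2 (-x) := fun x hx V hV => by
        rw [Valuation.map_neg]
        exact hx V hV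
      have e1 : ∀ R : ℝ, sR R (e om) = e om ^ 2 * sR R 1 := fun R => by
        have := sR_om R 1
        rwa [mul_one] at this
      have e2 : ∀ R : ℝ, sR R (e om ^ 2) = e om * sR R 1 := fun R => by
        have := sR_om R (e om)
        rw [e1, ← pow_two] at this
        rw [this]
        linear_combination e om * sR R 1 * A0_om_cube
      rcases unit_cases u⁻¹ with h | h | h | h | h | h
      · exact ⟨1, fun R => by rw [h, map_one, one_mul], hone⟩
      · exact ⟨-1, fun R => by rw [h, map_neg, map_one, sR_neg]; ring, hneg _ hone⟩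
      · exact ⟨e om ^ 2, fun R => by rw [h, e1], hom2⟩
      · exact ⟨-e om ^ 2, fun R => by rw [h, map_neg, sR_neg, e1]; ring, hneg _ hom2⟩
      · exact ⟨e om, fun R => by rw [h, map_pow, e2], hom⟩
      · exact ⟨-e om, fun R => by rw [h, map_neg, map_pow, sR_neg, e2]; ring, hneg _ hom⟩
    refine ⟨c * (-R0 / 3), ?_, ?_⟩
    · refine (sR_one.const_mul c).congr fun R => ?_
      rw [h2, sR_per, hc]
    · intro V hV
      have h3 : c * (-R0 / 3) / R0 = -(c / 3) := by
        field_simp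
      have v3 : V.valuation 3 = 1 := by
        have := val_odd V hV 3 (by decide)
        exact_mod_cast this
      rw [h3, Valuation.map_neg, map_div₀, v3, div_one]
      exact hcv V hV

/-- The case of order not dividing three. -/
theorem E6_gen (z : ℂ) (k : ℕ) (hk : Odd k) (hkz : (k : ℂ) * z ∈ Lam) (hz : z ∉ Lam)
    (h3 : 3 * z ∉ Lam) : ∃ S : ℂ,
    Filter.Tendsto (fun R : ℝ => sR R z) Filter.atTop (nhds S) ∧ Int2 (S / R0) := by
  have m1 := E5_pow_mem hk hz hkz
  have m3 := E5_pow_mem hk h3 (by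
    have := A1_add_mem (A1_add_mem hkz hkz) hkz
    have e1 : (k : ℂ) * z + k * z + k * z = k * (3 * z) := by ring
    rwa [e1] at this)
  have key : ∀ n : ℕ, ∃ C : ℂ, Filter.Tendsto (fun R : ℝ => sR R ((2 : ℂ) ^ n * z) -
      (2 : ℂ) ^ n * sR R z) Filter.atTop (nhds C) ∧ Int2 (C / R0) := by
    intro n
    induction n with
    | zero =>
      refine ⟨0, ?_, ?_⟩
      · refine tendsto_const_nhds.congr fun R => ?_
        rw [pow_zero, one_mul, one_mul, sub_self]
      · rw [zero_div]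
        exact E6_zero
    | succ n ih =>
      obtain ⟨C, hC, hCv⟩ := ih
      have e1 : 2 * ((2 : ℂ) ^ n * z) = (2 : ℂ) ^ (n + 1) * z := by ring
      have e2 : 3 * ((2 : ℂ) ^ n * z) = (2 : ℂ) ^ n * (3 * z) := by ring
      have t1 := sR_double ((2 : ℂ) ^ n * z) (m1 n) (by rw [e1]; exact m1 (n + 1))
        (by rw [e2]; exact m3 n)
      refine ⟨3 * wp ((2 : ℂ) ^ n * z) ^ 2 / wpd ((2 : ℂ) ^ n * z) + 2 * C, ?_, ?_⟩
      · refine (t1.add (hC.const_mul 2)).congr fun R => ?_
        rw [e1]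
        ring
      · have e5 : (3 * wp ((2 : ℂ) ^ n * z) ^ 2 / wpd ((2 : ℂ) ^ n * z) + 2 * C) / R0 =
            3 * wp ((2 : ℂ) ^ n * z) ^ 2 / wpd ((2 : ℂ) ^ n * z) / R0 + 2 * (C / R0) := by ring
        rw [e5]
        refine E6_int_add ?_ (E6_int_two hCv)
        refine int_point _ (m1 n) k hk ?_
        have := E5_int_mul hkz (2 ^ n)
        push_cast at this
        have e3 : (2 : ℂ) ^ n * (k * z) = k * ((2 : ℂ) ^ n * z) := by ring
        rwa [e3] at this
  obtain ⟨r, hr, q, hq⟩ := E5_pow hk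
  obtain ⟨C, hC, hCv⟩ := key r
  obtain ⟨y, hy⟩ := hkz
  have hc3 : ((2 ^ r : ℕ) : ℂ) = ((1 + k * q : ℕ) : ℂ) := by rw [hq]
  push_cast at hc3
  have h2 : (2 : ℂ) ^ r * z = z + 3 * e (q * y) := by
    rw [hc3, map_mul, map_natCast]
    linear_combination (q : ℂ) * hy
  have hodd : Odd (k * q) := by
    have h5 : Even (1 + k * q) := by
      rw [← hq]
      exact Even.pow_of_ne_zero even_two hr.ne'
    rcases Nat.even_or_odd (k * q) with h | h
    · exfalso
      have h6 : Odd (1 + k * q) := by rw [add_comm]; exact h.add_one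
      exact (Nat.not_even_iff_odd.2 h6) h5
    · exact h
  have hne : ((k * q : ℕ) : ℂ) ≠ 0 := by
    have := hodd.pos
    exact_mod_cast this.ne'
  refine ⟨-C / ((k * q : ℕ) : ℂ), ?_, ?_⟩
  · have t := (hC.neg).div_const ((k * q : ℕ) : ℂ)
    refine t.congr fun R => ?_
    rw [h2, sR_per, hc3]
    field_simp
    push_cast
    ring
  · intro V hV
    have v := val_odd V hV _ hodd
    have e4 : -C / ((k * q : ℕ) : ℂ) / R0 = -(C / R0) / ((k * q : ℕ) : ℂ) := by ring
    rw [e4, map_div₀, v, div_one, Valuation.map_neg]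
    exact hCv V hV

theorem s_exists (z : ℂ) (hz : z ∉ Lam) (k : ℕ) (hk : Odd k) (hkz : (k : ℂ) * z ∈ Lam) :
    ∃ S : ℂ, Filter.Tendsto (fun R : ℝ => sR R z) Filter.atTop (nhds S) ∧ Int2 (S / R0) := by
  by_cases h3 : 3 * z ∈ Lam
  · obtain ⟨y, hy⟩ := h3
    have h1 : z = e y := mul_left_cancel₀ three_ne_zero hy
    rw [h1] at hz ⊢
    exact E6_three y hz
  · exact E6_gen z k hk hkz hz h3

/-- The sums over a residue class modulo an odd integer m₀ divisible by 3. PROOF. Scaling: e α + m₀ e y = (m₀/3)(z + 3 e y) with z = 3 e α / m₀, so the sum is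
(3/m₀) sR (3R/m₀) z. m₀ z = 3 e α in Lam; z not in Lam because otherwise α = m₀ y would be divisible by 3, hence by lam. -/
theorem e1_sum (α : O) (hα : ¬ lam ∣ α) (m₀ : ℕ) (hodd : Odd m₀) (h3 : 3 ∣ m₀) :
    (∀ R : ℝ, 0 < R → Summable fun y : O => ‖(e α + m₀ * e y)⁻¹ *
      ((R ^ 2 / (R ^ 2 + ‖e α + m₀ * e y‖ ^ 2) : ℝ) : ℂ)‖) ∧
    ∃ S : ℂ, Filter.Tendsto (fun R : ℝ => ∑' y : O, (e α + m₀ * e y)⁻¹ *
      ((R ^ 2 / (R ^ 2 + ‖e α + m₀ * e y‖ ^ 2) : ℝ) : ℂ)) Filter.atTop (nhds S) ∧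
      Int2 (S / R0) := by
  obtain ⟨j, hj⟩ := h3
  have hj0 : 0 < j := by
    rcases Nat.eq_zero_or_pos j with h | h
    · rw [h, mul_zero] at hj
      rw [hj] at hodd
      exact absurd hodd (by decide)
    · exact h
  have hjo : Odd j := by
    rw [hj] at hodd
    exact (Nat.odd_mul.1 hodd).2
  have hjr : (0 : ℝ) < j := by exact_mod_cast hj0
  have hjc : (j : ℂ) ≠ 0 := by exact_mod_cast hj0.ne'
  set z : ℂ := e α / j with hzdef
  have hsc : ∀ y : O, e α + m₀ * e y = j * (z + 3 * e y) := by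
    intro y
    rw [hzdef, hj]
    push_cast
    field_simp
  have hz : z ∉ Lam := by
    rintro ⟨y, hy⟩
    apply hα
    have h1 : e α = e (3 * (j * y)) := by
      simp only [map_mul, map_ofNat, map_natCast]
      have h2 : e α = j * z := by
        rw [hzdef]
        field_simp
      rw [h2, hy]
      ring
    have h2 := e_injective h1
    have h3 : lam ∣ (3 : O) := by
      refine ⟨-om ^ 2 * lam, ?_⟩
      rw [three_eq]
      unfold lam
      ring
    rw [h2]
    exact Dvd.dvd.mul_right h3 _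
  have hmz : (m₀ : ℂ) * z ∈ Lam := by
    refine ⟨α, ?_⟩
    rw [hzdef, hj]
    push_cast
    field_simp
  have hterm : ∀ (R : ℝ) (y : O), (e α + m₀ * e y)⁻¹ *
      ((R ^ 2 / (R ^ 2 + ‖e α + m₀ * e y‖ ^ 2) : ℝ) : ℂ) =
      (j : ℂ)⁻¹ * ((z + 3 * e y)⁻¹ *
        (((R / j) ^ 2 / ((R / j) ^ 2 + ‖z + 3 * e y‖ ^ 2) : ℝ) : ℂ)) := by
    intro R y
    rw [hsc y, norm_mul, Complex.norm_natCast, mul_inv]
    have h5 : R ^ 2 / (R ^ 2 + (j * ‖z + 3 * e y‖) ^ 2) =
        (R / j) ^ 2 / ((R / j) ^ 2 + ‖z + 3 * e y‖ ^ 2) := by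
      have h6 : R ^ 2 = (j : ℝ) ^ 2 * (R / j) ^ 2 := by
        field_simp
      have h7 : R ^ 2 + (j * ‖z + 3 * e y‖) ^ 2 =
          (j : ℝ) ^ 2 * ((R / j) ^ 2 + ‖z + 3 * e y‖ ^ 2) := by
        rw [mul_add, ← h6]
        ring
      rw [h7]
      conv_lhs => rw [h6]
      exact mul_div_mul_left _ _ (by positivity)
    rw [h5]
    ring
  constructor
  · intro R hR
    have h1 := (sR_summable (R / j) (by positivity) z).mul_left ‖(j : ℂ)⁻¹‖
    refine h1.congr fun y => ?_
    rw [hterm R y, norm_mul (j : ℂ)⁻¹]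
  · obtain ⟨S, hS, hSv⟩ := s_exists z hz m₀ hodd hmz
    refine ⟨(j : ℂ)⁻¹ * S, ?_, ?_⟩
    · have ht : Filter.Tendsto (fun R : ℝ => R / j) Filter.atTop Filter.atTop :=
        Filter.tendsto_id.atTop_div_const hjr
      refine ((hS.comp ht).const_mul (j : ℂ)⁻¹).congr fun R => ?_
      simp only [hterm]
      rw [tsum_mul_left]
      rfl
    · intro V hV
      have v := val_odd V hV _ hjo
      rw [mul_div_assoc, map_mul, map_inv₀, v, inv_one, one_mul]
      exact hSv V hV

end H55N
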