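import Mathlib
import Pool.Agent.Lib.H55N.A2
import Pool.Agent.Lib.H55N.B1
import Pool.Agent.Lib.H55N.E6

open NumberField IsDedekindDomain

namespace H55N

open H55B H55C

variable {K : Type} [Field K] [NumberField K] [Algebra F K] {m : ℕ}

/-! Chunk E8 (L). Integrality of the regularised sum for rational labels. n = m+1, l_k(x) = y(x)_k in O, e(y(x)_k) = Tr(A_k x) (hdir.int; for x in X, y(x)_k = 1 mod lam by hone). Call x, x' in X equivalent
if y(x) = y(x') mod m₀ O^n: finitely many classes (O/m₀ is finite). By hm₀ and Tr_inj the class of x0 is exactly {x0 + x(y) : y in O^n}, where x(y) in I and in all c_i is the unique element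
with Tr(A_k x(y)) = m₀ e(y_k); y -> x0 + x(y) is a bijection of O^n with the class, and g(x0 + x(y)) = g(x0), since x(y) is in all c_i. So for R > 0
sum_X g prod_k l_k^(-1) pcut = sum over the classes of g(x0) prod_k (sum_{y in O} (e α_k + m₀ e y)^(-1) R^2/(R^2 + |e α_k + m₀ e y|^2)), α_k = y(x0)_k (everything converges absolutely: e1_sum and
pi_hasSum; a finite partition of X: Summable/HasSum over a sigma type or finite union), which tends to sum g(x0) prod_k S(α_k) by e1_sum (α_k is not divisible by lam). g(x0) is an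
integer. So S/R0^n = sum g(x0) prod_k (S(α_k)/R0) is integral (valuations: finite sums, products). -/

theorem E8_int_mul {a b : ℂ} (ha : Int2 a) (hb : Int2 b) : Int2 (a * b) := by
  intro V hV
  rw [map_mul]
  exact mul_le_one' (ha V hV) (hb V hV)

theorem E8_int_sum {ι : Type} (s : Finset ι) (a : ι → ℂ) (ha : ∀ i ∈ s, Int2 (a i)) :
    Int2 (∑ i ∈ s, a i) := by
  intro V hV
  rw [ValuationSubring.valuation_le_one_iff]
  exact V.toSubring.sum_mem fun i hi => (ValuationSubring.valuation_le_one_iff V _).1 (ha i hi V hV)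

theorem E8_int_prod {ι : Type} (s : Finset ι) (a : ι → ℂ) (ha : ∀ i ∈ s, Int2 (a i)) :
    Int2 (∏ i ∈ s, a i) := by
  intro V hV
  rw [ValuationSubring.valuation_le_one_iff]
  exact V.toSubring.prod_mem fun i hi => (ValuationSubring.valuation_le_one_iff V _).1 (ha i hi V hV)

theorem E8_int_g (D : Ctx K m) (x : 𝓞 K) : Int2 (D.g x) := by
  classical
  unfold Ctx.g gw
  refine E8_int_prod _ _ fun i _ => ?_
  intro V hV
  rw [ValuationSubring.valuation_le_one_iff]
  split_ifs
  · exact V.toSubring.sub_mem V.toSubring.one_mem (natCast_mem V.toSubring _)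
  · exact V.toSubring.one_mem

theorem E8_g (D : Ctx K m) (x z : 𝓞 K) (hz : ∀ i, z ∈ D.c i) : D.g (x + z) = D.g x := by
  classical
  unfold Ctx.g gw
  refine Finset.prod_congr rfl fun i _ => ?_
  have h : x + z ∈ D.c i ↔ x ∈ D.c i := (D.c i).add_mem_iff_left (hz i)
  by_cases hx : x ∈ D.c i
  · rw [if_pos (h.2 hx), if_pos hx]
  · rw [if_neg (fun h' => hx (h.1 h')), if_neg hx]

theorem rat_val (D : Ctx K m) (hD : D.Ok) (A : Fin (m + 1) → K) (w : Fin (m + 1) × Fin 2 → 𝓞 K)
    (hdir : D.Dirs A w) (hone : ∀ x ∈ D.X, ∀ k, ∃ y : O, D.Tr (A k) x = e (1 + lam * y))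
    (m₀ : ℕ) (hodd : Odd m₀) (h3 : 3 ∣ m₀)
    (hm₀ : ∀ y : Fin (m + 1) → O, ∃ x : 𝓞 K, x ∈ D.I ∧ (∀ i, x ∈ D.c i) ∧
      ∀ k, D.Tr (A k) x = m₀ * e (y k)) (S : ℂ)
    (hS : Filter.Tendsto (fun R : ℝ => ∑' x : D.X, D.g x * (∏ k, (D.Tr (A k) x)⁻¹) *
      (D.pcut A R x : ℂ)) Filter.atTop (nhds S)) : Int2 (S / R0 ^ (m + 1)) := by
  classical
  -- coordinates
  have hY : ∀ x : D.X, ∃ y : Fin (m + 1) → O, ∀ k, D.Tr (A k) x = e (y k) ∧ ¬ lam ∣ y k := by
    intro x
    choose y hy using hone x x.2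
    refine ⟨fun k => 1 + lam * y k, fun k => ⟨hy k, ?_⟩⟩
    intro hdvd
    have h1 : lam ∣ 1 := by
      have := dvd_sub hdvd (Dvd.intro (y k) rfl : lam ∣ lam * y k)
      rwa [add_sub_cancel_right] at this
    exact lam_prime.not_isUnit (isUnit_of_dvd_one h1)
  choose Y hYY using hY
  choose z hzI hzc hzT using hm₀
  have hm0 : (m₀ : ℂ) ≠ 0 := by
    have : m₀ ≠ 0 := by
      rintro rfl
      exact absurd hodd (by decide)
    exact_mod_cast this
  have hm0' : (m₀ : O) ≠ 0 := by
    intro h
    apply hm0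
    have := congrArg e h
    rwa [map_natCast, map_zero] at this
  have hfin : Finite (O ⧸ Ideal.span {(m₀ : O)}) :=
    Ideal.finiteQuotientOfFreeOfNeBot _ (fun h => hm0' (Ideal.span_singleton_eq_bot.1 h))
  have hfin' : Finite (Fin (m + 1) → (O ⧸ Ideal.span {(m₀ : O)})) := inferInstance
  letI : Fintype (Fin (m + 1) → (O ⧸ Ideal.span {(m₀ : O)})) := Fintype.ofFinite _
  let q : D.X → (Fin (m + 1) → (O ⧸ Ideal.span {(m₀ : O)})) := fun x k =>
    Ideal.Quotient.mk (Ideal.span {(m₀ : O)}) (Y x k)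
  let T : ℝ → D.X → ℂ := fun R x => D.g x * (∏ k, (D.Tr (A k) x)⁻¹) * (D.pcut A R x : ℂ)
  let φ : ℝ → O → O → ℂ := fun R α y => (e α + m₀ * e y)⁻¹ *
      ((R ^ 2 / (R ^ 2 + ‖e α + m₀ * e y‖ ^ 2) : ℝ) : ℂ)
  have hclass : ∀ c : Fin (m + 1) → (O ⧸ Ideal.span {(m₀ : O)}), ∃ (V : ℝ → ℂ) (L : ℂ),
      (∀ R : ℝ, 0 < R → HasSum (fun x : D.X => if q x = c then T R x else 0) (V R)) ∧
      Filter.Tendsto V Filter.atTop (nhds L) ∧ Int2 (L / R0 ^ (m + 1)) := by
    intro c
    by_cases hc : ∃ x₀ : D.X, q x₀ = c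
    · obtain ⟨x₀, rfl⟩ := hc
      have hE := fun k => e1_sum (Y x₀ k) (hYY x₀ k).2 m₀ hodd h3
      choose Sk hSk hSi using fun k => (hE k).2
      let j : (Fin (m + 1) → O) → D.X := fun y => ⟨x₀ + z y, D.X_add x₀.2 (hzI y)⟩
      have hjT : ∀ y k, D.Tr (A k) (j y) = e (Y x₀ k) + m₀ * e (y k) := by
        intro y k
        show D.Tr (A k) (x₀ + z y) = _
        rw [D.Tr_add, (hYY x₀ k).1, hzT]
      have hjY : ∀ y k, Y (j y) k = Y x₀ k + m₀ * y k := by
        intro y k
        apply e_injective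
        rw [← (hYY (j y) k).1, hjT, map_add, map_mul, map_natCast]
      have hjinj : Function.Injective j := by
        intro y y' h
        funext k
        have h1 := hjT y k
        rw [h, hjT y' k] at h1
        have h2 : e (y' k) = e (y k) := mul_left_cancel₀ hm0 (add_left_cancel h1)
        exact (e_injective h2).symm
      have hjq : ∀ y, q (j y) = q x₀ := by
        intro y
        funext k
        show Ideal.Quotient.mk _ (Y (j y) k) = Ideal.Quotient.mk _ (Y x₀ k)
        rw [hjY, Ideal.Quotient.eq, add_sub_cancel_left]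
        exact Ideal.mul_mem_right _ _ (Ideal.mem_span_singleton_self _)
      have hjr : ∀ x : D.X, q x = q x₀ → x ∈ Set.range j := by
        intro x hx
        have h1 : ∀ k, ∃ t : O, Y x k - Y x₀ k = m₀ * t := by
          intro k
          have h2 : Ideal.Quotient.mk (Ideal.span {(m₀ : O)}) (Y x k) =
              Ideal.Quotient.mk (Ideal.span {(m₀ : O)}) (Y x₀ k) := congrFun hx k
          exact Ideal.mem_span_singleton.1 (Ideal.Quotient.eq.1 h2)
        choose t ht using h1
        refine ⟨t, Subtype.ext ?_⟩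
        show (x₀ : 𝓞 K) + z t = x
        have h2 : z t = x - x₀ := by
          refine Tr_inj D hD.emb A hdir.ind _ _ fun k => ?_
          rw [hzT, D.Tr_sub, (hYY x k).1, (hYY x₀ k).1, ← map_sub, ht k, map_mul, map_natCast]
        rw [h2]; ring
      refine ⟨fun R => D.g x₀ * ∏ k, ∑' y, φ R (Y x₀ k) y, D.g x₀ * ∏ k, Sk k, ?_, ?_, ?_⟩
      · intro R hR
        have hs := (pi_hasSum (m + 1) (fun k => φ R (Y x₀ k)) (fun k => (hE k).1 R hR)).mul_left
          (D.g x₀)
        refine (hjinj.hasSum_iff ?_).1 ?_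
        · intro x hx
          exact if_neg fun h => hx (hjr x h)
        · have hcongr : ((fun x : D.X => if q x = q x₀ then T R x else 0) ∘ j) =
              fun y => D.g x₀ * ∏ k, φ R (Y x₀ k) (y k) := by
            funext y
            show (if q (j y) = q x₀ then T R (j y) else 0) = _
            rw [if_pos (hjq y)]
            show D.g ((x₀ : 𝓞 K) + z y) * (∏ k, (D.Tr (A k) (j y))⁻¹) *
              ((∏ k, R ^ 2 / (R ^ 2 + ‖D.Tr (A k) (j y)‖ ^ 2) : ℝ) : ℂ) = _
            rw [E8_g D _ _ (hzc y), Complex.ofReal_prod, mul_assoc, ← Finset.prod_mul_distrib]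
            congr 1
            refine Finset.prod_congr rfl fun k _ => ?_
            rw [hjT]
          rw [hcongr]
          exact hs
      · exact (tendsto_finsetProd _ fun k _ => hSk k).const_mul _
      · have h1 : D.g x₀ * (∏ k, Sk k) / R0 ^ (m + 1) = D.g x₀ * ∏ k, (Sk k / R0) := by
          rw [Finset.prod_div_distrib, Finset.prod_const, Finset.card_univ, Fintype.card_fin,
            mul_div_assoc]
        rw [h1]
        exact E8_int_mul (E8_int_g D _) (E8_int_prod _ _ fun k _ => hSi k)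
    · refine ⟨fun _ => 0, 0, fun R _ => ?_, tendsto_const_nhds, ?_⟩
      · have : (fun x : D.X => if q x = c then T R x else 0) = fun _ => 0 := by
          funext x
          exact if_neg fun h => hc ⟨x, h⟩
        rw [this]
        exact hasSum_zero
      · rw [zero_div]
        intro V _
        rw [map_zero]
        exact zero_le_one
  choose V L hV hL hLi using hclass
  have hsum : ∀ R : ℝ, 0 < R → ∑' x : D.X, T R x = ∑ c, V c R := by
    intro R hR
    have h1 := hasSum_sum (s := Finset.univ) (fun c _ => hV c R hR)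
    have h2 : (fun x : D.X => ∑ c, if q x = c then T R x else 0) = T R := by
      funext x
      rw [Finset.sum_ite_eq]
      exact if_pos (Finset.mem_univ _)
    rw [h2] at h1
    exact h1.tsum_eq
  have hlim : Filter.Tendsto (fun R : ℝ => ∑' x : D.X, T R x) Filter.atTop (nhds (∑ c, L c)) := by
    refine (tendsto_finsetSum _ fun c _ => hL c).congr' ?_
    filter_upwards [Filter.eventually_gt_atTop 0] with R hR
    exact (hsum R hR).symm
  have hSL : S = ∑ c, L c := tendsto_nhds_unique hS hlim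
  rw [hSL, Finset.sum_div]
  exact E8_int_sum _ _ fun c _ => hLi c

end H55N
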