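import Mathlib
import Pool.Agent.Lib.H55B.D0
import Pool.Agent.Lib.H55C.W7
import Pool.Agent.Lib.H55N.A1

open NumberField IsDedekindDomain

namespace H55N

open H55B H55C

variable {K : Type} [Field K] [NumberField K] [Algebra F K] {m : ℕ}

/-! Chunk L1 (M). Dual bases. b is a finitely generated torsion free O-module, O is a principal ideal domain (instPID), so b is free; its rank is finrank F K = m+1 (b spans K over F: for
n0 in b nonzero and x in O_K, n0 x in b). β = a basis. β' = the dual basis of β for the trace form of K/F (traceForm_nondegenerate, BilinForm.dualBasis), β linearly independent over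
F (an F-relation gives an O-relation after clearing denominators). -/

theorem L1_coe (y : O) : ((algebraMap O (𝓞 K) y : 𝓞 K) : K) = algebraMap F K (y : F) := rfl

theorem L1_smul (y : O) (x : 𝓞 K) : y • x = algebraMap O (𝓞 K) y * x := Algebra.smul_def y x

theorem L1_int_mem (b : Ideal (𝓞 K)) (hb : b ≠ ⊥) : ∃ N : ℕ, N ≠ 0 ∧ (N : 𝓞 K) ∈ b :=
  ⟨Ideal.absNorm b, fun h => hb (Ideal.absNorm_eq_zero_iff.1 h), Ideal.absNorm_mem b⟩

theorem L1_int_mul (x : K) : ∃ (M : ℤ) (z : 𝓞 K), M ≠ 0 ∧ (z : K) = (M : K) * x := by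
  have hx : IsAlgebraic ℤ x := by
    have h1 : IsAlgebraic ℚ x := Algebra.IsAlgebraic.isAlgebraic x
    exact (IsFractionRing.isAlgebraic_iff ℤ ℚ K).2 h1
  obtain ⟨M, hM, h⟩ := hx.exists_integral_multiple
  refine ⟨M, ⟨M • x, h⟩, hM, ?_⟩
  show M • x = _
  rw [zsmul_eq_mul]

theorem L1_basis (hm : Module.finrank F K = m + 1) (b : Ideal (𝓞 K)) (hb : b ≠ ⊥) :
    ∃ (β : Fin (m + 1) → 𝓞 K), (∀ j, β j ∈ b) ∧
      (∀ x ∈ b, ∃ y : Fin (m + 1) → O, x = ∑ j, algebraMap O (𝓞 K) (y j) * β j) ∧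
      LinearIndependent F (fun j => (β j : K)) := by
  have := a1_fin hm
  have : Module.Finite O (𝓞 K) := inferInstance
  have : Module.Free O (b.restrictScalars O) := by
    have : Module.IsTorsionFree O (𝓞 K) := inferInstance
    exact Module.free_of_finite_type_torsion_free'
  let B := Module.finBasis O (b.restrictScalars O)
  -- the images in K
  have hli0 : LinearIndependent O (fun j => ((B j : 𝓞 K) : K)) := by
    have h1 := B.linearIndependent
    have h2 : LinearIndependent O (fun j => ((B j : 𝓞 K))) :=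
      h1.map' (Submodule.subtype _) (Submodule.ker_subtype _)
    have h3 := h2.map' (Algebra.linearMap (𝓞 K) K |>.restrictScalars O) (by
      rw [LinearMap.ker_eq_bot]
      exact RingOfIntegers.coe_injective)
    exact h3
  have hli : LinearIndependent F (fun j => ((B j : 𝓞 K) : K)) :=
    LinearIndependent.localization F (nonZeroDivisors O) hli0
  have hrep : ∀ x ∈ b, ∃ y : Fin (Module.finrank O (b.restrictScalars O)) → O,
      x = ∑ j, algebraMap O (𝓞 K) (y j) * (B j : 𝓞 K) := by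
    intro x hx
    have hx' : x ∈ b.restrictScalars O := hx
    refine ⟨fun j => B.repr ⟨x, hx'⟩ j, ?_⟩
    have h1 := B.sum_repr ⟨x, hx'⟩
    have h2 := congrArg (Submodule.subtype (b.restrictScalars O)) h1
    rw [map_sum] at h2
    have h3 : x = ∑ j, (b.restrictScalars O).subtype (B.repr ⟨x, hx'⟩ j • B j) := h2.symm
    refine h3.trans (Finset.sum_congr rfl fun j _ => ?_)
    rw [map_smul, L1_smul]
    rfl
  have hspan : ⊤ ≤ Submodule.span F (Set.range fun j => ((B j : 𝓞 K) : K)) := by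
    intro x _
    obtain ⟨N, hN, hNb⟩ := L1_int_mem b hb
    obtain ⟨M, z, hM, hz⟩ := L1_int_mul x
    obtain ⟨y, hy⟩ := hrep (N * z) (b.mul_mem_right z hNb)
    have h1 := congrArg (algebraMap (𝓞 K) K) hy
    rw [map_mul, map_natCast, map_sum] at h1
    have hzK : algebraMap (𝓞 K) K z = (M : K) * x := hz
    rw [hzK] at h1
    have hc : (algebraMap F K ((N : F) * (M : F))) ≠ 0 := by
      rw [Ne, map_eq_zero]
      exact mul_ne_zero (Nat.cast_ne_zero.2 hN) (Int.cast_ne_zero.2 hM)
    have h2 : ((N : F) * (M : F)) • x ∈ Submodule.span F (Set.range fun j => ((B j : 𝓞 K) : K)) := by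
      have h3 : ((N : F) * (M : F)) • x = (N : K) * ((M : K) * x) := by
        rw [Algebra.smul_def, map_mul, map_natCast, map_intCast, mul_assoc]
      rw [h3, h1]
      refine Submodule.sum_mem _ fun j _ => ?_
      rw [map_mul]
      have h4 : algebraMap (𝓞 K) K (algebraMap O (𝓞 K) (y j)) * algebraMap (𝓞 K) K (B j : 𝓞 K) =
          (y j : F) • ((B j : 𝓞 K) : K) := by
        rw [Algebra.smul_def]
        rfl
      rw [h4]
      exact Submodule.smul_mem _ _ (Submodule.subset_span ⟨j, rfl⟩)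
    have hc' : ((N : F) * (M : F)) ≠ 0 := fun h => hc (by rw [h, map_zero])
    exact (Submodule.smul_mem_iff _ hc').1 h2
  have hcard : Module.finrank O (b.restrictScalars O) = m + 1 := by
    rw [← hm]
    have h := Module.finrank_eq_card_basis (Module.Basis.mk hli hspan)
    rw [h, Fintype.card_fin]
  let E : Fin (m + 1) ≃ Fin (Module.finrank O (b.restrictScalars O)) := finCongr hcard.symm
  refine ⟨fun j => (B (E j) : 𝓞 K), fun j => (B (E j)).2, ?_, ?_⟩
  · intro x hx
    obtain ⟨y, hy⟩ := hrep x hx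
    refine ⟨fun j => y (E j), ?_⟩
    rw [hy]
    exact (E.sum_comp fun j => algebraMap O (𝓞 K) (y j) * (B j : 𝓞 K)).symm
  · exact hli.comp E E.injective

/-- The dual basis for the trace form. -/
theorem L1_dual (hm : Module.finrank F K = m + 1) (A : Fin (m + 1) → K)
    (hA : LinearIndependent F A) :
    ∃ A' : Fin (m + 1) → K, LinearIndependent F A' ∧
      ∀ j k, Algebra.trace F K (A j * A' k) = if j = k then 1 else 0 := by
  have := a1_fin hm
  let B : Module.Basis (Fin (m + 1)) F K :=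
    basisOfLinearIndependentOfCardEqFinrank hA (by rw [hm, Fintype.card_fin])
  have hB : ∀ j, B j = A j := fun j => by
    rw [coe_basisOfLinearIndependentOfCardEqFinrank]
  let B' := (Algebra.traceForm F K).dualBasis (traceForm_nondegenerate F K) B
  refine ⟨B', B'.linearIndependent, fun j k => ?_⟩
  have h := LinearMap.BilinForm.apply_dualBasis_left (B := Algebra.traceForm F K)
    (hB := traceForm_nondegenerate F K) (b := B) k j
  rw [Algebra.traceForm_apply, hB] at h
  rw [mul_comm]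
  exact h

theorem dual_basis (hm : Module.finrank F K = m + 1) (b : Ideal (𝓞 K)) (hb : b ≠ ⊥) :
    ∃ (β : Fin (m + 1) → 𝓞 K) (β' : Fin (m + 1) → K), (∀ j, β j ∈ b) ∧
      (∀ j k, Algebra.trace F K ((β j : K) * β' k) = if j = k then 1 else 0) ∧
      (∀ x ∈ b, ∃ y : Fin (m + 1) → O, x = ∑ j, algebraMap O (𝓞 K) (y j) * β j) ∧
      LinearIndependent F β' := by
  obtain ⟨β, h1, h2, h3⟩ := L1_basis hm b hb
  obtain ⟨β', h4, h5⟩ := L1_dual hm _ h3
  exact ⟨β, β', h1, h5, h2, h4⟩

/-- Dual bases and directions: for a basis A of K/F and a nonzero ideal I there are nonzero d_j in I with Tr(d_j A_k) = 0 for k <> j. PROOF. The dual basis A* of A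
for the trace form; multiply A*_j by a nonzero integer M with M A*_j in O_K (exists_integral_multiple) and by a nonzero element of I. -/
theorem directions (hm : Module.finrank F K = m + 1) (A : Fin (m + 1) → K)
    (hA : LinearIndependent F A) (I : Ideal (𝓞 K)) (hI : I ≠ ⊥) :
    ∃ d : Fin (m + 1) → 𝓞 K, (∀ j, d j ∈ I) ∧ (∀ j, d j ≠ 0) ∧
      ∀ j k, k ≠ j → Algebra.trace F K ((d j : K) * A k) = 0 := by
  obtain ⟨A', h1, h2⟩ := L1_dual hm A hA
  obtain ⟨N, hN, hNI⟩ := L1_int_mem I hI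
  choose M z hM hz using fun j => L1_int_mul (A' j)
  refine ⟨fun j => N * z j, fun j => I.mul_mem_right _ hNI, fun j => ?_, fun j k hjk => ?_⟩
  · refine mul_ne_zero (Nat.cast_ne_zero.2 hN) ?_
    intro h
    have h3 : ((z j : 𝓞 K) : K) = 0 := by rw [h]; rfl
    rw [hz j] at h3
    rcases mul_eq_zero.1 h3 with h4 | h4
    · exact hM j (Int.cast_eq_zero.1 h4)
    · exact h1.ne_zero j h4
  · have h3 : (((N : 𝓞 K) * z j : 𝓞 K) : K) * A k = ((N : F) * (M j : F)) • (A k * A' j) := by
      rw [Algebra.smul_def, map_mul, map_natCast, map_intCast]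
      have h4 : (((N : 𝓞 K) * z j : 𝓞 K) : K) = (N : K) * ((z j : 𝓞 K) : K) := by
        rw [← map_natCast (algebraMap (𝓞 K) K) N]
        exact map_mul (algebraMap (𝓞 K) K) _ _
      rw [h4, hz j]
      ring
    rw [h3, map_smul, h2 k j, if_neg hjk, smul_zero]


theorem L1_odd (b : Ideal (𝓞 K)) (hb : IsCoprime b (Ideal.span {2})) :
    ∃ N : ℕ, ¬ 2 ∣ N ∧ (N : 𝓞 K) ∈ b := by
  have hb0 : b ≠ ⊥ := by
    rintro rfl
    obtain ⟨x, hx, y, hy, h⟩ := Ideal.isCoprime_iff_exists.1 hb
    rw [Ideal.mem_bot] at hx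
    rw [hx, zero_add] at h
    rw [h, Ideal.mem_span_singleton] at hy
    obtain ⟨c, hc⟩ := hy
    have h1 := congrArg (Algebra.norm ℤ) hc
    rw [map_one, map_mul] at h1
    have h2 : Algebra.norm ℤ (2 : 𝓞 K) = 2 ^ Module.finrank ℤ (𝓞 K) := by
      have := Algebra.norm_algebraMap (S := 𝓞 K) (2 : ℤ)
      rw [map_ofNat] at this
      exact this
    rw [h2] at h1
    have h3 : 0 < Module.finrank ℤ (𝓞 K) := Module.finrank_pos
    have h4 : (2 : ℤ) ∣ 1 := by
      rw [h1]
      exact Dvd.dvd.mul_right (dvd_pow_self 2 h3.ne') _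
    norm_num at h4
  refine ⟨Ideal.absNorm b, ?_, Ideal.absNorm_mem b⟩
  intro h2
  rw [Ideal.absNorm_apply, Submodule.cardQuot_apply] at h2
  have : Finite (𝓞 K ⧸ b) := Ideal.finiteQuotientOfFreeOfNeBot b hb0
  have : Fact (Nat.Prime 2) := ⟨Nat.prime_two⟩
  obtain ⟨z, hz⟩ := exists_prime_addOrderOf_dvd_card' (G := 𝓞 K ⧸ b) 2 h2
  obtain ⟨t, rfl⟩ := Ideal.Quotient.mk_surjective z
  have hz0 : Ideal.Quotient.mk b t ≠ 0 := by
    intro h
    rw [h, addOrderOf_zero] at hz
    norm_num at hz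
  have hz2 : 2 * t ∈ b := by
    have h3 := addOrderOf_nsmul_eq_zero (Ideal.Quotient.mk b t)
    rw [hz] at h3
    rw [← Ideal.Quotient.eq_zero_iff_mem, map_mul, map_ofNat]
    rw [nsmul_eq_mul] at h3
    exact_mod_cast h3
  obtain ⟨x, hx, y, hy, h⟩ := Ideal.isCoprime_iff_exists.1 hb
  obtain ⟨c, hc⟩ := Ideal.mem_span_singleton.1 hy
  apply hz0
  rw [Ideal.Quotient.eq_zero_iff_mem]
  have h5 : t = x * t + c * (2 * t) := by
    rw [hc] at h
    linear_combination (-t) * h
  rw [h5]
  exact b.add_mem (b.mul_mem_right _ hx) (b.mul_mem_left _ hz2)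

theorem L1_dual_int (a : K)
    (ha : ∀ x : 𝓞 K, ∃ z : ℤ, Algebra.trace ℚ K ((x : K) * a) = z) :
    ∃ y : 𝓞 K, (y : K) = (NumberField.discr K : K) * a := by
  have hone : (1 : FractionalIdeal (nonZeroDivisors (𝓞 K)) K) ≠ 0 := one_ne_zero
  have h1 : a ∈ FractionalIdeal.dual ℤ ℚ (1 : FractionalIdeal (nonZeroDivisors (𝓞 K)) K) := by
    rw [FractionalIdeal.mem_dual hone]
    intro x hx
    rw [FractionalIdeal.mem_one_iff] at hx
    obtain ⟨x, rfl⟩ := hx
    obtain ⟨z, hz⟩ := ha x
    refine ⟨z, ?_⟩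
    rw [Algebra.traceForm_apply, mul_comm]
    rw [eq_intCast]
    exact hz.symm
  have h2 : ((NumberField.discr K : ℤ) : 𝓞 K) ∈ differentIdeal ℤ (𝓞 K) := by
    have h3 := Ideal.absNorm_mem (differentIdeal ℤ (𝓞 K))
    rw [NumberField.absNorm_differentIdeal K (𝓞 K), ← Int.cast_natCast] at h3
    rcases Int.natAbs_eq (NumberField.discr K) with h4 | h4
    · rw [h4]
      exact h3
    · rw [h4, Int.cast_neg]
      exact neg_mem h3
  have h3 : algebraMap (𝓞 K) K ((NumberField.discr K : ℤ) : 𝓞 K) ∈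
      ((differentIdeal ℤ (𝓞 K) : Ideal (𝓞 K)) : FractionalIdeal (nonZeroDivisors (𝓞 K)) K) :=
    (FractionalIdeal.mem_coeIdeal (nonZeroDivisors (𝓞 K))).2 ⟨_, h2, rfl⟩
  have h4 := FractionalIdeal.mul_mem_mul h3 h1
  rw [coeIdeal_differentIdeal (K := ℚ), inv_mul_cancel₀ (FractionalIdeal.dual_ne_zero ℤ ℚ hone),
    FractionalIdeal.mem_one_iff] at h4
  obtain ⟨y, hy⟩ := h4
  refine ⟨y, ?_⟩
  rw [map_intCast] at hy
  exact hy

theorem L1_trace_O (y : O) : ∃ z : ℤ, Algebra.trace ℚ F (y : F) = z := by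
  have h : IsIntegral ℤ (Algebra.trace ℚ F (y : F)) := Algebra.isIntegral_trace y.2
  obtain ⟨z, hz⟩ := IsIntegrallyClosed.isIntegral_iff.1 h
  exact ⟨z, by rw [← hz, eq_intCast]⟩

/-- 2-integrality of the labels. Let b be prime to 2 and the discriminant of K odd (odd_discr in H55C/W7). If Tr_{K/F}(x a) is in O for all x in b then σ(a) is integral for every
valuation ring V of C above 2 and every embedding σ. PROOF. b contains an odd natural number N (b + (2) = O_K: the finite ring O_K/b has odd characteristic; e.g. N = absNorm b is in b and odd).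
Then Tr_{K/Q}(x N a) is in Z for all x in O_K, so with an integral basis ω of O_K and the trace matrix T (det T = discr K, odd), N a = sum c_j ω_j, T c in Z^r, c in
discr^(-1) Z^r. So discr * N * a is in O_K, σ of it is integral over Z, hence in V, and the odd integer discr * N is a unit of V. -/
theorem label_int2 (hK : UnrOut K) (b : Ideal (𝓞 K)) (hb : IsCoprime b (Ideal.span {2})) (a : K)
    (ha : ∀ x ∈ b, ∃ y : O, Algebra.trace F K ((x : K) * a) = algebraMap O F y) (τ : K →+* ℂ) :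
    Int2 (τ a) := by
  obtain ⟨N, hN, hNb⟩ := L1_odd b hb
  obtain ⟨y, hy⟩ := L1_dual_int (K := K) ((N : K) * a) (by
    intro x
    obtain ⟨y, hy⟩ := ha (N * x) (b.mul_mem_right x hNb)
    obtain ⟨z, hz⟩ := L1_trace_O y
    refine ⟨z, ?_⟩
    have h1 : (x : K) * ((N : K) * a) = (((N : 𝓞 K) * x : 𝓞 K) : K) * a := by
      have h4 : (((N : 𝓞 K) * x : 𝓞 K) : K) = (N : K) * (x : K) := by
        rw [← map_natCast (algebraMap (𝓞 K) K) N]
        exact map_mul (algebraMap (𝓞 K) K) _ _
      rw [h4]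
      ring
    rw [h1, ← Algebra.trace_trace (S := F), hy]
    exact hz)
  intro V hV
  have hd := H55C.odd_discr K hK
  have h1 : V.valuation (τ (y : K)) ≤ 1 := by
    have h2 : IsIntegral ℤ (τ (y : K)) := map_isIntegral_int τ y.2
    have h3 : IsIntegral V (τ (y : K)) := h2.tower_top
    obtain ⟨t, ht⟩ := IsIntegrallyClosed.isIntegral_iff.1 h3
    rw [← ht]
    exact V.valuation_le_one t
  have hodd : ∀ n : ℤ, Odd n → V.valuation (n : ℂ) = 1 := by
    intro n hn
    have h1 := val_odd V hV n.natAbs (Int.natAbs_odd.2 hn)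
    rw [← Int.cast_natCast] at h1
    rcases Int.natAbs_eq n with h2 | h2
    · rw [h2]
      exact h1
    · rw [h2, Int.cast_neg, Valuation.map_neg]
      exact h1
  rw [hy, map_mul, map_intCast, map_mul, hodd _ hd, one_mul, map_mul, map_natCast, map_mul] at h1
  have h3 : V.valuation ((N : ℕ) : ℂ) = 1 := by
    have := hodd (N : ℤ) (by
      rw [← Int.not_even_iff_odd, even_iff_two_dvd]
      exact_mod_cast hN)
    exact_mod_cast this
  rw [h3, one_mul] at h1
  exact h1

end H55N
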