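import Mathlib
import Pool.Agent.Lib.H55N.A2
import Pool.Agent.Lib.H55N.L1

open NumberField IsDedekindDomain

namespace H55N

open H55B H55C

variable {K : Type} [Field K] [NumberField K] [Algebra F K] {m : ℕ}

/-! Chunk L2 (M/L). Existence of the labels, n = m+1. β, β' as in dual_basis; c₀ = sum_j c_j β_j with c_j in O; some c_{j0} is not divisible by lam (else c₀ = lam * (sum (c_j/lam) β_j) is in
lam b). For r in the box {0..n-1}^m let s = (sum_i r_i) mod n (the colour) and L(r) = sum_j y_j β'_j, y = e_s + 2 q e_{j0}, q in O with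
c_s + 2 q c_{j0} = 1 mod lam (2 c_{j0} is invertible mod lam: lam is a prime element of O; or use IsCoprime). For general a = r + n z (r_i = a_i mod n, z_i = a_i / n) put L(a) = u^z L(r): equi
(uu is multiplicative in z). int: Tr(x L(a)) = Tr((u^z x) L(r)) and u^z x in b. one: c₀ u^z = c₀ + (element of 6 b) (hu6), so Tr(c₀ L(a)) = Tr(c₀ L(r)) + 6(..) =
sum_j y_j c_j + 6(..) = 1 mod lam (3 is divisible by lam). odd: write L(kv a π k) = sum_j Y_{kj} β'_j, Y_{kj} = Tr(β_j L(..)) in O; Y_k = e_{colour} mod 2 (u^z = 1 mod 6 changes the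
coordinates by multiples of 6: Tr(β_j (u^z - 1) L(r)) in 6 O), where the colour of kv a π k is (sum a_i + k) mod n (kv a π k has coordinate sum sum a_i + k). So Y mod 2 is a
permutation matrix and d = det Y is congruent to ±1 mod 2: IsCoprime d 2. For y in O^n take the vector x' = adjugate(Y) y: Y x' = d y, and x = sum_j x'_j β_j: Tr(x L_k) = sum_j x'_j Y_{kj} = d y_k. -/

/-- Rational labels. -/
structure LabOk (b : Ideal (𝓞 K)) (c₀ : 𝓞 K) (u : Fin m → (𝓞 K)ˣ) (L : (Fin m → ℤ) → K) : Prop where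
  equi : ∀ a z : Fin m → ℤ, L (a + ((m + 1 : ℕ) : ℤ) • z) = ((uu u z : 𝓞 K) : K) * L a
  int : ∀ a, ∀ x ∈ b, ∃ y : O, Algebra.trace F K ((x : K) * L a) = algebraMap O F y
  one : ∀ a, ∃ y : O, Algebra.trace F K ((c₀ : K) * L a) = algebraMap O F (1 + lam * y)
  odd : ∀ (a : Fin m → ℤ) (π : Equiv.Perm (Fin m)), ∃ d : O, IsCoprime d 2 ∧
    ∀ y : Fin (m + 1) → O, ∃ x ∈ b, ∀ k : Fin (m + 1),
      Algebra.trace F K ((x : K) * L (kv a π k)) = algebraMap O F (d * y k)

/-- The colour of an integral vector. -/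
def L2_col (a : Fin m → ℤ) : Fin (m + 1) :=
  ⟨((∑ i, a i) % ((m + 1 : ℕ) : ℤ)).toNat, by
    have h1 : 0 ≤ (∑ i, a i) % ((m + 1 : ℕ) : ℤ) := Int.emod_nonneg _ (by positivity)
    have h2 : (∑ i, a i) % ((m + 1 : ℕ) : ℤ) < ((m + 1 : ℕ) : ℤ) :=
      Int.emod_lt_of_pos _ (by positivity)
    omega⟩

theorem L2_col_val (a : Fin m → ℤ) : ((L2_col a : ℕ) : ℤ) = (∑ i, a i) % ((m + 1 : ℕ) : ℤ) := by
  unfold L2_col
  have h1 : 0 ≤ (∑ i, a i) % ((m + 1 : ℕ) : ℤ) := Int.emod_nonneg _ (by positivity)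
  exact Int.toNat_of_nonneg h1

theorem L2_col_eq {a a' : Fin m → ℤ}
    (h : (∑ i, a i) % ((m + 1 : ℕ) : ℤ) = (∑ i, a' i) % ((m + 1 : ℕ) : ℤ)) :
    L2_col a = L2_col a' := by
  apply Fin.ext
  have h1 := L2_col_val a
  have h2 := L2_col_val a'
  rw [h, ← h2] at h1
  exact_mod_cast h1

theorem L2_sum_kv (a : Fin m → ℤ) (π : Equiv.Perm (Fin m)) (k : Fin (m + 1)) :
    ∑ i, kv a π k i = ∑ i, a i + ((k : ℕ) : ℤ) := by
  unfold kv
  rw [Finset.sum_add_distrib]
  congr 1
  rw [π.symm.sum_comp (fun i : Fin m => if ((i : Fin m) : ℕ) < (k : ℕ) then (1 : ℤ) else 0)]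
  rw [Fin.sum_univ_eq_sum_range (fun i => if i < (k : ℕ) then (1 : ℤ) else 0) m]
  rw [Finset.sum_ite, Finset.sum_const_zero, add_zero, Finset.sum_const, nsmul_eq_mul, mul_one]
  have h : (Finset.range m).filter (fun i => i < (k : ℕ)) = Finset.range k := by
    ext i
    simp only [Finset.mem_filter, Finset.mem_range]
    have := k.2
    omega
  rw [h, Finset.card_range]

theorem L2_bij (a : Fin m → ℤ) (π : Equiv.Perm (Fin m)) :
    Function.Bijective (fun k : Fin (m + 1) => L2_col (kv a π k)) := by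
  rw [Fintype.bijective_iff_injective_and_card]
  refine ⟨fun k k' h => ?_, rfl⟩
  have h1 : ((L2_col (kv a π k) : ℕ) : ℤ) = ((L2_col (kv a π k') : ℕ) : ℤ) := by
    have : L2_col (kv a π k) = L2_col (kv a π k') := h
    rw [this]
  rw [L2_col_val, L2_col_val, L2_sum_kv, L2_sum_kv] at h1
  have h2 := Int.ModEq.add_left_cancel' _ h1
  have h3 : (((k : ℕ) : ℤ)) % ((m + 1 : ℕ) : ℤ) = ((k' : ℕ) : ℤ) % ((m + 1 : ℕ) : ℤ) := h2
  rw [Int.emod_eq_of_lt (by positivity) (by exact_mod_cast k.2),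
    Int.emod_eq_of_lt (by positivity) (by exact_mod_cast k'.2)] at h3
  apply Fin.ext
  exact_mod_cast h3

theorem L2_lam_three : ∃ t : O, (3 : O) = lam * t := by
  refine ⟨-om ^ 2 * (om - 1), ?_⟩
  unfold lam
  rw [three_eq]
  ring

theorem L2_lam_prime : Prime (lam : O) := lam_prime

theorem L2_trace_mul (t : O) (x : K) :
    Algebra.trace F K (((algebraMap O (𝓞 K) t : 𝓞 K) : K) * x) =
      algebraMap O F t * Algebra.trace F K x := by
  have h : ((algebraMap O (𝓞 K) t : 𝓞 K) : K) * x = (algebraMap O F t) • x := by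
    rw [Algebra.smul_def]
    rfl
  rw [h, map_smul, smul_eq_mul]

theorem L2_coe_mul (x y : 𝓞 K) : ((x * y : 𝓞 K) : K) = (x : K) * (y : K) := rfl

theorem L2_coe_add (x y : 𝓞 K) : ((x + y : 𝓞 K) : K) = (x : K) + (y : K) := rfl

theorem L2_coe_sum {ι : Type} (s : Finset ι) (f : ι → 𝓞 K) :
    ((∑ i ∈ s, f i : 𝓞 K) : K) = ∑ i ∈ s, (f i : K) := map_sum (algebraMap (𝓞 K) K) f s

/-- The trace pairing of two vectors in dual bases. -/
theorem L2_pair (β : Fin (m + 1) → 𝓞 K) (β' : Fin (m + 1) → K)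
    (hdual : ∀ j k, Algebra.trace F K ((β j : K) * β' k) = if j = k then 1 else 0)
    (x y : Fin (m + 1) → O) :
    Algebra.trace F K (((∑ j, algebraMap O (𝓞 K) (x j) * β j : 𝓞 K) : K) *
      ∑ k, (algebraMap O F (y k)) • β' k) = algebraMap O F (∑ j, x j * y j) := by
  rw [L2_coe_sum, Finset.sum_mul, map_sum, map_sum]
  refine Finset.sum_congr rfl fun j _ => ?_
  rw [L2_coe_mul, mul_assoc, L2_trace_mul, map_mul (algebraMap O F)]
  congr 1
  rw [Finset.mul_sum, map_sum, Finset.sum_eq_single j]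
  · rw [mul_smul_comm, map_smul, hdual, if_pos rfl, smul_eq_mul, mul_one]
  · intro k _ hk
    rw [mul_smul_comm, map_smul, hdual, if_neg hk.symm, smul_zero]
  · intro h
    exact absurd (Finset.mem_univ j) h

theorem L2_uu_add (u : Fin m → (𝓞 K)ˣ) (z z' : Fin m → ℤ) : uu u (z + z') = uu u z * uu u z' := by
  unfold uu
  rw [← Finset.prod_mul_distrib]
  exact Finset.prod_congr rfl fun j _ => by rw [Pi.add_apply, zpow_add]

theorem L2_coprime_of_sq {d : O} (h : Ideal.Quotient.mk (Ideal.span {(2 : O)}) (d * d) = 1) :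
    IsCoprime d 2 := by
  rw [← map_one (Ideal.Quotient.mk (Ideal.span {(2 : O)})), Ideal.Quotient.eq,
    Ideal.mem_span_singleton] at h
  obtain ⟨t, ht⟩ := h
  exact ⟨d, -t, by linear_combination ht⟩

/-- A matrix congruent to a permutation matrix modulo 2 has odd determinant. -/
theorem L2_det (s : Equiv.Perm (Fin (m + 1))) (Y W : Matrix (Fin (m + 1)) (Fin (m + 1)) O)
    (hY : ∀ k j, Y k j = (if s k = j then 1 else 0) + 2 * W k j) : IsCoprime Y.det 2 := by
  apply L2_coprime_of_sq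
  set φ := Ideal.Quotient.mk (Ideal.span {(2 : O)}) with hφ
  have h2 : φ 2 = 0 := by
    rw [hφ, Ideal.Quotient.eq_zero_iff_mem]
    exact Ideal.mem_span_singleton_self 2
  have h1 : φ.mapMatrix Y = (1 : Matrix (Fin (m + 1)) (Fin (m + 1)) (O ⧸ Ideal.span {(2 : O)})).submatrix s id := by
    ext k j
    rw [RingHom.mapMatrix_apply, Matrix.map_apply, hY, map_add, map_mul, h2, zero_mul, add_zero,
      Matrix.submatrix_apply, Matrix.one_apply]
    rw [id_eq]
    by_cases h : s k = j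
    · rw [if_pos h, if_pos h, map_one]
    · rw [if_neg h, if_neg h, map_zero]
  rw [map_mul, RingHom.map_det, h1, Matrix.det_permute, Matrix.det_one, mul_one]
  rcases Int.units_eq_one_or (Equiv.Perm.sign s) with h | h <;> rw [h] <;> simp

theorem labels_exist (hm : Module.finrank F K = m + 1) (b f : Ideal (𝓞 K)) (hb : b ≠ ⊥)
    (c₀ : 𝓞 K) (hc : c₀ ∈ b) (hc' : c₀ ∉ Ideal.span {algebraMap O (𝓞 K) lam} * b)
    (u : Fin m → (𝓞 K)ˣ) (hu6 : ∀ z, (uu u z : 𝓞 K) - 1 ∈ Ideal.span {6}) :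
    ∃ L : (Fin m → ℤ) → K, LabOk b c₀ u L := by
  classical
  obtain ⟨β, β', hβ, hdual, hrep, hind⟩ := dual_basis hm b hb
  obtain ⟨c, hcc⟩ := hrep c₀ hc
  -- a coordinate not divisible by lam
  obtain ⟨j₀, hj₀⟩ : ∃ j₀, ¬ lam ∣ c j₀ := by
    by_contra hcon
    push Not at hcon
    choose c' hc'' using hcon
    apply hc'
    rw [Ideal.mem_span_singleton_mul]
    refine ⟨∑ j, algebraMap O (𝓞 K) (c' j) * β j, b.sum_mem fun j _ => b.mul_mem_left _ (hβ j), ?_⟩
    rw [hcc, Finset.mul_sum]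
    refine Finset.sum_congr rfl fun j _ => ?_
    rw [hc'' j, map_mul]
    ring
  have hlam := L2_lam_prime
  obtain ⟨t3, ht3⟩ := L2_lam_three
  have hl2 : ¬ lam ∣ (2 : O) := by
    rintro ⟨t, ht⟩
    apply hlam.not_isUnit
    apply isUnit_of_dvd_one
    exact ⟨t3 - t, by linear_combination ht3 - ht⟩
  have hcop : IsCoprime lam (2 * c j₀) := by
    rw [Prime.coprime_iff_not_dvd hlam]
    intro h
    rcases hlam.dvd_or_dvd h with h1 | h1
    · exact hl2 h1
    · exact hj₀ h1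
  obtain ⟨a', b', hab⟩ := hcop
  -- the coordinate vectors
  let Yv : Fin (m + 1) → Fin (m + 1) → O := fun s j =>
    (if s = j then 1 else 0) + 2 * (b' * (1 - c s) * if j₀ = j then 1 else 0)
  have hYone : ∀ s, ∑ j, c j * Yv s j = 1 + lam * (-(a' * (1 - c s))) := by
    intro s
    have h1 : ∑ j, c j * Yv s j = c s + 2 * (b' * (1 - c s)) * c j₀ := by
      simp only [Yv, mul_add, Finset.sum_add_distrib]
      congr 1
      · simp
      · rw [Finset.sum_eq_single j₀]
        · rw [if_pos rfl]; ring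
        · intro j _ hj
          rw [if_neg hj.symm]; ring
        · intro h
          exact absurd (Finset.mem_univ _) h
    rw [h1]
    linear_combination (1 - c s) * hab
  let L0 : Fin (m + 1) → K := fun s => ∑ k, (algebraMap O F (Yv s k)) • β' k
  have hL0 : ∀ (x : Fin (m + 1) → O) (s : Fin (m + 1)),
      Algebra.trace F K (((∑ j, algebraMap O (𝓞 K) (x j) * β j : 𝓞 K) : K) * L0 s) =
        algebraMap O F (∑ j, x j * Yv s j) := fun x s => L2_pair β β' hdual x (Yv s)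
  have hL0b : ∀ x ∈ b, ∀ s, ∃ y : O, Algebra.trace F K ((x : K) * L0 s) = algebraMap O F y := by
    intro x hx s
    obtain ⟨y, hy⟩ := hrep x hx
    exact ⟨_, by rw [hy]; exact hL0 y s⟩
  let L : (Fin m → ℤ) → K := fun a =>
    ((uu u (fun i => a i / ((m + 1 : ℕ) : ℤ)) : 𝓞 K) : K) * L0 (L2_col a)
  -- the action of the units modulo 6
  have hmod : ∀ (x : 𝓞 K) (_ : x ∈ b) (z : Fin m → ℤ) (s : Fin (m + 1)), ∃ w : O,
      Algebra.trace F K ((x : K) * (((uu u z : 𝓞 K) : K) * L0 s)) =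
        Algebra.trace F K ((x : K) * L0 s) + algebraMap O F (6 * w) := by
    intro x hx z s
    obtain ⟨t, ht⟩ := Ideal.mem_span_singleton.1 (hu6 z)
    obtain ⟨w, hw⟩ := hL0b (t * x) (b.mul_mem_left _ hx) s
    refine ⟨w, ?_⟩
    have h1 : (uu u z : 𝓞 K) = 1 + 6 * t := by linear_combination ht
    have h2 : (x : K) * (((uu u z : 𝓞 K) : K) * L0 s) =
        (x : K) * L0 s + ((algebraMap O (𝓞 K) 6 : 𝓞 K) : K) * (((t * x : 𝓞 K) : K) * L0 s) := by
      rw [h1, map_ofNat]
      have h3 : ((1 + 6 * t : 𝓞 K) : K) = 1 + ((6 : 𝓞 K) : K) * (t : K) := by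
        rw [L2_coe_add, L2_coe_mul]
        rfl
      rw [h3, L2_coe_mul]
      ring
    rw [h2, map_add, L2_trace_mul, hw, map_mul (algebraMap O F)]
  refine ⟨L, ⟨?_, ?_, ?_, ?_⟩⟩
  · intro a z
    have hn : ((m + 1 : ℕ) : ℤ) ≠ 0 := by positivity
    have h1 : L2_col (a + ((m + 1 : ℕ) : ℤ) • z) = L2_col a := by
      apply L2_col_eq
      have : ∑ i, (a + ((m + 1 : ℕ) : ℤ) • z) i = ∑ i, a i + ((m + 1 : ℕ) : ℤ) * ∑ i, z i := by
        simp only [Pi.add_apply, Pi.smul_apply, smul_eq_mul, Finset.sum_add_distrib, Finset.mul_sum]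
      rw [this, Int.add_mul_emod_self_left]
    have h2 : (fun i => (a + ((m + 1 : ℕ) : ℤ) • z) i / ((m + 1 : ℕ) : ℤ)) =
        (fun i => a i / ((m + 1 : ℕ) : ℤ)) + z := by
      funext i
      simp only [Pi.add_apply, Pi.smul_apply, smul_eq_mul]
      rw [Int.add_mul_ediv_left _ _ hn]
    show ((uu u (fun i => (a + ((m + 1 : ℕ) : ℤ) • z) i / ((m + 1 : ℕ) : ℤ)) : 𝓞 K) : K) *
      L0 (L2_col (a + ((m + 1 : ℕ) : ℤ) • z)) = _
    rw [h1, h2, L2_uu_add, Units.val_mul, L2_coe_mul]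
    show _ = ((uu u z : 𝓞 K) : K) *
      (((uu u (fun i => a i / ((m + 1 : ℕ) : ℤ)) : 𝓞 K) : K) * L0 (L2_col a))
    ring
  · intro a x hx
    have h1 : (x : K) * L a =
        ((x * (uu u (fun i => a i / ((m + 1 : ℕ) : ℤ)) : 𝓞 K) : 𝓞 K) : K) * L0 (L2_col a) := by
      rw [L2_coe_mul, mul_assoc]
    rw [h1]
    exact hL0b _ (b.mul_mem_right _ hx) _
  · intro a
    obtain ⟨w, hw⟩ := hmod c₀ hc (fun i => a i / ((m + 1 : ℕ) : ℤ)) (L2_col a)
    have h1 := hL0 c (L2_col a)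
    rw [← hcc, hYone] at h1
    refine ⟨-(a' * (1 - c (L2_col a))) + 2 * t3 * w, ?_⟩
    show Algebra.trace F K ((c₀ : K) *
      (((uu u (fun i => a i / ((m + 1 : ℕ) : ℤ)) : 𝓞 K) : K) * L0 (L2_col a))) = _
    rw [hw, h1, ← map_add]
    congr 1
    linear_combination 2 * w * ht3
  · intro a π
    let s : Equiv.Perm (Fin (m + 1)) := Equiv.ofBijective _ (L2_bij a π)
    have hs : ∀ k, s k = L2_col (kv a π k) := fun k => rfl
    -- the matrix of the coordinates
    have hY : ∀ k j : Fin (m + 1), ∃ W : O, Algebra.trace F K ((β j : K) * L (kv a π k)) =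
        algebraMap O F ((if s k = j then 1 else 0) + 2 * W) := by
      intro k j
      obtain ⟨w, hw⟩ := hmod (β j) (hβ j) (fun i => kv a π k i / ((m + 1 : ℕ) : ℤ))
        (L2_col (kv a π k))
      have h1 := hL0 (Pi.single j 1) (L2_col (kv a π k))
      have h2 : ∑ i, algebraMap O (𝓞 K) ((Pi.single j 1 : Fin (m + 1) → O) i) * β i = β j := by
        rw [Finset.sum_eq_single j]
        · rw [Pi.single_eq_same, map_one, one_mul]
        · intro i _ hi
          rw [Pi.single_eq_of_ne hi, map_zero, zero_mul]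
        · intro h
          exact absurd (Finset.mem_univ _) h
      have h3 : ∑ i, (Pi.single j 1 : Fin (m + 1) → O) i * Yv (L2_col (kv a π k)) i =
          Yv (L2_col (kv a π k)) j := by
        rw [Finset.sum_eq_single j]
        · rw [Pi.single_eq_same, one_mul]
        · intro i _ hi
          rw [Pi.single_eq_of_ne hi, zero_mul]
        · intro h
          exact absurd (Finset.mem_univ _) h
      rw [h2, h3] at h1
      refine ⟨b' * (1 - c (L2_col (kv a π k))) * (if j₀ = j then 1 else 0) + 3 * w, ?_⟩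
      show Algebra.trace F K ((β j : K) *
        (((uu u (fun i => kv a π k i / ((m + 1 : ℕ) : ℤ)) : 𝓞 K) : K) * L0 (L2_col (kv a π k)))) = _
      rw [hw, h1, ← map_add]
      congr 1
      rw [hs]
      simp only [Yv]
      ring
    choose W hW using hY
    let Y : Matrix (Fin (m + 1)) (Fin (m + 1)) O := fun k j => (if s k = j then 1 else 0) + 2 * W k j
    refine ⟨Y.det, L2_det s Y W fun k j => rfl, fun y => ?_⟩
    refine ⟨∑ j, algebraMap O (𝓞 K) ((Y.adjugate.mulVec y) j) * β j,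
      b.sum_mem fun j _ => b.mul_mem_left _ (hβ j), fun k => ?_⟩
    rw [L2_coe_sum, Finset.sum_mul, map_sum]
    have h1 : ∀ j, Algebra.trace F K
        (((algebraMap O (𝓞 K) ((Y.adjugate.mulVec y) j) * β j : 𝓞 K) : K) * L (kv a π k)) =
          algebraMap O F (Y k j * (Y.adjugate.mulVec y) j) := by
      intro j
      rw [L2_coe_mul, mul_assoc, L2_trace_mul, hW k j, mul_comm, ← map_mul]
    rw [Finset.sum_congr rfl fun j _ => h1 j, ← map_sum]
    congr 1
    have h2 : Y.mulVec (Y.adjugate.mulVec y) = Y.det • y := by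
      rw [Matrix.mulVec_mulVec, Matrix.mul_adjugate, Matrix.smul_mulVec, Matrix.one_mulVec]
    exact congrFun h2 k

/-- The labels of a simplex are linearly independent over F: if sum_k f_k L_k = 0, multiply by x in b with Tr(x L_k) = d y_k and take traces: sum_k f_k d y_k = 0 for all y in
O^n, d <> 0 (2 is not a unit of O). -/
theorem labels_indep (b : Ideal (𝓞 K)) (c₀ : 𝓞 K) (u : Fin m → (𝓞 K)ˣ) (L : (Fin m → ℤ) → K)
    (hL : LabOk b c₀ u L) (a : Fin m → ℤ) (π : Equiv.Perm (Fin m)) :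
    LinearIndependent F fun k : Fin (m + 1) => L (kv a π k) := by
  rw [Fintype.linearIndependent_iff]
  intro g hg k₀
  obtain ⟨d, hd, h⟩ := hL.odd a π
  obtain ⟨x, _, hx⟩ := h (Pi.single k₀ 1)
  have hd0 : d ≠ 0 := by
    rintro rfl
    exact two_prime.not_isUnit (isCoprime_zero_left.1 hd)
  have h1 := congrArg (fun t => Algebra.trace F K ((x : K) * t)) hg
  simp only [Finset.mul_sum, map_sum, mul_zero, map_zero, mul_smul_comm, map_smul, smul_eq_mul,
    hx] at h1
  rw [Finset.sum_eq_single k₀] at h1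
  · rw [Pi.single_eq_same, mul_one] at h1
    rcases mul_eq_zero.1 h1 with h2 | h2
    · exact h2
    · exfalso
      apply hd0
      exact RingOfIntegers.coe_injective (h2.trans (map_zero _).symm)
  · intro k _ hk
    rw [Pi.single_eq_of_ne hk, mul_zero, map_zero, mul_zero]
  · intro h
    exact absurd (Finset.mem_univ _) h

/-- The values on the class X = c₀ + 3 f b. -/
theorem labels_low (D : Ctx K m) (hE : Emb D.σ) (b f : Ideal (𝓞 K)) (c₀ : 𝓞 K)
    (hD : D.I = Ideal.span {3} * f * b ∧ D.c₀ = c₀) (u : Fin m → (𝓞 K)ˣ) (L : (Fin m → ℤ) → K)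
    (hL : LabOk b c₀ u L) (a : Fin m → ℤ) :
    ∀ x ∈ D.X, (∃ y : O, D.Tr (L a) x = e (1 + lam * y)) ∧ 1 ≤ ‖D.Tr (L a) x‖ := by
  intro x hx
  have key : ∃ y : O, D.Tr (L a) x = e (1 + lam * y) := by
    have hx1 : x - c₀ ∈ Ideal.span {(3 : 𝓞 K)} * (f * b) := by
      have h0 : Ideal.span {(3 : 𝓞 K)} * (f * b) = D.I := by
        rw [hD.1]
        exact (mul_assoc _ _ _).symm
      rw [h0, ← hD.2]
      exact hx
    obtain ⟨t, ht, hxt⟩ := Ideal.mem_span_singleton_mul.1 hx1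
    have htb : t ∈ b := Ideal.mul_le_right ht
    obtain ⟨y, hy⟩ := hL.one a
    obtain ⟨w, hw⟩ := hL.int a t htb
    obtain ⟨t3, ht3⟩ := L2_lam_three
    refine ⟨y + t3 * w, ?_⟩
    rw [Tr_eq D hE]
    have h1 : (x : K) * L a = (c₀ : K) * L a +
        ((algebraMap O (𝓞 K) 3 : 𝓞 K) : K) * ((t : K) * L a) := by
      have h2 : x = c₀ + 3 * t := by linear_combination -hxt
      rw [h2, map_ofNat, L2_coe_add, L2_coe_mul]
      ring
    rw [h1, map_add, L2_trace_mul, hy, hw, ← map_mul (algebraMap O F), ← map_add (algebraMap O F)]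
    show e _ = e _
    congr 1
    linear_combination w * ht3
  refine ⟨key, ?_⟩
  obtain ⟨y, hy⟩ := key
  rw [hy]
  have h1 := Nm_eq (1 + lam * y)
  have h2 : 1 ≤ Nm (1 + lam * y) := by
    rw [Nat.one_le_iff_ne_zero]
    intro h0
    have h3 := Nm_eq_zero.1 h0
    apply L2_lam_prime.not_isUnit
    apply isUnit_of_dvd_one
    exact ⟨-y, by linear_combination h3⟩
  have h3 : (1 : ℝ) ≤ Nm (1 + lam * y) := by exact_mod_cast h2
  rw [h1] at h3
  nlinarith [norm_nonneg (e (1 + lam * y))]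

end H55N
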