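import Mathlib
import Pool.Agent.Lib.H55N.L2

open NumberField IsDedekindDomain

namespace H55N

open H55B H55C

variable {K : Type} [Field K] [NumberField K] [Algebra F K] {m : ℕ}

/-! Chunk E9 (M). The integer m₀. f is prime to 2, so it contains an odd natural number N_f (absNorm f, odd: f + (2) = O_K); p_i in c_i, p_i odd (hp). LabOk.odd gives d in O prime
to 2 with: for every y there is x in b with Tr(x L_k) = d y_k. Let N_d = Nm d (odd, divisible by d: Nm d = d conj d; IsCoprime d 2 implies that Nm d is odd). Put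
m₀ = 3 N_f (prod p_i) N_d: for y in O^n choose x' in b with Tr(x' L_k) = d (N_d/d) y_k = N_d y_k; x = 3 N_f (prod p_i) x' is in 3 f b = D.I and in all c_i, Tr(x L_k) = m₀ y_k. -/

theorem E9_not_unit (K : Type) [Field K] [NumberField K] : ¬ IsUnit (2 : 𝓞 K) := by
  intro h
  have h1 : Ideal.absNorm (Ideal.span {(2 : 𝓞 K)}) = 1 := by
    rw [Ideal.span_singleton_eq_top.2 h, Ideal.absNorm_top]
  rw [Ideal.absNorm_span_singleton] at h1
  have h2 : (2 : 𝓞 K) = algebraMap ℤ (𝓞 K) 2 := (map_ofNat _ 2).symm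
  rw [h2, Algebra.norm_algebraMap, Int.natAbs_pow] at h1
  have h3 : Module.finrank ℤ (𝓞 K) ≠ 0 := by
    rw [RingOfIntegers.rank]
    exact Module.finrank_pos.ne'
  have h4 : Int.natAbs 2 = 2 := rfl
  rw [h4] at h1
  exact absurd h1 (Nat.one_lt_two_pow h3).ne'

theorem E9_odd {K : Type} [Field K] [NumberField K] (J : Ideal (𝓞 K))
    (h : IsCoprime J (Ideal.span {2})) : Odd (Ideal.absNorm J) := by
  obtain ⟨a, ha, c, hc, hac⟩ := Ideal.isCoprime_iff_exists.1 h
  obtain ⟨c', rfl⟩ := Ideal.mem_span_singleton.1 hc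
  have hJ : J ≠ ⊥ := by
    rintro rfl
    rw [Ideal.mem_bot] at ha
    rw [ha, zero_add] at hac
    exact E9_not_unit K (IsUnit.of_mul_eq_one _ hac)
  rw [← Nat.not_even_iff_odd]
  intro hev
  have hfin : Finite (𝓞 K ⧸ J) := Ideal.finiteQuotientOfFreeOfNeBot J hJ
  have hcard : 2 ∣ Nat.card (𝓞 K ⧸ J) := by
    have : Ideal.absNorm J = Nat.card (𝓞 K ⧸ J) := rfl
    rw [← this]
    exact hev.two_dvd
  haveI : Fact (Nat.Prime 2) := ⟨Nat.prime_two⟩
  obtain ⟨x, hx⟩ := exists_prime_addOrderOf_dvd_card' 2 hcard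
  have h2 : (2 : ℕ) • x = 0 := by rw [← hx]; exact addOrderOf_nsmul_eq_zero x
  have h3 : (Ideal.Quotient.mk J) a = 0 := Ideal.Quotient.eq_zero_iff_mem.2 ha
  have h4 : (Ideal.Quotient.mk J) (a + 2 * c') = 1 := by rw [hac, map_one]
  rw [map_add, h3, zero_add, map_mul] at h4
  have h5 : x = 0 := by
    have h6 : (Ideal.Quotient.mk J) 2 = 2 := map_ofNat _ 2
    rw [h6] at h4
    calc x = (2 * (Ideal.Quotient.mk J) c') * x := by rw [h4, one_mul]
      _ = (Ideal.Quotient.mk J) c' * ((2 : ℕ) • x) := by rw [nsmul_eq_mul]; push_cast; ring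
      _ = 0 := by rw [h2, mul_zero]
  rw [h5, addOrderOf_zero] at hx
  exact absurd hx (by norm_num)

theorem m0_exists (D : Ctx K m) (hD : D.Ok) (b f : Ideal (𝓞 K)) (hf2 : IsCoprime f (Ideal.span {2}))
    (hI : D.I = Ideal.span {3} * f * b) (hp : ∀ i, D.p i ≠ 2) (u : Fin m → (𝓞 K)ˣ)
    (L : (Fin m → ℤ) → K) (hL : LabOk b D.c₀ u L) (a : Fin m → ℤ) (π : Equiv.Perm (Fin m)) :
    ∃ m₀ : ℕ, Odd m₀ ∧ 3 ∣ m₀ ∧ ∀ y : Fin (m + 1) → O, ∃ x : 𝓞 K, x ∈ D.I ∧ (∀ i, x ∈ D.c i) ∧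
      ∀ k : Fin (m + 1), D.Tr (L (kv a π k)) x = m₀ * e (y k) := by
  classical
  obtain ⟨d, hd2, hd⟩ := hL.odd a π
  have hNf := E9_odd f hf2
  have hNd : Odd (Nm d) := by
    refine E9_odd (K := F) (Ideal.span {d}) ?_
    rw [Ideal.isCoprime_span_singleton_iff]
    exact hd2
  have hP : Odd (∏ i, D.p i) := by
    refine Finset.prod_induction _ Odd (fun _ _ => Odd.mul) odd_one fun i _ => ?_
    exact (hD.smooth.prime i).odd_of_ne_two (hp i)
  refine ⟨3 * Ideal.absNorm f * (∏ i, D.p i) * Nm d, ?_, ?_, fun y => ?_⟩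
  · exact (((by decide : Odd 3).mul hNf).mul hP).mul hNd
  · exact ⟨Ideal.absNorm f * (∏ i, D.p i) * Nm d, by ring⟩
  · obtain ⟨x, hx, hxk⟩ := hd fun k => cj d * y k
    refine ⟨((3 * Ideal.absNorm f * (∏ i, D.p i) : ℕ) : 𝓞 K) * x, ?_, ?_, ?_⟩
    · rw [hI]
      refine Ideal.mul_mem_mul ?_ hx
      have h1 : (3 : 𝓞 K) * (Ideal.absNorm f : 𝓞 K) ∈ Ideal.span {3} * f :=
        Ideal.mul_mem_mul (Ideal.mem_span_singleton_self _) (Ideal.absNorm_mem f)
      have h2 : ((3 * Ideal.absNorm f * (∏ i, D.p i) : ℕ) : 𝓞 K) =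
          ((∏ i, D.p i : ℕ) : 𝓞 K) * ((3 : 𝓞 K) * (Ideal.absNorm f : 𝓞 K)) := by
        push_cast; ring
      rw [h2]
      exact Ideal.mul_mem_left _ _ h1
    · intro i
      refine Ideal.mul_mem_right _ _ ?_
      have h1 : ((D.p i : ℕ) : 𝓞 K) ∈ D.c i := by
        rw [← hD.smooth.norm i]
        exact Ideal.absNorm_mem _
      obtain ⟨t, ht⟩ : D.p i ∣ 3 * Ideal.absNorm f * (∏ i, D.p i) :=
        (Finset.dvd_prod_of_mem _ (Finset.mem_univ i)).mul_left _
      rw [ht, Nat.cast_mul]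
      exact Ideal.mul_mem_right _ _ h1
    · intro k
      rw [Tr_eq D hD.emb]
      have h1 : ((((3 * Ideal.absNorm f * (∏ i, D.p i) : ℕ) : 𝓞 K) * x : 𝓞 K) : K) *
          L (kv a π k) = ((3 * Ideal.absNorm f * (∏ i, D.p i) : ℕ) : F) • ((x : K) * L (kv a π k)) := by
        have h2 : ((((3 * Ideal.absNorm f * (∏ i, D.p i) : ℕ) : 𝓞 K) * x : 𝓞 K) : K) =
            ((3 * Ideal.absNorm f * (∏ i, D.p i) : ℕ) : K) * (x : K) := by
          have h := map_mul (algebraMap (𝓞 K) K)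
            ((3 * Ideal.absNorm f * (∏ i, D.p i) : ℕ) : 𝓞 K) x
          rw [map_natCast] at h
          exact h
        rw [h2, Algebra.smul_def, map_natCast]
        ring
      rw [h1, map_smul, hxk k, smul_eq_mul, map_mul, map_natCast]
      have h3 : d * (cj d * y k) = (Nm d : O) * y k := by rw [← mul_assoc, mul_cj]
      rw [h3]
      have h4 : emb ((algebraMap O F) ((Nm d : O) * y k)) = (Nm d : ℂ) * e (y k) := by
        show e ((Nm d : O) * y k) = _
        rw [map_mul, map_natCast]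
      rw [h4]
      push_cast
      ring

end H55N
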