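import Mathlib
import Pool.Agent.Lib.H55B.D0
import Pool.Agent.Lib.H55N.Defs

namespace H55N

theorem Int2.mul {x y : ℂ} (hx : Int2 x) (hy : Int2 y) : Int2 (x * y) := by
  intro V hV
  rw [map_mul]
  exact mul_le_one' (hx V hV) (hy V hV)

theorem Int2.add {x y : ℂ} (hx : Int2 x) (hy : Int2 y) : Int2 (x + y) := by
  intro V hV
  exact (V.valuation.map_add x y).trans (max_le (hx V hV) (hy V hV))

theorem Int2.neg {x : ℂ} (hx : Int2 x) : Int2 (-x) := by
  intro V hV
  rw [Valuation.map_neg]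
  exact hx V hV

theorem Int2.zero : Int2 0 := by
  intro V _
  rw [map_zero]
  exact zero_le'

theorem Int2.one : Int2 1 := by
  intro V _
  rw [map_one]

theorem Int2.intCast (n : ℤ) : Int2 (n : ℂ) := by
  intro V _
  exact (V.valuation_le_one_iff _).2 (intCast_mem V n)

theorem Int2.natCast (n : ℕ) : Int2 (n : ℂ) := by
  intro V _
  exact (V.valuation_le_one_iff _).2 (natCast_mem V n)

theorem Int2.sum {κ : Type*} (s : Finset κ) (f : κ → ℂ) (h : ∀ i ∈ s, Int2 (f i)) :
    Int2 (∑ i ∈ s, f i) := by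
  intro V hV
  exact V.valuation.map_sum_le fun i hi => h i hi V hV

theorem Int2.prod {κ : Type*} (s : Finset κ) (f : κ → ℂ) (h : ∀ i ∈ s, Int2 (f i)) :
    Int2 (∏ i ∈ s, f i) := by
  classical
  induction s using Finset.induction_on with
  | empty => simpa using Int2.one
  | insert a s ha ih =>
    rw [Finset.prod_insert ha]
    exact (h a (Finset.mem_insert_self _ _)).mul (ih fun i hi => h i (Finset.mem_insert_of_mem hi))

theorem Int2.pow {x : ℂ} (hx : Int2 x) (n : ℕ) : Int2 (x ^ n) := by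
  intro V hV
  rw [map_pow]
  exact pow_le_one' (hx V hV) n

theorem Int2.div_odd {x : ℂ} (hx : Int2 x) (n : ℕ) (hn : Odd n) : Int2 (x / n) := by
  intro V hV
  rw [map_div₀, H55B.val_odd V hV n hn, div_one]
  exact hx V hV

theorem Int2.det {n : ℕ} (M : Matrix (Fin n) (Fin n) ℂ) (h : ∀ i j, Int2 (M i j)) :
    Int2 M.det := by
  rw [Matrix.det_apply']
  refine Int2.sum _ _ fun π _ => ?_
  exact (Int2.intCast _).mul (Int2.prod _ _ fun i _ => h _ _)

end H55N
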