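import Mathlib
import Pool.Agent.Lib.H55N.I0
import Pool.Agent.Lib.H55N.R8
import Pool.Agent.Lib.H55N.E8
import Pool.Agent.Lib.H55N.E9

open NumberField IsDedekindDomain MeasureTheory

namespace H55N

open H55B H55C

variable {K : Type} [Field K] [NumberField K] [Algebra F K] {m : ℕ}

/-! Chunk Z2 (S/M). Integrality of the alternating sum. Each term is ± Jv of the labels A_k = L(kv a π k): Jv_A gives S with Jv = det(σ_i A_k) S and the limit needed in rat_val; hone from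
labels_low, m₀ from m0_exists; so S/R0^n is Int2; the entries σ_i(A_k) are Int2 by label_int2 (LabOk.int), the determinant by Int2.det. Sum: Int2.sum, Int2.mul, Int2.intCast. -/

theorem CN_int2 (hK : UnrOut K) (D : Ctx K m) (hD : D.Ok) (b f : Ideal (𝓞 K))
    (hb2 : IsCoprime b (Ideal.span {2})) (hf2 : IsCoprime f (Ideal.span {2}))
    (hI : D.I = Ideal.span {3} * f * b) (hp : ∀ i, D.p i ≠ 2) (u : Fin m → (𝓞 K)ˣ)
    (L : (Fin m → ℤ) → K) (hL : LabOk b D.c₀ u L)
    (hdirs : ∀ (a : Fin m → Fin (m + 1)) (π : Equiv.Perm (Fin m)),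
      ∃ w', D.Dirs (fun k : Fin (m + 1) => L (kv (fun k => ((a k : ℕ) : ℤ)) π k)) w') :
    Int2 (CN (m + 1) D.Jv (fun a => .A (L a)) / R0 ^ (m + 1)) := by
  unfold CN
  rw [Finset.sum_div]
  refine Int2.sum _ _ fun a _ => ?_
  rw [Finset.sum_div]
  refine Int2.sum _ _ fun π _ => ?_
  rw [mul_div_assoc]
  refine (Int2.intCast _).mul ?_
  obtain ⟨w', hw'⟩ := hdirs a π
  obtain ⟨S, hS, hlim⟩ := Jv_A D hD _ w' hw'
  rw [hS, mul_div_assoc]
  refine (Int2.det _ fun k i => ?_).mul ?_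
  · exact label_int2 hK b hb2 _ (hL.int _) (D.σ i)
  · obtain ⟨m₀, ho, h3, hm⟩ := m0_exists D hD b f hf2 hI hp u L hL
      (fun k => ((a k : ℕ) : ℤ)) π
    exact rat_val D hD _ w' hw'
      (fun x hx k => (labels_low D hD.emb b f D.c₀ ⟨hI, rfl⟩ u L hL _ x hx).1) m₀ ho h3 hm S hlim

end H55N
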