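import Mathlib
import Pool.Agent.Lib.H55N.Z1
import Pool.Agent.Lib.H55N.Z2
import Pool.Agent.Lib.H55N.U5
import Pool.Agent.Lib.H55N.D1
import Pool.Agent.Lib.H55N.D2
import Pool.Agent.Lib.H55N.D3
import Pool.Agent.Lib.H55N.L4

open NumberField IsDedekindDomain

namespace H55N

open H55B H55C

variable {K : Type} [Field K] [NumberField K] [Algebra F K] {m : ℕ}

theorem Z3_gw (c : Fin (m + 1) × Fin 2 → Ideal (𝓞 K)) (p : Fin (m + 1) × Fin 2 → ℕ) (u : (𝓞 K)ˣ)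
    (x : 𝓞 K) : gw c p ((u : 𝓞 K) * x) = gw c p x := by
  unfold gw
  refine Finset.prod_congr rfl fun i _ => ?_
  have : (u : 𝓞 K) * x ∈ c i ↔ x ∈ c i := Ideal.unit_mul_mem_iff_mem _ u.isUnit
  by_cases h : x ∈ c i
  · rw [if_pos (this.2 h), if_pos h]
  · rw [if_neg (fun h' => h (this.1 h')), if_neg h]

theorem Z3_nf {σ : Fin (m + 1) → K →+* ℂ} (hσ : Emb σ) (s : ℂ) (u : (𝓞 K)ˣ)
    (hu : ∏ i, σ i ((u : 𝓞 K) : K) = 1) (x : 𝓞 K) : nf s ((u : 𝓞 K) * x) = nf s x := by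
  have h : ∏ i, σ i (((u : 𝓞 K) * x : 𝓞 K) : K) = ∏ i, σ i (x : K) := by
    have h1 : ∀ i, σ i (((u : 𝓞 K) * x : 𝓞 K) : K) = σ i ((u : 𝓞 K) : K) * σ i (x : K) := by
      intro i
      rw [← map_mul]
      rfl
    rw [Finset.prod_congr rfl fun i _ => h1 i, Finset.prod_mul_distrib, hu, one_mul]
  unfold nf
  rw [← norm_eq hσ, ← norm_eq hσ, h]

theorem Z3_lam : (3 : O) = -(om ^ 2) * lam ^ 2 := by
  have h := H55B.om_rel
  unfold lam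
  linear_combination (om ^ 2 - 3 * om + 3) * h

theorem Z3_le (f b : Ideal (𝓞 K)) :
    Ideal.span {3} * f * b ≤ Ideal.span {algebraMap O (𝓞 K) lam} * b := by
  refine Ideal.mul_mono_left (Ideal.mul_le_left.trans ?_)
  rw [Ideal.span_singleton_le_span_singleton]
  refine ⟨algebraMap O (𝓞 K) (-(om ^ 2) * lam), ?_⟩
  rw [← map_mul]
  have h : (3 : 𝓞 K) = algebraMap O (𝓞 K) 3 := (map_ofNat _ 3).symm
  rw [h, Z3_lam]
  congr 1
  ring

theorem Z3_bij {J' : Ideal (𝓞 K)} {X T : Set (𝓞 K)} (h0 : (0 : 𝓞 K) ∉ X) (hT : Transv J' X T)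
    (u : Fin m → (𝓞 K)ˣ) (hu2 : ∀ z, (uu u z : 𝓞 K) - 1 ∈ J')
    (hu3 : ∀ v : (𝓞 K)ˣ, (v : 𝓞 K) - 1 ∈ J' → ∃! z : Fin m → ℤ, v = uu u z) :
    ∀ x ∈ X, ∃! q : (Fin m → ℤ) × T, x = (uu u q.1 : 𝓞 K) * q.2 := by
  intro x hx
  obtain ⟨r, hr, v, hv, hxv⟩ := hT.cover x hx
  obtain ⟨z, hz, hzu⟩ := hu3 v hv
  refine ⟨(z, ⟨r, hr⟩), ?_, ?_⟩
  · simp only
    rw [← hz]
    exact hxv
  · rintro ⟨z', r'⟩ h'
    simp only at h'
    have e1 : (r' : 𝓞 K) = (((uu u z')⁻¹ * v : (𝓞 K)ˣ) : 𝓞 K) * r := by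
      rw [Units.val_mul, mul_assoc, ← hxv, h', Units.inv_mul_cancel_left]
    have e2 : (((uu u z')⁻¹ * v : (𝓞 K)ˣ) : 𝓞 K) - 1 ∈ J' := by
      have e3 : (((uu u z')⁻¹ * v : (𝓞 K)ˣ) : 𝓞 K) - 1 =
          (((uu u z')⁻¹ : (𝓞 K)ˣ) : 𝓞 K) * (((v : 𝓞 K) - 1) - ((uu u z' : 𝓞 K) - 1)) := by
        have e4 : (((uu u z')⁻¹ : (𝓞 K)ˣ) : 𝓞 K) * (uu u z' : 𝓞 K) = 1 := Units.inv_mul _
        rw [Units.val_mul]
        linear_combination e4
      rw [e3]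
      exact J'.mul_mem_left _ (J'.sub_mem hv (hu2 z'))
    have e5 : (r' : 𝓞 K) = r := hT.uniq r hr r' r'.2 _ e2 e1
    have hr0 : r ≠ 0 := by
      rintro rfl
      exact h0 (hT.sub hr)
    have e6 : v = uu u z' := by
      apply Units.ext
      rw [e5, hxv] at h'
      exact mul_right_cancel₀ hr0 h'
    have e7 : z' = z := hzu z' e6
    subst e7
    congr 1
    exact Subtype.ext e5

/-- CORE (analytic continuation and integrality of the smoothed partial L-values). -/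
theorem core (K : Type) [Field K] [NumberField K] [Algebra F K] (m : ℕ)
    (hm : Module.finrank F K = m + 1) (hK : UnrOut K) (b f : Ideal (𝓞 K)) (hb : b ≠ ⊥)
    (hb2 : IsCoprime b (Ideal.span {2})) (hf : f ≠ ⊥) (hf2 : IsCoprime f (Ideal.span {2}))
    (c₀ : 𝓞 K) (hc : c₀ ∈ b) (hc' : c₀ ∉ Ideal.span {algebraMap O (𝓞 K) lam} * b) :
    ∃ Bad : Set (Ideal (𝓞 K)), Bad.Finite ∧
      ∀ (c : Fin (m + 1) × Fin 2 → Ideal (𝓞 K)) (p : Fin (m + 1) × Fin 2 → ℕ), Smooth c p →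
        (∀ i, c i ∉ Bad) → ∃ Z : ℂ → ℂ, AnalyticOnNhd ℂ Z {s | 1 / 2 < s.re} ∧
          (∀ T : Set (𝓞 K), Transv (Ideal.span {3} * f) (XS (Ideal.span {3} * f * b) c₀) T →
            ∀ s : ℂ, 3 / 2 < s.re → HasSum (fun x : T => gw c p x * nf s (x : 𝓞 K)) (Z s)) ∧
          Int2 (Z 1 / R0 ^ (m + 1)) := by
  classical
  obtain ⟨σ, hσ⟩ := emb_exists K m hm
  set J : Ideal (𝓞 K) := Ideal.span {3} * f with hJdef
  set J' : Ideal (𝓞 K) := Ideal.span {2} * J with hJ'def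
  have hJ0 : J ≠ ⊥ := by
    rw [hJdef]
    exact mul_ne_zero (by simp) hf
  have hJ'0 : J' ≠ ⊥ := by
    rw [hJ'def]
    exact mul_ne_zero (by simp) hJ0
  have hJ'J : J' ≤ J := Ideal.mul_le_right
  have hJ3 : J ≤ Ideal.span {3} := Ideal.mul_le_left
  have hJ6 : J' ≤ Ideal.span {6} := by
    rw [hJ'def, hJdef, ← mul_assoc, Ideal.span_singleton_mul_span_singleton]
    have : (2 : 𝓞 K) * 3 = 6 := by norm_num
    rw [this]
    exact Ideal.mul_le_left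
  obtain ⟨u, hu1, hu2, hu3, hu4⟩ := units_basis hm J' hJ'0 hJ6
  obtain ⟨L, hL⟩ := labels_exist hm b f hb c₀ hc hc' u (fun z => hJ6 (hu2 z))
  have hI0 : Ideal.span {3} * f * b ≠ ⊥ := mul_ne_zero hJ0 hb
  have hdir := fun (q : (Fin m → Fin (m + 1)) × Equiv.Perm (Fin m)) =>
    directions hm (fun k : Fin (m + 1) => L (kv (fun k => ((q.1 k : ℕ) : ℤ)) q.2 k))
      (labels_indep b c₀ u L hL _ _) (Ideal.span {3} * f * b) hI0
  choose d hd1 hd2 hd3 using hdir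
  refine ⟨(⋃ q : ((Fin m → Fin (m + 1)) × Equiv.Perm (Fin m)) × Fin (m + 1),
    {c : Ideal (𝓞 K) | d q.1 q.2 ∈ c}) ∪ {c : Ideal (𝓞 K) | (2 : 𝓞 K) ∈ c}, ?_, ?_⟩
  · refine Set.Finite.union (Set.finite_iUnion fun q => finite_ideals _ (hd2 _ _)) ?_
    exact finite_ideals 2 two_ne_zero
  intro c p hcp hbad
  let D : Ctx K m := ⟨σ, Ideal.span {3} * f * b, c₀, c, p⟩
  have hD : D.Ok := ⟨hσ, fun h => hc' (Z3_le f b h), hcp⟩
  have h0X : (0 : 𝓞 K) ∉ D.X := fun h => D.X_ne hD.ne h rfl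
  have hp2 : ∀ i, D.p i ≠ 2 := by
    intro i hi
    apply hbad i
    right
    have h1 : ((Ideal.absNorm (c i) : ℕ) : 𝓞 K) ∈ c i := Ideal.absNorm_mem _
    rw [hcp.norm i] at h1
    have h2 : p i = 2 := hi
    rw [h2] at h1
    exact_mod_cast h1
  have hact : ∀ v : (𝓞 K)ˣ, (v : 𝓞 K) - 1 ∈ J → ((v : 𝓞 K) - 1) * D.c₀ ∈ D.I :=
    fun v hv => Ideal.mul_mem_mul hv hc
  have hu : D.UOk u := ⟨fun j => hact _ (hJ'J (hu1 j)),
    fun j => norm_one D hσ (u j) (hJ3 (hJ'J (hu1 j))), delta_ne D hσ u hu4⟩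
  have hlow := labels_low D hσ b f c₀ ⟨rfl, rfl⟩ u L hL
  have hdirs : ∀ (a : Fin m → Fin (m + 1)) (π : Equiv.Perm (Fin m)),
      ∃ w', D.Dirs (fun k : Fin (m + 1) => L (kv (fun k => ((a k : ℕ) : ℤ)) π k)) w' := by
    intro a π
    refine dirs_of D hD _ (d (a, π)) (hd1 (a, π)) ?_ (hd3 (a, π)) ?_ ?_
      (labels_indep b c₀ u L hL _ _)
    · intro i j hj
      apply hbad i
      left
      exact Set.mem_iUnion.2 ⟨((a, π), j), hj⟩
    · intro x hx k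
      obtain ⟨⟨y, hy⟩, -⟩ := hlow (kv (fun k => ((a k : ℕ) : ℤ)) π k) x hx
      exact ⟨_, hy⟩
    · intro x hx k
      exact (hlow (kv (fun k => ((a k : ℕ) : ℤ)) π k) x hx).2
  obtain ⟨w, hw⟩ := hdirs (fun _ => 0) 1
  obtain ⟨G, hG⟩ := gspec_exists D hD _ w hw
  obtain ⟨Z, hZ1, hZ2, hZ3⟩ := zfun D hD u hu _ w hw G hG
  have hval := CN_value D hD u hu _ w hw G hG L hL.equi hdirs
  have hint := CN_int2 hK D hD b f hb2 hf2 rfl hp2 u L hL hdirs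
  have hZint : Int2 (Z 1 / R0 ^ (m + 1)) := by
    rcases le_total 0 (Delta (D.lm u)) with h | h
    · rw [hZ3, abs_of_nonneg h, ← hval]
      exact hint
    · rw [hZ3, abs_of_nonpos h]
      have : (m.factorial : ℂ) * ((-Delta (D.lm u) : ℝ) : ℂ) *
          (∫ z in Set.Icc (0 : Fin m → ℝ) 1, D.Bv w G (fun _ => tt (D.lm u) z)) / R0 ^ (m + 1) =
          -(CN (m + 1) D.Jv (fun a => .A (L a)) / R0 ^ (m + 1)) := by
        rw [hval]
        push_cast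
        ring
      rw [this]
      exact hint.neg
  have hJ2 : IsCoprime J (Ideal.span {2}) := by
    rw [hJdef]
    refine IsCoprime.mul_left ?_ hf2
    rw [Ideal.isCoprime_span_singleton_iff]
    exact ⟨1, -1, by norm_num⟩
  obtain ⟨ν, hν, hT⟩ := odd_change hK J J' hJ0 hJ2 rfl D.X h0X (by
    intro v hv x hx
    have h1 : (v : 𝓞 K) * x - D.c₀ = ((v : 𝓞 K) - 1) * D.c₀ + v * (x - D.c₀) := by ring
    rw [D.mem_X, h1]
    exact D.I.add_mem (hact v hv) (D.I.mul_mem_left _ hx))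
  refine ⟨fun s => Z s / ν, ?_, ?_, ?_⟩
  · exact fun s hs => (hZ1 s hs).div_const
  · intro T hTT s hs
    obtain ⟨T', hT', hφ⟩ := hT T hTT
    refine hφ (fun x => gw c p x * nf s x) (Z s) ?_ ?_
    · intro v hv x _
      rw [Z3_gw, Z3_nf hσ s v (norm_one D hσ v (hJ3 hv))]
    · exact hZ2 T' hT'.sub (Z3_bij h0X hT' u hu2 hu3) s hs
  · have : Z 1 / (ν : ℂ) / R0 ^ (m + 1) = Z 1 / R0 ^ (m + 1) / ν := by
      rw [div_right_comm]
    show Int2 (Z 1 / (ν : ℂ) / R0 ^ (m + 1))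
    rw [this]
    exact hZint.div_odd ν hν

/-- NOPOLES (the unsmoothed partial series have no poles on the line Re s = 3/2). -/
theorem nopoles (K : Type) [Field K] [NumberField K] [Algebra F K] (m : ℕ)
    (hm : Module.finrank F K = m + 1) (hm3 : ¬ 3 ∣ m + 1) (b f : Ideal (𝓞 K)) (hb : b ≠ ⊥)
    (hf : f ≠ ⊥) (c₀ : 𝓞 K) (hc : c₀ ∈ b)
    (hc' : c₀ ∉ Ideal.span {algebraMap O (𝓞 K) lam} * b) :
    ∃ Z : ℂ → ℂ, AnalyticOnNhd ℂ Z {s | 3 / 2 - 1 / (2 * (m + 1)) < s.re} ∧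
      ∀ T : Set (𝓞 K), Transv (Ideal.span {3} * f) (XS (Ideal.span {3} * f * b) c₀) T →
        ∀ s : ℂ, 3 / 2 < s.re → HasSum (fun x : T => nf s (x : 𝓞 K)) (Z s) := by
  classical
  obtain ⟨σ, hσ⟩ := emb_exists K m hm
  set J : Ideal (𝓞 K) := Ideal.span {3} * f with hJdef
  set J' : Ideal (𝓞 K) := Ideal.span {2} * J with hJ'def
  have hJ0 : J ≠ ⊥ := by
    rw [hJdef]
    exact mul_ne_zero (by simp) hf
  have hJ'0 : J' ≠ ⊥ := by
    rw [hJ'def]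
    exact mul_ne_zero (by simp) hJ0
  have hJ'J : J' ≤ J := Ideal.mul_le_right
  have hJ3 : J ≤ Ideal.span {3} := Ideal.mul_le_left
  have hJ6 : J' ≤ Ideal.span {6} := by
    rw [hJ'def, hJdef, ← mul_assoc, Ideal.span_singleton_mul_span_singleton]
    have : (2 : 𝓞 K) * 3 = 6 := by norm_num
    rw [this]
    exact Ideal.mul_le_left
  obtain ⟨u, hu1, hu2, hu3, hu4⟩ := units_basis hm J' hJ'0 hJ6
  let D : Ctx K m := ⟨σ, Ideal.span {3} * f * b, c₀, fun _ => ⊥, fun _ => 0⟩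
  have hne : D.c₀ ∉ D.I := fun h => hc' (Z3_le f b h)
  have h0X : (0 : 𝓞 K) ∉ D.X := fun h => D.X_ne hne h rfl
  have hact : ∀ v : (𝓞 K)ˣ, (v : 𝓞 K) - 1 ∈ J → ((v : 𝓞 K) - 1) * D.c₀ ∈ D.I :=
    fun v hv => Ideal.mul_mem_mul hv hc
  have hu : D.UOk u := ⟨fun j => hact _ (hJ'J (hu1 j)),
    fun j => norm_one D hσ (u j) (hJ3 (hJ'J (hu1 j))), delta_ne D hσ u hu4⟩
  obtain ⟨Z, hZ1, hZ2⟩ := zfun_one D hσ hne hm3 u hu
    (Ideal.span {algebraMap O (𝓞 K) lam} * b) (Z3_le f b) hc'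
    (Ideal.mul_mem_mul (Ideal.mem_span_singleton_self _) hc)
  obtain ⟨ν, hν, hT⟩ := finite_change J J' hJ'0 hJ'J D.X h0X (by
    intro v hv x hx
    have h1 : (v : 𝓞 K) * x - D.c₀ = ((v : 𝓞 K) - 1) * D.c₀ + v * (x - D.c₀) := by ring
    rw [D.mem_X, h1]
    exact D.I.add_mem (hact v hv) (D.I.mul_mem_left _ hx))
  refine ⟨fun s => Z s / ν, ?_, ?_⟩
  · exact fun s hs => (hZ1 s hs).div_const
  · intro T hTT s hs
    obtain ⟨T', hT', hφ⟩ := hT T hTT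
    refine hφ (fun x => nf s x) (Z s) ?_ ?_
    · intro v hv x _
      exact Z3_nf hσ s v (norm_one D hσ v (hJ3 hv)) x
    · exact hZ2 T' hT'.sub (Z3_bij h0X hT' u hu2 hu3) s hs

end H55N
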