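import Mathlib
import Pool.Agent.Lib.H55B.H2
import Pool.Agent.Lib.H55C.W8

open NumberField IsDedekindDomain

namespace H55N

open H55B H55C

open Classical in
theorem H4_summable {K : Type} [Field K] [NumberField K] {ι : Type}
    (k : Ideal (𝓞 K) →*₀ ℂ) (hk : Summable fun a => ‖k a‖) (c : ι → Ideal (𝓞 K)) (p : ι → ℂ)
    (S : Finset ι) :
    Summable (fun a => k a * ∏ i ∈ S, (if a ≤ c i then 1 - p i else 1)) := by
  refine Summable.of_norm_bounded (hk.mul_right (∏ i ∈ S, (1 + ‖p i‖))) fun a => ?_
  rw [norm_mul, norm_prod]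
  refine mul_le_mul_of_nonneg_left ?_ (norm_nonneg _)
  refine Finset.prod_le_prod (fun _ _ => norm_nonneg _) fun i _ => ?_
  split_ifs
  · exact (norm_sub_le _ _).trans (by rw [NormOneClass.norm_one])
  · rw [NormOneClass.norm_one]
    linarith [norm_nonneg (p i)]

open Classical in
theorem H4_aux {K : Type} [Field K] [NumberField K] {ι : Type}
    (k : Ideal (𝓞 K) →*₀ ℂ) (hk : Summable fun a => ‖k a‖) (c : ι → Ideal (𝓞 K))
    (hc : ∀ i, (c i).IsPrime) (hc0 : ∀ i, c i ≠ ⊥) (inj : Function.Injective c) (p : ι → ℂ)
    (S : Finset ι) :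
    HasSum (fun a => k a * ∏ i ∈ S, (if a ≤ c i then 1 - p i else 1))
      ((∏ i ∈ S, (1 - p i * k (c i))) * ∑' a, k a) := by
  induction S using Finset.induction_on with
  | empty => simpa using hk.of_norm.hasSum
  | insert j S hj ih =>
    set f : Ideal (𝓞 K) → ℂ := fun a => k a * ∏ i ∈ S, (if a ≤ c i then 1 - p i else 1) with hf
    set g : Ideal (𝓞 K) → ℂ := fun a => if a ≤ c j then f a else 0 with hg
    have hinj : Function.Injective (fun b : Ideal (𝓞 K) => c j * b) :=
      fun a b h => mul_left_cancel₀ (by simpa using hc0 j) h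
    have h1 : ∀ b, g (c j * b) = k (c j) * f b := by
      intro b
      have h2 : c j * b ≤ c j := Ideal.mul_le_left
      simp only [hg, hf]
      rw [if_pos h2, map_mul, mul_assoc]
      congr 2
      refine Finset.prod_congr rfl fun i hi => ?_
      have hij : i ≠ j := fun h => hj (h ▸ hi)
      have h3 : c j * b ≤ c i ↔ b ≤ c i := by
        constructor
        · intro h
          rcases (hc i).mul_le.1 h with h | h
          · exfalso
            have hmax : (c j).IsMaximal := (hc j).isMaximal (hc0 j)
            have := hmax.eq_of_le (hc i).ne_top h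
            exact hij (inj this.symm)
          · exact h
        · intro h
          exact Ideal.mul_le_right.trans h
      simp only [h3]
    have h4 : HasSum g (k (c j) * ((∏ i ∈ S, (1 - p i * k (c i))) * ∑' a, k a)) := by
      rw [← hinj.hasSum_iff]
      · refine (ih.mul_left (k (c j))).congr_fun ?_
        intro b
        exact h1 b
      · intro a ha
        simp only [hg]
        rw [if_neg]
        intro h
        obtain ⟨b, rfl⟩ := Ideal.dvd_iff_le.2 h
        exact ha ⟨b, rfl⟩
    have h5 := ih.sub (h4.mul_left (p j))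
    rw [Finset.prod_insert hj]
    have h6 : (∏ i ∈ S, (1 - p i * k (c i))) * ∑' a, k a -
        p j * (k (c j) * ((∏ i ∈ S, (1 - p i * k (c i))) * ∑' a, k a)) =
        (1 - p j * k (c j)) * (∏ i ∈ S, (1 - p i * k (c i))) * ∑' a, k a := by ring
    rw [h6] at h5
    refine h5.congr_fun ?_
    intro a
    rw [Finset.prod_insert hj]
    simp only [hg, hf]
    split_ifs <;> ring

open Classical in
/-- Chunk H4 (M), the smoothing identity. Prove by induction on a finset S of indices that
k a * prod over S has sum (prod over S of (1 - p k(c))) * sum k, with absolute summability (the product is bounded by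
prod (1 + |1 - p i|)). Step from S to S + j: f_{S+j}(a) = f_S(a) - p_j [a <= c_j] f_S(a); the ideals a <= c_j are the c_j * b
(Ideal.dvd_iff_le), b -> c_j * b is injective (c_j nonzero), and f_S(c_j b) = k(c_j) f_S(b) because for i in S:
c_j b <= c_i iff b <= c_i (c_i is prime, and c_j <= c_i would give c_j = c_i as nonzero primes are maximal). -/
theorem smooth_sum {K : Type} [Field K] [NumberField K] {ι : Type} [Fintype ι]
    (k : Ideal (𝓞 K) →*₀ ℂ) (hk : Summable fun a => ‖k a‖) (c : ι → Ideal (𝓞 K))
    (hc : ∀ i, (c i).IsPrime) (hc0 : ∀ i, c i ≠ ⊥) (inj : Function.Injective c) (p : ι → ℂ) :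
    HasSum (fun a => k a * ∏ i, (if a ≤ c i then 1 - p i else 1))
      ((∏ i, (1 - p i * k (c i))) * ∑' a, k a) :=
  H4_aux k hk c hc hc0 inj p Finset.univ

end H55N
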