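import Mathlib
import Pool.Agent.Lib.H55N.HD

open NumberField IsDedekindDomain

namespace H55N

open H55B H55C

/-! Chunk H1 (M): the Hecke character on prime ideals and its absolute value.
psiF_prime: v.asIdeal = span {gen v} with gen v primary (gen_spec), pg_span. psiF_three: exists_prim_iff.
Psi_prime: Ideal.relNorm_eq_pow_of_isMaximal (relNorm w = v^(inertiaDeg)), v.asIdeal lies below w.
Psi_ne: relNorm a is prime to 3 iff a is: write a as a product of prime ideals (or: if w contains a and 3 then relNorm a is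
contained in v containing 3 and psiF v = 0, psiF is multiplicative, a = w * a'; conversely if a is prime to 3, so are all
prime factors w of a, and Psi w <> 0 by Psi_prime, gen v <> 0; induction with
UniqueFactorizationMonoid.induction_on_prime). Psi_norm: |e x|^2 = Nm x = absNorm (span {x}) (Nm_eq), so |psiF J|^2 = absNorm J for
J prime to 3, J nonzero; absNorm (relNorm a) = absNorm a (Ideal.absNorm_relNorm). -/

theorem psiF_prime (v : HeightOneSpectrum O) (h3 : (3 : O) ∉ v.asIdeal) :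
    psiF v.asIdeal = (starRingEnd ℂ) (e (gen v)) := by
  obtain ⟨h1, h2⟩ := gen_spec v h3
  rw [psiF_apply]
  conv_lhs => rw [h1]
  rw [pg_span h2]

theorem psiF_three (v : HeightOneSpectrum O) (h3 : (3 : O) ∈ v.asIdeal) : psiF v.asIdeal = 0 := by
  have h : ¬ ∃ x : O, v.asIdeal = Ideal.span {x} ∧ Prim x := by
    rw [exists_prim_iff v.ne_bot]
    intro hc
    have h1 : Ideal.span {(3 : O)} ≤ v.asIdeal := by
      rw [Ideal.span_singleton_le_iff_mem]; exact h3
    have h2 := Ideal.isCoprime_iff_sup_eq.1 hc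
    rw [sup_eq_left.2 h1] at h2
    exact v.isPrime.ne_top h2
  rw [psiF_apply, pg_of_not h, map_zero, map_zero]

variable {K : Type} [Field K] [NumberField K] [Algebra F K]

theorem Psi_prime (w : HeightOneSpectrum (𝓞 K)) (v : HeightOneSpectrum O)
    (hv : v.asIdeal = w.asIdeal.under O) :
    Psi K w.asIdeal = psiF v.asIdeal ^ w.asIdeal.inertiaDeg O := by
  have : w.asIdeal.LiesOver v.asIdeal := ⟨hv⟩
  have := w.isMaximal
  have := v.isMaximal
  show psiF (Ideal.relNorm O w.asIdeal) = _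
  rw [Ideal.relNorm_eq_pow_of_isMaximal w.asIdeal v.asIdeal, map_pow]

omit [NumberField K] in
theorem H1_below (w : HeightOneSpectrum (𝓞 K)) :
    ∃ v : HeightOneSpectrum O, v.asIdeal = w.asIdeal.under O := by
  refine ⟨⟨w.asIdeal.under O, inferInstance, ?_⟩, rfl⟩
  exact mt Ideal.eq_bot_of_comap_eq_bot w.ne_bot

omit [Algebra F K] in
theorem H1_coprime (w : HeightOneSpectrum (𝓞 K)) :
    IsCoprime w.asIdeal (Ideal.span {(3 : 𝓞 K)}) ↔ (3 : 𝓞 K) ∉ w.asIdeal := by
  rw [Ideal.isCoprime_iff_sup_eq]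
  constructor
  · intro h h3
    rw [sup_eq_left.2 ((Ideal.span_singleton_le_iff_mem _).2 h3)] at h
    exact w.isPrime.ne_top h
  · intro h
    have hm := w.isMaximal
    refine hm.out.2 _ (lt_of_le_of_ne le_sup_left ?_)
    intro he
    apply h
    rw [he]
    exact Ideal.mem_sup_right (Ideal.mem_span_singleton_self _)

theorem H1_Psi_prime (w : HeightOneSpectrum (𝓞 K)) :
    Psi K w.asIdeal ≠ 0 ↔ IsCoprime w.asIdeal (Ideal.span {(3 : 𝓞 K)}) := by
  obtain ⟨v, hv⟩ := H1_below w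
  have h3 : (3 : O) ∈ v.asIdeal ↔ (3 : 𝓞 K) ∈ w.asIdeal := by
    rw [hv, Ideal.under_def, Ideal.mem_comap, map_ofNat]
  rw [H1_coprime, Psi_prime w v hv]
  by_cases h : (3 : O) ∈ v.asIdeal
  · rw [psiF_three v h, ← h3]
    simp only [h, not_true_eq_false, iff_false, not_not]
    exact zero_pow (Ideal.inertiaDeg_pos w.asIdeal O).ne'
  · rw [psiF_prime v h, ← h3]
    simp only [h, not_false_eq_true, iff_true]
    apply pow_ne_zero
    rw [map_ne_zero, Ne, map_eq_zero_iff e e_injective]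
    exact (gen_spec v h).2.ne_zero

theorem Psi_ne (a : Ideal (𝓞 K)) (ha : a ≠ ⊥) :
    Psi K a ≠ 0 ↔ IsCoprime a (Ideal.span {(3 : 𝓞 K)}) := by
  induction a using UniqueFactorizationMonoid.induction_on_prime with
  | h₁ => exact absurd rfl ha
  | h₂ x hx =>
    rw [Ideal.isUnit_iff] at hx
    rw [hx, ← Ideal.one_eq_top, map_one]
    exact ⟨fun _ => isCoprime_one_left, fun _ => one_ne_zero⟩
  | h₃ x p hx hp ih =>
    have h1 := H1_Psi_prime (K := K) ⟨p, Ideal.isPrime_of_prime hp, hp.ne_zero⟩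
    simp only at h1
    rw [map_mul, mul_ne_zero_iff, h1, ih hx, IsCoprime.mul_left_iff]

theorem Psi_norm (a : Ideal (𝓞 K)) (ha : a ≠ ⊥) (h3 : IsCoprime a (Ideal.span {(3 : 𝓞 K)})) :
    ‖Psi K a‖ ^ 2 = Ideal.absNorm a := by
  have h1 := (Psi_ne a ha).2 h3
  have h2 : Psi K a = psiF (Ideal.relNorm O a) := rfl
  rw [h2] at h1 ⊢
  rw [psiF_apply] at h1 ⊢
  by_cases h : ∃ x : O, Ideal.relNorm O a = Ideal.span {x} ∧ Prim x
  · obtain ⟨x, hx, hp⟩ := h
    rw [hx, pg_span hp, RCLike.norm_conj, ← Nm_eq, ← Ideal.absNorm_relNorm O (𝓞 K) a, hx]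
    rfl
  · rw [pg_of_not h, map_zero, map_zero] at h1
    exact absurd rfl h1

theorem Psi_norm_le (a : Ideal (𝓞 K)) : ‖Psi K a‖ ^ 2 ≤ Ideal.absNorm a := by
  by_cases ha : a = ⊥
  · rw [ha]
    have : Psi K ⊥ = 0 := (Psi K).map_zero
    rw [this]
    simp
  · by_cases h3 : IsCoprime a (Ideal.span {(3 : 𝓞 K)})
    · exact (Psi_norm a ha h3).le
    · have h1 : Psi K a = 0 := not_not.1 (mt (Psi_ne a ha).1 h3)
      rw [h1]
      simp

end H55N
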