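import Mathlib
import Pool.Agent.Lib.H55N.HD
import Pool.Agent.Lib.H55C.B8

open NumberField IsDedekindDomain

namespace H55N

open H55B H55C

section H5

variable {K : Type} [Field K] [NumberField K]

/-- The ideals of norm n. -/
noncomputable def H5_fs (K : Type) [Field K] [NumberField K] (n : ℕ) : Finset (Ideal (𝓞 K)) :=
  (Ideal.finite_setOf_absNorm_eq n).toFinset

theorem H5_mem_fs {n : ℕ} {a : Ideal (𝓞 K)} : a ∈ H5_fs K n ↔ Ideal.absNorm a = n := by
  unfold H5_fs
  rw [Set.Finite.mem_toFinset]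
  rfl

/-- All prime divisors of a are in S. -/
def H5_sp (S : Finset (HeightOneSpectrum (𝓞 K))) (a : Ideal (𝓞 K)) : Prop :=
  ∀ w : HeightOneSpectrum (𝓞 K), a ≤ w.asIdeal → w ∈ S

open Classical in
/-- The partial Euler products. -/
noncomputable def H5_B (h : Ideal (𝓞 K) →*₀ ℂ) (S : Finset (HeightOneSpectrum (𝓞 K))) :
    ArithmeticFunction ℂ where
  toFun n := if n = 0 then 0 else ∑ a ∈ (H5_fs K n).filter (H5_sp S), h a
  map_zero' := if_pos rfl

open Classical in
theorem H5_B_apply (h : Ideal (𝓞 K) →*₀ ℂ) (S : Finset (HeightOneSpectrum (𝓞 K))) {n : ℕ}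
    (hn : n ≠ 0) : H5_B h S n = ∑ a ∈ (H5_fs K n).filter (H5_sp S), h a := if_neg hn

theorem H5_ne_bot {n : ℕ} (hn : n ≠ 0) {a : Ideal (𝓞 K)} (ha : Ideal.absNorm a = n) :
    a ≠ ⊥ := by
  rintro rfl
  apply hn
  rw [← ha]
  exact Ideal.absNorm_bot

theorem H5_B_empty (h : Ideal (𝓞 K) →*₀ ℂ) : H5_B h ∅ = 1 := by
  classical
  ext n
  by_cases hn : n = 0
  · subst hn
    rw [ArithmeticFunction.map_zero, ArithmeticFunction.map_zero]
  rw [H5_B_apply h ∅ hn]
  by_cases h1 : n = 1
  · subst h1
    rw [ArithmeticFunction.one_one]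
    have h2 : (H5_fs K 1).filter (H5_sp ∅) = {1} := by
      ext a
      rw [Finset.mem_filter, Finset.mem_singleton, H5_mem_fs, Ideal.absNorm_eq_one_iff,
        Ideal.one_eq_top]
      constructor
      · exact fun h => h.1
      · rintro rfl
        refine ⟨rfl, ?_⟩
        intro w hw
        exact absurd (top_le_iff.1 hw) w.isPrime.ne_top
    rw [h2, Finset.sum_singleton, map_one]
  · rw [ArithmeticFunction.one_apply_ne h1]
    apply Finset.sum_eq_zero
    intro a ha
    exfalso
    rw [Finset.mem_filter, H5_mem_fs] at ha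
    obtain ⟨ha1, ha2⟩ := ha
    have hat : a ≠ ⊤ := by
      rintro rfl
      rw [Ideal.absNorm_top] at ha1
      exact h1 ha1.symm
    obtain ⟨M, hM, hM2⟩ := Ideal.exists_le_maximal _ hat
    have hM0 : M ≠ ⊥ := by
      rintro rfl
      exact H5_ne_bot hn ha1 (le_bot_iff.1 hM2)
    exact absurd (ha2 ⟨M, hM.isPrime, hM0⟩ hM2) (Finset.notMem_empty _)

theorem H5_le {w v : HeightOneSpectrum (𝓞 K)} (h : w.asIdeal ≤ v.asIdeal) : w = v :=
  HeightOneSpectrum.ext
    ((w.isPrime.isMaximal w.ne_bot).eq_of_le v.isPrime.ne_top h)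

theorem H5_sp_mul (S : Finset (HeightOneSpectrum (𝓞 K))) (w : HeightOneSpectrum (𝓞 K))
    [DecidableEq (HeightOneSpectrum (𝓞 K))] (a : Ideal (𝓞 K)) :
    H5_sp (insert w S) (w.asIdeal * a) ↔ H5_sp (insert w S) a := by
  constructor
  · intro h v hv
    exact h v (Ideal.mul_le_right.trans hv)
  · intro h v hv
    rcases v.isPrime.mul_le.1 hv with h1 | h1
    · rw [H5_le h1]
      exact Finset.mem_insert_self _ _
    · exact h v h1

theorem H5_rec [DecidableEq (HeightOneSpectrum (𝓞 K))] (h : Ideal (𝓞 K) →*₀ ℂ)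
    (S : Finset (HeightOneSpectrum (𝓞 K)))
    (w : HeightOneSpectrum (𝓞 K)) (hw : w ∉ S) {n : ℕ} (hn : n ≠ 0) :
    H5_B h (insert w S) n = (if Ideal.absNorm w.asIdeal ∣ n then
      h w.asIdeal * H5_B h (insert w S) (n / Ideal.absNorm w.asIdeal) else 0) + H5_B h S n := by
  classical
  rw [H5_B_apply h _ hn, H5_B_apply h S hn]
  rw [← Finset.sum_filter_add_sum_filter_not _ (fun a : Ideal (𝓞 K) => a ≤ w.asIdeal)]
  congr 1
  · split_ifs with hd
    · obtain ⟨k, rfl⟩ := hd
      have hq : Ideal.absNorm w.asIdeal ≠ 0 := left_ne_zero_of_mul hn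
      have hk : k ≠ 0 := right_ne_zero_of_mul hn
      rw [Nat.mul_div_cancel_left k (Nat.pos_of_ne_zero hq), H5_B_apply h _ hk, Finset.mul_sum]
      symm
      refine Finset.sum_nbij (fun a => w.asIdeal * a) ?_ ?_ ?_ ?_
      · intro a ha
        rw [Finset.mem_filter, H5_mem_fs] at ha
        rw [Finset.mem_filter, Finset.mem_filter, H5_mem_fs]
        refine ⟨⟨?_, ?_⟩, Ideal.mul_le_left⟩
        · rw [map_mul, ha.1]
        · exact (H5_sp_mul S w a).2 ha.2
      · intro a _ b _ hab
        exact mul_left_cancel₀ (show w.asIdeal ≠ 0 from w.ne_bot) hab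
      · intro a ha
        rw [Finset.mem_coe, Finset.mem_filter, Finset.mem_filter, H5_mem_fs] at ha
        obtain ⟨⟨h1, h2⟩, h3⟩ := ha
        obtain ⟨b, hb⟩ := Ideal.dvd_iff_le.2 h3
        refine ⟨b, ?_, hb.symm⟩
        rw [Finset.mem_coe, Finset.mem_filter, H5_mem_fs]
        rw [hb, map_mul] at h1
        refine ⟨Nat.eq_of_mul_eq_mul_left (Nat.pos_of_ne_zero hq) h1, ?_⟩
        rw [hb, H5_sp_mul] at h2
        exact h2
      · intro a _
        rw [map_mul]
    · apply Finset.sum_eq_zero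
      intro a ha
      exfalso
      rw [Finset.mem_filter, Finset.mem_filter, H5_mem_fs] at ha
      apply hd
      rw [← ha.1.1]
      exact Ideal.absNorm_dvd_absNorm_of_le ha.2
  · refine Finset.sum_congr ?_ fun _ _ => rfl
    ext a
    rw [Finset.mem_filter, Finset.mem_filter, Finset.mem_filter]
    constructor
    · rintro ⟨⟨h1, h2⟩, h3⟩
      refine ⟨h1, fun v hv => ?_⟩
      rcases Finset.mem_insert.1 (h2 v hv) with h4 | h4
      · exact absurd (h4 ▸ hv) h3
      · exact h4
    · rintro ⟨h1, h2⟩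
      refine ⟨⟨h1, fun v hv => Finset.mem_insert_of_mem (h2 v hv)⟩, fun h3 => hw (h2 w h3)⟩

theorem H5_X {q : ℕ} (hq : 1 < q) (B : ArithmeticFunction ℂ) {n : ℕ} (hn : n ≠ 0) :
    (ArithmeticFunction.ofPowerSeries q (PowerSeries.X : PowerSeries ℂ) * B) n =
      if q ∣ n then B (n / q) else 0 := by
  have hX : ∀ d : ℕ, ArithmeticFunction.ofPowerSeries q (PowerSeries.X : PowerSeries ℂ) d =
      if d = q then 1 else 0 := by
    intro d
    by_cases hd : ∃ k, q ^ k = d
    · obtain ⟨k, rfl⟩ := hd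
      rw [ArithmeticFunction.ofPowerSeries_apply_pow hq, PowerSeries.coeff_X]
      by_cases hk : k = 1
      · subst hk
        simp
      · rw [if_neg hk, if_neg]
        intro h
        apply hk
        have h2 : q ^ k = q ^ 1 := by rw [h, pow_one]
        exact Nat.pow_right_injective hq h2
    · rw [ArithmeticFunction.ofPowerSeries_apply hq, Function.extend_apply' _ _ _ hd, if_neg]
      · rfl
      · intro h
        exact hd ⟨1, by rw [pow_one, h]⟩
  rw [ArithmeticFunction.mul_apply]
  simp only [hX, ite_mul, one_mul, zero_mul]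
  split_ifs with hd
  · obtain ⟨k, rfl⟩ := hd
    rw [Nat.mul_div_cancel_left k (by omega)]
    rw [Finset.sum_eq_single (q, k)]
    · simp
    · rintro ⟨d, e⟩ h1 h2
      rw [Nat.mem_divisorsAntidiagonal] at h1
      rw [if_neg]
      rintro rfl
      apply h2
      have h3 : e = k := Nat.eq_of_mul_eq_mul_left (by omega) h1.1
      rw [h3]
    · intro h1
      exfalso
      apply h1
      rw [Nat.mem_divisorsAntidiagonal]
      exact ⟨rfl, hn⟩
  · apply Finset.sum_eq_zero
    rintro ⟨d, e⟩ h1
    rw [Nat.mem_divisorsAntidiagonal] at h1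
    rw [if_neg]
    rintro rfl
    exact hd ⟨e, h1.1.symm⟩

theorem H5_step [DecidableEq (HeightOneSpectrum (𝓞 K))] (h : Ideal (𝓞 K) →*₀ ℂ)
    (S : Finset (HeightOneSpectrum (𝓞 K)))
    (w : HeightOneSpectrum (𝓞 K)) (hw : w ∉ S) :
    ArithmeticFunction.ofPowerSeries (Ideal.absNorm w.asIdeal)
        ((1 - PowerSeries.C (h w.asIdeal) * PowerSeries.X)⁻¹ : PowerSeries ℂ) * H5_B h S =
      H5_B h (insert w S) := by
  have hq := b8_one_lt w
  have h1 : H5_B h S = ArithmeticFunction.ofPowerSeries (Ideal.absNorm w.asIdeal)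
        ((1 - PowerSeries.C (h w.asIdeal) * PowerSeries.X) : PowerSeries ℂ) *
        H5_B h (insert w S) := by
    have h2 : (1 - PowerSeries.C (h w.asIdeal) * PowerSeries.X : PowerSeries ℂ) =
        1 - (h w.asIdeal) • PowerSeries.X := by
      rw [PowerSeries.smul_eq_C_mul]
    rw [h2, map_sub, map_one, map_smul, sub_mul, one_mul, smul_mul_assoc]
    ext n
    by_cases hn : n = 0
    · subst hn
      rw [ArithmeticFunction.map_zero, ArithmeticFunction.map_zero]
    have h3 := H5_rec h S w hw hn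
    have h4 := H5_X hq (H5_B h (insert w S)) hn
    have h5 : (H5_B h (insert w S) - h w.asIdeal •
        (ArithmeticFunction.ofPowerSeries (Ideal.absNorm w.asIdeal)
          (PowerSeries.X : PowerSeries ℂ) * H5_B h (insert w S))) n =
        H5_B h (insert w S) n - h w.asIdeal *
        (ArithmeticFunction.ofPowerSeries (Ideal.absNorm w.asIdeal)
          (PowerSeries.X : PowerSeries ℂ) * H5_B h (insert w S)) n := by
      rw [sub_eq_add_neg, ArithmeticFunction.add_apply, ArithmeticFunction.neg_apply,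
        ArithmeticFunction.smul_map, smul_eq_mul, sub_eq_add_neg]
    rw [h5, h4]
    have h6 : H5_B h (insert w S) n = (if Ideal.absNorm w.asIdeal ∣ n then
      h w.asIdeal * H5_B h (insert w S) (n / Ideal.absNorm w.asIdeal) else 0) +
        H5_B h S n := by
      exact h3
    rw [h6]
    split_ifs <;> ring
  rw [h1, ← mul_assoc, ← map_mul, PowerSeries.inv_mul_cancel _ (by simp), map_one, one_mul]

/-- Chunk H5 (M/L), formal Euler product. For a finite set S of primes put B_S(n) = the sum of h a over the ideals a of norm n all of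
whose prime factors are in S (n <> 0). By induction on S the finite product over S is B_S: the factor of w is the arithmetic function
with value h(w)^k at N(w)^k and 0 elsewhere (b8_ps in H55C.B8, ArithmeticFunction.ofPowerSeries_apply), and every ideal
a supported on S + w is uniquely w^k a' with a' supported on S, N(a) = N(w)^k N(a'), h(a) = h(w)^k h(a'). If S contains
all primes of norm <= n (finitely many: Ideal.finite_setOf_absNorm_le and injectivity of asIdeal), then B_S(n) = AI h n for
n <> 0. For n = 0 both sides are 0. Compare the Euler product for O in H55B.I1. -/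
theorem AI_euler {K : Type} [Field K] [NumberField K] (h : Ideal (𝓞 K) →*₀ ℂ) (n : ℕ) :
    ∀ᶠ S : Finset (HeightOneSpectrum (𝓞 K)) in Filter.atTop,
      (∏ w ∈ S, ArithmeticFunction.ofPowerSeries (Ideal.absNorm w.asIdeal)
        ((1 - PowerSeries.C (h w.asIdeal) * PowerSeries.X)⁻¹ : PowerSeries ℂ)) n = AI h n := by
  classical
  have hprod : ∀ S : Finset (HeightOneSpectrum (𝓞 K)),
      (∏ w ∈ S, ArithmeticFunction.ofPowerSeries (Ideal.absNorm w.asIdeal)
        ((1 - PowerSeries.C (h w.asIdeal) * PowerSeries.X)⁻¹ : PowerSeries ℂ)) = H5_B h S := by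
    intro S
    induction S using Finset.induction_on with
    | empty => rw [Finset.prod_empty, H5_B_empty]
    | insert w S hw ih => rw [Finset.prod_insert hw, ih, H5_step h S w hw]
  by_cases hn : n = 0
  · subst hn
    filter_upwards with S
    rw [ArithmeticFunction.map_zero, ArithmeticFunction.map_zero]
  have hfin : {w : HeightOneSpectrum (𝓞 K) | Ideal.absNorm w.asIdeal ≤ n}.Finite := by
    have h1 := Ideal.finite_setOf_absNorm_le (S := 𝓞 K) n
    exact h1.preimage (f := fun w : HeightOneSpectrum (𝓞 K) => w.asIdeal)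
      (fun v _ w _ hvw => HeightOneSpectrum.ext hvw)
  filter_upwards [Filter.eventually_ge_atTop hfin.toFinset] with S hS
  rw [hprod, H5_B_apply h S hn]
  have h2 : AI h n = ∑ᶠ (a : Ideal (𝓞 K)) (_ : Ideal.absNorm a = n), h a := if_neg hn
  rw [h2]
  have h3 : ∑ᶠ (a : Ideal (𝓞 K)) (_ : Ideal.absNorm a = n), h a =
      ∑ a ∈ H5_fs K n, h a := by
    rw [← finsum_mem_finset_eq_sum]
    refine finsum_congr fun a => ?_
    simp only [H5_mem_fs]
  rw [h3]
  refine Finset.sum_congr ?_ fun _ _ => rfl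
  rw [Finset.filter_eq_self]
  intro a ha w hw
  rw [H5_mem_fs] at ha
  apply hS
  rw [Set.Finite.mem_toFinset, Set.mem_setOf_eq]
  have h4 := Ideal.absNorm_dvd_absNorm_of_le hw
  rw [ha] at h4
  exact Nat.le_of_dvd (Nat.pos_of_ne_zero hn) h4

end H5

end H55N
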