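import Mathlib
import Pool.Agent.Lib.H55C.B0
import Pool.Agent.Lib.H55N.H1
import Pool.Agent.Lib.H55N.H5

open NumberField IsDedekindDomain

namespace H55N

open H55B H55C

theorem H7_three {K : Type} [Field K] [NumberField K] [Algebra F K] (w : HeightOneSpectrum (𝓞 K))
    (h3 : (3 : 𝓞 K) ∈ w.asIdeal) : Psi K w.asIdeal = 0 := by
  by_contra h
  exact (H1_coprime w).1 ((H1_Psi_prime w).1 h) h3

theorem H7_ps : ((1 - PowerSeries.C (0 : ℂ) * PowerSeries.X : PowerSeries ℂ)⁻¹) = 1 := by
  rw [map_zero, zero_mul, sub_zero]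
  exact (PowerSeries.eq_inv_iff_mul_eq_one (by simp)).2 (by rw [one_mul]) |>.symm

theorem H7_LEF {K : Type} [Field K] [NumberField K] [Algebra F K] (hU : UnrOut K)
    (w : HeightOneSpectrum (𝓞 K)) :
    LEF K w = ArithmeticFunction.ofPowerSeries (Ideal.absNorm w.asIdeal)
        ((1 - PowerSeries.C (Psi K w.asIdeal) * PowerSeries.X)⁻¹ : PowerSeries ℂ) *
      ArithmeticFunction.ofPowerSeries (Ideal.absNorm w.asIdeal)
        ((1 - PowerSeries.C ((starRingEnd ℂ) (Psi K w.asIdeal)) *
          PowerSeries.X)⁻¹ : PowerSeries ℂ) := by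
  by_cases h3 : (3 : 𝓞 K) ∈ w.asIdeal
  · rw [H7_three w h3, map_zero (starRingEnd ℂ), H7_ps, map_one, mul_one]
    exact I2_local_bad w (val_three hU w h3)
  · obtain ⟨v, hv⟩ := H1_below w
    have hv3 : (3 : O) ∉ v.asIdeal := by
      intro h
      apply h3
      rw [hv, Ideal.mem_comap, map_ofNat] at h
      exact h
    rw [b8_LEF w h3 v hv, Psi_prime w v hv, psiF_prime v hv3,
      map_pow (starRingEnd ℂ) ((starRingEnd ℂ) (e (gen v))), Complex.conj_conj, mul_comm]

/-- The complex conjugate of Psi. -/
noncomputable def H7_conj (K : Type) [Field K] [NumberField K] [Algebra F K] :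
    Ideal (𝓞 K) →*₀ ℂ := (starRingEnd ℂ).toMonoidWithZeroHom.comp (Psi K)

/-- Chunk H7 (M), the L-function of E27 over K. For w not above 3: b8_LEF (H55C.B8), with
conj(psi) as in psiF_prime, Psi_prime, and complex conjugation for the second factor. For w above 3:
LEF K w = 1 (H55B.I2_local_bad with val_three hU of H55C.B0), Psi K w = 0 (psiF_three, Psi_prime: the inertia degree is positive) and
(1 - 0)⁻¹ = 1, ofPowerSeries q 1 = 1. So for every finite set S the product over S of LEF K w is the product of the two
products of AI_euler (for h = Psi K and for its complex conjugate, MonoidWithZeroHom: (starRingEnd C).toMonoidWithZeroHom.comp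
(Psi K)). The coefficient of LFunction at n is eventually the coefficient of the finite product
(ArithmeticFunction.tendsTo_eulerProduct_ofPowerSeries / tendsTo_eulerProduct_of_tendsTo, see how H55B.I2 LFunction_eq or H55C.B6
LFun do it, with I2_cast_prod), and the products at n only depend on the coefficients at m <= n (I2_mul_congr). Two
eventually equal constants are equal. -/
theorem LFunction_Psi (K : Type) [Field K] [NumberField K] [Algebra F K] (hU : UnrOut K) (n : ℕ) :
    (((E27.baseChange K).LFunction n : ℤ) : ℂ) =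
      (AI (Psi K) * AI (fun a => (starRingEnd ℂ) (Psi K a))) n := by
  classical
  set L : HeightOneSpectrum (𝓞 K) → ArithmeticFunction ℤ := fun w =>
    ((E27.baseChange K).baseChange (w.adicCompletion K)).localEulerFactor
      (w.adicCompletionIntegers K) with hLdef
  have hL : ∀ᶠ T in Filter.atTop, (∏ w ∈ T, L w) n = (E27.baseChange K).LFunction n := by
    have hN : Northcott (fun w : HeightOneSpectrum (𝓞 K) =>
        Nat.card (IsLocalRing.ResidueField (w.adicCompletionIntegers K))) := by
      have h1 : (fun w : HeightOneSpectrum (𝓞 K) =>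
        Nat.card (IsLocalRing.ResidueField (w.adicCompletionIntegers K))) =
          fun w => Ideal.absNorm w.asIdeal := funext fun w => (residue_card K w).2
      rw [h1]
      infer_instance
    exact ArithmeticFunction.tendsTo_eulerProduct_ofPowerSeries
      (fun w : HeightOneSpectrum (𝓞 K) =>
        Nat.card (IsLocalRing.ResidueField (w.adicCompletionIntegers K)))
      (fun w => ((E27.baseChange K).baseChange (w.adicCompletion K)).localPowerSeries
        (w.adicCompletionIntegers K))
      (fun w => by simp [WeierstrassCurve.localPowerSeries]) n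
  have hA : ∀ᶠ T : Finset (HeightOneSpectrum (𝓞 K)) in Filter.atTop,
      ∀ m ∈ Finset.range (n + 1),
      (∏ w ∈ T, ArithmeticFunction.ofPowerSeries (Ideal.absNorm w.asIdeal)
        ((1 - PowerSeries.C (Psi K w.asIdeal) * PowerSeries.X)⁻¹ : PowerSeries ℂ)) m =
          AI (Psi K) m ∧
      (∏ w ∈ T, ArithmeticFunction.ofPowerSeries (Ideal.absNorm w.asIdeal)
        ((1 - PowerSeries.C ((starRingEnd ℂ) (Psi K w.asIdeal)) *
          PowerSeries.X)⁻¹ : PowerSeries ℂ)) m =
          AI (fun a => (starRingEnd ℂ) (Psi K a)) m := by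
    rw [Filter.eventually_all_finset]
    intro m _
    exact (AI_euler (Psi K) m).and (AI_euler (H7_conj K) m)
  obtain ⟨T, hT1, hT2⟩ := (hL.and hA).exists
  rw [← hT1, ← ArithmeticFunction.intCoe_apply, I2_cast_prod]
  have h1 : ∀ w ∈ T, ((L w : ArithmeticFunction ℤ) : ArithmeticFunction ℂ) =
      ArithmeticFunction.ofPowerSeries (Ideal.absNorm w.asIdeal)
        ((1 - PowerSeries.C (Psi K w.asIdeal) * PowerSeries.X)⁻¹ : PowerSeries ℂ) *
      ArithmeticFunction.ofPowerSeries (Ideal.absNorm w.asIdeal)
        ((1 - PowerSeries.C ((starRingEnd ℂ) (Psi K w.asIdeal)) *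
          PowerSeries.X)⁻¹ : PowerSeries ℂ) := fun w _ => H7_LEF hU w
  rw [Finset.prod_congr rfl h1, Finset.prod_mul_distrib]
  refine I2_mul_congr ?_ ?_ n le_rfl
  · intro m hm
    exact (hT2 m (Finset.mem_range.2 (by omega))).1
  · intro m hm
    exact (hT2 m (Finset.mem_range.2 (by omega))).2

end H55N
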