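import Mathlib
import Pool.Agent.Lib.H55N.HD

open NumberField IsDedekindDomain

namespace H55N

open H55B H55C

/-- Chunk H6 (S/M), Dirichlet series of AI h: sum over the fibres of the absolute norm. The fibre over n = 0 is the zero ideal,
where h vanishes. For n <> 0 the fibre is finite (Ideal.finite_setOf_absNorm_eq) and the partial sum is
(sum h a) n^(-s) = LSeries.term. Use HasSum.sigma (Equiv.sigmaFiberEquiv Ideal.absNorm) or HasSum of fibres. -/
theorem AI_LSeries {K : Type} [Field K] [NumberField K] (h : Ideal (𝓞 K) → ℂ) (h0 : h ⊥ = 0) (s : ℂ)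
    (hs : Summable fun a => ‖tm h s a‖) :
    LSeriesHasSum (fun n => AI h n) s (∑' a, tm h s a) := by
  have h1 : HasSum (fun p : Σ n : ℕ, {a : Ideal (𝓞 K) // Ideal.absNorm a = n} => tm h s p.2.1)
      (∑' a, tm h s a) := by
    have h2 := (Equiv.sigmaFiberEquiv (fun a : Ideal (𝓞 K) => Ideal.absNorm a)).hasSum_iff
      (f := tm h s) (a := ∑' a, tm h s a)
    exact h2.2 hs.of_norm.hasSum
  refine h1.sigma fun n => ?_
  by_cases hn : n = 0
  · subst hn
    rw [LSeries.term_zero]
    have h3 : (fun c : {a : Ideal (𝓞 K) // Ideal.absNorm a = 0} => tm h s c.1) = fun _ => 0 := by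
      funext c
      have h4 : c.1 = ⊥ := Ideal.absNorm_eq_zero_iff.1 c.2
      unfold tm
      rw [h4, h0, zero_mul]
    show HasSum (fun c : {a : Ideal (𝓞 K) // Ideal.absNorm a = 0} => tm h s c.1) 0
    rw [h3]
    exact hasSum_zero
  · have hfin : Finite {a : Ideal (𝓞 K) // Ideal.absNorm a = n} :=
      Ideal.finite_setOfPred_absNorm_eq n
    let _ : Fintype {a : Ideal (𝓞 K) // Ideal.absNorm a = n} := Fintype.ofFinite _
    rw [LSeries.term_of_ne_zero hn]
    have h3 : AI h n = ∑ a : {a : Ideal (𝓞 K) // Ideal.absNorm a = n}, h a.1 := by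
      show (if n = 0 then (0 : ℂ) else ∑ᶠ (a : Ideal (𝓞 K)) (_ : Ideal.absNorm a = n), h a) = _
      rw [if_neg hn, ← finsum_subtype_eq_finsum_cond, finsum_eq_sum_of_fintype]
    have h4 : AI h n / (n : ℂ) ^ s =
        ∑ a : {a : Ideal (𝓞 K) // Ideal.absNorm a = n}, tm h s a.1 := by
      rw [h3, div_eq_mul_inv, ← Complex.cpow_neg, Finset.sum_mul]
      refine Finset.sum_congr rfl fun a _ => ?_
      unfold tm
      rw [a.2]
    show HasSum (fun c : {a : Ideal (𝓞 K) // Ideal.absNorm a = n} => tm h s c.1) _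
    rw [h4]
    exact hasSum_fintype _

end H55N
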