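import Mathlib
import Pool.Agent.Lib.H55B.I4
import Pool.Agent.Lib.H55C.B9
import Pool.Agent.Lib.H55N.H3
import Pool.Agent.Lib.H55N.H6
import Pool.Agent.Lib.H55N.H7

open NumberField IsDedekindDomain

namespace H55N

open H55B H55C

theorem H8_tm {K : Type} [Field K] [NumberField K] (h : Ideal (𝓞 K) → ℂ) (z : ℂ)
    (a : Ideal (𝓞 K)) :
    tm (fun a => (starRingEnd ℂ) (h a)) z a = (starRingEnd ℂ) (tm h ((starRingEnd ℂ) z) a) := by
  unfold tm
  rw [map_mul]
  congr 1
  rw [← map_neg]
  have h1 : Complex.arg ((Ideal.absNorm a : ℕ) : ℂ) ≠ Real.pi := by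
    rw [Complex.natCast_arg]
    exact Real.pi_ne_zero.symm
  have h2 := Complex.cpow_conj ((Ideal.absNorm a : ℕ) : ℂ) (-z) h1
  rw [Complex.conj_natCast] at h2
  rw [h2, Complex.conj_conj]

/-- Chunk H8 (M), the L-function of E27 over K from the L-series of Psi K. Put L(s) = Lam(s) * conj(Lam(conj s)), analytic for Re s > 1/2
(see how H55C.B10 does it). For Re s > 3/2: the series of AI (Psi K) and AI (conj Psi K) converge absolutely
(tm_summable with Psi_norm_le, AI_LSeries), with sums Lam(s) and conj(Lam(conj s)) (tm of the conjugate function at s is the conjugate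
of tm (Psi K) at conj s), and the Dirichlet series of the product AI * AI is the product (ArithmeticFunction.LSeriesHasSum_mul or
LSeries_mul', used in H55C.B10); LFunction_Psi. Value: Lam(1)/R0^n and conj(Lam(1)/R0^n) are units (Unit2.mul, Unit2.conj),
R0 = R (e om - 1), n = finrank F K. Unit2.ne_zero gives the nonvanishing. -/
theorem L_valN (K : Type) [Field K] [NumberField K] [Algebra F K] (hU : UnrOut K)
    (h : LV (Psi K)) :
    ∃ Λ : ℂ → ℂ, AnalyticOnNhd ℂ Λ {s | 1 / 2 < s.re} ∧
      (∀ s : ℂ, 3 / 2 < s.re →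
        LSeriesSummable (fun n => (((E27.baseChange K).LFunction n : ℤ) : ℂ)) s ∧
        Λ s = (E27.baseChange K).LSeries s) ∧ Λ 1 ≠ 0 ∧
      Unit2 (Λ 1 / (R (e om - 1) * (starRingEnd ℂ) (R (e om - 1))) ^ Module.finrank F K) := by
  obtain ⟨L, hLa, hLs, hL1⟩ := h
  have hval : Unit2 ((L 1 * (starRingEnd ℂ) (L ((starRingEnd ℂ) 1))) /
      (R (e om - 1) * (starRingEnd ℂ) (R (e om - 1))) ^ Module.finrank F K) := by
    have e1 : (L 1 * (starRingEnd ℂ) (L ((starRingEnd ℂ) 1))) /
        (R (e om - 1) * (starRingEnd ℂ) (R (e om - 1))) ^ Module.finrank F K =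
        (L 1 / R0 ^ Module.finrank F K) * (starRingEnd ℂ) (L 1 / R0 ^ Module.finrank F K) := by
      rw [map_one, map_div₀, map_pow, mul_pow, mul_div_mul_comm]
      rfl
    rw [e1]
    exact Unit2.mul hL1 (Unit2.conj hL1)
  refine ⟨fun z => L z * (starRingEnd ℂ) (L ((starRingEnd ℂ) z)), hLa.mul (I4_conj hLa), ?_, ?_,
    hval⟩
  · intro z hz
    have hz' : 3 / 2 < ((starRingEnd ℂ) z).re := by simpa using hz
    have h0 : Psi K ⊥ = 0 := (Psi K).map_zero
    have h1 := AI_LSeries (fun a => Psi K a) h0 z (tm_summable _ Psi_norm_le z hz)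
    have h2 := AI_LSeries (fun a => (starRingEnd ℂ) (Psi K a)) (by rw [h0, map_zero]) z
      (tm_summable _ (fun a => by rw [RCLike.norm_conj]; exact Psi_norm_le a) z hz)
    have e1 : ∑' a, tm (fun a => Psi K a) z a = L z := (hLs z hz).tsum_eq
    have e2 : ∑' a, tm (fun a => (starRingEnd ℂ) (Psi K a)) z a =
        (starRingEnd ℂ) (L ((starRingEnd ℂ) z)) := by
      have h3 := (Complex.hasSum_conj').2 (hLs _ hz')
      have h4 := h3.tsum_eq
      rw [← h4]
      exact tsum_congr fun a => H8_tm _ z a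
    rw [e1] at h1
    rw [e2] at h2
    have h3 := ArithmeticFunction.LSeriesHasSum_mul h1 h2
    have e3 : (fun n => (((E27.baseChange K).LFunction n : ℤ) : ℂ)) = fun n =>
        (AI (Psi K) * AI (fun a => (starRingEnd ℂ) (Psi K a))) n :=
      funext fun n => LFunction_Psi K hU n
    have key : LSeriesHasSum (fun n => (((E27.baseChange K).LFunction n : ℤ) : ℂ)) z
        (L z * (starRingEnd ℂ) (L ((starRingEnd ℂ) z))) := by
      rw [e3]
      exact h3
    exact ⟨key.LSeriesSummable, key.LSeries_eq.symm⟩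
  · have h1 := hval.ne_zero
    exact (div_ne_zero_iff.1 h1).1

end H55N
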