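import Mathlib
import Pool.Agent.Lib.H55N.E5
import Pool.Agent.Lib.H55N.HD

open NumberField IsDedekindDomain

namespace H55N

open H55B H55C

/-- the ideals of `O` and those of `𝓞 K` -/
theorem T2_equiv (K : Type) [Field K] [NumberField K] [Algebra F K] (h1 : Module.finrank F K = 1) :
    ∃ ε : Ideal O ≃ Ideal (𝓞 K), ∀ J : Ideal O, Ideal.relNorm O (ε J) = J ∧
      Ideal.absNorm (ε J) = Ideal.absNorm J := by
  have hsurj : Function.Surjective (algebraMap F K) := by
    intro x
    obtain ⟨c, hc⟩ := (finrank_eq_one_iff_of_nonzero' (1 : K) one_ne_zero).1 h1 x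
    exact ⟨c, by rw [← hc, Algebra.smul_def, mul_one]⟩
  have hinj : Function.Injective (algebraMap O (𝓞 K)) := FaithfulSMul.algebraMap_injective O (𝓞 K)
  have hsurjO : Function.Surjective (algebraMap O (𝓞 K)) := by
    intro x
    obtain ⟨y, hy⟩ := hsurj (x : K)
    have hyi : IsIntegral ℤ y := by
      have h2 : IsIntegral ℤ (algebraMap F K y) := by
        rw [hy]
        exact RingOfIntegers.isIntegral_coe x
      exact (isIntegral_algebraMap_iff (algebraMap F K).injective).1 h2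
    refine ⟨⟨y, hyi⟩, ?_⟩
    apply RingOfIntegers.ext
    rw [← hy]
    rfl
  let ε₀ : O ≃+* 𝓞 K := RingEquiv.ofBijective (algebraMap O (𝓞 K)) ⟨hinj, hsurjO⟩
  have hr : Module.finrank O (𝓞 K) = 1 := by
    rw [← h1]
    exact (IsFractionRing.finrank_eq O F (𝓞 K) K).symm
  have key : ∀ J : Ideal O, Ideal.relNorm O (J.map (algebraMap O (𝓞 K))) = J := by
    intro J
    rw [Ideal.relNorm_algebraMap (𝓞 K) J, hr, pow_one]
  refine ⟨(ε₀.idealComapOrderIso.symm).toEquiv, fun J => ?_⟩
  have h3 : (ε₀.idealComapOrderIso.symm).toEquiv J = J.map (algebraMap O (𝓞 K)) := rfl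
  rw [h3]
  refine ⟨key J, ?_⟩
  rw [← Ideal.absNorm_relNorm O (𝓞 K), key J]

theorem T2_cpow (r : ℝ) (hr : 0 < r) (s : ℂ) : ((r ^ 2 : ℝ) : ℂ) ^ (-s) = (r : ℂ) ^ (-2 * s) := by
  have h0 : ((r ^ 2 : ℝ) : ℂ) ≠ 0 := by
    exact_mod_cast (pow_pos hr 2).ne'
  have h1 : (r : ℂ) ≠ 0 := by exact_mod_cast hr.ne'
  rw [Complex.cpow_def_of_ne_zero h0, Complex.cpow_def_of_ne_zero h1, ← Complex.ofReal_log (by positivity),
    ← Complex.ofReal_log hr.le, Real.log_pow]
  congr 1
  push_cast
  ring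

theorem T2_term (y : O) (s : ℂ) :
    psiF (Ideal.span {1 + 3 * y}) * (Ideal.absNorm (Ideal.span {1 + 3 * y} : Ideal O) : ℂ) ^ (-s) =
      g s (1 + 3 * e y) := by
  have hp : Prim (1 + 3 * y) := ⟨y, by ring⟩
  have he : e (1 + 3 * y) = 1 + 3 * e y := by
    rw [map_add, map_mul, map_one, map_ofNat]
  have hne : e (1 + 3 * y) ≠ 0 := by
    rw [Ne, map_eq_zero_iff e e_injective]
    exact hp.ne_zero
  rw [psiF_apply, pg_span hp, ← he]
  unfold g
  congr 1
  have h1 : ((Ideal.absNorm (Ideal.span {1 + 3 * y} : Ideal O) : ℕ) : ℝ) = ‖e (1 + 3 * y)‖ ^ 2 :=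
    Nm_eq (1 + 3 * y)
  rw [← T2_cpow _ (norm_pos_iff.2 hne), ← h1]
  rfl

theorem T2_hasSum (s : ℂ) (hs : 3 / 2 < s.re) :
    HasSum (fun J : Ideal O => psiF J * (Ideal.absNorm J : ℂ) ^ (-s)) (Kf 1 s) := by
  have hinj : Function.Injective (fun y : O => (Ideal.span {1 + 3 * y} : Ideal O)) := by
    intro y z h
    have h1 : Prim (1 + 3 * y) := ⟨y, by ring⟩
    have h2 : Prim (1 + 3 * z) := ⟨z, by ring⟩
    have h3 : 1 + 3 * y = 1 + 3 * z :=
      h1.eq_of_associated h2 (Ideal.span_singleton_eq_span_singleton.1 h)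
    have h4 : (3 : O) ≠ 0 := by norm_num
    exact mul_left_cancel₀ h4 (add_left_cancel h3)
  rw [← hinj.hasSum_iff]
  · have h1 : (fun J : Ideal O => psiF J * (Ideal.absNorm J : ℂ) ^ (-s)) ∘
        (fun y : O => (Ideal.span {1 + 3 * y} : Ideal O)) = fun y : O => g s (1 + 3 * e y) := by
      funext y
      exact T2_term y s
    rw [h1]
    exact (Kf_summable 1 s hs).hasSum
  · intro J hJ
    have h1 : psiF J = 0 := by
      rw [psiF_apply, pg_of_not, map_zero, map_zero]
      rintro ⟨x, hx, y, hy⟩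
      apply hJ
      refine ⟨y, ?_⟩
      show Ideal.span {1 + 3 * y} = J
      rw [hx]
      congr 2
      linear_combination -hy
    show psiF J * _ = 0
    rw [h1, zero_mul]

theorem T2_unit : Unit2 (-(1 / 3 : ℂ)) := by
  intro A hA
  have h1 : A.valuation (3 : ℂ) = 1 := by
    have h2 : (3 : ℂ) = 1 + 2 := by norm_num
    rw [h2, Valuation.map_add_eq_of_lt_left]
    · exact map_one _
    · rw [map_one]
      exact hA
  rw [Valuation.map_neg, one_div, map_inv₀, h1, inv_one]

/-- Chunk T2 (M), the base of the induction: K = F. algebraMap F K is bijective, hence O -> 𝓞 K too, and J -> J.map is a bijection of the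
ideals (Ideal.map/comap of a ring equivalence), relNorm O (J.map) = J^1 (Ideal.relNorm_algebraMap), absNorm (J.map) = absNorm J
(Ideal.absNorm_relNorm). So the series is the sum over the ideals J of O of psiF J * (absNorm J)^(-s); psiF J is not 0 only for J = span {x}, x
primary (unique: x = pg J), x = 1 + 3 y, and the term is conj(e x) (Nm x)^(-s) = g s (1 + 3 e y) (Nm_eq: Nm x = |e x|^2).
The sum over y is Kf 1 s, absolutely convergent for Re s > 3/2 (H55B, see B1), Kf_one: Kf 1 s = -(1/3) G (e om - 1) s, G_analytic, G_one: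
the value at 1 is -(1/3) R0. -1/3 is a 2-adic unit. -/
theorem LV_base (K : Type) [Field K] [NumberField K] [Algebra F K] (h1 : Module.finrank F K = 1) :
    LV (Psi K) := by
  obtain ⟨ε, hε⟩ := T2_equiv K h1
  refine ⟨fun s => -(1 / 3) * G (e om - 1) s, ?_, ?_, ?_⟩
  · exact analyticOnNhd_const.mul (G_analytic (e om - 1))
  · intro s hs
    have h2 := T2_hasSum s hs
    rw [Kf_one s hs] at h2
    rw [← ε.hasSum_iff]
    refine h2.congr_fun fun J => ?_
    show psiF (Ideal.relNorm O (ε J)) * (Ideal.absNorm (ε J) : ℂ) ^ (-s) = _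
    rw [(hε J).1, (hε J).2]
  · have h3 := E5_R0.2
    have h4 : (fun s => -(1 / 3) * G (e om - 1) s) 1 / R0 ^ Module.finrank F K = -(1 / 3) := by
      rw [h1, pow_one]
      show -(1 / 3) * G (e om - 1) 1 / R0 = _
      rw [G_one]
      have h5 : R (e om - 1) = R0 := rfl
      rw [h5, mul_div_assoc, div_self h3, mul_one]
    rw [h4]
    exact T2_unit

end H55N
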