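import Mathlib
import Pool.Agent.Lib.H55N.H1
import Pool.Agent.Lib.H55N.H3
import Pool.Agent.Lib.H55N.H4

open NumberField IsDedekindDomain

namespace H55N

open H55B H55C

theorem TW2_coprime {K : Type} [Field K] [NumberField K] (a f : Ideal (𝓞 K)) (ha : a ≠ ⊥)
    (S : Finset (HeightOneSpectrum (𝓞 K))) (hS : ∀ w, w ∈ S ↔ f ≤ w.asIdeal) :
    IsCoprime a f ↔ ∀ w ∈ S, ¬ a ≤ w.asIdeal := by
  constructor
  · intro h w hw haw
    rw [Ideal.isCoprime_iff_sup_eq] at h
    have h1 : a ⊔ f ≤ w.asIdeal := sup_le haw ((hS w).1 hw)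
    rw [h] at h1
    exact w.isPrime.ne_top (top_le_iff.1 h1)
  · intro h
    rw [Ideal.isCoprime_iff_sup_eq]
    by_contra hne
    obtain ⟨M, hM, hle⟩ := Ideal.exists_le_maximal _ hne
    have hM0 : M ≠ ⊥ := by
      rintro rfl
      exact ha (le_bot_iff.1 (le_sup_left.trans hle))
    have hw : (⟨M, hM.isPrime, hM0⟩ : HeightOneSpectrum (𝓞 K)) ∈ S :=
      (hS _).2 (le_sup_right.trans hle)
    exact h _ hw (le_sup_left.trans hle)

/-- Chunk TW2 (S), the trivial character modulo f. The set of primes containing f is finite. smooth_sum with k = tmH (Psi K) s, the index type S, c w =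
w.asIdeal (injective: HeightOneSpectrum.ext), p = 1: the product of (if a <= w then 0 else 1) is oneI f a for a <> 0 (a is prime to f iff no
prime contains both), and for a = 0 both sides vanish. -/
theorem one_sum (K : Type) [Field K] [NumberField K] [Algebra F K] (f : Ideal (𝓞 K)) (hf : f ≠ ⊥) :
    ∃ S : Finset (HeightOneSpectrum (𝓞 K)), (∀ w, w ∈ S ↔ f ≤ w.asIdeal) ∧
      ∀ s : ℂ, 3 / 2 < s.re →
        HasSum (tm (Psi K * oneI f : Ideal (𝓞 K) →*₀ ℂ) s)
          ((∏ w ∈ S, (1 - tm (Psi K) s w.asIdeal)) * ∑' a, tm (Psi K) s a) := by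
  classical
  have hfin : {w : HeightOneSpectrum (𝓞 K) | w.asIdeal ∣ f}.Finite := Ideal.finite_factors hf
  have hS : ∀ w, w ∈ hfin.toFinset ↔ f ≤ w.asIdeal := by
    intro w
    rw [Set.Finite.mem_toFinset]
    exact Ideal.dvd_iff_le
  refine ⟨hfin.toFinset, hS, fun s hs => ?_⟩
  set S := hfin.toFinset with hSd
  have hk : Summable fun a => ‖tmH (Psi K) s a‖ := tm_summable (Psi K) Psi_norm_le s hs
  have h1 := smooth_sum (tmH (Psi K) s) hk (fun w : S => w.1.asIdeal) (fun w => w.1.isPrime)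
    (fun w => w.1.ne_bot) (fun w w' h => Subtype.ext (HeightOneSpectrum.ext h)) (fun _ => 1)
  have h2 : (∏ w : S, (1 - 1 * (tmH (Psi K) s) w.1.asIdeal)) =
      ∏ w ∈ S, (1 - tm (Psi K) s w.asIdeal) := by
    rw [← Finset.prod_coe_sort S]
    refine Finset.prod_congr rfl fun w _ => ?_
    rw [one_mul]
    rfl
  rw [h2] at h1
  refine h1.congr_fun fun a => ?_
  have h3 : tm (Psi K * oneI f : Ideal (𝓞 K) →*₀ ℂ) s a = tmH (Psi K) s a * oneI f a := by
    show (Psi K a * oneI f a) * (Ideal.absNorm a : ℂ) ^ (-s) =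
      (Psi K a * (Ideal.absNorm a : ℂ) ^ (-s)) * oneI f a
    ring
  rw [h3]
  by_cases ha : a = ⊥
  · rw [ha]
    have h4 : tmH (Psi K) s (⊥ : Ideal (𝓞 K)) = 0 := (tmH (Psi K) s).map_zero
    rw [h4, zero_mul, zero_mul]
  · congr 1
    have h5 : oneI f a = if a ≠ ⊥ ∧ IsCoprime a f then 1 else 0 := rfl
    rw [h5]
    by_cases hc : IsCoprime a f
    · rw [if_pos ⟨ha, hc⟩]
      symm
      refine Finset.prod_eq_one fun w _ => ?_
      rw [if_neg ((TW2_coprime a f ha S hS).1 hc w.1 w.2)]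
    · rw [if_neg (fun h => hc h.2)]
      rw [TW2_coprime a f ha S hS] at hc
      push Not at hc
      obtain ⟨w, hw, haw⟩ := hc
      symm
      refine Finset.prod_eq_zero (Finset.mem_univ (⟨w, hw⟩ : S)) ?_
      rw [if_pos haw, sub_self]

end H55N
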