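import Mathlib
import Pool.Agent.Lib.H55N.H5

open NumberField IsDedekindDomain

namespace H55N

open H55B H55C

/-- The Euler factor. -/
noncomputable def H9_EF {K : Type} [Field K] [NumberField K] (h : Ideal (𝓞 K) →*₀ ℂ)
    (w : HeightOneSpectrum (𝓞 K)) : ArithmeticFunction ℂ :=
  ArithmeticFunction.ofPowerSeries (Ideal.absNorm w.asIdeal)
    ((1 - PowerSeries.C (h w.asIdeal) * PowerSeries.X)⁻¹ : PowerSeries ℂ)

theorem H9_ps (a : ℂ) : ((1 - PowerSeries.C (a ^ 2) * PowerSeries.X ^ 2)⁻¹ : PowerSeries ℂ) =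
    (1 - PowerSeries.C a * PowerSeries.X)⁻¹ * (1 - PowerSeries.C (a * -1) * PowerSeries.X)⁻¹ := by
  symm
  apply I2_inv_unique
  · simp
  · have h1 : (1 - PowerSeries.C (a ^ 2) * PowerSeries.X ^ 2 : PowerSeries ℂ) =
        (1 - PowerSeries.C a * PowerSeries.X) * (1 - PowerSeries.C (a * -1) * PowerSeries.X) := by
      rw [map_pow, map_mul, map_neg, map_one]
      ring
    have h2 : (1 - PowerSeries.C a * PowerSeries.X : PowerSeries ℂ) *
        (1 - PowerSeries.C a * PowerSeries.X)⁻¹ = 1 :=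
      PowerSeries.mul_inv_cancel _ (by simp)
    have h3 : (1 - PowerSeries.C (a * -1) * PowerSeries.X : PowerSeries ℂ) *
        (1 - PowerSeries.C (a * -1) * PowerSeries.X)⁻¹ = 1 :=
      PowerSeries.mul_inv_cancel _ (by simp)
    rw [h1]
    linear_combination ((1 - PowerSeries.C (a * -1) * PowerSeries.X : PowerSeries ℂ) *
      (1 - PowerSeries.C (a * -1) * PowerSeries.X)⁻¹) * h2 + h3

theorem H9_sq (q : ℕ) (a : ℂ) :
    ArithmeticFunction.ofPowerSeries (q ^ 2)
      ((1 - PowerSeries.C (a ^ 2) * PowerSeries.X)⁻¹ : PowerSeries ℂ) =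
    ArithmeticFunction.ofPowerSeries q ((1 - PowerSeries.C a * PowerSeries.X)⁻¹ : PowerSeries ℂ) *
    ArithmeticFunction.ofPowerSeries q
      ((1 - PowerSeries.C (a * -1) * PowerSeries.X)⁻¹ : PowerSeries ℂ) := by
  rw [ArithmeticFunction.ofPowerSeries_pow q two_ne_zero, I2_subst_inv two_ne_zero _ (by simp),
    I2_subst_lin two_ne_zero, ← map_mul, H9_ps]

section

variable (K K' : Type) [Field K] [NumberField K] [Algebra F K] [Field K'] [NumberField K']
    [Algebra F K'] [Algebra K K'] [IsScalarTower F K K']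

theorem H9_Psi (W : Ideal (𝓞 K')) : Psi K' W = Psi K (Ideal.relNorm (𝓞 K) W) := by
  show psiF (Ideal.relNorm O W) = psiF (Ideal.relNorm O (Ideal.relNorm (𝓞 K) W))
  rw [Ideal.relNorm_relNorm]

theorem H9_norm (W : Ideal (𝓞 K')) :
    Ideal.absNorm W = Ideal.absNorm (Ideal.relNorm (𝓞 K) W) := by
  rw [Ideal.absNorm_relNorm]

theorem H9_loc (χ : Ideal (𝓞 K) →*₀ ℂ) (hχ : SplitChr K K' χ) (w : HeightOneSpectrum (𝓞 K)) :
    ∃ A : Finset (HeightOneSpectrum (𝓞 K')), (∀ W, W ∈ A ↔ W.asIdeal.under (𝓞 K) = w.asIdeal) ∧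
      ∏ W ∈ A, H9_EF (Psi K') W = H9_EF (Psi K) w * H9_EF (Psi K * χ : Ideal (𝓞 K) →*₀ ℂ) w := by
  classical
  have hmul : (Psi K * χ : Ideal (𝓞 K) →*₀ ℂ) w.asIdeal = Psi K w.asIdeal * χ w.asIdeal := rfl
  rcases hχ w with ⟨h1, W₁, W₂, hne, hset, hn1, hn2⟩ | ⟨h1, W, hset, hn⟩ | ⟨h1, W, hset, hn⟩
  · refine ⟨{W₁, W₂}, fun W => ?_, ?_⟩
    · have h2 := Set.ext_iff.1 hset W
      rw [Finset.mem_insert, Finset.mem_singleton]
      simpa using h2.symm
    · rw [Finset.prod_pair hne]
      unfold H9_EF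
      rw [H9_Psi K K', H9_Psi K K', H9_norm K K', H9_norm K K', hn1, hn2, hmul, h1, mul_one]
  · refine ⟨{W}, fun W' => ?_, ?_⟩
    · have h2 := Set.ext_iff.1 hset W'
      rw [Finset.mem_singleton]
      simpa using h2.symm
    · rw [Finset.prod_singleton]
      unfold H9_EF
      rw [H9_Psi K K', H9_norm K K', hn, hmul, h1, map_pow, map_pow]
      exact H9_sq _ _
  · refine ⟨{W}, fun W' => ?_, ?_⟩
    · have h2 := Set.ext_iff.1 hset W'
      rw [Finset.mem_singleton]
      simpa using h2.symm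
    · rw [Finset.prod_singleton]
      unfold H9_EF
      rw [H9_Psi K K', H9_norm K K', hn, hmul, h1, mul_zero, map_zero, zero_mul, sub_zero]
      have h2 : ((1 : PowerSeries ℂ)⁻¹) = 1 := by simp
      rw [h2, map_one, mul_one]

end

/-- Chunk H9 (M), the quadratic step for the Euler products. Psi K' W = Psi K (relNorm (𝓞 K) W)
(Ideal.relNorm_relNorm), absNorm W = absNorm (relNorm W) (Ideal.absNorm_relNorm). For a prime w of K let a = Psi K w,
q = absNorm w. Product of the factors of the primes W above w: split: two times 1/(1 - aX) at q; inert: 1/(1 - a^2 X) at q^2, which is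
1/(1 - a^2 X^2) = 1/(1 - aX) 1/(1 + aX) at q (ArithmeticFunction.ofPowerSeries_pow, H55B.I2_ofPS_pow); ramified: 1/(1 - aX) at q. In all
cases it is the factor of a times the factor of a chi(w). Every finite set S of primes of K has the finite set S' of primes
above, and S' contains any given finite set when S is large (the primes below); so the eventual equalities of AI_euler for
K' along S' = S'(S) (Filter.Tendsto to atTop), and for K along S twice (product at n depends on the coefficients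
at m <= n, H55B.I2_mul_congr) give the identity. -/
theorem AI_step (K K' : Type) [Field K] [NumberField K] [Algebra F K] [Field K'] [NumberField K']
    [Algebra F K'] [Algebra K K'] [IsScalarTower F K K'] (χ : Ideal (𝓞 K) →*₀ ℂ)
    (hχ : SplitChr K K' χ) :
    AI (Psi K') = AI (Psi K) * AI (Psi K * χ : Ideal (𝓞 K) →*₀ ℂ) := by
  classical
  choose A hA hprod using H9_loc K K' χ hχ
  ext n
  have e1 : ∀ᶠ S : Finset (HeightOneSpectrum (𝓞 K)) in Filter.atTop,
      (∏ W ∈ S.biUnion A, H9_EF (Psi K') W) n = AI (Psi K') n := by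
    have h1 := AI_euler (Psi K') n
    have h2 : Filter.Tendsto (fun S : Finset (HeightOneSpectrum (𝓞 K)) => S.biUnion A)
        Filter.atTop Filter.atTop := by
      rw [Filter.tendsto_atTop]
      intro T
      filter_upwards [Filter.eventually_ge_atTop (T.image (HeightOneSpectrum.under (𝓞 K)))] with S hS
      intro W hW
      rw [Finset.mem_biUnion]
      refine ⟨HeightOneSpectrum.under (𝓞 K) W, hS (Finset.mem_image_of_mem _ hW), ?_⟩
      rw [hA]
      rfl
    exact h2.eventually h1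
  have e2 : ∀ h : Ideal (𝓞 K) →*₀ ℂ, ∀ᶠ S : Finset (HeightOneSpectrum (𝓞 K)) in Filter.atTop,
      ∀ m ∈ Finset.range (n + 1), (∏ w ∈ S, H9_EF h w) m = AI h m := by
    intro h
    rw [Filter.eventually_all_finset]
    intro m _
    exact AI_euler h m
  obtain ⟨S, h1, h2, h3⟩ := (e1.and ((e2 (Psi K)).and
    (e2 (Psi K * χ : Ideal (𝓞 K) →*₀ ℂ)))).exists
  rw [← h1, Finset.prod_biUnion, Finset.prod_congr rfl fun w _ => hprod w, Finset.prod_mul_distrib]
  · exact I2_mul_congr (fun m hm => h2 m (Finset.mem_range.2 (by omega)))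
      (fun m hm => h3 m (Finset.mem_range.2 (by omega))) n le_rfl
  · intro w _ w' _ hne
    rw [Function.onFun, Finset.disjoint_left]
    intro W hW hW'
    rw [hA] at hW hW'
    exact hne (HeightOneSpectrum.ext (hW.symm.trans hW'))

end H55N
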