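import Mathlib
import Pool.Agent.Lib.H55C.B9
import Pool.Agent.Lib.H55N.H1
import Pool.Agent.Lib.H55N.H2

open NumberField IsDedekindDomain

namespace H55N

open H55B H55C

/-! Chunk H14 (M): the constants of the class decomposition. Unit2_Psi: Psi K b = conj (e y), y = pg (relNorm b), Nm y = absNorm b is
odd (b prime to 2 gives an odd norm), val_e_odd (H55B.D0), Unit2.conj. exists_kappa: x0 = c0 is prime to 3 (c0 in b; if w contains c0 and
3 then w does not contain b, (c0) = b d, so d <= w, contradiction to hp) and prime to f. Psi_span for x0 = c0 gives eta: for x in XS,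
x - c0 in 3fb <= (3): Psi (span x) = conj(e eta) conj(emb N x). Put kap' = conj(e eta)/Psi(b) (Psi(b) <> 0),
kap = kap' * chi(span c0) * chi(b) (values 1 or -1). For a b = (x): Psi(a) = Psi(x)/Psi(b); chi(a) chi(b) = chi(span x) = chi(span c0) by
hχ.per (x - c0 in f), chi(b)^2 = 1; a is prime to f (as x is), so oneI f a = 1 (a <> 0: x <> 0 because x is prime to
3f b^-1...: if x = 0 then c0 in 3fb, contradiction to hp for a w above 3). Unit2 kap': e eta with Nm eta = 1 (val_e_odd), Unit2.inv. -/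

theorem H14_not_unit (K : Type) [Field K] [NumberField K] (n : ℕ) (hn : 1 < n) :
    ¬ IsUnit (n : 𝓞 K) := by
  intro h
  have h1 : Ideal.absNorm (Ideal.span {(n : 𝓞 K)}) = 1 := by
    rw [Ideal.span_singleton_eq_top.2 h, Ideal.absNorm_top]
  rw [Ideal.absNorm_span_singleton] at h1
  have h2 : (n : 𝓞 K) = algebraMap ℤ (𝓞 K) n := (map_natCast _ n).symm
  rw [h2, Algebra.norm_algebraMap, Int.natAbs_pow] at h1
  have h3 : Module.finrank ℤ (𝓞 K) ≠ 0 := by
    rw [RingOfIntegers.rank]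
    exact Module.finrank_pos.ne'
  rw [Int.natAbs_natCast] at h1
  exact absurd h1 (Nat.one_lt_pow h3 hn).ne'

theorem H14_odd {K : Type} [Field K] [NumberField K] (J : Ideal (𝓞 K))
    (h : IsCoprime J (Ideal.span {2})) : Odd (Ideal.absNorm J) := by
  obtain ⟨a, ha, c, hc, hac⟩ := Ideal.isCoprime_iff_exists.1 h
  obtain ⟨c', rfl⟩ := Ideal.mem_span_singleton.1 hc
  have hJ : J ≠ ⊥ := by
    rintro rfl
    rw [Ideal.mem_bot] at ha
    rw [ha, zero_add] at hac
    have := H14_not_unit K 2 (by norm_num)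
    rw [Nat.cast_ofNat] at this
    exact this (IsUnit.of_mul_eq_one _ hac)
  rw [← Nat.not_even_iff_odd]
  intro hev
  have hfin : Finite (𝓞 K ⧸ J) := Ideal.finiteQuotientOfFreeOfNeBot J hJ
  have hcard : 2 ∣ Nat.card (𝓞 K ⧸ J) := by
    have : Ideal.absNorm J = Nat.card (𝓞 K ⧸ J) := rfl
    rw [← this]
    exact hev.two_dvd
  have : Fact (Nat.Prime 2) := ⟨Nat.prime_two⟩
  obtain ⟨x, hx⟩ := exists_prime_addOrderOf_dvd_card' 2 hcard
  have h2 : (2 : ℕ) • x = 0 := by rw [← hx]; exact addOrderOf_nsmul_eq_zero x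
  have h3 : (Ideal.Quotient.mk J) a = 0 := Ideal.Quotient.eq_zero_iff_mem.2 ha
  have h4 : (Ideal.Quotient.mk J) (a + 2 * c') = 1 := by rw [hac, map_one]
  rw [map_add, h3, zero_add, map_mul] at h4
  have h5 : x = 0 := by
    have h6 : (Ideal.Quotient.mk J) 2 = 2 := map_ofNat _ 2
    rw [h6] at h4
    calc x = (2 * (Ideal.Quotient.mk J) c') * x := by rw [h4, one_mul]
      _ = (Ideal.Quotient.mk J) c' * ((2 : ℕ) • x) := by rw [nsmul_eq_mul]; push_cast; ring
      _ = 0 := by rw [h2, mul_zero]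
  rw [h5, addOrderOf_zero] at hx
  exact absurd hx (by norm_num)

variable {K : Type} [Field K] [NumberField K] [Algebra F K]

theorem Unit2_Psi (b : Ideal (𝓞 K)) (hb : b ≠ ⊥) (h3 : IsCoprime b (Ideal.span {(3 : 𝓞 K)}))
    (h2 : IsCoprime b (Ideal.span {(2 : 𝓞 K)})) : Unit2 (Psi K b) := by
  have h1 := (Psi_ne b hb).2 h3
  have e1 : Psi K b = psiF (Ideal.relNorm O b) := rfl
  rw [e1] at h1 ⊢
  rw [psiF_apply] at h1 ⊢
  by_cases h : ∃ x : O, Ideal.relNorm O b = Ideal.span {x} ∧ Prim x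
  · obtain ⟨x, hx, hp⟩ := h
    rw [hx, pg_span hp]
    refine Unit2.conj ?_
    have hodd : Odd (Nm x) := by
      have e2 : Nm x = Ideal.absNorm b := by
        rw [← Ideal.absNorm_relNorm O (𝓞 K) b, hx]
        rfl
      rw [e2]
      exact H14_odd b h2
    exact fun A hA => val_e_odd A hA x hodd
  · rw [pg_of_not h, map_zero, map_zero] at h1
    exact absurd rfl h1

theorem exists_kappa (f : Ideal (𝓞 K)) (χ : Ideal (𝓞 K) →*₀ ℂ) (hχ : QChr f χ)
    (b : Ideal (𝓞 K)) (hb : b ≠ ⊥) (hbc : IsCoprime b (Ideal.span {6} * f)) (c₀ : 𝓞 K) (hc : c₀ ∈ b)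
    (hp : ∀ w : HeightOneSpectrum (𝓞 K), Ideal.span {3} * f ≤ w.asIdeal → c₀ ∉ w.asIdeal * b) :
    ∃ κ κ' : ℂ, Unit2 κ' ∧ (κ = κ' ∨ κ = -κ') ∧
      ∀ x ∈ XS (Ideal.span {3} * f * b) c₀, ∀ a : Ideal (𝓞 K), a * b = Ideal.span {x} →
        x ≠ 0 ∧
        (Psi K * χ) a = κ * (starRingEnd ℂ) (emb (Algebra.norm F (x : K))) ∧
        (Psi K * oneI f) a = κ' * (starRingEnd ℂ) (emb (Algebra.norm F (x : K))) := by
  classical
  have h3ne : (3 : 𝓞 K) ≠ 0 := by norm_num
  have h3f : Ideal.span {(3 : 𝓞 K)} * f ≠ ⊥ :=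
    mul_ne_zero (fun h => h3ne (Ideal.span_singleton_eq_bot.1 h)) hχ.ne
  have h63 : Ideal.span {(6 : 𝓞 K)} * f ≤ Ideal.span {(3 : 𝓞 K)} * f := by
    refine Ideal.mul_mono_left ?_
    rw [Ideal.span_singleton_le_span_singleton]
    exact ⟨2, by norm_num⟩
  have hb3f : IsCoprime b (Ideal.span {(3 : 𝓞 K)} * f) := by
    rw [Ideal.isCoprime_iff_sup_eq] at hbc ⊢
    exact top_le_iff.1 (hbc ▸ sup_le_sup_left h63 b)
  have hb3 : IsCoprime b (Ideal.span {(3 : 𝓞 K)}) := hb3f.of_mul_right_left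
  have hbf : IsCoprime b f := hb3f.of_mul_right_right
  have hb2 : IsCoprime b (Ideal.span {(2 : 𝓞 K)}) := by
    have h1 : IsCoprime b (Ideal.span {(6 : 𝓞 K)}) := hbc.of_mul_right_left
    have h2 : Ideal.span {(6 : 𝓞 K)} ≤ Ideal.span {(2 : 𝓞 K)} := by
      rw [Ideal.span_singleton_le_span_singleton]
      exact ⟨3, by norm_num⟩
    rw [Ideal.isCoprime_iff_sup_eq] at h1 ⊢
    exact top_le_iff.1 (h1 ▸ sup_le_sup_left h2 b)
  -- c₀ is prime to 3 f
  have hcop : IsCoprime (Ideal.span {c₀}) (Ideal.span {(3 : 𝓞 K)} * f) := by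
    rw [Ideal.isCoprime_iff_sup_eq]
    by_contra hne
    obtain ⟨M, hM, hle⟩ := Ideal.exists_le_maximal _ hne
    have hMf : Ideal.span {(3 : 𝓞 K)} * f ≤ M := le_sup_right.trans hle
    have hMc : Ideal.span {c₀} ≤ M := le_sup_left.trans hle
    have hM0 : M ≠ ⊥ := by
      rintro rfl
      exact h3f (le_bot_iff.1 hMf)
    have hbM : ¬ b ≤ M := by
      intro h
      rw [Ideal.isCoprime_iff_sup_eq] at hb3f
      exact hM.ne_top (top_le_iff.1 (hb3f ▸ sup_le h hMf))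
    obtain ⟨d, hd⟩ := Ideal.dvd_iff_le.2 ((Ideal.span_singleton_le_iff_mem b).2 hc)
    rw [hd] at hMc
    have hdM : d ≤ M := (hM.isPrime.mul_le.1 hMc).resolve_left hbM
    refine hp ⟨M, hM.isPrime, hM0⟩ hMf ?_
    have h1 : c₀ ∈ b * d := by rw [← hd]; exact Ideal.mem_span_singleton_self _
    rw [mul_comm]
    exact Ideal.mul_mono_right hdM h1
  have hXcop : ∀ x ∈ XS (Ideal.span {3} * f * b) c₀,
      IsCoprime (Ideal.span {x}) (Ideal.span {(3 : 𝓞 K)} * f) := by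
    intro x hx
    have hx' : x - c₀ ∈ Ideal.span {(3 : 𝓞 K)} * f :=
      Ideal.mul_le_left (show x - c₀ ∈ Ideal.span {(3 : 𝓞 K)} * f * b from hx)
    rw [Ideal.isCoprime_iff_exists] at hcop ⊢
    obtain ⟨i, hi, j, hj, hij⟩ := hcop
    obtain ⟨r, rfl⟩ := Ideal.mem_span_singleton.1 hi
    refine ⟨x * r, Ideal.mul_mem_right _ _ (Ideal.mem_span_singleton_self x),
      j - (x - c₀) * r, Ideal.sub_mem _ hj (Ideal.mul_mem_right _ _ hx'), ?_⟩
    linear_combination hij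
  have hc3 : IsCoprime (Ideal.span {c₀}) (Ideal.span {(3 : 𝓞 K)}) := hcop.of_mul_right_left
  have hne0 : ∀ x : 𝓞 K, IsCoprime (Ideal.span {x}) (Ideal.span {(3 : 𝓞 K)}) → x ≠ 0 := by
    rintro x hx rfl
    rw [Ideal.isCoprime_span_singleton_iff] at hx
    obtain ⟨r, t, hrt⟩ := hx
    rw [mul_zero, zero_add] at hrt
    have := H14_not_unit K 3 (by norm_num)
    rw [Nat.cast_ofNat] at this
    exact this (IsUnit.of_mul_eq_one _ ((mul_comm _ _).trans hrt))
  have hc0 : c₀ ≠ 0 := hne0 c₀ hc3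
  obtain ⟨η, hη⟩ := Psi_span c₀ hc3
  have hPb : Psi K b ≠ 0 := (Psi_ne b hb).2 hb3
  have hχb := hχ.val b hb hbf
  have hc0' : Ideal.span {c₀} ≠ ⊥ := fun h => hc0 (Ideal.span_singleton_eq_bot.1 h)
  have hχc := hχ.val (Ideal.span {c₀}) hc0' hcop.of_mul_right_right
  have hUη : Unit2 (e (η : O)) := by
    intro A hA
    refine val_e_odd A hA _ ?_
    rw [Nm_eq_one.2 η.isUnit]
    exact odd_one
  refine ⟨(starRingEnd ℂ) (e (η : O)) * (Psi K b)⁻¹ * (χ (Ideal.span {c₀}) * χ b),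
    (starRingEnd ℂ) (e (η : O)) * (Psi K b)⁻¹, hUη.conj.mul (Unit2_Psi b hb hb3 hb2).inv, ?_, ?_⟩
  · rcases hχc with h1 | h1 <;> rcases hχb with h2 | h2 <;> rw [h1, h2] <;> norm_num
  · intro x hx a hab
    have hxc := hXcop x hx
    have hx0 : x ≠ 0 := hne0 x hxc.of_mul_right_left
    have hx3 : x - c₀ ∈ Ideal.span {(3 : 𝓞 K)} :=
      Ideal.mul_le_left (Ideal.mul_le_left
        (show x - c₀ ∈ Ideal.span {(3 : 𝓞 K)} * f * b from hx))
    have hxf : x - c₀ ∈ f := by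
      have h1 : x - c₀ ∈ Ideal.span {(3 : 𝓞 K)} * f :=
        Ideal.mul_le_left (show x - c₀ ∈ Ideal.span {(3 : 𝓞 K)} * f * b from hx)
      exact Ideal.mul_le_right h1
    have hPx := hη x hx3
    have ha0 : a ≠ ⊥ := by
      rintro rfl
      apply hx0
      rw [← Ideal.span_singleton_eq_bot, ← hab]
      exact zero_mul b
    have haf : IsCoprime a f := by
      have h1 : IsCoprime (a * b) f := by rw [hab]; exact hxc.of_mul_right_right
      exact h1.of_mul_left_left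
    have hPa : Psi K a = (starRingEnd ℂ) (e (η : O)) * (Psi K b)⁻¹ *
        (starRingEnd ℂ) (emb (Algebra.norm F (x : K))) := by
      have h1 : Psi K a * Psi K b = Psi K (Ideal.span {x}) := by rw [← map_mul, hab]
      rw [hPx] at h1
      field_simp
      exact h1
    have hχa : χ a = χ (Ideal.span {c₀}) * χ b := by
      have h1 : χ a * χ b = χ (Ideal.span {x}) := by rw [← map_mul, hab]
      rw [hχ.per x c₀ hx0 hc0 hxc.of_mul_right_right hxf] at h1
      have h2 : χ b * χ b = 1 := by rcases hχb with h | h <;> rw [h] <;> norm_num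
      calc χ a = (χ a * χ b) * χ b := by rw [mul_assoc, h2, mul_one]
        _ = _ := by rw [h1]
    refine ⟨hx0, ?_, ?_⟩
    · show Psi K a * χ a = _
      rw [hPa, hχa]
      ring
    · show Psi K a * oneI f a = _
      have h1 : oneI f a = 1 := if_pos ⟨ha0, haf⟩
      rw [hPa, h1, mul_one]

end H55N
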