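import Mathlib
import Pool.Agent.Lib.H55B.F4
import Pool.Agent.Lib.H55C.W8

open NumberField IsDedekindDomain

namespace H55N

open H55B H55C

theorem S1_elt {K : Type} [Field K] [NumberField K] [Algebra F K] (θ : 𝓞 K)
    (hθ : Algebra.adjoin F {(θ : K)} = ⊤) (z : 𝓞 K) :
    ∃ d : O, d ≠ 0 ∧ ∃ P : Polynomial O, algebraMap O (𝓞 K) d * z = Polynomial.aeval θ P := by
  have hz : (z : K) ∈ Algebra.adjoin F {(θ : K)} := by rw [hθ]; trivial
  rw [Algebra.adjoin_singleton_eq_range_aeval] at hz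
  obtain ⟨p, hp⟩ := hz
  obtain ⟨b, hb0, hb⟩ := IsLocalization.integerNormalization_spec (nonZeroDivisors O) p
  refine ⟨b, nonZeroDivisors.ne_zero hb0, IsLocalization.integerNormalization (nonZeroDivisors O) p, ?_⟩
  apply RingOfIntegers.coe_injective
  have h1 : algebraMap (𝓞 K) K (Polynomial.aeval θ
      (IsLocalization.integerNormalization (nonZeroDivisors O) p)) =
      Polynomial.aeval (θ : K) (IsLocalization.integerNormalization (nonZeroDivisors O) p) :=
    (Polynomial.aeval_algebraMap_apply K θ _).symm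
  have h2 : (Polynomial.aeval (θ : K)) p = (z : K) := hp
  have h3 : Polynomial.map (algebraMap O F)
      (IsLocalization.integerNormalization (nonZeroDivisors O) p) =
      Polynomial.C (algebraMap O F b) * p := by
    rw [hb]
    ext n
    rw [Polynomial.coeff_smul, Polynomial.coeff_C_mul, Algebra.smul_def]
  rw [h1, ← Polynomial.aeval_map_algebraMap F, h3, map_mul, map_mul, Polynomial.aeval_C, h2]
  rfl

theorem S1_fg {K : Type} [Field K] [NumberField K] [Algebra F K] (θ : 𝓞 K)
    (hθ : Algebra.adjoin F {(θ : K)} = ⊤) :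
    ∃ d : O, d ≠ 0 ∧ ∀ z : 𝓞 K, ∃ P : Polynomial O,
      algebraMap O (𝓞 K) d * z = Polynomial.aeval θ P := by
  have h := Submodule.fg_induction (R := O) (M := 𝓞 K)
      (motive := fun N _ => ∃ d : O, d ≠ 0 ∧ ∀ z ∈ N, ∃ P : Polynomial O,
      algebraMap O (𝓞 K) d * z = Polynomial.aeval θ P) ?_ ?_ ⊤ Module.Finite.fg_top
  · obtain ⟨d, hd, h⟩ := h
    exact ⟨d, hd, fun z => h z trivial⟩
  · intro x
    obtain ⟨d, hd, P, hP⟩ := S1_elt θ hθ x
    refine ⟨d, hd, fun z hz => ?_⟩
    obtain ⟨c, rfl⟩ := Submodule.mem_span_singleton.1 hz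
    refine ⟨Polynomial.C c * P, ?_⟩
    rw [map_mul, Polynomial.aeval_C, ← hP, Algebra.smul_def]
    ring
  · rintro M₁ M₂ _ _ ⟨d₁, hd₁, h₁⟩ ⟨d₂, hd₂, h₂⟩
    refine ⟨d₁ * d₂, mul_ne_zero hd₁ hd₂, fun z hz => ?_⟩
    obtain ⟨x, hx, y, hy, rfl⟩ := Submodule.mem_sup.1 hz
    obtain ⟨P, hP⟩ := h₁ x hx
    obtain ⟨Q, hQ⟩ := h₂ y hy
    refine ⟨Polynomial.C d₂ * P + Polynomial.C d₁ * Q, ?_⟩
    have e1 : Polynomial.aeval θ (Polynomial.C d₂ * P) =
        algebraMap O (𝓞 K) d₂ * (algebraMap O (𝓞 K) d₁ * x) := by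
      rw [map_mul, Polynomial.aeval_C, hP]
    have e2 : Polynomial.aeval θ (Polynomial.C d₁ * Q) =
        algebraMap O (𝓞 K) d₁ * (algebraMap O (𝓞 K) d₂ * y) := by
      rw [map_mul, Polynomial.aeval_C, hQ]
    rw [map_add, e1, e2, map_mul]
    ring

/-- Chunk S1 (M), residue degree one. There is d in O, d <> 0, such that for all z in 𝓞 K: d z = P(theta) with P in O[X] (𝓞 K is a
finitely generated O-module, each generator is a polynomial in theta with coefficients in F; take a common denominator). If w contains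
theta + a and v (below w) does not contain d, then z = d^(-1) P(-a) modulo w, so O -> 𝓞 K / w is surjective, and
O/v -> 𝓞 K/w is an isomorphism: the inertia degree is 1 (Ideal.inertiaDeg is the finrank of the residue extension; here
w.asIdeal.inertiaDeg O is defined with the ideal below; see how H55C or H35T compute inertia degrees, or use
absNorm_inertia: absNorm w = (absNorm v)^inertiaDeg). -/
theorem deg_one {K : Type} [Field K] [NumberField K] [Algebra F K] (θ : 𝓞 K)
    (hθ : Algebra.adjoin F {(θ : K)} = ⊤) :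
    ∃ d : O, d ≠ 0 ∧ ∀ (w : HeightOneSpectrum (𝓞 K)) (v : HeightOneSpectrum O),
      v.asIdeal = w.asIdeal.under O → d ∉ v.asIdeal →
      ∀ a : O, θ + algebraMap O (𝓞 K) a ∈ w.asIdeal → w.asIdeal.inertiaDeg O = 1 := by
  obtain ⟨d, hd, h⟩ := S1_fg θ hθ
  refine ⟨d, hd, fun w v hv hdv a ha => ?_⟩
  let ψ : O →+* 𝓞 K ⧸ w.asIdeal := (Ideal.Quotient.mk w.asIdeal).comp (algebraMap O (𝓞 K))
  have hker : RingHom.ker ψ = v.asIdeal := by
    rw [hv]
    ext x
    rw [RingHom.mem_ker, RingHom.comp_apply, Ideal.Quotient.eq_zero_iff_mem, Ideal.under_def,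
      Ideal.mem_comap]
  have hsurj : Function.Surjective ψ := by
    intro t
    obtain ⟨z, rfl⟩ := Ideal.Quotient.mk_surjective t
    obtain ⟨P, hP⟩ := h z
    have hm := v.isMaximal
    obtain ⟨d', i, hi, hd'⟩ := Ideal.IsMaximal.exists_inv hm hdv
    refine ⟨d' * P.eval (-a), ?_⟩
    have h1 : Ideal.Quotient.mk w.asIdeal (Polynomial.aeval θ P) =
        Ideal.Quotient.mk w.asIdeal (algebraMap O (𝓞 K) (P.eval (-a))) := by
      rw [Ideal.Quotient.eq]
      have h2 : algebraMap O (𝓞 K) (P.eval (-a)) = Polynomial.aeval (algebraMap O (𝓞 K) (-a)) P := by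
        rw [Polynomial.aeval_algebraMap_apply, Polynomial.coe_aeval_eq_eval]
      rw [h2, Polynomial.aeval_def, Polynomial.aeval_def, Polynomial.eval₂_eq_eval_map,
        Polynomial.eval₂_eq_eval_map]
      have h3 := Polynomial.sub_dvd_eval_sub θ (algebraMap O (𝓞 K) (-a))
        (P.map (algebraMap O (𝓞 K)))
      have h4 : θ - algebraMap O (𝓞 K) (-a) ∈ w.asIdeal := by
        rw [map_neg, sub_neg_eq_add]
        exact ha
      exact Ideal.mem_of_dvd _ h3 h4
    have h5 : ψ (d' * d) = 1 := by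
      have : ψ (d' * d - 1) = 0 := by
        rw [← RingHom.mem_ker, hker]
        have h6 : d' * d - 1 = -i := by linear_combination hd'
        rw [h6]
        exact neg_mem hi
      rw [map_sub, map_one] at this
      exact sub_eq_zero.1 this
    calc ψ (d' * P.eval (-a)) = ψ d' * Ideal.Quotient.mk w.asIdeal (Polynomial.aeval θ P) := by
          rw [map_mul, h1]; rfl
      _ = ψ d' * (ψ d * Ideal.Quotient.mk w.asIdeal z) := by
          rw [← hP, map_mul]; rfl
      _ = ψ (d' * d) * Ideal.Quotient.mk w.asIdeal z := by rw [map_mul]; ring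
      _ = Ideal.Quotient.mk w.asIdeal z := by rw [h5, one_mul]
  have hcard : Ideal.absNorm w.asIdeal = Ideal.absNorm v.asIdeal := by
    rw [← hker, Ideal.absNorm_apply, Ideal.absNorm_apply, Submodule.cardQuot_apply,
      Submodule.cardQuot_apply]
    exact (Nat.card_congr (RingHom.quotientKerEquivOfSurjective hsurj).toEquiv).symm
  have h1 := absNorm_inertia K w v hv
  rw [hcard] at h1
  have h2 : 2 ≤ Ideal.absNorm v.asIdeal := by
    have h3 : Ideal.absNorm v.asIdeal ≠ 0 := by
      rw [Ne, Ideal.absNorm_eq_zero_iff]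
      exact v.ne_bot
    have h4 : Ideal.absNorm v.asIdeal ≠ 1 := by
      rw [Ne, Ideal.absNorm_eq_one_iff]
      exact v.isPrime.ne_top
    omega
  have h3 : Ideal.absNorm v.asIdeal ^ (w.asIdeal.inertiaDeg O) = Ideal.absNorm v.asIdeal ^ 1 := by
    rw [pow_one]; exact h1.symm
  exact Nat.pow_right_injective h2 h3

end H55N
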