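import Mathlib
import Pool.Agent.Lib.H55N.S1
import Pool.Agent.Lib.H55N.H2

open NumberField IsDedekindDomain

namespace H55N

open H55B H55C

/-! Chunk S2 (M/L): an element of 𝓞 K with prescribed norm class, divisible (above odd primes) only by primes of residue degree one.
avoid: intNorm (theta + a) = det (M_theta + a) modulo v is the value at a of a monic polynomial of degree n = finrank over the field O/v (the
characteristic polynomial of -M_theta), which has at most n < N v roots.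
exists_elt: Let P1 = P, the primes above 3 and the primes v with absNorm v <= n (finite set), without those containing 2. Choose mu in O
with mu = om mod 2, mu = 1 mod 3 and mod all v in P1 (Chinese remainder theorem), nu in O nonzero, divisible by 6 and contained in all v in P1,
theta0 in 𝓞 K with F(theta0) = K (primitive element, multiplied by a denominator), theta = mu + nu theta0. Let d be as in deg_one
for theta. Choose a in O with a = 0 mod 6, a in v for v in P1, and intNorm (theta + a) not in v for the primes v containing d, not in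
P1 and not containing 2 (avoid; the class modulo v only matters by norm_congr; CRT). z = theta + a. Then z = om mod 2, z = 1 mod 3;
for v in P1: z - 1 is in the ideal generated by a generator of v, so intNorm z - 1 is in v (norm_congr; intNorm 1 = 1).
If z in w, 2 not in w, v below w: intNorm z in v (Ideal.relNorm_le_comap or Algebra.dvd_algebraMap_intNorm_self), so v is not in P1 and does not
contain d, hence deg_one. -/

variable {K : Type} [Field K] [NumberField K] [Algebra F K]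

theorem s2_charpoly (θ : 𝓞 K) : ∃ p : Polynomial O, p.Monic ∧ p.natDegree = Module.finrank F K ∧
    ∀ a : O, Algebra.intNorm O (𝓞 K) (θ + algebraMap O (𝓞 K) a) = p.eval a := by
  classical
  let b := Module.Free.chooseBasis O (𝓞 K)
  refine ⟨(-(Algebra.leftMulMatrix b θ)).charpoly, Matrix.charpoly_monic _, ?_, ?_⟩
  · rw [Matrix.charpoly_natDegree_eq_dim, ← Module.finrank_eq_card_chooseBasisIndex]
    exact (IsFractionRing.finrank_eq O F (𝓞 K) K).symm
  · intro a
    rw [Algebra.intNorm_eq_norm, Algebra.norm_eq_matrix_det b, Matrix.eval_charpoly, map_add,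
      AlgHom.commutes, sub_neg_eq_add, add_comm]
    rfl

theorem avoid (θ : 𝓞 K) (v : HeightOneSpectrum O)
    (hv : Module.finrank F K < Ideal.absNorm v.asIdeal) :
    ∃ a : O, Algebra.intNorm O (𝓞 K) (θ + algebraMap O (𝓞 K) a) ∉ v.asIdeal := by
  classical
  obtain ⟨p, hp, hd, hpa⟩ := s2_charpoly (K := K) θ
  by_contra hcon
  push Not at hcon
  have := v.isMaximal
  let _ : Field (O ⧸ v.asIdeal) := Ideal.Quotient.field v.asIdeal
  have : Finite (O ⧸ v.asIdeal) := Ideal.finiteQuotientOfFreeOfNeBot v.asIdeal v.ne_bot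
  let _ := Fintype.ofFinite (O ⧸ v.asIdeal)
  set q := p.map (Ideal.Quotient.mk v.asIdeal) with hq
  have hqm : q.Monic := hp.map _
  have hroot : ∀ y : O ⧸ v.asIdeal, q.eval y = 0 := by
    intro y
    obtain ⟨a, rfl⟩ := Ideal.Quotient.mk_surjective y
    rw [hq, Polynomial.eval_map, Polynomial.eval₂_at_apply, Ideal.Quotient.eq_zero_iff_mem,
      ← hpa a]
    exact hcon a
  have hsub : (Finset.univ : Finset (O ⧸ v.asIdeal)) ⊆ q.roots.toFinset := by
    intro y _
    rw [Multiset.mem_toFinset, Polynomial.mem_roots hqm.ne_zero]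
    exact hroot y
  have h1 := Finset.card_le_card hsub
  have h2 : q.roots.toFinset.card ≤ q.natDegree :=
    (Multiset.toFinset_card_le _).trans (Polynomial.card_roots' q)
  have h3 : q.natDegree = Module.finrank F K := by
    rw [hq, hp.natDegree_map, hd]
  have h4 : Ideal.absNorm v.asIdeal = (Finset.univ : Finset (O ⧸ v.asIdeal)).card := by
    rw [Ideal.absNorm_apply, Submodule.cardQuot_apply, Nat.card_eq_fintype_card,
      Finset.card_univ]
  omega

/-- Generators of the primes of O. -/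
theorem s2_gen (v : HeightOneSpectrum O) : ∃ π : O, v.asIdeal = Ideal.span {π} :=
  (IsPrincipalIdealRing.principal v.asIdeal).principal

theorem s2_norm_mem (v : HeightOneSpectrum O) (x y : 𝓞 K) (h : ∃ a ∈ v.asIdeal, ∃ r : 𝓞 K,
    x - y = algebraMap O (𝓞 K) a * r) :
    Algebra.intNorm O (𝓞 K) x - Algebra.intNorm O (𝓞 K) y ∈ v.asIdeal := by
  obtain ⟨π, hπ⟩ := s2_gen v
  obtain ⟨a, ha, r, hr⟩ := h
  rw [hπ, Ideal.mem_span_singleton] at ha
  obtain ⟨c, hc⟩ := ha
  rw [hπ, Ideal.mem_span_singleton]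
  apply norm_congr
  rw [Ideal.mem_span_singleton, hr, hc, map_mul]
  exact ⟨algebraMap O (𝓞 K) c * r, by ring⟩

theorem s2_avoid (θ : 𝓞 K) (c : O) (v : HeightOneSpectrum O) (hc : c ∉ v.asIdeal)
    (hv : Module.finrank F K < Ideal.absNorm v.asIdeal) :
    ∃ a : O, Algebra.intNorm O (𝓞 K) (θ + algebraMap O (𝓞 K) (c * a)) ∉ v.asIdeal := by
  obtain ⟨a, ha⟩ := avoid θ v hv
  obtain ⟨y, i, hi, hy⟩ := v.isMaximal.exists_inv hc
  refine ⟨y * a, fun h => ha ?_⟩
  have h1 := s2_norm_mem (K := K) v (θ + algebraMap O (𝓞 K) a)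
    (θ + algebraMap O (𝓞 K) (c * (y * a))) ⟨i, hi, algebraMap O (𝓞 K) a, by
      have : c * (y * a) = a - i * a := by linear_combination a * hy
      rw [this, map_sub, map_mul]
      ring⟩
  have h2 := v.asIdeal.add_mem h1 h
  rwa [sub_add_cancel] at h2

theorem s2_crt (s : Finset (HeightOneSpectrum O)) (x : HeightOneSpectrum O → O) :
    ∃ a : O, ∀ v ∈ s, a - x v ∈ v.asIdeal := by
  obtain ⟨y, hy⟩ := IsDedekindDomain.exists_forall_sub_mem_ideal (s := s)
    (fun v : HeightOneSpectrum O => v.asIdeal) (fun _ => 1)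
    (fun v _ => v.prime) (fun v _ w _ h h' => h (HeightOneSpectrum.ext h')) (fun v => x v)
  exact ⟨y, fun v hv => by simpa using hy v hv⟩

theorem s2_fin (d : O) (hd : d ≠ 0) : {v : HeightOneSpectrum O | d ∈ v.asIdeal}.Finite := by
  have h := Ideal.finite_factors (R := O) (I := Ideal.span {d}) (by
    rw [Ne, Submodule.zero_eq_bot, Ideal.span_singleton_eq_bot]
    exact hd)
  exact h.subset fun v hv => Ideal.dvd_span_singleton.2 hv

theorem s2_fin_norm (n : ℕ) : {v : HeightOneSpectrum O | Ideal.absNorm v.asIdeal ≤ n}.Finite :=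
  (Ideal.finite_setOfPred_absNorm_le (S := O) n).preimage
    fun v _ w _ h => HeightOneSpectrum.ext h

theorem s2_mem_under (w : HeightOneSpectrum (𝓞 K)) (z : 𝓞 K) (hz : z ∈ w.asIdeal) :
    Algebra.intNorm O (𝓞 K) z ∈ w.asIdeal.under O := by
  rw [Ideal.under_def, Ideal.mem_comap]
  exact Ideal.mem_of_dvd _ (Algebra.dvd_algebraMap_intNorm_self O (𝓞 K) z) hz

theorem s2_under (w : HeightOneSpectrum (𝓞 K)) :
    ∃ v : HeightOneSpectrum O, v.asIdeal = w.asIdeal.under O := by
  have hp : (w.asIdeal.under O).IsPrime := inferInstance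
  have hne : w.asIdeal.under O ≠ ⊥ := by
    obtain ⟨x, hx, hx0⟩ := Submodule.exists_mem_ne_zero_of_ne_bot w.ne_bot
    exact Ideal.comap_ne_bot_of_integral_mem hx0 hx (Algebra.IsIntegral.isIntegral x)
  exact ⟨⟨_, hp, hne⟩, rfl⟩

/-- The auxiliary modulus. -/
theorem s2_mod (s : Finset (HeightOneSpectrum O)) (h2 : ∀ v ∈ s, (2 : O) ∉ v.asIdeal)
    (h3 : ∀ v : HeightOneSpectrum O, (3 : O) ∈ v.asIdeal → (2 : O) ∉ v.asIdeal → v ∈ s) :
    ∃ N : O, N ≠ 0 ∧ (3 : O) ∣ N ∧ IsCoprime 2 N ∧ (∀ v ∈ s, N ∈ v.asIdeal) ∧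
      ∀ v : HeightOneSpectrum O, (2 : O) ∉ v.asIdeal → v ∉ s → N ∉ v.asIdeal := by
  choose π hπ using s2_gen
  have hπ0 : ∀ v, π v ≠ 0 := by
    intro v h
    apply v.ne_bot
    rw [hπ, h]
    exact Ideal.span_singleton_eq_bot.2 rfl
  have hmem : ∀ v, π v ∈ v.asIdeal := fun v => by
    have := Ideal.mem_span_singleton_self (π v)
    rwa [← hπ v] at this
  refine ⟨3 * ∏ v ∈ s, π v, ?_, dvd_mul_right _ _, ?_, ?_, ?_⟩
  · exact mul_ne_zero (OfNat.ofNat_ne_zero 3) (Finset.prod_ne_zero_iff.2 fun v _ => hπ0 v)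
  · refine IsCoprime.mul_right ⟨-1, 1, by norm_num⟩ (IsCoprime.prod_right fun v hv => ?_)
    obtain ⟨y, i, hi, hy⟩ := v.isMaximal.exists_inv (h2 v hv)
    rw [hπ v, Ideal.mem_span_singleton] at hi
    obtain ⟨c, hc⟩ := hi
    exact ⟨y, c, by rw [← hy, hc]; ring⟩
  · intro v hv
    exact v.asIdeal.mul_mem_left _ (Ideal.mem_of_dvd _ (Finset.dvd_prod_of_mem π hv) (hmem v))
  · intro v hv2 hvs h
    rcases v.isPrime.mem_or_mem h with h | h
    · exact hvs (h3 v h hv2)
    · obtain ⟨v', hv', h'⟩ := (v.isPrime.prod_mem_iff).1 h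
      have hle : v'.asIdeal ≤ v.asIdeal := by
        rw [hπ v', Ideal.span_singleton_le_iff_mem]
        exact h'
      have heq : v'.asIdeal = v.asIdeal :=
        v'.isMaximal.eq_of_le v.isPrime.ne_top hle
      exact hvs (HeightOneSpectrum.ext heq ▸ hv')

/-- A primitive element in the ring of integers, scaled and translated. -/
theorem s2_prim (K : Type) [Field K] [NumberField K] [Algebra F K] :
    ∃ x : 𝓞 K, ∀ μ ν : O, ν ≠ 0 →
      Algebra.adjoin F {((algebraMap O (𝓞 K) μ + algebraMap O (𝓞 K) ν * x : 𝓞 K) : K)} = ⊤ := by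
  have : IsScalarTower ℚ F K := IsScalarTower.of_algebraMap_eq' (Subsingleton.elim _ _)
  have : FiniteDimensional F K := Module.Finite.of_restrictScalars_finite ℚ F K
  obtain ⟨α, hα⟩ := Field.exists_primitive_element F K
  have hα2 : Algebra.adjoin F {α} = ⊤ := by
    rw [← IntermediateField.adjoin_simple_toSubalgebra_of_isAlgebraic
      (Algebra.IsAlgebraic.isAlgebraic α), hα]
    rfl
  obtain ⟨y, hy0, hy⟩ := exists_integral_multiples ℤ ℚ ({α} : Finset K)
  obtain ⟨x, hx⟩ : ∃ x : 𝓞 K, (x : K) = y • α :=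
    ⟨⟨y • α, hy α (Finset.mem_singleton_self α)⟩, rfl⟩
  refine ⟨x, fun μ ν hν => ?_⟩
  rw [eq_top_iff, ← hα2]
  apply Algebra.adjoin_le
  rw [Set.singleton_subset_iff, SetLike.mem_coe]
  set S := Algebra.adjoin F {((algebraMap O (𝓞 K) μ + algebraMap O (𝓞 K) ν * x : 𝓞 K) : K)}
    with hS
  have h1 : ((algebraMap O (𝓞 K) μ + algebraMap O (𝓞 K) ν * x : 𝓞 K) : K) ∈ S :=
    Algebra.self_mem_adjoin_singleton F _
  have h2 : ((algebraMap O (𝓞 K) μ + algebraMap O (𝓞 K) ν * x : 𝓞 K) : K) =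
      algebraMap F K (μ : F) + algebraMap F K ((ν : F) * y) * α := by
    have e1 : ((algebraMap O (𝓞 K) μ + algebraMap O (𝓞 K) ν * x : 𝓞 K) : K) =
        algebraMap F K (μ : F) + algebraMap F K (ν : F) * (x : K) := rfl
    rw [e1, hx, map_mul, map_intCast, zsmul_eq_mul, mul_assoc]
  rw [h2] at h1
  have h3 : algebraMap F K ((ν : F) * y) * α ∈ S := by
    have := S.sub_mem h1 (S.algebraMap_mem (μ : F))
    rwa [add_sub_cancel_left] at this
  have hne : (ν : F) * y ≠ 0 := by
    refine mul_ne_zero ?_ ?_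
    · exact_mod_cast hν
    · exact_mod_cast hy0
  have h4 := S.mul_mem (S.algebraMap_mem ((ν : F) * y)⁻¹) h3
  rwa [← mul_assoc, ← map_mul, inv_mul_cancel₀ hne, map_one, one_mul] at h4

theorem exists_elt (K : Type) [Field K] [NumberField K] [Algebra F K]
    (P : Finset (HeightOneSpectrum O)) :
    ∃ z : 𝓞 K, z - algebraMap O (𝓞 K) om ∈ Ideal.span {(2 : 𝓞 K)} ∧
      z - 1 ∈ Ideal.span {(3 : 𝓞 K)} ∧
      (∀ v ∈ P, (2 : O) ∉ v.asIdeal → Algebra.intNorm O (𝓞 K) z ∉ v.asIdeal) ∧
      ∀ w : HeightOneSpectrum (𝓞 K), (2 : 𝓞 K) ∉ w.asIdeal → z ∈ w.asIdeal →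
        w.asIdeal.inertiaDeg O = 1 := by
  classical
  set P1 : Finset (HeightOneSpectrum O) :=
    (P ∪ (s2_fin_norm (Module.finrank F K)).toFinset ∪
      (s2_fin 3 (OfNat.ofNat_ne_zero 3)).toFinset).filter fun v => (2 : O) ∉ v.asIdeal with hP1
  obtain ⟨N, hN0, ⟨N3, hN3⟩, ⟨a2, b2, hab⟩, hNP, hNn⟩ := s2_mod P1
    (fun v hv => (Finset.mem_filter.1 hv).2)
    (fun v hv hv2 => by
      rw [hP1, Finset.mem_filter]
      refine ⟨?_, hv2⟩
      rw [Finset.mem_union]
      right
      rw [Set.Finite.mem_toFinset]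
      exact hv)
  obtain ⟨x, hx⟩ := s2_prim K
  set μ : O := om * (b2 * N) + a2 * 2 with hμ
  set θ : 𝓞 K := algebraMap O (𝓞 K) μ + algebraMap O (𝓞 K) (2 * N) * x with hθ
  have h2N : (2 * N : O) ≠ 0 := mul_ne_zero (OfNat.ofNat_ne_zero 2) hN0
  obtain ⟨d, hd0, hd⟩ := deg_one θ (hx μ (2 * N) h2N)
  set P2 : Finset (HeightOneSpectrum O) :=
    (s2_fin d hd0).toFinset.filter fun v => (2 : O) ∉ v.asIdeal ∧ v ∉ P1 with hP2
  have hcv : ∀ v : HeightOneSpectrum O, (2 : O) ∉ v.asIdeal → v ∉ P1 →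
      2 * N ∉ v.asIdeal := by
    intro v h2 h1 h
    rcases v.isPrime.mem_or_mem h with h | h
    · exact h2 h
    · exact hNn v h2 h1 h
  have hav : ∀ v ∈ P2, ∃ a : O,
      Algebra.intNorm O (𝓞 K) (θ + algebraMap O (𝓞 K) (2 * N * a)) ∉ v.asIdeal := by
    intro v hv
    obtain ⟨-, h2, h1⟩ := Finset.mem_filter.1 hv
    refine s2_avoid θ (2 * N) v (hcv v h2 h1) ?_
    by_contra hle
    push Not at hle
    apply h1
    rw [hP1, Finset.mem_filter]
    refine ⟨?_, h2⟩
    rw [Finset.mem_union, Finset.mem_union]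
    left
    right
    rw [Set.Finite.mem_toFinset]
    exact hle
  choose! av hav using hav
  obtain ⟨a, ha⟩ := s2_crt P2 av
  set z : 𝓞 K := θ + algebraMap O (𝓞 K) (2 * N * a) with hz
  have hzP1 : ∀ v ∈ P1, Algebra.intNorm O (𝓞 K) z ∉ v.asIdeal := by
    intro v hv h
    have h1 := s2_norm_mem (K := K) v z 1 ⟨N, hNP v hv,
      algebraMap O (𝓞 K) (om * b2 - b2) + algebraMap O (𝓞 K) 2 * x +
        algebraMap O (𝓞 K) (2 * a), by
      have e1 : μ = 1 + N * (om * b2 - b2) := by
        rw [hμ]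
        linear_combination hab
      rw [hz, hθ, e1]
      simp only [map_add, map_mul, map_one, map_sub]
      ring⟩
    have h2 := v.asIdeal.sub_mem h h1
    rw [sub_sub_cancel, map_one] at h2
    exact v.isPrime.ne_top ((Ideal.eq_top_iff_one _).2 h2)
  have hzP2 : ∀ v ∈ P2, Algebra.intNorm O (𝓞 K) z ∉ v.asIdeal := by
    intro v hv h
    have h1 := s2_norm_mem (K := K) v z (θ + algebraMap O (𝓞 K) (2 * N * av v))
      ⟨a - av v, ha v hv, algebraMap O (𝓞 K) (2 * N), by
        rw [hz]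
        simp only [map_mul, map_sub]
        ring⟩
    have h2 := v.asIdeal.sub_mem h h1
    rw [sub_sub_cancel] at h2
    exact hav v hv h2
  refine ⟨z, ?_, ?_, ?_, ?_⟩
  · rw [Ideal.mem_span_singleton]
    refine ⟨algebraMap O (𝓞 K) (a2 - a2 * om) + algebraMap O (𝓞 K) N * x +
      algebraMap O (𝓞 K) (N * a), ?_⟩
    have e1 : μ = om + 2 * (a2 - a2 * om) := by
      rw [hμ]
      linear_combination om * hab
    rw [hz, hθ, e1]
    simp only [map_add, map_mul, map_sub, map_ofNat]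
    ring
  · rw [Ideal.mem_span_singleton]
    refine ⟨algebraMap O (𝓞 K) (N3 * (om * b2 - b2)) + algebraMap O (𝓞 K) (2 * N3) * x +
      algebraMap O (𝓞 K) (2 * N3 * a), ?_⟩
    have e1 : μ = 1 + 3 * N3 * (om * b2 - b2) := by
      rw [← hN3, hμ]
      linear_combination hab
    rw [hz, hθ, e1, hN3]
    simp only [map_add, map_mul, map_sub, map_ofNat, map_one]
    ring
  · intro v hv h2
    refine hzP1 v ?_
    rw [hP1, Finset.mem_filter]
    refine ⟨?_, h2⟩
    rw [Finset.mem_union, Finset.mem_union]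
    left
    left
    exact hv
  · intro w h2 hzw
    obtain ⟨v, hv⟩ := s2_under w
    have hzv : Algebra.intNorm O (𝓞 K) z ∈ v.asIdeal := by
      rw [hv]
      exact s2_mem_under w z hzw
    have hv2 : (2 : O) ∉ v.asIdeal := by
      intro h
      rw [hv, Ideal.under_def, Ideal.mem_comap, map_ofNat] at h
      exact h2 h
    have hvP1 : v ∉ P1 := fun h => hzP1 v h hzv
    refine hd w v hv ?_ (2 * N * a) hzw
    intro hdv
    refine hzP2 v ?_ hzv
    rw [hP2, Finset.mem_filter]
    refine ⟨?_, hv2, hvP1⟩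
    rw [Set.Finite.mem_toFinset]
    exact hdv

end H55N
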