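import Mathlib
import Pool.Agent.Lib.H55N.S2
import Pool.Agent.Lib.H55N.H1
import Pool.Agent.Lib.H55B.X1
import Pool.Agent.Lib.H55C.B9

open NumberField IsDedekindDomain

namespace H55N

open H55B H55C

theorem S3_two_dvd_cj {x : O} (h : (2 : O) ∣ cj x) : (2 : O) ∣ x := by
  obtain ⟨z, hz⟩ := h
  refine ⟨cj z, ?_⟩
  have h1 := congrArg cj hz
  rw [cj_cj, map_mul, map_ofNat] at h1
  exact h1

theorem S3_odd {x : O} (h : ¬ (2 : O) ∣ x) : Odd (Nm x) := by
  by_contra hc
  rw [Nat.not_odd_iff_even] at hc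
  obtain ⟨k, hk⟩ := hc
  have h1 : (2 : O) ∣ x * cj x := by
    rw [mul_cj, hk]
    push_cast
    exact ⟨k, by ring⟩
  rcases two_prime.dvd_or_dvd h1 with h2 | h2
  · exact h h2
  · exact h (S3_two_dvd_cj h2)

theorem S3_Unit2_e {x : O} (h : ¬ (2 : O) ∣ x) : Unit2 (e x) := fun A hA =>
  val_e_odd A hA x (S3_odd h)

theorem S3_two_not_dvd_lam : ¬ (2 : O) ∣ om - 1 := by
  intro h
  have h1 := (two_prime.irreducible.dvd_symm lam_prime.irreducible h)
  obtain ⟨t, ht⟩ := h1
  apply lam_prime.not_isUnit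
  apply isUnit_of_dvd_one
  refine ⟨-om ^ 2 * (om - 1) - t, ?_⟩
  have h3 := three_eq
  linear_combination h3 - ht

theorem S3_om_pow (n : ℕ) (hn : ¬ 3 ∣ n) : ¬ (2 : O) ∣ om ^ n - 1 := by
  have h3 : om ^ 3 = (1 : O) := Z3_om_cube
  have h1 : om ^ n = om ^ (n % 3) := by
    conv_lhs => rw [← Nat.div_add_mod n 3, pow_add, pow_mul, h3, one_pow, one_mul]
  rw [h1]
  have h2 : n % 3 = 1 ∨ n % 3 = 2 := by omega
  rcases h2 with h2 | h2
  · rw [h2, pow_one]
    exact S3_two_not_dvd_lam
  · rw [h2]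
    intro h
    apply S3_two_not_dvd_lam
    obtain ⟨t, ht⟩ := h
    refine ⟨-om * t, ?_⟩
    linear_combination (-om) * ht + h3

theorem S3_absNorm_prime (v : HeightOneSpectrum O) (h3 : (3 : O) ∉ v.asIdeal)
    (h2 : (2 : O) ∉ v.asIdeal) (hg : ¬ (2 : O) ∣ gen v - 1) : (Ideal.absNorm v.asIdeal).Prime := by
  have hp := gen_prime v h3
  have hgs := gen_spec v h3
  have hN : Ideal.absNorm v.asIdeal = Nm (gen v) := by
    unfold Nm
    rw [← hgs.1]
  rw [hN]
  have hN1 : Nm (gen v) ≠ 1 := fun h => hp.not_isUnit (Nm_eq_one.1 h)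
  have hN0 : Nm (gen v) ≠ 0 := fun h => hp.ne_zero (Nm_eq_zero.1 h)
  -- a rational prime divisible by gen v
  obtain ⟨q, hq, hqN, hgq⟩ : ∃ q : ℕ, q.Prime ∧ q ∣ Nm (gen v) ∧ gen v ∣ (q : O) := by
    have h1 : gen v ∣ ((Nm (gen v) : ℕ) : O) := ⟨cj (gen v), (mul_cj _).symm⟩
    have h4 : ∀ n : ℕ, n ≠ 0 → gen v ∣ (n : O) → ∃ q : ℕ, q.Prime ∧ q ∣ n ∧ gen v ∣ (q : O) := by
      intro n
      induction n using Nat.strong_induction_on with
      | _ n ih =>
        intro hn0 hn
        by_cases hn1 : n = 1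
        · rw [hn1, Nat.cast_one] at hn
          exact absurd (isUnit_of_dvd_one hn) hp.not_isUnit
        · have hq := Nat.minFac_prime hn1
          obtain ⟨k, hk⟩ := Nat.minFac_dvd n
          rw [hk, Nat.cast_mul] at hn
          rcases hp.dvd_or_dvd hn with h5 | h5
          · exact ⟨_, hq, Nat.minFac_dvd n, h5⟩
          · have hk0 : k ≠ 0 := by
              rintro rfl
              rw [mul_zero] at hk
              exact hn0 hk
            have hlt : k < n := by
              have := hq.two_le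
              have h6 : k < n.minFac * k := by nlinarith [Nat.pos_of_ne_zero hk0]
              rwa [← hk] at h6
            obtain ⟨q, h7, h8, h9⟩ := ih k hlt hk0 h5
            exact ⟨q, h7, h8.trans ⟨n.minFac, by rw [mul_comm]; exact hk⟩, h9⟩
    exact h4 _ hN0 h1
  obtain ⟨h, hh⟩ := hgq
  have hNq : Nm ((q : ℕ) : O) = q ^ 2 := by
    have h1 := Nm_repr (q : ℤ) 0
    push_cast at h1
    rw [zero_mul, add_zero] at h1
    have h5 : ((Nm ((q : ℕ) : O) : ℕ) : ℤ) = ((q ^ 2 : ℕ) : ℤ) := by
      rw [h1]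
      push_cast
      ring
    exact_mod_cast h5
  have hmul : Nm (gen v) * Nm h = q ^ 2 := by rw [← Nm_mul, ← hh, hNq]
  have hdvd : Nm (gen v) ∣ q ^ 2 := ⟨Nm h, hmul.symm⟩
  rcases (Nat.dvd_prime_pow hq).1 hdvd with ⟨i, hi, hi2⟩
  interval_cases i
  · rw [pow_zero] at hi2
    exact absurd hi2 hN1
  · rw [pow_one] at hi2
    rw [hi2]
    exact hq
  · exfalso
    rw [hi2] at hmul
    have hq0 : 0 < q ^ 2 := pow_pos hq.pos 2
    have h5 : Nm h = 1 := by
      have h6 : q ^ 2 * Nm h = q ^ 2 * 1 := by rw [mul_one]; exact hmul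
      exact Nat.eq_of_mul_eq_mul_left hq0 h6
    have hunit := Nm_eq_one.1 h5
    have hassoc : Associated (gen v) (q : O) := by
      obtain ⟨u, hu⟩ := hunit
      exact ⟨u, by rw [hu, hh]⟩
    have hq3 : ¬ 3 ∣ q := by
      intro h6
      have h7 : q = 3 := ((Nat.prime_dvd_prime_iff_eq Nat.prime_three hq).1 h6).symm
      apply h3
      rw [hgs.1, Ideal.mem_span_singleton]
      rw [h7] at hh
      exact ⟨h, by rw [← hh]; norm_num⟩
    have hq2 : ¬ 2 ∣ q := by
      intro h6
      have h7 : q = 2 := ((Nat.prime_dvd_prime_iff_eq Nat.prime_two hq).1 h6).symm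
      apply h2
      rw [hgs.1, Ideal.mem_span_singleton]
      rw [h7] at hh
      exact ⟨h, by rw [← hh]; norm_num⟩
    have h8 : q % 3 = 1 ∨ q % 3 = 2 := by omega
    rcases h8 with h8 | h8
    · have hpr : Prim (q : O) := by
        refine ⟨((q / 3 : ℕ) : O), ?_⟩
        have h9 : q = 3 * (q / 3) + 1 := by omega
        have h10 : ((q : ℕ) : O) = ((3 * (q / 3) + 1 : ℕ) : O) := by rw [← h9]
        rw [h10]
        push_cast
        ring
      have h11 := hgs.2.eq_of_associated hpr hassoc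
      apply hg
      rw [h11]
      refine ⟨((q / 2 : ℕ) : O), ?_⟩
      have h9 : q = 2 * (q / 2) + 1 := by omega
      have h10 : ((q : ℕ) : O) = ((2 * (q / 2) + 1 : ℕ) : O) := by rw [← h9]
      rw [h10]
      push_cast
      ring
    · have hpr : Prim (-(q : O)) := by
        refine ⟨-((q / 3 : ℕ) : O) - 1, ?_⟩
        have h9 : q = 3 * (q / 3) + 2 := by omega
        have h10 : ((q : ℕ) : O) = ((3 * (q / 3) + 2 : ℕ) : O) := by rw [← h9]
        rw [h10]
        push_cast
        ring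
      have h11 := hgs.2.eq_of_associated hpr hassoc.neg_right
      apply hg
      rw [h11]
      refine ⟨-((q / 2 : ℕ) : O) - 1, ?_⟩
      have h9 : q = 2 * (q / 2) + 1 := by omega
      have h10 : ((q : ℕ) : O) = ((2 * (q / 2) + 1 : ℕ) : O) := by rw [← h9]
      rw [h10]
      push_cast
      ring

theorem S3_prime_over {K : Type} [Field K] [NumberField K] [Algebra F K]
    (v : HeightOneSpectrum O) (I : Ideal (𝓞 K)) (hI : I ≠ 0)
    (h : Ideal.relNorm O I ≤ v.asIdeal) :
    ∃ w : HeightOneSpectrum (𝓞 K), I ≤ w.asIdeal ∧ v.asIdeal = w.asIdeal.under O := by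
  induction I using UniqueFactorizationMonoid.induction_on_prime with
  | h₁ => exact absurd rfl hI
  | h₂ x hx =>
    rw [Ideal.isUnit_iff] at hx
    rw [hx, ← Ideal.one_eq_top, map_one, Ideal.one_eq_top, top_le_iff] at h
    exact absurd h v.isPrime.ne_top
  | h₃ x p hx hp ih =>
    rw [map_mul] at h
    rcases v.isPrime.mul_le.1 h with h1 | h1
    · let w : HeightOneSpectrum (𝓞 K) := ⟨p, Ideal.isPrime_of_prime hp, hp.ne_zero⟩
      obtain ⟨v', hv'⟩ := H1_below w
      refine ⟨w, Ideal.mul_le_left, ?_⟩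
      · have : w.asIdeal.LiesOver v'.asIdeal := ⟨hv'⟩
        have := w.isMaximal
        have := v'.isMaximal
        have h2 : Ideal.relNorm O w.asIdeal = v'.asIdeal ^ w.asIdeal.inertiaDeg O :=
          Ideal.relNorm_eq_pow_of_isMaximal w.asIdeal v'.asIdeal
        have h3 : v'.asIdeal ^ w.asIdeal.inertiaDeg O ≤ v.asIdeal := by rw [← h2]; exact h1
        have h4 := v.isPrime.le_of_pow_le h3
        have h5 := v'.isMaximal.eq_of_le v.isPrime.ne_top h4
        rw [← hv', h5]
    · obtain ⟨w, hw, hw2⟩ := ih hx h1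
      exact ⟨w, (Ideal.mul_le_right).trans hw, hw2⟩

theorem S3_intNorm_algebraMap (K : Type) [Field K] [NumberField K] [Algebra F K] (x : O) :
    Algebra.intNorm O (𝓞 K) (algebraMap O (𝓞 K) x) = x ^ Module.finrank F K := by
  apply RingOfIntegers.coe_injective
  rw [Algebra.algebraMap_intNorm (A := O) (K := F) (L := K) (B := 𝓞 K), map_pow]
  exact Algebra.norm_algebraMap (algebraMap O F x)

/-- Chunk S3 (M), smoothing primes. z from exists_elt, y = intNorm z. y = 1 mod 3 (norm_congr with m = 3), so y is primary. y = om^n mod 2,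
n = finrank (norm_congr with m = 2; intNorm (algebraMap om) = om^n), and 2 does not divide om^n - 1 because 3 does not divide n. By
H55B.X1_ind there is v with 3 not in v, y in v and 2 not dividing gen v - 1 (so 2 is not a cube modulo v: the other
direction is in H55B.X1, where a cube gives gen v = 1 mod 2; hence Good v). 2 is not in v (otherwise v = (2), y in (2), but
y = om^n mod 2 is a unit mod 2). v is not in P. There is a prime w of K containing z with w over v: relNorm (span z) = span y <= v; if all prime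
factors w of span z were over other primes, relNorm (span z), a product of powers of those, would not be contained in v
(relNorm_eq_pow_of_isMaximal, or exists_relNorm_eq_pow_of_isPrime). inertiaDeg w = 1, so absNorm w = absNorm v (absNorm_inertia) and
Psi w = psiF v = conj(e(gen v)). absNorm v is prime: otherwise v = (q) for a rational prime q (v contains a rational prime q,
absNorm v is q or q^2 as it divides q^2 = absNorm (q); in the second case v = (q)), gen v is associated to q, and gen v = q or -q (the one which is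
1 mod 3: Prim.eq_of_associated), q odd, so 2 divides gen v - 1, a contradiction. Units: Nm (1 - gen v) and Nm (1 + gen v) are odd
(2 is a prime of O; 2 | Nm x implies 2 | x), val_e_odd (H55B.D0), Unit2.conj. -/
theorem exists_smoothing (K : Type) [Field K] [NumberField K] [Algebra F K]
    (hn : ¬ 3 ∣ Module.finrank F K) (P : Finset (HeightOneSpectrum O)) :
    ∃ w : HeightOneSpectrum (𝓞 K), (∀ v ∈ P, v.asIdeal ≠ w.asIdeal.under O) ∧
      (∀ v : HeightOneSpectrum O, v.asIdeal = w.asIdeal.under O → H55C.Good v) ∧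
      (Ideal.absNorm w.asIdeal).Prime ∧
      Unit2 (1 - Psi K w.asIdeal) ∧ Unit2 (1 + Psi K w.asIdeal) := by
  obtain ⟨z, hz2, hz3, hzP, hzd⟩ := exists_elt K P
  set y := Algebra.intNorm O (𝓞 K) z with hy
  have hy3 : Prim y := by
    have h1 : z - 1 ∈ Ideal.span {algebraMap O (𝓞 K) 3} := by
      rw [map_ofNat]; exact hz3
    have h2 := norm_congr 3 z 1 h1
    rw [map_one] at h2
    exact h2
  have hy2 : (2 : O) ∣ y - om ^ Module.finrank F K := by
    have h1 : z - algebraMap O (𝓞 K) om ∈ Ideal.span {algebraMap O (𝓞 K) 2} := by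
      rw [map_ofNat]; exact hz2
    have h2 := norm_congr 2 z _ h1
    rw [S3_intNorm_algebraMap] at h2
    exact h2
  have hy1 : ¬ (2 : O) ∣ y - 1 := by
    intro h
    apply S3_om_pow _ hn
    have h1 := dvd_sub h hy2
    have h2 : y - 1 - (y - om ^ Module.finrank F K) = om ^ Module.finrank F K - 1 := by ring
    rwa [h2] at h1
  obtain ⟨v, h3, hyv, hg⟩ : ∃ v : HeightOneSpectrum O, (3 : O) ∉ v.asIdeal ∧ y ∈ v.asIdeal ∧
      ¬ (2 : O) ∣ gen v - 1 := by
    by_contra hcon
    push Not at hcon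
    exact hy1 (X1_ind _ y rfl hy3.ne_zero hy3 hcon)
  have h2 : (2 : O) ∉ v.asIdeal := by
    intro h2
    obtain ⟨t, ht⟩ := hy2
    have h4 : om ^ Module.finrank F K ∈ v.asIdeal := by
      have h5 : om ^ Module.finrank F K = y - 2 * t := by linear_combination -ht
      rw [h5]
      exact v.asIdeal.sub_mem hyv (v.asIdeal.mul_mem_right _ h2)
    have h6 : om ∈ v.asIdeal := v.isPrime.mem_of_pow_mem _ h4
    apply v.isPrime.ne_top
    rw [Ideal.eq_top_iff_one, ← Z3_om_cube, pow_succ]
    exact v.asIdeal.mul_mem_left _ h6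
  have hz0 : Ideal.span {z} ≠ (0 : Ideal (𝓞 K)) := by
    intro h
    rw [Ideal.zero_eq_bot, Ideal.span_singleton_eq_bot] at h
    rw [h, Algebra.intNorm_zero] at hy
    exact hy3.ne_zero hy
  obtain ⟨w, hw, hvw⟩ := S3_prime_over v (Ideal.span {z}) hz0 (by
    rw [Ideal.relNorm_singleton, Ideal.span_singleton_le_iff_mem]
    exact hyv)
  rw [Ideal.span_singleton_le_iff_mem] at hw
  have h2w : (2 : 𝓞 K) ∉ w.asIdeal := by
    intro h
    apply h2
    rw [hvw, Ideal.under_def, Ideal.mem_comap, map_ofNat]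
    exact h
  have hdeg := hzd w h2w hw
  have habs : Ideal.absNorm w.asIdeal = Ideal.absNorm v.asIdeal := by
    rw [absNorm_inertia K w v hvw, hdeg, pow_one]
  have hPsi : Psi K w.asIdeal = (starRingEnd ℂ) (e (gen v)) := by
    rw [Psi_prime w v hvw, hdeg, pow_one, psiF_prime v h3]
  refine ⟨w, ?_, ?_, ?_, ?_, ?_⟩
  · intro v' hv' h
    have hvv : v' = v := HeightOneSpectrum.ext (h.trans hvw.symm)
    rw [hvv] at hv'
    exact hzP v hv' h2 hyv
  · intro v' hv'
    have hvv : v' = v := HeightOneSpectrum.ext (hv'.trans hvw.symm)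
    rw [hvv]
    exact ⟨h2, h3, fun ⟨x, hx⟩ => hg (even_norm v h3 h2 x hx)⟩
  · rw [habs]
    exact S3_absNorm_prime v h3 h2 hg
  · rw [hPsi]
    have h4 : 1 - (starRingEnd ℂ) (e (gen v)) = (starRingEnd ℂ) (e (1 - gen v)) := by
      rw [map_sub, map_sub, map_one, map_one]
    rw [h4]
    apply Unit2.conj
    apply S3_Unit2_e
    rintro ⟨t, ht⟩
    exact hg ⟨-t, by linear_combination -ht⟩
  · rw [hPsi]
    have h4 : 1 + (starRingEnd ℂ) (e (gen v)) = (starRingEnd ℂ) (e (1 + gen v)) := by
      rw [map_add, map_add, map_one, map_one]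
    rw [h4]
    apply Unit2.conj
    apply S3_Unit2_e
    rintro ⟨t, ht⟩
    exact hg ⟨t - 1, by linear_combination ht⟩

end H55N
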