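import Mathlib
import Pool.Agent.Lib.H55C.BSDTwo

open NumberField IsDedekindDomain

namespace H55N

open H55B H55C

/-- K is contained in a Galois 2-extension L of F unramified outside the good primes. (Equivalently: K is obtained from F by
successive quadratic extensions, and K/F is unramified outside the good primes.) -/
def Sub2 (K : Type) [Field K] [NumberField K] [Algebra F K] : Prop :=
  ∃ (L : Type) (_ : Field L) (_ : NumberField L) (_ : Algebra F L) (_ : Algebra K L)
    (_ : IsScalarTower F K L), TwoExt L ∧ UnrOut L

theorem Sub2.of_twoExt {K : Type} [Field K] [NumberField K] [Algebra F K] (hT : TwoExt K)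
    (hU : UnrOut K) : Sub2 K :=
  ⟨K, inferInstance, inferInstance, inferInstance, Algebra.id K, inferInstance, hT, hU⟩

end H55N
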