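import Mathlib
import Pool.Agent.Lib.H55N.H0
import Pool.Agent.Lib.H55C.B9

open NumberField IsDedekindDomain

namespace H55N

open H55B H55C

/-! Chunk T0 (S/M): first properties of subfields K of a Galois 2-extension L (Sub2). degree: [K:F] divides [L:F] = 2^k
(Module.finrank_mul_finrank). unr: for w of K take a prime W of L above w (exists: integral extension); the ramification index is multiplicative in the
tower O, 𝓞 K, 𝓞 L (Ideal.ramificationIdx_tower or similar), e(W|v) = 1, so e(w|v) = 1. inertia: the inertia degree is multiplicative too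
(Ideal.inertiaDeg_tower), and inertiaDeg of W over O is a power of 2 (H55C.inertia_pow). -/

variable {K : Type} [Field K] [NumberField K] [Algebra F K]

theorem T0_above (L : Type) [Field L] [NumberField L] [Algebra F L] [Algebra K L]
    [IsScalarTower F K L] (w : HeightOneSpectrum (𝓞 K)) :
    ∃ W : HeightOneSpectrum (𝓞 L), W.asIdeal.LiesOver w.asIdeal ∧
      w.asIdeal.under O = W.asIdeal.under O := by
  have hm := w.isMaximal
  obtain ⟨Q, hQ1, hQ2⟩ := Ideal.exists_maximal_ideal_liesOver_of_isIntegral (S := 𝓞 L) w.asIdeal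
  refine ⟨⟨Q, hQ1.isPrime, Ideal.ne_bot_of_liesOver_of_ne_bot w.ne_bot Q⟩, hQ2, ?_⟩
  show w.asIdeal.under O = Q.under O
  rw [hQ2.over, Ideal.under_under]

theorem Sub2.degree (h : Sub2 K) : ∃ k : ℕ, Module.finrank F K = 2 ^ k := by
  obtain ⟨L, _, _, _, _, _, ⟨-, k, hk⟩, -⟩ := h
  have h1 := Module.finrank_mul_finrank F K L
  have h2 : Module.finrank F K ∣ 2 ^ k := by
    rw [← hk, ← h1]
    exact dvd_mul_right _ _
  obtain ⟨j, -, hj⟩ := (Nat.dvd_prime_pow Nat.prime_two).1 h2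
  exact ⟨j, hj⟩

theorem Sub2.unr (h : Sub2 K) : UnrOut K := by
  obtain ⟨L, _, _, _, _, _, -, hU⟩ := h
  intro w v hv hg
  obtain ⟨W, hW, hW2⟩ := T0_above L w
  have h1 := hU W v (hv.trans hW2) hg
  have h2 := Ideal.ramificationIdx_tower (R := O) w.asIdeal W.asIdeal
  rw [h1] at h2
  exact Nat.eq_one_of_mul_eq_one_right h2.symm

theorem Sub2.inertia (h : Sub2 K) (w : HeightOneSpectrum (𝓞 K)) :
    ∃ j : ℕ, w.asIdeal.inertiaDeg O = 2 ^ j := by
  obtain ⟨L, _, _, _, _, _, ⟨hG, k, hk⟩, -⟩ := h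
  obtain ⟨W, hW, hW2⟩ := T0_above L w
  obtain ⟨j, hj⟩ := inertia_pow hG k hk W
  have h2 := Ideal.inertiaDeg_tower (R := O) w.asIdeal W.asIdeal
  have h3 : w.asIdeal.inertiaDeg O ∣ 2 ^ j := by
    rw [← hj, h2]
    exact dvd_mul_right _ _
  obtain ⟨i, -, hi⟩ := (Nat.dvd_prime_pow Nat.prime_two).1 h3
  exact ⟨i, hi⟩

end H55N
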