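import Mathlib
import Pool.Agent.Lib.H55N.H2

open NumberField IsDedekindDomain

namespace H55N

open H55B H55C

theorem H15_cpow {r : ℝ} (hr : 0 < r) (w : ℂ) : (r : ℂ) ^ w = Complex.exp ((Real.log r : ℂ) * w) := by
  rw [Complex.cpow_def_of_ne_zero (by exact_mod_cast hr.ne'), Complex.ofReal_log hr.le]

open Classical in
/-- Chunk H15 (S), the terms. absNorm a * absNorm b = absNorm (span x) = |emb N x|^2 (absNorm_span), positive reals, so
absNorm(a)^(-s) = absNorm(b)^s |emb N x|^(-2s) (Complex.cpow on positive reals: write everything as exp of real logarithms, or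
Complex.mul_cpow_ofReal_nonneg, Complex.cpow_neg). nf s x = conj u |u|^(-2s), u = emb N x. For the weights: a <= c i iff x in c i:
x in c i gives a b <= c i, c i prime and b not <= c i (b + c i = 1, c i <> 1); conversely x in a b <= a <= c i. So the product is
gw c p x (if true then 1 - p else 1, Finset.prod_congr; gw uses classical decidability as well). -/
theorem term_eq {K : Type} [Field K] [NumberField K] [Algebra F K] {m : ℕ}
    (h : Ideal (𝓞 K) → ℂ) (κ : ℂ) (a b : Ideal (𝓞 K)) (x : 𝓞 K) (hx : x ≠ 0)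
    (hab : a * b = Ideal.span {x})
    (hh : h a = κ * (starRingEnd ℂ) (emb (Algebra.norm F (x : K)))) (s : ℂ) :
    tm h s a = κ * (Ideal.absNorm b : ℂ) ^ s * nf s x ∧
    ∀ (c : Fin (m + 1) × Fin 2 → Ideal (𝓞 K)) (p : Fin (m + 1) × Fin 2 → ℕ),
      (∀ i, (c i).IsPrime) → (∀ i, IsCoprime b (c i)) →
      tm h s a * ∏ i, (if a ≤ c i then 1 - (p i : ℂ) else 1) =
        κ * (Ideal.absNorm b : ℂ) ^ s * (gw c p x * nf s x) := by
  have hx0 : Ideal.span {x} ≠ ⊥ := fun h => hx (Ideal.span_singleton_eq_bot.1 h)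
  have ha0 : a ≠ ⊥ := by
    rintro rfl
    apply hx0
    rw [← hab]
    exact zero_mul b
  have hb0 : b ≠ ⊥ := by
    rintro rfl
    apply hx0
    rw [← hab]
    exact mul_zero a
  have hA : (0 : ℝ) < (Ideal.absNorm a : ℝ) := by
    have h1 : Ideal.absNorm a ≠ 0 := fun h => ha0 (Ideal.absNorm_eq_zero_iff.1 h)
    exact_mod_cast Nat.pos_of_ne_zero h1
  have hB : (0 : ℝ) < (Ideal.absNorm b : ℝ) := by
    have h1 : Ideal.absNorm b ≠ 0 := fun h => hb0 (Ideal.absNorm_eq_zero_iff.1 h)
    exact_mod_cast Nat.pos_of_ne_zero h1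
  have hAB : (Ideal.absNorm a : ℝ) * (Ideal.absNorm b : ℝ) =
      ‖emb (Algebra.norm F (x : K))‖ ^ 2 := by
    rw [← absNorm_span, ← hab, map_mul, Nat.cast_mul]
  set r : ℝ := ‖emb (Algebra.norm F (x : K))‖ with hr
  have hr0 : 0 < r := by
    have h1 : 0 ≤ r := norm_nonneg _
    have h2 : r ≠ 0 := by
      intro h3
      rw [h3] at hAB
      have : 0 < (Ideal.absNorm a : ℝ) * (Ideal.absNorm b : ℝ) := mul_pos hA hB
      rw [hAB] at this
      norm_num at this
    exact lt_of_le_of_ne h1 (Ne.symm h2)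
  have hlog : Real.log (Ideal.absNorm a : ℝ) = 2 * Real.log r - Real.log (Ideal.absNorm b : ℝ) := by
    have h1 := congrArg Real.log hAB
    rw [Real.log_mul hA.ne' hB.ne', Real.log_pow] at h1
    push_cast at h1
    linarith
  have hkey : (Ideal.absNorm a : ℂ) ^ (-s) = (Ideal.absNorm b : ℂ) ^ s * (r : ℂ) ^ (-2 * s) := by
    have e1 : (Ideal.absNorm a : ℂ) = ((Ideal.absNorm a : ℝ) : ℂ) := by push_cast; rfl
    have e2 : (Ideal.absNorm b : ℂ) = ((Ideal.absNorm b : ℝ) : ℂ) := by push_cast; rfl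
    rw [e1, e2, H15_cpow hA, H15_cpow hB, H15_cpow hr0, ← Complex.exp_add, hlog]
    congr 1
    push_cast
    ring
  have hmain : tm h s a = κ * (Ideal.absNorm b : ℂ) ^ s * nf s x := by
    unfold tm nf H55B.g
    rw [hh, hkey]
    ring
  refine ⟨hmain, fun c p hc hbc => ?_⟩
  have hprod : ∏ i, (if a ≤ c i then 1 - (p i : ℂ) else 1) = gw c p x := by
    unfold gw
    refine Finset.prod_congr rfl fun i _ => ?_
    have hiff : a ≤ c i ↔ x ∈ c i := by
      constructor
      · intro h1
        apply h1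
        have h2 : x ∈ a * b := by rw [hab]; exact Ideal.mem_span_singleton_self x
        exact Ideal.mul_le_left h2
      · intro h1
        have h2 : a * b ≤ c i := by
          rw [hab, Ideal.span_singleton_le_iff_mem]
          exact h1
        rcases (hc i).mul_le.1 h2 with h3 | h3
        · exact h3
        · exfalso
          have h4 := Ideal.isCoprime_iff_sup_eq.1 (hbc i)
          rw [sup_eq_right.2 h3] at h4
          exact (hc i).ne_top h4
    by_cases h1 : a ≤ c i
    · rw [if_pos h1, if_pos (hiff.1 h1)]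
    · rw [if_neg h1, if_neg fun h2 => h1 (hiff.2 h2)]
  rw [hprod, hmain]
  ring

end H55N
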