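import Mathlib
import Pool.Agent.Lib.H55C.B9
import Pool.Agent.Lib.H55N.H1
import Pool.Agent.Lib.H55N.H13
import Pool.Agent.Lib.H55N.H15
import Pool.Agent.Lib.H55N.H3
import Pool.Agent.Lib.H55N.H4

open NumberField IsDedekindDomain

namespace H55N

open H55B H55C

/-! Assembly of the twisted L-value (helper19). -/

variable {K : Type} [Field K] [NumberField K] [Algebra F K]

/-- The hypotheses on the coefficients. -/
structure Coef (f : Ideal (𝓞 K)) (ι : Type) (b : ι → Ideal (𝓞 K)) (c₀ : ι → 𝓞 K)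
    (h : Ideal (𝓞 K) →*₀ ℂ) (κ : ι → ℂ) : Prop where
  sup : ∀ a, h a ≠ 0 → a ≠ ⊥ ∧ IsCoprime a (Ideal.span {3} * f)
  nrm : ∀ a, ‖h a‖ ^ 2 ≤ Ideal.absNorm a
  kap : ∀ i, ∀ x ∈ XS (Ideal.span {3} * f * b i) (c₀ i), ∀ a : Ideal (𝓞 K),
    a * b i = Ideal.span {x} →
      x ≠ 0 ∧ h a = κ i * (starRingEnd ℂ) (emb (Algebra.norm F (x : K)))

theorem TW_ne {m : ℕ} {c : Fin (m + 1) × Fin 2 → Ideal (𝓞 K)} {p : Fin (m + 1) × Fin 2 → ℕ}
    (hs : Smooth c p) (i) : c i ≠ ⊥ := by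
  intro h
  have h1 := hs.norm i
  rw [h, Ideal.absNorm_bot] at h1
  exact (hs.prime i).ne_zero h1.symm

theorem TW_inj {m : ℕ} {c : Fin (m + 1) × Fin 2 → Ideal (𝓞 K)} {p : Fin (m + 1) × Fin 2 → ℕ}
    (hs : Smooth c p) : Function.Injective c := by
  intro i j h
  apply hs.inj
  rw [← hs.norm i, ← hs.norm j, h]

theorem series_eq {f : Ideal (𝓞 K)} {ι : Type} [Fintype ι] {b : ι → Ideal (𝓞 K)} {c₀ : ι → 𝓞 K}
    {T : ι → Set (𝓞 K)} (hcd : CD f ι b c₀ T) {h : Ideal (𝓞 K) →*₀ ℂ} {κ : ι → ℂ}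
    (hc : Coef f ι b c₀ h κ) {m : ℕ} {c : Fin (m + 1) × Fin 2 → Ideal (𝓞 K)}
    {p : Fin (m + 1) × Fin 2 → ℕ} (hs : Smooth c p) (hcp : ∀ i, (c i).IsPrime)
    (hbc : ∀ i j, IsCoprime (b i) (c j)) (Z : ι → ℂ → ℂ) (s : ℂ) (hre : 3 / 2 < s.re)
    (hZ : ∀ i, HasSum (fun x : T i => gw c p x * nf s (x : 𝓞 K)) (Z i s)) :
    (∏ i, (1 - (p i : ℂ) * tm h s (c i))) * ∑' a, tm h s a =
      ∑ i, κ i * (Ideal.absNorm (b i) : ℂ) ^ s * Z i s := by
  classical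
  have hsum : Summable fun a => ‖tmH h s a‖ := tm_summable h hc.nrm s hre
  have h1 := smooth_sum (tmH h s) hsum c hcp (TW_ne hs) (TW_inj hs) (fun i => (p i : ℂ))
  have h2 := cd_hasSum f ι b c₀ T hcd
    (fun a => tmH h s a * ∏ i, (if a ≤ c i then 1 - (p i : ℂ) else 1))
    (by
      intro a ha
      have : h a ≠ 0 := by
        intro h0
        apply ha
        show tm h s a * _ = 0
        unfold tm
        rw [h0, zero_mul, zero_mul]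
      exact hc.sup a this)
    (fun i x => κ i * (Ideal.absNorm (b i) : ℂ) ^ s * (gw c p x * nf s x))
    (by
      intro i x hx a ha
      obtain ⟨hx0, hh⟩ := hc.kap i x ((hcd.trans i).sub hx) a ha
      have h3 := (term_eq (m := m) h (κ i) a (b i) x hx0 ha hh s).2 c p hcp (fun j => hbc i j)
      rw [← h3]
      show tm h s a * _ = _
      congr 1)
    (fun i => κ i * (Ideal.absNorm (b i) : ℂ) ^ s * Z i s)
    (fun i => (hZ i).mul_left _)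
  exact h1.unique (by convert h2)

theorem series_eq0 {f : Ideal (𝓞 K)} {ι : Type} [Fintype ι] {b : ι → Ideal (𝓞 K)}
    {c₀ : ι → 𝓞 K} {T : ι → Set (𝓞 K)} (hcd : CD f ι b c₀ T) {h : Ideal (𝓞 K) →*₀ ℂ} {κ : ι → ℂ}
    (hc : Coef f ι b c₀ h κ) (Z : ι → ℂ → ℂ) (s : ℂ)
    (hZ : ∀ i, HasSum (fun x : T i => nf s (x : 𝓞 K)) (Z i s)) :
    HasSum (tm h s) (∑ i, κ i * (Ideal.absNorm (b i) : ℂ) ^ s * Z i s) := by
  classical
  exact cd_hasSum f ι b c₀ T hcd (tm h s)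
    (by
      intro a ha
      have : h a ≠ 0 := by
        intro h0
        apply ha
        unfold tm
        rw [h0, zero_mul]
      exact hc.sup a this)
    (fun i x => κ i * (Ideal.absNorm (b i) : ℂ) ^ s * nf s x)
    (by
      intro i x hx a ha
      obtain ⟨hx0, hh⟩ := hc.kap i x ((hcd.trans i).sub hx) a ha
      exact (term_eq (m := 0) h (κ i) a (b i) x hx0 ha hh s).1)
    (fun i => κ i * (Ideal.absNorm (b i) : ℂ) ^ s * Z i s)
    (fun i => (hZ i).mul_left _)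

theorem TW_cop {f a : Ideal (𝓞 K)} (h3 : IsCoprime a (Ideal.span {(3 : 𝓞 K)}))
    (hf : IsCoprime a f) : IsCoprime a (Ideal.span {3} * f) := IsCoprime.mul_right h3 hf

theorem coef_mul {f : Ideal (𝓞 K)} {ι : Type} {b : ι → Ideal (𝓞 K)} {c₀ : ι → 𝓞 K}
    {χ : Ideal (𝓞 K) →*₀ ℂ} {κ : ι → ℂ} (h0 : ∀ a, ¬ IsCoprime a f → χ a = 0)
    (h1 : ∀ a, ‖χ a‖ ≤ 1)
    (hk : ∀ i, ∀ x ∈ XS (Ideal.span {3} * f * b i) (c₀ i), ∀ a : Ideal (𝓞 K),
      a * b i = Ideal.span {x} →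
        x ≠ 0 ∧ (Psi K * χ) a = κ i * (starRingEnd ℂ) (emb (Algebra.norm F (x : K)))) :
    Coef f ι b c₀ (Psi K * χ) κ where
  sup a ha := by
    have ha' : Psi K a * χ a ≠ 0 := ha
    have hPsi : Psi K a ≠ 0 := left_ne_zero_of_mul ha'
    have hchi : χ a ≠ 0 := right_ne_zero_of_mul ha'
    have hne : a ≠ ⊥ := by
      rintro rfl
      exact hchi (map_zero χ)
    refine ⟨hne, TW_cop ((Psi_ne a hne).1 hPsi) ?_⟩
    by_contra h
    exact hchi (h0 a h)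
  nrm a := by
    show ‖Psi K a * χ a‖ ^ 2 ≤ _
    rw [norm_mul, mul_pow]
    have h2 := Psi_norm_le (K := K) a
    have h3 : ‖χ a‖ ^ 2 ≤ 1 := pow_le_one₀ (norm_nonneg _) (h1 a)
    calc ‖Psi K a‖ ^ 2 * ‖χ a‖ ^ 2 ≤ ‖Psi K a‖ ^ 2 * 1 :=
          mul_le_mul_of_nonneg_left h3 (by positivity)
      _ = ‖Psi K a‖ ^ 2 := mul_one _
      _ ≤ _ := h2
  kap := hk

theorem QChr.norm_le {f : Ideal (𝓞 K)} {χ : Ideal (𝓞 K) →*₀ ℂ} (h : QChr f χ) (a : Ideal (𝓞 K)) :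
    ‖χ a‖ ≤ 1 := by
  by_cases ha : a = ⊥
  · subst ha
    have : χ (⊥ : Ideal (𝓞 K)) = 0 := map_zero χ
    rw [this, norm_zero]
    exact zero_le_one
  by_cases hc : IsCoprime a f
  · rcases h.val a ha hc with h1 | h1 <;> rw [h1] <;> simp
  · rw [h.zero a hc, norm_zero]
    exact zero_le_one

open Classical in
theorem oneI_norm_le (f a : Ideal (𝓞 K)) : ‖oneI f a‖ ≤ 1 := by
  show ‖(if a ≠ ⊥ ∧ IsCoprime a f then (1 : ℂ) else 0)‖ ≤ 1
  split_ifs <;> simp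

open Classical in
theorem oneI_zero (f a : Ideal (𝓞 K)) (h : ¬ IsCoprime a f) : oneI f a = 0 := by
  show (if a ≠ ⊥ ∧ IsCoprime a f then (1 : ℂ) else 0) = 0
  rw [if_neg fun h1 => h h1.2]

open Classical in
theorem oneI_eq (f a : Ideal (𝓞 K)) : oneI f a = 1 ∨ oneI f a = 0 := by
  show (if a ≠ ⊥ ∧ IsCoprime a f then (1 : ℂ) else 0) = 1 ∨
    (if a ≠ ⊥ ∧ IsCoprime a f then (1 : ℂ) else 0) = 0
  split_ifs <;> simp

/-- The functions n^s are entire. -/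
theorem TW_pow_analytic (n : ℕ) (hn : n ≠ 0) (U : Set ℂ) :
    AnalyticOnNhd ℂ (fun s : ℂ => (n : ℂ) ^ s) U := by
  have h : (n : ℂ) ≠ 0 := Nat.cast_ne_zero.2 hn
  have h1 : (fun s : ℂ => (n : ℂ) ^ s) = fun s => Complex.exp (Complex.log n * s) := by
    funext s
    rw [Complex.cpow_def_of_ne_zero h]
  rw [h1]
  intro s _
  exact (analyticAt_const.mul analyticAt_id).cexp

theorem TW_tm_analytic (h : Ideal (𝓞 K) → ℂ) (a : Ideal (𝓞 K)) (ha : a ≠ ⊥) (U : Set ℂ) :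
    AnalyticOnNhd ℂ (fun s : ℂ => tm h s a) U := by
  have hn : Ideal.absNorm a ≠ 0 := by
    rw [Ne, Ideal.absNorm_eq_zero_iff]
    exact ha
  have h : (Ideal.absNorm a : ℂ) ≠ 0 := Nat.cast_ne_zero.2 hn
  intro s _
  unfold tm
  have h1 : (fun s : ℂ => (Ideal.absNorm a : ℂ) ^ (-s)) =
      fun s => Complex.exp (Complex.log (Ideal.absNorm a : ℂ) * (-s)) := by
    funext s
    rw [Complex.cpow_def_of_ne_zero h]
  have h2 : AnalyticAt ℂ (fun s : ℂ => (Ideal.absNorm a : ℂ) ^ (-s)) s := by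
    rw [h1]
    exact (analyticAt_const.mul analyticAt_id.neg).cexp
  exact analyticAt_const.mul h2

/-- The factor at a smoothing prime at s = 1. -/
theorem TW_factor (χ : Ideal (𝓞 K) →*₀ ℂ) (c : Ideal (𝓞 K)) (p : ℕ) (hp : p.Prime)
    (hc : Ideal.absNorm c = p) (hu : Unit2 (1 - Psi K c)) (hu' : Unit2 (1 + Psi K c))
    (hχ : χ c = 1 ∨ χ c = -1 ∨ χ c = 0) :
    Unit2 (1 - (p : ℂ) * tm (Psi K * χ : Ideal (𝓞 K) →*₀ ℂ) 1 c) := by
  have h0 : (p : ℂ) ≠ 0 := Nat.cast_ne_zero.2 hp.ne_zero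
  have h1 : (p : ℂ) * tm (Psi K * χ : Ideal (𝓞 K) →*₀ ℂ) 1 c = Psi K c * χ c := by
    unfold tm
    rw [hc, Complex.cpow_neg_one]
    show (p : ℂ) * (Psi K c * χ c * (p : ℂ)⁻¹) = _
    field_simp
  rw [h1]
  rcases hχ with h | h | h
  · rw [h, mul_one]
    exact hu
  · rw [h, mul_neg, mul_one, sub_neg_eq_add]
    exact hu'
  · rw [h, mul_zero, sub_zero]
    exact B9_one

end H55N
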