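import Mathlib
import Pool.Agent.Lib.H55B.H2
import Pool.Agent.Lib.H55C.W8

open NumberField IsDedekindDomain

namespace H55N

open H55B H55C

theorem TW1_halfplane_preconnected (d : ℝ) : IsPreconnected {s : ℂ | d < s.re} :=
  (convex_halfSpace_re_gt d).isPreconnected

theorem TW1_isOpen (d : ℝ) : IsOpen {s : ℂ | d < s.re} :=
  isOpen_lt continuous_const Complex.continuous_re

/-- Identity theorem on a half plane. -/
theorem TW1_ident (d : ℝ) (A B : ℂ → ℂ) (hA : AnalyticOnNhd ℂ A {s | d < s.re})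
    (hB : AnalyticOnNhd ℂ B {s | d < s.re}) (h : ∀ s : ℂ, 3 / 2 < s.re → A s = B s)
    (hd : d < 2) (s : ℂ) (hs : d < s.re) : A s = B s := by
  have h1 : (2 : ℂ) ∈ {s : ℂ | d < s.re} := by simpa using hd
  have h2 : A =ᶠ[nhds (2 : ℂ)] B := by
    have h3 : {s : ℂ | 3 / 2 < s.re} ∈ nhds (2 : ℂ) :=
      (TW1_isOpen (3 / 2)).mem_nhds (by simp; norm_num)
    filter_upwards [h3] with z hz
    exact h z hz
  exact hA.eqOn_of_preconnected_of_eventuallyEq hB (TW1_halfplane_preconnected d) h1 h2 hs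

/-- Chunk TW1 (M), gluing. Put d0 = max(1/2, 3/2 - delta). On the half plane Re s > d0 the functions G and P * Z are analytic and agree for
Re s > 3/2, so they agree (AnalyticOnNhd.eqOn_of_preconnected_of_eventuallyEq; the half plane is convex). Define Lam s = Z s if
Re s > d0, and G s / P s otherwise. For d0 < Re s < 3/2 both formulas agree (P s <> 0). So Lam is analytic at every point with
Re s > 1/2: near points with Re s > d0 it is Z, near points with 1/2 < Re s < 3/2 it is G/P. -/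
theorem glue (δ : ℝ) (hδ : 0 < δ) (G Z P : ℂ → ℂ) (hG : AnalyticOnNhd ℂ G {s | 1 / 2 < s.re})
    (hZ : AnalyticOnNhd ℂ Z {s | 3 / 2 - δ < s.re}) (hP : AnalyticOnNhd ℂ P {s | 1 / 2 < s.re})
    (hP0 : ∀ s : ℂ, s.re < 3 / 2 → P s ≠ 0)
    (h : ∀ s : ℂ, 3 / 2 < s.re → G s = P s * Z s) :
    ∃ Λ : ℂ → ℂ, AnalyticOnNhd ℂ Λ {s | 1 / 2 < s.re} ∧ (∀ s : ℂ, 3 / 2 < s.re → Λ s = Z s) ∧
      ∀ s : ℂ, 1 / 2 < s.re → G s = P s * Λ s := by
  classical
  set d := max (1 / 2) (3 / 2 - δ) with hd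
  have hd1 : 1 / 2 ≤ d := le_max_left _ _
  have hd2 : 3 / 2 - δ ≤ d := le_max_right _ _
  have hd3 : d < 3 / 2 := max_lt (by norm_num) (by linarith)
  have hGd : AnalyticOnNhd ℂ G {s | d < s.re} := hG.mono fun s hs => lt_of_le_of_lt hd1 hs
  have hZd : AnalyticOnNhd ℂ Z {s | d < s.re} := hZ.mono fun s hs => lt_of_le_of_lt hd2 hs
  have hPd : AnalyticOnNhd ℂ P {s | d < s.re} := hP.mono fun s hs => lt_of_le_of_lt hd1 hs
  have key : ∀ s : ℂ, d < s.re → G s = P s * Z s :=
    fun s hs => TW1_ident d G (fun s => P s * Z s) hGd (hPd.mul hZd) h (by linarith) s hs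
  refine ⟨fun s => if d < s.re then Z s else G s / P s, ?_, ?_, ?_⟩
  · intro s hs
    by_cases hs' : d < s.re
    · refine (hZd s hs').congr ?_
      filter_upwards [(TW1_isOpen d).mem_nhds hs'] with z hz
      have hz' : d < z.re := hz
      rw [if_pos hz']
    · have h1 : s.re < 3 / 2 := lt_of_le_of_lt (not_lt.1 hs') hd3
      have h2 : AnalyticAt ℂ (fun z => G z / P z) s := (hG s hs).div (hP s hs) (hP0 s h1)
      refine h2.congr ?_
      have h3 : {z : ℂ | z.re < 3 / 2} ∈ nhds s :=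
        (isOpen_lt Complex.continuous_re continuous_const).mem_nhds h1
      filter_upwards [h3] with z hz
      by_cases hz' : d < z.re
      · rw [if_pos hz', key z hz', mul_comm, mul_div_assoc, div_self (hP0 z hz), mul_one]
      · rw [if_neg hz']
  · intro s hs
    have h1 : d < s.re := lt_trans hd3 hs
    exact if_pos h1
  · intro s hs
    by_cases hs' : d < s.re
    · simp only [if_pos hs']
      exact key s hs'
    · have h1 : s.re < 3 / 2 := lt_of_le_of_lt (not_lt.1 hs') hd3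
      simp only [if_neg hs']
      rw [mul_div_cancel₀ _ (hP0 s h1)]

/-- Identity theorem on the half plane. -/
theorem ident (A B : ℂ → ℂ) (hA : AnalyticOnNhd ℂ A {s | 1 / 2 < s.re})
    (hB : AnalyticOnNhd ℂ B {s | 1 / 2 < s.re}) (h : ∀ s : ℂ, 3 / 2 < s.re → A s = B s) (s : ℂ)
    (hs : 1 / 2 < s.re) : A s = B s :=
  TW1_ident (1 / 2) A B hA hB h (by norm_num) s hs

end H55N
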