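import Mathlib
import Pool.Agent.Lib.H55B.F4
import Pool.Agent.Lib.H55C.B9
import Pool.Agent.Lib.H55N.H1

open NumberField IsDedekindDomain

namespace H55N

open H55B H55C

/-! Chunk TW3 (S): 2-adic units. Efac_unit: Psi w = conj(e pi)^f, pi = gen v, f = inertiaDeg = 2^j (hf), absNorm w = (absNorm v)^f
(absNorm_inertia), absNorm v = e pi * conj (e pi) (gen_mul_conj). So 1 - Psi(w)/N(w) = 1 - (e pi)^(-f) = ((e pi)^f - 1)/(e pi)^f; units by
B9_sq (Unit2 (e pi - 1) because v is good: odd_norm, val_e_odd, see EF_unit in H55C.B9) and B9_odd. Note v is not above 3 by Good.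
Unit2_add: valuation of a sum with different valuations. Int2 rules: valuation rings are rings. P_ne: |Psi c| = p^(1/2), |chi c| <= 1, so
|p Psi(c) chi(c) p^(-s)| <= p^(3/2 - Re s) ... for Re s < 3/2 the modulus is p^(3/2 - Re s) > 1 if chi(c) is not 0 and the factor is 1 if chi(c) = 0. -/

theorem Efac_unit (K : Type) [Field K] [NumberField K] [Algebra F K]
    (w : HeightOneSpectrum (𝓞 K)) (v : HeightOneSpectrum O) (hv : v.asIdeal = w.asIdeal.under O)
    (hg : H55C.Good v) (hf : ∃ j : ℕ, w.asIdeal.inertiaDeg O = 2 ^ j) :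
    Unit2 (1 - tm (Psi K) 1 w.asIdeal) := by
  obtain ⟨h2, h3, hc⟩ := hg
  obtain ⟨j, hj⟩ := hf
  set x := e (gen v) with hx
  have hx1 : Unit2 x := fun A hA => val_e_odd A hA _ (B9_odd v h3 h2)
  have hx2 : Unit2 (x - 1) := by
    intro A hA
    have h4 := val_e_odd A hA _ (odd_norm v h3 h2 hc)
    rw [map_sub, map_one] at h4
    exact h4
  have ha : Unit2 (x ^ 2 ^ j) := hx1.pow _
  have ha1 : Unit2 (x ^ 2 ^ j - 1) := B9_sq hx2 j
  have hx0 := hx1.ne_zero
  have hcx0 := hx1.conj.ne_zero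
  have key : 1 - tm (Psi K) 1 w.asIdeal = (x ^ 2 ^ j - 1) * (x ^ 2 ^ j)⁻¹ := by
    unfold tm
    rw [Psi_prime w v hv, psiF_prime v h3, absNorm_inertia K w v hv, hj, Nat.cast_pow,
      ← gen_mul_conj v h3, ← hx, Complex.cpow_neg_one, mul_pow]
    field_simp
  rw [key]
  exact ha1.mul ha.inv

theorem Unit2_add {x y : ℂ} (hx : Unit2 x) (hy : Int2 y) : Unit2 (x + 2 * y) := by
  intro A hA
  rw [← hx A hA]
  apply Valuation.map_add_eq_of_lt_left
  rw [hx A hA, map_mul]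
  exact mul_lt_one_of_lt_of_le hA (hy A hA)

theorem Int2_add {x y : ℂ} (hx : Int2 x) (hy : Int2 y) : Int2 (x + y) := fun A hA =>
  (Valuation.map_add _ _ _).trans (max_le (hx A hA) (hy A hA))

theorem Int2_mul {x y : ℂ} (hx : Int2 x) (hy : Int2 y) : Int2 (x * y) := fun A hA => by
  rw [map_mul]
  exact mul_le_one' (hx A hA) (hy A hA)

theorem Int2_neg {x : ℂ} (hx : Int2 x) : Int2 (-x) := fun A hA => by
  rw [Valuation.map_neg]
  exact hx A hA

theorem Int2_zero : Int2 0 := fun A _ => by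
  rw [map_zero]
  exact zero_le

theorem Int2_nat (n : ℕ) : Int2 (n : ℂ) := fun A _ => by
  rw [ValuationSubring.valuation_le_one_iff]
  exact natCast_mem A n

theorem Int2_of_unit {x : ℂ} (hx : Unit2 x) : Int2 x := fun A hA => (hx A hA).le

theorem Int2_sum {ι : Type} (S : Finset ι) (x : ι → ℂ) (hx : ∀ i ∈ S, Int2 (x i)) :
    Int2 (∑ i ∈ S, x i) := by
  classical
  induction S using Finset.induction_on with
  | empty =>
    rw [Finset.sum_empty]
    exact Int2_zero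
  | insert a S ha ih =>
    rw [Finset.sum_insert ha]
    exact Int2_add (hx a (Finset.mem_insert_self a S))
      (ih fun i hi => hx i (Finset.mem_insert_of_mem hi))

theorem P_ne {K : Type} [Field K] [NumberField K] [Algebra F K] (f : Ideal (𝓞 K))
    (χ : Ideal (𝓞 K) →*₀ ℂ) (hχ : QChr f χ) (c : Ideal (𝓞 K)) (p : ℕ) (hp : p.Prime)
    (hc : Ideal.absNorm c = p) (s : ℂ) (hs : s.re < 3 / 2) :
    1 - (p : ℂ) * tm (Psi K * χ : Ideal (𝓞 K) →*₀ ℂ) s c ≠ 0 := by
  have hp0 : (0 : ℝ) < p := by exact_mod_cast hp.pos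
  have hp1 : (1 : ℝ) < p := by exact_mod_cast hp.one_lt
  have hc0 : c ≠ ⊥ := by
    intro h
    rw [h, Ideal.absNorm_bot] at hc
    exact hp.ne_zero hc.symm
  intro h
  have h1 : (p : ℂ) * tm (Psi K * χ : Ideal (𝓞 K) →*₀ ℂ) s c = 1 := by linear_combination -h
  have h2 : tm (Psi K * χ : Ideal (𝓞 K) →*₀ ℂ) s c = Psi K c * χ c * (p : ℂ) ^ (-s) := by
    unfold tm
    rw [hc]
    rfl
  rw [h2] at h1
  have h3 : Psi K c ≠ 0 := by
    intro h0
    rw [h0] at h1
    simp at h1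
  have h4 : χ c ≠ 0 := by
    intro h0
    rw [h0] at h1
    simp at h1
  have h5 : ‖χ c‖ = 1 := by
    have hcop : IsCoprime c f := by
      by_contra hn
      exact h4 (hχ.zero c hn)
    rcases hχ.val c hc0 hcop with h | h
    · rw [h, NormOneClass.norm_one]
    · rw [h, norm_neg, NormOneClass.norm_one]
  have h6 : ‖Psi K c‖ ^ 2 = p := by
    rw [Psi_norm c hc0 ((Psi_ne c hc0).1 h3), hc]
  have h7 : ‖Psi K c‖ = (p : ℝ) ^ (1 / 2 : ℝ) := by
    rw [← Real.sqrt_eq_rpow, ← h6, Real.sqrt_sq (norm_nonneg _)]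
  have h8 := congrArg norm h1
  rw [norm_mul, norm_mul, norm_mul, h5, h7, NormOneClass.norm_one, Complex.norm_natCast,
    Complex.norm_natCast_cpow_of_pos hp.pos, mul_one, Complex.neg_re] at h8
  have h9 : (p : ℝ) * ((p : ℝ) ^ (1 / 2 : ℝ) * (p : ℝ) ^ (-s.re)) = (p : ℝ) ^ (3 / 2 - s.re) := by
    have h11 : (3 / 2 - s.re) = 1 + (1 / 2 + -s.re) := by ring
    rw [h11, Real.rpow_add hp0, Real.rpow_add hp0, Real.rpow_one]
  rw [h9] at h8
  have h10 : 1 < (p : ℝ) ^ (3 / 2 - s.re) := Real.one_lt_rpow hp1 (by linarith)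
  rw [h8] at h10
  exact lt_irrefl _ h10

end H55N
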