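import Mathlib
import Pool.Agent.Lib.H55C.B6
import Pool.Agent.Lib.H55N.Core
import Pool.Agent.Lib.H55N.H12
import Pool.Agent.Lib.H55N.H14
import Pool.Agent.Lib.H55N.S4
import Pool.Agent.Lib.H55N.T0
import Pool.Agent.Lib.H55N.TW
import Pool.Agent.Lib.H55N.TW1
import Pool.Agent.Lib.H55N.TW2
import Pool.Agent.Lib.H55N.TW3

open NumberField IsDedekindDomain

namespace H55N

open H55B H55C

/-! The twisted L-value (helper19). -/

variable {K : Type} [Field K] [NumberField K] [Algebra F K]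

theorem TWF_cop_two {f : Ideal (𝓞 K)} {χ : Ideal (𝓞 K) →*₀ ℂ} (hχ : QChr f χ) :
    IsCoprime f (Ideal.span {(2 : 𝓞 K)}) := by
  rw [Ideal.isCoprime_iff_sup_eq]
  by_contra h
  obtain ⟨M, hM, hle⟩ := Ideal.exists_le_maximal _ h
  have hf : f ≤ M := le_sup_left.trans hle
  have h2 : (2 : 𝓞 K) ∈ M := hle (Ideal.mem_sup_right (Ideal.mem_span_singleton_self _))
  have hne : M ≠ ⊥ := by
    rintro rfl
    exact hχ.ne (le_bot_iff.1 hf)
  have hg := hχ.good ⟨M, hM.isPrime, hne⟩ (I2_under ⟨M, hM.isPrime, hne⟩) hf rfl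
  apply hg.1
  show algebraMap O (𝓞 K) 2 ∈ M
  rw [map_ofNat]
  exact h2

theorem TWF_lam {f b : Ideal (𝓞 K)} {c₀ : 𝓞 K}
    (hp : ∀ w : HeightOneSpectrum (𝓞 K), Ideal.span {3} * f ≤ w.asIdeal → c₀ ∉ w.asIdeal * b) :
    c₀ ∉ Ideal.span {algebraMap O (𝓞 K) lam} * b := by
  intro h
  have hlamp := lam_prime
  let v : HeightOneSpectrum O := ⟨Ideal.span {om - 1},
    (Ideal.span_singleton_prime hlamp.ne_zero).2 hlamp, by simpa using hlamp.ne_zero⟩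
  obtain ⟨w, hw⟩ := B6_exists (K := K) v
  have h1 : algebraMap O (𝓞 K) lam ∈ w.asIdeal := by
    have h2 : (om - 1 : O) ∈ v.asIdeal := Ideal.mem_span_singleton_self _
    rw [hw] at h2
    exact h2
  refine hp w ?_ ?_
  · refine (Ideal.mul_le_left : Ideal.span {(3 : 𝓞 K)} * f ≤ Ideal.span {(3 : 𝓞 K)}).trans ?_
    rw [Ideal.span_singleton_le_iff_mem]
    have h3 : (3 : 𝓞 K) = algebraMap O (𝓞 K) (-om ^ 2 * (om - 1)) * algebraMap O (𝓞 K) lam := by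
      rw [← map_mul]
      have : -om ^ 2 * (om - 1) * lam = (3 : O) := by
        rw [three_eq]
        unfold lam
        ring
      rw [this, map_ofNat]
    rw [h3]
    exact Ideal.mul_mem_left _ _ h1
  · refine Ideal.mul_mono_left ?_ h
    rw [Ideal.span_singleton_le_iff_mem]
    exact h1

omit [Algebra F K] in
theorem TWF_finite (b : Ideal (𝓞 K)) (hb : b ≠ ⊥) : {w : Ideal (𝓞 K) | b ≤ w}.Finite := by
  refine (Ideal.finite_setOfPred_absNorm_le (S := 𝓞 K) (Ideal.absNorm b)).subset ?_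
  intro w hw
  have h1 : w ∣ b := Ideal.dvd_iff_le.2 hw
  have h2 : Ideal.absNorm w ∣ Ideal.absNorm b := map_dvd _ h1
  refine Nat.le_of_dvd (Nat.pos_of_ne_zero ?_) h2
  rw [Ne, Ideal.absNorm_eq_zero_iff]
  exact hb

theorem TWF_pow_cop (k m : ℕ) (h : 2 ^ k = m + 1) : ¬ 3 ∣ m + 1 := by
  rw [← h]
  intro h3
  have := Nat.Prime.dvd_of_dvd_pow Nat.prime_three h3
  omega

theorem LV_twist (hS2 : Sub2 K) (f : Ideal (𝓞 K)) (χ : Ideal (𝓞 K) →*₀ ℂ)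
    (hχ : QChr f χ) (hL : LV (Psi K)) : LV (Psi K * χ) := by
  classical
  obtain ⟨k, hk⟩ := hS2.degree
  have hU := hS2.unr
  obtain ⟨m, hm2⟩ : ∃ m, 2 ^ k = m + 1 := ⟨2 ^ k - 1, by
    have := Nat.one_le_two_pow (n := k)
    omega⟩
  have hm : Module.finrank F K = m + 1 := hk.trans hm2
  have hm3 : ¬ 3 ∣ m + 1 := TWF_pow_cop k m hm2
  have hn3 : ¬ 3 ∣ Module.finrank F K := by rwa [hm]
  obtain ⟨ι, hι, b, c₀, T, hcd⟩ := exists_CD f hχ.ne
  have hf2 := TWF_cop_two hχ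
  have h6 : ∀ i, IsCoprime (b i) (Ideal.span {(6 : 𝓞 K)}) := fun i => (hcd.cop i).of_mul_right_left
  have h63 : (Ideal.span {(6 : 𝓞 K)} : Ideal (𝓞 K)) = Ideal.span {2} * Ideal.span {3} := by
    rw [Ideal.span_singleton_mul_span_singleton]
    norm_num
  have hb2 : ∀ i, IsCoprime (b i) (Ideal.span {(2 : 𝓞 K)}) := fun i => by
    have := h6 i
    rw [h63] at this
    exact this.of_mul_right_left
  have hlam : ∀ i, c₀ i ∉ Ideal.span {algebraMap O (𝓞 K) lam} * b i := fun i => TWF_lam (hcd.prim i)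
  have hcore := fun i => core K m hm hU (b i) f (hcd.ne i) (hb2 i) hχ.ne hf2 (c₀ i) (hcd.mem i)
    (hlam i)
  choose Bad hBad hcore using hcore
  have hnop := fun i => nopoles K m hm hm3 (b i) f (hcd.ne i) hχ.ne (c₀ i) (hcd.mem i) (hlam i)
  choose Z0 hZ0 hZ0s using hnop
  obtain ⟨c, p, hs, hcb, hun⟩ := exists_smooth K hn3 m
    ((⋃ i, Bad i) ∪ ⋃ i, {w : Ideal (𝓞 K) | b i ≤ w})
    ((Set.finite_iUnion hBad).union (Set.finite_iUnion fun i => TWF_finite (b i) (hcd.ne i)))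
  have hcp : ∀ j, (c j).IsPrime := fun j => (hcb j).1
  have hbc : ∀ i j, IsCoprime (b i) (c j) := by
    intro i j
    rw [Ideal.isCoprime_iff_sup_eq]
    by_contra h
    have hmax : (c j).IsMaximal := (hcp j).isMaximal (TW_ne hs j)
    have h1 : c j ≤ b i ⊔ c j := le_sup_right
    have h2 : b i ⊔ c j = c j := (hmax.eq_of_le h h1).symm
    apply (hcb j).2
    refine Or.inr (Set.mem_iUnion.2 ⟨i, ?_⟩)
    show b i ≤ c j
    rw [← h2]
    exact le_sup_left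
  have hZex := fun i => hcore i c p hs (fun j hj => (hcb j).2 (Or.inl (Set.mem_iUnion.2 ⟨i, hj⟩)))
  choose Z hZa hZs hZi using hZex
  have hkap := fun i => exists_kappa f χ hχ (b i) (hcd.ne i) (hcd.cop i) (c₀ i) (hcd.mem i)
    (hcd.prim i)
  choose κ κ' hκu hκκ hκ using hkap
  have hC : Coef f ι b c₀ (Psi K * χ) κ := coef_mul hχ.zero hχ.norm_le
    (fun i x hx a ha => ⟨(hκ i x hx a ha).1, (hκ i x hx a ha).2.1⟩)
  have hC' : Coef f ι b c₀ (Psi K * oneI f) κ' := coef_mul (oneI_zero f) (oneI_norm_le f)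
    (fun i x hx a ha => ⟨(hκ i x hx a ha).1, (hκ i x hx a ha).2.2⟩)
  have hNb : ∀ i, Ideal.absNorm (b i) ≠ 0 := fun i => by
    rw [Ne, Ideal.absNorm_eq_zero_iff]
    exact hcd.ne i
  -- the smoothed functions
  have hZsum : ∀ i s, 3 / 2 < s.re → HasSum (fun x : T i => gw c p x * nf s (x : 𝓞 K)) (Z i s) :=
    fun i s hs' => hZs i (T i) (hcd.trans i) s hs'
  have e1 : ∀ s : ℂ, 3 / 2 < s.re → (∏ j, (1 - (p j : ℂ) * tm (Psi K * χ : Ideal (𝓞 K) →*₀ ℂ) s (c j))) *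
      ∑' a, tm (Psi K * χ : Ideal (𝓞 K) →*₀ ℂ) s a =
        ∑ i, κ i * (Ideal.absNorm (b i) : ℂ) ^ s * Z i s :=
    fun s hs' => series_eq hcd hC hs hcp hbc Z s hs' fun i => hZsum i s hs'
  have e2 : ∀ s : ℂ, 3 / 2 < s.re → (∏ j, (1 - (p j : ℂ) * tm (Psi K * oneI f : Ideal (𝓞 K) →*₀ ℂ) s (c j))) *
      ∑' a, tm (Psi K * oneI f : Ideal (𝓞 K) →*₀ ℂ) s a =
        ∑ i, κ' i * (Ideal.absNorm (b i) : ℂ) ^ s * Z i s :=
    fun s hs' => series_eq hcd hC' hs hcp hbc Z s hs' fun i => hZsum i s hs'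
  have e3 : ∀ s : ℂ, 3 / 2 < s.re → HasSum (tm (Psi K * χ : Ideal (𝓞 K) →*₀ ℂ) s)
      (∑ i, κ i * (Ideal.absNorm (b i) : ℂ) ^ s * Z0 i s) :=
    fun s hs' => series_eq0 hcd hC Z0 s fun i => hZ0s i (T i) (hcd.trans i) s hs'
  have hGa : ∀ κ : ι → ℂ, AnalyticOnNhd ℂ
      (fun s : ℂ => ∑ i, κ i * (Ideal.absNorm (b i) : ℂ) ^ s * Z i s) {s | 1 / 2 < s.re} := by
    intro κ s hs'
    exact Finset.analyticAt_fun_sum _ fun i _ =>
      (analyticAt_const.mul (TW_pow_analytic _ (hNb i) Set.univ s trivial)).mul (hZa i s hs')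
  have hZ0a : AnalyticOnNhd ℂ
      (fun s : ℂ => ∑ i, κ i * (Ideal.absNorm (b i) : ℂ) ^ s * Z0 i s)
      {s | 3 / 2 - 1 / (2 * (m + 1 : ℝ)) < s.re} := by
    intro s hs'
    exact Finset.analyticAt_fun_sum _ fun i _ =>
      (analyticAt_const.mul (TW_pow_analytic _ (hNb i) Set.univ s trivial)).mul (hZ0 i s hs')
  have hPa : ∀ h : Ideal (𝓞 K) →*₀ ℂ, AnalyticOnNhd ℂ
      (fun s : ℂ => ∏ j, (1 - (p j : ℂ) * tm h s (c j))) {s | 1 / 2 < s.re} := by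
    intro h s hs'
    exact Finset.analyticAt_fun_prod _ fun j _ =>
      (analyticAt_const.sub (analyticAt_const.mul
        (TW_tm_analytic h (c j) (TW_ne hs j) Set.univ s trivial)))
  obtain ⟨Λ, hΛa, hΛ, hΛG⟩ := glue (1 / (2 * (m + 1 : ℝ))) (by positivity)
    (fun s : ℂ => ∑ i, κ i * (Ideal.absNorm (b i) : ℂ) ^ s * Z i s)
    (fun s : ℂ => ∑ i, κ i * (Ideal.absNorm (b i) : ℂ) ^ s * Z0 i s)
    (fun s : ℂ => ∏ j, (1 - (p j : ℂ) * tm (Psi K * χ : Ideal (𝓞 K) →*₀ ℂ) s (c j)))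
    (hGa κ) hZ0a (hPa _)
    (fun s hs' => Finset.prod_ne_zero_iff.2 fun j _ => P_ne f χ hχ (c j) (p j) (hs.prime j)
      (hs.norm j) s hs')
    (fun s hs' => by
      show _ = _ * _
      rw [← e1 s hs', (e3 s hs').tsum_eq])
  refine ⟨Λ, hΛa, fun s hs' => ?_, ?_⟩
  · rw [hΛ s hs']
    exact e3 s hs'
  -- the value at 1
  obtain ⟨ΛK, hKa, hKs, hKu⟩ := hL
  obtain ⟨S, hS, hSs⟩ := one_sum K f hχ.ne
  have e4 : ∀ s : ℂ, 1 / 2 < s.re →
      (∑ i, κ' i * (Ideal.absNorm (b i) : ℂ) ^ s * Z i s) =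
      (∏ j, (1 - (p j : ℂ) * tm (Psi K * oneI f : Ideal (𝓞 K) →*₀ ℂ) s (c j))) *
        ((∏ w ∈ S, (1 - tm (Psi K) s w.asIdeal)) * ΛK s) := by
    intro s hs'
    refine ident (fun s : ℂ => ∑ i, κ' i * (Ideal.absNorm (b i) : ℂ) ^ s * Z i s)
      (fun s : ℂ => (∏ j, (1 - (p j : ℂ) * tm (Psi K * oneI f : Ideal (𝓞 K) →*₀ ℂ) s (c j))) *
        ((∏ w ∈ S, (1 - tm (Psi K) s w.asIdeal)) * ΛK s)) (hGa κ') ?_ ?_ s hs'
    · refine (hPa _).mul (AnalyticOnNhd.mul ?_ hKa)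
      intro z hz
      exact Finset.analyticAt_fun_prod _ fun w _ =>
        (analyticAt_const.sub (TW_tm_analytic (Psi K) w.asIdeal w.ne_bot Set.univ z trivial))
    · intro z hz
      show _ = _ * (_ * _)
      rw [← e2 z hz, (hSs z hz).tsum_eq, (hKs z hz).tsum_eq]
  have h1re : (1 / 2 : ℝ) < (1 : ℂ).re := by norm_num
  have u1 : Unit2 (∏ j, (1 - (p j : ℂ) * tm (Psi K * χ : Ideal (𝓞 K) →*₀ ℂ) 1 (c j))) := by
    refine Unit2.prod _ _ fun j _ => TW_factor χ (c j) (p j) (hs.prime j) (hs.norm j)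
      (hun j).1 (hun j).2 ?_
    by_cases hj : IsCoprime (c j) f
    · rcases hχ.val _ (TW_ne hs j) hj with h | h
      · exact Or.inl h
      · exact Or.inr (Or.inl h)
    · exact Or.inr (Or.inr (hχ.zero _ hj))
  have u2 : Unit2 (∏ j, (1 - (p j : ℂ) * tm (Psi K * oneI f : Ideal (𝓞 K) →*₀ ℂ) 1 (c j))) := by
    refine Unit2.prod _ _ fun j _ => TW_factor (oneI f) (c j) (p j) (hs.prime j) (hs.norm j)
      (hun j).1 (hun j).2 ?_
    rcases oneI_eq f (c j) with h | h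
    · exact Or.inl h
    · exact Or.inr (Or.inr h)
  have u3 : Unit2 (∏ w ∈ S, (1 - tm (Psi K) 1 w.asIdeal)) := by
    exact Unit2.prod _ _ fun w hw => Efac_unit K w (I2_under w) rfl
      (hχ.good w (I2_under w) ((hS w).1 hw) rfl) (hS2.inertia w)
  have u4 : Unit2 ((∑ i, κ' i * (Ideal.absNorm (b i) : ℂ) ^ (1 : ℂ) * Z i 1) /
      R0 ^ Module.finrank F K) := by
    rw [e4 1 h1re, mul_div_assoc, mul_div_assoc]
    exact u2.mul (u3.mul hKu)
  have u5 : Unit2 ((∑ i, κ i * (Ideal.absNorm (b i) : ℂ) ^ (1 : ℂ) * Z i 1) /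
      R0 ^ Module.finrank F K) := by
    have hε : ∀ i, ∃ ε : ℂ, Int2 ε ∧ κ i = κ' i + 2 * ε := by
      intro i
      rcases hκκ i with h | h
      · exact ⟨0, Int2_zero, by rw [h]; ring⟩
      · exact ⟨-κ' i, Int2_neg (Int2_of_unit (hκu i)), by rw [h]; ring⟩
    choose ε hε hεκ using hε
    have : (∑ i, κ i * (Ideal.absNorm (b i) : ℂ) ^ (1 : ℂ) * Z i 1) / R0 ^ Module.finrank F K =
        (∑ i, κ' i * (Ideal.absNorm (b i) : ℂ) ^ (1 : ℂ) * Z i 1) / R0 ^ Module.finrank F K +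
        2 * ∑ i, ε i * ((Ideal.absNorm (b i) : ℕ) : ℂ) * (Z i 1 / R0 ^ (m + 1)) := by
      rw [hm, Finset.mul_sum, Finset.sum_div, Finset.sum_div, ← Finset.sum_add_distrib]
      refine Finset.sum_congr rfl fun i _ => ?_
      rw [hεκ i, Complex.cpow_one]
      ring
    rw [this]
    exact Unit2_add u4 (Int2_sum _ _ fun i _ => Int2_mul (Int2_mul (hε i) (Int2_nat _)) (hZi i))
  have e5 := hΛG 1 h1re
  have hne := u1.ne_zero
  have : Λ 1 / R0 ^ Module.finrank F K =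
      ((∑ i, κ i * (Ideal.absNorm (b i) : ℂ) ^ (1 : ℂ) * Z i 1) / R0 ^ Module.finrank F K) *
      (∏ j, (1 - (p j : ℂ) * tm (Psi K * χ : Ideal (𝓞 K) →*₀ ℂ) 1 (c j)))⁻¹ := by
    rw [e5]
    field_simp
  rw [this]
  exact u5.mul u1.inv

end H55N
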