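import Mathlib
import Pool.Agent.Lib.H55C.Defs

open NumberField IsDedekindDomain

namespace H55N

open H55B H55C

/-! Definitions for the wreath product part (helper19). -/

variable (K K' : Type) [Field K] [NumberField K] [Algebra F K] [Field K'] [NumberField K']
  [Algebra F K'] [Algebra K K']

/-- beta = 1 mod 4 has odd valuation exactly at w, w', two primes above different good primes, w split over F. -/
structure Beta (β : 𝓞 K) (w w' : HeightOneSpectrum (𝓞 K)) : Prop where
  four : (4 : 𝓞 K) ∣ β - 1
  odd : ∃ k : ℤ, w.valuation K (β : K) = WithZero.exp (2 * k + 1)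
  even : ∀ p : HeightOneSpectrum (𝓞 K), p ≠ w → p ≠ w' →
    ∃ k : ℤ, p.valuation K (β : K) = WithZero.exp (2 * k)
  ne : w.asIdeal.under O ≠ w'.asIdeal.under O
  deg : w.asIdeal.inertiaDeg O = 1
  unr : w.asIdeal.ramificationIdx O = 1
  good : ∀ v : HeightOneSpectrum O, v.asIdeal = w.asIdeal.under O → H55C.Good v
  good' : ∀ v : HeightOneSpectrum O, v.asIdeal = w'.asIdeal.under O → H55C.Good v

/-- K' is generated over K by the square roots r g of the conjugates of beta. -/
structure Wr (β : 𝓞 K) (r : (K ≃ₐ[F] K) → K') : Prop where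
  sq : ∀ g, r g ^ 2 = algebraMap K K' (g (β : K))
  gen : Algebra.adjoin K (Set.range r) = ⊤
  gal : IsGalois F K'

/-- The cyclic group of order 2. -/
abbrev C2 : Type := Multiplicative (ZMod 2)

end H55N
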