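import Mathlib
import Pool.Agent.Lib.H55B.F4
import Pool.Agent.Lib.H55C.Y32
import Pool.Agent.Lib.H55N.WD

open NumberField IsDedekindDomain

namespace H55N

open H55B H55C

section

variable {K : Type} [Field K] [NumberField K] [Algebra F K]

/-- The action on the ring of integers. -/
noncomputable def WR2_e (k : K ≃ₐ[F] K) : 𝓞 K ≃+* 𝓞 K := MulSemiringAction.toRingEquiv _ _ k

theorem WR2_e_coe (k : K ≃ₐ[F] K) (x : 𝓞 K) : ((WR2_e k x : 𝓞 K) : K) = k (x : K) := rfl

/-- The transported prime. -/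
noncomputable def WR2_p (k : K ≃ₐ[F] K) (w : HeightOneSpectrum (𝓞 K)) : HeightOneSpectrum (𝓞 K) where
  asIdeal := w.asIdeal.comap (WR2_e k)
  isPrime := by
    have := w.isPrime
    exact Ideal.comap_isPrime (WR2_e k) w.asIdeal
  ne_bot := by
    obtain ⟨x, hx, hx0⟩ := Submodule.exists_mem_ne_zero_of_ne_bot w.ne_bot
    intro h
    apply hx0
    have h1 : (WR2_e k).symm x ∈ w.asIdeal.comap (WR2_e k) := by
      rw [Ideal.mem_comap, RingEquiv.apply_symm_apply]
      exact hx
    rw [h, Ideal.mem_bot] at h1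
    simpa using h1

theorem WR2_pow (k : K ≃ₐ[F] K) (w : HeightOneSpectrum (𝓞 K)) (n : ℕ) (x : 𝓞 K) :
    WR2_e k x ∈ w.asIdeal ^ n ↔ x ∈ (WR2_p k w).asIdeal ^ n := by
  have h1 : Ideal.comap (WR2_e k) (w.asIdeal ^ n) = (Ideal.comap (WR2_e k) w.asIdeal) ^ n := by
    rw [← Ideal.map_symm, ← Ideal.map_symm, Ideal.map_pow]
  rw [← Ideal.mem_comap, h1]
  rfl

theorem WR2_int (k : K ≃ₐ[F] K) (w : HeightOneSpectrum (𝓞 K)) (x : 𝓞 K) :
    w.intValuation (WR2_e k x) = (WR2_p k w).intValuation x := by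
  by_cases hx : x = 0
  · rw [hx, map_zero, map_zero, map_zero]
  have hx' : WR2_e k x ≠ 0 := by
    intro h
    exact hx ((map_eq_zero_iff _ (WR2_e k).injective).1 h)
  apply le_antisymm
  · rw [(WR2_p k w).intValuation_eq_exp_neg_multiplicity hx, w.intValuation_le_pow_iff_mem,
      WR2_pow, ← (WR2_p k w).intValuation_le_pow_iff_mem,
      ← (WR2_p k w).intValuation_eq_exp_neg_multiplicity hx]
  · rw [w.intValuation_eq_exp_neg_multiplicity hx', (WR2_p k w).intValuation_le_pow_iff_mem,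
      ← WR2_pow, ← w.intValuation_le_pow_iff_mem, ← w.intValuation_eq_exp_neg_multiplicity hx']

theorem WR2_val (k : K ≃ₐ[F] K) (w : HeightOneSpectrum (𝓞 K)) (x : K) :
    w.valuation K (k x) = (WR2_p k w).valuation K x := by
  obtain ⟨a, b, -, rfl⟩ := IsFractionRing.div_surjective (A := 𝓞 K) x
  have h1 : ∀ y : 𝓞 K, w.valuation K (k (algebraMap (𝓞 K) K y)) =
      (WR2_p k w).valuation K (algebraMap (𝓞 K) K y) := by
    intro y
    rw [HeightOneSpectrum.valuation_of_algebraMap, ← WR2_int, ← HeightOneSpectrum.valuation_of_algebraMap (K := K)]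
    rfl
  rw [map_div₀, map_div₀, map_div₀, h1, h1]

theorem WR2_under (k : K ≃ₐ[F] K) (w : HeightOneSpectrum (𝓞 K)) :
    (WR2_p k w).asIdeal.under O = w.asIdeal.under O := by
  ext a
  show WR2_e k (algebraMap O (𝓞 K) a) ∈ w.asIdeal ↔ algebraMap O (𝓞 K) a ∈ w.asIdeal
  have h1 : WR2_e k (algebraMap O (𝓞 K) a) = algebraMap O (𝓞 K) a := by
    apply RingOfIntegers.ext
    show k (algebraMap F K (a : F)) = algebraMap F K (a : F)
    exact k.commutes _
  rw [h1]

theorem WR2_surj (w : HeightOneSpectrum (𝓞 K)) (hdeg : w.asIdeal.inertiaDeg O = 1) (y : 𝓞 K) :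
    ∃ a : O, y - algebraMap O (𝓞 K) a ∈ w.asIdeal := by
  have hp : (w.asIdeal.under O).IsPrime := inferInstance
  have hne : w.asIdeal.under O ≠ ⊥ := by
    intro h
    exact w.ne_bot (Ideal.eq_bot_of_comap_eq_bot (R := O) (I := w.asIdeal) h)
  let v : HeightOneSpectrum O := ⟨w.asIdeal.under O, hp, hne⟩
  have hvm := v.isMaximal
  have hwm := w.isMaximal
  have hcard : Ideal.absNorm w.asIdeal = Ideal.absNorm v.asIdeal := by
    rw [absNorm_inertia K w v rfl, hdeg, pow_one]
  letI : Field (O ⧸ v.asIdeal) := Ideal.Quotient.field v.asIdeal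
  letI : Field (𝓞 K ⧸ w.asIdeal) := Ideal.Quotient.field w.asIdeal
  let f : O ⧸ v.asIdeal →+* 𝓞 K ⧸ w.asIdeal :=
    Ideal.quotientMap w.asIdeal (algebraMap O (𝓞 K)) le_rfl
  have hinj : Function.Injective f := f.injective
  have hfin : Finite (𝓞 K ⧸ w.asIdeal) := Ideal.finiteQuotientOfFreeOfNeBot w.asIdeal w.ne_bot
  have hbij := hinj.bijective_of_nat_card_le (by
    show Ideal.absNorm w.asIdeal ≤ Ideal.absNorm v.asIdeal
    exact hcard.le)
  obtain ⟨a, ha⟩ := hbij.2 (Ideal.Quotient.mk w.asIdeal y)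
  obtain ⟨a, rfl⟩ := Ideal.Quotient.mk_surjective a
  refine ⟨a, ?_⟩
  rw [← Ideal.Quotient.eq]
  exact ha.symm

theorem WR2_stab [IsGalois F K] (k : K ≃ₐ[F] K) (w : HeightOneSpectrum (𝓞 K))
    (hdeg : w.asIdeal.inertiaDeg O = 1) (hunr : w.asIdeal.ramificationIdx O = 1)
    (h : WR2_p k w = w) : k = 1 := by
  apply (inertia_iff w).1 hunr
  intro y
  obtain ⟨a, ha⟩ := WR2_surj w hdeg y
  have h1 : y - algebraMap O (𝓞 K) a ∈ (WR2_p k w).asIdeal := by
    rw [h]
    exact ha
  have h2 : WR2_e k (y - algebraMap O (𝓞 K) a) ∈ w.asIdeal := h1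
  have h3 : WR2_e k (algebraMap O (𝓞 K) a) = algebraMap O (𝓞 K) a := by
    apply RingOfIntegers.ext
    show k (algebraMap F K (a : F)) = algebraMap F K (a : F)
    exact k.commutes _
  have h4 : k • y - y = WR2_e k (y - algebraMap O (𝓞 K) a) - (y - algebraMap O (𝓞 K) a) := by
    rw [map_sub, h3]
    show k • y - y = k • y - algebraMap O (𝓞 K) a - (y - algebraMap O (𝓞 K) a)
    ring
  rw [h4]
  exact w.asIdeal.sub_mem h2 ha

end

/-- Chunk WR2 (M), independence of the conjugates. v_p(g beta) = v_(g^-1 p)(beta). The decomposition group of w is trivial: K/F is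
Galois, w has inertia degree 1 and ramification index 1 (Ideal.card_stabilizer or the formula e f g = n), so the primes g w
(g in the group) are pairwise different; and g w' lies over another prime of F. Let h be in S and p = h w: v_p(g beta) is odd iff g^-1 h w is w or w', i.e.
iff g = h. So the product has odd valuation at p; a square has even valuation. -/
theorem not_square (K : Type) [Field K] [NumberField K] [Algebra F K] [IsGalois F K] (β : 𝓞 K)
    (w w' : HeightOneSpectrum (𝓞 K)) (hB : Beta K β w w') (S : Finset (K ≃ₐ[F] K))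
    (hS : S.Nonempty) : ¬ IsSquare (∏ g ∈ S, g (β : K)) := by
  classical
  obtain ⟨h, hh⟩ := hS
  rintro ⟨y, hy⟩
  -- the valuation of the product
  have heven : ∀ k : K ≃ₐ[F] K, k ≠ 1 → ∃ n : ℤ, w.valuation K (k (β : K)) = WithZero.exp (2 * n) := by
    intro k hk
    rw [WR2_val]
    refine hB.even _ ?_ ?_
    · intro h1
      exact hk (WR2_stab k w hB.deg hB.unr h1)
    · intro h1
      apply hB.ne
      rw [← h1, WR2_under]
  have hprod : ∀ T : Finset (K ≃ₐ[F] K), (∀ g ∈ T, h⁻¹ * g ≠ 1) →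
      ∃ n : ℤ, w.valuation K (h⁻¹ (∏ g ∈ T, g (β : K))) = WithZero.exp (2 * n) := by
    intro T
    induction T using Finset.induction_on with
    | empty =>
      intro _
      refine ⟨0, ?_⟩
      rw [Finset.prod_empty, map_one, map_one, mul_zero, WithZero.exp_zero]
    | insert a T ha ih =>
      intro hT
      obtain ⟨n, hn⟩ := ih fun g hg => hT g (Finset.mem_insert_of_mem hg)
      obtain ⟨m, hm⟩ := heven (h⁻¹ * a) (hT a (Finset.mem_insert_self a T))
      refine ⟨m + n, ?_⟩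
      rw [Finset.prod_insert ha, map_mul, map_mul, hn]
      have e1 : h⁻¹ (a (β : K)) = (h⁻¹ * a) (β : K) := rfl
      rw [e1, hm, mul_add, WithZero.exp_add]
  obtain ⟨n, hn⟩ := hprod (S.erase h) (by
    intro g hg h1
    apply Finset.ne_of_mem_erase hg
    exact (inv_mul_eq_one.1 h1).symm)
  obtain ⟨k, hk⟩ := hB.odd
  have h1 : w.valuation K (h⁻¹ (∏ g ∈ S, g (β : K))) = WithZero.exp (2 * (k + n) + 1) := by
    rw [← Finset.mul_prod_erase S _ hh, map_mul, map_mul, hn]
    have e1 : h⁻¹ (h (β : K)) = (β : K) := by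
      show (h⁻¹ * h) (β : K) = _
      rw [inv_mul_cancel]
      rfl
    rw [e1, hk, ← WithZero.exp_add]
    congr 1
    ring
  rw [hy, map_mul, map_mul] at h1
  have h2 : w.valuation K (h⁻¹ y) ≠ 0 := by
    intro h0
    rw [h0, mul_zero] at h1
    exact WithZero.exp_ne_zero h1.symm
  have h3 : w.valuation K (h⁻¹ y) = WithZero.exp (WithZero.log (w.valuation K (h⁻¹ y))) :=
    (WithZero.exp_log h2).symm
  rw [h3, ← WithZero.exp_add, WithZero.exp_inj] at h1
  omega

end H55N
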