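import Mathlib
import Pool.Agent.Lib.H55N.WD

open NumberField IsDedekindDomain

namespace H55N

open H55B H55C

/-- Chunk WR3 (M), construction of K'. f = prod_g (X^2 - g beta) has coefficients in F (invariant under the group; or lift it through
algebraMap F K). K' = a splitting field of f over K (Polynomial.SplittingField), Algebra F K' by composition (RingHom.toAlgebra of the composite,
IsScalarTower F K K'), r g a root of X^2 - g beta; K' is generated by the roots plus or minus r g. K' is finite over Q, characteristic 0. IsGalois F K': K is the splitting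
field of a polynomial h over F, K' is the splitting field over F of h * f0 (f0 in F[X] with image f): IsGalois.of_separable_splitting_field or
normal closure arguments (every F-embedding of K' in an algebraic closure maps K to K and permutes the plus or minus r g, normal; separable in
characteristic 0). -/
theorem exists_Wr (K : Type) [Field K] [NumberField K] [Algebra F K] [IsGalois F K] (β : 𝓞 K)
    (hβ : β ≠ 0) :
    ∃ (K' : Type) (_ : Field K') (_ : NumberField K') (_ : Algebra F K') (_ : Algebra K K')
      (_ : IsScalarTower F K K') (r : (K ≃ₐ[F] K) → K'), Wr K K' β r := by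
  classical
  have htow : IsScalarTower ℚ F K := IsScalarTower.of_algebraMap_eq' (Subsingleton.elim _ _)
  have hfinFK : FiniteDimensional F K := Module.Finite.of_restrictScalars_finite ℚ F K
  have hfinG : Finite (K ≃ₐ[F] K) := inferInstance
  have hsq : ∀ g : K ≃ₐ[F] K, ∃ y : AlgebraicClosure K,
      y ^ 2 = algebraMap K (AlgebraicClosure K) (g (β : K)) := fun g =>
    IsAlgClosed.exists_pow_nat_eq _ two_pos
  choose r0 hr0 using hsq
  have hint : ∀ x ∈ Set.range r0, IsIntegral K x := by
    rintro _ ⟨g, rfl⟩
    exact (Algebra.IsAlgebraic.isAlgebraic (r0 g)).isIntegral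
  let E : IntermediateField K (AlgebraicClosure K) := IntermediateField.adjoin K (Set.range r0)
  have hEfin : FiniteDimensional K E := IntermediateField.finiteDimensional_adjoin hint
  have hmem : ∀ g, r0 g ∈ E := fun g => IntermediateField.subset_adjoin K _ ⟨g, rfl⟩
  have hnf : NumberField E := NumberField.of_module_finite K E
  have halg : Algebra.IsAlgebraic F (AlgebraicClosure K) :=
    Algebra.IsAlgebraic.trans F K (AlgebraicClosure K)
  have hac : IsAlgClosure F (AlgebraicClosure K) := ⟨inferInstance, halg⟩
  have hnorm : Normal F (AlgebraicClosure K) := IsAlgClosure.normal F _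
  have hE0 : ∀ (σ : AlgebraicClosure K →ₐ[F] AlgebraicClosure K) (x : AlgebraicClosure K),
      x ∈ E → σ x ∈ E := by
    intro σ x hx
    refine IntermediateField.adjoin_induction K (p := fun x _ => σ x ∈ E) ?_ ?_ ?_ ?_ ?_ hx
    · rintro _ ⟨g, rfl⟩
      have h1 : σ (r0 g) ^ 2 = (r0 ((σ.restrictNormal' K) * g)) ^ 2 := by
        rw [← map_pow, hr0, hr0]
        exact (AlgHom.restrictNormal_commutes σ K (g (β : K))).symm
      rcases sq_eq_sq_iff_eq_or_eq_neg.1 h1 with h | h
      · rw [h]
        exact hmem _
      · rw [h]
        exact neg_mem (hmem _)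
    · intro x
      rw [← AlgHom.restrictNormal_commutes σ K x]
      exact E.algebraMap_mem _
    · intro x y _ _ h1 h2
      rw [map_add]
      exact add_mem h1 h2
    · intro x _ h1
      rw [map_inv₀]
      exact inv_mem h1
    · intro x y _ _ h1 h2
      rw [map_mul]
      exact mul_mem h1 h2
  have hE : Normal F (E.restrictScalars F) := by
    rw [IntermediateField.normal_iff_forall_map_le]
    intro σ
    rintro _ ⟨x, hx, rfl⟩
    exact hE0 σ x hx
  have hE' : Normal F E := hE
  refine ⟨E, inferInstance, hnf, inferInstance, inferInstance, inferInstance,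
    fun g => ⟨r0 g, hmem g⟩, ?_, ?_, ?_⟩
  · intro g
    apply Subtype.ext
    exact hr0 g
  · have h1 : (⊤ : Subalgebra K E) = Algebra.adjoin K
        (Set.range fun g => (⟨r0 g, hmem g⟩ : E)) := by
      apply Subalgebra.map_injective (f := E.val) E.val.injective
      rw [← Algebra.adjoin_image, ← Set.range_comp]
      have h2 : (E.val ∘ fun g => (⟨r0 g, hmem g⟩ : E)) = r0 := rfl
      rw [h2, ← IntermediateField.adjoin_toSubalgebra_of_isAlgebraic
        (fun x hx => (hint x hx).isAlgebraic)]
      ext x
      constructor
      · rintro ⟨y, -, rfl⟩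
        exact y.2
      · intro hx
        exact ⟨⟨x, hx⟩, Algebra.mem_top, rfl⟩
    exact h1.symm
  · exact { to_normal := hE' }

end H55N
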