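import Mathlib
import Pool.Agent.Lib.H55N.WD

open NumberField IsDedekindDomain

namespace H55N

open H55B H55C

/-- the sign of an element of the group of order 2 -/
noncomputable def WR4_sg (K' : Type) [Field K'] (e : C2) : K' := if e = 1 then 1 else -1

theorem WR4_C2 (e : C2) : e = 1 ∨ e = Multiplicative.ofAdd 1 := by
  revert e; decide

theorem WR4_sg_one (K' : Type) [Field K'] : WR4_sg K' 1 = 1 := if_pos rfl

theorem WR4_sg_two (K' : Type) [Field K'] : WR4_sg K' (Multiplicative.ofAdd 1) = -1 :=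
  if_neg (by decide)

theorem WR4_sg_mul (K' : Type) [Field K'] (a b : C2) :
    WR4_sg K' (a * b) = WR4_sg K' a * WR4_sg K' b := by
  rcases WR4_C2 a with rfl | rfl <;> rcases WR4_C2 b with rfl | rfl
  · rw [mul_one, WR4_sg_one, mul_one]
  · rw [one_mul, WR4_sg_one, one_mul]
  · rw [mul_one, WR4_sg_one, mul_one]
  · have : (Multiplicative.ofAdd 1 * Multiplicative.ofAdd 1 : C2) = 1 := by decide
    rw [this, WR4_sg_two, WR4_sg_one]; ring

theorem WR4_sg_inj (K' : Type) [Field K'] [CharZero K'] {a b : C2}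
    (h : WR4_sg K' a = WR4_sg K' b) : a = b := by
  have h1 : (1 : K') ≠ -1 := by
    intro h
    have : (2 : K') = 0 := by linear_combination h
    norm_num at this
  rcases WR4_C2 a with rfl | rfl <;> rcases WR4_C2 b with rfl | rfl
  · rfl
  · rw [WR4_sg_one, WR4_sg_two] at h; exact absurd h h1
  · rw [WR4_sg_one, WR4_sg_two] at h; exact absurd h.symm h1
  · rfl

theorem WR4_sg_map {K' : Type} [Field K'] [Algebra F K'] (s : K' ≃ₐ[F] K') (e : C2) :
    s (WR4_sg K' e) = WR4_sg K' e := by
  rcases WR4_C2 e with rfl | rfl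
  · rw [WR4_sg_one, map_one]
  · rw [WR4_sg_two, map_neg, map_one]

/-- Chunk WR4 (M), the embedding in the wreath product. Mathlib: Mathlib/GroupTheory/RegularWreathProduct.lean,
(a * b).left x = a.left x * b.left (a.right⁻¹ * x). For s in Gal(K'/F) let s0 = s restricted to K (AlgEquiv.restrictNormal, K normal over F).
s (r g)^2 = s0 (g beta) = (s0 g) beta, so s (r g) = eps * r (s0 g) with eps = 1 or -1 (beta is nonzero, characteristic 0); define
s.left (x) = eps for g = s0⁻¹ x, as an element of C2 (0 or 1 in ZMod 2). Then s t (r g) = s (eps_t(t0 g) r (t0 g)) = eps_t(t0 g) eps_s(s0 t0 g) r(s0 t0 g), i.e.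
(s t).left x = s.left x * t.left (s0⁻¹ x). Injective: if s0 = 1 and all signs are 1 then s fixes K and the generators r g. -/
theorem wr_embed (K K' : Type) [Field K] [NumberField K] [Algebra F K] [IsGalois F K] [Field K']
    [NumberField K'] [Algebra F K'] [Algebra K K'] [IsScalarTower F K K'] (β : 𝓞 K) (hβ : β ≠ 0)
    (r : (K ≃ₐ[F] K) → K') (h : Wr K K' β r) :
    ∃ φ : (K' ≃ₐ[F] K') →* C2 ≀ᵣ (K ≃ₐ[F] K), Function.Injective φ := by
  classical
  let ρ : (K' ≃ₐ[F] K') →* (K ≃ₐ[F] K) := AlgEquiv.restrictNormalHom K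
  have hρ : ∀ (s : K' ≃ₐ[F] K') (x : K), algebraMap K K' (ρ s x) = s (algebraMap K K' x) :=
    fun s x => AlgEquiv.restrictNormal_commutes s K x
  have hβ' : (β : K) ≠ 0 := by
    intro h0
    exact hβ (RingOfIntegers.ext (by simpa using h0))
  have hr0 : ∀ g, r g ≠ 0 := by
    intro g h0
    have h1 := h.sq g
    rw [h0, zero_pow two_ne_zero] at h1
    have h2 : g (β : K) = 0 := (map_eq_zero_iff _ (algebraMap K K').injective).1 h1.symm
    exact hβ' ((map_eq_zero_iff _ g.injective).1 h2)
  have hex : ∀ (s : K' ≃ₐ[F] K') (x : K ≃ₐ[F] K), ∃ e : C2,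
      s (r ((ρ s)⁻¹ * x)) = WR4_sg K' e * r x := by
    intro s x
    have h1 : (s (r ((ρ s)⁻¹ * x))) ^ 2 = (r x) ^ 2 := by
      rw [← map_pow, h.sq, ← hρ, h.sq]
      congr 1
      rw [← AlgEquiv.mul_apply, mul_inv_cancel_left]
    rcases sq_eq_sq_iff_eq_or_eq_neg.1 h1 with h2 | h2
    · exact ⟨1, by rw [WR4_sg_one, one_mul, h2]⟩
    · exact ⟨Multiplicative.ofAdd 1, by rw [WR4_sg_two, h2]; ring⟩
  choose eps heps using hex
  let ψ : (K' ≃ₐ[F] K') →* C2 ≀ᵣ (K ≃ₐ[F] K) :=
    { toFun := fun s => ⟨eps s, ρ s⟩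
      map_one' := by
        have h1 : eps 1 = 1 := by
          funext x
          apply WR4_sg_inj K'
          have h2 := heps 1 x
          rw [map_one, inv_one, one_mul] at h2
          have h3 : (1 : K' ≃ₐ[F] K') (r x) = r x := rfl
          rw [h3] at h2
          have h4 : WR4_sg K' (eps 1 x) = 1 := by
            have h5 : 1 * r x = WR4_sg K' (eps 1 x) * r x := by rw [one_mul]; exact h2
            exact (mul_right_cancel₀ (hr0 x) h5).symm
          rw [h4, Pi.one_apply, WR4_sg_one]
        refine RegularWreathProduct.ext ?_ ?_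
        · exact h1
        · exact map_one ρ
      map_mul' := by
        intro s t
        refine RegularWreathProduct.ext ?_ ?_
        · funext x
          change eps (s * t) x = eps s x * eps t ((ρ s)⁻¹ * x)
          apply WR4_sg_inj K'
          have h1 := heps (s * t) x
          have h2 := heps s x
          have h3 := heps t ((ρ s)⁻¹ * x)
          have h4 : (ρ (s * t))⁻¹ * x = (ρ t)⁻¹ * ((ρ s)⁻¹ * x) := by
            rw [map_mul]; group
          rw [h4] at h1
          have h5 : (s * t) (r ((ρ t)⁻¹ * ((ρ s)⁻¹ * x))) =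
              s (t (r ((ρ t)⁻¹ * ((ρ s)⁻¹ * x)))) := rfl
          rw [h5, h3, map_mul, WR4_sg_map, h2] at h1
          have h6 : WR4_sg K' (eps s x) * WR4_sg K' (eps t ((ρ s)⁻¹ * x)) * r x =
              WR4_sg K' (eps (s * t) x) * r x := by rw [← h1]; ring
          rw [WR4_sg_mul]
          exact (mul_right_cancel₀ (hr0 x) h6).symm
        · exact map_mul ρ s t }
  refine ⟨ψ, ?_⟩
  rw [injective_iff_map_eq_one]
  intro s hs
  have h1 : ρ s = 1 := congrArg RegularWreathProduct.right hs
  have h2 : ∀ x, eps s x = 1 := fun x => congrFun (congrArg RegularWreathProduct.left hs) x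
  have h3 : ∀ x, s (r x) = r x := by
    intro x
    have h4 := heps s x
    rwa [h1, inv_one, one_mul, h2, WR4_sg_one, one_mul] at h4
  have h5 : ∀ k : K, s (algebraMap K K' k) = algebraMap K K' k := by
    intro k
    rw [← hρ, h1]; rfl
  let s' : K' →ₐ[K] K' := { (s : K' →+* K') with commutes' := h5 }
  have h6 : s' = AlgHom.id K K' := by
    apply AlgHom.ext_of_adjoin_eq_top h.gen
    rintro _ ⟨x, rfl⟩
    exact h3 x
  ext x
  exact congrArg (fun f : K' →ₐ[K] K' => f x) h6

end H55N
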