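import Mathlib
import Pool.Agent.Lib.H55N.WR4

open NumberField IsDedekindDomain

namespace H55N

open H55B H55C

/-! Chunk WR5 (M): the degree. V = Gal(K'/K); s -> (sign of s (r g) / r g)_g is an injective homomorphism of V into the elementary abelian group
A = (G -> C2). If it is not surjective there is a nontrivial homomorphism A -> C2 trivial on the image of V (duality for the ZMod 2 vector space A:
exists a nonzero linear form vanishing on a proper subspace), which is the product of the coordinates in a nonempty subset S. Then the product of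
the r g, g in S, is fixed by V, so it lies in K (IsGalois K K'), and its square, the product of the g beta, is a square in K. Contradiction. So
[K':K] = |V| = 2^|G|. wr_iso: |Gal(K'/F)| = [K':K][K:F] = 2^|G| |G| = Nat.card (C2 wr G) (RegularWreathProduct.card), so the embedding
wr_embed is bijective. -/

open Classical in
/-- The signs. -/
noncomputable def WR5_sg {K K' : Type} [Field K] [Field K'] [Algebra F K] [Algebra K K']
    (r : (K ≃ₐ[F] K) → K') (s : K' ≃ₐ[K] K') (g : K ≃ₐ[F] K) : ZMod 2 :=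
  if s (r g) = r g then 0 else 1

section

variable {K K' : Type} [Field K] [NumberField K] [Algebra F K] [Field K']
    [NumberField K'] [Algebra F K'] [Algebra K K'] [IsScalarTower F K K'] {β : 𝓞 K}
    {r : (K ≃ₐ[F] K) → K'}

theorem WR5_cases (h : Wr K K' β r) (s : K' ≃ₐ[K] K') (g : K ≃ₐ[F] K) :
    s (r g) = r g ∨ s (r g) = -r g := by
  have h1 : s (r g) ^ 2 = r g ^ 2 := by rw [← map_pow, h.sq, AlgEquiv.commutes]
  exact sq_eq_sq_iff_eq_or_eq_neg.1 h1

theorem WR5_ne (hβ : β ≠ 0) (h : Wr K K' β r) (g : K ≃ₐ[F] K) : r g ≠ 0 := by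
  intro h0
  have h1 := h.sq g
  rw [h0, zero_pow two_ne_zero] at h1
  have h2 : g (β : K) = 0 := by
    have h3 : algebraMap K K' (g (β : K)) = algebraMap K K' 0 := by rw [map_zero, h1]
    exact (algebraMap K K').injective h3
  have h3 : (β : K) = 0 := by
    have h4 : g (β : K) = g 0 := by rw [h2, map_zero]
    exact g.injective h4
  apply hβ
  exact RingOfIntegers.ext h3

theorem WR5_neg (hβ : β ≠ 0) (h : Wr K K' β r) (g : K ≃ₐ[F] K) : -r g ≠ r g := by
  intro h0
  have h1 : (2 : K') * r g = 0 := by linear_combination -h0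
  rcases mul_eq_zero.1 h1 with h2 | h2
  · exact two_ne_zero h2
  · exact WR5_ne hβ h g h2

theorem WR5_one (g : K ≃ₐ[F] K) : WR5_sg r (1 : K' ≃ₐ[K] K') g = 0 := by
  unfold WR5_sg
  rw [if_pos]
  rfl

theorem WR5_mul (hβ : β ≠ 0) (h : Wr K K' β r) (s t : K' ≃ₐ[K] K') (g : K ≃ₐ[F] K) :
    WR5_sg r (s * t) g = WR5_sg r s g + WR5_sg r t g := by
  have hn := WR5_neg hβ h g
  have e1 : (s * t) (r g) = s (t (r g)) := rfl
  unfold WR5_sg
  rw [e1]
  rcases WR5_cases h t g with ht | ht <;> rcases WR5_cases h s g with hs | hs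
  · rw [ht, hs]
    simp
  · rw [ht, hs, if_neg hn, if_pos rfl, add_zero]
  · rw [ht, map_neg, hs, if_neg hn, if_pos rfl, zero_add]
  · rw [ht, map_neg, hs, neg_neg, if_pos rfl, if_neg hn]
    decide

/-- The sign vectors. -/
noncomputable def WR5_W (hβ : β ≠ 0) (h : Wr K K' β r) :
    Submodule (ZMod 2) ((K ≃ₐ[F] K) → ZMod 2) where
  carrier := Set.range fun s : K' ≃ₐ[K] K' => WR5_sg r s
  zero_mem' := ⟨1, funext fun g => WR5_one g⟩
  add_mem' := by
    rintro _ _ ⟨s, rfl⟩ ⟨t, rfl⟩
    exact ⟨s * t, funext fun g => WR5_mul hβ h s t g⟩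
  smul_mem' := by
    rintro c _ ⟨s, rfl⟩
    have hc : c = 0 ∨ c = 1 := by
      revert c
      decide
    rcases hc with rfl | rfl
    · refine ⟨1, funext fun g => ?_⟩
      simp [WR5_one g]
    · exact ⟨s, by simp⟩

theorem WR5_top [IsGalois F K] (hβ : β ≠ 0) (h : Wr K K' β r)
    (hn : ∀ S : Finset (K ≃ₐ[F] K), S.Nonempty → ¬ IsSquare (∏ g ∈ S, g (β : K))) :
    WR5_W hβ h = ⊤ := by
  classical
  have htow : IsScalarTower ℚ F K := IsScalarTower.of_algebraMap_eq' (Subsingleton.elim _ _)
  have hfinFK : FiniteDimensional F K := Module.Finite.of_restrictScalars_finite ℚ F K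
  have htow2 : IsScalarTower ℚ K K' := IsScalarTower.of_algebraMap_eq' (Subsingleton.elim _ _)
  have hfinK : FiniteDimensional K K' := Module.Finite.of_restrictScalars_finite ℚ K K'
  have hgal : IsGalois F K' := h.gal
  have hgal' : IsGalois K K' := IsGalois.tower_top_of_isGalois F K K'
  have hfG : Fintype (K ≃ₐ[F] K) := Fintype.ofFinite _
  by_contra hne
  obtain ⟨f, hf0, hf⟩ := (WR5_W hβ h).exists_le_ker_of_lt_top (lt_top_iff_ne_top.2 hne)
  set S : Finset (K ≃ₐ[F] K) := Finset.univ.filter fun g => f (Pi.single g 1) = 1 with hS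
  have hval : ∀ v : (K ≃ₐ[F] K) → ZMod 2, f v = ∑ g ∈ S, v g := by
    intro v
    have h1 : v = ∑ g, v g • (Pi.single g (1 : ZMod 2) : (K ≃ₐ[F] K) → ZMod 2) := by
      ext x
      simp [Finset.sum_apply, Pi.single_apply]
    conv_lhs => rw [h1]
    rw [map_sum, hS, Finset.sum_filter]
    refine Finset.sum_congr rfl fun g _ => ?_
    rw [map_smul, smul_eq_mul]
    have h2 : ∀ c : ZMod 2, c = 0 ∨ c = 1 := by decide
    rcases h2 (f (Pi.single g 1)) with h3 | h3
    · rw [h3, mul_zero, if_neg (by decide)]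
    · rw [h3, mul_one, if_pos rfl]
  have hSne : S.Nonempty := by
    rw [Finset.nonempty_iff_ne_empty]
    intro h0
    apply hf0
    ext v
    have := hval (Pi.single v 1)
    rw [h0, Finset.sum_empty] at this
    simpa using this
  have hfix : ∀ s : K' ≃ₐ[K] K', s (∏ g ∈ S, r g) = ∏ g ∈ S, r g := by
    intro s
    have h1 : f (WR5_sg r s) = 0 := hf ⟨s, rfl⟩
    rw [hval] at h1
    have h2 : ∀ T : Finset (K ≃ₐ[F] K), s (∏ g ∈ T, r g) =
        (if ∑ g ∈ T, WR5_sg r s g = 0 then 1 else -1) * ∏ g ∈ T, r g := by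
      intro T
      induction T using Finset.induction_on with
      | empty => simp
      | insert a T ha ih =>
        rw [Finset.prod_insert ha, Finset.sum_insert ha, map_mul, ih]
        have h4 : ∀ c : ZMod 2, c = 0 ∨ c = 1 := by decide
        have h5 : s (r a) = (if WR5_sg r s a = 0 then 1 else -1) * r a := by
          unfold WR5_sg
          rcases WR5_cases h s a with hs | hs
          · rw [if_pos hs, if_pos rfl, one_mul, hs]
          · rw [hs, if_neg (WR5_neg hβ h a), if_neg (by decide), neg_one_mul]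
        rw [h5]
        have h8 : (1 : ZMod 2) + 1 = 0 := by decide
        rcases h4 (WR5_sg r s a) with h6 | h6 <;>
          rcases h4 (∑ g ∈ T, WR5_sg r s g) with h7 | h7 <;> rw [h6, h7] <;>
          simp [h8]
    rw [h2, if_pos h1, one_mul]
  obtain ⟨x, hx⟩ := (IsGalois.mem_bot_iff_fixed (F := K) (E := K') _).2 hfix
  apply hn S hSne
  refine ⟨x, ?_⟩
  apply (algebraMap K K').injective
  rw [map_prod, map_mul]
  have hx' : algebraMap K K' x = ∏ g ∈ S, r g := hx
  rw [hx', ← Finset.prod_mul_distrib]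
  refine Finset.prod_congr rfl fun g _ => ?_
  rw [← h.sq, pow_two]

end

theorem wr_card (K K' : Type) [Field K] [NumberField K] [Algebra F K] [IsGalois F K] [Field K']
    [NumberField K'] [Algebra F K'] [Algebra K K'] [IsScalarTower F K K'] (β : 𝓞 K) (hβ : β ≠ 0)
    (r : (K ≃ₐ[F] K) → K') (h : Wr K K' β r)
    (hn : ∀ S : Finset (K ≃ₐ[F] K), S.Nonempty → ¬ IsSquare (∏ g ∈ S, g (β : K))) :
    Module.finrank K K' = 2 ^ Nat.card (K ≃ₐ[F] K) := by
  have htow : IsScalarTower ℚ F K := IsScalarTower.of_algebraMap_eq' (Subsingleton.elim _ _)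
  have hfinFK : FiniteDimensional F K := Module.Finite.of_restrictScalars_finite ℚ F K
  have htow2 : IsScalarTower ℚ K K' := IsScalarTower.of_algebraMap_eq' (Subsingleton.elim _ _)
  have hfinK : FiniteDimensional K K' := Module.Finite.of_restrictScalars_finite ℚ K K'
  have hgal : IsGalois F K' := h.gal
  have hgal' : IsGalois K K' := IsGalois.tower_top_of_isGalois F K K'
  have hbij : Function.Bijective fun s : K' ≃ₐ[K] K' => WR5_sg r s := by
    constructor
    · intro s t hst
      have h1 : ∀ g, s (r g) = t (r g) := by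
        intro g
        have h2 : WR5_sg r s g = WR5_sg r t g := congrFun hst g
        have hn := WR5_neg hβ h g
        unfold WR5_sg at h2
        rcases WR5_cases h s g with hs | hs <;> rcases WR5_cases h t g with ht | ht
        · rw [hs, ht]
        · rw [hs, ht, if_pos rfl, if_neg hn] at h2
          exact absurd h2 (by decide)
        · rw [hs, ht, if_pos rfl, if_neg hn] at h2
          exact absurd h2 (by decide)
        · rw [hs, ht]
      have h3 : (s : K' →ₐ[K] K') = t := by
        refine AlgHom.ext_of_adjoin_eq_top h.gen ?_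
        rintro _ ⟨g, rfl⟩
        exact h1 g
      exact AlgEquiv.coe_toAlgHom_injective h3
    · intro v
      have h1 : v ∈ WR5_W hβ h := by
        rw [WR5_top hβ h hn]
        trivial
      exact h1
  rw [← IsGalois.card_aut_eq_finrank K K', Nat.card_congr (Equiv.ofBijective _ hbij), Nat.card_fun,
    Nat.card_zmod]

theorem wr_iso (K K' : Type) [Field K] [NumberField K] [Algebra F K] [IsGalois F K] [Field K']
    [NumberField K'] [Algebra F K'] [Algebra K K'] [IsScalarTower F K K'] (β : 𝓞 K) (hβ : β ≠ 0)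
    (r : (K ≃ₐ[F] K) → K') (h : Wr K K' β r)
    (hn : ∀ S : Finset (K ≃ₐ[F] K), S.Nonempty → ¬ IsSquare (∏ g ∈ S, g (β : K))) :
    Nonempty ((K' ≃ₐ[F] K') ≃* C2 ≀ᵣ (K ≃ₐ[F] K)) := by
  have htow : IsScalarTower ℚ F K := IsScalarTower.of_algebraMap_eq' (Subsingleton.elim _ _)
  have hfinFK : FiniteDimensional F K := Module.Finite.of_restrictScalars_finite ℚ F K
  have htow2 : IsScalarTower ℚ K K' := IsScalarTower.of_algebraMap_eq' (Subsingleton.elim _ _)
  have hfinK : FiniteDimensional K K' := Module.Finite.of_restrictScalars_finite ℚ K K'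
  have hfinF : FiniteDimensional F K' := FiniteDimensional.trans F K K'
  have hgal : IsGalois F K' := h.gal
  obtain ⟨φ, hφ⟩ := wr_embed K K' β hβ r h
  have hfin : Finite (C2 ≀ᵣ (K ≃ₐ[F] K)) := inferInstance
  have hcard : Nat.card (C2 ≀ᵣ (K ≃ₐ[F] K)) ≤ Nat.card (K' ≃ₐ[F] K') := by
    rw [RegularWreathProduct.card, IsGalois.card_aut_eq_finrank F K',
      ← Module.finrank_mul_finrank F K K', wr_card K K' β hβ r h hn,
      IsGalois.card_aut_eq_finrank F K]
    have h2 : Nat.card C2 = 2 := by
      rw [Nat.card_congr (Multiplicative.toAdd), Nat.card_zmod]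
    rw [h2, mul_comm]
  exact ⟨MulEquiv.ofBijective φ (hφ.bijective_of_nat_card_le hcard)⟩

end H55N
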