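import Mathlib
import Pool.Agent.Lib.H55C.Y32
import Pool.Agent.Lib.H55N.WD

open NumberField IsDedekindDomain

namespace H55N

open H55B H55C

/-- Chunk WR6 (M), ramification. Let t be in the inertia group of W over F (inertia subgroup of Gal(K'/F)); it acts on K with t|K in the inertia group of
w0 = W below, which is trivial (Y32_card / inertia: ramification index 1), so t fixes K. For g: t (r g) = r g or - r g. Suppose t (r g) = - r g.
If 2 is not in W: v_{w0}(g beta) = 2k, choose c in K with v_{w0}(c) = -k; then (c r g)^2 = c^2 g beta is a unit at w0, so c r g is a unit at W, and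
c r g - t (c r g) = 2 c r g is a unit at W, but an element of the inertia group moves W-integral elements only by non-units (write c r g as a
quotient of an integer by an integer prime to W). If 2 is in W: g beta = 1 mod 4 (apply g to four), so u = (1 + r g)/2 is an algebraic integer (root of
X^2 - X + (1 - g beta)/4) and u - t u = r g, a unit at W because (r g)^2 = g beta = 1 mod 4 and 2 is in W; contradiction. So t = 1 on the generators r g
and the inertia group is trivial, hence the ramification index is 1. Compare Y23_fix and Y32 in H55C. -/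
theorem wr_unr_at (K K' : Type) [Field K] [NumberField K] [Algebra F K] [IsGalois F K] [Field K']
    [NumberField K'] [Algebra F K'] [Algebra K K'] [IsScalarTower F K K'] (β : 𝓞 K) (hβ : β ≠ 0)
    (hfour : (4 : 𝓞 K) ∣ β - 1) (r : (K ≃ₐ[F] K) → K') (h : Wr K K' β r)
    (W : HeightOneSpectrum (𝓞 K')) (w₀ : HeightOneSpectrum (𝓞 K))
    (hw : w₀.asIdeal = W.asIdeal.under (𝓞 K)) (h1 : w₀.asIdeal.ramificationIdx O = 1)
    (he : ∀ g : K ≃ₐ[F] K, ∃ k : ℤ, w₀.valuation K (g (β : K)) = WithZero.exp (2 * k)) :
    W.asIdeal.ramificationIdx O = 1 := by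
  have hgal : IsGalois F K' := h.gal
  rw [inertia_iff W]
  intro t ht
  have hres : AlgEquiv.restrictNormalHom K t = 1 := by
    apply (inertia_iff w₀).1 h1
    intro y
    have h2 := restrict_frob (K := K') (K₁ := K) W w₀ hw t 1
      (fun y => by rw [pow_one]; exact ht y) y
    rwa [pow_one] at h2
  have hfix : ∀ x : K, t (algebraMap K K' x) = algebraMap K K' x := by
    intro x
    have h2 := AlgEquiv.restrictNormal_commutes t K x
    have h3 : AlgEquiv.restrictNormal t K = 1 := hres
    rw [← h2, h3]
    rfl
  have hmemW : ∀ y : 𝓞 K, algebraMap (𝓞 K) (𝓞 K') y ∈ W.asIdeal → y ∈ w₀.asIdeal := by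
    intro y hy
    rw [hw]
    exact hy
  have hW1 : (1 : 𝓞 K') ∉ W.asIdeal := fun h1 => W.isPrime.ne_top ((Ideal.eq_top_iff_one _).2 h1)
  have hrfix : ∀ g, t (r g) = r g := by
    intro g
    have h2 : t (r g) ^ 2 = r g ^ 2 := by rw [← map_pow, h.sq, hfix]
    rcases sq_eq_sq_iff_eq_or_eq_neg.1 h2 with h3 | h3
    · exact h3
    exfalso
    by_cases h2W : (2 : 𝓞 K') ∈ W.asIdeal
    · -- the case of residue characteristic 2
      obtain ⟨z0, hz0⟩ := hfour
      set z : K' := algebraMap K K' (g (z0 : K)) with hz
      have hzint : IsIntegral ℤ z := by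
        have h4 : IsIntegral ℤ (g (z0 : K)) :=
          map_isIntegral_int (g : K →+* K) (RingOfIntegers.isIntegral_coe z0)
        exact map_isIntegral_int (algebraMap K K') h4
      have hgb : algebraMap K K' (g (β : K)) = 1 + 4 * z := by
        have h4 : (β : K) = 1 + 4 * (z0 : K) := by
          have := congrArg (algebraMap (𝓞 K) K) hz0
          simp only [map_sub, map_mul, map_one, map_ofNat] at this
          linear_combination this
        rw [h4, map_add, map_mul, map_one, map_ofNat, map_add, map_mul, map_one, map_ofNat]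
      have hr2 : r g ^ 2 = 1 + 4 * z := by rw [h.sq, hgb]
      have huint : IsIntegral ℤ ((1 + r g) / 2) := by
        have h5 : IsIntegral (𝓞 K') ((1 + r g) / 2) := by
          obtain ⟨zz, hzz⟩ : ∃ zz : 𝓞 K', algebraMap (𝓞 K') K' zz = z := ⟨⟨z, hzint⟩, rfl⟩
          refine ⟨Polynomial.X ^ 2 - Polynomial.X - Polynomial.C zz, ?_, ?_⟩
          · rw [sub_sub]
            apply Polynomial.monic_X_pow_sub
            compute_degree!
          · simp only [Polynomial.eval₂_sub, Polynomial.eval₂_pow, Polynomial.eval₂_X,
              Polynomial.eval₂_C, hzz]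
            linear_combination (1 / 4) * hr2
        exact isIntegral_trans _ h5
      let u : 𝓞 K' := ⟨(1 + r g) / 2, huint⟩
      have hu : t • u - u = -(2 * u - 1) := by
        apply RingOfIntegers.ext
        show t ((1 + r g) / 2) - (1 + r g) / 2 = -(2 * ((1 + r g) / 2) - 1)
        rw [map_div₀, map_add, map_one, h3, map_ofNat]
        ring
      have hmem := ht u
      rw [hu, Ideal.neg_mem_iff] at hmem
      apply hW1
      have h6 : (1 : 𝓞 K') = 2 * u - (2 * u - 1) := by ring
      rw [h6]
      exact W.asIdeal.sub_mem (Ideal.mul_mem_right _ _ h2W) hmem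
    · -- the other case
      obtain ⟨k, hk⟩ := he g
      obtain ⟨c, hc⟩ := w₀.valuation_surjective K (WithZero.exp (-k))
      have hd : w₀.valuation K (c ^ 2 * g (β : K)) = 1 := by
        rw [map_mul, map_pow, hc, hk, ← WithZero.exp_nsmul, ← WithZero.exp_add]
        simp
      obtain ⟨n, ⟨b, hb⟩, hnb⟩ := w₀.exists_primeCompl_mul_eq_of_integer (c ^ 2 * g (β : K)) hd.le
      have hb' : b ∉ w₀.asIdeal := hb
      have hnb' : c ^ 2 * g (β : K) * (b : K) = (n : K) := hnb
      have hn : n ∉ w₀.asIdeal := by
        intro hmem
        have h4 := (w₀.valuation_lt_one_iff_mem (K := K) n).2 hmem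
        have h5 : w₀.valuation K (b : K) = 1 := by
          have h6 := w₀.valuation_le_one (K := K) b
          have h7 : ¬ w₀.valuation K (b : K) < 1 := fun h8 =>
            hb' ((w₀.valuation_lt_one_iff_mem (K := K) b).1 h8)
          exact le_antisymm h6 (not_lt.1 h7)
        have h6 : w₀.valuation K (n : K) = 1 := by
          rw [← hnb', map_mul, hd, h5, one_mul]
        have h7 : w₀.valuation K (n : K) < 1 := h4
        rw [h6] at h7
        exact lt_irrefl _ h7
      set Y : K' := algebraMap K K' (b * c) * r g with hY
      have hY2 : Y ^ 2 = algebraMap K K' ((b * n : 𝓞 K) : K) := by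
        rw [hY, mul_pow, h.sq, ← map_pow, ← map_mul]
        congr 1
        have h8 : ((b * n : 𝓞 K) : K) = (b : K) * (n : K) := map_mul _ _ _
        rw [h8, ← hnb']
        ring
      have hYint : IsIntegral ℤ Y := by
        apply IsIntegral.of_pow two_pos
        rw [hY2]
        exact map_isIntegral_int (algebraMap K K') (RingOfIntegers.isIntegral_coe (b * n))
      let y : 𝓞 K' := ⟨Y, hYint⟩
      have hy2 : y ^ 2 = algebraMap (𝓞 K) (𝓞 K') (b * n) := by
        apply RingOfIntegers.ext
        exact hY2
      have hty : t • y - y = -(2 * y) := by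
        apply RingOfIntegers.ext
        show t Y - Y = -(2 * Y)
        rw [hY, map_mul, hfix, h3]
        ring
      have hmem := ht y
      rw [hty, Ideal.neg_mem_iff] at hmem
      rcases W.isPrime.mem_or_mem hmem with h4 | h4
      · exact h2W h4
      · have h5 : y ^ 2 ∈ W.asIdeal := Ideal.pow_mem_of_mem _ h4 2 two_pos
        rw [hy2] at h5
        rcases w₀.isPrime.mem_or_mem (hmemW _ h5) with h6 | h6
        · exact hb' h6
        · exact hn h6
  -- t fixes K and the generators
  have h4 : ∀ x : K', t x = x := by
    intro x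
    have hx : x ∈ Algebra.adjoin K (Set.range r) := by
      rw [h.gen]
      trivial
    induction hx using Algebra.adjoin_induction with
    | mem x hx =>
      obtain ⟨g, rfl⟩ := hx
      exact hrfix g
    | algebraMap x => exact hfix x
    | add x y _ _ hx hy => rw [map_add, hx, hy]
    | mul x y _ _ hx hy => rw [map_mul, hx, hy]
  exact AlgEquiv.ext h4

end H55N
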