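import Mathlib
import Pool.Agent.Lib.H55N.WR1
import Pool.Agent.Lib.H55N.WR2
import Pool.Agent.Lib.H55N.WR3
import Pool.Agent.Lib.H55N.WR5
import Pool.Agent.Lib.H55N.WR6
import Pool.Agent.Lib.H55C.A14

open NumberField IsDedekindDomain

namespace H55N

open H55B H55C

theorem WR7_cj (K : Type) [Field K] [NumberField K] [Algebra F K] (g : K ≃ₐ[F] K)
    (P : HeightOneSpectrum (𝓞 K)) : ∃ P' : HeightOneSpectrum (𝓞 K),
      P'.asIdeal.under O = P.asIdeal.under O ∧
      ∀ z : K, P.valuation K (g z) = P'.valuation K z := by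
  refine ⟨A14_cj g.toRingEquiv P, ?_, fun z => ?_⟩
  · ext x
    show algebraMap O (𝓞 K) x ∈ P.asIdeal.comap
      (RingOfIntegers.mapRingEquiv g.toRingEquiv : 𝓞 K →+* 𝓞 K) ↔ algebraMap O (𝓞 K) x ∈ P.asIdeal
    rw [Ideal.mem_comap]
    have h : (RingOfIntegers.mapRingEquiv g.toRingEquiv : 𝓞 K →+* 𝓞 K) (algebraMap O (𝓞 K) x) =
        algebraMap O (𝓞 K) x := by
      apply RingOfIntegers.ext
      show g ((algebraMap O (𝓞 K) x : 𝓞 K) : K) = ((algebraMap O (𝓞 K) x : 𝓞 K) : K)
      have h2 : ((algebraMap O (𝓞 K) x : 𝓞 K) : K) = algebraMap F K (algebraMap O F x) := by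
        rw [← IsScalarTower.algebraMap_apply O F K]
        exact (IsScalarTower.algebraMap_apply O (𝓞 K) K x).symm
      rw [h2, g.commutes]
    rw [h]
  · obtain ⟨a, b, hb, hab⟩ := IsFractionRing.div_surjective (A := 𝓞 K) z
    have hz : z = (a : K) / (b : K) := hab.symm
    have h1 : ∀ z : K, g z = g.toRingEquiv z := fun _ => rfl
    rw [h1, hz, map_div₀, map_div₀, map_div₀, A14_int, A14_int]

theorem WR7_pos (K : Type) [Field K] [NumberField K] (P : HeightOneSpectrum (𝓞 K)) :
    0 < Ideal.absNorm P.asIdeal :=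
  Nat.pos_of_ne_zero (by rw [Ne, Ideal.absNorm_eq_zero_iff]; exact P.ne_bot)

theorem WR7_le (K K' : Type) [Field K] [NumberField K] [Field K'] [NumberField K'] [Algebra K K']
    (w : HeightOneSpectrum (𝓞 K)) (W : HeightOneSpectrum (𝓞 K'))
    (h : w.asIdeal = W.asIdeal.under (𝓞 K)) :
    Ideal.absNorm w.asIdeal ≤ Ideal.absNorm W.asIdeal := by
  have hlies : W.asIdeal.LiesOver w.asIdeal := ⟨h⟩
  have hmax := w.isMaximal
  have hmax' := W.isMaximal
  have h1 := Ideal.absNorm_eq_pow_inertiaDeg'_of_liesOver W.asIdeal w.asIdeal w.isPrime w.ne_bot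
  rw [h1]
  have h2 := WR7_pos K w
  apply Nat.le_self_pow
  intro h3
  rw [h3, pow_zero] at h1
  exact W.isPrime.ne_top (Ideal.absNorm_eq_one_iff.1 h1)

/-- Conjugate primes have the same norm. -/
theorem WR7_eq (K : Type) [Field K] [NumberField K] [Algebra F K] [IsGalois F K]
    (w w' : HeightOneSpectrum (𝓞 K)) (h : w.asIdeal.under O = w'.asIdeal.under O) :
    Ideal.absNorm w.asIdeal = Ideal.absNorm w'.asIdeal := by
  have hp : (w.asIdeal.under O).IsPrime := inferInstance
  have hne : w.asIdeal.under O ≠ ⊥ := by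
    intro h0
    exact w.ne_bot (Ideal.eq_bot_of_comap_eq_bot (R := O) (I := w.asIdeal) h0)
  let v : HeightOneSpectrum O := ⟨w.asIdeal.under O, hp, hne⟩
  have hmax : (w.asIdeal.under O).IsMaximal := hp.isMaximal hne
  have hl : w.asIdeal.LiesOver (w.asIdeal.under O) := ⟨rfl⟩
  have hl' : w'.asIdeal.LiesOver (w.asIdeal.under O) := ⟨h⟩
  rw [absNorm_inertia K w v rfl, absNorm_inertia K w' v h,
    ← Ideal.inertiaDegIn_eq_inertiaDeg (w.asIdeal.under O) w.asIdeal (K ≃ₐ[F] K),
    ← Ideal.inertiaDegIn_eq_inertiaDeg (w.asIdeal.under O) w'.asIdeal (K ≃ₐ[F] K)]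

/-- Chunk WR7 (S/M), one wreath step. beta, w, w' from exists_beta, K' from exists_Wr, the group by wr_iso with not_square. TwoExt K': the order
2^|G| |G| is a power of 2. Let W be a prime of K', w0 below it in K, v below in F. If w0 is not a conjugate of w or w', then all valuations
v_{w0}(g beta) = v_{g^-1 w0}(beta) are even (Beta.even), so if moreover w0 is unramified over F then W is unramified (wr_unr_at). UnrOut K': if v is not
good then w0 is not a conjugate of w, w' (conjugates lie over the same prime of F, Beta.good, good'). Last statement: if W is ramified then w0 is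
ramified over F, or v is below w or w'; absNorm W >= absNorm w0, and absNorm W >= absNorm v; in the second case absNorm v = absNorm w > B
(or absNorm v^f = absNorm w', so use absNorm W >= absNorm w0 = absNorm w' for the conjugate). -/
theorem wreath_step (K : Type) [Field K] [NumberField K] [Algebra F K] (hT : TwoExt K)
    (hU : UnrOut K) (B : ℕ) (hB : ∀ w : HeightOneSpectrum (𝓞 K), w.asIdeal.ramificationIdx O ≠ 1 →
      B < Ideal.absNorm w.asIdeal) :
    ∃ (K' : Type) (_ : Field K') (_ : NumberField K') (_ : Algebra F K') (_ : Algebra K K')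
      (_ : IsScalarTower F K K'), TwoExt K' ∧ UnrOut K' ∧
      Nonempty ((K' ≃ₐ[F] K') ≃* C2 ≀ᵣ (K ≃ₐ[F] K)) ∧
      ∀ W : HeightOneSpectrum (𝓞 K'), W.asIdeal.ramificationIdx O ≠ 1 →
        B < Ideal.absNorm W.asIdeal := by
  have hG : IsGalois F K := hT.1
  obtain ⟨β, w, w', hβ, hBw, hBw'⟩ := exists_beta K hT B
  have hβ0 : β ≠ 0 := by
    rintro rfl
    obtain ⟨k, hk⟩ := hβ.odd
    have h0 : ((0 : 𝓞 K) : K) = 0 := map_zero (algebraMap (𝓞 K) K)
    rw [h0, map_zero] at hk
    exact WithZero.exp_ne_zero hk.symm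
  obtain ⟨K', _, _, _, _, _, r, hr⟩ := exists_Wr K β hβ0
  have hn := not_square K β w w' hβ
  have hcard := wr_card K K' β hβ0 r hr hn
  have key : ∀ W : HeightOneSpectrum (𝓞 K'),
      (HeightOneSpectrum.under (𝓞 K) W).asIdeal.ramificationIdx O = 1 →
      W.asIdeal.under O ≠ w.asIdeal.under O → W.asIdeal.under O ≠ w'.asIdeal.under O →
      W.asIdeal.ramificationIdx O = 1 := by
    intro W h1 h2 h3
    refine wr_unr_at K K' β hβ0 hβ.four r hr W (HeightOneSpectrum.under (𝓞 K) W) rfl h1 fun g => ?_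
    obtain ⟨P', hP1, hP2⟩ := WR7_cj K g (HeightOneSpectrum.under (𝓞 K) W)
    rw [hP2]
    have h4 : (HeightOneSpectrum.under (𝓞 K) W).asIdeal.under O = W.asIdeal.under O :=
      Ideal.under_under _
    rw [h4] at hP1
    refine hβ.even P' ?_ ?_
    · rintro rfl
      exact h2 hP1.symm
    · rintro rfl
      exact h3 hP1.symm
  refine ⟨K', inferInstance, inferInstance, inferInstance, inferInstance, inferInstance,
    ⟨hr.gal, ?_⟩, ?_, wr_iso K K' β hβ0 r hr hn, ?_⟩
  · obtain ⟨k, hk⟩ := hT.2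
    refine ⟨k + Nat.card (K ≃ₐ[F] K), ?_⟩
    rw [← Module.finrank_mul_finrank F K K', hcard, hk, pow_add]
  · intro W v hv hg
    have h4 : (HeightOneSpectrum.under (𝓞 K) W).asIdeal.under O = W.asIdeal.under O :=
      Ideal.under_under _
    apply key W (hU _ v (hv.trans h4.symm) hg)
    · intro h
      exact hg (hβ.good v (hv.trans h))
    · intro h
      exact hg (hβ.good' v (hv.trans h))
  · intro W hW
    have hle := WR7_le K K' (HeightOneSpectrum.under (𝓞 K) W) W rfl
    have h4 : (HeightOneSpectrum.under (𝓞 K) W).asIdeal.under O = W.asIdeal.under O :=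
      Ideal.under_under _
    by_cases h1 : (HeightOneSpectrum.under (𝓞 K) W).asIdeal.ramificationIdx O = 1
    · by_cases h2 : W.asIdeal.under O = w.asIdeal.under O
      · rw [WR7_eq K _ w (h4.trans h2)] at hle
        omega
      · by_cases h3 : W.asIdeal.under O = w'.asIdeal.under O
        · rw [WR7_eq K _ w' (h4.trans h3)] at hle
          omega
        · exact absurd (key W h1 h2 h3) hW
    · exact lt_of_lt_of_le (hB _ h1) hle

end H55N
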