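import Mathlib
import Pool.Agent.Lib.H55N.WD

open NumberField IsDedekindDomain

namespace H55N

open H55B H55C

/-- Chunk WR8 (M), Kaloujnine-Krasner for a kernel of order 2 (pure group theory). Let c : G -> G choose a representative of the coset
phi(H) x, so c (phi h x) = c x and x (c x)⁻¹ is in the range of phi; choose s : G -> H with phi (s x) = x (c x)⁻¹. For h in H put
f_h(x) = (s x)⁻¹ h s((phi h)⁻¹ x). phi (f_h x) = c x x⁻¹ phi h (phi h)⁻¹ x (c x)⁻¹ = 1, so f_h x is in the kernel Z, which is isomorphic to C2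
(group of order 2: mulEquivOfPrimeCardEq or similar). f_{hk}(x) = f_h(x) f_k((phi h)⁻¹ x), so h -> (f_h, phi h) is a homomorphism to Z wr G
(Mathlib: (a * b).left x = a.left x * b.left (a.right⁻¹ * x)). Injective: phi h = 1 and f_h = 1 give (s x)⁻¹ h s x = 1. Compose with
RegularWreathProduct.congr. -/
theorem kk (H G : Type) [Group H] [Finite H] [Group G] [Finite G] (φ : H →* G)
    (hk : Nat.card φ.ker = 2) : ∃ ψ : H →* C2 ≀ᵣ G, Function.Injective ψ := by
  classical
  let c : G → G := fun x => Quotient.out (Quotient.mk (QuotientGroup.rightRel φ.range) x)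
  have hc1 : ∀ x, x * (c x)⁻¹ ∈ φ.range := by
    intro x
    have h : (QuotientGroup.rightRel φ.range) (c x) x := Quotient.mk_out x
    rwa [QuotientGroup.rightRel_apply] at h
  have hc2 : ∀ (h : H) (x : G), c (φ h * x) = c x := by
    intro h x
    have e : Quotient.mk (QuotientGroup.rightRel φ.range) (φ h * x) =
        Quotient.mk (QuotientGroup.rightRel φ.range) x := by
      apply Quotient.sound
      change (QuotientGroup.rightRel φ.range) (φ h * x) x
      rw [QuotientGroup.rightRel_apply]
      refine ⟨h⁻¹, ?_⟩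
      rw [map_inv]; group
    change Quotient.out _ = Quotient.out _
    rw [e]
  choose s hs using hc1
  have hfm : ∀ (h : H) (x : G), (s x)⁻¹ * h * s ((φ h)⁻¹ * x) ∈ φ.ker := by
    intro h x
    rw [MonoidHom.mem_ker, map_mul, map_mul, map_inv, hs, hs]
    have e : c ((φ h)⁻¹ * x) = c x := by
      rw [← map_inv]; exact hc2 h⁻¹ x
    rw [e]; group
  let ψ0 : H →* φ.ker ≀ᵣ G :=
    { toFun := fun h => ⟨fun x => ⟨(s x)⁻¹ * h * s ((φ h)⁻¹ * x), hfm h x⟩, φ h⟩
      map_one' := by
        ext x
        · simp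
        · simp
      map_mul' := by
        intro h k
        ext x
        · simp only [RegularWreathProduct.mul_left, Pi.mul_apply, Subgroup.coe_mul, map_mul]
          have e : (φ h * φ k)⁻¹ * x = (φ k)⁻¹ * ((φ h)⁻¹ * x) := by group
          rw [e]
          group
        · simp }
  have hψ0 : Function.Injective ψ0 := by
    rw [injective_iff_map_eq_one]
    intro h hh
    have h1 : φ h = 1 := congrArg RegularWreathProduct.right hh
    have h2 : (s 1)⁻¹ * h * s ((φ h)⁻¹ * 1) = 1 :=
      congrArg Subtype.val (congrFun (congrArg RegularWreathProduct.left hh) 1)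
    rw [h1, inv_one, one_mul] at h2
    have h3 : h = s 1 * ((s 1)⁻¹ * h * s 1) * (s 1)⁻¹ := by group
    rw [h3, h2]; group
  have hC2 : Nat.card C2 = 2 := by
    rw [Nat.card_eq_fintype_card]; rfl
  have hp : Fact (Nat.Prime 2) := ⟨Nat.prime_two⟩
  let e : φ.ker ≃* C2 := mulEquivOfPrimeCardEq hk hC2
  refine ⟨(RegularWreathProduct.congr e (MulEquiv.refl G)).toMonoidHom.comp ψ0, ?_⟩
  exact (RegularWreathProduct.congr e (MulEquiv.refl G)).injective.comp hψ0

end H55N
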