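import Mathlib
import Pool.Agent.Lib.H55N.WR7
import Pool.Agent.Lib.H55N.WR8

open NumberField IsDedekindDomain

namespace H55N

open H55B H55C

/-! Chunk WR9 (S/M): every finite 2-group embeds. base: K = F (finrank 1, all ramification indices are 1: w.asIdeal.ramificationIdx O for the ring
O = 𝓞 F over itself). exists_embed: induction on k. k = 0: H is trivial, K = F. Step: H is a 2-group of order 2^(k+1), its centre contains an element z of
order 2 (IsPGroup.center_nontrivial, Cauchy), Z = its subgroup, normal; H/Z has order 2^k; K from the induction hypothesis with H/Z -> Gal(K/F) injective;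
phi = the composite H -> H/Z -> Gal(K/F) has kernel Z, of order 2; kk and wreath_step. -/

theorem twoExt_base : TwoExt F :=
  ⟨inferInstance, 0, by rw [Module.finrank_self, pow_zero]⟩

theorem unr_base (w : HeightOneSpectrum (𝓞 F)) : w.asIdeal.ramificationIdx O = 1 := by
  have hp := w.isPrime
  exact Ideal.ramificationIdx_eq_one w.asIdeal O

/-- A central subgroup of order two. -/
theorem WR9_centre (H : Type) [Group H] [Finite H] (k : ℕ) (hH : Nat.card H = 2 ^ (k + 1)) :
    ∃ Z : Subgroup H, Z.Normal ∧ Nat.card Z = 2 ∧ Nat.card (H ⧸ Z) = 2 ^ k := by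
  haveI : Fact (Nat.Prime 2) := ⟨Nat.prime_two⟩
  have hp : IsPGroup 2 H := IsPGroup.of_card hH
  haveI : Nontrivial H := by
    apply Finite.one_lt_card_iff_nontrivial.1
    rw [hH]
    exact Nat.one_lt_two_pow (Nat.succ_ne_zero k)
  haveI := hp.center_nontrivial
  have hc : IsPGroup 2 (Subgroup.center H) := hp.to_subgroup _
  obtain ⟨j, hj⟩ := IsPGroup.iff_card.1 hc
  have hj0 : j ≠ 0 := by
    rintro rfl
    have h1 : 1 < Nat.card (Subgroup.center H) := Finite.one_lt_card_iff_nontrivial.2 inferInstance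
    rw [hj, pow_zero] at h1
    exact lt_irrefl _ h1
  obtain ⟨z, hz⟩ := exists_prime_orderOf_dvd_card' (G := Subgroup.center H) 2
    (by rw [hj]; exact dvd_pow_self 2 hj0)
  have hz2 : orderOf (z : H) = 2 := by rw [Subgroup.orderOf_coe, hz]
  have hle : Subgroup.zpowers (z : H) ≤ Subgroup.center H := by
    rw [Subgroup.zpowers_le]
    exact z.2
  have hcard : Nat.card (Subgroup.zpowers (z : H)) = 2 := by rw [Nat.card_zpowers, hz2]
  refine ⟨Subgroup.zpowers (z : H), ⟨fun n hn g => ?_⟩, hcard, ?_⟩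
  · have h1 := Subgroup.mem_center_iff.1 (hle hn) g
    rw [h1, mul_inv_cancel_right]
    exact hn
  · have h1 := Subgroup.card_eq_card_quotient_mul_card_subgroup (Subgroup.zpowers (z : H))
    rw [hH, hcard, pow_succ] at h1
    exact (Nat.eq_of_mul_eq_mul_right two_pos h1).symm

theorem exists_embed (k : ℕ) : ∀ (H : Type) [Group H] [Finite H], Nat.card H = 2 ^ k → ∀ B : ℕ,
    ∃ (K : Type) (_ : Field K) (_ : NumberField K) (_ : Algebra F K), TwoExt K ∧ UnrOut K ∧
      (∃ φ : H →* (K ≃ₐ[F] K), Function.Injective φ) ∧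
      ∀ w : HeightOneSpectrum (𝓞 K), w.asIdeal.ramificationIdx O ≠ 1 →
        B < Ideal.absNorm w.asIdeal := by
  induction k with
  | zero =>
    intro H _ _ hH B
    rw [pow_zero] at hH
    haveI : Subsingleton H := (Nat.card_eq_one_iff_unique.1 hH).1
    exact ⟨F, inferInstance, inferInstance, Algebra.id F, twoExt_base,
      fun w v _ _ => unr_base w, ⟨1, Function.injective_of_subsingleton _⟩,
      fun w hw => absurd (unr_base w) hw⟩
  | succ k ih =>
    intro H _ _ hH B
    obtain ⟨Z, hZ, hZ2, hQ⟩ := WR9_centre H k hH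
    obtain ⟨K, _, _, _, hT, hU, ⟨φ, hφ⟩, hB⟩ := ih (H ⧸ Z) hQ B
    obtain ⟨K', _, _, _, _, _, hT', hU', ⟨e⟩, hB'⟩ := wreath_step K hT hU B hB
    haveI : Finite (K ≃ₐ[F] K) := inferInstance
    have hker : (φ.comp (QuotientGroup.mk' Z)).ker = Z := by
      ext x
      rw [MonoidHom.mem_ker, MonoidHom.comp_apply, ← map_one φ, hφ.eq_iff]
      exact QuotientGroup.eq_one_iff x
    obtain ⟨ψ, hψ⟩ := kk H (K ≃ₐ[F] K) (φ.comp (QuotientGroup.mk' Z)) (by rw [hker]; exact hZ2)
    exact ⟨K', inferInstance, inferInstance, inferInstance, hT', hU',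
      ⟨e.symm.toMonoidHom.comp ψ, e.symm.injective.comp hψ⟩, hB'⟩

end H55N
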