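import Mathlib

/-!
# H55N, part RQ: quadratic reciprocity over number fields (designer: helper35)

K'/K quadratic, K contains a square root of -3, all ramified primes odd. For x in O_K, x <> 0, prime to the
ramified primes: chi((x)) = prod over the ramified w of the quadratic residue symbols (x/w).

Paper proof. For a lattice A and a periodic function f let mean_A f be its mean value. For c in K^* put
F_c(z) = e(Tr_{K/Q}(c N z)) on O' = O_K'.
(1) Milgram: (V, B) nondegenerate symmetric over Q, j with B(jx, jy) = -3 B(x, y), A a lattice, L its dual, L in A,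
B(y,y)/2 an integer on L. Then mean_A e(B(x,x)/2) > 0. Proof: orthogonal basis v_i in L, B(v_i,v_i) = 2 a_i, M = span,
M# its dual, F = e(B/2). mean over M# of F is prod (1 + i sgn a_i)/(2 sqrt |a_i|) (rank one Gauss sums), and this is > 0 because
as many a_i are positive as negative (j). Averaging F over L first: F(x + y) = F(x) e(B(x,y)), so
mean_{M#} F = mean_{M#} (F 1_A) = mean_A F / [M# : A].
(2) Apply (1) to V = K', B(y,z) = Tr_{K'/Q}(c y sigma(z)), c = 1/n^2 and c = 1/(n^2 x), A = O', where n D_{K'}^{-1} is in O'.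
(3) The local computation: psi(t) = e(Tr(t/(n^2 x))) is a character of O_K with conductor b, psi(x t) = e(Tr(t/n^2)).
By the Chinese remainder theorem the mean of psi(N z) is the product over w | b of the means for psi_w = psi(e_w .), of conductor w^k.
w unramified: the mean is (chi(w)/Nw)^k (average over y in w^(k-1) O' to pass from k to k - 2). w ramified:
mean psi(x N z) = (x/w) mean psi(N z). Comparing the means for psi and psi(x .): 1 = chi((x)) prod (x/w).
-/

open NumberField IsDedekindDomain

namespace H55N.RQ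

/-- e(x) = exp(2 pi i x). -/
noncomputable def ex (x : ℚ) : ℂ := Complex.exp (2 * Real.pi * Complex.I * (x : ℂ))

/-- R is a finite set of representatives of A modulo B. -/
structure Reps {V : Type*} [AddCommGroup V] (A B : AddSubgroup V) (R : Finset V) : Prop where
  le : B ≤ A
  mem : ∀ r ∈ R, r ∈ A
  ex : ∀ a ∈ A, ∃ r ∈ R, a - r ∈ B
  uniq : ∀ r ∈ R, ∀ s ∈ R, r - s ∈ B → r = s

/-- f is periodic on A modulo B. -/
def Per {V : Type*} [AddCommGroup V] (A B : AddSubgroup V) (f : V → ℂ) : Prop :=
  ∀ a ∈ A, ∀ b ∈ B, f (a + b) = f a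

/-- The mean value over A of the periodic function f is μ. -/
def IsMean {V : Type*} [AddCommGroup V] (A : AddSubgroup V) (f : V → ℂ) (μ : ℂ) : Prop :=
  ∃ (B : AddSubgroup V) (R : Finset V), Reps A B R ∧ Per A B f ∧ ∑ r ∈ R, f r = R.card * μ

/-- A quadratic extension of Dedekind domains with its conjugation, norm and trace. -/
structure Qd (O O' : Type) [CommRing O] [CommRing O'] [Algebra O O'] where
  s : O' ≃ₐ[O] O'
  N : O' → O
  T : O' → O
  hN : ∀ z, algebraMap O O' (N z) = z * s z
  hT : ∀ z, algebraMap O O' (T z) = z + s z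
  ss : ∀ z, s (s z) = z
  contr : ∀ I : Ideal O, (I.map (algebraMap O O')).comap (algebraMap O O') = I
  fin : ∀ I : Ideal O, I ≠ ⊥ → Finite (O ⧸ I)
  fin' : ∀ I : Ideal O', I ≠ ⊥ → Finite (O' ⧸ I)

section
variable {O O' : Type} [CommRing O] [CommRing O'] [Algebra O O']

/-- ψ is an additive character with conductor 𝔟. -/
structure Prim (ψ : O → ℂ) (𝔟 : Ideal O) : Prop where
  zero : ψ 0 = 1
  add : ∀ x y, ψ (x + y) = ψ x * ψ y
  iff : ∀ t, t ∈ 𝔟 ↔ ∀ y, ψ (t * y) = 1

/-- w is inert. -/
def Inert (D : Qd O O') (w : Ideal O) : Prop :=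
  (w.map (algebraMap O O')).IsMaximal ∧ ∃ z, D.s z - z ∉ w.map (algebraMap O O')

/-- w is split. -/
def Split (D : Qd O O') (w : Ideal O) : Prop :=
  ∃ W : Ideal O', W.IsMaximal ∧ W.comap D.s ≠ W ∧ w.map (algebraMap O O') = W * W.comap D.s

/-- w is ramified. -/
def Ram (D : Qd O O') (w : Ideal O) : Prop :=
  ∃ W : Ideal O', W.IsMaximal ∧ w.map (algebraMap O O') = W ^ 2 ∧ (∀ z ∈ W, D.s z ∈ W) ∧
    ∀ z : O', ∃ t : O, z - algebraMap O O' t ∈ W

open Classical in
/-- The character of the extension at w (0 for ramified w). -/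
noncomputable def chiD (D : Qd O O') (w : Ideal O) : ℤ :=
  if Ram D w then 0 else if Inert D w then -1 else 1

open Classical in
/-- The quadratic residue symbol for x not in w. -/
noncomputable def qs (w : Ideal O) (x : O) : ℤ := if ∃ y, x - y ^ 2 ∈ w then 1 else -1

open Classical in
/-- The sign at w attached to an element x (j = the exponent of w in x). -/
noncomputable def sg (D : Qd O O') (w : Ideal O) (x : O) (j : ℕ) : ℤ :=
  if Ram D w then qs w x else chiD D w ^ j

end

theorem ex_add (x y : ℚ) : ex (x + y) = ex x * ex y := by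
  unfold ex
  rw [← Complex.exp_add]
  congr 1
  push_cast
  ring

theorem ex_zero : ex 0 = 1 := by simp [ex]

theorem ex_int (k : ℤ) : ex k = 1 := by
  unfold ex
  have : 2 * Real.pi * Complex.I * (((k : ℤ) : ℚ) : ℂ) = k * (2 * Real.pi * Complex.I) := by
    push_cast
    ring
  rw [this]
  exact Complex.exp_int_mul_two_pi_mul_I k

theorem ex_eq_one {x : ℚ} : ex x = 1 ↔ ∃ k : ℤ, x = k := by
  constructor
  · intro h
    unfold ex at h
    rw [Complex.exp_eq_one_iff] at h
    obtain ⟨k, hk⟩ := h
    refine ⟨k, ?_⟩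
    have h2 : (2 * Real.pi * Complex.I : ℂ) ≠ 0 := Complex.two_pi_I_ne_zero
    have h3 : (x : ℂ) = k := by
      apply mul_left_cancel₀ h2
      rw [hk]
      ring
    exact_mod_cast h3
  · rintro ⟨k, rfl⟩
    exact ex_int k

theorem ex_ne_zero (x : ℚ) : ex x ≠ 0 := Complex.exp_ne_zero _

end H55N.RQ
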