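import Mathlib
import Pool.Agent.Lib.H55N.RQ0

namespace H55N.RQ

variable {V : Type*} [AddCommGroup V]

/-! Chunk RQ1 (M, pure algebra): representatives and means.
reps_exists_iff: Reps A B R for some finite R iff B <= A and B has finite index in A (B.relIndex A <> 0); then |R| = B.relIndex A.
reps_trans: if R represents A modulo C and R' represents C modulo B, then the sums r + r' represent A modulo B
(the map (r, r') -> r + r' is injective on R x R').
mean_reps: the mean can be computed with any periodicity subgroup of finite index. Proof: both B (given) and B0 (from IsMean)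
have finite index in A, hence D = B meet B0 too; choose representatives R' of B modulo D and R0' of B0 modulo D; R + R' and
R0 + R0' both represent A modulo D and f is periodic modulo D, so the sums of f over them agree (bijection between two systems of
representatives), and the sum over R + R' is |R'| times the sum over R (f(r + r') = f(r)), same for R0; |R||R'| = |R0||R0'|. -/

theorem rq1_mk_eq {A B : AddSubgroup V} (x y : A) :
    (QuotientAddGroup.mk x : A ⧸ B.addSubgroupOf A) = QuotientAddGroup.mk y ↔ (x : V) - y ∈ B := by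
  rw [eq_comm, QuotientAddGroup.eq, AddSubgroup.mem_addSubgroupOf]
  push_cast
  rw [neg_add_eq_sub]

theorem reps_card {A B : AddSubgroup V} {R : Finset V} (h : Reps A B R) :
    R.card = B.relIndex A := by
  have hc : Nat.card R = R.card := by rw [Nat.card_eq_fintype_card, Fintype.card_coe]
  rw [AddSubgroup.relIndex, AddSubgroup.index, ← hc]
  refine Nat.card_congr (Equiv.ofBijective
    (fun r : R => (QuotientAddGroup.mk (⟨r.1, h.mem _ r.2⟩ : A) : A ⧸ B.addSubgroupOf A)) ⟨?_, ?_⟩)
  · intro r s hrs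
    exact Subtype.ext (h.uniq _ r.2 _ s.2 ((rq1_mk_eq _ _).1 hrs))
  · intro q
    obtain ⟨a, rfl⟩ := QuotientAddGroup.mk_surjective q
    obtain ⟨r, hr, hra⟩ := h.ex a a.2
    exact ⟨⟨r, hr⟩, ((rq1_mk_eq _ _).2 hra).symm⟩

theorem reps_exists {A B : AddSubgroup V} (h : B ≤ A) (hi : B.relIndex A ≠ 0) :
    ∃ R : Finset V, Reps A B R := by
  classical
  have hfin : Finite (A ⧸ B.addSubgroupOf A) := AddSubgroup.index_ne_zero_iff_finite.1 hi
  have hft := Fintype.ofFinite (A ⧸ B.addSubgroupOf A)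
  refine ⟨Finset.univ.image fun q : A ⧸ B.addSubgroupOf A => ((Quotient.out q : A) : V), h, ?_, ?_, ?_⟩
  · intro r hr
    rw [Finset.mem_image] at hr
    obtain ⟨q, _, rfl⟩ := hr
    exact (Quotient.out q : A).2
  · intro a ha
    refine ⟨_, Finset.mem_image_of_mem _ (Finset.mem_univ (QuotientAddGroup.mk (⟨a, ha⟩ : A))), ?_⟩
    refine (rq1_mk_eq (⟨a, ha⟩ : A) _).1 ?_
    exact (QuotientAddGroup.out_eq' _).symm
  · intro r hr s hs hrs
    rw [Finset.mem_image] at hr hs
    obtain ⟨q, _, rfl⟩ := hr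
    obtain ⟨q', _, rfl⟩ := hs
    have h1 := (rq1_mk_eq _ _).2 hrs
    rw [QuotientAddGroup.out_eq', QuotientAddGroup.out_eq'] at h1
    rw [h1]

theorem reps_nonempty {A B : AddSubgroup V} {R : Finset V} (h : Reps A B R) : R.Nonempty := by
  obtain ⟨r, hr, -⟩ := h.ex 0 A.zero_mem
  exact ⟨r, hr⟩

open Classical in
theorem reps_trans {A B C : AddSubgroup V} {R R' : Finset V} (h : Reps A C R) (h' : Reps C B R') :
    Reps A B ((R ×ˢ R').image fun p => p.1 + p.2) ∧
      Set.InjOn (fun p : V × V => p.1 + p.2) ((R ×ˢ R' : Finset (V × V)) : Set (V × V)) := by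
  have key : ∀ r ∈ R, ∀ r' ∈ R', ∀ s ∈ R, ∀ s' ∈ R', (r + r') - (s + s') ∈ B → r = s ∧ r' = s' := by
    intro r hr r' hr' s hs s' hs' hB
    have h1 : r - s ∈ C := by
      have h2 : r - s = ((r + r') - (s + s')) - (r' - s') := by abel
      rw [h2]
      exact C.sub_mem (h'.le hB) (C.sub_mem (h'.mem _ hr') (h'.mem _ hs'))
    have h3 := h.uniq r hr s hs h1
    refine ⟨h3, h'.uniq r' hr' s' hs' ?_⟩
    rw [h3] at hB
    have h4 : r' - s' = (s + r') - (s + s') := by abel
    rw [h4]
    exact hB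
  constructor
  · refine ⟨h'.le.trans h.le, ?_, ?_, ?_⟩
    · intro x hx
      rw [Finset.mem_image] at hx
      obtain ⟨p, hp, rfl⟩ := hx
      rw [Finset.mem_product] at hp
      exact A.add_mem (h.mem _ hp.1) (h.le (h'.mem _ hp.2))
    · intro a ha
      obtain ⟨r, hr, hra⟩ := h.ex a ha
      obtain ⟨r', hr', hra'⟩ := h'.ex _ hra
      refine ⟨r + r', Finset.mem_image.2 ⟨(r, r'), Finset.mem_product.2 ⟨hr, hr'⟩, rfl⟩, ?_⟩
      rw [← sub_sub]
      exact hra'
    · intro x hx y hy hxy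
      rw [Finset.mem_image] at hx hy
      obtain ⟨p, hp, rfl⟩ := hx
      obtain ⟨q, hq, rfl⟩ := hy
      rw [Finset.mem_product] at hp hq
      obtain ⟨h1, h2⟩ := key _ hp.1 _ hp.2 _ hq.1 _ hq.2 hxy
      rw [h1, h2]
  · intro p hp q hq hpq
    rw [Finset.mem_coe, Finset.mem_product] at hp hq
    obtain ⟨h1, h2⟩ := key _ hp.1 _ hp.2 _ hq.1 _ hq.2 (by
      have h3 : p.1 + p.2 = q.1 + q.2 := hpq
      rw [h3, sub_self]
      exact B.zero_mem)
    exact Prod.ext h1 h2

/-- Two systems of representatives give the same sum of a periodic function. -/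
theorem sum_reps {A B : AddSubgroup V} {R R' : Finset V} (h : Reps A B R) (h' : Reps A B R')
    {f : V → ℂ} (hf : Per A B f) : ∑ r ∈ R, f r = ∑ r ∈ R', f r := by
  have h1 := h.ex
  have h2 := h'.ex
  choose! φ hφ using h2
  choose! ψ hψ using h1
  refine Finset.sum_nbij' φ ψ ?_ ?_ ?_ ?_ ?_
  · intro r hr
    exact (hφ r (h.mem r hr)).1
  · intro r hr
    exact (hψ r (h'.mem r hr)).1
  · intro r hr
    have e1 := (hφ r (h.mem r hr))
    have e2 := (hψ _ (h'.mem _ e1.1))
    refine h.uniq _ e2.1 _ hr ?_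
    have e3 : ψ (φ r) - r = -((r - φ r) + (φ r - ψ (φ r))) := by abel
    rw [e3]
    exact B.neg_mem (B.add_mem e1.2 e2.2)
  · intro r hr
    have e1 := (hψ r (h'.mem r hr))
    have e2 := (hφ _ (h.mem _ e1.1))
    refine h'.uniq _ e2.1 _ hr ?_
    have e3 : φ (ψ r) - r = -((r - ψ r) + (ψ r - φ (ψ r))) := by abel
    rw [e3]
    exact B.neg_mem (B.add_mem e1.2 e2.2)
  · intro r hr
    have e1 := (hφ r (h.mem r hr))
    have e2 := hf (φ r) (h'.mem _ e1.1) _ e1.2
    rw [← e2]
    congr 1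
    abel

theorem rq1_sum_image {A B C : AddSubgroup V} {R R' : Finset V} (h : Reps A C R) (h' : Reps C B R')
    {f : V → ℂ} (hf : Per A C f) [DecidableEq V] :
    ∑ x ∈ (R ×ˢ R').image (fun p => p.1 + p.2), f x = R'.card * ∑ r ∈ R, f r := by
  have h1 := (reps_trans h h').2
  rw [Finset.sum_image (fun p hp q hq hpq => h1 (Finset.mem_coe.2 hp) (Finset.mem_coe.2 hq) hpq),
    Finset.sum_product, Finset.mul_sum]
  refine Finset.sum_congr rfl fun r hr => ?_
  have h2 : ∀ r' ∈ R', f (r + r') = f r := fun r' hr' => hf r (h.mem r hr) r' (h'.mem r' hr')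
  rw [Finset.sum_congr rfl h2, Finset.sum_const, nsmul_eq_mul]

theorem mean_reps {A B : AddSubgroup V} {R : Finset V} {f : V → ℂ} {μ : ℂ} (h : IsMean A f μ)
    (hR : Reps A B R) (hf : Per A B f) : ∑ r ∈ R, f r = R.card * μ := by
  classical
  obtain ⟨B₀, R₀, hR₀, hf₀, hμ⟩ := h
  have h1 : B.relIndex A ≠ 0 := by
    rw [← reps_card hR]
    exact (Finset.card_pos.2 (reps_nonempty hR)).ne'
  have h2 : B₀.relIndex A ≠ 0 := by
    rw [← reps_card hR₀]
    exact (Finset.card_pos.2 (reps_nonempty hR₀)).ne'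
  have h3 : (B ⊓ B₀).relIndex A ≠ 0 := AddSubgroup.relIndex_inf_ne_zero h1 h2
  have h4 : (B ⊓ B₀).relIndex B ≠ 0 := fun h => h3 (AddSubgroup.relIndex_eq_zero_of_le_right hR.le h)
  have h5 : (B ⊓ B₀).relIndex B₀ ≠ 0 := fun h =>
    h3 (AddSubgroup.relIndex_eq_zero_of_le_right hR₀.le h)
  obtain ⟨R', hR'⟩ := reps_exists inf_le_left h4
  obtain ⟨R₀', hR₀'⟩ := reps_exists inf_le_right h5
  have e1 := (reps_trans hR hR').1
  have e2 := (reps_trans hR₀ hR₀').1
  have hD : Per A (B ⊓ B₀) f := fun a ha b hb => hf a ha b hb.1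
  have e3 := sum_reps e1 e2 hD
  rw [rq1_sum_image hR hR' hf, rq1_sum_image hR₀ hR₀' hf₀, hμ] at e3
  have e4 : R.card * R'.card = R₀.card * R₀'.card := by
    have c1 := reps_card e1
    have c2 := reps_card e2
    rw [Finset.card_image_of_injOn (reps_trans hR hR').2, Finset.card_product] at c1
    rw [Finset.card_image_of_injOn (reps_trans hR₀ hR₀').2, Finset.card_product] at c2
    rw [c1, c2]
  have e5 : (R.card : ℂ) * R'.card = R₀.card * R₀'.card := by exact_mod_cast e4
  have e6 : (R'.card : ℂ) ≠ 0 := by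
    exact_mod_cast (Finset.card_pos.2 (reps_nonempty hR')).ne'
  apply mul_left_cancel₀ e6
  rw [e3]
  linear_combination (-μ) * e5

end H55N.RQ
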