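import Mathlib
import Pool.Agent.Lib.H55N.RQ1

namespace H55N.RQ

variable {V : Type*} [AddCommGroup V]

/-! Chunk RQ2 (S/M): consequences of RQ1.
reps_mid: B <= C <= A with A/B finite: A/C and C/B are finite (AddSubgroup.relIndex_dvd..., reps_exists).
mean_unique: mean_reps for the second function and the data of the first (card <> 0).
mean_exists: take mu = (sum over R)/|R|.
mean_congr: f = g on A. mean_mul: constants. mean_const. -/

theorem rq2_ne {A B : AddSubgroup V} {R : Finset V} (h : Reps A B R) : B.relIndex A ≠ 0 := by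
  rw [← reps_card h]
  exact (Finset.card_pos.2 (reps_nonempty h)).ne'

theorem rq2_card_ne {A B : AddSubgroup V} {R : Finset V} (h : Reps A B R) : (R.card : ℂ) ≠ 0 := by
  exact_mod_cast (Finset.card_pos.2 (reps_nonempty h)).ne'

theorem reps_mid {A B C : AddSubgroup V} {R : Finset V} (h : Reps A B R) (h1 : B ≤ C) (h2 : C ≤ A) :
    (∃ R' : Finset V, Reps A C R') ∧ ∃ R'' : Finset V, Reps C B R'' := by
  have h3 := rq2_ne h
  rw [← AddSubgroup.relIndex_mul_relIndex B C A h1 h2, mul_ne_zero_iff] at h3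
  exact ⟨reps_exists h2 h3.2, reps_exists h1 h3.1⟩

theorem mean_unique {A : AddSubgroup V} {f : V → ℂ} {μ ν : ℂ} (h : IsMean A f μ)
    (h' : IsMean A f ν) : μ = ν := by
  obtain ⟨B, R, hR, hf, hν⟩ := h'
  have h1 := mean_reps h hR hf
  rw [hν] at h1
  exact (mul_left_cancel₀ (rq2_card_ne hR) h1).symm

theorem mean_exists {A B : AddSubgroup V} {R : Finset V} {f : V → ℂ} (hR : Reps A B R)
    (hf : Per A B f) : ∃ μ, IsMean A f μ := by
  refine ⟨(∑ r ∈ R, f r) / R.card, B, R, hR, hf, ?_⟩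
  rw [mul_div_cancel₀ _ (rq2_card_ne hR)]

theorem mean_congr {A : AddSubgroup V} {f g : V → ℂ} {μ : ℂ} (h : IsMean A f μ)
    (hfg : ∀ a ∈ A, f a = g a) : IsMean A g μ := by
  obtain ⟨B, R, hR, hf, hμ⟩ := h
  refine ⟨B, R, hR, ?_, ?_⟩
  · intro a ha b hb
    rw [← hfg _ (A.add_mem ha (hR.le hb)), ← hfg a ha, hf a ha b hb]
  · rw [← hμ]
    exact Finset.sum_congr rfl fun r hr => (hfg r (hR.mem r hr)).symm

theorem mean_mul {A : AddSubgroup V} {f : V → ℂ} {μ : ℂ} (h : IsMean A f μ) (c : ℂ) :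
    IsMean A (fun x => c * f x) (c * μ) := by
  obtain ⟨B, R, hR, hf, hμ⟩ := h
  refine ⟨B, R, hR, ?_, ?_⟩
  · intro a ha b hb
    show c * f (a + b) = c * f a
    rw [hf a ha b hb]
  · rw [← Finset.mul_sum, hμ]
    ring

theorem mean_const (A : AddSubgroup V) (c : ℂ) : IsMean A (fun _ => c) c := by
  refine ⟨A, {0}, ⟨le_rfl, ?_, ?_, ?_⟩, fun _ _ _ _ => rfl, ?_⟩
  · intro r hr
    rw [Finset.mem_singleton.1 hr]
    exact A.zero_mem
  · intro a ha
    exact ⟨0, Finset.mem_singleton_self 0, by rw [sub_zero]; exact ha⟩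
  · intro r hr s hs _
    rw [Finset.mem_singleton.1 hr, Finset.mem_singleton.1 hs]
  · simp

/-- Translated systems of representatives. -/
theorem rq2_shift [DecidableEq V] {A B : AddSubgroup V} {R : Finset V} (h : Reps A B R) {c : V}
    (hc : c ∈ A) : Reps A B (R.image fun r => c + r) := by
  refine ⟨h.le, ?_, ?_, ?_⟩
  · intro r hr
    obtain ⟨s, hs, rfl⟩ := Finset.mem_image.1 hr
    exact A.add_mem hc (h.mem s hs)
  · intro a ha
    obtain ⟨r, hr, hra⟩ := h.ex (a - c) (A.sub_mem ha hc)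
    refine ⟨c + r, Finset.mem_image_of_mem _ hr, ?_⟩
    rw [← sub_sub]
    exact hra
  · intro r hr s hs hrs
    obtain ⟨r', hr', rfl⟩ := Finset.mem_image.1 hr
    obtain ⟨s', hs', rfl⟩ := Finset.mem_image.1 hs
    rw [add_sub_add_left_eq_sub] at hrs
    rw [h.uniq r' hr' s' hs' hrs]

theorem rq2_sum_shift {A B : AddSubgroup V} {R : Finset V} (h : Reps A B R) {f : V → ℂ}
    (hf : Per A B f) {c : V} (hc : c ∈ A) : ∑ r ∈ R, f (c + r) = ∑ r ∈ R, f r := by
  classical
  have h1 := sum_reps (rq2_shift h hc) h hf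
  rw [Finset.sum_image (fun a _ b _ hab => add_left_cancel hab)] at h1
  exact h1

end H55N.RQ
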