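import Mathlib
import Pool.Agent.Lib.H55N.RQ2

namespace H55N.RQ

variable {O O' : Type} [CommRing O] [CommRing O'] [Algebra O O']

/-! Chunk RQ10 (M): basic facts on Qd and Prim.
alg_inj: contr for the zero ideal. N_mul, N_one, N_alg (N(t) = t^2 for t in O), N_s: apply hN and alg_inj. T_add, T_smul, T_s similarly.
N_add: N(z + y) = N z + N y + T(z s(y)): the product (z+y)(s z + s y). N_mem: if z is in I O' then N z is in I^2: z s(z) is in (I^2) O'
(s maps I O' to itself, Ideal.map_mul), contr. T_mem: T(z) in I.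
psi_zero, psi_neg: from Prim. periodic: psi(N(z+y)) = psi(N z) for y in b O'. mean_exists_N: b <> 0, so psi o N is periodic modulo the ideal
b O' (of finite index, fin'), hence has a mean. -/

theorem alg_inj (D : Qd O O') : Function.Injective (algebraMap O O') := by
  rw [injective_iff_map_eq_zero]
  intro x hx
  have h := D.contr ⊥
  rw [Ideal.map_bot] at h
  have h1 : x ∈ (⊥ : Ideal O').comap (algebraMap O O') := by
    rw [Ideal.mem_comap, hx]
    exact Ideal.zero_mem _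
  rw [h] at h1
  exact h1

theorem N_mul (D : Qd O O') (z y : O') : D.N (z * y) = D.N z * D.N y := by
  apply alg_inj D
  rw [map_mul, D.hN, D.hN, D.hN, map_mul]
  ring

theorem N_alg (D : Qd O O') (t : O) : D.N (algebraMap O O' t) = t ^ 2 := by
  apply alg_inj D
  rw [D.hN, map_pow, AlgEquiv.commutes]
  ring

theorem T_add (D : Qd O O') (z y : O') : D.T (z + y) = D.T z + D.T y := by
  apply alg_inj D
  rw [map_add, D.hT, D.hT, D.hT, map_add]
  ring

theorem T_smul (D : Qd O O') (t : O) (z : O') : D.T (algebraMap O O' t * z) = t * D.T z := by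
  apply alg_inj D
  rw [map_mul, D.hT, D.hT, map_mul, AlgEquiv.commutes]
  ring

theorem T_s (D : Qd O O') (z : O') : D.T (D.s z) = D.T z := by
  apply alg_inj D
  rw [D.hT, D.hT, D.ss]
  ring

theorem N_add (D : Qd O O') (z y : O') : D.N (z + y) = D.N z + D.N y + D.T (z * D.s y) := by
  apply alg_inj D
  rw [map_add, map_add, D.hN, D.hN, D.hN, D.hT, map_add, map_mul, D.ss]
  ring

theorem s_mem (D : Qd O O') (I : Ideal O) (z : O') (hz : z ∈ I.map (algebraMap O O')) :
    D.s z ∈ I.map (algebraMap O O') := by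
  have h : I.map (algebraMap O O') ≤ (I.map (algebraMap O O')).comap D.s := by
    rw [Ideal.map_le_iff_le_comap]
    intro x hx
    show D.s (algebraMap O O' x) ∈ I.map (algebraMap O O')
    rw [AlgEquiv.commutes]
    exact Ideal.mem_map_of_mem _ hx
  exact h hz

theorem N_mem (D : Qd O O') (I : Ideal O) (z : O') (hz : z ∈ I.map (algebraMap O O')) :
    D.N z ∈ I ^ 2 := by
  rw [← D.contr (I ^ 2), Ideal.mem_comap, D.hN, pow_two, Ideal.map_mul]
  exact Ideal.mul_mem_mul hz (s_mem D I z hz)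

theorem T_mem (D : Qd O O') (I : Ideal O) (z : O') (hz : z ∈ I.map (algebraMap O O')) :
    D.T z ∈ I := by
  rw [← D.contr I, Ideal.mem_comap, D.hT]
  exact Ideal.add_mem _ hz (s_mem D I z hz)

theorem psi_of_mem {ψ : O → ℂ} {𝔟 : Ideal O} (h : Prim ψ 𝔟) {t : O} (ht : t ∈ 𝔟) : ψ t = 1 := by
  have h1 := (h.iff t).1 ht 1
  rwa [mul_one] at h1

theorem psi_N_periodic (D : Qd O O') {ψ : O → ℂ} {𝔟 : Ideal O} (h : Prim ψ 𝔟) (z y : O')
    (hy : y ∈ 𝔟.map (algebraMap O O')) : ψ (D.N (z + y)) = ψ (D.N z) := by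
  have h1 : D.N y ∈ 𝔟 := Ideal.pow_le_self two_ne_zero (N_mem D 𝔟 y hy)
  have h2 : D.T (z * D.s y) ∈ 𝔟 := T_mem D 𝔟 _ (Ideal.mul_mem_left _ _ (s_mem D 𝔟 y hy))
  rw [N_add, h.add, h.add, psi_of_mem h h1, psi_of_mem h h2, mul_one, mul_one]

/-- Ideals of finite index as subgroups. -/
theorem reps_ideal (D : Qd O O') (I J : Ideal O') (hI : I ≠ ⊥) (hIJ : I ≤ J) :
    ∃ R : Finset O', Reps J.toAddSubgroup I.toAddSubgroup R := by
  classical
  have hfin := D.fin' I hI
  let _ : Fintype (O' ⧸ I) := Fintype.ofFinite _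
  let f : O' ⧸ I → O' := fun q =>
    if h : ∃ a ∈ J, Ideal.Quotient.mk I a = q then h.choose else 0
  have hf : ∀ q, (∃ a ∈ J, Ideal.Quotient.mk I a = q) → f q ∈ J ∧ Ideal.Quotient.mk I (f q) = q := by
    intro q hq
    have h1 : f q = hq.choose := dif_pos hq
    rw [h1]
    exact hq.choose_spec
  refine ⟨(Finset.univ.filter fun q => ∃ a ∈ J, Ideal.Quotient.mk I a = q).image f, hIJ, ?_, ?_, ?_⟩
  · intro r hr
    rw [Finset.mem_image] at hr
    obtain ⟨q, hq, rfl⟩ := hr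
    exact (hf q (Finset.mem_filter.1 hq).2).1
  · intro a ha
    have h1 : ∃ b ∈ J, Ideal.Quotient.mk I b = Ideal.Quotient.mk I a := ⟨a, ha, rfl⟩
    refine ⟨f (Ideal.Quotient.mk I a), Finset.mem_image_of_mem f
      (Finset.mem_filter.2 ⟨Finset.mem_univ _, h1⟩), ?_⟩
    show a - f (Ideal.Quotient.mk I a) ∈ I
    rw [← Ideal.Quotient.mk_eq_mk_iff_sub_mem]
    exact (hf _ h1).2.symm
  · intro r hr t ht hrt
    rw [Finset.mem_image] at hr ht
    obtain ⟨q, hq, rfl⟩ := hr
    obtain ⟨q', hq', rfl⟩ := ht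
    have h1 : f q - f q' ∈ I := hrt
    rw [← Ideal.Quotient.mk_eq_mk_iff_sub_mem, (hf q (Finset.mem_filter.1 hq).2).2,
      (hf q' (Finset.mem_filter.1 hq').2).2] at h1
    rw [h1]

theorem reps_ideal_top (D : Qd O O') (I : Ideal O') (hI : I ≠ ⊥) :
    ∃ R : Finset O', Reps (⊤ : AddSubgroup O') I.toAddSubgroup R := by
  exact reps_ideal D I ⊤ hI le_top

theorem mean_exists_N (D : Qd O O') {ψ : O → ℂ} {𝔟 : Ideal O} (h : Prim ψ 𝔟) (hb : 𝔟 ≠ ⊥) :
    ∃ μ, IsMean (⊤ : AddSubgroup O') (fun z => ψ (D.N z)) μ := by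
  have h1 : 𝔟.map (algebraMap O O') ≠ ⊥ := by
    intro h0
    apply hb
    have h2 := D.contr 𝔟
    rw [h0] at h2
    rw [← h2, eq_bot_iff]
    intro x hx
    exact alg_inj D (by rw [map_zero]; exact hx)
  obtain ⟨R, hR⟩ := reps_ideal_top D _ h1
  exact mean_exists hR (fun a _ b hb' => psi_N_periodic D h a b hb')

end H55N.RQ
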