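import Mathlib
import Pool.Agent.Lib.H55N.RQ10

namespace H55N.RQ

variable {O O' : Type} [CommRing O] [CommRing O'] [Algebra O O']

/-! Chunk RQ12 (M, ideals): the trace forms.
tr_inert, tr_split: T(z O') in w iff z in w O'. If z in w O': T_mem. Conversely, inert: k' = O'/wO' is a field; if z is not in wO', for every u there is y with
zy = u mod wO' (Ideal.Quotient), so u + s(u) is in wO' for all u; u = 1: 2 in wO', hence s(u) - u = (u + s(u)) - 2u is in wO' for all u,
against Inert. Split: w O' = W W' with W' = s^{-1}(W) = s(W) (ss), W <> W' maximal. If z is not in W choose y in W' with z y = 1 mod W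
(W' not in W, W maximal); then s(zy) is in W, so T(zy) = zy + s(zy) = 1 mod W, so T(zy) is not in w (w O' is in W). If z is not in W':
s(z) is not in W, use T_s. So z is in W meet W' = W W'.
tr_ram: 2 not in w: T(z O') in w iff z in W (W the prime of Ram). If z in W: zy and s(zy) are in W, T(zy) in W meet O = w (W^2 = wO' gives w <= W meet O,
w maximal). If z is not in W: zy = 1 mod W for some y, s(zy) = 1 mod W, T(zy) = 2 mod W, not in W. -/

theorem rq12_inert (D : Qd O O') (w : Ideal O) (h : Inert D w) (z : O')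
    (hz : ∀ y, D.T (z * y) ∈ w) : z ∈ w.map (algebraMap O O') := by
  obtain ⟨hW, z0, hz0⟩ := h
  by_contra hzW
  obtain ⟨y, i, hi, hyi⟩ := hW.exists_inv hzW
  have key : ∀ u, u + D.s u ∈ w.map (algebraMap O O') := by
    intro u
    have h1 := Ideal.mem_map_of_mem (algebraMap O O') (hz (y * u))
    rw [D.hT] at h1
    have h2 : u = z * (y * u) + i * u := by linear_combination (-u) * hyi
    have h3 : D.s u = D.s (z * (y * u)) + D.s (i * u) := by
      rw [← map_add, ← h2]
    have h4 : i * u ∈ w.map (algebraMap O O') := Ideal.mul_mem_right _ _ hi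
    have h5 : D.s (i * u) ∈ w.map (algebraMap O O') := s_mem D w _ h4
    have h6 : u + D.s u = (z * (y * u) + D.s (z * (y * u))) + (i * u + D.s (i * u)) := by
      rw [h3]
      nth_rewrite 1 [h2]
      ring
    rw [h6]
    exact Ideal.add_mem _ h1 (Ideal.add_mem _ h4 h5)
  apply hz0
  have h7 := key 1
  rw [map_one] at h7
  have h8 : D.s z0 - z0 = (z0 + D.s z0) - z0 * (1 + 1) := by ring
  rw [h8]
  exact Ideal.sub_mem _ (key z0) (Ideal.mul_mem_left _ _ h7)

theorem rq12_split (D : Qd O O') (w : Ideal O) (W : Ideal O') (hW : W.IsMaximal)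
    (hne : W.comap D.s ≠ W) (hmul : w.map (algebraMap O O') = W * W.comap D.s) (z : O')
    (hz : ∀ y, D.T (z * y) ∈ w) : z ∈ W := by
  by_contra hzW
  have hmax : (W.comap D.s).IsMaximal :=
    Ideal.comap_isMaximal_of_surjective (D.s : O' →+* O') D.s.surjective
  have hnle : ¬ W.comap D.s ≤ W := fun hle => hne (hmax.eq_of_le hW.ne_top hle)
  obtain ⟨c, hc, hcW⟩ := Set.not_subset.1 hnle
  have hzc : z * c ∉ W := fun h => (hW.isPrime.mem_or_mem h).elim hzW hcW
  obtain ⟨b, i, hi, hbi⟩ := hW.exists_inv hzc
  have h1 := Ideal.mem_map_of_mem (algebraMap O O') (hz (c * b))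
  rw [D.hT, hmul] at h1
  have h2 := Ideal.mul_le_right (I := W.comap D.s) (J := W) (by rw [mul_comm]; exact h1)
  have h3 : D.s (z * (c * b)) ∈ W := by
    rw [map_mul, map_mul]
    exact Ideal.mul_mem_left _ _ (Ideal.mul_mem_right _ _ hc)
  apply hW.ne_top
  rw [Ideal.eq_top_iff_one]
  have h4 : (1 : O') = (z * (c * b) + D.s (z * (c * b))) - D.s (z * (c * b)) + i := by
    linear_combination -hbi
  rw [h4]
  exact Ideal.add_mem _ (Ideal.sub_mem _ h2 h3) hi

theorem rq12_comap (w : Ideal O) (hw : w.IsMaximal) (W : Ideal O') (hW : W ≠ ⊤)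
    (hle : w.map (algebraMap O O') ≤ W) : W.comap (algebraMap O O') = w := by
  symm
  apply hw.eq_of_le
  · rw [Ne, Ideal.eq_top_iff_one, Ideal.mem_comap, map_one, ← Ideal.eq_top_iff_one]
    exact hW
  · exact Ideal.map_le_iff_le_comap.1 hle

theorem tr_unram (D : Qd O O') (w : Ideal O) (hw : w.IsMaximal) (h : Inert D w ∨ Split D w) (z : O') :
    z ∈ w.map (algebraMap O O') ↔ ∀ y, D.T (z * y) ∈ w := by
  constructor
  · intro hz y
    exact T_mem D w _ (Ideal.mul_mem_right _ _ hz)
  · intro hz
    rcases h with h | ⟨W, hW, hne, hmul⟩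
    · exact rq12_inert D w h z hz
    · have h1 := rq12_split D w W hW hne hmul z hz
      have h2 := rq12_split D w W hW hne hmul (D.s z) (by
        intro y
        have h3 : D.T (D.s z * y) = D.T (z * D.s y) := by
          rw [← T_s D (z * D.s y), map_mul, D.ss]
        rw [h3]
        exact hz _)
      have hmax : (W.comap D.s).IsMaximal :=
        Ideal.comap_isMaximal_of_surjective (D.s : O' →+* O') D.s.surjective
      have hcop : IsCoprime W (W.comap D.s) :=
        Ideal.isCoprime_iff_sup_eq.2 (hW.coprime_of_ne hmax hne.symm)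
      rw [hmul, Ideal.mul_eq_inf_of_isCoprime hcop]
      exact ⟨h1, h2⟩

theorem tr_ram (D : Qd O O') (w : Ideal O) (hw : w.IsMaximal) (h2 : (2 : O) ∉ w) (W : Ideal O')
    (hW : W.IsMaximal) (hW2 : w.map (algebraMap O O') = W ^ 2) (hs : ∀ z ∈ W, D.s z ∈ W) (z : O') :
    z ∈ W ↔ ∀ y, D.T (z * y) ∈ w := by
  have hle : w.map (algebraMap O O') ≤ W := by
    rw [hW2]
    exact Ideal.pow_le_self two_ne_zero
  have hcom := rq12_comap w hw W hW.ne_top hle
  constructor
  · intro hz y
    rw [← hcom, Ideal.mem_comap, D.hT]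
    exact Ideal.add_mem _ (Ideal.mul_mem_right _ _ hz) (hs _ (Ideal.mul_mem_right _ _ hz))
  · intro hz
    by_contra hzW
    obtain ⟨y, i, hi, hyi⟩ := hW.exists_inv hzW
    have h1 := hle (Ideal.mem_map_of_mem (algebraMap O O') (hz y))
    rw [D.hT] at h1
    apply h2
    rw [← hcom, Ideal.mem_comap, map_ofNat]
    have h3 : D.s (z * y) = 1 - D.s i := by
      have : z * y = 1 - i := by linear_combination hyi
      rw [this, map_sub, map_one]
    have h4 : (2 : O') = (z * y + D.s (z * y)) + i + D.s i := by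
      rw [h3]
      linear_combination -hyi
    rw [h4]
    exact Ideal.add_mem _ (Ideal.add_mem _ h1 hi) (hs _ hi)

theorem rq12_T (D : Qd O O') (w I : Ideal O) (z : O') (hz : ∀ y, D.T (z * y) ∈ w) (y : O')
    (hy : y ∈ I.map (algebraMap O O')) : D.T (z * y) ∈ I * w := by
  have key : ∀ u, D.T (z * (y * u)) ∈ I * w := by
    induction hy using Submodule.span_induction with
    | mem x hx =>
      obtain ⟨a, ha, rfl⟩ := hx
      intro u
      have h1 : z * (algebraMap O O' a * u) = algebraMap O O' a * (z * u) := by ring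
      rw [h1, T_smul]
      exact Ideal.mul_mem_mul ha (hz u)
    | zero =>
      intro u
      rw [zero_mul, mul_zero]
      have : D.T 0 = 0 := by
        have h := T_smul D 0 0
        rw [zero_mul, mul_zero] at h
        exact h
      rw [this]
      exact Ideal.zero_mem _
    | add x y _ _ hx hy =>
      intro u
      rw [add_mul, mul_add, T_add]
      exact Ideal.add_mem _ (hx u) (hy u)
    | smul a x _ hx =>
      intro u
      have h1 : z * ((a • x) * u) = z * (x * (a * u)) := by
        rw [smul_eq_mul]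
        ring
      rw [h1]
      exact hx _
  have := key 1
  rwa [mul_one] at this

/-- Reduction to the trace forms: for ψ of conductor w^k, k >= 1, Y = w^(k-1) O': psi(T(z s y)) = 1 for all y in Y iff T(z O') is in w.
Proof: y runs through sums of a y', a in w^(k-1), y' in O' (Submodule.span_induction or Ideal.mem_map...), s(a y') = a s(y'). The condition
gives psi(a t T(z y')) = 1 for all t in O (replace y' by t y'), so a T(z y') is in w^k for all a in w^(k-1) (Prim.iff), that is
(T(z y')) w^(k-1) <= w^k, so T(z y') in w (Dedekind: span{T} w^(k-1) <= w w^(k-1), cancel w^(k-1)). Conversely T(z y) in w^k for y in Y. -/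
theorem Z_iff [IsDedekindDomain O] (D : Qd O O') (w : Ideal O) (hw : w.IsMaximal) (hw0 : w ≠ ⊥) (k : ℕ)
    {ψ : O → ℂ} (h : Prim ψ (w ^ (k + 1))) (z : O') :
    (∀ y ∈ (w ^ k).map (algebraMap O O'), ψ (D.T (z * D.s y)) = 1) ↔ ∀ y, D.T (z * y) ∈ w := by
  constructor
  · intro hz y
    have h1 : ∀ a ∈ w ^ k, a * D.T (z * y) ∈ w ^ (k + 1) := by
      intro a ha
      rw [h.iff]
      intro t
      have h2 := hz (D.s (algebraMap O O' (a * t) * y)) (by
        apply s_mem
        apply Ideal.mul_mem_right
        exact Ideal.mem_map_of_mem _ (Ideal.mul_mem_right _ _ ha))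
      rw [D.ss] at h2
      have h3 : z * (algebraMap O O' (a * t) * y) = algebraMap O O' (a * t) * (z * y) := by ring
      rw [h3, T_smul] at h2
      rw [← h2]
      congr 1
      ring
    have h4 : Ideal.span {D.T (z * y)} * w ^ k ≤ w * w ^ k := by
      rw [Ideal.span_singleton_mul_le_iff]
      intro a ha
      rw [← pow_succ', mul_comm]
      exact h1 a ha
    rw [← Ideal.dvd_iff_le] at h4
    have h5 := (mul_dvd_mul_iff_right (pow_ne_zero k hw0)).1 h4
    rw [Ideal.dvd_span_singleton] at h5
    exact h5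
  · intro hz y hy
    apply psi_of_mem h
    rw [pow_succ]
    exact rq12_T D w (w ^ k) z hz _ (s_mem D _ y hy)

end H55N.RQ
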