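import Mathlib
import Pool.Agent.Lib.H55N.RQ0

namespace H55N.RQ

variable {O O' : Type} [CommRing O] [CommRing O'] [Algebra O O']

/-! Chunk RQ13 (M, Dedekind domains).
prim_mul: psi of conductor w^k, x in w^j but not in w^(j+1), j <= k: psi(x .) has conductor w^(k-j): x t in w^k iff t in w^(k-j) (powers of a prime
ideal: Ideal.IsPrime / associates, or the multiplicity of w in span{x t}).
exists_unif: an element P in W, not in W^2, W maximal, nonzero; then span{P} + W^n = W for n >= 1 (span{P} + W^n divides W^n, so it is W^i, and i = 1).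
conductor one: psi with conductor (1) is constant 1. -/

theorem RQ13_div {R : Type*} [CommRing R] [IsDedekindDomain R] (w : Ideal R) (hw : w.IsMaximal)
    (hw0 : w ≠ ⊥) {k j : ℕ} (hj : j ≤ k) {x t : R} (h1 : x ∈ w ^ j) (h2 : x ∉ w ^ (j + 1))
    (h : x * t ∈ w ^ k) : t ∈ w ^ (k - j) := by
  have hp : Prime w := Ideal.prime_of_isPrime hw0 hw.isPrime
  have hd : w ^ j ∣ Ideal.span {x} := Ideal.dvd_span_singleton.2 h1
  obtain ⟨J, hJ⟩ := hd
  have hJw : ¬ w ∣ J := by
    rintro ⟨L, hL⟩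
    apply h2
    rw [← Ideal.dvd_span_singleton, hJ, hL, pow_succ, ← mul_assoc]
    exact dvd_mul_right _ _
  have h3 : w ^ k ∣ w ^ j * (J * Ideal.span {t}) := by
    rw [← mul_assoc, ← hJ, Ideal.span_singleton_mul_span_singleton]
    exact Ideal.dvd_span_singleton.2 h
  have h4 : w ^ (k - j) ∣ J * Ideal.span {t} := by
    have : w ^ k = w ^ j * w ^ (k - j) := by rw [← pow_add, Nat.add_sub_cancel' hj]
    rw [this] at h3
    exact (mul_dvd_mul_iff_left (pow_ne_zero _ hw0)).1 h3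
  exact Ideal.dvd_span_singleton.1 (hp.pow_dvd_of_dvd_mul_left _ hJw h4)

theorem prim_mul [IsDedekindDomain O] (w : Ideal O) (hw : w.IsMaximal) (hw0 : w ≠ ⊥) {k j : ℕ} (hj : j ≤ k)
    {ψ : O → ℂ} (h : Prim ψ (w ^ k)) (x : O) (h1 : x ∈ w ^ j) (h2 : x ∉ w ^ (j + 1)) :
    Prim (fun t => ψ (x * t)) (w ^ (k - j)) := by
  refine ⟨?_, ?_, ?_⟩
  · simp only [mul_zero]
    exact h.zero
  · intro a b
    simp only [mul_add]
    exact h.add _ _
  · intro t
    have h3 := h.iff (x * t)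
    constructor
    · intro ht y
      have h4 : x * t ∈ w ^ k := by
        have := Ideal.mul_mem_mul h1 ht
        rwa [← pow_add, Nat.add_sub_cancel' hj] at this
      have := h3.1 h4 y
      simpa only [mul_assoc] using this
    · intro hy
      apply RQ13_div w hw hw0 hj h1 h2
      apply h3.2
      intro y
      have := hy y
      simpa only [mul_assoc] using this

theorem exists_unif {R : Type*} [CommRing R] [IsDedekindDomain R] (W : Ideal R) (hW : W.IsMaximal)
    (hW0 : W ≠ ⊥) : ∃ P ∈ W, P ∉ W ^ 2 ∧ ∀ n, 1 ≤ n → W = Ideal.span {P} ⊔ W ^ n := by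
  obtain ⟨P, hP, hP2⟩ := Ideal.exists_mem_pow_notMem_pow_succ W hW0 hW.ne_top 1
  rw [pow_one] at hP
  refine ⟨P, hP, hP2, ?_⟩
  intro n hn
  have hp : Prime W := Ideal.prime_of_isPrime hW0 hW.isPrime
  have hd : (Ideal.span {P} ⊔ W ^ n) ∣ W ^ n := Ideal.dvd_iff_le.2 le_sup_right
  obtain ⟨i, hi, hai⟩ := (dvd_prime_pow hp n).1 hd
  have he : Ideal.span {P} ⊔ W ^ n = W ^ i := associated_iff_eq.1 hai
  have hPi : P ∈ W ^ i := by
    rw [← he]
    exact Ideal.mem_sup_left (Ideal.mem_span_singleton_self P)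
  have hi2 : i < 2 := by
    by_contra hc
    exact hP2 (Ideal.pow_le_pow_right (by omega : 2 ≤ i) hPi)
  have hle : W ^ i ≤ W := by
    rw [← he]
    refine sup_le ((Ideal.span_singleton_le_iff_mem W).2 hP) ?_
    exact Ideal.pow_le_self (by omega)
  have hi0 : i ≠ 0 := by
    rintro rfl
    rw [pow_zero, Ideal.one_eq_top] at hle
    exact hW.ne_top (top_le_iff.1 hle)
  have hi1 : i = 1 := by omega
  rw [he, hi1, pow_one]

/-- For P in w, not in w^2, w maximal in O: w O' = P O' + w^n O' (n >= 1): extend span{P} + w^n = w (exists_unif). -/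
theorem unif_ext [IsDedekindDomain O] (w : Ideal O) (hw : w.IsMaximal) (hw0 : w ≠ ⊥) :
    ∃ P ∈ w, P ∉ w ^ 2 ∧ ∀ n, 1 ≤ n → w.map (algebraMap O O') =
      Ideal.span {algebraMap O O' P} ⊔ (w ^ n).map (algebraMap O O') := by
  obtain ⟨P, hP, hP2, h⟩ := exists_unif w hw hw0
  refine ⟨P, hP, hP2, ?_⟩
  intro n hn
  have h2 : Ideal.span {algebraMap O O' P} = (Ideal.span {P}).map (algebraMap O O') := by
    rw [Ideal.map_span, Set.image_singleton]
  rw [h2, ← Ideal.map_sup, ← h n hn]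

/-- In the ramified case: P in W, not in W^2, with N(P) in w, not in w^2, and W = P O' + w^n O' for n >= 1.
Proof: exists_unif for W and the exponent 2n. N(P) = P s(P), s(P) in W; s(P) is not in W^2 (s^2 = 1, s(W) = W), so P s(P) is in W^2 = wO' and not in
W^3, so N(P) in w (contr) and N(P) not in w^2 (w^2 O' = W^4 <= W^3). -/
theorem unif_ram [IsDedekindDomain O'] (D : Qd O O') (w : Ideal O) (W : Ideal O')
    (hW : W.IsMaximal) (hW0 : W ≠ ⊥) (hW2 : w.map (algebraMap O O') = W ^ 2) (hs : ∀ z ∈ W, D.s z ∈ W) :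
    ∃ P ∈ W, D.N P ∈ w ∧ D.N P ∉ w ^ 2 ∧ ∀ n, 1 ≤ n → W = Ideal.span {P} ⊔ (w ^ n).map (algebraMap O O') := by
  obtain ⟨P, hP, hP2, h⟩ := exists_unif W hW hW0
  refine ⟨P, hP, ?_, ?_, ?_⟩
  · rw [← D.contr w, Ideal.mem_comap, D.hN, hW2, pow_two]
    exact Ideal.mul_mem_mul hP (hs P hP)
  · intro hc
    have h1 : P * D.s P ∈ W ^ 4 := by
      rw [← D.hN]
      have h3 : algebraMap O O' (D.N P) ∈ (w ^ 2).map (algebraMap O O') := Ideal.mem_map_of_mem _ hc
      rw [Ideal.map_pow, hW2, ← pow_mul] at h3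
      exact h3
    have h2 : P * D.s P ∈ W ^ 3 := Ideal.pow_le_pow_right (by norm_num) h1
    have h3 : D.s P ∈ W ^ (3 - 1) :=
      RQ13_div W hW hW0 (by norm_num) (by rw [pow_one]; exact hP) hP2 h2
    have h4 : ∀ z ∈ W ^ 2, D.s z ∈ W ^ 2 := by
      have h5 : W ^ 2 ≤ (W ^ 2).comap D.s.toRingEquiv.toRingHom := by
        have h6 : W ≤ W.comap D.s.toRingEquiv.toRingHom := fun z hz => hs z hz
        have h7 := Ideal.pow_right_mono h6 2
        exact h7.trans (Ideal.le_comap_pow _ 2)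
      exact fun z hz => h5 hz
    apply hP2
    have := h4 _ h3
    rwa [D.ss] at this
  · intro n hn
    rw [Ideal.map_pow, hW2, ← pow_mul]
    exact h (2 * n) (by omega)

end H55N.RQ
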