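import Mathlib
import Pool.Agent.Lib.H55N.RQ10

namespace H55N.RQ

variable {O O' : Type} [CommRing O] [CommRing O'] [Algebra O O']

/-! Chunk RQ14 (M): the inert prime, conductor w. The mean of psi(N z) over O' is -1/q < 0. Proof: psi(N z) is periodic modulo w O'
(psi_N_periodic); k = O/w, k' = O'/wO' are finite fields (fin, fin'), s induces an automorphism s' of k' with s' <> 1, s'^2 = 1, N and T induce maps to k with
N(z) = z s'(z), T(z) = z + s'(z) in k'. The fixed field k0 of s' contains k and [k' : k0] = 2. T(k') = k0 (the trace of k'/k0 is surjective, or: if T is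
not zero then T(k') is a k0-subspace of k0), and T(k') <= k, so k = k0 and |k'| = q^2, q = |k|. s' is the map z -> z^q (the only automorphism of order 2 over k; or: the
norm k'^* -> k^* of a quadratic extension of finite fields is surjective, FiniteField.norm_surjective / Algebra.norm_surjective...). So N : k'^* -> k^* is
surjective, every fibre has q + 1 elements, and sum_{z in k'} psi(N z) = 1 + (q+1) sum_{t in k^*} psi(t) = 1 - (q + 1) = -q, because psi is a nontrivial
character of k (conductor w, not O). The mean is -q/q^2. -/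
section ff

variable {k k' : Type} [Field k] [Field k'] [Finite k'] (i : k →+* k') (σ : k' →+* k')

/-- The norm is surjective on units (Hilbert 90 and counting). -/
theorem rq14_surj (hσ : ∀ z, σ (σ z) = z) (hi : ∀ t, σ (i t) = i t) (hne : ∃ z, σ z ≠ z)
    (hT : ∀ z, ∃ t, i t = z + σ z) (N : k' → k) (hN : ∀ z, i (N z) = z * σ z) (t : k) (ht : t ≠ 0) :
    ∃ y, y ≠ 0 ∧ N y = t := by
  have hiinj : Function.Injective i := i.injective
  have : Finite k := Finite.of_injective i hiinj
  have hN1 : N 1 = 1 := hiinj (by rw [hN, map_one, map_one, mul_one])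
  have hNm : ∀ x y, N (x * y) = N x * N y := fun x y => hiinj (by
    rw [hN, map_mul, map_mul, hN, hN]; ring)
  -- fixed elements
  have hfix : ∀ z, σ z = z → ∃ t, i t = z := by
    intro z hz
    have hy : ∃ y, y + σ y ≠ 0 := by
      by_contra hc
      push Not at hc
      obtain ⟨z0, hz0⟩ := hne
      have h1 := hc 1
      rw [map_one] at h1
      apply hz0
      have h2 := hc z0
      have h3 : z0 + z0 = 0 := by
        have : z0 + z0 = z0 * (1 + 1) := by ring
        rw [this, h1, mul_zero]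
      exact (add_left_cancel (h2.trans h3.symm))
    obtain ⟨y, hy⟩ := hy
    have hTfix : σ (y + σ y) = y + σ y := by
      rw [map_add, hσ, add_comm]
    obtain ⟨t, ht⟩ := hT (z * (y + σ y)⁻¹ * y)
    refine ⟨t, ?_⟩
    rw [ht, map_mul, map_mul, map_inv₀, hTfix, hz]
    field_simp
  -- Hilbert 90
  have h90 : ∀ u, u * σ u = 1 → ∃ y, y ≠ 0 ∧ y = u * σ y := by
    intro u hu
    have hc : ∃ c, c + u * σ c ≠ 0 := by
      by_contra hc
      push Not at hc
      obtain ⟨z0, hz0⟩ := hne
      have h1 := hc 1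
      rw [map_one, mul_one] at h1
      apply hz0
      have h2 := hc z0
      have h3 : u = -1 := by linear_combination h1
      rw [h3] at h2
      linear_combination -h2
    obtain ⟨c, hc⟩ := hc
    refine ⟨c + u * σ c, hc, ?_⟩
    rw [map_add, map_mul, hσ]
    linear_combination -c * hu
  -- the group homomorphisms
  let Nu : k'ˣ →* kˣ := Units.map
    { toFun := N, map_one' := hN1, map_mul' := hNm : k' →* k }
  let σu : k'ˣ →* k'ˣ := Units.map (σ : k' →* k')
  let φ : k'ˣ →* k'ˣ := MonoidHom.id _ / σu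
  let iu : kˣ →* k'ˣ := Units.map (i : k →* k')
  have hiu : Function.Injective iu := Units.map_injective hiinj
  have hker : φ.ker = iu.range := by
    ext y
    rw [MonoidHom.mem_ker, MonoidHom.mem_range]
    have e1 : φ y = y / σu y := rfl
    rw [e1, div_eq_one]
    constructor
    · intro h
      have h1 : σ (y : k') = y := (congrArg Units.val h).symm
      obtain ⟨t, ht⟩ := hfix _ h1
      have ht0 : t ≠ 0 := by
        rintro rfl
        rw [map_zero] at ht
        exact y.ne_zero ht.symm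
      exact ⟨Units.mk0 t ht0, Units.ext ht⟩
    · rintro ⟨t, rfl⟩
      apply Units.ext
      exact (hi (t : k)).symm
  have hrange : φ.range = Nu.ker := by
    ext u
    rw [MonoidHom.mem_ker, MonoidHom.mem_range]
    constructor
    · rintro ⟨y, rfl⟩
      have e1 : φ y = y / σu y := rfl
      rw [e1, map_div, div_eq_one]
      apply Units.ext
      apply hiinj
      show i (N y) = i (N (σ y))
      rw [hN, hN, hσ, mul_comm]
    · intro h
      have h1 : N (u : k') = 1 := congrArg Units.val h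
      have h2 : (u : k') * σ u = 1 := by rw [← hN, h1, map_one]
      obtain ⟨y, hy, hyu⟩ := h90 _ h2
      refine ⟨Units.mk0 y hy, ?_⟩
      have e1 : φ (Units.mk0 y hy) = Units.mk0 y hy / σu (Units.mk0 y hy) := rfl
      rw [e1, div_eq_iff_eq_mul]
      apply Units.ext
      exact hyu
  have c1 : Nat.card φ.ker * Nat.card φ.range = Nat.card k'ˣ := by
    rw [← Subgroup.index_ker, Subgroup.card_mul_index]
  have c2 : Nat.card Nu.ker * Nat.card Nu.range = Nat.card k'ˣ := by
    rw [← Subgroup.index_ker, Subgroup.card_mul_index]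
  have c3 : Nat.card φ.ker = Nat.card kˣ := by
    rw [hker]
    exact (Nat.card_congr (MonoidHom.ofInjective hiu).toEquiv).symm
  have c4 : Nat.card Nu.range = Nat.card kˣ := by
    rw [hrange] at c1
    have h1 : 0 < Nat.card Nu.ker := Nat.card_pos
    have h2 : Nat.card Nu.ker * Nat.card Nu.range = Nat.card Nu.ker * Nat.card kˣ := by
      rw [c2, ← c1, c3, mul_comm]
    exact Nat.eq_of_mul_eq_mul_left h1 h2
  have htop : Nu.range = ⊤ := Subgroup.eq_top_of_card_eq _ c4
  have hmem : Units.mk0 t ht ∈ Nu.range := by rw [htop]; trivial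
  obtain ⟨y, hy⟩ := hmem
  exact ⟨y, y.ne_zero, congrArg Units.val hy⟩

theorem rq14_sum (hσ : ∀ z, σ (σ z) = z) (hi : ∀ t, σ (i t) = i t) (hne : ∃ z, σ z ≠ z)
    (hT : ∀ z, ∃ t, i t = z + σ z) (N : k' → k) (hN : ∀ z, i (N z) = z * σ z)
    [Fintype k'] (ψ : k → ℂ) (h0 : ψ 0 = 1) (hadd : ∀ x y, ψ (x + y) = ψ x * ψ y)
    (hnt : ∃ t, ψ t ≠ 1) :
    ∃ r : ℝ, 0 < r ∧ ∑ z : k', ψ (N z) = -r := by
  classical
  have hiinj : Function.Injective i := i.injective
  have : Finite k := Finite.of_injective i hiinj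
  have := Fintype.ofFinite k
  have hNm : ∀ x y, N (x * y) = N x * N y := fun x y => hiinj (by
    rw [hN, map_mul, map_mul, hN, hN]; ring)
  have hN0 : ∀ z, N z = 0 ↔ z = 0 := by
    intro z
    constructor
    · intro h
      have h1 := hN z
      rw [h, map_zero] at h1
      rcases mul_eq_zero.1 h1.symm with h2 | h2
      · exact h2
      · exact (map_eq_zero σ).1 h2
    · rintro rfl
      exact hiinj (by rw [hN, map_zero, zero_mul, map_zero])
  set S := ∑ z : k', ψ (N z) with hS
  -- the sums with a parameter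
  have hSt : ∀ t : k, t ≠ 0 → ∑ z : k', ψ (t * N z) = S := by
    intro t ht
    obtain ⟨y, hy, hyt⟩ := rq14_surj i σ hσ hi hne hT N hN t ht
    rw [hS, ← Equiv.sum_comp (Equiv.mulLeft₀ y hy) (fun z => ψ (N z))]
    refine Finset.sum_congr rfl fun z _ => ?_
    show ψ (t * N z) = ψ (N (y * z))
    rw [hNm, hyt]
  -- the character sums
  have hchar : ∀ a : k, a ≠ 0 → ∑ t : k, ψ (t * a) = 0 := by
    intro a ha
    have h1 : ∑ t : k, ψ (t * a) = ∑ t : k, ψ t := Equiv.sum_comp (Equiv.mulRight₀ a ha) ψ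
    rw [h1]
    obtain ⟨t0, ht0⟩ := hnt
    have h2 : ψ t0 * ∑ t : k, ψ t = ∑ t : k, ψ t := by
      rw [Finset.mul_sum, ← Equiv.sum_comp (Equiv.addLeft t0) ψ]
      refine Finset.sum_congr rfl fun t _ => ?_
      show ψ t0 * ψ t = ψ (t0 + t)
      rw [hadd]
    have h3 : (ψ t0 - 1) * ∑ t : k, ψ t = 0 := by rw [sub_mul, h2, one_mul, sub_self]
    exact (mul_eq_zero.1 h3).resolve_left (sub_ne_zero.2 ht0)
  have hdouble : ∑ t : k, ∑ z : k', ψ (t * N z) = (Fintype.card k : ℂ) := by
    rw [Finset.sum_comm, Finset.sum_eq_single (0 : k')]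
    · rw [(hN0 0).2 rfl]
      simp [h0]
    · intro z _ hz
      exact hchar _ (fun h => hz ((hN0 z).1 h))
    · intro h
      exact absurd (Finset.mem_univ _) h
  have hsplit : ∑ t : k, ∑ z : k', ψ (t * N z) =
      (Fintype.card k' : ℂ) + ((Fintype.card k : ℂ) - 1) * S := by
    rw [← Finset.add_sum_erase _ _ (Finset.mem_univ (0 : k))]
    congr 1
    · simp [h0]
    · rw [Finset.sum_congr rfl fun t ht => hSt t (Finset.ne_of_mem_erase ht), Finset.sum_const,
        Finset.card_erase_of_mem (Finset.mem_univ _), Finset.card_univ, nsmul_eq_mul,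
        Nat.cast_sub Fintype.card_pos]
      simp
  rw [hdouble] at hsplit
  have hq1 : 1 < Fintype.card k := Fintype.one_lt_card
  have hqq : Fintype.card k < Fintype.card k' := by
    apply Fintype.card_lt_of_injective_not_surjective i hiinj
    intro hsurj
    obtain ⟨z, hz⟩ := hne
    obtain ⟨t, rfl⟩ := hsurj z
    exact hz (hi t)
  have hq1' : (0 : ℝ) < (Fintype.card k : ℝ) - 1 := by
    have : (1 : ℝ) < Fintype.card k := by exact_mod_cast hq1
    linarith
  have hqq' : (0 : ℝ) < (Fintype.card k' : ℝ) - Fintype.card k := by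
    have : (Fintype.card k : ℝ) < Fintype.card k' := by exact_mod_cast hqq
    linarith
  refine ⟨((Fintype.card k' : ℝ) - Fintype.card k) / ((Fintype.card k : ℝ) - 1),
    div_pos hqq' hq1', ?_⟩
  have hne' : ((Fintype.card k : ℂ) - 1) ≠ 0 := by
    have : (((Fintype.card k : ℝ) - 1 : ℝ) : ℂ) ≠ 0 := by exact_mod_cast hq1'.ne'
    push_cast at this
    exact this
  push_cast
  field_simp
  linear_combination -hsplit

end ff

theorem rq14_ne_bot (D : Qd O O') (w : Ideal O) (hw0 : w ≠ ⊥) :
    w.map (algebraMap O O') ≠ ⊥ := by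
  intro h
  apply hw0
  rw [eq_bot_iff]
  intro x hx
  have h1 := Ideal.mem_map_of_mem (algebraMap O O') hx
  rw [h] at h1
  have h2 : algebraMap O O' x = 0 := h1
  exact alg_inj D (by rw [h2, map_zero])

theorem base_inert (D : Qd O O') (w : Ideal O) (hw : w.IsMaximal) (hw0 : w ≠ ⊥) (h : Inert D w)
    {ψ : O → ℂ} (hψ : Prim ψ w) :
    ∃ r : ℝ, 0 < r ∧ IsMean (⊤ : AddSubgroup O') (fun z => ψ (D.N z)) (-r) := by
  classical
  obtain ⟨hW, z0, hz0⟩ := h
  set W : Ideal O' := w.map (algebraMap O O') with hWdef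
  have hW0 : W ≠ ⊥ := rq14_ne_bot D w hw0
  letI : Field (O ⧸ w) := Ideal.Quotient.field w
  letI : Field (O' ⧸ W) := Ideal.Quotient.field W
  haveI : Finite (O' ⧸ W) := D.fin' W hW0
  haveI : Fintype (O' ⧸ W) := Fintype.ofFinite _
  have hwW : w ≤ W.comap (algebraMap O O') := Ideal.le_comap_map
  have hsW : W ≤ W.comap (D.s : O' →+* O') := fun z hz => s_mem D w z hz
  set i : O ⧸ w →+* O' ⧸ W := Ideal.quotientMap W (algebraMap O O') hwW with hi
  set σ : O' ⧸ W →+* O' ⧸ W := Ideal.quotientMap W (D.s : O' →+* O') hsW with hσ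
  have hi1 : ∀ t, i (Ideal.Quotient.mk w t) = Ideal.Quotient.mk W (algebraMap O O' t) :=
    fun t => Ideal.quotientMap_mk
  have hσ1 : ∀ z, σ (Ideal.Quotient.mk W z) = Ideal.Quotient.mk W (D.s z) :=
    fun z => Ideal.quotientMap_mk
  have hout : ∀ z : O' ⧸ W, Ideal.Quotient.mk W z.out = z := fun z => Ideal.Quotient.mk_out z
  have houtk : ∀ z : O ⧸ w, Ideal.Quotient.mk w z.out = z := fun z => Ideal.Quotient.mk_out z
  set N : O' ⧸ W → O ⧸ w := fun z => Ideal.Quotient.mk w (D.N z.out) with hN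
  set ψ' : O ⧸ w → ℂ := fun t => ψ t.out with hψ'
  have hψ'1 : ∀ t, ψ' (Ideal.Quotient.mk w t) = ψ t := by
    intro t
    have h1 : (Ideal.Quotient.mk w t).out - t ∈ w := by
      rw [← Ideal.Quotient.eq, houtk]
    show ψ (Ideal.Quotient.mk w t).out = ψ t
    have h2 : (Ideal.Quotient.mk w t).out = t + ((Ideal.Quotient.mk w t).out - t) := by ring
    rw [h2, hψ.add, psi_of_mem hψ h1, mul_one]
  have hN1 : ∀ z, i (N z) = z * σ z := by
    intro z
    show i (Ideal.Quotient.mk w (D.N z.out)) = _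
    rw [hi1, D.hN, map_mul, ← hσ1, hout]
  have hN2 : ∀ z, N (Ideal.Quotient.mk W z) = Ideal.Quotient.mk w (D.N z) := by
    intro z
    apply i.injective
    rw [hN1, hi1, D.hN, map_mul, hσ1]
  obtain ⟨r, hr, hsum⟩ := rq14_sum i σ
    (by
      intro z
      rw [← hout z, hσ1, hσ1, D.ss])
    (by
      intro t
      rw [← houtk t, hi1, hσ1, AlgEquiv.commutes])
    ⟨Ideal.Quotient.mk W z0, by
      rw [hσ1]
      intro h1
      exact hz0 (Ideal.Quotient.eq.1 h1)⟩
    (by
      intro z
      refine ⟨Ideal.Quotient.mk w (D.T z.out), ?_⟩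
      rw [hi1, D.hT, map_add, ← hσ1, hout])
    N hN1 ψ'
    (by
      have : (0 : O ⧸ w) = Ideal.Quotient.mk w 0 := (map_zero _).symm
      rw [this, hψ'1, hψ.zero])
    (by
      intro x y
      rw [← houtk x, ← houtk y, ← map_add, hψ'1, hψ'1, hψ'1, hψ.add])
    (by
      by_contra hc
      push Not at hc
      apply hw.ne_top
      rw [Ideal.eq_top_iff_one, hψ.iff]
      intro y
      rw [one_mul, ← hψ'1, hc])
  obtain ⟨R, hR⟩ := reps_ideal_top D W hW0
  have hbij : ∑ z : O' ⧸ W, ψ' (N z) = ∑ z ∈ R, ψ (D.N z) := by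
    symm
    refine Finset.sum_bij (fun z _ => Ideal.Quotient.mk W z) (fun z _ => Finset.mem_univ _) ?_ ?_ ?_
    · intro a ha b hb hab
      exact hR.uniq a ha b hb (Ideal.Quotient.eq.1 hab)
    · intro b _
      obtain ⟨r, hr, hbr⟩ := hR.ex b.out (AddSubgroup.mem_top _)
      refine ⟨r, hr, ?_⟩
      rw [← hout b]
      exact (Ideal.Quotient.eq.2 hbr).symm
    · intro z _
      rw [hN2, hψ'1]
  have hcard : 0 < R.card := by
    obtain ⟨r, hr, _⟩ := hR.ex 0 (AddSubgroup.mem_top _)
    exact Finset.card_pos.2 ⟨r, hr⟩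
  have hcard' : (0 : ℝ) < R.card := by exact_mod_cast hcard
  refine ⟨r / R.card, div_pos hr hcard', W.toAddSubgroup, R, hR, ?_, ?_⟩
  · intro a _ b hb
    exact psi_N_periodic D hψ a b hb
  · rw [← hbij, hsum]
    have : (R.card : ℂ) ≠ 0 := by exact_mod_cast hcard.ne'
    push_cast
    field_simp

end H55N.RQ
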