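import Mathlib
import Pool.Agent.Lib.H55N.RQ2

namespace H55N.RQ

variable {V : Type*} [AddCommGroup V]

/-! Chunk RQ3 (M): averaging over a subgroup first. Proof: let B, R be the data of h. g is periodic modulo B on A: for b in B the
function c -> f((a + b) + c) = f(a + c) on C (periodicity, a + c in A), so its mean g(a + b) equals g(a) by mean_unique (mean_congr).
C meet B has finite index in C (RQ1: relIndex of B in A is finite), let R' represent C modulo C meet B. For a in A:
sum over c in R' of f(a + c) = |R'| g(a) by mean_reps (the function f(a + .) is periodic on C modulo C meet B). Hence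
|R'| sum_{r in R} g(r) = sum_{c in R'} sum_{r in R} f(r + c), and for fixed c in C <= A the elements r + c represent A modulo B, so
the inner sum is sum_R f = |R| mu (sum_reps). So sum_R g = |R| mu (|R'| <> 0). -/

theorem mean_fubini {A C : AddSubgroup V} {f g : V → ℂ} {μ : ℂ} (h : IsMean A f μ) (hC : C ≤ A)
    (hg : ∀ a ∈ A, IsMean C (fun c => f (a + c)) (g a)) : IsMean A g μ := by
  obtain ⟨B, R, hR, hf, hμ⟩ := h
  have hBC : B.relIndex C ≠ 0 := fun h => rq2_ne hR (AddSubgroup.relIndex_eq_zero_of_le_right hC h)
  have hCB : (C ⊓ B).relIndex C ≠ 0 := by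
    rw [AddSubgroup.inf_relIndex_left]
    exact hBC
  obtain ⟨R', hR'⟩ := reps_exists inf_le_left hCB
  refine ⟨B, R, hR, ?_, ?_⟩
  · intro a ha b hb
    have h1 := hg (a + b) (A.add_mem ha (hR.le hb))
    have h2 := hg a ha
    refine mean_unique (mean_congr h1 fun c hc => ?_) h2
    show f (a + b + c) = f (a + c)
    rw [add_right_comm]
    exact hf _ (A.add_mem ha (hC hc)) b hb
  · have h1 : ∀ a ∈ A, ∑ c ∈ R', f (a + c) = R'.card * g a := by
      intro a ha
      refine mean_reps (hg a ha) hR' ?_
      intro c hc d hd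
      show f (a + (c + d)) = f (a + c)
      rw [← add_assoc]
      exact hf _ (A.add_mem ha (hC hc)) d hd.2
    have h2 : (R'.card : ℂ) * ∑ r ∈ R, g r = R'.card * (R.card * μ) := by
      rw [Finset.mul_sum]
      calc ∑ r ∈ R, (R'.card : ℂ) * g r = ∑ r ∈ R, ∑ c ∈ R', f (r + c) :=
            Finset.sum_congr rfl fun r hr => (h1 r (hR.mem r hr)).symm
        _ = ∑ c ∈ R', ∑ r ∈ R, f (c + r) := by
            rw [Finset.sum_comm]
            exact Finset.sum_congr rfl fun c _ => Finset.sum_congr rfl fun r _ => by rw [add_comm]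
        _ = ∑ c ∈ R', ∑ r ∈ R, f r :=
            Finset.sum_congr rfl fun c hc => rq2_sum_shift hR hf (hC (hR'.mem c hc))
        _ = R'.card * (R.card * μ) := by
            rw [Finset.sum_const, nsmul_eq_mul, hμ]
    exact mul_left_cancel₀ (rq2_card_ne hR') h2

end H55N.RQ
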