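import Mathlib
import Pool.Agent.Lib.H55N.RQ2

namespace H55N.RQ

variable {V V' : Type*} [AddCommGroup V] [AddCommGroup V']

/-! Chunk RQ4 (M): restriction to a subgroup and transport.
mean_restrict: f vanishes on A outside C, C of finite index in A, mean over C is nu: mean over A is nu/|R|. Proof: data B, R1 of
h for C; R + R1 represents A modulo B (reps_trans); f is periodic modulo B on A (a in C iff a + b in C); the sum of f over
R + R1: f(r + r1) <> 0 only if r in C, i.e. for the unique r0 in R with r0 in C, and the sum over r1 of f(r0 + r1) is |R1| nu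
(r0 + R1 represents C modulo B, sum_reps).
mean_push: phi : V -> V' additive, A' = phi(A) + C', f' periodic on A' modulo C' (of finite index, R'). Mean of f' o phi over A is
the mean of f' over A'. Proof: lift every r' in R' to r in A with phi(r) - r' in C'; the lifts represent A modulo
C = A meet phi^-1(C'); f' o phi is periodic modulo C; mean_reps.
mean_pull: the converse for C' = 0 direction: mean of f' over phi(A) is the mean of f' o phi over A. -/

theorem mean_restrict {A C : AddSubgroup V} {R : Finset V} (hR : Reps A C R) {f : V → ℂ}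
    (hf : ∀ a ∈ A, a ∉ C → f a = 0) {ν : ℂ} (h : IsMean C f ν) : IsMean A f (ν / R.card) := by
  classical
  obtain ⟨B, R₁, hR₁, hf₁, hν⟩ := h
  have h1 := reps_trans hR hR₁
  have hper : Per A B f := by
    intro a ha b hb
    by_cases hac : a ∈ C
    · exact hf₁ a hac b hb
    · have hab : a + b ∉ C := by
        intro h2
        apply hac
        have h3 := C.sub_mem h2 (hR₁.le hb)
        rwa [add_sub_cancel_right] at h3
      rw [hf a ha hac, hf _ (A.add_mem ha (hR.le (hR₁.le hb))) hab]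
  refine ⟨B, _, h1.1, hper, ?_⟩
  rw [Finset.sum_image (fun p hp q hq hpq => h1.2 (Finset.mem_coe.2 hp) (Finset.mem_coe.2 hq) hpq),
    Finset.card_image_of_injOn h1.2, Finset.card_product, Finset.sum_product]
  obtain ⟨r₀, hr₀, hr₀'⟩ := hR.ex 0 A.zero_mem
  have hr₀C : r₀ ∈ C := by
    rw [zero_sub] at hr₀'
    exact neg_mem_iff.1 hr₀'
  rw [Finset.sum_eq_single r₀]
  · have h2 := rq2_sum_shift hR₁ hf₁ hr₀C
    show ∑ y ∈ R₁, f (r₀ + y) = _
    rw [h2, hν]
    push_cast
    have h3 := rq2_card_ne hR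
    field_simp
  · intro r hr hne
    refine Finset.sum_eq_zero fun y hy => ?_
    show f (r + y) = 0
    refine hf _ (A.add_mem (hR.mem r hr) (hR.le (hR₁.mem y hy))) fun h2 => hne ?_
    refine hR.uniq r hr r₀ hr₀ (C.sub_mem ?_ hr₀C)
    have h3 := C.sub_mem h2 (hR₁.mem y hy)
    rwa [add_sub_cancel_right] at h3
  · intro h2
    exact absurd hr₀ h2

/-- Lifting of systems of representatives. -/
theorem rq4_lift [DecidableEq V] (φ : V →+ V') {A : AddSubgroup V} {A' C' : AddSubgroup V'}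
    {R' : Finset V'} (hmap : A.map φ ≤ A') (hR : Reps A' C' R') (ℓ : V' → V)
    (hℓ : ∀ r ∈ R', ℓ r ∈ A ∧ φ (ℓ r) - r ∈ C') :
    Reps A (A ⊓ C'.comap φ) (R'.image ℓ) ∧ Set.InjOn ℓ (R' : Set V') := by
  have key : ∀ r ∈ R', ∀ s ∈ R', φ (ℓ r) - φ (ℓ s) ∈ C' → r = s := by
    intro r hr s hs h
    refine hR.uniq r hr s hs ?_
    have h1 : r - s = (φ (ℓ r) - φ (ℓ s)) - (φ (ℓ r) - r) + (φ (ℓ s) - s) := by abel
    rw [h1]
    exact C'.add_mem (C'.sub_mem h (hℓ r hr).2) (hℓ s hs).2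
  constructor
  · refine ⟨inf_le_left, ?_, ?_, ?_⟩
    · intro r hr
      obtain ⟨s, hs, rfl⟩ := Finset.mem_image.1 hr
      exact (hℓ s hs).1
    · intro a ha
      obtain ⟨r, hr, hra⟩ := hR.ex (φ a) (hmap ⟨a, ha, rfl⟩)
      refine ⟨ℓ r, Finset.mem_image_of_mem _ hr, A.sub_mem ha (hℓ r hr).1, ?_⟩
      show φ (a - ℓ r) ∈ C'
      rw [map_sub]
      have h1 : φ a - φ (ℓ r) = (φ a - r) - (φ (ℓ r) - r) := by abel
      rw [h1]
      exact C'.sub_mem hra (hℓ r hr).2
    · intro r hr s hs hrs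
      obtain ⟨r', hr', rfl⟩ := Finset.mem_image.1 hr
      obtain ⟨s', hs', rfl⟩ := Finset.mem_image.1 hs
      have h1 : φ (ℓ r' - ℓ s') ∈ C' := hrs.2
      rw [map_sub] at h1
      rw [key r' hr' s' hs' h1]
  · intro r hr s hs hrs
    refine key r hr s hs ?_
    rw [hrs, sub_self]
    exact C'.zero_mem

theorem mean_push (φ : V →+ V') {A : AddSubgroup V} {A' C' : AddSubgroup V'} {R' : Finset V'}
    (hA : A' = A.map φ ⊔ C') (hR : Reps A' C' R') {f : V' → ℂ} (hf : Per A' C' f) {ν : ℂ}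
    (h : IsMean A (fun x => f (φ x)) ν) : IsMean A' f ν := by
  classical
  have hmap : A.map φ ≤ A' := by rw [hA]; exact le_sup_left
  have hex : ∀ r ∈ R', ∃ a, a ∈ A ∧ φ a - r ∈ C' := by
    intro r hr
    have h1 := hR.mem r hr
    rw [hA, AddSubgroup.mem_sup] at h1
    obtain ⟨y, ⟨a, ha, rfl⟩, c, hc, hac⟩ := h1
    refine ⟨a, ha, ?_⟩
    have h2 : φ a - r = -c := by rw [← hac]; simp
    rw [h2]
    exact C'.neg_mem hc
  choose! ℓ hℓ using hex
  obtain ⟨h1, h2⟩ := rq4_lift φ hmap hR ℓ hℓ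
  have hper : Per A (A ⊓ C'.comap φ) (fun x => f (φ x)) := by
    intro a ha c hc
    show f (φ (a + c)) = f (φ a)
    rw [map_add]
    exact hf _ (hmap ⟨a, ha, rfl⟩) _ hc.2
  have h3 := mean_reps h h1 hper
  rw [Finset.sum_image h2, Finset.card_image_of_injOn h2] at h3
  refine ⟨C', R', hR, hf, ?_⟩
  rw [← h3]
  refine Finset.sum_congr rfl fun r hr => ?_
  have h4 := hf r (hR.mem r hr) _ (hℓ r hr).2
  rw [← h4]
  congr 1
  abel

theorem mean_pull (φ : V →+ V') {A : AddSubgroup V} {f : V' → ℂ} {ν : ℂ}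
    (h : IsMean (A.map φ) f ν) : IsMean A (fun x => f (φ x)) ν := by
  classical
  obtain ⟨B', R', hR, hf, hν⟩ := h
  have hex : ∀ r ∈ R', ∃ a, a ∈ A ∧ φ a = r := by
    intro r hr
    exact hR.mem r hr
  choose! ℓ hℓ using hex
  obtain ⟨h1, h2⟩ := rq4_lift φ le_rfl hR ℓ (fun r hr => ⟨(hℓ r hr).1, by
    rw [(hℓ r hr).2, sub_self]
    exact B'.zero_mem⟩)
  refine ⟨_, _, h1, ?_, ?_⟩
  · intro a ha c hc
    show f (φ (a + c)) = f (φ a)
    rw [map_add]
    exact hf _ ⟨a, ha, rfl⟩ _ hc.2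
  · rw [Finset.sum_image h2, Finset.card_image_of_injOn h2, ← hν]
    exact Finset.sum_congr rfl fun r hr => by rw [(hℓ r hr).2]

end H55N.RQ
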