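import Mathlib
import Pool.Agent.Lib.H55N.RQ2

namespace H55N.RQ

variable {V : Type*} [AddCommGroup V]

/-! Chunk RQ5 (S/M): the mean of a character. Proof: if psi = 1 on A it is constant 1 (mean_const, mean_congr). Otherwise
psi(a0) <> 1 for some a0 in A; with representatives R of A modulo B (B in the kernel) the elements a0 + r are representatives
too, so S = sum_R psi = psi(a0) S (sum_reps), S = 0. -/

open Classical in
theorem mean_char {A B : AddSubgroup V} {R : Finset V} (hR : Reps A B R) (ψ : V → ℂ)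
    (h1 : ∀ a ∈ A, ∀ b ∈ A, ψ (a + b) = ψ a * ψ b) (h2 : ∀ b ∈ B, ψ b = 1) :
    IsMean A ψ (if ∀ a ∈ A, ψ a = 1 then 1 else 0) := by
  have hper : Per A B ψ := by
    intro a ha b hb
    rw [h1 a ha b (hR.le hb), h2 b hb, mul_one]
  by_cases h : ∀ a ∈ A, ψ a = 1
  · rw [if_pos h]
    exact mean_congr (mean_const A 1) fun a ha => (h a ha).symm
  · rw [if_neg h]
    push Not at h
    obtain ⟨a₀, ha₀, ha₁⟩ := h
    refine ⟨B, R, hR, hper, ?_⟩
    have h3 := rq2_sum_shift hR hper ha₀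
    have h4 : ∑ r ∈ R, ψ (a₀ + r) = ψ a₀ * ∑ r ∈ R, ψ r := by
      rw [Finset.mul_sum]
      exact Finset.sum_congr rfl fun r hr => h1 a₀ ha₀ r (hR.mem r hr)
    rw [h4] at h3
    have h5 : (ψ a₀ - 1) * ∑ r ∈ R, ψ r = 0 := by linear_combination h3
    rcases mul_eq_zero.1 h5 with h6 | h6
    · exact absurd (sub_eq_zero.1 h6) ha₁
    · rw [h6, mul_zero]

end H55N.RQ
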