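import Mathlib
import Pool.Agent.Lib.H55N.RQ3
import Pool.Agent.Lib.H55N.RQ4
import Pool.Agent.Lib.H55N.RQ5
import Pool.Agent.Lib.H55N.RQ10

namespace H55N.RQ

variable {O O' : Type} [CommRing O] [CommRing O'] [Algebra O O']

/-! Chunk RQ11 (M): the translation principle. Y a group of translations (an ideal of O') with N(Y) in b, Z the ideal of the z with psi(T(z s(y))) = 1 for
all y in Y. Then mean of psi(N z) over O' = (mean over Z)/|O'/Z|. Proof: mu exists (mean_exists_N). For z in O' the mean over y in Y of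
psi(N(z+y)) = psi(N z) psi(N y) psi(T(z s y)) = psi(N z) psi(T(z s y)) is psi(N z) if z in Z and 0 otherwise (mean_char for the character
y -> psi(T(z s y)), trivial on Y meet b O', which has finite index in Y by reps_ideal; mean_mul). mean_fubini with C = Y: the function g = psi(N z) on Z, 0
outside Z has mean mu over O'. mean_restrict and mean_unique: mu = nu/|R|. (translate: Z contains b O' (T_mem, s_mem), so it has finite index.) -/
theorem RQ11_ne (D : Qd O O') {𝔟 : Ideal O} (hb : 𝔟 ≠ ⊥) : 𝔟.map (algebraMap O O') ≠ ⊥ := by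
  intro h0
  apply hb
  have h2 := D.contr 𝔟
  rw [h0] at h2
  rw [← h2, eq_bot_iff]
  intro x hx
  exact alg_inj D (by rw [map_zero]; exact hx)

theorem translate' (D : Qd O O') {ψ : O → ℂ} {𝔟 : Ideal O} (h : Prim ψ 𝔟) (hb : 𝔟 ≠ ⊥) (Y Z : Ideal O')
    (hY : ∀ y ∈ Y, D.N y ∈ 𝔟) (hZ : ∀ z, z ∈ Z ↔ ∀ y ∈ Y, ψ (D.T (z * D.s y)) = 1) {ν : ℂ}
    (hν : IsMean Z.toAddSubgroup (fun z => ψ (D.N z)) ν) (R : Finset O')
    (hR : Reps (⊤ : AddSubgroup O') Z.toAddSubgroup R) :
    IsMean (⊤ : AddSubgroup O') (fun z => ψ (D.N z)) (ν / R.card) := by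
  classical
  obtain ⟨μ, hμ⟩ := mean_exists_N D h hb
  have hb' := RQ11_ne D hb
  have hg : ∀ z ∈ (⊤ : AddSubgroup O'), IsMean Y.toAddSubgroup (fun y => ψ (D.N (z + y)))
      (if z ∈ Z then ψ (D.N z) else 0) := by
    intro z _
    have hidx : (𝔟.map (algebraMap O O')).toAddSubgroup.relIndex (⊤ : AddSubgroup O') ≠ 0 := by
      obtain ⟨R0, hR0⟩ := reps_ideal_top D _ hb'
      rw [← reps_card hR0]
      have := reps_nonempty hR0
      exact Finset.card_ne_zero.2 this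
    have hidx2 : (Y.toAddSubgroup ⊓ (𝔟.map (algebraMap O O')).toAddSubgroup).relIndex
        Y.toAddSubgroup ≠ 0 := by
      rw [AddSubgroup.inf_relIndex_left]
      rw [AddSubgroup.relIndex_top_right] at hidx
      intro h0
      apply hidx
      have h1 := AddSubgroup.relIndex_dvd_index_of_normal (𝔟.map (algebraMap O O')).toAddSubgroup
        Y.toAddSubgroup
      rw [h0] at h1
      exact Nat.eq_zero_of_zero_dvd h1
    obtain ⟨R1, hR1⟩ := reps_exists inf_le_left hidx2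
    have hc := mean_char hR1 (fun y => ψ (D.T (z * D.s y))) (by
      intro a _ b _
      show ψ (D.T (z * D.s (a + b))) = ψ (D.T (z * D.s a)) * ψ (D.T (z * D.s b))
      rw [map_add, mul_add, T_add, h.add]) (by
      intro b hb2
      have h1 : b ∈ 𝔟.map (algebraMap O O') := (AddSubgroup.mem_inf.1 hb2).2
      exact psi_of_mem h (T_mem D 𝔟 _ (Ideal.mul_mem_left _ _ (s_mem D 𝔟 b h1))))
    have hc2 := mean_mul hc (ψ (D.N z))
    have h3 : ψ (D.N z) * (if ∀ a ∈ Y.toAddSubgroup, ψ (D.T (z * D.s a)) = 1 then 1 else 0) =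
        if z ∈ Z then ψ (D.N z) else 0 := by
      by_cases hz : z ∈ Z
      · have h4 : ∀ a ∈ Y.toAddSubgroup, ψ (D.T (z * D.s a)) = 1 := (hZ z).1 hz
        rw [if_pos h4, if_pos hz, mul_one]
      · have h4 : ¬ ∀ a ∈ Y.toAddSubgroup, ψ (D.T (z * D.s a)) = 1 := fun h5 => hz ((hZ z).2 h5)
        rw [if_neg h4, if_neg hz, mul_zero]
    rw [h3] at hc2
    refine mean_congr hc2 ?_
    intro y hy
    show ψ (D.N z) * ψ (D.T (z * D.s y)) = ψ (D.N (z + y))
    rw [N_add, h.add, h.add, psi_of_mem h (hY y hy), mul_one]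
  have h1 := mean_fubini hμ le_top hg
  have h2 : IsMean Z.toAddSubgroup (fun z => if z ∈ Z then ψ (D.N z) else 0) ν := by
    refine mean_congr hν ?_
    intro z hz
    exact (if_pos hz).symm
  have h3 := mean_restrict hR (f := fun z => if z ∈ Z then ψ (D.N z) else 0)
    (fun z _ hz => if_neg hz) h2
  rw [← mean_unique h1 h3]
  exact hμ

theorem translate (D : Qd O O') {ψ : O → ℂ} {𝔟 : Ideal O} (h : Prim ψ 𝔟) (hb : 𝔟 ≠ ⊥) (Y Z : Ideal O')
    (hY : ∀ y ∈ Y, D.N y ∈ 𝔟) (hZ : ∀ z, z ∈ Z ↔ ∀ y ∈ Y, ψ (D.T (z * D.s y)) = 1) {ν : ℂ}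
    (hν : IsMean Z.toAddSubgroup (fun z => ψ (D.N z)) ν) :
    ∃ r : ℝ, 0 < r ∧ IsMean (⊤ : AddSubgroup O') (fun z => ψ (D.N z)) (r * ν) := by
  have hb' := RQ11_ne D hb
  have hZb : 𝔟.map (algebraMap O O') ≤ Z := by
    intro z hz
    rw [hZ]
    intro y _
    exact psi_of_mem h (T_mem D 𝔟 _ (Ideal.mul_mem_right _ _ hz))
  have hZ0 : Z ≠ ⊥ := by
    intro h0
    rw [h0, le_bot_iff] at hZb
    exact hb' hZb
  obtain ⟨R, hR⟩ := reps_ideal_top D Z hZ0
  have hc : (0 : ℝ) < R.card := by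
    exact_mod_cast Finset.card_pos.2 (reps_nonempty hR)
  refine ⟨(R.card : ℝ)⁻¹, inv_pos.2 hc, ?_⟩
  have h1 := translate' D h hb Y Z hY hZ hν R hR
  have h2 : (((R.card : ℝ)⁻¹ : ℝ) : ℂ) * ν = ν / R.card := by
    push_cast
    rw [div_eq_mul_inv, mul_comm]
  rw [h2]
  exact h1

/-- Multiplication by P with P O' + b O' = W: the mean over W of psi(N z) is the mean over O' of psi(N(P) N z). Proof: mean_push for the
additive map z -> P z, A the whole group, A' = W, C' = b O' (finite index by reps_ideal, psi_N_periodic). -/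
theorem scale (D : Qd O O') {ψ : O → ℂ} {𝔟 : Ideal O} (h : Prim ψ 𝔟) (hb : 𝔟 ≠ ⊥) (W : Ideal O')
    (P : O') (hW : W = Ideal.span {P} ⊔ 𝔟.map (algebraMap O O')) {ν : ℂ}
    (hν : IsMean (⊤ : AddSubgroup O') (fun z => ψ (D.N P * D.N z)) ν) :
    IsMean W.toAddSubgroup (fun z => ψ (D.N z)) ν := by
  have hb' := RQ11_ne D hb
  have hle : 𝔟.map (algebraMap O O') ≤ W := by
    rw [hW]
    exact le_sup_right
  obtain ⟨R', hR'⟩ := reps_ideal D _ W hb' hle
  refine mean_push (AddMonoidHom.mulLeft P) (A := ⊤) (C' := (𝔟.map (algebraMap O O')).toAddSubgroup)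
    ?_ hR' (fun a _ b hb2 => psi_N_periodic D h a b hb2) ?_
  · ext x
    constructor
    · intro hx
      have h1 : x ∈ Ideal.span {P} ⊔ 𝔟.map (algebraMap O O') := by
        rw [← hW]
        exact hx
      obtain ⟨y, hy, u, hu, rfl⟩ := Submodule.mem_sup.1 h1
      obtain ⟨c, rfl⟩ := Ideal.mem_span_singleton'.1 hy
      refine AddSubgroup.mem_sup.2 ⟨c * P, ⟨c, AddSubgroup.mem_top _, ?_⟩, u, hu, rfl⟩
      show P * c = c * P
      exact mul_comm _ _
    · intro hx
      obtain ⟨y, ⟨c, -, rfl⟩, u, hu, rfl⟩ := AddSubgroup.mem_sup.1 hx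
      show P * c + u ∈ W
      refine Ideal.add_mem _ ?_ (hle hu)
      rw [hW]
      exact Ideal.mem_sup_left (Ideal.mul_mem_right _ _ (Ideal.mem_span_singleton_self P))
  · refine mean_congr hν ?_
    intro a _
    show ψ (D.N P * D.N a) = ψ (D.N (P * a))
    rw [N_mul]

end H55N.RQ
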