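import Mathlib
import Pool.Agent.Lib.H55N.RQ11

namespace H55N.RQ

variable {O O' : Type} [CommRing O] [CommRing O'] [Algebra O O']

/-! Chunk RQ15 (S/M): the split prime, conductor w. The mean is positive (1/q). Proof: w O' = W W', W' = s(W) = W.comap s, W <> W' maximal. Apply translate (RQ11)
with Y = W', Z = W': for y in W', N y = y s(y) is in W' W = w O', so N y in w (contr). For z in W': T(z s(y)), y in W': z s(y) is in W' W = w O', so T in w and psi = 1.
If z is not in W': then s(z) is not in W (W' = comap). Want y in W' with psi(T(z s y)) <> 1: choose y in W' with s(z) y = 1 mod W (W maximal, W' not in W); for t in O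
let y_t = t y: T(z s(y_t)) = t (z s(y) + s(z) y), where z s(y) is in W (s(y) in W), so it is = t mod W, hence = t mod w (W meet O = w); psi is not trivial on O (w <> O),
so psi(t) <> 1 for some t. On Z = W': N z = z s(z) is in W' W, psi(N z) = 1, the mean over Z is 1 (mean_const, mean_congr). -/
theorem base_split (D : Qd O O') (w : Ideal O) (hw : w.IsMaximal) (hw0 : w ≠ ⊥) (h : Split D w)
    {ψ : O → ℂ} (hψ : Prim ψ w) :
    ∃ r : ℝ, 0 < r ∧ IsMean (⊤ : AddSubgroup O') (fun z => ψ (D.N z)) r := by
  obtain ⟨W, hW, hne, heq⟩ := h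
  have hW' : (W.comap D.s).IsMaximal :=
    Ideal.comap_isMaximal_of_surjective (D.s : O' →+* O') D.s.surjective
  have hmul : ∀ a ∈ W.comap D.s, ∀ b ∈ W, a * b ∈ w.map (algebraMap O O') := by
    intro a ha b hb
    rw [heq, mul_comm W]
    exact Ideal.mul_mem_mul ha hb
  have hsW : ∀ y ∈ W.comap D.s, D.s y ∈ W := fun y hy => hy
  have hN : ∀ y ∈ W.comap D.s, D.N y ∈ w := by
    intro y hy
    rw [← D.contr w, Ideal.mem_comap, D.hN]
    exact hmul y hy _ (hsW y hy)
  -- the contraction of W
  have hcW : W.comap (algebraMap O O') = w := by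
    have h1 : w ≤ W.comap (algebraMap O O') := by
      rw [← Ideal.map_le_iff_le_comap, heq]
      exact Ideal.mul_le_left
    have h2 : W.comap (algebraMap O O') ≠ ⊤ := by
      intro h3
      rw [Ideal.eq_top_iff_one, Ideal.mem_comap, map_one, ← Ideal.eq_top_iff_one] at h3
      exact hW.ne_top h3
    exact (hw.eq_of_le h2 h1).symm
  have hZ : ∀ z, z ∈ W.comap D.s ↔ ∀ y ∈ W.comap D.s, ψ (D.T (z * D.s y)) = 1 := by
    intro z
    constructor
    · intro hz y hy
      exact psi_of_mem hψ (T_mem D w _ (hmul z hz _ (hsW y hy)))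
    · intro hall
      by_contra hz
      have hsz : D.s z ∉ W := hz
      -- an element y0
      obtain ⟨u, hu⟩ : ∃ u, D.s z * u - 1 ∈ W := by
        obtain ⟨u, i, hi, hui⟩ := hW.exists_inv hsz
        refine ⟨u, ?_⟩
        have : D.s z * u - 1 = -i := by linear_combination hui
        rw [this]
        exact W.neg_mem hi
      obtain ⟨e0, he0, he1⟩ : ∃ e0 ∈ W.comap D.s, e0 - 1 ∈ W := by
        have hsup : W.comap D.s ⊔ W = ⊤ := hW'.coprime_of_ne hW hne
        have h1 : (1 : O') ∈ W.comap D.s ⊔ W := by rw [hsup]; trivial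
        obtain ⟨a, ha, b, hb, hab⟩ := Submodule.mem_sup.1 h1
        refine ⟨a, ha, ?_⟩
        have : a - 1 = -b := by linear_combination hab
        rw [this]
        exact W.neg_mem hb
      have hy0 : u * e0 ∈ W.comap D.s := (W.comap D.s).mul_mem_left _ he0
      have hy1 : D.s z * (u * e0) - 1 ∈ W := by
        have : D.s z * (u * e0) - 1 = e0 * (D.s z * u - 1) + (e0 - 1) := by ring
        rw [this]
        exact W.add_mem (W.mul_mem_left _ hu) he1
      have hall2 : ∀ t : O, ψ t = 1 := by
        intro t
        have h1 := hall (algebraMap O O' t * (u * e0)) ((W.comap D.s).mul_mem_left _ hy0)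
        have h2 : D.T (z * D.s (algebraMap O O' t * (u * e0))) - t ∈ w := by
          have hst : D.s (algebraMap O O' t * (u * e0)) = algebraMap O O' t * D.s (u * e0) := by
            rw [map_mul D.s (algebraMap O O' t), AlgEquiv.commutes]
          have hsz2 : D.s (z * D.s (algebraMap O O' t * (u * e0))) =
              D.s z * (algebraMap O O' t * (u * e0)) := by
            rw [map_mul D.s z, D.ss]
          rw [← hcW, Ideal.mem_comap, map_sub, D.hT, hsz2, hst]
          have : z * (algebraMap O O' t * D.s (u * e0)) +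
              D.s z * (algebraMap O O' t * (u * e0)) - algebraMap O O' t =
              (z * algebraMap O O' t) * D.s (u * e0) +
              algebraMap O O' t * (D.s z * (u * e0) - 1) := by ring
          rw [this]
          exact W.add_mem (W.mul_mem_left _ (hsW _ hy0)) (W.mul_mem_left _ hy1)
        have h3 : D.T (z * D.s (algebraMap O O' t * (u * e0))) =
            t + (D.T (z * D.s (algebraMap O O' t * (u * e0))) - t) := by ring
        rw [h3, hψ.add, psi_of_mem hψ h2, mul_one] at h1
        exact h1
      apply hw.ne_top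
      rw [Ideal.eq_top_iff_one, hψ.iff]
      intro y
      exact hall2 _
  have hν : IsMean (W.comap D.s).toAddSubgroup (fun z => ψ (D.N z)) 1 :=
    mean_congr (mean_const _ 1) fun a ha => (psi_of_mem hψ (hN a ha)).symm
  obtain ⟨r, hr, hm⟩ := translate D hψ hw0 (W.comap D.s) (W.comap D.s) hN hZ hν
  rw [mul_one] at hm
  exact ⟨r, hr, hm⟩

end H55N.RQ
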