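import Mathlib
import Pool.Agent.Lib.H55N.RQ12
import Pool.Agent.Lib.H55N.RQ13
import Pool.Agent.Lib.H55N.RQ14
import Pool.Agent.Lib.H55N.RQ15

namespace H55N.RQ

variable {O O' : Type} [CommRing O] [CommRing O'] [Algebra O O']

/-! Chunk RQ16 (M): unramified primes. (a) chi_inert, chi_split: the cases of chiD are exclusive: w O' is maximal (Inert), W W' with W <> W' maximal (Split), W^2 (Ram);
unique factorisation (or elementary: a maximal ideal is not a product of two proper ideals; if W^2 = W1 W1' then W1 >= W^2 gives W1 = W = W1').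
(b) unram, by strong induction on k: k = 0: psi = 1 (conductor O), mean 1. k = 1: base_inert, base_split. k >= 2: translate with Y = w^(k-1) O' (N_mem: N(Y) in
w^(2k-2) <= w^k) and Z = w O' (Z_iff, tr_unram); the mean over Z = w O' is by scale and unif_ext the mean over O' of psi(P^2 N z) (N_alg), and psi(P^2 .) has conductor
w^(k-2) (prim_mul with j = 2); chi^k = chi^(k-2). -/

theorem RQ16_map_ne (D : Qd O O') (w : Ideal O) (hw0 : w ≠ ⊥) : w.map (algebraMap O O') ≠ ⊥ := by
  intro h
  apply hw0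
  rw [← D.contr w, h]
  ext x
  rw [Ideal.mem_comap, Ideal.mem_bot, Ideal.mem_bot]
  constructor
  · intro hx
    apply alg_inj D
    rw [hx, map_zero]
  · rintro rfl
    rw [map_zero]

/-- A maximal ideal is not a product of two proper ideals. -/
theorem RQ16_mul [IsDedekindDomain O'] (A B : Ideal O') (h : (A * B).IsMaximal) (h0 : A * B ≠ ⊥)
    (hA : A ≠ ⊤) (hB : B ≠ ⊤) : False := by
  have h1 : A * B = A := h.eq_of_le hA Ideal.mul_le_left
  have hA0 : A ≠ 0 := by
    rintro rfl
    apply h0
    rw [zero_mul]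
    rfl
  have h2 : A * B = A * 1 := by rw [h1, mul_one]
  have h3 := mul_left_cancel₀ hA0 h2
  exact hB (by rw [h3, Ideal.one_eq_top])

theorem chi_inert [IsDedekindDomain O'] (D : Qd O O') (w : Ideal O) (hw0 : w ≠ ⊥) (h : Inert D w) :
    chiD D w = -1 ∧ ¬ Ram D w := by
  have hr : ¬ Ram D w := by
    rintro ⟨W, hW, hW2, -, -⟩
    have h1 := h.1
    have h0 := RQ16_map_ne D w hw0
    rw [hW2, pow_two] at h1 h0
    exact RQ16_mul W W h1 h0 hW.ne_top hW.ne_top
  refine ⟨?_, hr⟩
  unfold chiD
  rw [if_neg hr, if_pos h]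

theorem chi_split [IsDedekindDomain O'] (D : Qd O O') (w : Ideal O) (hw0 : w ≠ ⊥) (h : Split D w) :
    chiD D w = 1 ∧ ¬ Ram D w := by
  obtain ⟨W, hW, hne, heq⟩ := h
  have hW' : (W.comap D.s).IsMaximal :=
    Ideal.comap_isMaximal_of_surjective (D.s : O' →+* O') D.s.surjective
  have h0 := RQ16_map_ne D w hw0
  have hi : ¬ Inert D w := by
    intro h1
    have h2 := h1.1
    rw [heq] at h2 h0
    exact RQ16_mul _ _ h2 h0 hW.ne_top hW'.ne_top
  have hr : ¬ Ram D w := by
    rintro ⟨V, hV, hV2, -, -⟩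
    have hV0 : V ≠ 0 := by
      rintro rfl
      apply h0
      rw [hV2, pow_two, zero_mul]
      rfl
    have h1 : W * W.comap D.s ≤ V := by
      rw [← heq, hV2, pow_two]
      exact Ideal.mul_le_right
    have h2 : W * W.comap D.s = V * V := by rw [← heq, hV2, pow_two]
    rcases (hV.isPrime.mul_le).1 h1 with h3 | h3
    · have h4 := hW.eq_of_le hV.ne_top h3
      rw [h4] at h2
      have h5 := mul_left_cancel₀ hV0 h2
      apply hne
      rw [h4, h5]
    · have h4 := hW'.eq_of_le hV.ne_top h3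
      rw [h4] at h2
      have h5 := mul_right_cancel₀ hV0 h2
      apply hne
      rw [h4, h5]
  refine ⟨?_, hr⟩
  unfold chiD
  rw [if_neg hr, if_neg hi]

theorem unram [IsDedekindDomain O] [IsDedekindDomain O'] (D : Qd O O') (w : Ideal O)
    (hw : w.IsMaximal) (hw0 : w ≠ ⊥) (h : Inert D w ∨ Split D w) (k : ℕ) :
    ∀ ψ : O → ℂ, Prim ψ (w ^ k) →
      ∃ r : ℝ, 0 < r ∧ IsMean (⊤ : AddSubgroup O') (fun z => ψ (D.N z)) (r * (chiD D w : ℂ) ^ k) := by
  have hchi : (chiD D w : ℂ) ^ 2 = 1 := by
    rcases h with h | h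
    · rw [(chi_inert D w hw0 h).1]; norm_num
    · rw [(chi_split D w hw0 h).1]; norm_num
  induction k using Nat.strong_induction_on with
  | _ k ih =>
    intro ψ hψ
    rcases Nat.lt_or_ge k 2 with hk | hk
    · interval_cases k
      · refine ⟨1, one_pos, ?_⟩
        have h1 := mean_congr (mean_const (⊤ : AddSubgroup O') 1)
          (g := fun z => ψ (D.N z)) fun a _ => (psi_of_mem hψ (by
            rw [pow_zero, Ideal.one_eq_top]; trivial)).symm
        simpa using h1
      · rw [pow_one] at hψ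
        rcases h with h | h
        · obtain ⟨r, hr, hm⟩ := base_inert D w hw hw0 h hψ
          refine ⟨r, hr, ?_⟩
          rw [(chi_inert D w hw0 h).1]
          have h2 : (r : ℂ) * (((-1 : ℤ) : ℂ)) ^ 1 = -r := by push_cast; ring
          rw [h2]
          exact hm
        · obtain ⟨r, hr, hm⟩ := base_split D w hw hw0 h hψ
          refine ⟨r, hr, ?_⟩
          rw [(chi_split D w hw0 h).1]
          have h2 : (r : ℂ) * (((1 : ℤ) : ℂ)) ^ 1 = r := by push_cast; ring
          rw [h2]
          exact hm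
    · obtain ⟨j, rfl⟩ : ∃ j, k = j + 2 := ⟨k - 2, by omega⟩
      obtain ⟨P, hP, hP2, hPn⟩ := unif_ext (O' := O') w hw hw0
      have hP1 : P ∈ w ^ 1 := by rw [pow_one]; exact hP
      have h1 : Prim (fun t => ψ (P * t)) (w ^ (j + 2 - 1)) :=
        prim_mul w hw hw0 (by omega) hψ P hP1 hP2
      have h2 : Prim (fun t => ψ (P * (P * t))) (w ^ (j + 2 - 1 - 1)) :=
        prim_mul w hw hw0 (by omega) h1 P hP1 hP2
      have e1 : j + 2 - 1 - 1 = j := by omega
      rw [e1] at h2
      obtain ⟨r, hr, hm⟩ := ih j (by omega) _ h2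
      have hb0 : w ^ (j + 2) ≠ ⊥ := pow_ne_zero _ hw0
      have hm2 : IsMean (w.map (algebraMap O O')).toAddSubgroup (fun z => ψ (D.N z))
          (r * (chiD D w : ℂ) ^ j) := by
        refine scale D hψ hb0 _ (algebraMap O O' P) (hPn (j + 2) (by omega)) ?_
        refine mean_congr hm fun a _ => ?_
        have e3 : D.N (algebraMap O O' P) * D.N a = P * (P * D.N a) := by
          rw [N_alg]
          ring
        rw [← e3]
      have hY : ∀ y ∈ (w ^ (j + 1)).map (algebraMap O O'), D.N y ∈ w ^ (j + 2) := by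
        intro y hy
        have h3 := N_mem D _ y hy
        rw [← pow_mul] at h3
        exact Ideal.pow_le_pow_right (by omega) h3
      have hZ : ∀ z, z ∈ w.map (algebraMap O O') ↔
          ∀ y ∈ (w ^ (j + 1)).map (algebraMap O O'), ψ (D.T (z * D.s y)) = 1 := by
        intro z
        rw [tr_unram D w hw h z]
        exact (Z_iff D w hw hw0 (j + 1) hψ z).symm
      obtain ⟨r', hr', hm3⟩ := translate D hψ hb0 _ _ hY hZ hm2
      refine ⟨r' * r, mul_pos hr' hr, ?_⟩
      have e2 : (((r' * r : ℝ) : ℂ)) * (chiD D w : ℂ) ^ (j + 2) =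
          r' * (r * (chiD D w : ℂ) ^ j) := by
        rw [pow_add, hchi]
        push_cast
        ring
      rw [e2]
      exact hm3

end H55N.RQ
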