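import Mathlib
import Pool.Agent.Lib.H55N.RQ11
import Pool.Agent.Lib.H55N.RQ12
import Pool.Agent.Lib.H55N.RQ13

namespace H55N.RQ

variable {O O' : Type} [CommRing O] [CommRing O'] [Algebra O O']

/-! Chunk RQ17 (M): ramified primes.
base_ram (conductor w): every z in O' is = t mod W with t in O, and then N z = z s(z) = t^2 mod W, so N z = t^2 mod w, psi(N z) = psi(t^2) (psi is trivial on w).
So psi(N z) is a function of the class of z modulo W (Reps of O'/W by elements of O: mu = (1/q) sum_{t in O/w} psi(t^2)), and the mean for psi(x .) is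
mu' = (1/q) sum psi(x t^2). If x = y^2 mod w, t -> t y is a bijection: mu' = mu. If x is not a square mod w: every class u of O/w satisfies
#{t : t^2 = u} + #{t : x t^2 = u} = 2 (2 not in w), so mu + mu' = (2/q) sum_u psi(u) = 0.
ram_all (conductor w^k, k >= 1), induction on k for all psi at once: k >= 2: translate with Y = w^(k-1) O', Z = W (Z_iff, tr_ram) and scale with P of unif_ram: mean psi(N z) =
r mean psi(N(P) N z), psi(N(P) .) has conductor w^(k-1) (prim_mul, j = 1); use translate' (RQ11), so that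
the constant (1/|O'/W|) is the same for psi and psi(x .). -/

theorem rq17_sq {k : Type} [Field k] [Fintype k] [DecidableEq k] (h2 : ringChar k ≠ 2)
    (g : k → ℂ) : ∑ c : k, g (c ^ 2) = ∑ u : k, ((quadraticChar k u : ℤ) + 1 : ℂ) * g u := by
  rw [← Finset.sum_fiberwise (s := (Finset.univ : Finset k)) (g := fun c : k => c ^ 2)]
  refine Finset.sum_congr rfl fun u _ => ?_
  have h1 : ∑ c ∈ Finset.univ.filter (fun c : k => c ^ 2 = u), g (c ^ 2) =
      ((Finset.univ.filter (fun c : k => c ^ 2 = u)).card : ℂ) * g u := by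
    rw [← nsmul_eq_mul, ← Finset.sum_const]
    refine Finset.sum_congr rfl fun c hc => ?_
    rw [(Finset.mem_filter.1 hc).2]
  rw [h1]
  congr 1
  have h3 := quadraticChar_card_sqrts h2 u
  have h4 : ({x : k | x ^ 2 = u} : Set k).toFinset = Finset.univ.filter (fun c : k => c ^ 2 = u) := by
    ext x
    simp
  rw [h4] at h3
  have h5 : (((Finset.univ.filter (fun c : k => c ^ 2 = u)).card : ℤ) : ℂ) =
      (((quadraticChar k u + 1 : ℤ)) : ℂ) := by rw [h3]
  push_cast at h5
  exact h5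

theorem rq17_ff {k : Type} [Field k] [Fintype k] [DecidableEq k] (h2 : ringChar k ≠ 2)
    (ψ : k → ℂ) (hadd : ∀ x y, ψ (x + y) = ψ x * ψ y) (hnt : ∃ t, ψ t ≠ 1)
    (x : k) (hx : x ≠ 0) :
    ∑ c : k, ψ (x * c ^ 2) = (quadraticChar k x : ℤ) * ∑ c : k, ψ (c ^ 2) := by
  have hz : ∑ t : k, ψ t = 0 := by
    obtain ⟨t0, ht0⟩ := hnt
    have h2 : ψ t0 * ∑ t : k, ψ t = ∑ t : k, ψ t := by
      rw [Finset.mul_sum, ← Equiv.sum_comp (Equiv.addLeft t0) ψ]
      refine Finset.sum_congr rfl fun t _ => ?_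
      show ψ t0 * ψ t = ψ (t0 + t)
      rw [hadd]
    have h3 : (ψ t0 - 1) * ∑ t : k, ψ t = 0 := by rw [sub_mul, h2, one_mul, sub_self]
    exact (mul_eq_zero.1 h3).resolve_left (sub_ne_zero.2 ht0)
  have hzx : ∑ t : k, ψ (x * t) = 0 := by
    rw [← hz]
    exact Equiv.sum_comp (Equiv.mulLeft₀ x hx) ψ
  have e1 : ∑ c : k, ψ (x * c ^ 2) = ∑ u : k, ((quadraticChar k u : ℤ) : ℂ) * ψ (x * u) := by
    rw [rq17_sq h2 (fun u => ψ (x * u))]
    simp only [add_mul, one_mul, Finset.sum_add_distrib]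
    rw [hzx, add_zero]
  have e2 : ∑ c : k, ψ (c ^ 2) = ∑ u : k, ((quadraticChar k u : ℤ) : ℂ) * ψ u := by
    rw [rq17_sq h2 ψ]
    simp only [add_mul, one_mul, Finset.sum_add_distrib]
    rw [hz, add_zero]
  have e3 : ((quadraticChar k x : ℤ) : ℂ) * ∑ c : k, ψ (x * c ^ 2) = ∑ c : k, ψ (c ^ 2) := by
    rw [e1, e2, Finset.mul_sum,
      ← Equiv.sum_comp (Equiv.mulLeft₀ x hx) (fun u => ((quadraticChar k u : ℤ) : ℂ) * ψ u)]
    refine Finset.sum_congr rfl fun u _ => ?_
    show _ = ((quadraticChar k (x * u) : ℤ) : ℂ) * ψ (x * u)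
    rw [map_mul]
    push_cast
    ring
  have e4 : ((quadraticChar k x : ℤ) : ℂ) * ((quadraticChar k x : ℤ) : ℂ) = 1 := by
    have h3 := quadraticChar_sq_one hx
    rw [sq] at h3
    exact_mod_cast h3
  rw [← e3, ← mul_assoc, e4, one_mul]

theorem rq17_comap (w : Ideal O) (hw : w.IsMaximal) (W : Ideal O') (hW : W ≠ ⊤)
    (hle : w.map (algebraMap O O') ≤ W) : W.comap (algebraMap O O') = w := by
  symm
  apply hw.eq_of_le
  · rw [Ne, Ideal.eq_top_iff_one, Ideal.mem_comap, map_one, ← Ideal.eq_top_iff_one]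
    exact hW
  · exact Ideal.map_le_iff_le_comap.1 hle

theorem rq17_W0 (D : Qd O O') (w : Ideal O) (hw0 : w ≠ ⊥) (W : Ideal O')
    (hW2 : w.map (algebraMap O O') = W ^ 2) : W ≠ ⊥ := by
  rintro rfl
  apply hw0
  rw [eq_bot_iff]
  intro x hx
  have h1 := Ideal.mem_map_of_mem (algebraMap O O') hx
  rw [hW2, Ideal.bot_pow two_ne_zero] at h1
  have h2 : algebraMap O O' x = 0 := h1
  exact alg_inj D (by rw [h2, map_zero])

/-- The mean for the character `ψ (y ·)` in the ramified case. -/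
theorem rq17_mean (D : Qd O O') (w : Ideal O) (hw : w.IsMaximal) (hw0 : w ≠ ⊥)
    (h : Ram D w) {ψ : O → ℂ} (hψ : Prim ψ w) [Fintype (O ⧸ w)] (y : O) :
    IsMean (⊤ : AddSubgroup O') (fun z => ψ (y * D.N z))
      ((∑ c : O ⧸ w, ψ (y * c.out ^ 2)) / Fintype.card (O ⧸ w)) := by
  classical
  obtain ⟨W, hW, hW2, hs, hres⟩ := h
  have hle : w.map (algebraMap O O') ≤ W := by
    rw [hW2]
    exact Ideal.pow_le_self two_ne_zero
  have hcom := rq17_comap w hw W hW.ne_top hle
  have hN : ∀ z t, z - algebraMap O O' t ∈ W → ψ (y * D.N z) = ψ (y * t ^ 2) := by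
    intro z t hzt
    have h1 : D.N z - t ^ 2 ∈ w := by
      rw [← hcom, Ideal.mem_comap, map_sub, D.hN, map_pow]
      have h2 := hs _ hzt
      rw [map_sub, AlgEquiv.commutes] at h2
      have h3 : z * D.s z - algebraMap O O' t ^ 2 = (z - algebraMap O O' t) * D.s z +
          algebraMap O O' t * (D.s z - algebraMap O O' t) := by ring
      rw [h3]
      exact Ideal.add_mem _ (Ideal.mul_mem_right _ _ hzt) (Ideal.mul_mem_left _ _ h2)
    have h4 : y * D.N z = y * t ^ 2 + y * (D.N z - t ^ 2) := by ring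
    rw [h4, hψ.add, psi_of_mem hψ (Ideal.mul_mem_left _ _ h1), mul_one]
  have hout : ∀ c : O ⧸ w, Ideal.Quotient.mk w c.out = c := fun c => Ideal.Quotient.mk_out c
  have hinj : Function.Injective (fun c : O ⧸ w => algebraMap O O' c.out) := by
    intro c c' hcc
    have := alg_inj D hcc
    rw [← hout c, ← hout c', this]
  set R : Finset O' := Finset.univ.image (fun c : O ⧸ w => algebraMap O O' c.out) with hR
  have hReps : Reps (⊤ : AddSubgroup O') W.toAddSubgroup R := by
    refine ⟨le_top, fun r _ => AddSubgroup.mem_top _, ?_, ?_⟩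
    · intro a _
      obtain ⟨t, ht⟩ := hres a
      refine ⟨algebraMap O O' (Ideal.Quotient.mk w t).out, ?_, ?_⟩
      · rw [hR]
        exact Finset.mem_image_of_mem _ (Finset.mem_univ _)
      · have h1 : (Ideal.Quotient.mk w t).out - t ∈ w := by
          rw [← Ideal.Quotient.eq, hout]
        have h2 : algebraMap O O' ((Ideal.Quotient.mk w t).out - t) ∈ W :=
          hle (Ideal.mem_map_of_mem _ h1)
        rw [map_sub] at h2
        have h3 : a - algebraMap O O' (Ideal.Quotient.mk w t).out = (a - algebraMap O O' t) -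
            (algebraMap O O' (Ideal.Quotient.mk w t).out - algebraMap O O' t) := by ring
        show a - algebraMap O O' (Ideal.Quotient.mk w t).out ∈ W
        rw [h3]
        exact Ideal.sub_mem _ ht h2
    · intro r hr r' hr' hrr
      rw [hR, Finset.mem_image] at hr hr'
      obtain ⟨c, _, rfl⟩ := hr
      obtain ⟨c', _, rfl⟩ := hr'
      have h1 : algebraMap O O' c.out - algebraMap O O' c'.out ∈ W := hrr
      rw [← map_sub, ← Ideal.mem_comap, hcom, ← Ideal.Quotient.eq, hout, hout] at h1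
      rw [h1]
  refine ⟨W.toAddSubgroup, R, hReps, ?_, ?_⟩
  · intro a _ b hb
    obtain ⟨t, ht⟩ := hres a
    show ψ (y * D.N (a + b)) = ψ (y * D.N a)
    rw [hN a t ht, hN (a + b) t]
    have h3 : a + b - algebraMap O O' t = (a - algebraMap O O' t) + b := by ring
    rw [h3]
    exact Ideal.add_mem _ ht hb
  · have hcard : R.card = Fintype.card (O ⧸ w) := by
      rw [hR, Finset.card_image_of_injective _ hinj, Finset.card_univ]
    have hpos : (Fintype.card (O ⧸ w) : ℂ) ≠ 0 := by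
      have : Fintype.card (O ⧸ w) ≠ 0 := Fintype.card_ne_zero
      exact_mod_cast this
    rw [hcard, mul_div_cancel₀ _ hpos, hR, Finset.sum_image (fun c _ c' _ h => hinj h)]
    refine Finset.sum_congr rfl fun c _ => ?_
    exact hN _ _ (by rw [sub_self]; exact W.zero_mem)

theorem base_ram (D : Qd O O') (w : Ideal O) (hw : w.IsMaximal) (hw0 : w ≠ ⊥) (h2 : (2 : O) ∉ w)
    (h : Ram D w) {ψ : O → ℂ} (hψ : Prim ψ w) {μ : ℂ}
    (hμ : IsMean (⊤ : AddSubgroup O') (fun z => ψ (D.N z)) μ) (x : O) (hx : x ∉ w) :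
    IsMean (⊤ : AddSubgroup O') (fun z => ψ (x * D.N z)) (qs w x * μ) := by
  classical
  let _ : Field (O ⧸ w) := Ideal.Quotient.field w
  haveI : Finite (O ⧸ w) := D.fin w hw0
  haveI : Fintype (O ⧸ w) := Fintype.ofFinite _
  have hout : ∀ c : O ⧸ w, Ideal.Quotient.mk w c.out = c := fun c => Ideal.Quotient.mk_out c
  set ψ' : O ⧸ w → ℂ := fun t => ψ t.out with hψ'
  have hψ'1 : ∀ t, ψ' (Ideal.Quotient.mk w t) = ψ t := by
    intro t
    have h1 : (Ideal.Quotient.mk w t).out - t ∈ w := by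
      rw [← Ideal.Quotient.eq, hout]
    show ψ (Ideal.Quotient.mk w t).out = ψ t
    have h2 : (Ideal.Quotient.mk w t).out = t + ((Ideal.Quotient.mk w t).out - t) := by ring
    rw [h2, hψ.add, psi_of_mem hψ h1, mul_one]
  have hsum : ∀ y : O, ∑ c : O ⧸ w, ψ (y * c.out ^ 2) =
      ∑ c : O ⧸ w, ψ' (Ideal.Quotient.mk w y * c ^ 2) := by
    intro y
    refine Finset.sum_congr rfl fun c _ => ?_
    rw [← hψ'1, map_mul, map_pow, hout]
  have h1 := rq17_mean D w hw hw0 h hψ 1
  have h3 := rq17_mean D w hw hw0 h hψ x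
  have hμ' : IsMean (⊤ : AddSubgroup O') (fun z => ψ (1 * D.N z)) μ :=
    mean_congr hμ fun a _ => by rw [one_mul]
  have hμe := mean_unique hμ' h1
  rw [hsum, map_one] at hμe
  rw [hsum] at h3
  have hx0 : Ideal.Quotient.mk w x ≠ 0 := by
    rw [Ne, Ideal.Quotient.eq_zero_iff_mem]
    exact hx
  have hchar : ringChar (O ⧸ w) ≠ 2 := by
    intro hc
    apply h2
    rw [← Ideal.Quotient.eq_zero_iff_mem, map_ofNat]
    have := ringChar.Nat.cast_ringChar (R := O ⧸ w)
    rw [hc] at this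
    exact_mod_cast this
  have hff := rq17_ff hchar ψ'
    (by
      intro a b
      rw [← hout a, ← hout b, ← map_add, hψ'1, hψ'1, hψ'1, hψ.add])
    (by
      by_contra hc
      push Not at hc
      apply hw.ne_top
      rw [Ideal.eq_top_iff_one, hψ.iff]
      intro y
      rw [one_mul, ← hψ'1, hc])
    (Ideal.Quotient.mk w x) hx0
  have hqs : (qs w x : ℂ) = ((quadraticChar (O ⧸ w) (Ideal.Quotient.mk w x) : ℤ) : ℂ) := by
    congr 1
    unfold qs
    have hiff : IsSquare (Ideal.Quotient.mk w x) ↔ ∃ y, x - y ^ 2 ∈ w := by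
      constructor
      · rintro ⟨r, hr⟩
        refine ⟨r.out, ?_⟩
        rw [← Ideal.Quotient.eq, map_pow, hout, hr, sq]
      · rintro ⟨y, hy⟩
        refine ⟨Ideal.Quotient.mk w y, ?_⟩
        rw [← sq, ← map_pow]
        exact Ideal.Quotient.eq.2 hy
    by_cases hsq : ∃ y, x - y ^ 2 ∈ w
    · rw [if_pos hsq]
      exact ((quadraticChar_one_iff_isSquare hx0).2 (hiff.2 hsq)).symm
    · rw [if_neg hsq]
      exact (quadraticChar_neg_one_iff_not_isSquare.2 fun h => hsq (hiff.1 h)).symm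
  rw [hff] at h3
  rw [hqs, hμe]
  have e1 : ∑ c : O ⧸ w, ψ' (1 * c ^ 2) = ∑ c : O ⧸ w, ψ' (c ^ 2) :=
    Finset.sum_congr rfl fun c _ => by rw [one_mul]
  rw [e1, ← mul_div_assoc]
  exact h3

theorem ram_all [IsDedekindDomain O] [IsDedekindDomain O'] (D : Qd O O') (w : Ideal O)
    (hw : w.IsMaximal) (hw0 : w ≠ ⊥) (h2 : (2 : O) ∉ w) (h : Ram D w) (x : O) (hx : x ∉ w) (k : ℕ) :
    ∀ ψ : O → ℂ, Prim ψ (w ^ (k + 1)) → ∀ μ : ℂ,
      IsMean (⊤ : AddSubgroup O') (fun z => ψ (D.N z)) μ →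
      IsMean (⊤ : AddSubgroup O') (fun z => ψ (x * D.N z)) (qs w x * μ) := by
  induction k with
  | zero =>
    intro ψ hψ μ hμ
    rw [zero_add, pow_one] at hψ
    exact base_ram D w hw hw0 h2 h hψ hμ x hx
  | succ k ih =>
    intro ψ hψ μ hμ
    obtain ⟨W, hW, hW2, hs, hres⟩ := id h
    have hW0 : W ≠ ⊥ := rq17_W0 D w hw0 W hW2
    have hb : ∀ n, w ^ n ≠ ⊥ := fun n => pow_ne_zero n hw0
    obtain ⟨P, hPW, hP1, hP2, hP⟩ := unif_ram D w W hW hW0 hW2 hs
    have hψ1 : Prim (fun t => ψ (D.N P * t)) (w ^ (k + 1)) := by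
      have := prim_mul w hw hw0 (k := k + 1 + 1) (j := 1) (by omega) hψ (D.N P)
        (by rw [pow_one]; exact hP1) hP2
      exact this
    have hψx : Prim (fun t => ψ (x * t)) (w ^ (k + 1 + 1)) := by
      have := prim_mul w hw hw0 (k := k + 1 + 1) (j := 0) (by omega) hψ x
        (by rw [pow_zero, Ideal.one_eq_top]; trivial) (by rw [zero_add, pow_one]; exact hx)
      exact this
    have hY : ∀ y ∈ (w ^ (k + 1)).map (algebraMap O O'), D.N y ∈ w ^ (k + 1 + 1) := by
      intro y hy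
      have h1 := N_mem D _ y hy
      rw [← pow_mul] at h1
      exact Ideal.pow_le_pow_right (by omega) h1
    have hZ : ∀ (ψ : O → ℂ), Prim ψ (w ^ (k + 1 + 1)) → ∀ z, z ∈ W ↔
        ∀ y ∈ (w ^ (k + 1)).map (algebraMap O O'), ψ (D.T (z * D.s y)) = 1 := by
      intro ψ hψ z
      rw [Z_iff D w hw hw0 (k + 1) hψ z]
      exact tr_ram D w hw h2 W hW hW2 hs z
    obtain ⟨ν, hν⟩ := mean_exists_N D hψ1 (hb _)
    obtain ⟨R, hR⟩ := reps_ideal_top D W hW0
    have hWP : W = Ideal.span {P} ⊔ (w ^ (k + 1 + 1)).map (algebraMap O O') := hP _ (by omega)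
    have e1 := scale D hψ (hb _) W P hWP hν
    have e2 := translate' D hψ (hb _) _ W hY (hZ ψ hψ) e1 R hR
    have hμν := mean_unique hμ e2
    have e3 := ih (fun t => ψ (D.N P * t)) hψ1 ν hν
    have e4 : IsMean (⊤ : AddSubgroup O') (fun z => (fun t => ψ (x * t)) (D.N P * D.N z))
        (qs w x * ν) := by
      refine mean_congr e3 fun a _ => ?_
      show ψ (D.N P * (x * D.N a)) = ψ (x * (D.N P * D.N a))
      congr 1
      ring
    have e5 := scale D hψx (hb _) W P hWP e4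
    have e6 := translate' D hψx (hb _) _ W hY (hZ _ hψx) e5 R hR
    rw [hμν, ← mul_div_assoc]
    exact e6

end H55N.RQ
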