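import Mathlib
import Pool.Agent.Lib.H55N.RQ10

namespace H55N.RQ

variable {O O' : Type} [CommRing O] [CommRing O'] [Algebra O O']

/-! Chunk RQ18 (M): the Chinese remainder theorem. b1 + b2 = O: choose e1 in b2, e2 in b1, e1 + e2 = 1.
Prim: psi(e1 t y) = 1 for all y iff e1 t in b1 b2 iff t in b1 (if t in b1: e1 t in b1 b2; conversely t = e1 t + e2 t in b1). Additivity clear.
Norms: e1 N(z) = N(e1 z) + (element of b1 b2), because N(e1 z) = e1^2 N(z) and e1^2 - e1 = -e1 e2 in b1 b2; and for z = e1 z1 + e2 z2: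
N(z) = e1^2 N(z1) + e2^2 N(z2) + e1 e2 T(z1 s(z2)) = e1 N(z1) + e2 N(z2) mod b1 b2. So psi(N(z + y)), z = e1 z + e2 z:
psi(N(e1 z1 + e2 z2)) = psi(e1 N z1) psi(e2 N z2). Means: f(z) = psi(N z). By mean_fubini twice, or directly: let R1 represent O'/b1 O', R2 represent O'/b2 O'; then
e1 r1 + e2 r2 represent O'/(b1 b2) O' (b1 b2 O' = b1 O' meet b2 O'), and the sum of f over them is the product of the sums. -/
theorem psi_x_periodic (D : Qd O O') {ψ : O → ℂ} {𝔟 : Ideal O} (h : Prim ψ 𝔟) (x : O) (z y : O')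
    (hy : y ∈ 𝔟.map (algebraMap O O')) : ψ (x * D.N (z + y)) = ψ (x * D.N z) := by
  have h1 : D.N y ∈ 𝔟 := Ideal.pow_le_self two_ne_zero (N_mem D 𝔟 y hy)
  have h2 : D.T (z * D.s y) ∈ 𝔟 :=
    T_mem D 𝔟 _ (Ideal.mul_mem_left _ _ (s_mem D 𝔟 y hy))
  rw [N_add, mul_add, mul_add, h.add, h.add, psi_of_mem h (Ideal.mul_mem_left _ _ h1),
    psi_of_mem h (Ideal.mul_mem_left _ _ h2), mul_one, mul_one]

theorem crt_prim (𝔟₁ 𝔟₂ : Ideal O) {ψ : O → ℂ} (h : Prim ψ (𝔟₁ * 𝔟₂)) (e₁ e₂ : O)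
    (h1 : e₁ ∈ 𝔟₂) (h2 : e₂ ∈ 𝔟₁) (h12 : e₁ + e₂ = 1) : Prim (fun t => ψ (e₁ * t)) 𝔟₁ := by
  refine ⟨by simp [h.zero], fun x y => by simp only [mul_add, h.add], fun t => ?_⟩
  have key : t ∈ 𝔟₁ ↔ e₁ * t ∈ 𝔟₁ * 𝔟₂ := by
    constructor
    · intro ht
      rw [mul_comm e₁ t]
      exact Ideal.mul_mem_mul ht h1
    · intro ht
      have : t = e₁ * t + e₂ * t := by rw [← add_mul, h12, one_mul]
      rw [this]
      exact 𝔟₁.add_mem (Ideal.mul_le_left ht) (Ideal.mul_mem_right _ _ h2)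
  rw [key, h.iff]
  simp only [mul_assoc]

open Classical in
theorem crt (D : Qd O O') (𝔟₁ 𝔟₂ : Ideal O) (h12 : IsCoprime 𝔟₁ 𝔟₂) (h1 : 𝔟₁ ≠ ⊥) (h2 : 𝔟₂ ≠ ⊥)
    (h12' : 𝔟₁ * 𝔟₂ ≠ ⊥) {ψ : O → ℂ} (h : Prim ψ (𝔟₁ * 𝔟₂)) :
    ∃ e₁ e₂ : O, Prim (fun t => ψ (e₁ * t)) 𝔟₁ ∧ Prim (fun t => ψ (e₂ * t)) 𝔟₂ ∧
      ∀ x : O, ∀ μ₁ μ₂ : ℂ,
        IsMean (⊤ : AddSubgroup O') (fun z => ψ (e₁ * (x * D.N z))) μ₁ →
        IsMean (⊤ : AddSubgroup O') (fun z => ψ (e₂ * (x * D.N z))) μ₂ →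
        IsMean (⊤ : AddSubgroup O') (fun z => ψ (x * D.N z)) (μ₁ * μ₂) := by
  obtain ⟨e₂, he₂, e₁, he₁, he⟩ := Ideal.isCoprime_iff_exists.1 h12
  have he' : e₁ + e₂ = 1 := by rw [add_comm]; exact he
  have P1 := crt_prim 𝔟₁ 𝔟₂ h e₁ e₂ he₁ he₂ he'
  have h' : Prim ψ (𝔟₂ * 𝔟₁) := by rw [mul_comm]; exact h
  have P2 := crt_prim 𝔟₂ 𝔟₁ h' e₂ e₁ he₂ he₁ he
  refine ⟨e₁, e₂, P1, P2, fun x μ₁ μ₂ hm1 hm2 => ?_⟩
  have inj := alg_inj D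
  have hn : ∀ I : Ideal O, I ≠ ⊥ → I.map (algebraMap O O') ≠ ⊥ := by
    intro I hI hI'
    apply hI
    rw [eq_bot_iff]
    intro t ht
    have := Ideal.mem_map_of_mem (algebraMap O O') ht
    rw [hI', Ideal.mem_bot] at this
    exact (Ideal.mem_bot).2 (inj (by rw [this, map_zero]))
  obtain ⟨R1, hR1⟩ := reps_ideal_top D (𝔟₁.map (algebraMap O O')) (hn _ h1)
  obtain ⟨R2, hR2⟩ := reps_ideal_top D (𝔟₂.map (algebraMap O O')) (hn _ h2)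
  have hs1 := mean_reps hm1 hR1 (fun a _ b hb => psi_x_periodic D P1 x a b hb)
  have hs2 := mean_reps hm2 hR2 (fun a _ b hb => psi_x_periodic D P2 x a b hb)
  set a₁ : O' := algebraMap O O' e₁ with ha₁
  set a₂ : O' := algebraMap O O' e₂ with ha₂
  have hsum : a₁ + a₂ = 1 := by rw [ha₁, ha₂, ← map_add, he', map_one]
  have ha₁m : a₁ ∈ 𝔟₂.map (algebraMap O O') := Ideal.mem_map_of_mem _ he₁
  have ha₂m : a₂ ∈ 𝔟₁.map (algebraMap O O') := Ideal.mem_map_of_mem _ he₂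
  have hmap : (𝔟₁ * 𝔟₂).map (algebraMap O O') =
      𝔟₁.map (algebraMap O O') * 𝔟₂.map (algebraMap O O') := Ideal.map_mul _ _ _
  -- the values
  have hval : ∀ r₁ r₂ : O', ψ (x * D.N (a₁ * r₁ + a₂ * r₂)) =
      ψ (e₁ * (x * D.N r₁)) * ψ (e₂ * (x * D.N r₂)) := by
    intro r₁ r₂
    have e1 : D.N (a₁ * r₁ + a₂ * r₂) =
        e₁ ^ 2 * D.N r₁ + e₂ ^ 2 * D.N r₂ + e₁ * (e₂ * D.T (r₁ * D.s r₂)) := by
      rw [N_add, N_mul, N_mul, ha₁, ha₂, N_alg, N_alg, ← T_smul, ← T_smul]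
      congr 2
      simp only [map_mul, AlgEquiv.commutes]
      ring
    have hee : e₁ * e₂ ∈ 𝔟₁ * 𝔟₂ := by
      rw [mul_comm e₁ e₂]
      exact Ideal.mul_mem_mul he₂ he₁
    have e2 : x * D.N (a₁ * r₁ + a₂ * r₂) = (e₁ * (x * D.N r₁) + e₂ * (x * D.N r₂)) +
        (e₁ * e₂) * (x * (D.T (r₁ * D.s r₂) - D.N r₁ - D.N r₂)) := by
      rw [e1]
      have h3 : e₁ ^ 2 = e₁ - e₁ * e₂ := by
        linear_combination e₁ * he'
      have h4 : e₂ ^ 2 = e₂ - e₁ * e₂ := by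
        linear_combination e₂ * he'
      rw [h3, h4]
      ring
    rw [e2, h.add, h.add, psi_of_mem h (Ideal.mul_mem_right _ _ hee), mul_one]
  -- the representatives
  have hinj : Set.InjOn (fun p : O' × O' => a₁ * p.1 + a₂ * p.2)
      ((R1 ×ˢ R2 : Finset (O' × O')) : Set (O' × O')) ∧
      ∀ p ∈ R1 ×ˢ R2, ∀ q ∈ R1 ×ˢ R2, (a₁ * p.1 + a₂ * p.2) - (a₁ * q.1 + a₂ * q.2) ∈
        (𝔟₁ * 𝔟₂).map (algebraMap O O') → p = q := by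
    have hk : ∀ p ∈ R1 ×ˢ R2, ∀ q ∈ R1 ×ˢ R2, (a₁ * p.1 + a₂ * p.2) - (a₁ * q.1 + a₂ * q.2) ∈
        (𝔟₁ * 𝔟₂).map (algebraMap O O') → p = q := by
      rintro ⟨p1, p2⟩ hp ⟨q1, q2⟩ hq hpq
      rw [Finset.mem_product] at hp hq
      simp only at hp hq hpq
      rw [hmap] at hpq
      have i1 := Ideal.mul_le_left hpq
      have i2 := Ideal.mul_le_right hpq
      have j1 : p1 - q1 ∈ 𝔟₁.map (algebraMap O O') := by
        have : p1 - q1 = (a₁ * p1 + a₂ * p2 - (a₁ * q1 + a₂ * q2)) +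
            a₂ * ((p1 - q1) - (p2 - q2)) := by
          have : p1 - q1 = (a₁ + a₂) * (p1 - q1) := by rw [hsum, one_mul]
          linear_combination this
        rw [this]
        exact Ideal.add_mem _ i1 (Ideal.mul_mem_right _ _ ha₂m)
      have j2 : p2 - q2 ∈ 𝔟₂.map (algebraMap O O') := by
        have : p2 - q2 = (a₁ * p1 + a₂ * p2 - (a₁ * q1 + a₂ * q2)) +
            a₁ * ((p2 - q2) - (p1 - q1)) := by
          have : p2 - q2 = (a₁ + a₂) * (p2 - q2) := by rw [hsum, one_mul]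
          linear_combination this
        rw [this]
        exact Ideal.add_mem _ i2 (Ideal.mul_mem_right _ _ ha₁m)
      exact Prod.ext (hR1.uniq _ hp.1 _ hq.1 j1) (hR2.uniq _ hp.2 _ hq.2 j2)
    refine ⟨fun p hp q hq hpq => ?_, hk⟩
    refine hk p (Finset.mem_coe.1 hp) q (Finset.mem_coe.1 hq) ?_
    have hpq' : a₁ * p.1 + a₂ * p.2 = a₁ * q.1 + a₂ * q.2 := hpq
    rw [hpq', sub_self]
    exact Ideal.zero_mem _
  refine ⟨((𝔟₁ * 𝔟₂).map (algebraMap O O')).toAddSubgroup,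
    (R1 ×ˢ R2).image fun p => a₁ * p.1 + a₂ * p.2, ⟨le_top, fun _ _ => AddSubgroup.mem_top _, ?_, ?_⟩,
    fun a _ b hb => psi_x_periodic D h x a b hb, ?_⟩
  · intro z _
    obtain ⟨r₁, hr₁, hz₁⟩ := hR1.ex z (AddSubgroup.mem_top _)
    obtain ⟨r₂, hr₂, hz₂⟩ := hR2.ex z (AddSubgroup.mem_top _)
    refine ⟨a₁ * r₁ + a₂ * r₂, Finset.mem_image.2 ⟨(r₁, r₂), Finset.mk_mem_product hr₁ hr₂, rfl⟩, ?_⟩
    show z - (a₁ * r₁ + a₂ * r₂) ∈ (𝔟₁ * 𝔟₂).map (algebraMap O O')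
    rw [hmap]
    have : z - (a₁ * r₁ + a₂ * r₂) = (z - r₁) * a₁ + a₂ * (z - r₂) := by
      have : z = (a₁ + a₂) * z := by rw [hsum, one_mul]
      linear_combination this
    rw [this]
    exact Ideal.add_mem _ (Ideal.mul_mem_mul hz₁ ha₁m) (Ideal.mul_mem_mul ha₂m hz₂)
  · intro r hr s hs hrs
    obtain ⟨p, hp, rfl⟩ := Finset.mem_image.1 hr
    obtain ⟨q, hq, rfl⟩ := Finset.mem_image.1 hs
    have := hinj.2 p hp q hq hrs
    rw [this]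
  · rw [Finset.sum_image (fun p hp q hq hpq => hinj.1 hp hq hpq),
      Finset.card_image_of_injOn hinj.1, Finset.card_product, Finset.sum_product]
    have : ∀ r₁ ∈ R1, ∑ r₂ ∈ R2, ψ (x * D.N (a₁ * r₁ + a₂ * r₂)) =
        ψ (e₁ * (x * D.N r₁)) * ∑ r₂ ∈ R2, ψ (e₂ * (x * D.N r₂)) := by
      intro r₁ _
      rw [Finset.mul_sum]
      exact Finset.sum_congr rfl fun r₂ _ => hval r₁ r₂
    rw [Finset.sum_congr rfl this, ← Finset.sum_mul, hs1, hs2]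
    push_cast
    ring

end H55N.RQ
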