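import Mathlib
import Pool.Agent.Lib.H55N.RQ16
import Pool.Agent.Lib.H55N.RQ17
import Pool.Agent.Lib.H55N.RQ18

namespace H55N.RQ

variable {O O' : Type} [CommRing O] [CommRing O'] [Algebra O O']

/-! Chunk RQ19 (M): the comparison of the means for psi and psi(x .).
loc_prime: b = w^k, k >= 1, x in w^j, not in w^(j+1), j <= k (j = 0 if w is ramified). Unramified: unram for psi (conductor w^k) and for psi(x .) (conductor w^(k-j), prim_mul), chi = 1 or -1, so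
chi^(k-j) = chi^j chi^k; mean_unique identifies mu. Ramified: ram_all.
loc_all: induction on b (UniqueFactorizationMonoid.induction_on_coprime, or Finset induction over the prime divisors), with crt (applied with x and with 1) in the coprime step:
e1, e2 do not depend on x; the means mu1, mu2 of psi(e_i N z) exist (mean_exists_N) and mu = mu1 mu2 (mean_unique); the products over the prime factors of b1 b2 split
(normalizedFactors_mul, disjoint supports). k(w) = the exponent of w in x is given by the function j. -/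

open Classical in
theorem loc_prime [IsDedekindDomain O] [IsDedekindDomain O'] (D : Qd O O')
    (htri : ∀ w : Ideal O, w.IsMaximal → w ≠ ⊥ → Ram D w ∨ Inert D w ∨ Split D w) (w : Ideal O)
    (hw : w.IsMaximal) (hw0 : w ≠ ⊥) (h2 : Ram D w → (2 : O) ∉ w) (k : ℕ) (hk : 1 ≤ k) (x : O) (j : ℕ)
    (hj : j ≤ k) (hr : Ram D w → j = 0) (h1 : x ∈ w ^ j) (h1' : x ∉ w ^ (j + 1)) {ψ : O → ℂ}
    (hψ : Prim ψ (w ^ k)) {μ : ℂ} (hμ : IsMean (⊤ : AddSubgroup O') (fun z => ψ (D.N z)) μ) :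
    ∃ r : ℝ, 0 < r ∧
      IsMean (⊤ : AddSubgroup O') (fun z => ψ (x * D.N z)) (r * (sg D w x j : ℂ) * μ) := by
  by_cases hR : Ram D w
  · have hj0 := hr hR
    subst hj0
    rw [zero_add, pow_one] at h1'
    obtain ⟨k', rfl⟩ : ∃ k', k = k' + 1 := ⟨k - 1, by omega⟩
    have := ram_all D w hw hw0 (h2 hR) hR x h1' k' ψ hψ μ hμ
    refine ⟨1, one_pos, ?_⟩
    have e : sg D w x 0 = qs w x := if_pos hR
    rw [e, Complex.ofReal_one, one_mul]
    exact this
  · have hu : Inert D w ∨ Split D w := (htri w hw hw0).resolve_left hR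
    have hchi : (chiD D w : ℂ) ^ 2 = 1 := by
      rcases hu with h | h
      · rw [(chi_inert D w hw0 h).1]; norm_num
      · rw [(chi_split D w hw0 h).1]; norm_num
    obtain ⟨r₁, hr₁, hm₁⟩ := unram D w hw hw0 hu k ψ hψ
    have hμ' := mean_unique hμ hm₁
    obtain ⟨r₂, hr₂, hm₂⟩ := unram D w hw hw0 hu (k - j) (fun t => ψ (x * t))
      (prim_mul w hw hw0 hj hψ x h1 h1')
    refine ⟨r₂ / r₁, div_pos hr₂ hr₁, ?_⟩
    have e : sg D w x j = chiD D w ^ j := if_neg hR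
    have e2 : ((r₂ / r₁ : ℝ) : ℂ) * (sg D w x j : ℂ) * μ = r₂ * (chiD D w : ℂ) ^ (k - j) := by
      have h0 : (r₁ : ℂ) ≠ 0 := by exact_mod_cast hr₁.ne'
      have e3 : (chiD D w : ℂ) ^ j * (chiD D w : ℂ) ^ k = (chiD D w : ℂ) ^ (k - j) := by
        have : k = (k - j) + j := by omega
        calc (chiD D w : ℂ) ^ j * (chiD D w : ℂ) ^ k
            = (chiD D w : ℂ) ^ j * (chiD D w : ℂ) ^ ((k - j) + j) := by rw [← this]
          _ = ((chiD D w : ℂ) ^ 2) ^ j * (chiD D w : ℂ) ^ (k - j) := by rw [pow_add]; ring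
          _ = _ := by rw [hchi, one_pow, one_mul]
      rw [e, hμ', ← e3]
      push_cast
      field_simp
    rw [e2]
    exact hm₂

open Classical UniqueFactorizationMonoid in
theorem loc_all [IsDedekindDomain O] [IsDedekindDomain O'] (D : Qd O O')
    (htri : ∀ w : Ideal O, w.IsMaximal → w ≠ ⊥ → Ram D w ∨ Inert D w ∨ Split D w)
    (h2 : ∀ w : Ideal O, w.IsMaximal → Ram D w → (2 : O) ∉ w) (x : O) (j : Ideal O → ℕ) (𝔟 : Ideal O)
    (hb : 𝔟 ≠ ⊥) (hj : ∀ w ∈ normalizedFactors 𝔟, j w ≤ (normalizedFactors 𝔟).count w ∧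
      (Ram D w → j w = 0) ∧ x ∈ w ^ j w ∧ x ∉ w ^ (j w + 1)) {ψ : O → ℂ}
    (hψ : Prim ψ 𝔟) {μ : ℂ} (hμ : IsMean (⊤ : AddSubgroup O') (fun z => ψ (D.N z)) μ) :
    ∃ r : ℝ, 0 < r ∧ IsMean (⊤ : AddSubgroup O') (fun z => ψ (x * D.N z))
      (r * (∏ w ∈ (normalizedFactors 𝔟).toFinset, (sg D w x (j w) : ℂ)) * μ) := by
  have hone : ∀ ψ : O → ℂ, Prim ψ (1 : Ideal O) → ∀ μ : ℂ,
      IsMean (⊤ : AddSubgroup O') (fun z => ψ (D.N z)) μ →
      ∃ r : ℝ, 0 < r ∧ IsMean (⊤ : AddSubgroup O') (fun z => ψ (x * D.N z))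
        (r * (∏ w ∈ (normalizedFactors (1 : Ideal O)).toFinset, (sg D w x (j w) : ℂ)) * μ) := by
    intro ψ hψ μ hμ
    refine ⟨1, one_pos, ?_⟩
    rw [normalizedFactors_one, Multiset.toFinset_zero, Finset.prod_empty, Complex.ofReal_one,
      one_mul, one_mul]
    have h1 : ∀ t, ψ t = 1 := fun t => psi_of_mem hψ (by rw [Ideal.one_eq_top]; trivial)
    refine mean_congr hμ fun a _ => ?_
    rw [h1, h1]
  revert hb hj
  suffices H : 𝔟 ≠ ⊥ → (∀ w ∈ normalizedFactors 𝔟, j w ≤ (normalizedFactors 𝔟).count w ∧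
      (Ram D w → j w = 0) ∧ x ∈ w ^ j w ∧ x ∉ w ^ (j w + 1)) → ∀ ψ : O → ℂ, Prim ψ 𝔟 → ∀ μ : ℂ,
      IsMean (⊤ : AddSubgroup O') (fun z => ψ (D.N z)) μ →
      ∃ r : ℝ, 0 < r ∧ IsMean (⊤ : AddSubgroup O') (fun z => ψ (x * D.N z))
        (r * (∏ w ∈ (normalizedFactors 𝔟).toFinset, (sg D w x (j w) : ℂ)) * μ) from
    fun hb hj => H hb hj ψ hψ μ hμ
  clear hψ hμ
  refine induction_on_coprime (P := fun 𝔟 : Ideal O => 𝔟 ≠ ⊥ →
    (∀ w ∈ normalizedFactors 𝔟, j w ≤ (normalizedFactors 𝔟).count w ∧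
      (Ram D w → j w = 0) ∧ x ∈ w ^ j w ∧ x ∉ w ^ (j w + 1)) → ∀ ψ : O → ℂ, Prim ψ 𝔟 → ∀ μ : ℂ,
      IsMean (⊤ : AddSubgroup O') (fun z => ψ (D.N z)) μ →
      ∃ r : ℝ, 0 < r ∧ IsMean (⊤ : AddSubgroup O') (fun z => ψ (x * D.N z))
        (r * (∏ w ∈ (normalizedFactors 𝔟).toFinset, (sg D w x (j w) : ℂ)) * μ)) 𝔟
    (fun h => absurd rfl h) ?_ ?_ ?_
  · intro 𝔠 hu hb hj ψ hψ μ hμ
    have h1 : 𝔠 = 1 := Ideal.isUnit_iff.1 hu |>.trans Ideal.one_eq_top.symm
    subst h1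
    exact hone ψ hψ μ hμ
  · intro w i hwp hb hj ψ hψ μ hμ
    rcases Nat.eq_zero_or_pos i with hi | hi
    · subst hi
      rw [pow_zero] at hψ ⊢
      exact hone ψ hψ μ hμ
    · have hw0 : w ≠ ⊥ := hwp.ne_zero
      have hwP : w.IsPrime := Ideal.isPrime_of_prime hwp
      have hw : w.IsMaximal := hwP.isMaximal hw0
      have hnf : normalizedFactors (w ^ i) = Multiset.replicate i w := by
        rw [normalizedFactors_pow, normalizedFactors_irreducible hwp.irreducible, normalize_eq,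
          Multiset.nsmul_singleton]
      have hmem : w ∈ normalizedFactors (w ^ i) := by
        rw [hnf]
        exact Multiset.mem_replicate.2 ⟨by omega, rfl⟩
      obtain ⟨g1, g2, g3, g4⟩ := hj w hmem
      rw [hnf, Multiset.count_replicate_self] at g1
      obtain ⟨r, hr, hm⟩ := loc_prime D htri w hw hw0 (h2 w hw) i hi x (j w) g1 g2 g3 g4 hψ hμ
      refine ⟨r, hr, ?_⟩
      have : (normalizedFactors (w ^ i)).toFinset = {w} := by
        rw [hnf, Multiset.toFinset_replicate, if_neg (by omega)]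
      rw [this, Finset.prod_singleton]
      exact hm
  · intro 𝔠 𝔡 hcop ihc ihd hb hj ψ hψ μ hμ
    have hc0 : 𝔠 ≠ ⊥ := by
      rintro rfl
      exact hb (Ideal.bot_mul _)
    have hd0 : 𝔡 ≠ ⊥ := by
      rintro rfl
      exact hb (Ideal.mul_bot _)
    have hcop' : IsCoprime 𝔠 𝔡 := by
      rw [Ideal.isCoprime_iff_sup_eq]
      exact Ideal.isUnit_iff.1 (hcop (Ideal.dvd_iff_le.2 le_sup_left)
        (Ideal.dvd_iff_le.2 le_sup_right))
    have hnf : normalizedFactors (𝔠 * 𝔡) = normalizedFactors 𝔠 + normalizedFactors 𝔡 :=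
      normalizedFactors_mul hc0 hd0
    have hdis : ∀ w, w ∈ normalizedFactors 𝔠 → w ∉ normalizedFactors 𝔡 := by
      intro w hwc hwd
      exact (prime_of_normalized_factor w hwc).not_unit
        (hcop (dvd_of_mem_normalizedFactors hwc) (dvd_of_mem_normalizedFactors hwd))
    obtain ⟨e₁, e₂, P1, P2, hcrt⟩ := crt D 𝔠 𝔡 hcop' hc0 hd0 hb hψ
    obtain ⟨μ₁, hμ₁⟩ := mean_exists_N D P1 hc0
    obtain ⟨μ₂, hμ₂⟩ := mean_exists_N D P2 hd0
    have hμe : μ = μ₁ * μ₂ := by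
      refine mean_unique hμ ?_
      have := hcrt 1 μ₁ μ₂ (by simpa using hμ₁) (by simpa using hμ₂)
      simpa using this
    obtain ⟨r₁, hr₁, hm₁⟩ := ihc hc0 (fun w hw => by
      obtain ⟨g1, g2⟩ := hj w (by rw [hnf]; exact Multiset.mem_add.2 (Or.inl hw))
      rw [hnf, Multiset.count_add, Multiset.count_eq_zero_of_notMem (hdis w hw), add_zero] at g1
      exact ⟨g1, g2⟩) _ P1 μ₁ hμ₁
    obtain ⟨r₂, hr₂, hm₂⟩ := ihd hd0 (fun w hw => by
      obtain ⟨g1, g2⟩ := hj w (by rw [hnf]; exact Multiset.mem_add.2 (Or.inr hw))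
      rw [hnf, Multiset.count_add,
        Multiset.count_eq_zero_of_notMem (fun h => hdis w h hw), zero_add] at g1
      exact ⟨g1, g2⟩) _ P2 μ₂ hμ₂
    refine ⟨r₁ * r₂, mul_pos hr₁ hr₂, ?_⟩
    have hp : ∏ w ∈ (normalizedFactors (𝔠 * 𝔡)).toFinset, (sg D w x (j w) : ℂ) =
        (∏ w ∈ (normalizedFactors 𝔠).toFinset, (sg D w x (j w) : ℂ)) *
          ∏ w ∈ (normalizedFactors 𝔡).toFinset, (sg D w x (j w) : ℂ) := by
      rw [hnf, Multiset.toFinset_add, Finset.prod_union]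
      rw [Finset.disjoint_left]
      intro w hwc hwd
      exact hdis w (Multiset.mem_toFinset.1 hwc) (Multiset.mem_toFinset.1 hwd)
    have := hcrt x _ _ hm₁ hm₂
    rw [hp, hμe]
    have e : ((r₁ * r₂ : ℝ) : ℂ) * ((∏ w ∈ (normalizedFactors 𝔠).toFinset, (sg D w x (j w) : ℂ)) *
          ∏ w ∈ (normalizedFactors 𝔡).toFinset, (sg D w x (j w) : ℂ)) * (μ₁ * μ₂) =
        (r₁ * (∏ w ∈ (normalizedFactors 𝔠).toFinset, (sg D w x (j w) : ℂ)) * μ₁) *
          (r₂ * (∏ w ∈ (normalizedFactors 𝔡).toFinset, (sg D w x (j w) : ℂ)) * μ₂) := by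
      push_cast
      ring
    rw [e]
    exact this

end H55N.RQ
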