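import Mathlib
import Pool.Agent.Lib.H55N.RQ0

open NumberField IsDedekindDomain

namespace H55N.RQ

variable {K K' : Type} [Field K] [NumberField K] [Field K'] [NumberField K'] [Algebra K K']

/-- D is the structure Qd of the quadratic extension K'/K. -/
structure QdOf (D : Qd (𝓞 K) (𝓞 K')) (σ : K' ≃ₐ[K] K') : Prop where
  s : ∀ z : 𝓞 K', ((D.s z : 𝓞 K') : K') = σ z
  N : ∀ z : 𝓞 K', ((D.N z : 𝓞 K) : K) = Algebra.norm K (z : K')
  T : ∀ z : 𝓞 K', ((D.T z : 𝓞 K) : K) = Algebra.trace K K' (z : K')
  norm : ∀ y : K', algebraMap K K' (Algebra.norm K y) = y * σ y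
  trace : ∀ y : K', algebraMap K K' (Algebra.trace K K' y) = y + σ y
  invol : ∀ y : K', σ (σ y) = y
  ne : ∃ y : K', σ y ≠ y

/-! Chunk RQ20 (M): existence of Qd for number fields. K'/K is Galois of degree 2 (IsQuadraticExtension or normal + separable), the group is {1, sigma};
Algebra.norm_eq_prod_automorphisms, trace_eq_sum_automorphisms. s: restriction of sigma to the integers (galRestrict, or RingOfIntegers.mapAlgEquiv ...); N, T: integrality
of norm and trace (Algebra.isIntegral_norm, Algebra.isIntegral_trace). contr: Ideal.comap_map_eq_self_of_faithfullyFlat (or: if t in I O', t O' <= I O', so by unique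
factorisation ... ), or lying over: it suffices to know that I -> I O' is injective and I O' meet O = J gives J O' = I O'. fin, fin': quotients of rings of integers by nonzero
ideals are finite (Ideal.finiteQuotientOfFreeOfNeBot / Ring.HasFiniteQuotients). -/
theorem exists_qd (h2 : Module.finrank K K' = 2) :
    ∃ (D : Qd (𝓞 K) (𝓞 K')) (σ : K' ≃ₐ[K] K'), QdOf D σ := by
  classical
  have hq : Algebra.IsQuadraticExtension K K' := ⟨h2⟩
  have hfd : FiniteDimensional K K' := Module.finite_of_finrank_eq_succ h2
  have hgal : IsGalois K K' := inferInstance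
  have hcard : Fintype.card (K' ≃ₐ[K] K') = 2 := by
    rw [← Nat.card_eq_fintype_card, IsGalois.card_aut_eq_finrank, h2]
  obtain ⟨σ, hσ⟩ : ∃ σ : K' ≃ₐ[K] K', σ ≠ 1 := by
    have h3 : 1 < Fintype.card (K' ≃ₐ[K] K') := by omega
    exact Fintype.exists_ne_of_one_lt_card h3 1
  have huniv : (Finset.univ : Finset (K' ≃ₐ[K] K')) = {1, σ} := by
    symm
    apply Finset.eq_univ_of_card
    rw [Finset.card_pair (Ne.symm hσ), hcard]
  have hinv : ∀ y : K', σ (σ y) = y := by
    intro y
    have h3 : σ * σ = 1 := by
      have h4 : σ * σ ∈ (Finset.univ : Finset (K' ≃ₐ[K] K')) := Finset.mem_univ _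
      rw [huniv, Finset.mem_insert, Finset.mem_singleton] at h4
      rcases h4 with h4 | h4
      · exact h4
      · exfalso
        apply hσ
        exact mul_eq_left.1 h4
    have h5 : (σ * σ) y = (1 : K' ≃ₐ[K] K') y := by rw [h3]
    simpa using h5
  have hnorm : ∀ y : K', algebraMap K K' (Algebra.norm K y) = y * σ y := by
    intro y
    rw [Algebra.norm_eq_prod_automorphisms, huniv, Finset.prod_pair (Ne.symm hσ)]
    simp
  have htr : ∀ y : K', algebraMap K K' (Algebra.trace K K' y) = y + σ y := by
    intro y
    rw [trace_eq_sum_automorphisms, huniv, Finset.sum_pair (Ne.symm hσ)]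
    simp
  have hne : ∃ y : K', σ y ≠ y := by
    by_contra hcon
    push Not at hcon
    apply hσ
    ext y
    simpa using hcon y
  have hs : ∀ z : 𝓞 K', ((RingOfIntegers.mapAlgEquiv σ z : 𝓞 K') : K') = σ z := fun z => rfl
  refine ⟨{ s := RingOfIntegers.mapAlgEquiv σ
            N := fun z => RingOfIntegers.norm K z
            T := fun z => ⟨Algebra.trace K K' (z : K'), Algebra.isIntegral_trace z.2⟩
            hN := ?_
            hT := ?_
            ss := ?_
            contr := ?_
            fin := ?_
            fin' := ?_ }, σ, ⟨?_, ?_, ?_, hnorm, htr, hinv, hne⟩⟩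
  · intro z
    apply RingOfIntegers.ext
    exact hnorm (z : K')
  · intro z
    apply RingOfIntegers.ext
    exact htr (z : K')
  · intro z
    apply RingOfIntegers.ext
    rw [hs, hs, hinv]
  · intro I
    exact Ideal.comap_map_eq_self_of_faithfullyFlat I
  · intro I hI
    exact Ideal.finiteQuotientOfFreeOfNeBot I hI
  · intro I hI
    exact Ideal.finiteQuotientOfFreeOfNeBot I hI
  · intro z
    rfl
  · intro z
    rfl
  · intro z
    rfl

end H55N.RQ
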