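import Mathlib
import Pool.Agent.Lib.H55N.RQ10
import Pool.Agent.Lib.H55N.RQ20

open NumberField IsDedekindDomain

namespace H55N.RQ

variable {K K' : Type} [Field K] [NumberField K] [Field K'] [NumberField K'] [Algebra K K']

/-- w is ramified in K'. -/
def RamI (K' : Type) [Field K'] [NumberField K'] [Algebra K K'] (w : Ideal (𝓞 K)) : Prop :=
  ∃ W : Ideal (𝓞 K'), W.IsPrime ∧ w.map (algebraMap (𝓞 K) (𝓞 K')) = W ^ 2

/-! Chunk RQ21 (M): splitting of primes in quadratic extensions. Let W be a prime of O' above w (w maximal, nonzero). (1) Every prime P above w is W or W' = s^{-1}(W): otherwise choose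
z in P outside W and W' (P, W, W' maximal; Ideal.exists_mem_... prime avoidance or CRT), then N z in P meet O = w <= W, so z s(z) in W, contradiction.
(2) |O'/wO'| = |O/w|^2 (Ideal.absNorm_relNorm / absNorm of an extended ideal: Ideal.absNorm_algebraMap..., or sum_ramification_inertia: sum e f = 2). Cases: e = 2, f = 1: w O' = W^2, s(W) = W by
(1) and (uniqueness), O/w -> O'/W is onto (f = 1): Ram. Two primes W <> W', each e = f = 1: w O' = W W': Split. e = 1, f = 2, one prime: w O' = W maximal; s acts nontrivially on O'/W: the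
map from the decomposition group (= the whole group {1, s}) to Aut((O'/W)/(O/w)) is surjective (Ideal.Quotient.stabilizerHom_surjective), or: if s = 1 on O'/W every z satisfies
z^2 - T(z) z + N(z) = 0 with z = s z, so (X - z)^2 = X^2 - T X + N over O/w: for odd characteristic z = T/2 in O/w; in characteristic 2, z^2 = N z in O/w for all z, so O'/W is purely inseparable of degree 2 over
a finite (perfect) field, impossible. RamI w excludes the cases Split, Inert by unique factorisation. -/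

theorem RQ21_norm (h2 : Module.finrank K K' = 2) (w : Ideal (𝓞 K)) :
    Ideal.absNorm (w.map (algebraMap (𝓞 K) (𝓞 K'))) = Ideal.absNorm w ^ 2 := by
  let _ : Algebra (FractionRing (𝓞 K)) (FractionRing (𝓞 K')) := FractionRing.liftAlgebra _ _
  rw [Ideal.absNorm_algebraMap, ← IsFractionRing.finrank_eq (𝓞 K) K (𝓞 K') K', h2]

theorem RQ21_ne (D : Qd (𝓞 K) (𝓞 K')) {w : Ideal (𝓞 K)} (hw0 : w ≠ ⊥) :
    w.map (algebraMap (𝓞 K) (𝓞 K')) ≠ ⊥ := by
  intro h0
  apply hw0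
  have h2 := D.contr w
  rw [h0] at h2
  rw [← h2, eq_bot_iff]
  intro x hx
  exact alg_inj D (by rw [map_zero]; exact hx)

theorem RQ21_comap (w : Ideal (𝓞 K)) (hw : w.IsMaximal) (P : Ideal (𝓞 K')) (hP : P ≠ ⊤)
    (hPw : w.map (algebraMap (𝓞 K) (𝓞 K')) ≤ P) : P.comap (algebraMap (𝓞 K) (𝓞 K')) = w := by
  have h1 : w ≤ P.comap (algebraMap (𝓞 K) (𝓞 K')) := Ideal.map_le_iff_le_comap.1 hPw
  exact (hw.eq_of_le (Ideal.comap_ne_top _ hP) h1).symm

theorem RQ21_le (D : Qd (𝓞 K) (𝓞 K')) (w : Ideal (𝓞 K)) (hw : w.IsMaximal) (hw0 : w ≠ ⊥)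
    (P : Ideal (𝓞 K')) (hP : P ≠ ⊤) (hPw : w.map (algebraMap (𝓞 K) (𝓞 K')) ≤ P) :
    Ideal.absNorm w ≤ Ideal.absNorm P ∧ (Ideal.absNorm P ≤ Ideal.absNorm w →
      ∀ z : 𝓞 K', ∃ t : 𝓞 K, z - algebraMap (𝓞 K) (𝓞 K') t ∈ P) := by
  have hP0 : P ≠ ⊥ := by
    intro h0
    rw [h0, le_bot_iff] at hPw
    exact RQ21_ne D hw0 hPw
  have hfin := D.fin' P hP0
  have h1 := RQ21_comap w hw P hP hPw
  let f : (𝓞 K ⧸ w) →+* (𝓞 K' ⧸ P) := Ideal.quotientMap P (algebraMap (𝓞 K) (𝓞 K')) h1.ge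
  have hf : Function.Injective f := Ideal.quotientMap_injective' h1.le
  have h3 : Nat.card (𝓞 K ⧸ w) ≤ Nat.card (𝓞 K' ⧸ P) := Nat.card_le_card_of_injective f hf
  refine ⟨h3, fun hle z => ?_⟩
  obtain ⟨q, hq⟩ := (hf.bijective_of_nat_card_le hle).2 (Ideal.Quotient.mk P z)
  obtain ⟨t, rfl⟩ := Ideal.Quotient.mk_surjective q
  refine ⟨t, ?_⟩
  rw [← Ideal.Quotient.mk_eq_mk_iff_sub_mem, ← hq]
  exact Ideal.quotientMap_mk

theorem RQ21_two (D : Qd (𝓞 K) (𝓞 K')) (w : Ideal (𝓞 K)) (hw : w.IsMaximal)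
    (P W : Ideal (𝓞 K')) (hP : P.IsMaximal) (hW : W.IsMaximal)
    (hPw : w.map (algebraMap (𝓞 K) (𝓞 K')) ≤ P) (hWw : w.map (algebraMap (𝓞 K) (𝓞 K')) ≤ W) :
    P = W ∨ P = W.comap D.s := by
  have hWp := hW.isPrime
  have h1 : (P : Set (𝓞 K')) ⊆ W ∪ W.comap D.s := by
    intro z hz
    have h2 : D.N z ∈ P.comap (algebraMap (𝓞 K) (𝓞 K')) := by
      rw [Ideal.mem_comap, D.hN]
      exact P.mul_mem_right _ hz
    rw [RQ21_comap w hw P hP.ne_top hPw, ← RQ21_comap w hw W hW.ne_top hWw, Ideal.mem_comap,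
      D.hN] at h2
    exact hWp.mem_or_mem h2
  rcases Ideal.subset_union.1 h1 with h | h
  · exact Or.inl (hP.eq_of_le hW.ne_top h)
  · exact Or.inr (hP.eq_of_le (Ideal.comap_ne_top _ hW.ne_top) h)

theorem RQ21_inert (h2 : Module.finrank K K' = 2) (D : Qd (𝓞 K) (𝓞 K')) (w : Ideal (𝓞 K))
    (hw : w.IsMaximal) (hw0 : w ≠ ⊥) (hI : (w.map (algebraMap (𝓞 K) (𝓞 K'))).IsMaximal) :
    Inert D w := by
  refine ⟨hI, ?_⟩
  by_contra hcon
  push Not at hcon
  have hIp := hI.isPrime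
  have h1 := RQ21_le D w hw hw0 _ hI.ne_top le_rfl
  have hcard := RQ21_norm (K' := K') h2 w
  have hfinw := D.fin w hw0
  have hfinI := D.fin' _ (RQ21_ne D hw0)
  have hcw : 2 ≤ Ideal.absNorm w := by
    have h3 : Ideal.absNorm w ≠ 1 := fun h => hw.ne_top (Ideal.absNorm_eq_one_iff.1 h)
    have h4 : Ideal.absNorm w ≠ 0 := fun h => hw0 (Ideal.absNorm_eq_zero_iff.1 h)
    omega
  have hlt : Ideal.absNorm w < Ideal.absNorm (w.map (algebraMap (𝓞 K) (𝓞 K'))) := by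
    rw [hcard]
    nlinarith
  by_cases h2w : (2 : 𝓞 K) ∈ w
  · -- squaring is injective modulo I and lands in the subring
    have h3 : ∀ z : 𝓞 K', z ^ 2 - algebraMap (𝓞 K) (𝓞 K') (D.N z) ∈
        w.map (algebraMap (𝓞 K) (𝓞 K')) := by
      intro z
      rw [D.hN]
      have h4 := Ideal.mul_mem_left _ z (hcon z)
      have h5 : z ^ 2 - z * D.s z = -(z * (D.s z - z)) := by ring
      rw [h5]
      exact neg_mem h4
    let f : (𝓞 K' ⧸ w.map (algebraMap (𝓞 K) (𝓞 K'))) → (𝓞 K ⧸ w) := fun q =>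
      Ideal.Quotient.mk w (D.N (Quotient.out q))
    have hf : Function.Injective f := by
      intro p q hpq
      have hp : Ideal.Quotient.mk (w.map (algebraMap (𝓞 K) (𝓞 K'))) (Quotient.out p) = p :=
        Quotient.out_eq p
      have hq : Ideal.Quotient.mk (w.map (algebraMap (𝓞 K) (𝓞 K'))) (Quotient.out q) = q :=
        Quotient.out_eq q
      rw [← hp, ← hq, Ideal.Quotient.mk_eq_mk_iff_sub_mem]
      set x := Quotient.out p
      set y := Quotient.out q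
      have h4 : D.N x - D.N y ∈ w := by
        rw [← Ideal.Quotient.mk_eq_mk_iff_sub_mem]
        exact hpq
      have h5 := Ideal.mem_map_of_mem (algebraMap (𝓞 K) (𝓞 K')) h4
      rw [map_sub] at h5
      have h6 : (2 : 𝓞 K') ∈ w.map (algebraMap (𝓞 K) (𝓞 K')) := by
        have h7 := Ideal.mem_map_of_mem (algebraMap (𝓞 K) (𝓞 K')) h2w
        rwa [map_ofNat] at h7
      have h8 : (x - y) ^ 2 ∈ w.map (algebraMap (𝓞 K) (𝓞 K')) := by
        have h9 : (x - y) ^ 2 = (x ^ 2 - algebraMap (𝓞 K) (𝓞 K') (D.N x)) -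
            (y ^ 2 - algebraMap (𝓞 K) (𝓞 K') (D.N y)) +
            (algebraMap (𝓞 K) (𝓞 K') (D.N x) - algebraMap (𝓞 K) (𝓞 K') (D.N y)) +
            (y ^ 2 - x * y) * 2 := by ring
        rw [h9]
        exact Ideal.add_mem _ (Ideal.add_mem _ (Ideal.sub_mem _ (h3 x) (h3 y)) h5)
          (Ideal.mul_mem_left _ _ h6)
      exact hIp.mem_of_pow_mem 2 h8
    have h4 : Nat.card (𝓞 K' ⧸ w.map (algebraMap (𝓞 K) (𝓞 K'))) ≤ Nat.card (𝓞 K ⧸ w) :=
      Nat.card_le_card_of_injective f hf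
    exact absurd h4 (not_le.2 hlt)
  · -- z = T(z)/2
    obtain ⟨u, hu⟩ : ∃ u : 𝓞 K, 2 * u - 1 ∈ w := by
      obtain ⟨u, i, hi, hui⟩ := hw.exists_inv h2w
      refine ⟨u, ?_⟩
      have h3 : 2 * u - 1 = -i := by linear_combination hui
      rw [h3]
      exact w.neg_mem hi
    have hsurj : ∀ z : 𝓞 K', z - algebraMap (𝓞 K) (𝓞 K') (u * D.T z) ∈
        w.map (algebraMap (𝓞 K) (𝓞 K')) := by
      intro z
      rw [map_mul, D.hT]
      have h4 := Ideal.mem_map_of_mem (algebraMap (𝓞 K) (𝓞 K')) hu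
      rw [map_sub, map_mul, map_ofNat, map_one] at h4
      have h5 : z - algebraMap (𝓞 K) (𝓞 K') u * (z + D.s z) =
          -(z * (2 * algebraMap (𝓞 K) (𝓞 K') u - 1)) -
            algebraMap (𝓞 K) (𝓞 K') u * (D.s z - z) := by ring
      rw [h5]
      exact Ideal.sub_mem _ (neg_mem (Ideal.mul_mem_left _ _ h4))
        (Ideal.mul_mem_left _ _ (hcon z))
    let f : (𝓞 K ⧸ w) →+* (𝓞 K' ⧸ w.map (algebraMap (𝓞 K) (𝓞 K'))) :=
      Ideal.quotientMap _ (algebraMap (𝓞 K) (𝓞 K')) (D.contr w).ge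
    have hf : Function.Surjective f := by
      intro q
      obtain ⟨z, rfl⟩ := Ideal.Quotient.mk_surjective q
      refine ⟨Ideal.Quotient.mk w (u * D.T z), ?_⟩
      have h5 : f (Ideal.Quotient.mk w (u * D.T z)) =
          Ideal.Quotient.mk _ (algebraMap (𝓞 K) (𝓞 K') (u * D.T z)) := Ideal.quotientMap_mk
      rw [h5]
      exact ((Ideal.Quotient.mk_eq_mk_iff_sub_mem _ _).2 (hsurj z)).symm
    have h4 : Nat.card (𝓞 K' ⧸ w.map (algebraMap (𝓞 K) (𝓞 K'))) ≤ Nat.card (𝓞 K ⧸ w) :=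
      Nat.card_le_card_of_surjective f hf
    exact absurd h4 (not_le.2 hlt)

theorem RQ21_tri (h2 : Module.finrank K K' = 2) (D : Qd (𝓞 K) (𝓞 K')) (w : Ideal (𝓞 K))
    (hw : w.IsMaximal) (hw0 : w ≠ ⊥) : Ram D w ∨ Inert D w ∨ Split D w := by
  have hI0 := RQ21_ne D hw0
  by_cases hI : (w.map (algebraMap (𝓞 K) (𝓞 K'))).IsMaximal
  · exact Or.inr (Or.inl (RQ21_inert h2 D w hw hw0 hI))
  have hItop : w.map (algebraMap (𝓞 K) (𝓞 K')) ≠ ⊤ := by
    intro h
    apply hw.ne_top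
    rw [← D.contr w, h, Ideal.comap_top]
  obtain ⟨W, hW, hIW⟩ := Ideal.exists_le_maximal _ hItop
  obtain ⟨J, hJ⟩ := Ideal.dvd_iff_le.2 hIW
  have hJtop : J ≠ ⊤ := by
    rintro rfl
    apply hI
    rw [hJ, Ideal.mul_top]
    exact hW
  obtain ⟨P, hP, hJP⟩ := Ideal.exists_le_maximal _ hJtop
  obtain ⟨J', hJ'⟩ := Ideal.dvd_iff_le.2 hJP
  have hIP : w.map (algebraMap (𝓞 K) (𝓞 K')) ≤ P := by
    rw [hJ]
    exact Ideal.mul_le_right.trans hJP
  have hcard := RQ21_norm (K' := K') h2 w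
  have hW1 := RQ21_le D w hw hw0 W hW.ne_top hIW
  have hP1 := RQ21_le D w hw hw0 P hP.ne_top hIP
  rw [hJ, hJ', map_mul, map_mul] at hcard
  have hcw : 0 < Ideal.absNorm w :=
    Nat.pos_of_ne_zero fun h => hw0 (Ideal.absNorm_eq_zero_iff.1 h)
  have hJ'0 : 0 < Ideal.absNorm J' := by
    apply Nat.pos_of_ne_zero
    intro h
    rw [h, mul_zero, mul_zero] at hcard
    have := pow_pos hcw 2
    omega
  have hWP : Ideal.absNorm w * Ideal.absNorm w ≤ Ideal.absNorm W * Ideal.absNorm P :=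
    Nat.mul_le_mul hW1.1 hP1.1
  have hJ'1 : Ideal.absNorm J' = 1 := by
    by_contra h
    have h3 : 2 ≤ Ideal.absNorm J' := by omega
    have h4 : Ideal.absNorm W * Ideal.absNorm P * 2 ≤
        Ideal.absNorm W * (Ideal.absNorm P * Ideal.absNorm J') := by
      rw [← mul_assoc]
      exact Nat.mul_le_mul_left _ h3
    rw [hcard, pow_two] at h4
    have := Nat.mul_pos hcw hcw
    omega
  rw [hJ'1, mul_one, pow_two] at hcard
  rw [Ideal.absNorm_eq_one_iff.1 hJ'1, Ideal.mul_top] at hJ'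
  rw [hJ'] at hJ
  have hWle : Ideal.absNorm W ≤ Ideal.absNorm w := by
    by_contra h
    have h3 : Ideal.absNorm w * Ideal.absNorm w < Ideal.absNorm W * Ideal.absNorm P :=
      Nat.mul_lt_mul_of_lt_of_le (not_le.1 h) hP1.1 (hcw.trans_le hP1.1)
    omega
  rcases RQ21_two D w hw P W hP hW hIP hIW with h | h
  · left
    have hI2 : w.map (algebraMap (𝓞 K) (𝓞 K')) = W ^ 2 := by rw [hJ, h, pow_two]
    refine ⟨W, hW, hI2, ?_, hW1.2 hWle⟩
    intro z hz
    have h3 : z ^ 2 ∈ w.map (algebraMap (𝓞 K) (𝓞 K')) := by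
      rw [hI2]
      exact Ideal.pow_mem_pow hz 2
    have h4 := s_mem D w _ h3
    rw [map_pow] at h4
    exact hW.isPrime.mem_of_pow_mem 2 (hIW h4)
  · by_cases hWW : W.comap D.s = W
    · left
      have hI2 : w.map (algebraMap (𝓞 K) (𝓞 K')) = W ^ 2 := by rw [hJ, h, hWW, pow_two]
      refine ⟨W, hW, hI2, ?_, hW1.2 hWle⟩
      intro z hz
      have h3 : z ∈ W.comap D.s := by rw [hWW]; exact hz
      exact h3
    · right
      right
      exact ⟨W, hW, hWW, by rw [hJ, h]⟩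

theorem RQ21_sq (D : Qd (𝓞 K) (𝓞 K')) (w : Ideal (𝓞 K)) (hw0 : w ≠ ⊥) (W : Ideal (𝓞 K'))
    (hW : W.IsPrime) (h : w.map (algebraMap (𝓞 K) (𝓞 K')) = W ^ 2) :
    W ≠ ⊥ ∧ ¬ (w.map (algebraMap (𝓞 K) (𝓞 K'))).IsPrime := by
  have hI0 := RQ21_ne D hw0
  have hW0 : W ≠ ⊥ := by
    rintro rfl
    apply hI0
    rw [h]
    exact Ideal.bot_pow two_ne_zero
  refine ⟨hW0, ?_⟩
  intro hp
  rw [h] at hp
  have h1 : W ≤ W ^ 2 := by
    intro z hz
    exact hp.mem_of_pow_mem 2 (Ideal.pow_mem_pow hz 2)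
  have h2 : W * W = W * 1 := by
    rw [mul_one, ← pow_two]
    exact le_antisymm (Ideal.pow_le_self two_ne_zero) h1
  have h3 : W = 1 := mul_left_cancel₀ hW0 h2
  exact hW.ne_top (by rw [h3, Ideal.one_eq_top])

theorem RQ21_split (D : Qd (𝓞 K) (𝓞 K')) (w : Ideal (𝓞 K)) (hw0 : w ≠ ⊥) (h : Split D w) :
    ¬ RamI K' w ∧ ¬ (w.map (algebraMap (𝓞 K) (𝓞 K'))).IsPrime := by
  have hI0 := RQ21_ne D hw0
  obtain ⟨W, hW, hWW, hI⟩ := h
  have hW' : (W.comap D.s).IsMaximal := Ideal.comap_isMaximal_of_equiv D.s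
  have hW0 : W ≠ ⊥ := by
    rintro rfl
    apply hI0
    rw [hI, Ideal.bot_mul]
  have hW0' : W.comap D.s ≠ ⊥ := by
    intro h0
    apply hI0
    rw [hI, h0, Ideal.mul_bot]
  constructor
  · rintro ⟨V, hV, hV2⟩
    have h1 : W * W.comap D.s ≤ V := by
      rw [← hI, hV2]
      exact Ideal.pow_le_self two_ne_zero
    rcases hV.mul_le.1 h1 with h | h
    · have h3 := hW.eq_of_le hV.ne_top h
      rw [← h3, hI, pow_two] at hV2
      exact hWW (mul_left_cancel₀ hW0 hV2)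
    · have h3 := hW'.eq_of_le hV.ne_top h
      rw [← h3, hI, pow_two] at hV2
      exact hWW (mul_right_cancel₀ hW0' hV2).symm
  · intro hp
    have h1 : W * W.comap D.s ≤ w.map (algebraMap (𝓞 K) (𝓞 K')) := by rw [← hI]
    rcases hp.mul_le.1 h1 with h | h
    · have h3 := hW.eq_of_le hp.ne_top h
      rw [hI] at h3
      have h4 : W * 1 = W * W.comap D.s := by rw [mul_one]; exact h3
      have h5 := mul_left_cancel₀ hW0 h4
      exact hW'.ne_top (by rw [← h5, Ideal.one_eq_top])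
    · have h3 := hW'.eq_of_le hp.ne_top h
      rw [hI] at h3
      have h4 : 1 * W.comap D.s = W * W.comap D.s := by rw [one_mul]; exact h3
      have h5 := mul_right_cancel₀ hW0' h4
      exact hW.ne_top (by rw [← h5, Ideal.one_eq_top])

theorem tri_ram (h2 : Module.finrank K K' = 2) {D : Qd (𝓞 K) (𝓞 K')} {σ : K' ≃ₐ[K] K'} (hD : QdOf D σ)
    (w : Ideal (𝓞 K)) (hw : w.IsMaximal) (hw0 : w ≠ ⊥) : Ram D w ↔ RamI K' w := by
  constructor
  · rintro ⟨W, hW, h, -⟩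
    exact ⟨W, hW.isPrime, h⟩
  · intro h
    rcases RQ21_tri h2 D w hw hw0 with h1 | h1 | h1
    · exact h1
    · obtain ⟨W, hW, hI⟩ := h
      exact absurd h1.1.isPrime (RQ21_sq D w hw0 W hW hI).2
    · exact absurd h (RQ21_split D w hw0 h1).1

theorem tri_inert (h2 : Module.finrank K K' = 2) {D : Qd (𝓞 K) (𝓞 K')} {σ : K' ≃ₐ[K] K'} (hD : QdOf D σ)
    (w : Ideal (𝓞 K)) (hw : w.IsMaximal) (hw0 : w ≠ ⊥) :
    Inert D w ↔ (w.map (algebraMap (𝓞 K) (𝓞 K'))).IsPrime := by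
  constructor
  · intro h
    exact h.1.isPrime
  · intro h
    exact RQ21_inert h2 D w hw hw0 (h.isMaximal (RQ21_ne D hw0))

theorem tri (h2 : Module.finrank K K' = 2) {D : Qd (𝓞 K) (𝓞 K')} {σ : K' ≃ₐ[K] K'} (hD : QdOf D σ)
    (w : Ideal (𝓞 K)) (hw : w.IsMaximal) (hw0 : w ≠ ⊥) : Ram D w ∨ Inert D w ∨ Split D w := by
  exact RQ21_tri h2 D w hw hw0

end H55N.RQ
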