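import Mathlib
import Pool.Agent.Lib.H55N.RQ21

open NumberField IsDedekindDomain

namespace H55N.RQ

variable {K K' : Type} [Field K] [NumberField K] [Field K'] [NumberField K'] [Algebra K K']

/-- n is divisible by the different of K'. -/
def NN (K' : Type) [Field K'] [NumberField K'] (n : ℕ) : Prop :=
  ∀ y : K', (∀ z : 𝓞 K', ∃ k : ℤ, Algebra.trace ℚ K' (y * z) = k) → ∃ u : 𝓞 K', (n : K') * y = u

/-! Chunk RQ22 (M): exists_n: the dual of O' for the trace form is finitely generated (the span of the dual basis of an integral basis, BilinForm.dualSubmodule_span_of_basis, or the discriminant: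
n = |disc| times y is integral), every element of K' has an integral multiple (IsLocalization / exists_integral_multiple).
n_down: y in K with Tr_{K/Q}(y O) integral; for z in O': Tr_{K'/Q}(y z) = Tr_{K/Q}(y Tr_{K'/K} z) (Algebra.trace_trace), so n y is in O', and in K, so in O.
ram_n: let w O' = W^2. For z in W and a in K with a w <= O (a in w^{-1}): for y in O', Tr_{K'/K}(z y) = T(z y) in w (it is zy + s(zy) in W: s(W) = W by unique factorisation, W meet O = w),
so Tr_{K'/Q}(a z y) = Tr_{K/Q}(a T(zy)) is an integer, and n a z is in O'. So n w^{-1} W is in O', n is in (w^{-1} W)^{-1} = w W^{-1} = W, n in W meet Z, n in W meet O = w.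
(Or with Mathlib: W divides the different ideal of O'/O (pow_sub_one_dvd_differentIdeal), which contains n.) -/

theorem exists_n (K' : Type) [Field K'] [NumberField K'] : ∃ n : ℕ, 0 < n ∧ NN K' n := by
  classical
  let b := NumberField.integralBasis K'
  obtain ⟨m, hm0, hm⟩ := exists_integral_multiples ℤ ℚ
    (Finset.univ.image (fun i => b.traceDual i))
  refine ⟨m.natAbs, Int.natAbs_pos.2 hm0, ?_⟩
  intro y hy
  have hint : IsIntegral ℤ ((m : K') * y) := by
    have h1 : y = ∑ i, (Algebra.trace ℚ K' (y * b i)) • b.traceDual i := by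
      have h2 := (b.traceDual.sum_repr y).symm
      simpa [Module.Basis.traceDual_repr_apply, Algebra.traceForm_apply] using h2
    rw [h1, Finset.mul_sum]
    refine IsIntegral.sum _ fun i _ => ?_
    obtain ⟨k, hk⟩ := hy (RingOfIntegers.basis K' i)
    have hk' : Algebra.trace ℚ K' (y * b i) = k := by
      rw [← hk, NumberField.integralBasis_apply]
    rw [hk']
    have h3 : (m : K') * ((k : ℚ) • b.traceDual i) = k • (m • b.traceDual i) := by
      rw [Algebra.smul_def, zsmul_eq_mul, zsmul_eq_mul, map_intCast]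
      ring
    rw [h3]
    exact (hm _ (Finset.mem_image_of_mem _ (Finset.mem_univ i))).smul k
  have hint2 : IsIntegral ℤ ((m.natAbs : K') * y) := by
    rcases Int.natAbs_eq m with h | h
    · rw [h] at hint
      simpa using hint
    · rw [h] at hint
      have h5 := hint.neg
      simpa using h5
  exact ⟨⟨_, hint2⟩, rfl⟩

theorem n_down {n : ℕ} (hn : NN K' n) : NN K n := by
  intro y hy
  obtain ⟨u, hu⟩ := hn (algebraMap K K' y) (fun z => by
    obtain ⟨k, hk⟩ := hy ⟨Algebra.trace K K' (z : K'), Algebra.isIntegral_trace z.2⟩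
    refine ⟨k, ?_⟩
    rw [← hk, ← Algebra.trace_trace (S := K), ← Algebra.smul_def, map_smul, smul_eq_mul]
    rfl)
  have h1 : IsIntegral ℤ ((n : K) * y) := by
    rw [← isIntegral_algebraMap_iff (algebraMap K K').injective (R := ℤ)]
    rw [map_mul, map_natCast, hu]
    exact u.2
  exact ⟨⟨_, h1⟩, rfl⟩

theorem RQ22_diff {n : ℕ} (hn : NN K' n) : (n : 𝓞 K') ∈ differentIdeal ℤ (𝓞 K') := by
  have h1 := coeSubmodule_differentIdeal ℤ ℚ (L := K') (B := 𝓞 K')
  have h2 : (n : K') ∈ IsLocalization.coeSubmodule K' (differentIdeal ℤ (𝓞 K')) := by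
    rw [h1, Submodule.mem_div_iff_forall_mul_mem]
    intro y hy
    rw [Submodule.mem_traceDual] at hy
    obtain ⟨u, hu⟩ := hn y (fun z => by
      obtain ⟨k, hk⟩ := hy (z : K') (Submodule.mem_one.2 ⟨z, rfl⟩)
      refine ⟨k, ?_⟩
      rw [Algebra.traceForm_apply] at hk
      rw [← hk]
      simp)
    rw [hu]
    exact Submodule.mem_one.2 ⟨u, rfl⟩
  rw [IsLocalization.mem_coeSubmodule] at h2
  obtain ⟨x, hx, hxn⟩ := h2
  have h3 : x = (n : 𝓞 K') := by
    apply RingOfIntegers.coe_injective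
    rw [hxn, map_natCast]
  rw [← h3]
  exact hx

theorem ram_n (h2 : Module.finrank K K' = 2) {n : ℕ} (hn : NN K' n) (w : Ideal (𝓞 K)) (hw : w.IsMaximal)
    (hw0 : w ≠ ⊥) (h : RamI K' w) : (n : 𝓞 K) ∈ w := by
  obtain ⟨W, hW, hW2⟩ := h
  have hinj : Function.Injective (algebraMap (𝓞 K) (𝓞 K')) := FaithfulSMul.algebraMap_injective _ _
  have hmap0 : w.map (algebraMap (𝓞 K) (𝓞 K')) ≠ ⊥ := by
    intro h3
    exact hw0 ((Ideal.map_eq_bot_iff_of_injective hinj).1 h3)
  have hW0 : W ≠ ⊥ := by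
    rintro rfl
    apply hmap0
    rw [hW2, pow_two]
    simp
  have hWm : W.IsMaximal := hW.isMaximal hW0
  have hcomap : W.comap (algebraMap (𝓞 K) (𝓞 K')) = w := by
    symm
    apply hw.eq_of_le (Ideal.comap_ne_top _ hW.ne_top)
    rw [← Ideal.map_le_iff_le_comap, hW2, pow_two]
    exact Ideal.mul_le_left
  have hp : (W.under ℤ).IsMaximal := Ideal.IsMaximal.under ℤ W
  have hp0 : W.under ℤ ≠ ⊥ := by
    intro h3
    exact hW0 (Ideal.eq_bot_of_comap_eq_bot h3)
  have hdvd : W ^ 2 ∣ (W.under ℤ).map (algebraMap ℤ (𝓞 K')) := by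
    rw [Ideal.dvd_iff_le, ← hW2, Ideal.map_le_iff_le_comap]
    intro k hk
    have h4 : algebraMap ℤ (𝓞 K') k ∈ W := hk
    have h5 : algebraMap ℤ (𝓞 K) k ∈ w := by
      rw [← hcomap, Ideal.mem_comap]
      simpa using h4
    have h6 := Ideal.mem_map_of_mem (algebraMap (𝓞 K) (𝓞 K')) h5
    rw [Ideal.mem_comap]
    simpa using h6
  have h7 := pow_sub_one_dvd_differentIdeal ℤ W 2 hp0 hdvd
  have h8 : W ∣ differentIdeal ℤ (𝓞 K') := by simpa using h7
  have h9 : (n : 𝓞 K') ∈ W := (Ideal.dvd_iff_le.1 h8) (RQ22_diff hn)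
  rw [← hcomap, Ideal.mem_comap, map_natCast]
  exact h9

/-- Finitely many primes are ramified. (From exists_n and ram_n: finitely many ideals contain n.) -/
theorem ram_finite (h2 : Module.finrank K K' = 2) :
    {w : Ideal (𝓞 K) | w.IsMaximal ∧ RamI K' w}.Finite := by
  obtain ⟨n, hn0, hn⟩ := exists_n K'
  have hI : Ideal.span {(n : 𝓞 K)} ≠ 0 := by
    intro h3
    rw [Ideal.zero_eq_bot, Ideal.span_singleton_eq_bot] at h3
    have h4 : (n : 𝓞 K) ≠ 0 := Nat.cast_ne_zero.2 (by omega)
    exact h4 h3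
  have hfin := Ideal.finite_factors hI
  refine (hfin.image (fun v => v.asIdeal)).subset ?_
  rintro w ⟨hw, hr⟩
  have hw0 : w ≠ ⊥ := by
    rintro rfl
    have h5 := Ring.isField_iff_maximal_bot.2 hw
    exact RingOfIntegers.not_isField K h5
  refine ⟨⟨w, hw.isPrime, hw0⟩, ?_, rfl⟩
  show w ∣ Ideal.span {(n : 𝓞 K)}
  rw [Ideal.dvd_span_singleton]
  exact ram_n h2 hn w hw hw0 hr

end H55N.RQ
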