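import Mathlib
import Pool.Agent.Lib.H55N.RQ22

open NumberField IsDedekindDomain

namespace H55N.RQ

variable {K : Type} [Field K] [NumberField K]

/-- The additive character t -> e(Tr(t/(n^2 x))). -/
noncomputable def psi (n : ℕ) (x t : 𝓞 K) : ℂ :=
  ex (Algebra.trace ℚ K ((t : K) / ((n : K) ^ 2 * (x : K))))

/-! Chunk RQ23 (S/M): the conductor. b = {t in O : Tr(t y/(n^2 x)) in Z for all y in O} is an ideal; Prim by definition (ex_eq_one, ex_add). It contains n^2 x, so it is not 0.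
If t in b, u = t/(n^2 x) satisfies Tr(u O) integral, so n u is in O (NN K n), t = n^2 x u = (n x)(n u) is divisible by n x. -/

theorem RQ23_zero (n : ℕ) (x : 𝓞 K) : psi n x 0 = 1 := by
  unfold psi
  have h : ((0 : 𝓞 K) : K) = 0 := map_zero (algebraMap (𝓞 K) K)
  rw [h, zero_div, map_zero, ex_zero]

theorem RQ23_add (n : ℕ) (x s t : 𝓞 K) : psi n x (s + t) = psi n x s * psi n x t := by
  unfold psi
  have h : ((s + t : 𝓞 K) : K) = s + t := map_add (algebraMap (𝓞 K) K) s t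
  rw [h, add_div, map_add, ex_add]

theorem RQ23_int (t : 𝓞 K) : ∃ k : ℤ, Algebra.trace ℚ K (t : K) = k :=
  ⟨Algebra.trace ℤ (𝓞 K) t, (Algebra.coe_trace_int t).symm⟩

theorem psi_prim {n : ℕ} (hn0 : 0 < n) (hn : NN K n) (x : 𝓞 K) (hx : x ≠ 0) :
    ∃ 𝔟 : Ideal (𝓞 K), 𝔟 ≠ ⊥ ∧ Prim (psi n x) 𝔟 ∧ ∀ t ∈ 𝔟, (n : 𝓞 K) * x ∣ t := by
  have hx' : (x : K) ≠ 0 := fun h => hx (RingOfIntegers.ext h)
  have hn' : (n : K) ≠ 0 := Nat.cast_ne_zero.2 hn0.ne'
  let 𝔟 : Ideal (𝓞 K) :=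
    { carrier := {t | ∀ y, psi n x (t * y) = 1}
      add_mem' := fun {s t} hs ht y => by
        rw [add_mul, RQ23_add, hs y, ht y, one_mul]
      zero_mem' := fun y => by rw [zero_mul, RQ23_zero]
      smul_mem' := fun s t ht y => by
        rw [smul_eq_mul, mul_comm s t, mul_assoc]
        exact ht _ }
  have hmem : ∀ t, t ∈ 𝔟 ↔ ∀ y, psi n x (t * y) = 1 := fun t => Iff.rfl
  refine ⟨𝔟, ?_, ⟨RQ23_zero n x, RQ23_add n x, hmem⟩, ?_⟩
  · intro h
    have h1 : (n : 𝓞 K) ^ 2 * x ∈ 𝔟 := by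
      rw [hmem]
      intro y
      unfold psi
      have h2 : (((n : 𝓞 K) ^ 2 * x * y : 𝓞 K) : K) = (n : K) ^ 2 * x * y := by
        show algebraMap (𝓞 K) K ((n : 𝓞 K) ^ 2 * x * y) = _
        rw [map_mul, map_mul, map_pow, map_natCast]
      rw [h2, mul_div_cancel_left₀ _ (mul_ne_zero (pow_ne_zero 2 hn') hx')]
      exact ex_eq_one.2 (RQ23_int y)
    rw [h, Ideal.mem_bot] at h1
    have h3 : (n : 𝓞 K) ≠ 0 := Nat.cast_ne_zero.2 hn0.ne'
    exact mul_ne_zero (pow_ne_zero 2 h3) hx h1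
  · intro t ht
    rw [hmem] at ht
    obtain ⟨u, hu⟩ := hn ((t : K) / ((n : K) ^ 2 * (x : K))) (fun z => by
      have h := ht z
      unfold psi at h
      rw [ex_eq_one] at h
      obtain ⟨k, hk⟩ := h
      refine ⟨k, ?_⟩
      rw [← hk]
      congr 1
      have h2 : ((t * z : 𝓞 K) : K) = (t : K) * z := map_mul (algebraMap (𝓞 K) K) t z
      rw [h2]
      ring)
    refine ⟨u, ?_⟩
    apply RingOfIntegers.ext
    show (t : K) = algebraMap (𝓞 K) K ((n : 𝓞 K) * x * u)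
    rw [map_mul, map_mul, map_natCast]
    have h4 : algebraMap (𝓞 K) K u = (n : K) * ((t : K) / ((n : K) ^ 2 * (x : K))) := hu.symm
    rw [h4]
    have h5 : algebraMap (𝓞 K) K x = (x : K) := rfl
    rw [h5]
    field_simp

theorem psi_x {n : ℕ} (hn0 : 0 < n) (x t : 𝓞 K) (hx : x ≠ 0) : psi n x (x * t) = psi n 1 t := by
  have hx' : (x : K) ≠ 0 := fun h => hx (RingOfIntegers.ext h)
  unfold psi
  congr 2
  have h2 : ((x * t : 𝓞 K) : K) = (x : K) * t := map_mul (algebraMap (𝓞 K) K) x t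
  have h3 : ((1 : 𝓞 K) : K) = 1 := map_one (algebraMap (𝓞 K) K)
  rw [h2, h3, mul_one, mul_comm ((n : K) ^ 2) (x : K), mul_div_mul_left _ _ hx']

end H55N.RQ
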