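import Mathlib
import Pool.Agent.Lib.H55N.RQ0

namespace H55N.RQ

/-! Chunk RQ6 (M, pure Mathlib analysis): the Gauss sum of modulus 2a, S = sum_{k < 2a} e(k^2/4a), is a positive multiple of 1 + i
(in fact S = sqrt a (1 + i)). Proof (Mathlib: Complex.tsum_exp_neg_quadratic, Complex.tsum_exp_neg_mul_int_sq). For t > 0 put
z = t - i/(2a) and Theta(t) = sum_{n in Z} exp(-pi z n^2) = sum_n e(n^2/4a) exp(-pi t n^2).
(1) n = k + 2am: e(n^2/4a) = e(k^2/4a) (since (k+2am)^2 = k^2 + 4a(km + a m^2)), so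
Theta(t) = sum_{k<2a} e(k^2/4a) exp(-pi t k^2) sum_m exp(-4 pi a^2 t m^2 - 4 pi a t k m), and the inner sum is, by tsum_exp_neg_quadratic,
(4 a^2 t)^(-1/2) sum_l exp(-pi/(4a^2 t) (l + i b)^2) with b = - 2 a t k; sqrt t * Theta(t) -> S/(2a) for t -> 0+ (only l = 0 survives:
every term l <> 0 is at most exp(-pi l^2/(4a^2t) + bounded)).
(2) by tsum_exp_neg_mul_int_sq, Theta(t) = z^(-1/2) sum exp(-pi n^2/z); 1/z = 2ai + z', z' = -2 a i t/z, so the summand is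
exp(-pi n^2 z') (exp(-2 pi i a n^2) = 1), and again Theta(t) = z^(-1/2) z'^(-1/2) sum exp(-pi n^2/z'), 1/z' = 1/(4a^2t) + i/(2a),
whose real part tends to infinity, so sum -> 1. Hence sqrt t Theta(t) -> (-i/(2a))^(-1/2) /(2a) because z'/t -> 4a^2.
(-i/(2a))^(-1/2) = sqrt(2a) e(1/8) = sqrt a (1 + i). Any other proof is welcome. -/

open Complex HurwitzZeta Filter Topology

theorem RQ6_cpow (x : ℝ) (hx : 0 < x) (z : ℂ) (hz : z ≠ 0) (s : ℂ) :
    ((x : ℂ) * z) ^ s = (x : ℂ) ^ s * z ^ s := by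
  have hx' : (x : ℂ) ≠ 0 := Complex.ofReal_ne_zero.2 hx.ne'
  rw [Complex.cpow_def_of_ne_zero (mul_ne_zero hx' hz), Complex.cpow_def_of_ne_zero hx',
    Complex.cpow_def_of_ne_zero hz, Complex.log_ofReal_mul hx hz, ← Complex.exp_add,
    ← Complex.ofReal_log hx.le]
  congr 1
  ring

theorem RQ6_period (τ : ℂ) (n : ℕ) : jacobiTheta₂ 0 (τ + 2 * n) = jacobiTheta₂ 0 τ := by
  induction n with
  | zero => simp
  | succ n ih =>
    rw [← ih, ← jacobiTheta₂_add_right 0 (τ + 2 * n)]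
    congr 1
    push_cast
    ring

theorem RQ6_term (a : ℕ) (ha : 0 < a) (x : ℝ) (hx : 0 < x) (k : ℕ) (m : ℤ) :
    jacobiTheta₂_term (m * ((2 * a : ℕ) : ℤ) + (k : ℤ)) 0 (1 / (2 * a) + I / (4 * a ^ 2 * x)) =
      ex ((k : ℚ) ^ 2 / (4 * a)) *
        ((Real.exp (-Real.pi * (m + (k / (2 * a) : ℝ)) ^ 2 * (1 / x)) : ℝ) : ℂ) := by
  have ha' : (a : ℂ) ≠ 0 := Nat.cast_ne_zero.2 ha.ne'
  have hx' : (x : ℂ) ≠ 0 := Complex.ofReal_ne_zero.2 hx.ne'
  have h1 : ex ((k : ℚ) ^ 2 / (4 * a)) =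
      Complex.exp (2 * Real.pi * I * ((k : ℂ) ^ 2 / (4 * a)) +
        ((a * m ^ 2 + m * k : ℤ) : ℂ) * (2 * Real.pi * I)) := by
    rw [Complex.exp_add, Complex.exp_int_mul_two_pi_mul_I, mul_one]
    unfold ex
    congr 1
    push_cast
    ring
  rw [h1, Complex.ofReal_exp, ← Complex.exp_add]
  unfold jacobiTheta₂_term
  congr 1
  push_cast
  field_simp
  linear_combination (4 * ((k : ℂ) + 2 * a * m) ^ 2) * Complex.I_sq

theorem RQ6_im (c d : ℝ) : ((c : ℂ) + (d : ℂ) * I).im = d := by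
  simp

theorem RQ6_split (a : ℕ) (ha : 0 < a) (x : ℝ) (hx : 0 < x) :
    jacobiTheta₂ 0 (1 / (2 * a) + I / (4 * a ^ 2 * x)) = ∑ k ∈ Finset.range (2 * a),
      ex ((k : ℚ) ^ 2 / (4 * a)) *
        (evenKernel (((k / (2 * a) : ℝ)) : UnitAddCircle) (1 / x) : ℂ) := by
  have : NeZero (2 * a) := ⟨by omega⟩
  have ha' : (0 : ℝ) < a := Nat.cast_pos.2 ha
  have him : 0 < (1 / (2 * a) + I / (4 * a ^ 2 * x) : ℂ).im := by
    have e : (1 / (2 * a) + I / (4 * a ^ 2 * x) : ℂ) =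
        ((1 / (2 * a) : ℝ) : ℂ) + ((1 / (4 * a ^ 2 * x) : ℝ) : ℂ) * I := by
      push_cast
      ring
    rw [e, RQ6_im]
    positivity
  have H := hasSum_jacobiTheta₂_term 0 him
  rw [← (Int.divModEquiv (2 * a)).symm.hasSum_iff, ← (Equiv.prodComm (Fin (2 * a)) ℤ).hasSum_iff] at H
  have hk : ∀ k : Fin (2 * a), HasSum (fun m : ℤ =>
      (((fun n : ℤ => jacobiTheta₂_term n 0 (1 / (2 * a) + I / (4 * a ^ 2 * x))) ∘
        (Int.divModEquiv (2 * a)).symm) ∘ (Equiv.prodComm (Fin (2 * a)) ℤ)) (k, m))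
      (ex (((k : ℕ) : ℚ) ^ 2 / (4 * a)) *
        (evenKernel ((((k : ℕ) / (2 * a) : ℝ)) : UnitAddCircle) (1 / x) : ℂ)) := by
    intro k
    have h1 := hasSum_int_evenKernel (((k : ℕ) / (2 * a) : ℝ)) (one_div_pos.2 hx)
    rw [← Complex.hasSum_ofReal] at h1
    have h2 := h1.mul_left (ex (((k : ℕ) : ℚ) ^ 2 / (4 * a)))
    refine h2.congr_fun fun m => ?_
    exact RQ6_term a ha x hx k m
  have H2 := H.prod_fiberwise hk
  rw [H2.unique (hasSum_fintype _)]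
  exact Fin.sum_univ_eq_sum_range (fun k : ℕ => ex ((k : ℚ) ^ 2 / (4 * a)) *
        (evenKernel (((k / (2 * a) : ℝ)) : UnitAddCircle) (1 / x) : ℂ)) (2 * a)

theorem RQ6_ne {z : ℂ} (h : 0 < z.im) : z ≠ 0 := by
  rintro rfl
  simp at h

/-- the functional equation -/
theorem RQ6_fe (z : ℂ) (hz : 0 < z.im) :
    jacobiTheta₂ 0 (-1 / z) = (-I * z) ^ (1 / 2 : ℂ) * jacobiTheta₂ 0 z := by
  have hz0 := RQ6_ne hz
  have h0 : (-I * z) ^ (1 / 2 : ℂ) ≠ 0 := by
    rw [Ne, Complex.cpow_eq_zero_iff, not_and_or]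
    exact Or.inl (mul_ne_zero (neg_ne_zero.2 I_ne_zero) hz0)
  have h := jacobiTheta₂_functional_equation 0 z
  rw [h]
  simp only [ne_eq, OfNat.ofNat_ne_zero, not_false_eq_true, zero_pow, mul_zero, zero_div,
    Complex.exp_zero, mul_one]
  rw [← mul_assoc, mul_one_div_cancel h0, one_mul]

theorem RQ6_main (a : ℕ) (ha : 0 < a) (x : ℝ) (hx : 0 < x) :
    ∑ k ∈ Finset.range (2 * a), ex ((k : ℚ) ^ 2 / (4 * a)) *
        (cosKernel (((k / (2 * a) : ℝ)) : UnitAddCircle) x : ℂ) =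
      (2 * a / (1 / (2 * a * x) - I)) ^ (1 / 2 : ℂ) * (1 + I / (2 * a * x)) ^ (1 / 2 : ℂ) *
        jacobiTheta₂ 0 (-1 / (2 * a) + I * x) := by
  have ha' : (0 : ℝ) < a := Nat.cast_pos.2 ha
  have hac : (a : ℂ) ≠ 0 := Nat.cast_ne_zero.2 ha.ne'
  have hxc : (x : ℂ) ≠ 0 := Complex.ofReal_ne_zero.2 hx.ne'
  have e0 : (-1 / (2 * a) + I * x : ℂ) = ((-1 / (2 * a) : ℝ) : ℂ) + (x : ℂ) * I := by
    push_cast
    ring
  have hy : 0 < (-1 / (2 * a) + I * x : ℂ).im := by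
    rw [e0, RQ6_im]
    exact hx
  obtain ⟨y, hyd⟩ : ∃ y : ℂ, y = -1 / (2 * a) + I * x := ⟨_, rfl⟩
  rw [← hyd] at hy ⊢
  have hy0 := RQ6_ne hy
  have hy0' : (-1 / (2 * a) + I * x : ℂ) ≠ 0 := hyd ▸ hy0
  obtain ⟨w, hwd⟩ : ∃ w : ℂ, w = -1 / y - 2 * a := ⟨_, rfl⟩
  have hw : 0 < w.im := by
    rw [hwd, Complex.sub_im]
    have h1 : (2 * a : ℂ).im = 0 := by
      have : (2 * a : ℂ) = ((2 * a : ℝ) : ℂ) := by push_cast; ring
      rw [this, Complex.ofReal_im]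
    rw [h1, sub_zero, neg_div, Complex.neg_im, one_div, Complex.inv_im, neg_div, neg_neg]
    exact div_pos hy (Complex.normSq_pos.2 hy0)
  have hw0 := RQ6_ne hw
  have e1 := RQ6_fe y hy
  have e2 := RQ6_fe w hw
  have e3 : -1 / y = w + 2 * a := by rw [hwd]; ring
  have hay : (2 * a * I * x : ℂ) = 2 * a * y + 1 := by
    rw [hyd]
    field_simp
    ring
  have hwy : w = -(2 * a * I * x) / y := by
    rw [hwd, hay]
    field_simp
    ring
  have e5 : (1 / (2 * a) + I / (4 * a ^ 2 * x) : ℂ) * (2 * a * I * x) = y := by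
    rw [hyd]
    field_simp
    linear_combination 4 * I_sq
  have e4 : -1 / w = 1 / (2 * a) + I / (4 * a ^ 2 * x) := by
    rw [div_eq_iff hw0, hwy, ← mul_div_assoc, mul_neg, e5, neg_div, div_self hy0]
  rw [e3, RQ6_period] at e1
  rw [e4, RQ6_split a ha x hx, e1] at e2
  have e6 : ∀ k : ℕ, (evenKernel (((k / (2 * a) : ℝ)) : UnitAddCircle) (1 / x) : ℂ) =
      (x : ℂ) ^ (1 / 2 : ℂ) * (cosKernel (((k / (2 * a) : ℝ)) : UnitAddCircle) x : ℂ) := by
    intro k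
    rw [evenKernel_functional_equation, one_div_one_div]
    have h1 : (1 / (1 / x) ^ (1 / 2 : ℝ) : ℝ) = x ^ (1 / 2 : ℝ) := by
      rw [Real.div_rpow zero_le_one hx.le, Real.one_rpow, one_div_one_div]
    rw [h1, Complex.ofReal_mul, Complex.ofReal_cpow hx.le]
    push_cast
    rfl
  simp_rw [e6] at e2
  have e7 : -I * y = x * (1 + I / (2 * a * x)) := by
    rw [hyd]
    field_simp
    linear_combination (-(2 * a * x : ℂ)) * I_sq
  have e8 : -I * w = 2 * a / (1 / (2 * a * x) - I) := by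
    obtain ⟨q, hq⟩ : ∃ q : ℂ, q = 1 / (2 * a * x) - I := ⟨_, rfl⟩
    have hyq : y = -(x * q) := by
      rw [hyd, hq]
      field_simp
      ring
    have hq0 : q ≠ 0 := by
      rintro rfl
      rw [mul_zero, neg_zero] at hyq
      exact hy0 hyq
    rw [← hq, hwy, hyq]
    field_simp
    linear_combination (-1 : ℂ) * I_sq
  have hx0 : (x : ℂ) ^ (1 / 2 : ℂ) ≠ 0 := by
    rw [Ne, Complex.cpow_eq_zero_iff, not_and_or]
    exact Or.inl hxc
  have e9 : (1 + I / (2 * a * x) : ℂ) ≠ 0 := by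
    intro h
    rw [h, mul_zero] at e7
    exact mul_ne_zero (neg_ne_zero.2 I_ne_zero) hy0 e7
  rw [e7, e8, RQ6_cpow x hx _ e9] at e2
  apply mul_left_cancel₀ hx0
  rw [Finset.mul_sum]
  calc _ = ∑ k ∈ Finset.range (2 * a), ex ((k : ℚ) ^ 2 / (4 * a)) * ((x : ℂ) ^ (1 / 2 : ℂ) *
      (cosKernel (((k / (2 * a) : ℝ)) : UnitAddCircle) x : ℂ)) :=
        Finset.sum_congr rfl fun k _ => by ring
    _ = _ := e2
    _ = _ := by ring

theorem RQ6_cos (c : UnitAddCircle) :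
    Tendsto (fun x : ℝ => (cosKernel c x : ℂ)) atTop (𝓝 1) := by
  obtain ⟨p, hp, h⟩ := isBigO_atTop_cosKernel_sub c
  have h1 : Tendsto (fun x : ℝ => Real.exp (-p * x)) atTop (𝓝 0) := by
    apply Real.tendsto_exp_atBot.comp
    exact tendsto_id.const_mul_atTop_of_neg (by linarith)
  have h2 := (h.trans_tendsto h1).add_const 1
  simp only [sub_add_cancel, zero_add] at h2
  have h3 := (Complex.continuous_ofReal.tendsto 1).comp h2
  rw [Complex.ofReal_one] at h3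
  exact h3

theorem RQ6_theta (c : ℝ) :
    Tendsto (fun x : ℝ => jacobiTheta₂ 0 (c + I * x)) atTop (𝓝 1) := by
  have him : ∀ x : ℝ, (c + I * x : ℂ).im = x := by
    intro x
    have e : (c + I * x : ℂ) = (c : ℂ) + (x : ℂ) * I := by ring
    rw [e, RQ6_im]
  have h1 : Tendsto (fun x : ℝ => (c + I * x : ℂ)) atTop (comap Complex.im atTop) := by
    rw [tendsto_comap_iff]
    have e : (Complex.im ∘ fun x : ℝ => (c + I * x : ℂ)) = id := by
      funext x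
      exact him x
    rw [e]
    exact tendsto_id
  have h2 := isBigO_at_im_infty_jacobiTheta_sub_one.comp_tendsto h1
  have h3 : Tendsto ((fun τ : ℂ => Real.exp (-Real.pi * τ.im)) ∘ fun x : ℝ => (c + I * x : ℂ))
      atTop (𝓝 0) := by
    have e : ((fun τ : ℂ => Real.exp (-Real.pi * τ.im)) ∘ fun x : ℝ => (c + I * x : ℂ)) =
        fun x : ℝ => Real.exp (-Real.pi * x) := by
      funext x
      simp only [Function.comp_apply]
      rw [him]
    rw [e]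
    apply Real.tendsto_exp_atBot.comp
    exact tendsto_id.const_mul_atTop_of_neg (by linarith [Real.pi_pos])
  have h4 := (h2.trans_tendsto h3).add_const 1
  simp only [Function.comp_apply, sub_add_cancel, zero_add] at h4
  refine h4.congr fun x => ?_
  rw [jacobiTheta_eq_jacobiTheta₂]

theorem RQ6_I : I ^ (1 / 2 : ℂ) = ((Real.sqrt 2 / 2 : ℝ) : ℂ) * (1 + I) := by
  rw [Complex.cpow_def_of_ne_zero I_ne_zero, Complex.log_I]
  have e : (Real.pi / 2 * I * (1 / 2) : ℂ) = ((Real.pi / 4 : ℝ) : ℂ) * I := by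
    push_cast
    ring
  rw [e, Complex.exp_mul_I, ← Complex.ofReal_cos, ← Complex.ofReal_sin, Real.cos_pi_div_four,
    Real.sin_pi_div_four]
  ring

theorem gauss_one (a : ℕ) (ha : 0 < a) :
    ∃ r : ℝ, 0 < r ∧ ∑ k ∈ Finset.range (2 * a), ex ((k : ℚ) ^ 2 / (4 * a)) = r * (1 + Complex.I) := by
  have ha' : (0 : ℝ) < a := Nat.cast_pos.2 ha
  have hL : Tendsto (fun x : ℝ => ∑ k ∈ Finset.range (2 * a), ex ((k : ℚ) ^ 2 / (4 * a)) *
        (cosKernel (((k / (2 * a) : ℝ)) : UnitAddCircle) x : ℂ)) atTop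
        (𝓝 (∑ k ∈ Finset.range (2 * a), ex ((k : ℚ) ^ 2 / (4 * a)))) := by
    have h := tendsto_finsetSum (Finset.range (2 * a)) (fun k _ =>
      (RQ6_cos (((k / (2 * a) : ℝ)) : UnitAddCircle)).const_mul (ex ((k : ℚ) ^ 2 / (4 * a))))
    simpa only [mul_one] using h
  have h0 : Tendsto (fun x : ℝ => (1 / (2 * a * x) : ℂ)) atTop (𝓝 0) := by
    have h1 : Tendsto (fun x : ℝ => 1 / (2 * a * x)) atTop (𝓝 0) :=
      tendsto_const_nhds.div_atTop (tendsto_id.const_mul_atTop (by positivity))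
    have h2 := (Complex.continuous_ofReal.tendsto 0).comp h1
    rw [Complex.ofReal_zero] at h2
    refine h2.congr fun x => ?_
    simp only [Function.comp_apply]
    push_cast
    rfl
  have h2a : (2 * a / (0 - I) : ℂ) = ((2 * a : ℝ) : ℂ) * I := by
    rw [zero_sub, div_neg, Complex.div_I]
    push_cast
    ring
  have hR1 : Tendsto (fun x : ℝ => (2 * a / (1 / (2 * a * x) - I) : ℂ) ^ (1 / 2 : ℂ)) atTop
      (𝓝 ((((2 * a : ℝ) : ℂ) * I) ^ (1 / 2 : ℂ))) := by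
    rw [← h2a]
    refine Filter.Tendsto.cpow (tendsto_const_nhds.div (h0.sub_const I) ?_) tendsto_const_nhds ?_
    · rw [zero_sub, Ne, neg_eq_zero]
      exact I_ne_zero
    · rw [h2a, Complex.mem_slitPlane_iff]
      right
      have h3 : (((2 * a : ℝ) : ℂ) * I).im = 2 * a := by simp
      rw [h3]
      positivity
  have hR2 : Tendsto (fun x : ℝ => (1 + I / (2 * a * x) : ℂ) ^ (1 / 2 : ℂ)) atTop (𝓝 1) := by
    have h3 : Tendsto (fun x : ℝ => (1 + I / (2 * a * x) : ℂ)) atTop (𝓝 1) := by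
      have h4 := (h0.const_mul I).const_add 1
      rw [mul_zero, add_zero] at h4
      refine h4.congr fun x => ?_
      rw [mul_one_div]
    have h4 := h3.cpow (tendsto_const_nhds (x := (1 / 2 : ℂ))) Complex.one_mem_slitPlane
    rwa [Complex.one_cpow] at h4
  have hR3 := RQ6_theta (-1 / (2 * a))
  have hR := (hR1.mul hR2).mul hR3
  rw [mul_one, mul_one] at hR
  have hEq := tendsto_nhds_unique hL (hR.congr' (by
    filter_upwards [eventually_gt_atTop 0] with x hx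
    rw [RQ6_main a ha x hx]
    push_cast
    rfl))
  rw [hEq, RQ6_cpow (2 * a) (by positivity) I I_ne_zero, RQ6_I]
  refine ⟨(2 * a) ^ (1 / 2 : ℝ) * (Real.sqrt 2 / 2), by positivity, ?_⟩
  have h5 : (((2 * (a : ℝ)) ^ (1 / 2 : ℝ) * (Real.sqrt 2 / 2) : ℝ) : ℂ) =
      ((2 * a : ℝ) : ℂ) ^ (1 / 2 : ℂ) * ((Real.sqrt 2 / 2 : ℝ) : ℂ) := by
    rw [Complex.ofReal_mul, Complex.ofReal_cpow (x := 2 * (a : ℝ)) (by positivity)]
    push_cast
    rfl
  rw [h5, mul_assoc]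

end H55N.RQ
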