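import Mathlib
import Pool.Agent.Lib.H55N.RQ6

namespace H55N.RQ

/-! Chunk RQ7 (M/L): the mean of e(B(x,x)/2) over the dual of a diagonal lattice M = sum Z v_i, B(v_i,v_i) = 2 a_i.
x = sum x_i v_i is in the dual iff B(x, v_i) = 2 a_i x_i is an integer for all i. Representatives modulo M: x_i = k_i/(2 a_i),
0 <= k_i < 2|a_i| (image of Fintype.piFinset). The function is periodic modulo M on the dual: B(x+y,x+y)/2 = B(x,x)/2 + B(x,y) + B(y,y)/2 with the last
two integers. B(x,x)/2 = sum a_i x_i^2 = sum k_i^2/(4 a_i), so the sum over the representatives is the product over i of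
sum_{k < 2|a_i|} ex(k^2/(4 a_i)) (Finset.prod_univ_sum), which is r_i (1 + i) for a_i > 0 (gauss_one) and the conjugate r_i (1 - i) for
a_i < 0. -/

theorem RQ7_ex_sum {κ : Type*} (s : Finset κ) (f : κ → ℚ) :
    ex (∑ i ∈ s, f i) = ∏ i ∈ s, ex (f i) := by
  classical
  induction s using Finset.induction_on with
  | empty => simp [ex_zero]
  | insert a s ha ih => rw [Finset.sum_insert ha, Finset.prod_insert ha, ex_add, ih]

theorem RQ7_ex_neg (x : ℚ) : ex (-x) = (starRingEnd ℂ) (ex x) := by
  unfold ex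
  rw [← Complex.exp_conj]
  congr 1
  rw [map_mul, map_mul, map_mul, Complex.conj_I, Complex.conj_ofReal, map_ofNat, map_ratCast]
  push_cast
  ring

/-- The one dimensional sum. -/
theorem RQ7_one (a : ℤ) (ha : a ≠ 0) : ∃ r : ℝ, 0 < r ∧
    ∑ k ∈ Finset.range (2 * a.natAbs), ex ((k : ℚ) ^ 2 / (4 * a)) =
      r * (1 + ((a.sign : ℤ) : ℂ) * Complex.I) := by
  obtain ⟨r, hr, h⟩ := gauss_one a.natAbs (Int.natAbs_pos.2 ha)
  refine ⟨r, hr, ?_⟩
  rcases lt_or_gt_of_ne ha with h1 | h1
  · have e1 : ((a.natAbs : ℕ) : ℚ) = -(a : ℚ) := by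
      rw [Nat.cast_natAbs, abs_of_neg h1]
      push_cast
      rfl
    rw [e1] at h
    have h2 : ∀ k : ℕ, ex ((k : ℚ) ^ 2 / (4 * a)) =
        (starRingEnd ℂ) (ex ((k : ℚ) ^ 2 / (4 * -(a : ℚ)))) := by
      intro k
      rw [← RQ7_ex_neg]
      congr 1
      have : (a : ℚ) ≠ 0 := by exact_mod_cast ha
      field_simp
    rw [Finset.sum_congr rfl fun k _ => h2 k, ← map_sum, h, Int.sign_eq_neg_one_of_neg h1,
      map_mul, map_add, map_one, Complex.conj_I, Complex.conj_ofReal]
    push_cast
    ring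
  · have e1 : ((a.natAbs : ℕ) : ℚ) = (a : ℚ) := by
      rw [Nat.cast_natAbs, abs_of_pos h1]
    rw [e1] at h
    rw [h, Int.sign_eq_one_of_pos h1]
    push_cast
    ring

theorem diag_mean {V : Type*} [AddCommGroup V] [Module ℚ V] {n : ℕ} (v : Module.Basis (Fin n) ℚ V)
    (B : LinearMap.BilinForm ℚ V) (hs : B.IsSymm) (a : Fin n → ℤ) (ha : ∀ i, a i ≠ 0)
    (hd : ∀ i, B (v i) (v i) = 2 * a i) (ho : ∀ i j, i ≠ j → B (v i) (v j) = 0) :
    (∃ R : Finset V, Reps (B.dualSubmodule (Submodule.span ℤ (Set.range v))).toAddSubgroup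
      (Submodule.span ℤ (Set.range v)).toAddSubgroup R) ∧
    ∃ r : ℝ, 0 < r ∧ IsMean (B.dualSubmodule (Submodule.span ℤ (Set.range v))).toAddSubgroup
      (fun x => ex (B x x / 2)) (r * ∏ i, (1 + ((a i).sign : ℂ) * Complex.I)) := by
  classical
  have haq : ∀ i, (a i : ℚ) ≠ 0 := fun i => by exact_mod_cast ha i
  set M : Submodule ℤ V := Submodule.span ℤ (Set.range v) with hM
  set D : Submodule ℤ V := B.dualSubmodule M with hD
  -- values of the form
  have hBv : ∀ x i, B x (v i) = 2 * a i * v.repr x i := by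
    intro x i
    conv_lhs => rw [← v.sum_repr x]
    rw [map_sum, LinearMap.sum_apply, Finset.sum_eq_single i]
    · rw [map_smul, LinearMap.smul_apply, hd, smul_eq_mul]
      ring
    · intro j _ hj
      rw [map_smul, LinearMap.smul_apply, ho j i hj, smul_zero]
    · intro h
      exact absurd (Finset.mem_univ i) h
  have hBB : ∀ x y, B x y = ∑ i, 2 * a i * v.repr x i * v.repr y i := by
    intro x y
    conv_lhs => rw [← v.sum_repr y]
    rw [map_sum]
    refine Finset.sum_congr rfl fun i _ => ?_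
    rw [map_smul, hBv, smul_eq_mul]
    ring
  have hmemM : ∀ x, x ∈ M ↔ ∀ i, ∃ m : ℤ, v.repr x i = m := by
    intro x
    rw [hM, v.mem_span_iff_repr_mem ℤ]
    refine forall_congr' fun i => ?_
    constructor
    · rintro ⟨m, hm⟩
      exact ⟨m, by rw [← hm]; rfl⟩
    · rintro ⟨m, hm⟩
      exact ⟨m, by rw [hm]; rfl⟩
  have hone : ∀ q : ℚ, q ∈ (1 : Submodule ℤ ℚ) ↔ ∃ m : ℤ, q = m := by
    intro q
    rw [Submodule.mem_one]
    constructor
    · rintro ⟨m, hm⟩
      exact ⟨m, by rw [← hm]; rfl⟩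
    · rintro ⟨m, hm⟩
      exact ⟨m, by rw [hm]; rfl⟩
  have hmemD : ∀ x, x ∈ D ↔ ∀ i, ∃ m : ℤ, 2 * a i * v.repr x i = m := by
    intro x
    rw [hD, LinearMap.BilinForm.mem_dualSubmodule]
    constructor
    · intro h i
      have h1 := h (v i) (Submodule.subset_span (Set.mem_range_self i))
      rw [hBv, hone] at h1
      exact h1
    · intro h y hy
      rw [hmemM] at hy
      choose m hm using h
      choose l hl using hy
      rw [hone, hBB]
      refine ⟨∑ i, m i * l i, ?_⟩
      push_cast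
      exact Finset.sum_congr rfl fun i _ => by rw [hm, hl]
  -- representatives
  set S : Finset (Fin n → ℕ) := Fintype.piFinset fun i => Finset.range (2 * (a i).natAbs) with hS
  set X : (Fin n → ℕ) → V := fun k => ∑ i, ((k i : ℚ) / (2 * a i)) • v i with hX
  have hrX : ∀ k i, v.repr (X k) i = (k i : ℚ) / (2 * a i) := by
    intro k i
    rw [hX]
    simp only
    rw [v.repr_sum_self]
  have hab : ∀ i, |2 * a i| = 2 * ((a i).natAbs : ℤ) := by
    intro i
    rw [abs_mul, Int.abs_eq_natAbs (a i)]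
    rfl
  have hcong : ∀ k ∈ S, ∀ l ∈ S, (∀ i, ∃ m : ℤ, (k i : ℚ) / (2 * a i) - (l i : ℚ) / (2 * a i) = m) →
      k = l := by
    intro k hk l hl h
    funext i
    obtain ⟨m, hm⟩ := h i
    rw [hS, Fintype.mem_piFinset] at hk hl
    have h1 := Finset.mem_range.1 (hk i)
    have h2 := Finset.mem_range.1 (hl i)
    have h3 : (k i : ℤ) - l i = 2 * a i * m := by
      have h4 : (k i : ℚ) - l i = 2 * a i * m := by
        rw [← hm]
        have := haq i
        field_simp
      exact_mod_cast h4
    have h4 : (2 * a i) ∣ ((k i : ℤ) - l i) := ⟨m, h3⟩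
    have h5 := Int.eq_zero_of_abs_lt_dvd ((abs_dvd _ _).2 h4) (by
      rw [hab i, abs_lt]
      constructor <;> omega)
    omega
  have hXinj : ∀ k ∈ S, ∀ l ∈ S, X k = X l → k = l := by
    intro k hk l hl h
    refine hcong k hk l hl fun i => ⟨0, ?_⟩
    rw [← hrX, ← hrX, h, sub_self, Int.cast_zero]
  have hReps : Reps D.toAddSubgroup M.toAddSubgroup (S.image X) := by
    refine ⟨?_, ?_, ?_, ?_⟩
    · intro x hx
      have hx' : x ∈ M := hx
      show x ∈ D
      rw [hmemM] at hx'
      rw [hmemD]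
      intro i
      obtain ⟨m, hm⟩ := hx' i
      exact ⟨2 * a i * m, by rw [hm]; push_cast; ring⟩
    · intro x hx
      obtain ⟨k, hk, rfl⟩ := Finset.mem_image.1 hx
      show X k ∈ D
      rw [hmemD]
      intro i
      refine ⟨k i, ?_⟩
      rw [hrX]
      have := haq i
      push_cast
      field_simp
    · intro x hx
      have hx' : x ∈ D := hx
      rw [hmemD] at hx'
      choose m hm using hx'
      refine ⟨X fun i => (m i % (2 * a i)).toNat, Finset.mem_image_of_mem _ ?_, ?_⟩
      · rw [hS, Fintype.mem_piFinset]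
        intro i
        rw [Finset.mem_range]
        have h1 : (2 * a i) ≠ 0 := mul_ne_zero two_ne_zero (ha i)
        have h2 := Int.emod_nonneg (m i) h1
        have h3 := Int.emod_lt_abs (m i) h1
        rw [hab i] at h3
        omega
      · show x - X _ ∈ M
        rw [hmemM]
        intro i
        refine ⟨m i / (2 * a i), ?_⟩
        rw [map_sub, Finsupp.sub_apply, hrX]
        have h1 : (2 * a i) ≠ 0 := mul_ne_zero two_ne_zero (ha i)
        have h2 := Int.emod_nonneg (m i) h1
        have h3 : (((m i % (2 * a i)).toNat : ℕ) : ℚ) = ((m i % (2 * a i) : ℤ) : ℚ) := by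
          have := Int.toNat_of_nonneg h2
          exact_mod_cast this
        rw [h3]
        have h4 := Int.emod_add_mul_ediv (m i) (2 * a i)
        have h5 : (m i : ℚ) = ((m i % (2 * a i) : ℤ) : ℚ) + 2 * a i * ((m i / (2 * a i) : ℤ) : ℚ) := by
          exact_mod_cast h4.symm
        have h6 := hm i
        rw [h5] at h6
        have h7 := haq i
        have h8 : (2 * (a i : ℚ)) ≠ 0 := mul_ne_zero two_ne_zero h7
        rw [sub_eq_iff_eq_add]
        apply mul_left_cancel₀ h8
        rw [h6]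
        field_simp
        ring
    · intro x hx y hy hxy
      obtain ⟨k, hk, rfl⟩ := Finset.mem_image.1 hx
      obtain ⟨l, hl, rfl⟩ := Finset.mem_image.1 hy
      have hxy' : X k - X l ∈ M := hxy
      rw [hmemM] at hxy'
      rw [hcong k hk l hl fun i => ?_]
      obtain ⟨m, hm⟩ := hxy' i
      refine ⟨m, ?_⟩
      rw [← hm, map_sub, Finsupp.sub_apply, hrX, hrX]
  refine ⟨⟨_, hReps⟩, ?_⟩
  choose r hr0 hr using fun i => RQ7_one (a i) (ha i)
  have hcard : 0 < ((S.image X).card : ℝ) := by
    have h1 : (S.image X).Nonempty := by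
      refine ⟨X fun _ => 0, Finset.mem_image_of_mem _ ?_⟩
      rw [hS, Fintype.mem_piFinset]
      intro i
      rw [Finset.mem_range]
      have := ha i
      omega
    exact_mod_cast Finset.card_pos.2 h1
  refine ⟨(∏ i, r i) / ((S.image X).card : ℝ), div_pos (Finset.prod_pos fun i _ => hr0 i) hcard,
    M.toAddSubgroup, S.image X, hReps, ?_, ?_⟩
  · intro x hx y hy
    have hx' : x ∈ D := hx
    have hy' : y ∈ M := hy
    have h1 : B (x + y) (x + y) / 2 = B x x / 2 + (B x y + B y y / 2) := by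
      have h2 : B y x = B x y := (hs.eq x y).symm
      rw [map_add, map_add, LinearMap.add_apply, LinearMap.add_apply, h2]
      ring
    have h3 : ex (B x y) = 1 := by
      rw [ex_eq_one]
      rw [hD, LinearMap.BilinForm.mem_dualSubmodule] at hx'
      exact (hone _).1 (hx' y hy')
    have h4 : ex (B y y / 2) = 1 := by
      rw [ex_eq_one]
      rw [hmemM] at hy'
      choose l hl using hy'
      refine ⟨∑ i, a i * l i * l i, ?_⟩
      rw [hBB]
      push_cast
      rw [Finset.sum_div]
      refine Finset.sum_congr rfl fun i _ => ?_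
      rw [hl]
      ring
    show ex (B (x + y) (x + y) / 2) = ex (B x x / 2)
    rw [h1, ex_add, ex_add, h3, h4, mul_one, mul_one]
  · rw [Finset.sum_image hXinj]
    have h1 : ∀ k, ex (B (X k) (X k) / 2) = ∏ i, ex ((k i : ℚ) ^ 2 / (4 * a i)) := by
      intro k
      rw [← RQ7_ex_sum, hBB, Finset.sum_div]
      congr 1
      refine Finset.sum_congr rfl fun i _ => ?_
      rw [hrX]
      have := haq i
      field_simp
      ring
    have h3 : ∑ k ∈ S, ex (B (X k) (X k) / 2) =
        (∏ i, (r i : ℂ)) * ∏ i, (1 + (((a i).sign : ℤ) : ℂ) * Complex.I) := by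
      rw [Finset.sum_congr rfl fun k _ => h1 k, hS,
        ← Finset.prod_univ_sum (fun i => Finset.range (2 * (a i).natAbs))
          (fun i k => ex ((k : ℚ) ^ 2 / (4 * a i))), Finset.prod_congr rfl fun i _ => hr i,
        Finset.prod_mul_distrib]
    have h2 : ((S.image X).card : ℂ) ≠ 0 := by
      have := hcard.ne'
      exact_mod_cast this
    rw [h3]
    push_cast
    rw [← mul_assoc, mul_div_cancel₀ _ h2]

end H55N.RQ
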