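import Mathlib

namespace H55N.RQ

/-! Chunk RQ8 (M, linear algebra): the signature is 0. v an orthogonal basis with B(v_i,v_i) = 2 a_i, j with B(jx,jy) = -3 B(x,y).
Let P = span of the v_i with a_i > 0, N = span of those with a_i < 0; B is positive (negative) definite on P (N), dim P + dim N = n.
j is injective (B nondegenerate, or: on P and N separately), B is negative definite on j(P), so j(P) meets P only in 0, hence
dim P + dim P <= n, dim P <= dim N; in the same way dim N <= dim P. -/
theorem RQ8_apply {V : Type*} [AddCommGroup V] [Module ℚ V] {n : ℕ}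
    (v : Module.Basis (Fin n) ℚ V) (B : LinearMap.BilinForm ℚ V) (a : Fin n → ℤ)
    (hd : ∀ i, B (v i) (v i) = 2 * a i) (ho : ∀ i j, i ≠ j → B (v i) (v j) = 0) (x : V)
    (i : Fin n) : B x (v i) = v.repr x i * (2 * a i) := by
  conv_lhs => rw [← v.sum_repr x]
  rw [map_sum, LinearMap.sum_apply, Finset.sum_eq_single i]
  · rw [map_smul, LinearMap.smul_apply, hd, smul_eq_mul]
  · intro k _ hk
    rw [map_smul, LinearMap.smul_apply, ho k i hk, smul_zero]
  · intro h
    exact absurd (Finset.mem_univ i) h

theorem RQ8_self {V : Type*} [AddCommGroup V] [Module ℚ V] {n : ℕ}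
    (v : Module.Basis (Fin n) ℚ V) (B : LinearMap.BilinForm ℚ V) (a : Fin n → ℤ)
    (hd : ∀ i, B (v i) (v i) = 2 * a i) (ho : ∀ i j, i ≠ j → B (v i) (v j) = 0) (x : V) :
    B x x = ∑ i, (v.repr x i) ^ 2 * (2 * a i) := by
  have h : B x x = B x (∑ i, v.repr x i • v i) := by rw [v.sum_repr x]
  rw [h, map_sum]
  refine Finset.sum_congr rfl fun i _ => ?_
  rw [map_smul, RQ8_apply v B a hd ho, smul_eq_mul]
  ring

theorem RQ8_half {V : Type*} [AddCommGroup V] [Module ℚ V] {n : ℕ}
    (v : Module.Basis (Fin n) ℚ V) (B : LinearMap.BilinForm ℚ V) (a : Fin n → ℤ) (ha : ∀ i, a i ≠ 0)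
    (hd : ∀ i, B (v i) (v i) = 2 * a i) (ho : ∀ i j, i ≠ j → B (v i) (v j) = 0)
    (j : V →ₗ[ℚ] V) (hj : ∀ x y, B (j x) (j y) = -3 * B x y) :
    2 * (Finset.univ.filter fun i => 0 < a i).card ≤ n := by
  classical
  have hfin : Module.Finite ℚ V := Module.Finite.of_basis v
  let S : Set (Fin n) := {i | 0 < a i}
  let P : Submodule ℚ V := Submodule.span ℚ (v '' S)
  have hP : ∀ x ∈ P, 0 ≤ B x x ∧ (B x x = 0 → x = 0) := by
    intro x hx
    have hsupp := v.mem_span_image.1 hx
    have hz : ∀ i, v.repr x i ≠ 0 → 0 < a i := by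
      intro i hi
      exact hsupp (Finset.mem_coe.2 (Finsupp.mem_support_iff.2 hi))
    have hnn : ∀ i ∈ Finset.univ, 0 ≤ (v.repr x i) ^ 2 * (2 * (a i : ℚ)) := by
      intro i _
      by_cases h : v.repr x i = 0
      · rw [h]
        simp
      · have h1 : (0 : ℚ) < a i := by exact_mod_cast hz i h
        positivity
    rw [RQ8_self v B a hd ho x]
    refine ⟨Finset.sum_nonneg hnn, ?_⟩
    intro h0
    rw [Finset.sum_eq_zero_iff_of_nonneg hnn] at h0
    have h1 : v.repr x = 0 := by
      ext i
      by_contra h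
      have h2 := h0 i (Finset.mem_univ i)
      have h3 : (0 : ℚ) < a i := by exact_mod_cast hz i h
      have h4 : v.repr x i ≠ 0 := h
      have h5 : 0 < (v.repr x i) ^ 2 * (2 * (a i : ℚ)) := by positivity
      linarith
    exact v.repr.map_eq_zero_iff.1 h1
  have hinj : Function.Injective j := by
    rw [injective_iff_map_eq_zero]
    intro x hx
    have h1 : v.repr x = 0 := by
      ext i
      have h2 := hj x (v i)
      rw [hx, map_zero, LinearMap.zero_apply, RQ8_apply v B a hd ho] at h2
      have h3 : (a i : ℚ) ≠ 0 := by exact_mod_cast ha i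
      have h4 : v.repr x i * (a i : ℚ) = 0 := by linarith
      rcases mul_eq_zero.1 h4 with h | h
      · exact h
      · exact absurd h h3
    exact v.repr.map_eq_zero_iff.1 h1
  have hdisj : Disjoint P (P.map j) := by
    rw [Submodule.disjoint_def]
    rintro x hx ⟨y, hy, rfl⟩
    have h1 := hP y hy
    have h2 := hP _ hx
    have h3 := hj y y
    apply h2.2
    linarith [h1.1, h2.1]
  have h1 := Submodule.finrank_add_finrank_le_of_disjoint hdisj
  have h2 : Module.finrank ℚ (P.map j) = Module.finrank ℚ P :=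
    (Submodule.equivMapOfInjective j hinj P).finrank_eq.symm
  have h3 : Module.finrank ℚ P = (Finset.univ.filter fun i => 0 < a i).card := by
    have h4 : LinearIndependent ℚ (fun i : S => v i) :=
      v.linearIndependent.comp _ Subtype.val_injective
    have h5 := finrank_span_eq_card h4
    have h6 : Set.range (fun i : S => v i) = v '' S := by
      ext x
      simp
    rw [h6] at h5
    show Module.finrank ℚ (Submodule.span ℚ (v '' S)) = _
    rw [h5, Fintype.card_subtype]
    rfl
  have h4 : Module.finrank ℚ V = n := by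
    rw [Module.finrank_eq_card_basis v, Fintype.card_fin]
  rw [h2, h3, h4] at h1
  omega

theorem sign_balance {V : Type*} [AddCommGroup V] [Module ℚ V] {n : ℕ}
    (v : Module.Basis (Fin n) ℚ V) (B : LinearMap.BilinForm ℚ V) (a : Fin n → ℤ) (ha : ∀ i, a i ≠ 0)
    (hd : ∀ i, B (v i) (v i) = 2 * a i) (ho : ∀ i j, i ≠ j → B (v i) (v j) = 0)
    (j : V →ₗ[ℚ] V) (hj : ∀ x y, B (j x) (j y) = -3 * B x y) :
    (Finset.univ.filter fun i => 0 < a i).card = (Finset.univ.filter fun i => a i < 0).card := by
  have h1 := RQ8_half v B a ha hd ho j hj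
  have h2 := RQ8_half v (-B) (fun i => - a i) (fun i => neg_ne_zero.2 (ha i)) (fun i => by
    rw [LinearMap.neg_apply, LinearMap.neg_apply, hd]
    push_cast
    ring) (fun i k hik => by
    rw [LinearMap.neg_apply, LinearMap.neg_apply, ho i k hik, neg_zero]) j (fun x y => by
    rw [LinearMap.neg_apply, LinearMap.neg_apply, LinearMap.neg_apply, LinearMap.neg_apply, hj]
    ring)
  have h3 : (Finset.univ.filter fun i => 0 < - a i) = (Finset.univ.filter fun i => a i < 0) := by
    ext i
    simp
  have h4 : (Finset.univ.filter fun i => 0 < a i).card +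
      (Finset.univ.filter fun i => a i < 0).card = n := by
    have h5 : (Finset.univ.filter fun i => a i < 0) =
        (Finset.univ.filter fun i => ¬ 0 < a i) := by
      ext i
      have := ha i
      simp only [Finset.mem_filter, Finset.mem_univ, true_and]
      omega
    rw [h5, Finset.card_filter_add_card_filter_not, Finset.card_univ, Fintype.card_fin]
  rw [h3] at h2
  omega

theorem sign_prod {n : ℕ} (a : Fin n → ℤ) (ha : ∀ i, a i ≠ 0)
    (h : (Finset.univ.filter fun i => 0 < a i).card = (Finset.univ.filter fun i => a i < 0).card) :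
    ∃ r : ℝ, 0 < r ∧ ∏ i, (1 + ((a i).sign : ℂ) * Complex.I) = r := by
  refine ⟨2 ^ (Finset.univ.filter fun i => 0 < a i).card, by positivity, ?_⟩
  rw [← Finset.prod_filter_mul_prod_filter_not Finset.univ (fun i => 0 < a i)]
  have h5 : (Finset.univ.filter fun i => ¬ 0 < a i) = (Finset.univ.filter fun i => a i < 0) := by
    ext i
    have := ha i
    simp only [Finset.mem_filter, Finset.mem_univ, true_and]
    omega
  rw [h5]
  have h6 : ∏ i ∈ Finset.univ.filter (fun i => 0 < a i), (1 + ((a i).sign : ℂ) * Complex.I) =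
      (1 + Complex.I) ^ (Finset.univ.filter fun i => 0 < a i).card := by
    rw [← Finset.prod_const]
    refine Finset.prod_congr rfl fun i hi => ?_
    rw [Int.sign_eq_one_of_pos (Finset.mem_filter.1 hi).2]
    simp
  have h7 : ∏ i ∈ Finset.univ.filter (fun i => a i < 0), (1 + ((a i).sign : ℂ) * Complex.I) =
      (1 - Complex.I) ^ (Finset.univ.filter fun i => 0 < a i).card := by
    rw [h, ← Finset.prod_const]
    refine Finset.prod_congr rfl fun i hi => ?_
    rw [Int.sign_eq_neg_one_of_neg (Finset.mem_filter.1 hi).2]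
    push_cast
    ring
  rw [h6, h7, ← mul_pow]
  have h8 : (1 + Complex.I) * (1 - Complex.I) = 2 := by
    have := Complex.I_mul_I
    linear_combination -this
  rw [h8]
  push_cast
  rfl

end H55N.RQ
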