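import Mathlib
import Pool.Agent.Lib.H55N.RQ3
import Pool.Agent.Lib.H55N.RQ4
import Pool.Agent.Lib.H55N.RQ5
import Pool.Agent.Lib.H55N.RQ7
import Pool.Agent.Lib.H55N.RQ8

namespace H55N.RQ

/-! Chunk RQ9 (M/L): Milgram's formula in signature 0 (up to positive factors). Proof. Write F(x) = ex(B(x,x)/2).
(a) L is the span of the dual basis (LinearMap.BilinForm.dualSubmodule_span_of_basis), so every x in V has a multiple n x in L, n > 0.
LinearMap.BilinForm.exists_orthogonal_basis gives an orthogonal basis of V; multiply the vectors by positive integers: v_i in L.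
B(v_i,v_i) = 2 a_i with a_i an integer (hq), nonzero because B is nondegenerate.
(b) M = span_Z v_i <= L, D = dual of M. A <= D since A = dual of L (dualSubmodule_dualSubmodule_of_basis) and M <= L. By diag_mean D/M is finite and
the mean of F over D is r0 prod(1 + sgn a_i i) = r1 > 0 (sign_balance, sign_prod). By reps_mid all of D/A, A/L, L/M are finite.
(c) For x in D, c in L: F(x + c) = F(x) ex(B(x,c)) (B(c,c)/2 is an integer). The mean over c in L of ex(B(x,c)) is 1 if B(x,c) is an integer for all c in L,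
that is if x is in A (= dual of L), and 0 otherwise (mean_char with the subgroup M: B(x,c) is an integer for c in M as x in D). So by
mean_fubini the mean over D of G(x) = (F(x) if x in A, else 0) is r1.
(d) F is periodic on A modulo L, so it has a mean nu over A (mean_exists); by mean_restrict the mean of G over D is nu/|R|, so
nu = |R| r1 > 0 (mean_unique). -/
theorem RQ9_den {V : Type*} [AddCommGroup V] [Module ℚ V] {ι : Type*} [Finite ι]
    (b : Module.Basis ι ℚ V) (x : V) :
    ∃ m : ℕ, 0 < m ∧ (m : ℚ) • x ∈ Submodule.span ℤ (Set.range b) := by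
  classical
  have := Fintype.ofFinite ι
  refine ⟨∏ i, (b.repr x i).den, Finset.prod_pos fun i _ => (b.repr x i).den_pos, ?_⟩
  suffices h : (((∏ i, (b.repr x i).den : ℕ) : ℚ)) • ∑ i, b.repr x i • b i ∈
      Submodule.span ℤ (Set.range b) by rwa [b.sum_repr] at h
  rw [Finset.smul_sum]
  refine Submodule.sum_mem _ fun i _ => ?_
  obtain ⟨c, hc⟩ : (b.repr x i).den ∣ ∏ i, (b.repr x i).den :=
    Finset.dvd_prod_of_mem _ (Finset.mem_univ i)
  have h1 : (((∏ i, (b.repr x i).den : ℕ) : ℚ)) * b.repr x i = ((c * (b.repr x i).num : ℤ) : ℚ) := by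
    rw [hc]
    push_cast
    rw [mul_comm ((b.repr x i).den : ℚ) (c : ℚ), mul_assoc, mul_comm ((b.repr x i).den : ℚ),
      Rat.mul_den_eq_num]
  rw [smul_smul, h1, Int.cast_smul_eq_zsmul]
  exact Submodule.smul_mem _ _ (Submodule.subset_span ⟨i, rfl⟩)

theorem milgram {V : Type*} [AddCommGroup V] [Module ℚ V] (B : LinearMap.BilinForm ℚ V) (hs : B.IsSymm)
    (hn : B.Nondegenerate) (j : V →ₗ[ℚ] V) (hj : ∀ x y, B (j x) (j y) = -3 * B x y) {ι : Type*}
    [Finite ι] (b : Module.Basis ι ℚ V) (A L : Submodule ℤ V)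
    (hA : A = Submodule.span ℤ (Set.range b)) (hL : L = B.dualSubmodule A) (hLA : L ≤ A)
    (hq : ∀ y ∈ L, ∃ k : ℤ, B y y = 2 * k) :
    ∃ r : ℝ, 0 < r ∧ IsMean A.toAddSubgroup (fun x => ex (B x x / 2)) r := by
  classical
  have hfd : FiniteDimensional ℚ V := b.finiteDimensional_of_finite
  have hsym : ∀ x y, B x y = B y x := fun x y => hs.eq x y
  -- (a)
  have hLb : L = Submodule.span ℤ (Set.range (B.dualBasis hn b)) := by
    rw [hL, hA, LinearMap.BilinForm.dualSubmodule_span_of_basis B hn b]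
  have hden : ∀ x : V, ∃ m : ℕ, 0 < m ∧ (m : ℚ) • x ∈ L := by
    intro x
    rw [hLb]
    exact RQ9_den (B.dualBasis hn b) x
  have : Invertible (2 : ℚ) := invertibleOfNonzero two_ne_zero
  obtain ⟨v0, hv0⟩ := LinearMap.BilinForm.exists_orthogonal_basis (B := B) ⟨fun x y => hs.eq x y⟩
  choose m hm hmL using fun i => hden (v0 i)
  let v : Module.Basis (Fin (Module.finrank ℚ V)) ℚ V := v0.isUnitSMul (w := fun i => (m i : ℚ))
    (fun i => (isUnit_iff_ne_zero.2 (Nat.cast_ne_zero.2 (hm i).ne')))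
  have hv : ∀ i, v i = (m i : ℚ) • v0 i := fun i => v0.isUnitSMul_apply _ i
  have hvL : ∀ i, v i ∈ L := fun i => by rw [hv]; exact hmL i
  have ho : ∀ i j, i ≠ j → B (v i) (v j) = 0 := by
    intro i j hij
    have h1 : B (v0 i) (v0 j) = 0 := hv0 hij
    rw [hv, hv, map_smul, map_smul, LinearMap.smul_apply, h1, smul_zero, smul_zero]
  choose a hd using fun i => hq (v i) (hvL i)
  have ha : ∀ i, a i ≠ 0 := by
    intro i h0
    have h1 : B (v i) (v i) ≠ 0 := by
      apply LinearMap.BilinForm.iIsOrtho.not_isOrtho_basis_self_of_nondegenerate (v := v) _ hn i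
      intro i j hij
      exact ho i j hij
    apply h1
    rw [hd, h0]
    norm_num
  -- (b)
  obtain ⟨M, hM⟩ : ∃ M : Submodule ℤ V, M = Submodule.span ℤ (Set.range v) := ⟨_, rfl⟩
  obtain ⟨D, hD⟩ : ∃ D : Submodule ℤ V, D = B.dualSubmodule M := ⟨_, rfl⟩
  have hML : M ≤ L := by
    rw [hM, Submodule.span_le]
    rintro _ ⟨i, rfl⟩
    exact hvL i
  have hAD : A ≤ D := by
    intro x hx
    rw [hD]
    intro y hy
    have h1 := hML hy
    rw [hL] at h1
    rw [hsym]
    exact h1 x hx
  have hAdual : ∀ x, (∀ c ∈ L, B x c ∈ (1 : Submodule ℤ ℚ)) → x ∈ A := by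
    intro x hx
    have h1 := LinearMap.BilinForm.dualSubmodule_dualSubmodule_of_basis (R := ℤ) B hn hs b
    rw [← hA, ← hL] at h1
    rw [← h1]
    exact hx
  obtain ⟨⟨R, hR⟩, r0, hr0, hmean⟩ := diag_mean v B hs a ha hd ho
  rw [← hM, ← hD] at hR hmean
  obtain ⟨r1, hr1, hprod⟩ := sign_prod a ha (sign_balance v B a ha hd ho j hj)
  rw [hprod] at hmean
  have hLD : L ≤ D := hLA.trans hAD
  have hMA : M ≤ A := hML.trans hLA
  obtain ⟨-, R1, hR1⟩ := reps_mid hR (C := L.toAddSubgroup) hML hLD
  obtain ⟨⟨R2, hR2⟩, R3, hR3⟩ := reps_mid hR (C := A.toAddSubgroup) hMA hAD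
  obtain ⟨⟨R4, hR4⟩, -⟩ := reps_mid hR3 (C := L.toAddSubgroup) hML hLA
  -- the function
  have hF : ∀ x : V, ∀ c ∈ L, ex (B (x + c) (x + c) / 2) = ex (B x x / 2) * ex (B x c) := by
    intro x c hc
    obtain ⟨k, hk⟩ := hq c hc
    have h1 : B (x + c) (x + c) / 2 = B x x / 2 + B x c + (k : ℚ) := by
      simp only [map_add, LinearMap.add_apply]
      rw [hk, hsym c x]
      ring
    rw [h1, ex_add, ex_add, ex_int, mul_one]
  have hone : ∀ q : ℚ, q ∈ (1 : Submodule ℤ ℚ) ↔ ex q = 1 := by
    intro q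
    rw [ex_eq_one, Submodule.mem_one]
    constructor
    · rintro ⟨k, hk⟩
      exact ⟨k, by rw [← hk]; rfl⟩
    · rintro ⟨k, hk⟩
      exact ⟨k, by rw [hk]; rfl⟩
  set G : V → ℂ := fun x => if x ∈ A then ex (B x x / 2) else 0 with hG
  have hGmean : IsMean D.toAddSubgroup G (r0 * r1) := by
    refine mean_fubini hmean (C := L.toAddSubgroup) hLD ?_
    intro x hx
    have h1 := mean_mul (mean_char hR1 (fun c => ex (B x c)) (fun c _ d _ => by
      rw [map_add, ex_add]) (fun c hc => by
        rw [← hone]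
        have hx' : x ∈ D := hx
        rw [hD] at hx'
        exact hx' c hc)) (ex (B x x / 2))
    have h2 : ex (B x x / 2) * (if ∀ a ∈ L.toAddSubgroup, ex (B x a) = 1 then 1 else 0) = G x := by
      rw [hG]
      simp only
      by_cases h : x ∈ A
      · rw [if_pos h, if_pos, mul_one]
        intro c hc
        rw [← hone]
        have hc' : c ∈ L := hc
        rw [hL] at hc'
        rw [hsym]
        exact hc' x h
      · rw [if_neg h, if_neg, mul_zero]
        intro h3
        apply h
        apply hAdual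
        intro c hc
        rw [hone]
        exact h3 c hc
    rw [h2] at h1
    exact mean_congr h1 fun c hc => (hF x c hc).symm
  have hper : Per A.toAddSubgroup L.toAddSubgroup (fun x => ex (B x x / 2)) := by
    intro x hx c hc
    have hc' : c ∈ L := hc
    simp only
    rw [hF x c hc']
    have h1 : ex (B x c) = 1 := by
      rw [← hone, hsym]
      rw [hL] at hc'
      exact hc' x hx
    rw [h1, mul_one]
  obtain ⟨ν, hν⟩ := mean_exists hR4 hper
  have hGA : IsMean A.toAddSubgroup G ν := by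
    refine mean_congr hν fun x hx => ?_
    have hx' : x ∈ A := hx
    rw [hG]
    simp only
    rw [if_pos hx']
  have hG0 : ∀ x ∈ D.toAddSubgroup, x ∉ A.toAddSubgroup → G x = 0 := by
    intro x _ hx
    rw [hG]
    simp only
    exact if_neg hx
  have h3 := mean_unique (mean_restrict hR2 hG0 hGA) hGmean
  have hcard : 0 < R2.card := Finset.card_pos.2 (reps_nonempty hR2)
  refine ⟨r0 * r1 * R2.card, by positivity, ?_⟩
  have h4 : ν = ((r0 * r1 * R2.card : ℝ) : ℂ) := by
    rw [div_eq_iff (Nat.cast_ne_zero.2 hcard.ne')] at h3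
    rw [h3]
    push_cast
    ring
  rw [← h4]
  exact hν

end H55N.RQ
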