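import Mathlib
import Pool.Agent.Lib.H55N.RQ9
import Pool.Agent.Lib.H55N.RQ23

open NumberField IsDedekindDomain

namespace H55N.RQ

variable {K K' : Type} [Field K] [NumberField K] [Field K'] [NumberField K'] [Algebra K K']

/-! Chunk RQ24 (M/L): positivity. Apply milgram (RQ9) to V = K' over Q, c = 1/(n^2 x), B(y,z) = Tr_{K'/Q}(c y sigma(z)) (symmetric: Tr_{K'/Q}(sigma u) = Tr_{K'/Q}(u), sigma^2 = 1, sigma c = c;
nondegenerate: traceForm_nondegenerate), j = multiplication by the square root of -3 of K (sigma fixes K: B(jy,jz) = -3 B(y,z)), A = the image of O' in K' (spanned by integralBasis), L = its dual.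
B(y,y) = Tr_{K'/Q}(c N y) = 2 Tr_{K/Q}(c N y). If y in L: c y satisfies Tr_{K'/Q}(c y z) integral for z in O' (replace z by sigma z), so n c y = u in O'; y = n x u is in O' (L <= A), and
B(y,y) = 2 Tr_{K/Q}(c N y), c N(y) = c n^2 x^2 N(u) = x N(u), integral. So the mean over A of e(Tr_{K/Q}(c N z)) is positive; mean_pull along O' -> K'. -/

theorem RQ24_int (t : 𝓞 K) : ∃ k : ℤ, Algebra.trace ℚ K (t : K) = k :=
  ⟨Algebra.trace ℤ (𝓞 K) t, (Algebra.coe_trace_int t).symm⟩

theorem RQ24_tower (u : K') :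
    Algebra.trace ℚ K (Algebra.trace K K' u) = Algebra.trace ℚ K' u :=
  Algebra.trace_trace u

theorem pos_mean (hF : ∃ j : K, j ^ 2 = -3) (h2 : Module.finrank K K' = 2) {D : Qd (𝓞 K) (𝓞 K')}
    {σ : K' ≃ₐ[K] K'} (hD : QdOf D σ) {n : ℕ} (hn0 : 0 < n) (hn : NN K' n) (x : 𝓞 K) (hx : x ≠ 0) :
    ∃ r : ℝ, 0 < r ∧ IsMean (⊤ : AddSubgroup (𝓞 K')) (fun z => psi n x (D.N z)) r := by
  obtain ⟨j₀, hj₀⟩ := hF
  have hinj : Function.Injective (algebraMap K K') := (algebraMap K K').injective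
  have hx' : (x : K) ≠ 0 := fun h => hx (RingOfIntegers.ext h)
  have hn' : (n : K) ≠ 0 := Nat.cast_ne_zero.2 hn0.ne'
  set c : K := 1 / ((n : K) ^ 2 * (x : K)) with hc
  have hc0 : c ≠ 0 := one_div_ne_zero (mul_ne_zero (pow_ne_zero 2 hn') hx')
  have hc0' : algebraMap K K' c ≠ 0 := (map_ne_zero _).2 hc0
  have htrσ : ∀ u : K', Algebra.trace ℚ K' (σ u) = Algebra.trace ℚ K' u := by
    intro u
    rw [← RQ24_tower (K := K) (K' := K'), ← RQ24_tower (K := K) (K' := K')]
    congr 1
    apply hinj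
    rw [hD.trace, hD.trace, hD.invol, add_comm]
  have htr2 : ∀ t : K, Algebra.trace ℚ K' (algebraMap K K' t) = 2 * Algebra.trace ℚ K t := by
    intro t
    rw [← RQ24_tower (K := K) (K' := K'), Algebra.trace_algebraMap, h2, map_nsmul, nsmul_eq_mul,
      Nat.cast_ofNat]
  have hσq : ∀ (q : ℚ) (z : K'), σ (q • z) = q • σ z := by
    intro q z
    exact map_rat_smul σ q z
  let B : LinearMap.BilinForm ℚ K' := LinearMap.mk₂ ℚ
    (fun y z => Algebra.trace ℚ K' (algebraMap K K' c * y * σ z))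
    (fun y y' z => by rw [mul_add, add_mul, map_add])
    (fun q y z => by
      rw [mul_smul_comm, smul_mul_assoc, map_smul])
    (fun y z z' => by rw [map_add, mul_add, map_add])
    (fun q y z => by rw [hσq, mul_smul_comm, map_smul])
  have hB : ∀ y z : K', B y z = Algebra.trace ℚ K' (algebraMap K K' c * y * σ z) := fun y z => rfl
  have hsym : ∀ y z : K', B y z = B z y := by
    intro y z
    rw [hB, hB, ← htrσ]
    congr 1
    rw [map_mul, map_mul, hD.invol, σ.commutes]
    ring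
  have hs : B.IsSymm := ⟨fun y z => hsym y z⟩
  have hdn : ∀ y : K', (∀ z : K', B y z = 0) → y = 0 := by
    intro y hy
    have h1 := (traceForm_nondegenerate ℚ K').1 (algebraMap K K' c * y) (fun z => by
      have h := hy (σ z)
      rw [hB, hD.invol] at h
      exact h)
    exact (mul_eq_zero.1 h1).resolve_left hc0'
  have hnd : B.Nondegenerate := by
    rw [LinearMap.BilinForm.Nondegenerate, LinearMap.IsRefl.nondegenerate_iff_separatingLeft hs.isRefl]
    exact fun y hy => hdn y hy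
  have hN : ∀ y : K', B y y = 2 * Algebra.trace ℚ K (c * Algebra.norm K y) := by
    intro y
    rw [hB, ← htr2, map_mul (algebraMap K K'), hD.norm, mul_assoc]
  let j : K' →ₗ[ℚ] K' := LinearMap.mulLeft ℚ (algebraMap K K' j₀)
  have hj : ∀ y z : K', B (j y) (j z) = -3 * B y z := by
    intro y z
    rw [hB, hB]
    show Algebra.trace ℚ K' (algebraMap K K' c * (algebraMap K K' j₀ * y) *
      σ (algebraMap K K' j₀ * z)) = _
    rw [map_mul σ, σ.commutes]
    have h : algebraMap K K' c * (algebraMap K K' j₀ * y) * (algebraMap K K' j₀ * σ z) =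
        (-3 : ℚ) • (algebraMap K K' c * y * σ z) := by
      rw [Algebra.smul_def]
      have h1 : algebraMap K K' j₀ ^ 2 = -3 := by
        rw [← map_pow, hj₀, map_neg, map_ofNat]
      rw [map_neg, map_ofNat]
      linear_combination (algebraMap K K' c * y * σ z) * h1
    rw [h, map_smul, smul_eq_mul]
  let b := integralBasis K'
  have hmemA : ∀ y : K', y ∈ Submodule.span ℤ (Set.range b) ↔ ∃ u : 𝓞 K', (u : K') = y := by
    intro y
    rw [mem_span_integralBasis]
    rfl
  have hu : ∀ y ∈ B.dualSubmodule (Submodule.span ℤ (Set.range b)), ∃ u : 𝓞 K',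
      y = (n : K') * algebraMap K K' (x : K) * (u : K') := by
    intro y hy
    rw [LinearMap.BilinForm.mem_dualSubmodule] at hy
    obtain ⟨u, hu⟩ := hn (algebraMap K K' c * y) (fun z => by
      have h := hy (σ (z : K')) ((hmemA _).2 ⟨D.s z, hD.s z⟩)
      rw [Submodule.mem_one] at h
      obtain ⟨k, hk⟩ := h
      refine ⟨k, ?_⟩
      rw [hB, hD.invol] at hk
      rw [← hk]
      simp)
    refine ⟨u, ?_⟩
    rw [← hu, hc, map_div₀, map_mul, map_pow, map_one, map_natCast]
    have h1 : (n : K') ≠ 0 := Nat.cast_ne_zero.2 hn0.ne'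
    have h2 : algebraMap K K' (x : K) ≠ 0 := (map_ne_zero _).2 hx'
    field_simp
  obtain ⟨r, hr, hm⟩ := milgram B hs hnd j hj b _ _ rfl rfl (by
    intro y hy
    obtain ⟨u, rfl⟩ := hu y hy
    rw [hmemA]
    refine ⟨(n : 𝓞 K') * algebraMap (𝓞 K) (𝓞 K') x * u, ?_⟩
    show algebraMap (𝓞 K') K' ((n : 𝓞 K') * algebraMap (𝓞 K) (𝓞 K') x * u) = _
    rw [map_mul, map_mul, map_natCast]
    rfl) (by
    intro y hy
    obtain ⟨u, rfl⟩ := hu y hy
    rw [hN]
    have h1 : c * Algebra.norm K ((n : K') * algebraMap K K' (x : K) * (u : K')) =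
        ((x * D.N u : 𝓞 K) : K) := by
      have h3 : ((n : K') * algebraMap K K' (x : K) * (u : K')) =
          algebraMap K K' ((n : K) * x) * u := by
        rw [map_mul, map_natCast]
      have h4 : ((x * D.N u : 𝓞 K) : K) = (x : K) * Algebra.norm K (u : K') := by
        rw [← hD.N]
        exact map_mul (algebraMap (𝓞 K) K) _ _
      rw [h3, map_mul, Algebra.norm_algebraMap, h2, h4, hc]
      field_simp
    rw [h1]
    obtain ⟨k, hk⟩ := RQ24_int (x * D.N u)
    exact ⟨k, by rw [hk]⟩)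
  refine ⟨r, hr, ?_⟩
  have hmap : (⊤ : AddSubgroup (𝓞 K')).map (algebraMap (𝓞 K') K').toAddMonoidHom =
      (Submodule.span ℤ (Set.range b)).toAddSubgroup := by
    ext y
    rw [AddSubgroup.mem_map]
    constructor
    · rintro ⟨u, -, rfl⟩
      exact (hmemA _).2 ⟨u, rfl⟩
    · intro hy
      obtain ⟨u, hu⟩ := (hmemA _).1 hy
      exact ⟨u, AddSubgroup.mem_top _, hu⟩
  rw [← hmap] at hm
  have h3 := mean_pull _ hm
  apply mean_congr h3
  intro z _
  unfold psi
  congr 1
  show B (z : K') (z : K') / 2 = _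
  rw [hN, mul_div_cancel_left₀ _ two_ne_zero, ← hD.N]
  congr 1
  rw [hc]
  ring

end H55N.RQ
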