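import Mathlib
import Pool.Agent.Lib.H55N.RQ19
import Pool.Agent.Lib.H55N.RQ24

open NumberField IsDedekindDomain

namespace H55N.RQ

variable {K K' : Type} [Field K] [NumberField K] [Field K'] [NumberField K'] [Algebra K K']

open Classical in
/-- The quadratic character of K'/K at a prime w. -/
noncomputable def chiK (K' : Type) [Field K'] [NumberField K'] [Algebra K K'] (w : Ideal (𝓞 K)) : ℤ :=
  if RamI K' w then 0 else if (w.map (algebraMap (𝓞 K) (𝓞 K'))).IsPrime then -1 else 1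

open Classical in
theorem RQ25_chi (h2 : Module.finrank K K' = 2) {D : Qd (𝓞 K) (𝓞 K')} {σ : K' ≃ₐ[K] K'}
    (hD : QdOf D σ) (w : Ideal (𝓞 K)) (hw : w.IsMaximal) (hw0 : w ≠ ⊥) : chiD D w = chiK K' w := by
  unfold chiD chiK
  simp only [tri_ram h2 hD w hw hw0, tri_inert h2 hD w hw hw0]

open Classical in
theorem RQ25_sg (h2 : Module.finrank K K' = 2) {D : Qd (𝓞 K) (𝓞 K')} {σ : K' ≃ₐ[K] K'}
    (hD : QdOf D σ) (w : Ideal (𝓞 K)) (hw : w.IsMaximal) (hw0 : w ≠ ⊥) (x : 𝓞 K) (j : ℕ) :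
    sg D w x j = if RamI K' w then qs w x else chiK K' w ^ j := by
  unfold sg
  rw [RQ25_chi h2 hD w hw hw0]
  simp only [tri_ram h2 hD w hw hw0]

theorem RQ25_qs (w : Ideal (𝓞 K)) (x : 𝓞 K) : qs w x ^ 2 = 1 := by
  unfold qs
  split_ifs <;> norm_num

theorem RQ25_chiK (w : Ideal (𝓞 K)) (hw : ¬ RamI K' w) : chiK K' w ^ 2 = 1 := by
  unfold chiK
  rw [if_neg hw]
  split_ifs <;> norm_num

open Classical in
/-- The product formula for the signs. (Chunk RQ25, M.) Proof: n from exists_n, b from psi_prim (n_down), j w = exponent of w in x. Since n x divides every t in b, b <= span{n x}, the exponents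
of b are at least those of n x. mu_x > 0 (pos_mean for x) and mu_1 > 0 (pos_mean for 1, psi_x), loc_all: mu_1 = r (prod sg) mu_x, so prod sg > 0 and being 1 or -1 (sg is 1 or -1 by chi_inert,
chi_split, tri) it is 1. The product over the prime factors of b: for ramified w (all of them contain n, ram_n, hence b, so they are factors of b) sg = qs w x; for the unramified ones
chiD^(j w), which is 1 if w does not divide x; chiD = chiK by tri_ram, tri_inert, tri. -/
theorem recip (hF : ∃ j : K, j ^ 2 = -3) (h2 : Module.finrank K K' = 2) (R : Finset (Ideal (𝓞 K)))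
    (hR : ∀ w, w ∈ R ↔ (w.IsMaximal ∧ RamI K' w)) (hodd : ∀ w ∈ R, (2 : 𝓞 K) ∉ w) (x : 𝓞 K)
    (hx0 : x ≠ 0) (hx : ∀ w ∈ R, x ∉ w) :
    ((UniqueFactorizationMonoid.normalizedFactors (Ideal.span {x})).map (chiK K')).prod =
      ∏ w ∈ R, qs w x := by
  obtain ⟨D, σ, hD⟩ := exists_qd (K := K) (K' := K') h2
  obtain ⟨n, hn0, hn⟩ := exists_n K'
  have hnK : NN K n := n_down hn
  obtain ⟨𝔟, hb, hprim, hdvd⟩ := psi_prim hn0 hnK x hx0
  have hsx : (Ideal.span {x} : Ideal (𝓞 K)) ≠ 0 := by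
    rw [Ne, Ideal.zero_eq_bot, Ideal.span_singleton_eq_bot]
    exact hx0
  have hb0 : 𝔟 ≠ 0 := hb
  have hle : 𝔟 ≤ Ideal.span {(n : 𝓞 K) * x} := fun t ht => Ideal.mem_span_singleton.2 (hdvd t ht)
  have hlex : 𝔟 ≤ Ideal.span {x} := by
    refine hle.trans ?_
    rw [Ideal.span_singleton_le_span_singleton]
    exact dvd_mul_left _ _
  have hlen : 𝔟 ≤ Ideal.span {(n : 𝓞 K)} := by
    refine hle.trans ?_
    rw [Ideal.span_singleton_le_span_singleton]
    exact dvd_mul_right _ _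
  have hmem : ∀ {a w : Ideal (𝓞 K)}, a ≠ 0 →
      (w ∈ UniqueFactorizationMonoid.normalizedFactors a ↔ Prime w ∧ w ∣ a) :=
    fun ha => UniqueFactorizationMonoid.mem_normalizedFactors_iff ha
  have hpm : ∀ {w : Ideal (𝓞 K)}, Prime w → w.IsMaximal ∧ w ≠ ⊥ := fun hp =>
    ⟨(Ideal.isPrime_of_prime hp).isMaximal hp.ne_zero, hp.ne_zero⟩
  set j : Ideal (𝓞 K) → ℕ := fun w =>
    (UniqueFactorizationMonoid.normalizedFactors (Ideal.span {x})).count w with hj
  have hj0 : ∀ w : Ideal (𝓞 K), x ∉ w → j w = 0 := by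
    intro w hw
    rw [hj]
    show Multiset.count w _ = 0
    rw [Multiset.count_eq_zero, hmem hsx]
    rintro ⟨-, h⟩
    exact hw (Ideal.dvd_span_singleton.1 h)
  obtain ⟨r₁, hr₁, hm₁⟩ := pos_mean hF h2 hD hn0 hn x hx0
  obtain ⟨r₂, hr₂, hm₂⟩ := pos_mean hF h2 hD hn0 hn 1 one_ne_zero
  obtain ⟨r, hr, hm⟩ := loc_all D (fun w hw hw0 => tri h2 hD w hw hw0)
    (fun w hw hram => by
      have hw0 : w ≠ ⊥ := by
        rintro rfl
        exact Ring.ne_bot_of_isMaximal_of_not_isField hw (RingOfIntegers.not_isField K) rfl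
      exact hodd w ((hR w).2 ⟨hw, (tri_ram h2 hD w hw hw0).1 hram⟩)) x j 𝔟 hb (fun w hw => by
      obtain ⟨hp, hdw⟩ := (hmem hb0).1 hw
      obtain ⟨hwm, hw0⟩ := hpm hp
      refine ⟨?_, ?_, ?_⟩
      · apply Multiset.count_le_of_le
        apply (UniqueFactorizationMonoid.dvd_iff_normalizedFactors_le_normalizedFactors hsx hb0).1
        exact Ideal.dvd_iff_le.2 hlex
      · intro hram
        exact hj0 w (hx w ((hR w).2 ⟨hwm, (tri_ram h2 hD w hwm hw0).1 hram⟩))
      · have h := UniqueFactorizationMonoid.emultiplicity_eq_count_normalizedFactors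
          hp.irreducible hsx
        rw [normalize_eq, emultiplicity_eq_coe] at h
        exact ⟨Ideal.dvd_span_singleton.1 h.1, fun h3 => h.2 (Ideal.dvd_span_singleton.2 h3)⟩)
    hprim hm₁
  have hm' : IsMean (⊤ : AddSubgroup (𝓞 K')) (fun z => psi n 1 (D.N z)) (r *
      (∏ w ∈ (UniqueFactorizationMonoid.normalizedFactors 𝔟).toFinset, (sg D w x (j w) : ℂ)) *
      r₁) := mean_congr hm (fun z _ => psi_x hn0 x _ hx0)
  have hu := mean_unique hm' hm₂
  set S : ℤ := ∏ w ∈ (UniqueFactorizationMonoid.normalizedFactors 𝔟).toFinset,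
    sg D w x (j w) with hS
  have hSc : ((S : ℤ) : ℂ) =
      ∏ w ∈ (UniqueFactorizationMonoid.normalizedFactors 𝔟).toFinset, (sg D w x (j w) : ℂ) := by
    rw [hS, Int.cast_prod]
  rw [← hSc] at hu
  have hu' : r * (S : ℝ) * r₁ = r₂ := by
    have : ((r * (S : ℝ) * r₁ : ℝ) : ℂ) = (r₂ : ℝ) := by
      push_cast
      exact hu
    exact_mod_cast this
  have hSpos : 0 < S := by
    have h1 : 0 < r * (S : ℝ) * r₁ := by rw [hu']; exact hr₂
    have h3 : 0 < (S : ℝ) := by
      by_contra h4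
      push Not at h4
      have h5 : r * (S : ℝ) ≤ 0 := mul_nonpos_of_nonneg_of_nonpos hr.le h4
      have h6 : r * (S : ℝ) * r₁ ≤ 0 := mul_nonpos_of_nonpos_of_nonneg h5 hr₁.le
      linarith
    exact_mod_cast h3
  set P : Finset (Ideal (𝓞 K)) := (UniqueFactorizationMonoid.normalizedFactors 𝔟).toFinset with hP
  have hPmem : ∀ w, w ∈ P ↔ Prime w ∧ w ∣ 𝔟 := by
    intro w
    rw [hP, Multiset.mem_toFinset, hmem hb0]
  have hRP : R ⊆ P := by
    intro w hw
    obtain ⟨hwm, hram⟩ := (hR w).1 hw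
    have hw0 : w ≠ ⊥ := by
      rintro rfl
      exact Ring.ne_bot_of_isMaximal_of_not_isField hwm (RingOfIntegers.not_isField K) rfl
    rw [hPmem]
    refine ⟨Ideal.prime_of_isPrime hw0 hwm.isPrime, Ideal.dvd_iff_le.2 (hlen.trans ?_)⟩
    rw [Ideal.span_singleton_le_iff_mem]
    exact ram_n h2 hn w hwm hw0 hram
  have hsgP : ∀ w ∈ P, sg D w x (j w) = if w ∈ R then qs w x else chiK K' w ^ j w := by
    intro w hw
    obtain ⟨hwm, hw0⟩ := hpm ((hPmem w).1 hw).1
    rw [RQ25_sg h2 hD w hwm hw0]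
    have : w ∈ R ↔ RamI K' w := by
      rw [hR]
      exact ⟨fun h => h.2, fun h => ⟨hwm, h⟩⟩
    simp only [this]
  have hSsplit : S = (∏ w ∈ R, qs w x) * ∏ w ∈ P \ R, chiK K' w ^ j w := by
    rw [hS, ← Finset.prod_sdiff hRP, mul_comm]
    congr 1
    · apply Finset.prod_congr rfl
      intro w hw
      rw [hsgP w (hRP hw), if_pos hw]
    · apply Finset.prod_congr rfl
      intro w hw
      rw [Finset.mem_sdiff] at hw
      rw [hsgP w hw.1, if_neg hw.2]
  have hmapprod : ((UniqueFactorizationMonoid.normalizedFactors (Ideal.span {x})).map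
      (chiK K')).prod = ∏ w ∈ P \ R, chiK K' w ^ j w := by
    rw [Finset.prod_multiset_map_count]
    apply Finset.prod_subset
    · intro w hw
      rw [Multiset.mem_toFinset, hmem hsx] at hw
      rw [Finset.mem_sdiff, hPmem]
      refine ⟨⟨hw.1, hw.2.trans (Ideal.dvd_iff_le.2 hlex)⟩, fun h3 => ?_⟩
      exact hx w h3 (Ideal.dvd_span_singleton.1 hw.2)
    · intro w _ hw
      rw [Multiset.mem_toFinset, ← Multiset.count_eq_zero] at hw
      rw [hw, pow_zero]
  rw [hmapprod]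
  set A : ℤ := ∏ w ∈ R, qs w x with hA
  set C : ℤ := ∏ w ∈ P \ R, chiK K' w ^ j w with hC
  have hA2 : A ^ 2 = 1 := by
    rw [hA, ← Finset.prod_pow]
    apply Finset.prod_eq_one
    intro w _
    exact RQ25_qs w x
  have hC2 : C ^ 2 = 1 := by
    rw [hC, ← Finset.prod_pow]
    apply Finset.prod_eq_one
    intro w hw
    rw [Finset.mem_sdiff, hPmem] at hw
    have hnr : ¬ RamI K' w := fun h3 => hw.2 ((hR w).2 ⟨(hpm hw.1.1).1, h3⟩)
    rw [← pow_mul, mul_comm, pow_mul, RQ25_chiK w hnr, one_pow]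
  have hA1 : A = 1 ∨ A = -1 := sq_eq_one_iff.1 hA2
  have hC1 : C = 1 ∨ C = -1 := sq_eq_one_iff.1 hC2
  rw [hSsplit] at hSpos
  rcases hA1 with h3 | h3 <;> rcases hC1 with h4 | h4 <;> rw [h3, h4] at hSpos ⊢ <;>
    norm_num at hSpos

end H55N.RQ
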