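import Mathlib
import Pool.Agent.Lib.H55N.RQ25
import Pool.Agent.Lib.H55N.HD

open NumberField IsDedekindDomain

namespace H55N.RQ

variable {K K' : Type} [Field K] [NumberField K] [Field K'] [NumberField K'] [Algebra K K']

/-! Chunk RQ26 (M): the decomposition law. From tri (exists_qd, RQ20, RQ21): for w the three cases.
Inert: w O' is prime, the only prime above w (a prime W with W meet O = w contains w O', which is maximal), its relative norm is w^f = w^2
(Ideal.relNorm_algebraMap). Ramified: w O' = W^2, relNorm(W)^2 = relNorm(w O') = w^2, so relNorm W = w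
(unique factorisation); the primes above w divide w O' = W^2. Split: w O' = W W', W <> W' maximal, relNorm W relNorm W' = w^2 and both are divisible by w (relNorm W <= W meet O = w), so both are w. -/

theorem RQ26_map (h2 : Module.finrank K K' = 2) (w : Ideal (𝓞 K)) :
    Ideal.relNorm (𝓞 K) (w.map (algebraMap (𝓞 K) (𝓞 K'))) = w ^ 2 := by
  rw [Ideal.relNorm_algebraMap]
  have h : Module.finrank (𝓞 K) (𝓞 K') = Module.finrank K K' :=
    (IsFractionRing.finrank_eq (𝓞 K) K (𝓞 K') K').symm
  rw [h, h2]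

theorem RQ26_under (w : Ideal (𝓞 K)) (hw : w.IsMaximal) (W : Ideal (𝓞 K')) (hW : W.IsPrime)
    (h : w.map (algebraMap (𝓞 K) (𝓞 K')) ≤ W) : W.under (𝓞 K) = w := by
  symm
  apply hw.eq_of_le
  · have := Ideal.IsPrime.under (𝓞 K) W
    exact this.ne_top
  · exact Ideal.map_le_iff_le_comap.1 h

theorem RQ26_dvd (w : Ideal (𝓞 K)) (W : Ideal (𝓞 K')) (h : W.under (𝓞 K) = w) :
    ∃ J : Ideal (𝓞 K), Ideal.relNorm (𝓞 K) W = w * J := by
  have h1 : Ideal.relNorm (𝓞 K) W ≤ w := by
    rw [← h]
    exact Ideal.relNorm_le_comap (R := 𝓞 K) W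
  exact Ideal.dvd_iff_le.2 h1

theorem RQ26_pair (h2 : Module.finrank K K' = 2) (w : Ideal (𝓞 K)) (hw : w.IsMaximal) (hw0 : w ≠ ⊥)
    (W W' : Ideal (𝓞 K')) (hW : W.IsPrime) (hW' : W'.IsPrime)
    (h : w.map (algebraMap (𝓞 K) (𝓞 K')) = W * W') :
    Ideal.relNorm (𝓞 K) W = w ∧ Ideal.relNorm (𝓞 K) W' = w := by
  obtain ⟨J, hJ⟩ := RQ26_dvd w W (RQ26_under w hw W hW (by rw [h]; exact Ideal.mul_le_left))
  obtain ⟨J', hJ'⟩ := RQ26_dvd w W' (RQ26_under w hw W' hW' (by rw [h]; exact Ideal.mul_le_right))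
  have h1 := RQ26_map h2 w
  rw [h, map_mul, hJ, hJ'] at h1
  have hw2 : w ^ 2 ≠ 0 := pow_ne_zero 2 hw0
  have h3 : J * J' = 1 := by
    apply mul_left_cancel₀ hw2
    rw [mul_one]
    nth_rewrite 2 [← h1]
    ring
  have h4 : J = 1 := by
    rw [Ideal.one_eq_top, ← Ideal.isUnit_iff]
    exact IsUnit.of_mul_eq_one _ h3
  have h5 : J' = 1 := by
    rw [h4, one_mul] at h3
    exact h3
  rw [hJ, hJ', h4, h5, mul_one]
  exact ⟨rfl, rfl⟩

open Classical in
theorem split_law (h2 : Module.finrank K K' = 2) (χ : Ideal (𝓞 K) →*₀ ℂ)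
    (hχ : ∀ w : HeightOneSpectrum (𝓞 K), χ w.asIdeal = (chiK K' w.asIdeal : ℂ)) :
    SplitChr K K' χ := by
  obtain ⟨D, σ, hD⟩ := exists_qd (K := K) (K' := K') h2
  intro w
  have hw : w.asIdeal.IsMaximal := w.isMaximal
  have hw0 := w.ne_bot
  have hmap0 : w.asIdeal.map (algebraMap (𝓞 K) (𝓞 K')) ≠ ⊥ := by
    intro h
    rw [Ideal.map_eq_bot_iff_of_injective
      (FaithfulSMul.algebraMap_injective (𝓞 K) (𝓞 K'))] at h
    exact hw0 h
  have habove : ∀ W : HeightOneSpectrum (𝓞 K'), W.asIdeal.under (𝓞 K) = w.asIdeal →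
      w.asIdeal.map (algebraMap (𝓞 K) (𝓞 K')) ≤ W.asIdeal := by
    intro W hW
    rw [Ideal.map_le_iff_le_comap]
    exact hW.symm.le
  by_cases hr : RamI K' w.asIdeal
  · right; right
    refine ⟨?_, ?_⟩
    · rw [hχ, chiK, if_pos hr, Int.cast_zero]
    · obtain ⟨W, hW, hWm⟩ := hr
      have hW0 : W ≠ ⊥ := by
        rintro rfl
        apply hmap0
        rw [hWm]
        exact zero_pow two_ne_zero
      rw [sq] at hWm
      refine ⟨⟨W, hW, hW0⟩, ?_, (RQ26_pair h2 w.asIdeal hw hw0 W W hW hW hWm).1⟩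
      ext W'
      rw [Set.mem_ofPred_eq, Set.mem_singleton_iff]
      constructor
      · intro h
        have h3 := habove W' h
        rw [hWm] at h3
        have h4 : W ≤ W'.asIdeal := (W'.isPrime.mul_le.1 h3).elim id id
        have h5 := (hW.isMaximal hW0).eq_of_le W'.isPrime.ne_top h4
        exact HeightOneSpectrum.ext h5.symm
      · rintro rfl
        exact RQ26_under w.asIdeal hw W hW (by rw [hWm]; exact Ideal.mul_le_left)
  · by_cases hi : (w.asIdeal.map (algebraMap (𝓞 K) (𝓞 K'))).IsPrime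
    · right; left
      refine ⟨?_, ?_⟩
      · rw [hχ, chiK, if_neg hr, if_pos hi, Int.cast_neg, Int.cast_one]
      · refine ⟨⟨_, hi, hmap0⟩, ?_, RQ26_map h2 w.asIdeal⟩
        ext W'
        rw [Set.mem_ofPred_eq, Set.mem_singleton_iff]
        constructor
        · intro h
          have h5 := (hi.isMaximal hmap0).eq_of_le W'.isPrime.ne_top (habove W' h)
          exact HeightOneSpectrum.ext h5.symm
        · rintro rfl
          exact RQ26_under w.asIdeal hw _ hi le_rfl
    · left
      refine ⟨?_, ?_⟩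
      · rw [hχ, chiK, if_neg hr, if_neg hi, Int.cast_one]
      · have ht := tri h2 hD w.asIdeal hw hw0
        rw [tri_ram h2 hD w.asIdeal hw hw0, tri_inert h2 hD w.asIdeal hw hw0] at ht
        obtain ⟨W, hWmax, hne, hWm⟩ := (ht.resolve_left hr).resolve_left hi
        have hW : W.IsPrime := hWmax.isPrime
        have hW2 : (W.comap D.s).IsPrime := Ideal.comap_isPrime _ _
        have hW0 : W ≠ ⊥ := by
          rintro rfl
          apply hmap0
          rw [hWm, Ideal.bot_mul]
        have hW20 : W.comap D.s ≠ ⊥ := by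
          intro h
          apply hmap0
          rw [hWm, h, Ideal.mul_bot]
        obtain ⟨hn1, hn2⟩ := RQ26_pair h2 w.asIdeal hw hw0 W _ hW hW2 hWm
        refine ⟨⟨W, hW, hW0⟩, ⟨W.comap D.s, hW2, hW20⟩, ?_, ?_, hn1, hn2⟩
        · intro h
          exact hne (congrArg HeightOneSpectrum.asIdeal h).symm
        · ext W'
          rw [Set.mem_ofPred_eq, Set.mem_insert_iff, Set.mem_singleton_iff]
          constructor
          · intro h
            have h3 := habove W' h
            rw [hWm] at h3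
            rcases W'.isPrime.mul_le.1 h3 with h4 | h4
            · left
              exact HeightOneSpectrum.ext ((hW.isMaximal hW0).eq_of_le W'.isPrime.ne_top h4).symm
            · right
              exact HeightOneSpectrum.ext ((hW2.isMaximal hW20).eq_of_le W'.isPrime.ne_top h4).symm
          · rintro (rfl | rfl)
            · exact RQ26_under w.asIdeal hw W hW (by rw [hWm]; exact Ideal.mul_le_left)
            · exact RQ26_under w.asIdeal hw _ hW2 (by rw [hWm]; exact Ideal.mul_le_right)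

end H55N.RQ
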