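import Mathlib
import Pool.Agent.Lib.H55C.Defs
import Pool.Agent.Lib.H55N.RQ21

open NumberField IsDedekindDomain

namespace H55N.RQ

open H55B H55C

/-! Chunk RQ27 (S/M): ramified primes lie above good primes. Suppose v = w meet O (O the integers of F) is not good and w O' = W^2. W.under O = v (W meet O_K = w: W contains w O', w maximal), so
W.ramificationIdx O = 1 by UnrOut K'. But the ramification index is multiplicative in the tower (Ideal.ramificationIdx_tower or ..._algebra_tower), and the one of W over O_K is 2 (w O' = W^2), contradiction. -/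
theorem good_of_ram {K K' : Type} [Field K] [NumberField K] [Algebra F K] [Field K'] [NumberField K']
    [Algebra F K'] [Algebra K K'] [IsScalarTower F K K'] (hU : UnrOut K') (w : HeightOneSpectrum (𝓞 K))
    (h : RamI K' w.asIdeal) (v : HeightOneSpectrum O) (hv : v.asIdeal = w.asIdeal.under O) :
    H55C.Good v := by
  by_contra hg
  obtain ⟨W, hW, hWm⟩ := h
  have hmap0 : w.asIdeal.map (algebraMap (𝓞 K) (𝓞 K')) ≠ ⊥ := by
    intro h
    rw [Ideal.map_eq_bot_iff_of_injective
      (FaithfulSMul.algebraMap_injective (𝓞 K) (𝓞 K'))] at h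
    exact w.ne_bot h
  have hW0 : W ≠ ⊥ := by
    rintro rfl
    apply hmap0
    rw [hWm]
    exact zero_pow two_ne_zero
  have hunder : W.under (𝓞 K) = w.asIdeal := by
    symm
    apply w.isMaximal.eq_of_le
    · have := Ideal.IsPrime.under (𝓞 K) W
      exact this.ne_top
    · apply Ideal.map_le_iff_le_comap.1
      rw [hWm]
      exact Ideal.pow_le_self two_ne_zero
  have hlies : W.LiesOver w.asIdeal := ⟨hunder.symm⟩
  have hWO : v.asIdeal = W.under O := by
    rw [hv, ← hunder, Ideal.under_under]
  have h1 := hU ⟨W, hW, hW0⟩ v hWO hg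
  have h2 := Ideal.ramificationIdx_tower (R := O) w.asIdeal W
  have h1' : W.ramificationIdx O = 1 := h1
  rw [h1'] at h2
  have h3 : W.ramificationIdx (𝓞 K) = 1 := Nat.eq_one_of_mul_eq_one_left h2.symm
  have h4 : w.asIdeal.ramificationIdx' W = 2 := by
    apply Ideal.ramificationIdx'_spec
    · rw [hWm]
    · rw [hWm]
      intro h5
      have h6 := Ideal.pow_right_strictAnti W hW0 hW.ne_top (Nat.lt_succ_self 2)
      exact absurd h5 (not_le_of_gt h6)
  rw [Ideal.ramificationIdx'_eq_ramificationIdx w.asIdeal W w.ne_bot, h3] at h4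
  norm_num at h4

end H55N.RQ
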