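import Mathlib
import Pool.Agent.Lib.H55N.RQ26
import Pool.Agent.Lib.H55N.RQ27

open NumberField IsDedekindDomain

namespace H55N

open H55B H55C

open Classical UniqueFactorizationMonoid in
/-- The quadratic character on ideals. -/
noncomputable def chiH {K : Type} [Field K] [NumberField K] (K' : Type) [Field K'] [NumberField K']
    [Algebra K K'] : Ideal (𝓞 K) →*₀ ℂ where
  toFun a := if a = 0 then 0 else ((normalizedFactors a).map fun w => (RQ.chiK K' w : ℂ)).prod
  map_zero' := if_pos rfl
  map_one' := by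
    rw [if_neg one_ne_zero, normalizedFactors_one]
    simp
  map_mul' a b := by
    by_cases ha : a = 0
    · simp [ha]
    by_cases hb : b = 0
    · simp [hb]
    rw [if_neg ha, if_neg hb, if_neg (mul_ne_zero ha hb), normalizedFactors_mul ha hb,
      Multiset.map_add, Multiset.prod_add]

open Classical UniqueFactorizationMonoid in
theorem chiH_apply {K : Type} [Field K] [NumberField K] (K' : Type) [Field K'] [NumberField K']
    [Algebra K K'] {a : Ideal (𝓞 K)} (ha : a ≠ 0) :
    chiH K' a = ((normalizedFactors a).map fun w => (RQ.chiK K' w : ℂ)).prod := if_neg ha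

open UniqueFactorizationMonoid in
theorem chiH_prime {K : Type} [Field K] [NumberField K] (K' : Type) [Field K'] [NumberField K']
    [Algebra K K'] (w : HeightOneSpectrum (𝓞 K)) : chiH K' w.asIdeal = (RQ.chiK K' w.asIdeal : ℂ) := by
  rw [chiH_apply K' w.ne_bot, normalizedFactors_irreducible w.irreducible]
  simp

open Classical UniqueFactorizationMonoid in
/-- RECIPROCITY (assembly: helper35): the quadratic character of a quadratic extension. -/
theorem exists_chr (K K' : Type) [Field K] [NumberField K] [Algebra F K] [Field K'] [NumberField K']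
    [Algebra F K'] [Algebra K K'] [IsScalarTower F K K'] (h2 : Module.finrank K K' = 2)
    (hU : UnrOut K') :
    ∃ (f : Ideal (𝓞 K)) (χ : Ideal (𝓞 K) →*₀ ℂ), QChr f χ ∧ SplitChr K K' χ := by
  have hF : ∃ j : K, j ^ 2 = -3 := by
    refine ⟨algebraMap F K (2 * ((om : O) : F) + 1), ?_⟩
    rw [← map_pow]
    have h : ((2 * ((om : O) : F) + 1) ^ 2 : F) = -3 := by
      have h1 : (((om : O) : F) ^ 2 + ((om : O) : F) + 1) = 0 := by
        have := congrArg (algebraMap O F) om_rel
        simpa using this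
      linear_combination 4 * h1
    rw [h, map_neg, map_ofNat]
  obtain ⟨R, hR⟩ : ∃ R : Finset (Ideal (𝓞 K)), ∀ w, w ∈ R ↔ (w.IsMaximal ∧ RQ.RamI K' w) := by
    have h := RQ.ram_finite (K := K) (K' := K') h2
    exact ⟨h.toFinset, fun w => by simp⟩
  have hmax : ∀ w ∈ R, w.IsMaximal := fun w hw => ((hR w).1 hw).1
  have hne : ∀ w ∈ R, w ≠ ⊥ := by
    rintro w hw rfl
    have := hmax _ hw
    exact Ring.ne_bot_of_isMaximal_of_not_isField this (RingOfIntegers.not_isField K) rfl
  have hgood : ∀ (w : HeightOneSpectrum (𝓞 K)) (v : HeightOneSpectrum O), w.asIdeal ∈ R →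
      v.asIdeal = w.asIdeal.under O → H55C.Good v := fun w v hw hv =>
    RQ.good_of_ram hU w ((hR _).1 hw).2 v hv
  have hodd : ∀ w ∈ R, (2 : 𝓞 K) ∉ w := by
    intro w hw h
    let w' : HeightOneSpectrum (𝓞 K) := ⟨w, (hmax w hw).isPrime, hne w hw⟩
    have hu : w.under O ≠ ⊥ := by
      exact Ideal.under_ne_bot (A := O) (hne w hw)
    let v : HeightOneSpectrum O := ⟨w.under O, by
      have := (hmax w hw).isPrime
      exact Ideal.comap_isPrime _ _, hu⟩
    have hv : H55C.Good v := hgood w' v hw rfl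
    apply hv.1
    change (algebraMap O (𝓞 K)) 2 ∈ w
    rw [map_ofNat]
    exact h
  have hrec := RQ.recip hF h2 R hR hodd
  let f : Ideal (𝓞 K) := ∏ w ∈ R, w
  have hcop : ∀ a : Ideal (𝓞 K), IsCoprime a f ↔ ∀ w ∈ R, ¬ a ≤ w := by
    intro a
    rw [IsCoprime.prod_right_iff]
    constructor
    · intro h w hw hle
      have := h w hw
      rw [Ideal.isCoprime_iff_sup_eq, sup_eq_right.2 hle] at this
      exact (hmax w hw).ne_top this
    · intro h w hw
      rw [Ideal.isCoprime_iff_sup_eq]
      by_contra hc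
      have := (hmax w hw).eq_of_le hc le_sup_right
      exact h w hw (this ▸ le_sup_left)
  have hmemf : ∀ x : 𝓞 K, x ∈ f → ∀ w ∈ R, x ∈ w := by
    intro x hx w hw
    exact (Ideal.prod_le_inf.trans (Finset.inf_le hw)) hx
  have hchi0 : ∀ w ∈ R, RQ.chiK K' w = 0 := by
    intro w hw
    unfold RQ.chiK
    rw [if_pos ((hR w).1 hw).2]
  have hchi1 : ∀ w : Ideal (𝓞 K), w.IsMaximal → w ∉ R → RQ.chiK K' w = 1 ∨ RQ.chiK K' w = -1 := by
    intro w hw hwR
    unfold RQ.chiK
    rw [if_neg fun h => hwR ((hR w).2 ⟨hw, h⟩)]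
    split_ifs
    · right; rfl
    · left; rfl
  have hmaxf : ∀ {a w : Ideal (𝓞 K)}, a ≠ 0 → w ∈ normalizedFactors a → w.IsMaximal := by
    intro a w ha hw
    have hp := prime_of_normalized_factor w hw
    exact (Ideal.isPrime_of_prime hp).isMaximal hp.ne_zero
  refine ⟨f, chiH K', ?_, RQ.split_law h2 _ fun w => chiH_prime K' w⟩
  refine ⟨?_, ?_, ?_, ?_, ?_⟩
  · exact Finset.prod_ne_zero_iff.2 hne
  · intro w v hw hv
    apply hgood w v _ hv
    have h1 : ¬ IsCoprime w.asIdeal f := by
      rw [Ideal.isCoprime_iff_sup_eq, sup_eq_left.2 hw]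
      exact w.isPrime.ne_top
    rw [hcop] at h1
    push Not at h1
    obtain ⟨w1, hw1, hle⟩ := h1
    have : w.asIdeal = w1 := w.isMaximal.eq_of_le (hmax w1 hw1).ne_top hle
    rw [this]
    exact hw1
  · intro a ha hco
    rw [chiH_apply K' ha]
    rw [hcop] at hco
    have h1 : ∀ w ∈ normalizedFactors a, RQ.chiK K' w = 1 ∨ RQ.chiK K' w = -1 := by
      intro w hw
      apply hchi1 w (hmaxf ha hw)
      intro hwR
      exact hco w hwR (Ideal.le_of_dvd (dvd_of_mem_normalizedFactors hw))
    generalize normalizedFactors a = s at h1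
    induction s using Multiset.induction_on with
    | empty => left; simp
    | cons w s ih =>
      rw [Multiset.map_cons, Multiset.prod_cons]
      have h2 := h1 w (Multiset.mem_cons_self _ _)
      rcases ih fun w' hw' => h1 w' (Multiset.mem_cons_of_mem hw') with h3 | h3 <;>
      rcases h2 with h2 | h2 <;> rw [h2, h3] <;> simp
  · intro a hco
    by_cases ha : a = 0
    · rw [ha, map_zero]
    rw [hcop] at hco
    push Not at hco
    obtain ⟨w, hw, hle⟩ := hco
    rw [chiH_apply K' ha]
    apply Multiset.prod_eq_zero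
    rw [Multiset.mem_map]
    refine ⟨w, ?_, by rw [hchi0 w hw, Int.cast_zero]⟩
    have hwp : Prime w := Ideal.prime_of_isPrime (hne w hw) (hmax w hw).isPrime
    rw [mem_normalizedFactors_iff ha]
    exact ⟨hwp, Ideal.dvd_iff_le.2 hle⟩
  · intro x y hx hy hco hxy
    have hx0 : (Ideal.span {x} : Ideal (𝓞 K)) ≠ 0 := by
      rw [Ne, Ideal.zero_eq_bot, Ideal.span_singleton_eq_bot]; exact hx
    have hy0 : (Ideal.span {y} : Ideal (𝓞 K)) ≠ 0 := by
      rw [Ne, Ideal.zero_eq_bot, Ideal.span_singleton_eq_bot]; exact hy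
    rw [hcop] at hco
    have hxw : ∀ w ∈ R, x ∉ w := fun w hw h => hco w hw (by rwa [Ideal.span_singleton_le_iff_mem])
    have hyw : ∀ w ∈ R, y ∉ w := fun w hw h => hxw w hw (by
      have := hmemf _ hxy w hw
      have h3 := w.add_mem this h
      rwa [sub_add_cancel] at h3)
    have hcast : ∀ a : Ideal (𝓞 K), a ≠ 0 → chiH K' a =
        ((((normalizedFactors a).map (RQ.chiK K')).prod : ℤ) : ℂ) := by
      intro a ha
      rw [chiH_apply K' ha]
      change _ = Int.castRingHom ℂ _
      rw [map_multiset_prod, Multiset.map_map]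
      rfl
    rw [hcast _ hx0, hcast _ hy0, hrec x hx hxw, hrec y hy hyw]
    congr 1
    apply Finset.prod_congr rfl
    intro w hw
    unfold RQ.qs
    have h4 := hmemf _ hxy w hw
    congr 1
    apply propext
    constructor
    · rintro ⟨t, ht⟩
      refine ⟨t, ?_⟩
      have := w.sub_mem ht h4
      have h5 : x - t ^ 2 - (x - y) = y - t ^ 2 := by ring
      rwa [h5] at this
    · rintro ⟨t, ht⟩
      refine ⟨t, ?_⟩
      have := w.add_mem ht h4
      have h5 : y - t ^ 2 + (x - y) = x - t ^ 2 := by ring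
      rwa [h5] at this

end H55N
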