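import Mathlib
import Pool.Agent.Lib.H55C.BSDTwo
import Pool.Agent.Lib.H55D.S1
import Pool.Agent.Lib.H55D.S2

open NumberField IsDedekindDomain Polynomial

namespace H55N

open H55B H55C

/-! Chunk DS: descent of the Selmer group in a Galois extension K'/K, where K' does not contain a cube root of 2. Let m be in Sel K. Its image m' in
Cub K' is in Sel K', so m' = b^2. For s in Gal(K'/K) acting on the coefficients, (s b)^2 = b^2, so s b = chi(s) b with chi(s) = 1 or -1. Let z be a nonzero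
coefficient of b; then s z = chi(s) z, so the coefficients of c = b / z and d = z^2 are in K, m = d c^2, and the norm n^2 = d^3 (norm c)^2 shows that d is a square in K. -/
theorem selTwo_desc (K K' : Type) [Field K] [NumberField K] [Field K'] [NumberField K'] [Algebra K K']
    [IsGalois K K'] (h3 : ∀ x : K', x ^ 3 ≠ 2) (h : SelTwo K') : SelTwo K := by
  obtain ⟨h1, h2, h2'⟩ := h
  refine ⟨?_, H55D.points_sub K K' h2 h2'⟩
  intro m hm
  obtain ⟨b, hb⟩ := h1 _ (H55D.DS2_sel K K' m hm)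
  obtain ⟨hu, ⟨n, hn⟩, -⟩ := hm
  have hirr : Fact (Irreducible (X ^ 3 - C 2 : K'[X])) :=
    ⟨X_pow_sub_C_irreducible_of_prime Nat.prime_three h3⟩
  have hm0 : m ≠ 0 := by
    intro h0
    have h6 := hu.map (Algebra.norm K)
    rw [h0, ← map_zero (AdjoinRoot.of (X ^ 3 - C 2 : K[X])), H55D.DS2_norm_of] at h6
    rw [zero_pow three_ne_zero] at h6
    exact not_isUnit_zero h6
  obtain ⟨b₁, b₂, b₃, hb'⟩ := H55D.DS2_span b
  have hsb : ∀ s : K' ≃ₐ[K] K', ∃ ε : K', (ε = 1 ∨ ε = -1) ∧ s b₁ = ε * b₁ ∧ s b₂ = ε * b₂ ∧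
      s b₃ = ε * b₃ := by
    intro s
    have hgf : cmap (s : K' →+* K') (cmap (algebraMap K K') m) = cmap (algebraMap K K') m :=
      H55D.DS2_comp _ _ _ (fun x => s.commutes x) m
    have hsq : (cmap (s : K' →+* K') b) ^ 2 = b ^ 2 := by
      rw [← map_pow, ← hb, hgf]
    have h0 : (cmap (s : K' →+* K') b - b) * (cmap (s : K' →+* K') b + b) = 0 := by
      linear_combination hsq
    have key : ∀ ε : K', cmap (s : K' →+* K') b = AdjoinRoot.of _ ε * b →
        s b₁ = ε * b₁ ∧ s b₂ = ε * b₂ ∧ s b₃ = ε * b₃ := by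
      intro ε hε
      rw [hb', H55D.DS2_map] at hε
      have h4 : (AdjoinRoot.of _ (s b₁ - ε * b₁) + AdjoinRoot.of _ (s b₂ - ε * b₂) *
          AdjoinRoot.root _ + AdjoinRoot.of _ (s b₃ - ε * b₃) * AdjoinRoot.root _ ^ 2 :
          Cub K') = 0 := by
        rw [map_sub, map_sub, map_sub, map_mul, map_mul, map_mul]
        have hε' : (AdjoinRoot.of _ (s b₁) + AdjoinRoot.of _ (s b₂) * AdjoinRoot.root _ +
          AdjoinRoot.of _ (s b₃) * AdjoinRoot.root _ ^ 2 : Cub K') =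
          AdjoinRoot.of _ ε * (AdjoinRoot.of _ b₁ +
          AdjoinRoot.of _ b₂ * AdjoinRoot.root _ + AdjoinRoot.of _ b₃ * AdjoinRoot.root _ ^ 2) := hε
        linear_combination hε'
      obtain ⟨h5, h6, h7⟩ := H55D.DS2_indep _ _ _ h4
      exact ⟨sub_eq_zero.1 h5, sub_eq_zero.1 h6, sub_eq_zero.1 h7⟩
    rcases mul_eq_zero.1 h0 with h4 | h4
    · refine ⟨1, Or.inl rfl, key 1 ?_⟩
      rw [map_one, one_mul]
      exact sub_eq_zero.1 h4
    · refine ⟨-1, Or.inr rfl, key (-1) ?_⟩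
      rw [map_neg, map_one, neg_one_mul]
      exact eq_neg_of_add_eq_zero_left h4
  have hz : ∃ z : K', z ≠ 0 ∧ ∀ s : K' ≃ₐ[K] K', ∃ ε : K', (ε = 1 ∨ ε = -1) ∧ s z = ε * z ∧
      s b₁ = ε * b₁ ∧ s b₂ = ε * b₂ ∧ s b₃ = ε * b₃ := by
    by_cases h4 : b₁ = 0
    · by_cases h5 : b₂ = 0
      · by_cases h6 : b₃ = 0
        · exfalso
          apply hm0
          apply H55D.DS2_inj (algebraMap K K')
          rw [hb, hb', h4, h5, h6]
          simp
        · refine ⟨b₃, h6, fun s => ?_⟩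
          obtain ⟨ε, e1, e2, e3, e4⟩ := hsb s
          exact ⟨ε, e1, e4, e2, e3, e4⟩
      · refine ⟨b₂, h5, fun s => ?_⟩
        obtain ⟨ε, e1, e2, e3, e4⟩ := hsb s
        exact ⟨ε, e1, e3, e2, e3, e4⟩
    · refine ⟨b₁, h4, fun s => ?_⟩
      obtain ⟨ε, e1, e2, e3, e4⟩ := hsb s
      exact ⟨ε, e1, e2, e2, e3, e4⟩
  obtain ⟨z, hz0, hz⟩ := hz
  have hfix : ∀ x : K', (∀ s : K' ≃ₐ[K] K', s x = x) → ∃ y : K, algebraMap K K' y = x := by
    intro x hx
    exact (IsGalois.mem_range_algebraMap_iff_fixed x).2 hx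
  have hq : ∀ x : K', (∀ s : K' ≃ₐ[K] K', ∃ ε : K', (ε = 1 ∨ ε = -1) ∧ s z = ε * z ∧
      s x = ε * x) → ∃ y : K, algebraMap K K' y = x / z := by
    intro x hx
    apply hfix
    intro s
    obtain ⟨ε, e1, e2, e3⟩ := hx s
    have hε : ε ≠ 0 := by
      rcases e1 with rfl | rfl
      · exact one_ne_zero
      · exact neg_ne_zero.2 one_ne_zero
    rw [map_div₀, e2, e3, mul_div_mul_left _ _ hε]
  obtain ⟨c₁, hc₁⟩ := hq b₁ (fun s => by
    obtain ⟨ε, e1, e0, e2, e3, e4⟩ := hz s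
    exact ⟨ε, e1, e0, e2⟩)
  obtain ⟨c₂, hc₂⟩ := hq b₂ (fun s => by
    obtain ⟨ε, e1, e0, e2, e3, e4⟩ := hz s
    exact ⟨ε, e1, e0, e3⟩)
  obtain ⟨c₃, hc₃⟩ := hq b₃ (fun s => by
    obtain ⟨ε, e1, e0, e2, e3, e4⟩ := hz s
    exact ⟨ε, e1, e0, e4⟩)
  obtain ⟨d, hd⟩ := hfix (z ^ 2) (fun s => by
    obtain ⟨ε, e1, e0, -⟩ := hz s
    rw [map_pow, e0, mul_pow]
    rcases e1 with rfl | rfl
    · ring
    · ring)
  set c : Cub K := AdjoinRoot.of _ c₁ + AdjoinRoot.of _ c₂ * AdjoinRoot.root _ +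
    AdjoinRoot.of _ c₃ * AdjoinRoot.root _ ^ 2 with hc
  have hcz : AdjoinRoot.of _ z * cmap (algebraMap K K') c = b := by
    rw [hc, H55D.DS2_map, hc₁, hc₂, hc₃, hb']
    have e1 : ∀ x : K', AdjoinRoot.of (X ^ 3 - C 2 : K'[X]) z * AdjoinRoot.of _ (x / z) =
        AdjoinRoot.of _ x := by
      intro x
      rw [← map_mul, mul_div_cancel₀ _ hz0]
    linear_combination e1 b₁ + AdjoinRoot.root _ * e1 b₂ + AdjoinRoot.root _ ^ 2 * e1 b₃
  have hmd : m = AdjoinRoot.of _ d * c ^ 2 := by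
    rw [← sub_eq_zero]
    apply H55D.DS2_inj (algebraMap K K')
    rw [map_sub, map_mul, map_pow, H55D.DS2_of, hb, ← hcz, mul_pow, hd, map_pow, sub_self]
  have h4 := congrArg (Algebra.norm K) hmd
  rw [map_mul, map_pow, H55D.DS2_norm_of, hn] at h4
  set N : K := Algebra.norm K c with hN
  have hd0 : d ≠ 0 := by
    rintro rfl
    rw [map_zero] at hd
    exact pow_ne_zero 2 hz0 hd.symm
  have hn0 : n ≠ 0 := by
    intro h5
    have h6 := hu.map (Algebra.norm K)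
    rw [hn, h5, zero_pow two_ne_zero] at h6
    exact not_isUnit_zero h6
  have hN0 : N ≠ 0 := by
    intro h5
    rw [h5] at h4
    apply hn0
    have : n ^ 2 = 0 := by rw [h4]; ring
    exact pow_eq_zero_iff two_ne_zero |>.1 this
  have hdq : d = (n / (d * N)) ^ 2 := by
    rw [div_pow, h4]
    field_simp
  refine ⟨AdjoinRoot.of _ (n / (d * N)) * c, ?_⟩
  rw [mul_pow, ← map_pow, ← hdq]
  exact hmd

end H55N
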