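import Mathlib
import Pool.Agent.Lib.H55C.A19
import Pool.Agent.Lib.H55N.DS
import Pool.Agent.Lib.H55N.H0

open NumberField IsDedekindDomain

namespace H55N

open H55B H55C

/-! Chunk DS0 (S). no_cbrt: H55C.a5_no_cube. selTwo_sub: L = the Galois 2-extension, SelTwo L by partA (H55C.A19), L/K is Galois, selTwo_desc. -/

theorem no_cbrt (K : Type) [Field K] [NumberField K] [Algebra F K] (k : ℕ)
    (hk : Module.finrank F K = 2 ^ k) (x : K) : x ^ 3 ≠ 2 :=
  a5_no_cube K k hk x

theorem selTwo_sub (K : Type) [Field K] [NumberField K] [Algebra F K] (h : Sub2 K) : SelTwo K := by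
  obtain ⟨L, _, _, _, _, _, ⟨hG, k, hk⟩, hU⟩ := h
  have hGL : IsGalois K L := IsGalois.tower_top_of_isGalois F K L
  exact selTwo_desc K L (no_cbrt L k hk) (partA L hG k hk hU)

end H55N
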