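import Mathlib
import Pool.Agent.Lib.H55N.H1
import Pool.Agent.Lib.H55N.H3
import Pool.Agent.Lib.H55N.H6
import Pool.Agent.Lib.H55N.H9
import Pool.Agent.Lib.H55C.B9

open NumberField IsDedekindDomain

namespace H55N

open H55B H55C

/-- Chunk H10 (S), the quadratic step: Lam' = Lam * Lam_chi. For Re s > 3/2 the series of Psi K' over the ideals converges absolutely
(tm_summable, Psi_norm_le), its sum is the sum of the Dirichlet series of AI (Psi K') (AI_LSeries), which is the product of
those of AI (Psi K) and AI (Psi K * chi) (AI_step, ArithmeticFunction.LSeriesHasSum_mul; |chi| <= 1 by QChr). Value at 1: Unit2.mul,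
finrank F K' = finrank F K + finrank F K. -/
theorem LV_of_step (K K' : Type) [Field K] [NumberField K] [Algebra F K] [Field K'] [NumberField K']
    [Algebra F K'] [Algebra K K'] [IsScalarTower F K K'] (h2 : Module.finrank K K' = 2)
    (f : Ideal (𝓞 K)) (χ : Ideal (𝓞 K) →*₀ ℂ) (hf : QChr f χ) (hχ : SplitChr K K' χ)
    (h1 : LV (Psi K)) (h1' : LV (Psi K * χ)) : LV (Psi K') := by
  obtain ⟨Λ₁, ha1, hs1, hu1⟩ := h1
  obtain ⟨Λ₂, ha2, hs2, hu2⟩ := h1'
  refine ⟨fun s => Λ₁ s * Λ₂ s, fun s hs => (ha1 s hs).mul (ha2 s hs), fun s hs => ?_, ?_⟩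
  · have hsum := tm_summable (Psi K') (fun a => Psi_norm_le a) s hs
    have hL := AI_LSeries (Psi K') (Psi K').map_zero s hsum
    have hsum1 := tm_summable (Psi K) (fun a => Psi_norm_le a) s hs
    have hL1 := AI_LSeries (Psi K) (Psi K).map_zero s hsum1
    have hb : ∀ a : Ideal (𝓞 K), ‖(Psi K * χ : Ideal (𝓞 K) →*₀ ℂ) a‖ ^ 2 ≤ Ideal.absNorm a := by
      intro a
      refine le_trans ?_ (Psi_norm_le a)
      have h3 : ‖χ a‖ ≤ 1 := by
        by_cases ha : a = ⊥
        · have : χ ⊥ = 0 := χ.map_zero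
          rw [ha, this, norm_zero]
          exact zero_le_one
        · by_cases hc : IsCoprime a f
          · rcases hf.val a ha hc with h | h <;> rw [h] <;> simp
          · rw [hf.zero a hc, norm_zero]
            exact zero_le_one
      have h4 : (Psi K * χ : Ideal (𝓞 K) →*₀ ℂ) a = Psi K a * χ a := rfl
      rw [h4, norm_mul, mul_pow]
      exact mul_le_of_le_one_right (by positivity) (pow_le_one₀ (norm_nonneg _) h3)
    have hsum2 := tm_summable (Psi K * χ : Ideal (𝓞 K) →*₀ ℂ) hb s hs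
    have hL2 := AI_LSeries (Psi K * χ : Ideal (𝓞 K) →*₀ ℂ)
      (Psi K * χ : Ideal (𝓞 K) →*₀ ℂ).map_zero s hsum2
    have hL3 := ArithmeticFunction.LSeriesHasSum_mul hL1 hL2
    rw [← AI_step K K' χ hχ] at hL3
    have h5 : ∑' a, tm (Psi K') s a = Λ₁ s * Λ₂ s := by
      rw [hL.unique hL3, (hs1 s hs).tsum_eq, (hs2 s hs).tsum_eq]
    show HasSum (tm (Psi K') s) (Λ₁ s * Λ₂ s)
    rw [← h5]
    exact hsum.of_norm.hasSum
  · have h3 : Module.finrank F K' = Module.finrank F K + Module.finrank F K := by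
      rw [← Module.finrank_mul_finrank F K K', h2]; ring
    rw [h3, pow_add, mul_div_mul_comm]
    exact hu1.mul hu2

end H55N
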