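import Mathlib
import Pool.Agent.Lib.H55N.H0

open NumberField IsDedekindDomain

namespace H55N

open H55B H55C

/-- Chunk T1 (M), the tower. Let L be the Galois 2-extension containing K' and G = Gal(L/F), H' = Gal(L/K') (the fixing subgroup of the image
of K' in L), H' is not G. In a finite 2-group there is a subgroup H containing H' with index 2 (H' is properly contained in its normalizer
(normalizerCondition, nilpotent groups: IsPGroup.isNilpotent); take an element of order 2 in N(H')/H', Cauchy). K1 = the fixed field of H, as a subfield of
L it is contained in the image of K' (Galois correspondence), [K':K1] = 2. K = the type of the intermediate field K1 of L/F (or its preimage as an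
intermediate field of K'/F: then Algebra K K' and the tower are automatic, K := the intermediate field of K'/F of all x with image in K1, degree 2).
Sub2 K: the same L, with Algebra K L the composite (Algebra.compHom or RingHom.toAlgebra), scalar towers. -/
theorem exists_sub (K' : Type) [Field K'] [NumberField K'] [Algebra F K'] (hS : Sub2 K')
    (hn : Module.finrank F K' ≠ 1) :
    ∃ (K : Type) (_ : Field K) (_ : NumberField K) (_ : Algebra F K) (_ : Algebra K K')
      (_ : IsScalarTower F K K'), Sub2 K ∧ Module.finrank K K' = 2 := by
  obtain ⟨L, _, _, _, _, _, ⟨hG, k, hk⟩, hU⟩ := hS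
  have : FiniteDimensional F L := Module.finite_of_finrank_pos (by rw [hk]; positivity)
  let f : K' →ₐ[F] L := IsScalarTower.toAlgHom F K' L
  let M' : IntermediateField F L := f.fieldRange
  let E : K' ≃ₐ[F] M' := AlgEquiv.ofInjectiveField f
  have h1 : Module.finrank F M' = Module.finrank F K' := E.toLinearEquiv.finrank_eq.symm
  have h2 : Module.finrank F M' * Module.finrank M' L = 2 ^ k := by
    rw [Module.finrank_mul_finrank, hk]
  obtain ⟨j, hj, hj2⟩ := (Nat.dvd_prime_pow Nat.prime_two).1
    (Dvd.intro_left _ h2 : Module.finrank M' L ∣ 2 ^ k)
  have h3 : Nat.card M'.fixingSubgroup = 2 ^ j := by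
    rw [IsGalois.card_fixingSubgroup_eq_finrank, hj2]
  have hcardG : Nat.card (L ≃ₐ[F] L) = 2 ^ k := by
    rw [IsGalois.card_aut_eq_finrank, hk]
  have hjk : j < k := by
    rcases lt_or_eq_of_le hj with h | h
    · exact h
    · exfalso
      apply hn
      rw [hj2, h, h1] at h2
      have h4 : (0 : ℕ) < 2 ^ k := by positivity
      exact Nat.eq_of_mul_eq_mul_right h4 (by rw [one_mul]; exact h2)
  have := Fact.mk Nat.prime_two
  obtain ⟨H, hH, hle⟩ := Sylow.exists_subgroup_card_pow_succ (p := 2) (G := L ≃ₐ[F] L) (n := j)
    (by rw [hcardG]; exact pow_dvd_pow 2 hjk) h3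
  let M : IntermediateField F L := IntermediateField.fixedField H
  have hM : M ≤ M' := by
    intro x hx
    rw [← IsGalois.fixedField_fixingSubgroup M', IntermediateField.mem_fixedField_iff]
    intro σ hσ
    exact (IntermediateField.mem_fixedField_iff H x).1 hx σ (hle hσ)
  let N : IntermediateField F K' := M.comap f
  have hN : N.map f = M := by
    ext x
    constructor
    · rintro ⟨y, hy, rfl⟩
      exact hy
    · intro hx
      obtain ⟨y, hy⟩ := hM hx
      have hy' : f y = x := hy
      refine ⟨y, ?_, hy⟩
      show f y ∈ M
      rw [hy']
      exact hx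
  have h5 : Module.finrank F N = Module.finrank F M := by
    rw [← hN]
    exact (IntermediateField.equivMap N f).toLinearEquiv.finrank_eq
  have h6 : Module.finrank M L = 2 ^ (j + 1) := by
    rw [IntermediateField.finrank_fixedField_eq_card, hH]
  have h7 : Module.finrank F M * Module.finrank M L = 2 ^ k := by
    rw [Module.finrank_mul_finrank, hk]
  have h8 : Module.finrank F N * Module.finrank N K' = Module.finrank F K' :=
    Module.finrank_mul_finrank F N K'
  have h9 : Module.finrank N K' = 2 := by
    rw [h5] at h8
    rw [h1, hj2, ← h8] at h2
    rw [h6] at h7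
    have h10 : 0 < Module.finrank F M := Module.finrank_pos
    have h11 : Module.finrank F M * 2 ^ j * Module.finrank N K' =
        Module.finrank F M * 2 ^ j * 2 := by
      calc _ = Module.finrank F M * Module.finrank N K' * 2 ^ j := by ring
        _ = 2 ^ k := h2
        _ = Module.finrank F M * 2 ^ (j + 1) := h7.symm
        _ = _ := by rw [pow_succ]; ring
    exact Nat.eq_of_mul_eq_mul_left (by positivity) h11
  refine ⟨N, inferInstance, inferInstance, inferInstance, inferInstance, inferInstance,
    ⟨L, inferInstance, inferInstance, inferInstance, inferInstance, inferInstance, ⟨hG, k, hk⟩, hU⟩,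
    h9⟩

end H55N
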