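import Mathlib
import Pool.Agent.Lib.H55C.W13
import Pool.Agent.Lib.H55N.DS0
import Pool.Agent.Lib.H55N.H10
import Pool.Agent.Lib.H55N.H8
import Pool.Agent.Lib.H55N.RQFin
import Pool.Agent.Lib.H55N.T1
import Pool.Agent.Lib.H55N.T2
import Pool.Agent.Lib.H55N.TWF

open NumberField IsDedekindDomain

namespace H55N

open H55B H55C

/-! Induction over the tower and the theorem (helper19). -/

theorem LV_step (K K' : Type) [Field K] [NumberField K] [Algebra F K] [Field K'] [NumberField K']
    [Algebra F K'] [Algebra K K'] [IsScalarTower F K K'] (h2 : Module.finrank K K' = 2)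
    (hS : Sub2 K) (hU' : UnrOut K') (h : LV (Psi K)) : LV (Psi K') := by
  obtain ⟨f, χ, hf, hχ⟩ := exists_chr K K' h2 hU'
  exact LV_of_step K K' h2 f χ hf hχ h (LV_twist hS f χ hf h)

theorem LV_all (k : ℕ) : ∀ (K : Type) [Field K] [NumberField K] [Algebra F K], Sub2 K →
    Module.finrank F K = 2 ^ k → LV (Psi K) := by
  induction k with
  | zero =>
    intro K _ _ _ _ hk
    exact LV_base K (by rw [hk, pow_zero])
  | succ k ih =>
    intro K' _ _ _ hS hk
    obtain ⟨K, i1, i2, i3, i4, i5, hSK, h2⟩ := exists_sub K' hS (by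
      rw [hk]
      have := Nat.one_le_two_pow (n := k)
      rw [pow_succ]
      omega)
    have h3 : Module.finrank F K = 2 ^ k := by
      have h4 := Module.finrank_mul_finrank F K K'
      rw [h2, hk, pow_succ] at h4
      exact Nat.eq_of_mul_eq_mul_right (by norm_num) h4
    exact LV_step K K' h2 hSK hS.unr (ih K hSK h3)

/-- shaAn_unit of H55C without the hypothesis that K/F is Galois. -/
theorem shaAn_unitN (K : Type) [Field K] [NumberField K] [Algebra F K] (hK : UnrOut K)
    (hE : Odd (Nat.card (E27.baseChange K).toAffine.Point)) (L1 : ℂ)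
    (hL : Unit2 (L1 / (R (e om - 1) * (starRingEnd ℂ) (R (e om - 1))) ^ Module.finrank F K))
    (L : PeriodPair) (h2 : L.g₂ = 0) (h3 : L.g₃ = -1) : Unit2 (shaAn K L L1) := by
  obtain ⟨X, hR0, -⟩ := exists_X
  rw [← complex_places] at hL
  have hp := period_unit L h2 h3
  have hc : R (e om - 1) * (starRingEnd ℂ) (R (e om - 1)) ≠ 0 :=
    mul_ne_zero hR0 ((map_ne_zero _).2 hR0)
  have hE' := (W13_nat hE).pow 2
  have hs := W13_sqrt _ (odd_discr K hK)
  have ht := W13_tam K hK
  have hall := W13_div ((((hL.mul (hp.pow (InfinitePlace.nrComplexPlaces K))).mul hs).mul hE')) ht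
  have heq : shaAn K L L1 = L1 / (R (e om - 1) * (starRingEnd ℂ) (R (e om - 1))) ^
      InfinitePlace.nrComplexPlaces K *
      (R (e om - 1) * (starRingEnd ℂ) (R (e om - 1)) / (Om L : ℂ)) ^
        InfinitePlace.nrComplexPlaces K * ((Real.sqrt |(NumberField.discr K : ℝ)| : ℝ) : ℂ) *
      (Nat.card (E27.baseChange K).toAffine.Point : ℂ) ^ 2 /
      (∏ᶠ w : HeightOneSpectrum (𝓞 K), (tam K w : ℂ)) := by
    unfold shaAn
    have hc' := pow_ne_zero (InfinitePlace.nrComplexPlaces K) hc
    rw [div_pow, div_mul_div_comm, mul_comm (_ ^ _) ((Om L : ℂ) ^ _),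
      mul_div_mul_right _ _ hc']
    rw [← div_div]
    congr 1
    ring
  rw [heq]
  exact hall

/-- THEOREM N, for all subfields of Galois 2-extensions unramified outside the good primes. -/
theorem bsdTwo_sub (K : Type) [Field K] [NumberField K] [Algebra F K] (hS : Sub2 K) :
    BSDTwo K := by
  obtain ⟨k, hk⟩ := hS.degree
  have hsel := selTwo_sub K hS
  obtain ⟨Λ, a1, a2, a3, a4⟩ := L_valN K hS.unr (LV_all k K hS hk)
  exact ⟨hsel, period_exists, Λ, a1, a2, a3,
    fun L g2 g3 => shaAn_unitN K hS.unr hsel.2.2 (Λ 1) a4 L g2 g3⟩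

/-- THEOREM N for Galois extensions. -/
theorem bsdTwo (K : Type) [Field K] [NumberField K] [Algebra F K] (hT : TwoExt K)
    (hU : UnrOut K) : BSDTwo K := bsdTwo_sub K (Sub2.of_twoExt hT hU)

end H55N
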