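import Mathlib
import Pool.Agent.Lib.H55C.Final
import Pool.Agent.Lib.H55D.Fin2
import Pool.Agent.Lib.H55D.X4
import Pool.Agent.Lib.H55N.WR9

open NumberField IsDedekindDomain

namespace H55N

open H55B H55C H55D

/-- K is a subfield of a Galois extension L of F of 2-power degree which is unramified outside the
good primes. -/
def InTwo (K : Type) [Field K] [NumberField K] : Prop :=
  ∃ (L : Type) (_ : Field L) (_ : NumberField L) (_ : Algebra F L) (_ : Algebra K L),
    TwoExt L ∧ UnrOut L

/-- The general theorem: the conjecture (rank part and 2-part) for all fields of the class. -/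
theorem bsd2_all (K : Type) [Field K] [NumberField K] (h : InTwo K) : BSD2 K := by
  obtain ⟨L, _, _, _, _, hT, hU⟩ := h
  have hz := X3_z_root L
  by_cases hm : X3_z L ∈ (⊥ : IntermediateField K L)
  · -- K contains F
    have hr := X3_range K L ⊥ hm
    let ψ : F →+* (⊥ : IntermediateField K L) := (algebraMap F L).codRestrict _ hr
    let φ : F →+* K := (IntermediateField.botEquiv K L : _ →+* K).comp ψ
    let _ : Algebra F K := φ.toAlgebra
    have hst : IsScalarTower F K L := IsScalarTower.of_algebraMap_eq (fun x => by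
      show algebraMap F L x = algebraMap K L (IntermediateField.botEquiv K L (ψ x))
      have h1 := (IntermediateField.botEquiv K L).symm_apply_apply (ψ x)
      have h2 := congrArg (fun y : (⊥ : IntermediateField K L) => (y : L)) h1
      exact h2.symm)
    exact mainF K ⟨L, inferInstance, inferInstance, inferInstance, inferInstance, hst, hT, hU⟩
  · -- K does not contain F
    have hnr : ∀ x : K, x ^ 2 + x + 1 ≠ 0 := by
      intro x hx
      apply hm
      have h := congrArg (algebraMap K L) hx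
      simp only [map_add, map_pow, map_one, map_zero] at h
      have h1 : (X3_z L - algebraMap K L x) * (X3_z L + algebraMap K L x + 1) = 0 := by
        linear_combination hz - h
      rcases mul_eq_zero.1 h1 with h2 | h2
      · rw [sub_eq_zero.1 h2]
        exact (⊥ : IntermediateField K L).algebraMap_mem x
      · have h3 : X3_z L = algebraMap K L (-x - 1) := by
          rw [map_sub, map_neg, map_one]
          linear_combination h2
        rw [h3]
        exact (⊥ : IntermediateField K L).algebraMap_mem _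
    let E : IntermediateField K L := IntermediateField.adjoin K {X3_z L}
    have hmem : X3_z L ∈ E := IntermediateField.mem_adjoin_simple_self K _
    have hint : ∀ x ∈ ({X3_z L} : Set L), IsIntegral K x := by
      rintro x rfl
      refine ⟨Polynomial.X ^ 2 + Polynomial.X + 1, by monicity!, ?_⟩
      simp only [Polynomial.eval₂_add, Polynomial.eval₂_pow, Polynomial.eval₂_X,
        Polynomial.eval₂_one]
      exact hz
    have hEfin : FiniteDimensional K E := IntermediateField.finiteDimensional_adjoin hint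
    have hnf : NumberField E := NumberField.of_module_finite K E
    let ψ : F →+* E := (algebraMap F L).codRestrict E (X3_range K L E hmem)
    let hFE : Algebra F E := ψ.toAlgebra
    have hFEL : IsScalarTower F E L := IsScalarTower.of_algebraMap_eq (fun x => rfl)
    exact main0 K E ⟨X3_rank K L _ hz hnr, hnr⟩
      ⟨L, inferInstance, inferInstance, inferInstance, inferInstance, hFEL, hT, hU⟩

/-- Fields Galois over ℚ. -/
theorem inTwo_of_rat (K : Type) [Field K] [NumberField K] (hG : IsGalois ℚ K)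
    (hk : ∃ k : ℕ, Module.finrank ℚ K = 2 ^ k) (hU : UnrQ K) : InTwo K := by
  obtain ⟨k, hk⟩ := hk
  obtain ⟨L, hL1, hL2, hL3, hL4, -, hT, hUL⟩ := of_rat K hG k hk hU
  exact ⟨L, hL1, hL2, hL3, hL4, hT, hUL⟩

/-- K/F is Galois of 2-power degree, unramified outside the good primes, and all ramified primes have
norm greater than B. -/
def Two (K : Type) [Field K] [NumberField K] [Algebra F K] (B : ℕ) : Prop :=
  TwoExt K ∧ UnrOut K ∧ ∀ w : HeightOneSpectrum (𝓞 K), w.asIdeal.ramificationIdx O ≠ 1 →
    B < Ideal.absNorm w.asIdeal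

/-- K/ℚ is Galois of 2-power degree, unramified outside the prime numbers l = 1 mod 3 modulo which 2 is
not a cube. -/
def TwoQ (K : Type) [Field K] [NumberField K] : Prop :=
  IsGalois ℚ K ∧ (∃ k : ℕ, Module.finrank ℚ K = 2 ^ k) ∧ UnrQ K

/-- The Galois group of K/F is isomorphic to A. -/
def GalIs (K : Type) [Field K] [Algebra F K] (A : Type) [Group A] : Prop :=
  Nonempty ((K ≃ₐ[F] K) ≃* A)

/-- H is isomorphic to a subgroup of the Galois group of K/F. -/
def GalSub (K : Type) [Field K] [Algebra F K] (H : Type) [Group H] : Prop :=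
  ∃ φ : H →* (K ≃ₐ[F] K), Function.Injective φ

/-- A totally real field with TwoQ and nonabelian Galois group over ℚ. -/
def RealNonab (K : Type) [Field K] [NumberField K] : Prop :=
  TwoQ K ∧ (∃ g h : K ≃ₐ[ℚ] K, g * h ≠ h * g) ∧ InfinitePlace.nrComplexPlaces K = 0

theorem final :
    (∀ (K : Type) [Field K] [NumberField K], InTwo K → BSD2 K) ∧
    (∀ (K : Type) [Field K] [NumberField K], TwoQ K → InTwo K) ∧
    (∃ (K : Type) (_ : Field K) (_ : NumberField K), RealNonab K) ∧
    (∀ (K : Type) [Field K] [NumberField K] [Algebra F K], Explicit K →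
      (∃ k : ℕ, Module.finrank F K = 2 ^ k) → TwoExt K ∧ UnrOut K) ∧
    (∀ (A : Type) [CommGroup A] [Finite A] (k : ℕ), Nat.card A = 2 ^ k → ∀ B : ℕ,
      ∃ (K : Type) (_ : Field K) (_ : NumberField K) (_ : Algebra F K), Two K B ∧
        GalIs K A) ∧
    (∀ (K : Type) [Field K] [NumberField K] [Algebra F K] (B : ℕ), Two K B →
      ∃ (K' : Type) (_ : Field K') (_ : NumberField K') (_ : Algebra F K') (_ : Algebra K K')
        (_ : IsScalarTower F K K'), Two K' B ∧
        GalIs K' (C2 ≀ᵣ (K ≃ₐ[F] K))) ∧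
    (∀ (H : Type) [Group H] [Finite H] (k : ℕ), Nat.card H = 2 ^ k → ∀ B : ℕ,
      ∃ (K : Type) (_ : Field K) (_ : NumberField K) (_ : Algebra F K), Two K B ∧
        GalSub K H) ∧
    (∀ n : ℕ, ∃ (K : Type) (_ : Field K) (_ : NumberField K) (_ : Algebra F K),
      Two K 0 ∧ n ≤ Module.finrank ℚ K ∧ ¬ IsGalois ℚ K) := by
  have hun : ∀ (K : Type) [Field K] [NumberField K] [Algebra F K], AbMod K → UnrOut K := by
    rintro K _ _ _ ⟨-, α, hα, hM⟩
    exact unrOut_of_modulus hα hM
  obtain ⟨-, f2, f3, f4, -, -⟩ := H55C.final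
  refine ⟨fun K _ _ h => bsd2_all K h, fun K _ _ h => inTwo_of_rat K h.1 h.2.1 h.2.2,
    ?_, ?_, ?_, ?_, ?_, ?_⟩
  · obtain ⟨K, i1, i2, h1, h2, h3, h4, h5⟩ := exists_real_nonabelian
    exact ⟨K, i1, i2, ⟨h1, h2, h3⟩, h4, h5⟩
  · intro K _ _ _ hE hk
    obtain ⟨h1, h2⟩ := f2 K hE hk
    exact ⟨h1, hun K h2⟩
  · intro A _ _ k hA B
    obtain ⟨K, i1, i2, i3, h1, h2, h3, h4⟩ := f3 A k hA B
    exact ⟨K, i1, i2, i3, ⟨h1, hun K h2, h4⟩, h3⟩
  · intro K _ _ _ B hT
    obtain ⟨K', i1, i2, i3, i4, i5, h1, h2, h3, h4⟩ := wreath_step K hT.1 hT.2.1 B hT.2.2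
    exact ⟨K', i1, i2, i3, i4, i5, ⟨h1, h2, h4⟩, h3⟩
  · intro H _ _ k hH B
    obtain ⟨K, i1, i2, i3, h1, h2, h3, h4⟩ := exists_embed k H hH B
    exact ⟨K, i1, i2, i3, ⟨h1, h2, h4⟩, h3⟩
  · intro n
    obtain ⟨K, i1, i2, i3, h1, h2, h3, h4⟩ := f4 n
    exact ⟨K, i1, i2, i3, ⟨h1, hun K h2, fun w _ => Nat.pos_of_ne_zero (by
      rw [Ne, Ideal.absNorm_eq_zero_iff]
      exact w.ne_bot)⟩, h3, h4⟩

end H55N
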